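import Pool.Agent.N254.SQ.Stm

/-!
# Project SQ: the Veronese image of a projective variety by quadratic forms
-/

set_option autoImplicit false

namespace Pool.Agent.N254.SQ

open MvPolynomial

section

variable {n N d : ℕ} {m : Fin (N + 1) → Fin (n + 1) → ℕ}

/-- the index of an exponent vector of degree `d` -/
noncomputable def verIdx (m : Fin (N + 1) → Fin (n + 1) → ℕ) (α : Fin (n + 1) → ℕ) :
    Fin (N + 1) := by
  classical exact if h : ∃ a, m a = α then h.choose else 0

theorem ver_idx (hm : Mon n N d m) (α : Fin (n + 1) → ℕ) (h : ∑ j, α j = d) :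
    m (verIdx m α) = α := by
  classical
  have h1 := hm.surj α h
  unfold verIdx
  rw [dif_pos h1]
  exact h1.choose_spec

theorem ver_sum_single (a : Fin (n + 1)) (k : ℕ) :
    ∑ j, (Pi.single a k : Fin (n + 1) → ℕ) j = k := by simp

/-- shift of one unit of the exponent vector -/
theorem ver_shift (hm : Mon n N d m) (c : Fin (N + 1)) (a j : Fin (n + 1)) (hj : 0 < m c j) :
    ∃ u, m u + Pi.single j 1 = m c + Pi.single a 1 := by
  have h1 : (m c + Pi.single a 1 - Pi.single j 1) + Pi.single j 1 = m c + Pi.single a 1 := by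
    funext i
    simp only [Pi.add_apply, Pi.sub_apply]
    refine Nat.sub_add_cancel ?_
    by_cases h : i = j
    · subst h; simp; omega
    · simp [Pi.single_eq_of_ne h]
  have h2 : ∑ i, (m c + Pi.single a 1 - Pi.single j 1 : Fin (n + 1) → ℕ) i = d := by
    have h3 := congrArg (fun f : Fin (n + 1) → ℕ => ∑ i, f i) h1
    simp only [Pi.add_apply, Finset.sum_add_distrib] at h3
    rw [ver_sum_single, ver_sum_single, hm.deg c] at h3
    simpa using h3
  refine ⟨verIdx m (m c + Pi.single a 1 - Pi.single j 1), ?_⟩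
  rw [ver_idx hm _ h2, h1]

theorem ver_mul_single {R : Type} [CommMonoid R] (x : Fin (n + 1) → R) (a : Fin (n + 1))
    (k : ℕ) : ∏ i, x i ^ (Pi.single a k : Fin (n + 1) → ℕ) i = x a ^ k := by
  rw [Finset.prod_eq_single a]
  · simp
  · intro i _ hi
    simp [Pi.single_eq_of_ne hi]
  · intro h
    exact absurd (Finset.mem_univ a) h

theorem ver_add {R : Type} [CommMonoid R] (x : Fin (n + 1) → R) (α β : Fin (n + 1) → ℕ) :
    ∏ i, x i ^ (α + β) i = (∏ i, x i ^ α i) * ∏ i, x i ^ β i := by
  simp only [Pi.add_apply, pow_add, Finset.prod_mul_distrib]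

theorem ver_eq_single (hm : Mon n N d m) (c : Fin (N + 1)) (a : Fin (n + 1))
    (h : ∀ j, j ≠ a → m c j = 0) : m c = Pi.single a d := by
  funext i
  by_cases hi : i = a
  · subst hi
    have h1 := hm.deg c
    rw [Finset.sum_eq_single i (fun j _ hj => h j hj)
      (fun h => absurd (Finset.mem_univ i) h)] at h1
    simp [h1]
  · rw [h i hi, Pi.single_eq_of_ne hi]

/-- the quadrics -/
noncomputable def verQ {K : Type} [Field K] {κ : Type} (m : Fin (N + 1) → Fin (n + 1) → ℕ)
    (d : ℕ) (F : κ → MvPolynomial (Fin (n + 1)) K) (g : κ → ℕ) :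
    (Fin (N + 1) × Fin (N + 1) × Fin (N + 1) × Fin (N + 1)) ⊕ (κ × Fin (n + 1)) →
      MvPolynomial (Fin (N + 1)) K := by
  classical
  exact Sum.elim
    (fun t => if m t.1 + m t.2.1 = m t.2.2.1 + m t.2.2.2 then
      X t.1 * X t.2.1 - X t.2.2.1 * X t.2.2.2 else 0)
    (fun t => (∑ α ∈ (F t.1).support, C (coeff α (F t.1)) *
      X (verIdx m ((α : Fin (n + 1) → ℕ) + Pi.single t.2 (d - g t.1)))) *
      X (verIdx m (Pi.single t.2 d)))

theorem verQ_inl {K : Type} [Field K] {κ : Type} (F : κ → MvPolynomial (Fin (n + 1)) K)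
    (g : κ → ℕ) (p q r s : Fin (N + 1)) (h : m p + m q = m r + m s) :
    verQ m d F g (Sum.inl (p, q, r, s)) = X p * X q - X r * X s := by
  classical
  unfold verQ
  simp [h]

theorem verQ_inr {K : Type} [Field K] {κ : Type} (F : κ → MvPolynomial (Fin (n + 1)) K)
    (g : κ → ℕ) (k : κ) (a : Fin (n + 1)) :
    verQ m d F g (Sum.inr (k, a)) = (∑ α ∈ (F k).support, C (coeff α (F k)) *
      X (verIdx m ((α : Fin (n + 1) → ℕ) + Pi.single a (d - g k)))) *
      X (verIdx m (Pi.single a d)) := rfl

theorem ver_hom {K : Type} [Field K] {κ : Type} (F : κ → MvPolynomial (Fin (n + 1)) K)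
    (g : κ → ℕ) (i : (Fin (N + 1) × Fin (N + 1) × Fin (N + 1) × Fin (N + 1)) ⊕ (κ × Fin (n + 1))) :
    (verQ m d F g i).IsHomogeneous 2 := by
  classical
  rcases i with ⟨p, q, r, s⟩ | ⟨k, a⟩
  · by_cases h : m p + m q = m r + m s
    · rw [verQ_inl F g p q r s h]
      exact ((isHomogeneous_X K p).mul (isHomogeneous_X K q)).sub
        ((isHomogeneous_X K r).mul (isHomogeneous_X K s))
    · have h1 : verQ m d F g (Sum.inl (p, q, r, s)) = 0 := by
        unfold verQ
        simp [h]
      rw [h1]
      exact isHomogeneous_zero _ _ _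
  · rw [verQ_inr]
    refine IsHomogeneous.mul (m := 1) (n := 1) ?_ (isHomogeneous_X K _)
    refine IsHomogeneous.sum _ _ _ fun α _ => ?_
    have := (isHomogeneous_C (Fin (N + 1)) (coeff α (F k))).mul (isHomogeneous_X K
      (verIdx m ((α : Fin (n + 1) → ℕ) + Pi.single a (d - g k))))
    simpa using this

theorem ver_support_deg {K : Type} [Field K] (P : MvPolynomial (Fin (n + 1)) K) (e : ℕ)
    (hP : P.IsHomogeneous e) (α : Fin (n + 1) →₀ ℕ) (hα : α ∈ P.support) : ∑ j, α j = e := by
  have h1 := hP (mem_support_iff.1 hα)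
  rw [Finsupp.weight_apply, Finsupp.sum_fintype] at h1
  · simpa using h1
  · intro i; simp

theorem ver_zero {K : Type} [Field K] (hm : Mon n N d m) {κ : Type}
    (F : κ → MvPolynomial (Fin (n + 1)) K)
    (g : κ → ℕ) (hF : ∀ k, (F k).IsHomogeneous (g k)) (hg : ∀ k, g k ≤ d)
    (Ω : Type) [Field Ω] [Algebra K Ω] (x : Fin (n + 1) → Ω) (hx : ∀ k, aeval x (F k) = 0)
    (i : (Fin (N + 1) × Fin (N + 1) × Fin (N + 1) × Fin (N + 1)) ⊕ (κ × Fin (n + 1))) :
    aeval (ver m x) (verQ m d F g i) = 0 := by
  classical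
  rcases i with ⟨p, q, r, s⟩ | ⟨k, a⟩
  · by_cases h : m p + m q = m r + m s
    · rw [verQ_inl F g p q r s h]
      simp only [map_sub, map_mul, aeval_X]
      unfold ver
      rw [← ver_add, ← ver_add, h, sub_self]
    · have h1 : verQ m d F g (Sum.inl (p, q, r, s)) = 0 := by
        unfold verQ
        simp [h]
      rw [h1, map_zero]
  · rw [verQ_inr, map_mul]
    refine mul_eq_zero_of_left ?_ _
    rw [map_sum]
    have h1 : ∀ α ∈ (F k).support, aeval (ver m x) (C (coeff α (F k)) *
        X (verIdx m ((α : Fin (n + 1) → ℕ) + Pi.single a (d - g k)))) =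
        (algebraMap K Ω (coeff α (F k)) * ∏ i, x i ^ α i) * x a ^ (d - g k) := by
      intro α hα
      have h2 := ver_support_deg (F k) (g k) (hF k) α hα
      have h3 : ∑ j, ((α : Fin (n + 1) → ℕ) + Pi.single a (d - g k) : Fin (n + 1) → ℕ) j = d := by
        simp only [Pi.add_apply, Finset.sum_add_distrib]
        rw [ver_sum_single, h2]
        have := hg k
        omega
      rw [map_mul, aeval_X, aeval_C]
      unfold ver
      rw [ver_idx hm _ h3, ver_add, ver_mul_single, mul_assoc]
    rw [Finset.sum_congr rfl h1, ← Finset.sum_mul]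
    have h2 := hx k
    rw [aeval_def, eval₂_eq'] at h2
    rw [h2, zero_mul]

/-- the relation of the quadrics of the first kind -/
theorem ver_rel {K : Type} [Field K] {κ : Type}
    (F : κ → MvPolynomial (Fin (n + 1)) K) (g : κ → ℕ)
    (Ω : Type) [Field Ω] [Algebra K Ω] (y : Fin (N + 1) → Ω)
    (hy : ∀ i, aeval y (verQ m d F g i) = 0) (p q r s : Fin (N + 1)) (h : m p + m q = m r + m s) :
    y p * y q = y r * y s := by
  have h1 := hy (Sum.inl (p, q, r, s))
  rw [verQ_inl F g p q r s h] at h1
  simp only [map_sub, map_mul, aeval_X] at h1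
  exact sub_eq_zero.1 h1

/-- a coordinate which is a pure power does not vanish -/
theorem ver_exists (hm : Mon n N d m) (hd : 1 ≤ d) {Ω : Type} [Field Ω] (y : Fin (N + 1) → Ω)
    (hy0 : y ≠ 0) (hrel : ∀ p q r s : Fin (N + 1), m p + m q = m r + m s → y p * y q = y r * y s) :
    ∃ (a : Fin (n + 1)) (b : Fin (N + 1)), m b = Pi.single a d ∧ y b ≠ 0 := by
  classical
  obtain ⟨c₀, hc₀⟩ : ∃ c, y c ≠ 0 := by
    by_contra hcon
    push Not at hcon
    exact hy0 (funext hcon)
  obtain ⟨⟨c, a⟩, hca, hmax⟩ := Finset.exists_max_image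
    (Finset.univ.filter fun t : Fin (N + 1) × Fin (n + 1) => y t.1 ≠ 0)
    (fun t => m t.1 t.2) ⟨(c₀, 0), by simp [hc₀]⟩
  have hc : y c ≠ 0 := by simpa using hca
  have hmax' : ∀ c' a', y c' ≠ 0 → m c' a' ≤ m c a := fun c' a' h =>
    hmax (c', a') (by simp [h])
  have hpos : 0 < m c a := by
    by_contra hcon
    have h1 : ∀ j, m c j = 0 := fun j => by
      have := hmax' c j hc
      omega
    have h2 := hm.deg c
    rw [Finset.sum_eq_zero (fun j _ => h1 j)] at h2
    omega
  refine ⟨a, c, ver_eq_single hm c a fun j hj => ?_, hc⟩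
  by_contra hcon
  have hj' : 0 < m c j := Nat.pos_of_ne_zero hcon
  obtain ⟨u, hu⟩ := ver_shift hm c a j hj'
  obtain ⟨w, hw⟩ := ver_shift hm c j a hpos
  have h1 : m c + m c = m u + m w := by
    funext i
    have h2 := congrFun hu i
    have h3 := congrFun hw i
    simp only [Pi.add_apply] at h2 h3 ⊢
    omega
  have h2 := hrel _ _ _ _ h1
  have h3 : y u ≠ 0 := by
    intro h0
    rw [h0, zero_mul] at h2
    exact mul_ne_zero hc hc h2
  have h4 := hmax' u a h3
  have h5 := congrFun hu a
  simp only [Pi.add_apply, Pi.single_eq_same, Pi.single_eq_of_ne hj.symm] at h5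
  omega

theorem ver_point (hm : Mon n N d m) (hd : 1 ≤ d) {Ω : Type} [Field Ω] (y : Fin (N + 1) → Ω)
    (hrel : ∀ p q r s : Fin (N + 1), m p + m q = m r + m s → y p * y q = y r * y s)
    (a : Fin (n + 1)) (b : Fin (N + 1)) (hb : m b = Pi.single a d) (hyb : y b ≠ 0)
    (t : Fin (n + 1) → Fin (N + 1))
    (ht : ∀ j, m (t j) + Pi.single a 1 = m b + Pi.single j 1) (c : Fin (N + 1)) :
    y c = y b * ver m (fun j => y (t j) / y b) c := by
  have hta : t a = b := hm.inj (by
    have := ht a
    exact add_right_cancel this)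
  obtain ⟨x, hx⟩ : ∃ x : Fin (n + 1) → Ω, x = fun j => y (t j) / y b := ⟨_, rfl⟩
  rw [← hx]
  have hxa : x a = 1 := by rw [hx]; simp only [hta]; exact div_self hyb
  obtain ⟨k, hk⟩ : ∃ k, d - m c a = k := ⟨_, rfl⟩
  induction k generalizing c with
  | zero =>
    have h1 : ∀ j, j ≠ a → m c j = 0 := by
      intro j hj
      have h2 := hm.deg c
      have h3 : m c a + m c j ≤ ∑ i, m c i := by
        have h4 : ∑ i ∈ ({a, j} : Finset (Fin (n + 1))), m c i ≤ ∑ i, m c i :=
          Finset.sum_le_sum_of_subset (Finset.subset_univ _)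
        rwa [Finset.sum_pair hj.symm] at h4
      omega
    have h2 : c = b := hm.inj (by rw [hb]; exact ver_eq_single hm c a h1)
    rw [h2]
    unfold ver
    rw [hb, ver_mul_single, hxa, one_pow, mul_one]
  | succ k ih =>
    obtain ⟨j, hj, hcj⟩ : ∃ j, j ≠ a ∧ 0 < m c j := by
      by_contra hcon
      push Not at hcon
      have h1 := ver_eq_single hm c a fun j hj => Nat.le_zero.1 (hcon j hj)
      rw [h1, Pi.single_eq_same] at hk
      omega
    obtain ⟨u, hu⟩ := ver_shift hm c a j hcj
    have hua : m u a = m c a + 1 := by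
      have h5 := congrFun hu a
      simpa only [Pi.add_apply, Pi.single_eq_same, Pi.single_eq_of_ne hj.symm, add_zero] using h5
    have h1 := ih u (by omega)
    have h2 : m c + m b = m u + m (t j) := by
      funext i
      have h3 := congrFun hu i
      have h4 := congrFun (ht j) i
      simp only [Pi.add_apply] at h3 h4 ⊢
      omega
    have h3 := hrel _ _ _ _ h2
    have h4 : ver m x c * x a = ver m x u * x j := by
      unfold ver
      have h5 := congrArg (fun α : Fin (n + 1) → ℕ => ∏ i, x i ^ α i) hu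
      rw [ver_add, ver_add, ver_mul_single, ver_mul_single, pow_one, pow_one] at h5
      exact h5.symm
    rw [hxa, mul_one] at h4
    have h5 : y (t j) = x j * y b := by rw [hx]; simp only; field_simp
    rw [h4, ← mul_assoc, ← h1]
    apply mul_right_cancel₀ hyb
    rw [h3, h5, mul_assoc]

theorem ver_aeval_pderiv {K Ω : Type} [Field K] [Field Ω] [Algebra K Ω] (y : Fin (N + 1) → Ω)
    (p q r s c : Fin (N + 1)) :
    aeval y (pderiv c (X p * X q - X r * X s : MvPolynomial (Fin (N + 1)) K)) =
      ((if p = c then 1 else 0) * y q + (if q = c then 1 else 0) * y p) -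
        ((if r = c then 1 else 0) * y s + (if s = c then 1 else 0) * y r) := by
  have h : ∀ i : Fin (N + 1), (aeval y (pderiv c (X i : MvPolynomial (Fin (N + 1)) K)) : Ω) =
      if i = c then 1 else 0 := by
    intro i
    rw [pderiv_X]
    by_cases hi : i = c
    · subst hi; simp
    · simp [hi]
  simp only [map_sub, map_add, Derivation.leibniz, smul_eq_mul, map_mul, aeval_X, h]
  ring

theorem ver_rank (hm : Mon n N d m) {K : Type} [Field K] {κ : Type} [Fintype κ]
    (F : κ → MvPolynomial (Fin (n + 1)) K) (g : κ → ℕ)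
    (Ω : Type) [Field Ω] [Algebra K Ω] (y : Fin (N + 1) → Ω)
    (a : Fin (n + 1)) (b : Fin (N + 1)) (hb : m b = Pi.single a d) (hyb : y b ≠ 0)
    (t : Fin (n + 1) → Fin (N + 1))
    (ht : ∀ j, m (t j) + Pi.single a 1 = m b + Pi.single j 1) :
    N ≤ n + (Matrix.of fun (i : (Fin (N + 1) × Fin (N + 1) × Fin (N + 1) × Fin (N + 1)) ⊕
      (κ × Fin (n + 1))) (j : Fin (N + 1)) =>
        (aeval y (pderiv j (verQ m d F g i)) : Ω)).rank := by
  classical
  have hta : t a = b := hm.inj (add_right_cancel (ht a))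
  have hex : ∀ c : {c : Fin (N + 1) // c ∉ Finset.univ.image t}, ∃ (j : Fin (n + 1))
      (u : Fin (N + 1)), j ≠ a ∧ m u + Pi.single j 1 = m c + Pi.single a 1 := by
    intro c
    obtain ⟨j, hj, hcj⟩ : ∃ j, j ≠ a ∧ 0 < m c j := by
      by_contra hcon
      push Not at hcon
      have h1 := ver_eq_single hm c a fun j hj => Nat.le_zero.1 (hcon j hj)
      have h2 : (c : Fin (N + 1)) = b := hm.inj (by rw [h1, hb])
      exact c.2 (by rw [h2, ← hta]; exact Finset.mem_image_of_mem t (Finset.mem_univ a))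
    obtain ⟨u, hu⟩ := ver_shift hm c a j hcj
    exact ⟨j, u, hj, hu⟩
  choose j u hja hu using hex
  have hnt : ∀ (c : {c : Fin (N + 1) // c ∉ Finset.univ.image t}) (i : Fin (n + 1)),
      t i ≠ c := fun c i h => c.2 (by
    rw [← h]; exact Finset.mem_image_of_mem t (Finset.mem_univ i))
  have hua : ∀ c, m (u c) a = m c a + 1 := fun c => by
    have h5 := congrFun (hu c) a
    simpa only [Pi.add_apply, Pi.single_eq_same, Pi.single_eq_of_ne (hja c).symm, add_zero]
      using h5
  set J := Matrix.of fun (i : (Fin (N + 1) × Fin (N + 1) × Fin (N + 1) × Fin (N + 1)) ⊕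
      (κ × Fin (n + 1))) (j : Fin (N + 1)) =>
        (aeval y (pderiv j (verQ m d F g i)) : Ω) with hJ
  set row : {c : Fin (N + 1) // c ∉ Finset.univ.image t} →
      (Fin (N + 1) × Fin (N + 1) × Fin (N + 1) × Fin (N + 1)) ⊕ (κ × Fin (n + 1)) :=
    fun c => Sum.inl ((c : Fin (N + 1)), b, u c, t (j c)) with hrow
  have hJrow : ∀ c c', J (row c') c =
      ((if (c' : Fin (N + 1)) = c then 1 else 0) * y b + (if b = c then 1 else 0) * y c') -
        ((if u c' = c then 1 else 0) * y (t (j c')) +
          (if t (j c') = c then 1 else 0) * y (u c')) := by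
    intro c c'
    have h1 : m c' + m b = m (u c') + m (t (j c')) := by
      funext i
      have h3 := congrFun (hu c') i
      have h4 := congrFun (ht (j c')) i
      simp only [Pi.add_apply] at h3 h4 ⊢
      omega
    show (aeval y (pderiv c (verQ m d F g (Sum.inl ((c' : Fin (N + 1)), b, u c', t (j c'))))) : Ω)
      = _
    rw [verQ_inl F g _ _ _ _ h1, ver_aeval_pderiv]
  have hli : LinearIndependent Ω fun c => J (row c) := by
    rw [Fintype.linearIndependent_iff]
    intro l hl
    by_contra hcon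
    push Not at hcon
    obtain ⟨c₀, hc₀⟩ := hcon
    obtain ⟨c, hc, hmin⟩ := Finset.exists_min_image
      (Finset.univ.filter fun c => l c ≠ 0) (fun c => m c a) ⟨c₀, by simp [hc₀]⟩
    have hlc : l c ≠ 0 := by simpa using hc
    have h1 := congrFun hl (c : Fin (N + 1))
    rw [Finset.sum_apply, Finset.sum_eq_single c] at h1
    · simp only [Pi.smul_apply, smul_eq_mul, Pi.zero_apply] at h1
      rw [hJrow (c : Fin (N + 1)) c, if_pos rfl, if_neg (hnt c (j c)),
        if_neg (by rw [← hta]; exact hnt c a), if_neg (by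
          intro h
          have := hua c
          rw [h] at this
          omega)] at h1
      simp only [one_mul, zero_mul, add_zero, sub_zero] at h1
      exact mul_ne_zero hlc hyb h1
    · intro c' _ hc'
      by_cases hlc' : l c' = 0
      · simp [hlc']
      · have h2 := hmin c' (by simp [hlc'])
        have h3 : J (row c') c = 0 := by
          rw [hJrow (c : Fin (N + 1)) c', if_neg (fun h => hc' (Subtype.ext h)),
            if_neg (hnt c (j c')), if_neg (by rw [← hta]; exact hnt c a), if_neg (by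
              intro h
              have := hua c'
              rw [h] at this
              omega)]
          ring
        simp [h3]
    · intro h
      exact absurd (Finset.mem_univ c) h
  have hcard : N - n ≤ Fintype.card {c : Fin (N + 1) // c ∉ Finset.univ.image t} := by
    rw [Fintype.card_subtype_compl, Fintype.card_coe, Fintype.card_fin]
    have := Finset.card_image_le (s := (Finset.univ : Finset (Fin (n + 1)))) (f := t)
    rw [Finset.card_univ, Fintype.card_fin] at this
    omega
  have hrank : Fintype.card {c : Fin (N + 1) // c ∉ Finset.univ.image t} ≤ J.rank := by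
    rw [Matrix.rank_eq_finrank_span_row, ← finrank_span_eq_card hli]
    refine Submodule.finrank_mono (Submodule.span_mono ?_)
    rintro _ ⟨c, rfl⟩
    exact ⟨row c, rfl⟩
  omega

theorem t_ver : Ver_stm := by
  intro K _ _ n N d m hm hd κ _ F g hF hg
  have : Fintype κ := Fintype.ofFinite κ
  refine ⟨(Fin (N + 1) × Fin (N + 1) × Fin (N + 1) × Fin (N + 1)) ⊕ (κ × Fin (n + 1)),
    inferInstance, verQ m d F g, ver_hom F g, fun Ω _ _ x hx i => ver_zero hm F g hF hg Ω x hx i,
    fun Ω _ _ y hy0 hy => ?_⟩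
  have hrel := ver_rel F g Ω y hy
  obtain ⟨a, b, hb, hyb⟩ := ver_exists hm hd y hy0 hrel
  have hba : 0 < m b a := by rw [hb, Pi.single_eq_same]; exact hd
  choose t ht using fun j => ver_shift hm b j a hba
  have hta : t a = b := hm.inj (add_right_cancel (ht a))
  refine ⟨ver_rank hm F g Ω y a b hb hyb t ht, fun j => y (t j) / y b, a, b, ?_, hyb,
    fun c => ver_point hm hd y hrel a b hb hyb t ht c, fun k => ?_⟩
  · simp only [hta]; exact div_self hyb
  · have hpt := ver_point hm hd y hrel a b hb hyb t ht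
    obtain ⟨x, hx⟩ : ∃ x : Fin (n + 1) → Ω, x = fun j => y (t j) / y b := ⟨_, rfl⟩
    rw [← hx] at hpt ⊢
    have hxa : x a = 1 := by rw [hx]; simp only [hta]; exact div_self hyb
    have h0 := hy (Sum.inr (k, a))
    rw [verQ_inr, map_mul, aeval_X] at h0
    have hbi : verIdx m (Pi.single a d) = b := hm.inj (by
      rw [ver_idx hm _ (ver_sum_single a d), hb])
    rw [hbi] at h0
    have h1 := (mul_eq_zero.1 h0).resolve_right hyb
    rw [map_sum] at h1
    have h2 : ∀ α ∈ (F k).support, (aeval y (C (coeff α (F k)) *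
        X (verIdx m ((α : Fin (n + 1) → ℕ) + Pi.single a (d - g k)))) : Ω) =
        y b * (algebraMap K Ω (coeff α (F k)) * ∏ i, x i ^ α i) := by
      intro α hα
      have h2 := ver_support_deg (F k) (g k) (hF k) α hα
      have h3 : ∑ j, ((α : Fin (n + 1) → ℕ) + Pi.single a (d - g k) : Fin (n + 1) → ℕ) j = d := by
        simp only [Pi.add_apply, Finset.sum_add_distrib]
        rw [ver_sum_single, h2]
        have := hg k
        omega
      rw [map_mul, aeval_X, aeval_C, hpt]
      unfold ver
      rw [ver_idx hm _ h3, ver_add, ver_mul_single, hxa, one_pow]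
      ring
    rw [Finset.sum_congr rfl h2, ← Finset.mul_sum] at h1
    have h3 := (mul_eq_zero.1 h1).resolve_left hyb
    rw [aeval_def, eval₂_eq']
    exact h3

end

end Pool.Agent.N254.SQ
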