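import Pool.Agent.N254.SQ.StmA
import Pool.Agent.W603.CX.Basic

/-!
Project SQ, eighth part: transfer of algebraic hyperbolicity. Lean proof: helper768.
-/

set_option autoImplicit false

namespace Pool.Agent.N254.SQ

open MvPolynomial FF
open Pool.Agent.W603.LV (canDeg hgt tri)
open Pool.Agent.W603.PV (pht)

theorem algiff_nonneg {E : Type} [Field E] [Algebra ℂ E] [IsFF ℂ E] {n : ℕ}
    {y : Fin (n + 1) → E} (hy : y ≠ 0) : 0 ≤ pht ℂ y := by
  obtain ⟨j, hj⟩ : ∃ j, y j ≠ 0 := by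
    by_contra hcon
    push Not at hcon
    exact hy (funext hcon)
  exact (Pool.Agent.W603.LV.hgt_nonneg (k := ℂ) _).trans
    (Pool.Agent.W603.CX.hgt_le_pht (k := ℂ) y hj hj)

theorem algiff_up {n N d : ℕ} {m : Fin (N + 1) → Fin (n + 1) → ℕ}
    {S : Set (MvPolynomial (Fin (n + 1)) ℂ)} {A : MvPolynomial (Fin (N + 1)) ℂ} (h : Hform)
    (hg : Good n N d m S A) {E : Type} [Field E] [Algebra ℂ E] [IsFF ℂ E]
    {y : Fin (n + 1) → E} (hy : y ≠ 0) : pht ℂ y ≤ pht ℂ (ver m y) := by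
  have h1 := h.ver ℂ E n N d m hg.mon y 1 hy one_ne_zero
  rw [one_smul] at h1
  rw [h1]
  have h2 := algiff_nonneg hy
  have h3 : (1 : ℤ) ≤ d := by exact_mod_cast hg.deg
  nlinarith

theorem algiff_mem {n N d : ℕ} {m : Fin (N + 1) → Fin (n + 1) → ℕ}
    {S : Set (MvPolynomial (Fin (n + 1)) ℂ)} {A : MvPolynomial (Fin (N + 1)) ℂ}
    (hg : Good n N d m S A) {E : Type} [Field E] [Algebra ℂ E]
    {y : Fin (n + 1) → E} (hyS : ∀ p ∈ S, aeval y p = 0) :
    ∀ p ∈ ({A} : Set (MvPolynomial (Fin (N + 1)) ℂ)), aeval (ver m y) p = 0 := by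
  intro p hp
  rw [Set.mem_singleton_iff] at hp
  subst hp
  exact hg.sub E y hyS

theorem algiff_pull {n N : ℕ} {m : Fin (N + 1) → Fin (n + 1) → ℕ}
    {G : MvPolynomial (Fin (N + 1)) ℂ} (hG : IsForm G) {E : Type} [Field E] [Algebra ℂ E]
    {x : Fin (n + 1) → E} {c : E} (hc : c ≠ 0) (h : aeval (c • ver m x) G ≠ 0) :
    aeval x (pull m G) ≠ 0 := by
  intro h0
  apply h
  rw [aeval_zero_of hG hc, ← aeval_pull]
  exact h0

/-- ALGIFF -/
theorem t_algiff (h : Hform) : AlgIff where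
  algebraic n N d m S A hg hga G hG := by
    constructor
    · rintro ⟨α, hα⟩
      refine ⟨α, fun E _ _ _ y hy hyS hyG => ?_⟩
      exact (algiff_up h hg hy).trans (hα E (ver m y) (ver_ne_zero hg.mon hg.deg hy)
        (algiff_mem hg hyS) (by rw [← aeval_pull]; exact hyG))
    · rintro ⟨α, hα⟩
      refine ⟨d * α + 1, fun E _ _ _ y hy hyA hyG => ?_⟩
      have h0 : (0 : ℤ) ≤ max (canDeg ℂ E) 0 := le_max_right _ _
      rcases hga E y hy (hyA A rfl) with h1 | ⟨x, c, hx, hc, hxS, rfl⟩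
      · refine h1.trans ?_
        push_cast
        have h2 : (0 : ℤ) ≤ (d : ℤ) * α * max (canDeg ℂ E) 0 := by positivity
        linarith
      · have h2 := hα E x hx hxS (algiff_pull hG hc hyG)
        rw [h.ver ℂ E n N d m hg.mon x c hx hc]
        have h3 : (d : ℤ) * pht ℂ x ≤ d * (α * max (canDeg ℂ E) 0) :=
          mul_le_mul_of_nonneg_left h2 (Int.natCast_nonneg d)
        push_cast
        linarith
  bounded n N d m S A hg hga G hG := by
    constructor
    · intro hb E _ _ _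
      obtain ⟨B, hB⟩ := hb E
      refine ⟨B, fun y hy hyS hyG => ?_⟩
      exact (algiff_up h hg hy).trans (hB (ver m y) (ver_ne_zero hg.mon hg.deg hy)
        (algiff_mem hg hyS) (by rw [← aeval_pull]; exact hyG))
    · intro hb E _ _ _
      obtain ⟨B, hB⟩ := hb E
      refine ⟨max (max (canDeg ℂ E) 0) (d * B), fun y hy hyA hyG => ?_⟩
      rcases hga E y hy (hyA A rfl) with h1 | ⟨x, c, hx, hc, hxS, rfl⟩
      · exact h1.trans (le_max_left _ _)
      · have h2 := hB x hx hxS (algiff_pull hG hc hyG)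
        rw [h.ver ℂ E n N d m hg.mon x c hx hc]
        exact (mul_le_mul_of_nonneg_left h2 (Int.natCast_nonneg d)).trans (le_max_right _ _)

end Pool.Agent.N254.SQ
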