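import Pool.Agent.N254.SQ.StmA

/-!
Project SQ, eighth part: ALG, size of the blocks over function fields. By helper814.
-/

set_option autoImplicit false

namespace Pool.Agent.N254.SQ

open MvPolynomial FF
open Pool.Agent.W603.LV (canDeg hgt tri)
open Pool.Agent.W603.PV (pht)

theorem t_alg (h1 : Hblk_stm) (h2 : Hform) : Alg_stm := by
  classical
  intro n e M
  obtain ⟨T, hT⟩ : ∃ T : ℕ, T = (tri M).toNat := ⟨_, rfl⟩
  have hT0 : tri M = (T : ℤ) := by
    rw [hT, Int.toNat_of_nonneg (Pool.Agent.W603.LV.tri_nonneg M)]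
  refine ⟨(n + 1) * (2 * M ^ 2 * T * e + e) + (n + 1) * (2 * M * T) + 2 * M ^ 2 + 1, ?_⟩
  intro D hD k _ _ _ E _ _ _ κ _ hκM hκn hκ2 G p hp hG y hy hsum hmin
  have hD1 : 1 ≤ D := by omega
  have hDM : 2 * M ^ 2 ≤ D := by omega
  -- the terms are not zero
  have hne : ∀ t, aeval y (G t) * aeval y (lin k n (p t)) ^ D ≠ 0 := by
    intro t
    have h3 := hmin {t} (Finset.singleton_nonempty t) (by
      intro h
      have h4 := congrArg Finset.card h
      rw [Finset.card_singleton, Finset.card_univ] at h4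
      omega)
    rwa [Finset.sum_singleton] at h3
  have hGne : ∀ t, aeval y (G t) ≠ 0 := fun t => left_ne_zero_of_mul (hne t)
  have hlne : ∀ t, aeval y (lin k n (p t)) ≠ 0 := by
    intro t h
    apply hne t
    rw [h, zero_pow (by omega), mul_zero]
  have hz := fun t => h2.zeros k E n e y hy (G t) (hG t) (hGne t)
  choose S hS1 hS2 using hz
  obtain ⟨h, hh⟩ : ∃ h, h = pht k y := ⟨_, rfl⟩
  obtain ⟨t0⟩ : Nonempty κ := Fintype.card_pos_iff.1 (by omega)
  have heh : 0 ≤ (e : ℤ) * h := by
    rw [hh]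
    exact le_trans (Int.natCast_nonneg _) (hS1 t0)
  obtain ⟨SS, hSS⟩ : ∃ SS, SS = Finset.univ.biUnion S := ⟨_, rfl⟩
  have hcard : (SS.card : ℤ) ≤ M * (e * h) := by
    have h3 : SS.card ≤ ∑ t, (S t).card := by rw [hSS]; exact Finset.card_biUnion_le
    have h4 : (SS.card : ℤ) ≤ ∑ t, ((S t).card : ℤ) := by exact_mod_cast h3
    have h5 : ∑ t, ((S t).card : ℤ) ≤ ∑ _t : κ, (e * h : ℤ) := by
      refine Finset.sum_le_sum fun t _ => ?_
      rw [hh]
      exact hS1 t
    rw [Finset.sum_const, Finset.card_univ, nsmul_eq_mul] at h5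
    have h6 : (Fintype.card κ : ℤ) * (e * h) ≤ M * (e * h) :=
      mul_le_mul_of_nonneg_right (by exact_mod_cast hκM) heh
    linarith
  -- the height inequality
  have hblk := h1 k E SS κ M D hκM hD1 hDM
    (fun t => aeval y (G t) * aeval y (lin k n (p t)) ^ D) hne hsum hmin (by
      intro P hP i j hij
      have hP' : ∀ t, P ∉ S t := by
        intro t ht
        apply hP
        rw [hSS, Finset.mem_biUnion]
        exact ⟨t, Finset.mem_univ t, ht⟩
      have hord : ∀ t, P.ord (aeval y (G t) * aeval y (lin k n (p t)) ^ D) =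
          e * Pool.Agent.W603.PV.pord P y + D * P.ord (aeval y (lin k n (p t))) := by
        intro t
        rw [P.ord_mul (hGne t) (pow_ne_zero _ (hlne t)), P.ord_pow, hS2 t P (hP' t)]
      simp only [hord] at hij ⊢
      have h3 : (D : ℤ) * P.ord (aeval y (lin k n (p j))) <
          D * P.ord (aeval y (lin k n (p i))) := by linarith
      have h4 : P.ord (aeval y (lin k n (p j))) < P.ord (aeval y (lin k n (p i))) :=
        lt_of_mul_lt_mul_left h3 (by positivity)
      have h5 : (D : ℤ) * (P.ord (aeval y (lin k n (p j))) + 1) ≤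
          D * P.ord (aeval y (lin k n (p i))) :=
        mul_le_mul_of_nonneg_left (by omega) (by positivity)
      linarith)
  obtain ⟨χ, hχ⟩ : ∃ χ, χ = max (canDeg k E) 0 := ⟨_, rfl⟩
  have hχ0 : 0 ≤ χ := by rw [hχ]; exact le_max_right _ _
  have hM0 : (0 : ℤ) ≤ M := by positivity
  have hTT : (0 : ℤ) ≤ T := by positivity
  have hmax : max (canDeg k E + SS.card) 0 ≤ χ + M * (e * h) := by
    have h3 : canDeg k E ≤ χ := by rw [hχ]; exact le_max_left _ _
    have h4 : 0 ≤ (M : ℤ) * (e * h) := mul_nonneg hM0 heh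
    exact max_le (by linarith) (by linarith)
  have hrat : ∀ i j, (D : ℤ) * hgt k (aeval y (lin k n (p i)) / aeval y (lin k n (p j))) ≤
      M * (2 * T * (χ + M * (e * h))) + e * h := by
    intro i j
    have h3 := hblk i j
    have hij : aeval y (lin k n (p i)) / aeval y (lin k n (p j)) ≠ 0 := div_ne_zero (hlne i) (hlne j)
    rw [← Pool.Agent.W603.LV.hgt_pow hij D]
    have h4 : (aeval y (lin k n (p i)) / aeval y (lin k n (p j))) ^ D =
        ((aeval y (G i) * aeval y (lin k n (p i)) ^ D) /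
          (aeval y (G j) * aeval y (lin k n (p j)) ^ D)) * (aeval y (G j) / aeval y (G i)) := by
      have h5 := hGne i
      have h6 := hGne j
      have h7 := hlne i
      have h8 := hlne j
      rw [div_pow]
      field_simp
    rw [h4]
    refine (Pool.Agent.W603.LV.hgt_mul (div_ne_zero (hne i) (hne j))
      (div_ne_zero (hGne j) (hGne i))).trans ?_
    have h5 := h2.ratio k E n e y hy (G j) (G i) (hG j) (hG i) (hGne j) (hGne i)
    rw [← hh] at h5
    have h6 : (M : ℤ) * (2 * tri M * max (canDeg k E + SS.card) 0) ≤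
        M * (2 * T * (χ + M * (e * h))) := by
      rw [hT0]
      exact mul_le_mul_of_nonneg_left (mul_le_mul_of_nonneg_left hmax (by positivity)) hM0
    linarith
  -- the linear forms
  obtain ⟨q⟩ : Nonempty (Fin (n + 1) ↪ κ) :=
    Function.Embedding.nonempty_of_card_le (by rw [Fintype.card_fin]; exact hκn)
  have htop := h2.top k E n y hy (fun i => p (q i)) (fun a b hab => q.injective (hp hab))
    (fun i => hlne (q i))
  rw [← hh] at htop ⊢
  rw [← hχ]
  have hmain : (D : ℤ) * h ≤ (n + 1) * (M * (2 * T * (χ + M * (e * h))) + e * h) := by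
    have h3 := mul_le_mul_of_nonneg_left htop (by positivity : (0 : ℤ) ≤ D)
    refine h3.trans ?_
    rw [Finset.mul_sum]
    refine (Finset.sum_le_sum fun i _ => hrat (q i) (q 0)).trans ?_
    rw [Finset.sum_const, Finset.card_univ, Fintype.card_fin, nsmul_eq_mul]
    push_cast
    exact le_rfl
  by_contra hcon
  push Not at hcon
  have hh0 : 0 < h := by linarith
  have hDc : ((n : ℤ) + 1) * (2 * M ^ 2 * T * e + e) + (n + 1) * (2 * M * T) + 2 * M ^ 2 + 1 ≤ D := by
    exact_mod_cast hD
  have h3 := mul_le_mul_of_nonneg_right hDc hh0.le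
  have h4 : ((n : ℤ) + 1) * (2 * M * T) * χ ≤ (n + 1) * (2 * M * T) * h :=
    mul_le_mul_of_nonneg_left hcon.le (by positivity)
  have h5 : 0 ≤ 2 * (M : ℤ) ^ 2 * h := by positivity
  linarith

end Pool.Agent.N254.SQ
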