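import Pool.Agent.N254.SQ.Stm

/-!
A general point of the coefficients has no `2 n + 1` disjoint vanishing subsums.
-/

set_option autoImplicit false

namespace Pool.Agent.N254.SQ

open MvPolynomial

/-- a block of the equation -/
noncomputable def blocksP (K : Type) [Field K] (n L D : ℕ) (ι : Type) [Fintype ι]
    (q : ι → MvPolynomial (Fin (n + 1)) K) (B : Finset (Fin L)) :
    MvPolynomial ((Fin L × ι) ⊕ Fin (n + 1)) K :=
  ∑ t ∈ B, (∑ i, X (Sum.inl (t, i)) * rename Sum.inr (q i)) *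
    rename Sum.inr (lin K n (t : ℕ)) ^ D

theorem blocksP_eval {K : Type} [Field K] {n L D : ℕ} {ι : Type} [Fintype ι]
    (q : ι → MvPolynomial (Fin (n + 1)) K) (B : Finset (Fin L)) {Ω : Type} [Field Ω] [Algebra K Ω]
    (c : Fin L × ι → Ω) (x : Fin (n + 1) → Ω) :
    aeval (Sum.elim c x) (blocksP K n L D ι q B) =
      ∑ t ∈ B, (∑ i, c (t, i) * aeval x (q i)) * aeval x (lin K n (t : ℕ)) ^ D := by
  unfold blocksP
  simp only [map_sum, map_mul, map_pow, aeval_X, aeval_rename, Sum.elim_inl, Sum.elim_comp_inr]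

theorem blocks_smul {K Ω : Type} [Field K] [Field Ω] [Algebra K Ω] {n e : ℕ}
    {p : MvPolynomial (Fin (n + 1)) K} (hp : p.IsHomogeneous e) (c : Ω) (x : Fin (n + 1) → Ω) :
    aeval (fun j => c * x j) p = c ^ e * aeval x p := by
  rw [aeval_def, aeval_def, eval₂_eq', eval₂_eq', Finset.mul_sum]
  refine Finset.sum_congr rfl fun d hd => ?_
  have h1 : ∑ i, d i = e := by
    have h2 := hp (mem_support_iff.1 hd)
    rw [Finsupp.weight_apply, Finsupp.sum_fintype _ _ (by simp)] at h2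
    simpa using h2
  simp_rw [mul_pow]
  rw [Finset.prod_mul_distrib, Finset.prod_pow_eq_pow_sum, h1]
  ring

theorem blocks_lin {K Ω : Type} [Field K] [Field Ω] [Algebra K Ω] (n t : ℕ)
    (x : Fin (n + 1) → Ω) :
    aeval x (lin K n t) = ∑ j : Fin (n + 1), (t : Ω) ^ (j : ℕ) * x j := by
  unfold lin
  rw [map_sum]
  refine Finset.sum_congr rfl fun j _ => ?_
  rw [map_mul, aeval_C, aeval_X, map_pow, map_natCast]

/-- few of the linear forms vanish at a point -/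
theorem blocks_bad {K Ω : Type} [Field K] [Field Ω] [CharZero Ω] [Algebra K Ω] (n L : ℕ)
    (x : Fin (n + 1) → Ω) (a : Fin (n + 1)) (hxa : x a = 1) (T : Finset (Fin L))
    (hT : ∀ t ∈ T, aeval x (lin K n (t : ℕ)) = 0) : T.card ≤ n := by
  classical
  obtain ⟨p, hp⟩ : ∃ p : Polynomial Ω, p = ∑ j : Fin (n + 1),
    Polynomial.C (x j) * Polynomial.X ^ (j : ℕ) := ⟨_, rfl⟩
  have hdeg : p.natDegree ≤ n := by
    rw [hp]
    refine Polynomial.natDegree_sum_le_of_forall_le _ _ fun j _ => ?_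
    exact (Polynomial.natDegree_C_mul_X_pow_le _ _).trans (Nat.lt_succ_iff.1 j.2)
  have hp0 : p ≠ 0 := by
    intro h
    have h1 : p.coeff (a : ℕ) = 1 := by
      rw [hp, Polynomial.finsetSum_coeff, Finset.sum_eq_single a]
      · rw [Polynomial.coeff_C_mul_X_pow, if_pos rfl, hxa]
      · intro b _ hb
        rw [Polynomial.coeff_C_mul_X_pow, if_neg]
        intro h2
        exact hb (Fin.ext h2.symm)
      · intro h2
        exact absurd (Finset.mem_univ a) h2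
    rw [h, Polynomial.coeff_zero] at h1
    exact zero_ne_one h1
  have h1 : T.card ≤ p.roots.toFinset.card := by
    refine Finset.card_le_card_of_injOn (fun t => ((t : ℕ) : Ω)) (fun t ht => ?_) ?_
    · rw [Finset.mem_coe, Multiset.mem_toFinset, Polynomial.mem_roots hp0, Polynomial.IsRoot]
      have h2 := hT t ht
      rw [blocks_lin] at h2
      rw [hp, Polynomial.eval_finsetSum, ← h2]
      refine Finset.sum_congr rfl fun j _ => ?_
      rw [Polynomial.eval_mul, Polynomial.eval_C, Polynomial.eval_pow, Polynomial.eval_X, mul_comm]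
    · intro s _ t _ hst
      exact Fin.ext (Nat.cast_injective (R := Ω) hst)
  exact h1.trans ((Multiset.toFinset_card_le _).trans ((Polynomial.card_roots' p).trans hdeg))

/-- the generic case -/
theorem blocks_gen (h2 : Count_stm) (h3 : Td_stm) (K : Type) [Field K] [CharZero K]
    (n L D e : ℕ) (ι : Type) [Fintype ι] (q : ι → MvPolynomial (Fin (n + 1)) K)
    (hq : ∀ i, (q i).IsHomogeneous e) (𝓑 : Finset (Finset (Fin L)))
    (hne : ∀ B ∈ 𝓑, B.Nonempty) (hdisj : ∀ B ∈ 𝓑, ∀ B' ∈ 𝓑, B ≠ B' → Disjoint B B')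
    (hcard : 2 * n + 1 ≤ 𝓑.card) (a : Fin (n + 1)) (i₀ : ι)
    (Ω : Type) [Field Ω] [Algebra K Ω] (y : Fin L × ι → Ω) (x : Fin (n + 1) → Ω)
    (hy : AlgebraicIndependent K y)
    (hP : ∀ B ∈ 𝓑, ∑ t ∈ B, (∑ i, y (t, i) * aeval x (q i)) * aeval x (lin K n (t : ℕ)) ^ D = 0)
    (hxa : x a ≠ 0) : aeval x (q i₀) = 0 := by
  classical
  by_contra hqi
  have : CharZero Ω := charZero_of_injective_algebraMap (algebraMap K Ω).injective
  obtain ⟨x', hx'⟩ : ∃ x' : Fin (n + 1) → Ω, x' = fun j => (x a)⁻¹ * x j := ⟨_, rfl⟩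
  have hx'a : x' a = 1 := by
    rw [hx']
    exact inv_mul_cancel₀ hxa
  have hqs : ∀ i, aeval x' (q i) = (x a)⁻¹ ^ e * aeval x (q i) := by
    intro i
    rw [hx']
    exact blocks_smul (hq i) _ _
  have hls : ∀ t : ℕ, aeval x' (lin K n t) = (x a)⁻¹ * aeval x (lin K n t) := by
    intro t
    rw [blocks_lin, blocks_lin, Finset.mul_sum, hx']
    refine Finset.sum_congr rfl fun j _ => ?_
    ring
  have hc0 : (x a)⁻¹ ≠ 0 := inv_ne_zero hxa
  have hqi' : aeval x' (q i₀) ≠ 0 := by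
    rw [hqs]
    exact mul_ne_zero (pow_ne_zero _ hc0) hqi
  have hP' : ∀ B ∈ 𝓑, ∑ t ∈ B, (∑ i, y (t, i) * aeval x' (q i)) *
      aeval x' (lin K n (t : ℕ)) ^ D = 0 := by
    intro B hB
    have h4 := hP B hB
    have h5 : ∑ t ∈ B, (∑ i, y (t, i) * aeval x' (q i)) * aeval x' (lin K n (t : ℕ)) ^ D =
        (x a)⁻¹ ^ (e + D) * ∑ t ∈ B, (∑ i, y (t, i) * aeval x (q i)) *
          aeval x (lin K n (t : ℕ)) ^ D := by
      rw [Finset.mul_sum]
      refine Finset.sum_congr rfl fun t _ => ?_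
      have h6 : ∑ i, y (t, i) * aeval x' (q i) =
          (x a)⁻¹ ^ e * ∑ i, y (t, i) * aeval x (q i) := by
        rw [Finset.mul_sum]
        refine Finset.sum_congr rfl fun i _ => ?_
        rw [hqs]
        ring
      rw [h6, hls]
      ring
    rw [h5, h4, mul_zero]
  -- the blocks with a nonzero linear form
  obtain ⟨𝓖, h𝓖⟩ : ∃ 𝓖 : Finset (Finset (Fin L)), 𝓖 = 𝓑.filter fun B : Finset (Fin L) => ∃ t ∈ B, aeval x' (lin K n (t : ℕ)) ≠ 0 :=
    ⟨_, rfl⟩
  have hbad : (𝓑.filter fun B : Finset (Fin L) => ¬ ∃ t ∈ B, aeval x' (lin K n (t : ℕ)) ≠ 0).card ≤ n := by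
    obtain ⟨𝓝, h𝓝⟩ : ∃ 𝓝 : Finset (Finset (Fin L)), 𝓝 = 𝓑.filter fun B : Finset (Fin L) => ¬ ∃ t ∈ B, aeval x' (lin K n (t : ℕ)) ≠ 0 :=
      ⟨_, rfl⟩
    rw [← h𝓝]
    have hmem : ∀ B ∈ 𝓝, B ∈ 𝓑 ∧ ∀ t ∈ B, aeval x' (lin K n (t : ℕ)) = 0 := by
      intro B hB
      rw [h𝓝, Finset.mem_filter] at hB
      push Not at hB
      exact hB
    have hch : ∀ B : Finset (Fin L), ∃ o : Option (Fin L), B ∈ 𝓝 → ∃ t ∈ B, o = some t := by
      intro B
      by_cases hB : B ∈ 𝓝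
      · obtain ⟨t, ht⟩ := hne B (hmem B hB).1
        exact ⟨some t, fun _ => ⟨t, ht, rfl⟩⟩
      · exact ⟨none, fun h => absurd h hB⟩
    choose o ho using hch
    have h4 : 𝓝.card ≤ ((Finset.univ.filter fun t : Fin L =>
        aeval x' (lin K n (t : ℕ)) = 0).image some).card := by
      refine Finset.card_le_card_of_injOn o (fun B hB => ?_) ?_
      · obtain ⟨t, ht, hot⟩ := ho B hB
        rw [hot, Finset.mem_coe, Finset.mem_image]
        exact ⟨t, Finset.mem_filter.2 ⟨Finset.mem_univ _, (hmem B hB).2 t ht⟩, rfl⟩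
      · intro B hB B' hB' hBB'
        obtain ⟨t, ht, hot⟩ := ho B hB
        obtain ⟨t', ht', hot'⟩ := ho B' hB'
        rw [hot, hot'] at hBB'
        have h5 := Option.some.inj hBB'
        subst h5
        by_contra hne'
        exact Finset.disjoint_left.1 (hdisj B (hmem B hB).1 B' (hmem B' hB').1 hne') ht ht'
    refine h4.trans (Finset.card_image_le.trans ?_)
    exact blocks_bad (K := K) n L x' a hx'a _ fun t ht => (Finset.mem_filter.1 ht).2
  have hgood : n + 1 ≤ 𝓖.card := by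
    have h4 := Finset.card_filter_add_card_filter_not (s := 𝓑)
      (fun B : Finset (Fin L) => ∃ t ∈ B, aeval x' (lin K n (t : ℕ)) ≠ 0)
    rw [← h𝓖] at h4
    omega
  have h𝓖m : ∀ B ∈ 𝓖, B ∈ 𝓑 ∧ ∃ t ∈ B, aeval x' (lin K n (t : ℕ)) ≠ 0 := by
    intro B hB
    rw [h𝓖, Finset.mem_filter] at hB
    exact hB
  obtain ⟨P, hPd⟩ : ∃ P : Matrix 𝓖 (Fin L × ι) (MvPolynomial (Fin (n + 1)) K),
    P = fun B s => if s.1 ∈ B.1 then q s.2 * lin K n (s.1 : ℕ) ^ D else 0 := ⟨_, rfl⟩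
  have hPe : ∀ (B : 𝓖) (s : Fin L × ι), aeval x' (P B s) =
      if s.1 ∈ B.1 then aeval x' (q s.2) * aeval x' (lin K n (s.1 : ℕ)) ^ D else 0 := by
    intro B s
    rw [hPd]
    dsimp only
    split_ifs
    · rw [map_mul, map_pow]
    · rw [map_zero]
  have h4 := h2 K Ω 𝓖 (Fin L × ι) (Fin (n + 1)) x' y hy P (by
    intro B
    rw [← hP' B.1 (h𝓖m B.1 B.2).1, Fintype.sum_prod_type]
    rw [← Finset.sum_filter_add_sum_filter_not Finset.univ (fun t => t ∈ B.1)]
    have h5 : ∑ t ∈ Finset.univ.filter (fun t => ¬ t ∈ B.1), ∑ i, aeval x' (P B (t, i)) * y (t, i) =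
        0 := by
      refine Finset.sum_eq_zero fun t ht => Finset.sum_eq_zero fun i _ => ?_
      rw [hPe, if_neg (Finset.mem_filter.1 ht).2, zero_mul]
    rw [h5, add_zero]
    have h6 : Finset.univ.filter (fun t => t ∈ B.1) = B.1 := by
      ext t
      simp
    rw [h6]
    refine Finset.sum_congr rfl fun t ht => ?_
    rw [Finset.sum_mul]
    refine Finset.sum_congr rfl fun i _ => ?_
    rw [hPe, if_pos ht]
    ring)
  have h5 := h3 K Ω n n x' a x' hx'a fun b => ⟨X b, by rw [aeval_X]⟩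
  have h6 : (P.map fun p => (aeval x' p : Ω)).rank = Fintype.card 𝓖 := by
    refine LinearIndependent.rank_matrix ?_
    rw [Fintype.linearIndependent_iff]
    intro g hg B
    obtain ⟨t, ht, hlt⟩ := (h𝓖m B.1 B.2).2
    have h7 := congrFun hg (t, i₀)
    rw [Finset.sum_apply, Finset.sum_eq_single B] at h7
    · change g B * aeval x' (P B (t, i₀)) = 0 at h7
      rw [hPe, if_pos ht] at h7
      exact (mul_eq_zero.1 h7).resolve_right (mul_ne_zero hqi' (pow_ne_zero _ hlt))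
    · intro B' _ hB'
      change g B' * aeval x' (P B' (t, i₀)) = 0
      rw [hPe, if_neg, mul_zero]
      intro ht'
      exact Finset.disjoint_left.1 (hdisj B'.1 (h𝓖m B'.1 B'.2).1 B.1 (h𝓖m B.1 B.2).1
        fun h => hB' (Subtype.ext h)) ht' ht
    · intro h
      exact absurd (Finset.mem_univ _) h
  rw [h6, Fintype.card_coe] at h4
  have h7 : ((𝓖.card : ℕ) : Cardinal) ≤ ((n : ℕ) : Cardinal) := h4.trans h5
  have h8 : 𝓖.card ≤ n := by exact_mod_cast h7
  omega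

theorem t_blocks (h1 : Spec_stm) (h2 : Count_stm) (h3 : Td_stm) : Blocks_stm := by
  classical
  intro K _ _ n L D e ι _ q hq
  have key : ∀ T : Finset (Finset (Fin L)) × (Fin (n + 1) × ι), ∃ Δ : MvPolynomial (Fin L × ι) K,
      Δ ≠ 0 ∧ ((∀ B ∈ T.1, B.Nonempty) → (∀ B ∈ T.1, ∀ B' ∈ T.1, B ≠ B' → Disjoint B B') →
        2 * n + 1 ≤ T.1.card → ∀ (Ω : Type) [Field Ω] [Algebra K Ω] (c : Fin L × ι → Ω)
        (x : Fin (n + 1) → Ω), aeval c Δ ≠ 0 →
        (∀ B ∈ T.1, ∑ t ∈ B, (∑ i, c (t, i) * aeval x (q i)) *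
          aeval x (lin K n (t : ℕ)) ^ D = 0) →
        x T.2.1 * aeval x (q T.2.2) = 0) := by
    rintro ⟨𝓑, a, i₀⟩
    by_cases hgood : (∀ B ∈ 𝓑, B.Nonempty) ∧ (∀ B ∈ 𝓑, ∀ B' ∈ 𝓑, B ≠ B' → Disjoint B B') ∧
        2 * n + 1 ≤ 𝓑.card
    · obtain ⟨hne, hdisj, hcard⟩ := hgood
      obtain ⟨Δ, hΔ, hΔ2⟩ := h1 K (Fin L × ι) (Fin (n + 1)) 𝓑
        (fun B => blocksP K n L D ι q B.1) (X (Sum.inr a) * rename Sum.inr (q i₀)) (by
          intro Ω _ _ y x hy hP
          rw [map_mul, aeval_X, aeval_rename, Sum.elim_inr, Sum.elim_comp_inr]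
          by_cases hxa : x a = 0
          · rw [hxa, zero_mul]
          · rw [blocks_gen h2 h3 K n L D e ι q hq 𝓑 hne hdisj hcard a i₀ Ω y x hy
              (fun B hB => by
                have h4 := hP ⟨B, hB⟩
                rwa [blocksP_eval] at h4) hxa, mul_zero])
      refine ⟨Δ, hΔ, fun _ _ _ Ω _ _ c x hc hP => ?_⟩
      have h4 := hΔ2 Ω c x hc fun B => by
        rw [blocksP_eval]
        exact hP B.1 B.2
      rwa [map_mul, aeval_X, aeval_rename, Sum.elim_inr, Sum.elim_comp_inr] at h4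
    · refine ⟨1, one_ne_zero, fun ha hb hc => ?_⟩
      exact absurd ⟨ha, hb, hc⟩ hgood
  choose Δ hΔ0 hΔ using key
  refine ⟨∏ T, Δ T, Finset.prod_ne_zero_iff.2 fun T _ => hΔ0 T, ?_⟩
  intro Ω _ _ c hc 𝓑 hne hdisj hcard x hx hP i
  rw [map_prod, Finset.prod_ne_zero_iff] at hc
  obtain ⟨a, ha⟩ := Function.ne_iff.1 hx
  have h4 := hΔ (𝓑, a, i) hne hdisj hcard Ω c x (hc _ (Finset.mem_univ _)) hP
  exact (mul_eq_zero.1 h4).resolve_left ha

end Pool.Agent.N254.SQ
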