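import Pool.Agent.N254.SQ.LocDefs2

/-!
Points over finitely generated fields; integral points of affine schemes, rational points of
projective varieties over number fields: definitions.
-/

set_option autoImplicit false

namespace Pool.Agent.N254.SQ

open MvPolynomial NumberField IsDedekindDomain
open Pool.Agent.W602.GT (SubVar GeneralType)
open scoped LinearAlgebra.Projectivization

/-- for every finitely generated subfield of `ℂ` only finitely many rational points of `V(S)` over
this field are outside of `G = 0` -/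
def FiniteOffFg {n : ℕ} (S : Set (MvPolynomial (Fin (n + 1)) ℂ))
    (G : MvPolynomial (Fin (n + 1)) ℂ) : Prop :=
  ∀ s : Finset ℂ,
    {P : ℙ ℂ (Fin (n + 1) → ℂ) | ∃ (x : Fin (n + 1) → ℂ) (hx : x ≠ 0),
      P = Projectivization.mk ℂ x hx ∧ (∀ j, x j ∈ Subfield.closure (s : Set ℂ)) ∧
        (∀ p ∈ S, eval x p = 0) ∧ eval x G ≠ 0}.Finite

/-- `V(O_S)` for the affine scheme `V` over `𝓞 K` given by the polynomials `F i` -/
def intPoints {K : Type} [Field K] {ι : Type} {n : ℕ}
    (F : ι → MvPolynomial (Fin n) (𝓞 K)) (L : Type) [Field L] [NumberField L] [Algebra K L]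
    (S : Set (HeightOneSpectrum (𝓞 L))) : Set (Fin n → L) :=
  {x | (∀ j, x j ∈ S.integer L) ∧
    ∀ i, eval₂ ((algebraMap K L).comp (algebraMap (𝓞 K) K)) x (F i) = 0}

/-- Q1 of Bombieri, Lang and Vojta for the affine scheme `V` over `𝓞 K` given by `F`, the embedding
`σ` and the closed subscheme `V'` of `V` given by `G`: all nonconstant entire curves in `V` lie in `V'`
if and only if `V(O_S) ∖ V'(O_S)` is finite for all finite extensions `L` of `K` and all finite `S`. -/
def AffineBLV {K : Type} [Field K] {ι κ : Type} {n : ℕ} (σ : K →+* ℂ)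
    (F : ι → MvPolynomial (Fin n) (𝓞 K)) (G : κ → MvPolynomial (Fin n) (𝓞 K)) : Prop :=
  (∀ f : ℂ → Fin n → ℂ, Differentiable ℂ f →
    (∀ z i, eval₂ (σ.comp (algebraMap (𝓞 K) K)) (f z) (F i) = 0) → (∃ z w, f z ≠ f w) →
    ∀ z k, eval₂ (σ.comp (algebraMap (𝓞 K) K)) (f z) (G k) = 0) ↔
  ∀ (L : Type) [Field L] [NumberField L] [Algebra K L] (S : Set (HeightOneSpectrum (𝓞 L))),
    S.Finite → (intPoints F L S \ intPoints G L S).Finite

/-- `V(L)` for the projective variety `V` given by the forms `F i` -/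
def projPoints {K : Type} [Field K] {ι : Type} {n : ℕ} (F : ι → MvPolynomial (Fin (n + 1)) K)
    (L : Type) [Field L] [Algebra K L] : Set (ℙ L (Fin (n + 1) → L)) :=
  {P | ∀ i, aeval P.rep (F i) = 0}

/-- Q1 of Bombieri, Lang and Vojta for the projective variety `V` over `K` given by the forms `F i`,
the embedding `σ` and the closed subvariety `V'` given by the forms `G k` -/
def ProjectiveBLV {K : Type} [Field K] {ι κ : Type} {n : ℕ} (σ : K →+* ℂ)
    (F : ι → MvPolynomial (Fin (n + 1)) K) (G : κ → MvPolynomial (Fin (n + 1)) K) : Prop :=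
  (∀ f : ℂ → Fin (n + 1) → ℂ, Differentiable ℂ f → (∀ z, f z ≠ 0) →
    (∀ z i, eval₂ σ (f z) (F i) = 0) → (∃ z w, ∀ c : ℂ, f w ≠ c • f z) →
    ∀ z k, eval₂ σ (f z) (G k) = 0) ↔
  ∀ (L : Type) [Field L] [NumberField L] [Algebra K L],
    (projPoints F L \ projPoints G L).Finite

/-- the form `∑ t, Q_t(y) (y_0 + t y_1 + ⋯ + t ^ N y_N) ^ D` with coefficients in the ring `R` -/
noncomputable def powerFormRing {R : Type} [CommRing R] {N M : ℕ} (D : ℕ)
    (Q : Fin M → MvPolynomial (Fin (N + 1)) R) : MvPolynomial (Fin (N + 1)) R :=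
  ∑ t : Fin M, Q t * (∑ j : Fin (N + 1), C (((t : ℕ) : R) ^ (j : ℕ)) * X j) ^ D

/-- the affine equation: the first variable is replaced by `1` -/
noncomputable def dehom {R : Type} [CommRing R] {N : ℕ} (A : MvPolynomial (Fin (N + 1)) R) :
    MvPolynomial (Fin N) R := aeval (Fin.cons 1 X : Fin (N + 1) → MvPolynomial (Fin N) R) A

end Pool.Agent.N254.SQ
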