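import Pool.Agent.N254.SQ.LocDefs

/-!
Rational points of projective varieties: definitions.
-/

set_option autoImplicit false

namespace Pool.Agent.N254.SQ

open MvPolynomial
open Pool.Agent.W602.GT (SubVar GeneralType)
open scoped LinearAlgebra.Projectivization

/-- `G` vanishes at all `K`-rational points of `V(S)` -/
def OnPoints {n : ℕ} (K : Subfield ℂ) (S : Set (MvPolynomial (Fin (n + 1)) ℂ))
    (G : MvPolynomial (Fin (n + 1)) ℂ) : Prop :=
  ∀ x : Fin (n + 1) → ℂ, x ≠ 0 → (∀ j, x j ∈ K) → (∀ p ∈ S, eval x p = 0) → eval x G = 0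

/-- for every number field `L` in `ℂ` only finitely many `L`-rational points of `V(S)` are outside of
`G = 0` -/
def FiniteOff {n : ℕ} (S : Set (MvPolynomial (Fin (n + 1)) ℂ))
    (G : MvPolynomial (Fin (n + 1)) ℂ) : Prop :=
  ∀ L : IntermediateField ℚ ℂ, FiniteDimensional ℚ L →
    {P : ℙ ℂ (Fin (n + 1) → ℂ) | ∃ (x : Fin (n + 1) → ℂ) (hx : x ≠ 0),
      P = Projectivization.mk ℂ x hx ∧ (∀ j, x j ∈ L) ∧ (∀ p ∈ S, eval x p = 0) ∧
        eval x G ≠ 0}.Finite

/-- The projective variety `V(S)` over the field `K` in `ℂ` is geometrically irreducible, of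
dimension `w`, with function field `L` and generic point `y` over `ℂ`: `y` satisfies all equations,
and every form vanishing at `y` vanishes on `V(S)`. -/
structure GenericPoint {n : ℕ} {K : Type} [Field K] [Algebra K ℂ]
    (S : Set (MvPolynomial (Fin (n + 1)) K)) (L : Type) [Field L] [Algebra ℂ L] (w : ℕ)
    (y : Fin (n + 1) → L) : Prop where
  sub : SubVar (fun p : S => map (algebraMap K ℂ) (p : MvPolynomial (Fin (n + 1)) K)) L w y
  all : ∀ G : MvPolynomial (Fin (n + 1)) ℂ, IsForm G → aeval y G = 0 →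
    ∀ x : Fin (n + 1) → ℂ, (∀ p ∈ S, aeval x p = 0) → eval x G = 0

/-- the hypersurface `A = 0` is smooth: over no extension of `K` the partial derivatives have a
common zero in the projective space -/
def SmoothOver {K : Type} [Field K] {N : ℕ} (A : MvPolynomial (Fin (N + 1)) K) : Prop :=
  ∀ (Ω : Type) [Field Ω] (τ : K →+* Ω) (y : Fin (N + 1) → Ω), y ≠ 0 →
    ∃ j, eval₂ τ y (pderiv j A) ≠ 0

/-- the form `∑ t, Q_t(y) (y_0 + t y_1 + ⋯ + t ^ N y_N) ^ D` with coefficients in `K` -/
noncomputable def powerFormOver {K : Type} [Field K] {N M : ℕ} (D : ℕ)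
    (Q : Fin M → MvPolynomial (Fin (N + 1)) K) : MvPolynomial (Fin (N + 1)) K :=
  ∑ t : Fin M, Q t * (∑ j : Fin (N + 1), C (((t : ℕ) : K) ^ (j : ℕ)) * X j) ^ D

end Pool.Agent.N254.SQ
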