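import Pool.Agent.N254.SQ.Locus
import Pool.Agent.N254.SQ.LocDefs2

/-!
Project SQ, fourth part: exceptional loci, statements of the lemmas.
-/

set_option autoImplicit false

namespace Pool.Agent.N254.SQ

open MvPolynomial Metric
open Pool.Agent.W602.GT (SubVar GeneralType coords)

/-- the equations `S` have the irreducible zero set with generic point `y` -/
def Irr {n : ℕ} (S : Set (MvPolynomial (Fin (n + 1)) ℂ)) {L : Type} [Field L] [Algebra ℂ L]
    (y : Fin (n + 1) → L) : Prop :=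
  ∀ G, IsForm G → aeval y G = 0 → ∀ (Ω : Type) [Field Ω] [Algebra ℂ Ω] (x : Fin (n + 1) → Ω),
    (∀ p ∈ S, aeval x p = 0) → aeval x G = 0

/-- KEY: if the closed set `Z` in `Y = {A = 0}` given by `I` has no component of general type, and
`X = V(S)` is of general type, then `v(X)` is not contained in `Z` -/
def Key_stm : Prop :=
  ∀ (n N d : ℕ) (m : Fin (N + 1) → Fin (n + 1) → ℕ) (S : Set (MvPolynomial (Fin (n + 1)) ℂ))
    (A : MvPolynomial (Fin (N + 1)) ℂ), Good n N d m S A →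
    ∀ (L : Type) [Field L] [Algebra ℂ L] (w : ℕ) (y : Fin (n + 1) → L), 1 ≤ w →
      SubVar (fun p : S => (p : MvPolynomial (Fin (n + 1)) ℂ)) L w y → Irr S y →
      GeneralType ℂ L w → ∀ I : MvPolynomial (Fin (N + 1)) ℂ → Prop, Idl I → I A →
      (∀ (L' : Type) [Field L'] [Algebra ℂ L'] (w' : ℕ) (y' : Fin (N + 1) → L'), 1 ≤ w' →
        SubVar (fun p : ({A} : Set _) => (p : MvPolynomial (Fin (N + 1)) ℂ)) L' w' y' →
        GeneralType ℂ L' w' → ¬ Component I y') →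
      ∃ G, IsForm G ∧ I G ∧ aeval y (pull m G) ≠ 0

/-- IDL: the five types of exceptional sets are closed sets -/
structure Idls : Prop where
  special : ∀ (n : ℕ) (S : Set (MvPolynomial (Fin (n + 1)) ℂ)), Idl (OnSpecial S)
  curves : ∀ (n : ℕ) (S : Set (MvPolynomial (Fin (n + 1)) ℂ)), Idl (OnCurves S)
  discs : ∀ (n : ℕ) (S : Set (MvPolynomial (Fin (n + 1)) ℂ)), Idl (OnDiscs S)
  points : ∀ (n : ℕ) (K : Subfield ℂ) (S : Set (MvPolynomial (Fin (n + 1)) ℂ)), Idl (OnPoints K S)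
  finite : ∀ (n : ℕ) (S : Set (MvPolynomial (Fin (n + 1)) ℂ)), Idl (FiniteOff S)

/-- RESTR: forms vanishing on the exceptional set of a component -/
structure Restr : Prop where
  special : ∀ (n : ℕ) (S : Set (MvPolynomial (Fin (n + 1)) ℂ)) (L : Type) [Field L] [Algebra ℂ L]
    (y : Fin (n + 1) → L) (G H : MvPolynomial (Fin (n + 1)) ℂ), IsForm G → IsForm H →
    (∀ F, IsForm F → aeval y F = 0 → OnSpecial S (F * H)) → OnSpecial (Eqs y) G →
    OnSpecial S (G * H)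
  curves : ∀ (n : ℕ) (S : Set (MvPolynomial (Fin (n + 1)) ℂ)) (L : Type) [Field L] [Algebra ℂ L]
    (y : Fin (n + 1) → L) (G H : MvPolynomial (Fin (n + 1)) ℂ), IsForm G → IsForm H →
    (∀ F, IsForm F → aeval y F = 0 → OnCurves S (F * H)) → OnCurves (Eqs y) G → OnCurves S (G * H)
  discs : ∀ (n : ℕ) (S : Set (MvPolynomial (Fin (n + 1)) ℂ)) (L : Type) [Field L] [Algebra ℂ L]
    (y : Fin (n + 1) → L) (G H : MvPolynomial (Fin (n + 1)) ℂ), IsForm G → IsForm H →
    (∀ F, IsForm F → aeval y F = 0 → OnDiscs S (F * H)) → OnDiscs (Eqs y) G → OnDiscs S (G * H)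
  points : ∀ (n : ℕ) (K : Subfield ℂ) (S : Set (MvPolynomial (Fin (n + 1)) ℂ)) (L : Type)
    [Field L] [Algebra ℂ L] (y : Fin (n + 1) → L) (G H : MvPolynomial (Fin (n + 1)) ℂ),
    IsForm G → IsForm H → (∀ F, IsForm F → aeval y F = 0 → OnPoints K S (F * H)) →
    OnPoints K (Eqs y) G → OnPoints K S (G * H)
  finite : ∀ (n : ℕ) (S : Set (MvPolynomial (Fin (n + 1)) ℂ)) (L : Type) [Field L] [Algebra ℂ L]
    (y : Fin (n + 1) → L) (G H : MvPolynomial (Fin (n + 1)) ℂ), IsForm G → IsForm H →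
    (∀ F, IsForm F → aeval y F = 0 → FiniteOff S (F * H)) → FiniteOff (Eqs y) G →
    FiniteOff S (G * H)

/-- DENSE: rational points on a component of the closure of the set of rational points are dense -/
structure Dense : Prop where
  points : ∀ (n : ℕ) (K : Subfield ℂ) (S : Set (MvPolynomial (Fin (n + 1)) ℂ)) (L : Type)
    [Field L] [Algebra ℂ L] (w : ℕ) (y : Fin (n + 1) → L),
    SubVar (fun p : S => (p : MvPolynomial (Fin (n + 1)) ℂ)) L w y → Component (OnPoints K S) y →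
    ∃ T : Set (Fin (n + 1) → ℂ), (∀ x ∈ T, ∀ j, x j ∈ K) ∧
      ∀ G, IsForm G → (aeval y G = 0 ↔ ∀ x ∈ T, eval x G = 0)
  finite : ∀ (n : ℕ) (S : Set (MvPolynomial (Fin (n + 1)) ℂ)) (L : Type)
    [Field L] [Algebra ℂ L] (w : ℕ) (y : Fin (n + 1) → L),
    SubVar (fun p : S => (p : MvPolynomial (Fin (n + 1)) ℂ)) L w y → Component (FiniteOff S) y →
    ∃ T : Set (Fin (n + 1) → ℂ), (∀ x ∈ T, ∀ j, IsAlgebraic ℚ (x j)) ∧
      ∀ G, IsForm G → (aeval y G = 0 ↔ ∀ x ∈ T, eval x G = 0)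

/-- NULL: a form vanishing at the complex zeros vanishes at all zeros -/
def Null_stm : Prop :=
  ∀ (n : ℕ) (S : Set (MvPolynomial (Fin (n + 1)) ℂ)) (G : MvPolynomial (Fin (n + 1)) ℂ),
    (∀ x : Fin (n + 1) → ℂ, (∀ p ∈ S, eval x p = 0) → eval x G = 0) →
    ∀ (Ω : Type) [Field Ω] [Algebra ℂ Ω] (x : Fin (n + 1) → Ω), (∀ p ∈ S, aeval x p = 0) →
      aeval x G = 0

end Pool.Agent.N254.SQ
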