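import Pool.Agent.N254.SQ.Locus2
import Pool.Agent.N254.SQ.StmR
import Pool.Agent.N254.SQ.LocDefs3

/-!
Project SQ, sixth part: points over finitely generated fields, integral points.
-/

set_option autoImplicit false

namespace Pool.Agent.N254.SQ

open MvPolynomial Metric NumberField
open Pool.Agent.W602.GT (SubVar GeneralType coords)

/-- COMP2: a form which is not in `I` does not vanish on some component -/
def Comp2_stm : Prop :=
  ∀ (n : ℕ) (I : MvPolynomial (Fin (n + 1)) ℂ → Prop), Idl I →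
    ∀ (e : ℕ) (G : MvPolynomial (Fin (n + 1)) ℂ), G.IsHomogeneous e → 1 ≤ e → ¬ I G →
      ∃ (L : Type) (_ : Field L) (_ : Algebra ℂ L) (w : ℕ) (y : Fin (n + 1) → L), Gen L w y ∧
        aeval y G ≠ 0 ∧ Component I y

/-- FG: points over finitely generated fields -/
structure FgFacts : Prop where
  idl : ∀ (n : ℕ) (S : Set (MvPolynomial (Fin (n + 1)) ℂ)), Idl (FiniteOffFg S)
  restr : ∀ (n : ℕ) (S : Set (MvPolynomial (Fin (n + 1)) ℂ)) (L : Type) [Field L] [Algebra ℂ L]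
    (y : Fin (n + 1) → L) (G H : MvPolynomial (Fin (n + 1)) ℂ), IsForm G → IsForm H →
    (∀ F, IsForm F → aeval y F = 0 → FiniteOffFg S (F * H)) → FiniteOffFg (Eqs y) G →
    FiniteOffFg S (G * H)
  mono : ∀ (n : ℕ) (S T : Set (MvPolynomial (Fin (n + 1)) ℂ)),
    (∀ x : Fin (n + 1) → ℂ, (∀ p ∈ T, eval x p = 0) → ∀ p ∈ S, eval x p = 0) →
    ∀ G, FiniteOffFg S G → FiniteOffFg T G
  coord : ∀ (n : ℕ) (S : Set (MvPolynomial (Fin (n + 1)) ℂ)) (G : MvPolynomial (Fin (n + 1)) ℂ),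
    (∀ j, FiniteOffFg S (G * X j)) → FiniteOffFg S G
  compPos : ∀ (n : ℕ) (S : Set (MvPolynomial (Fin (n + 1)) ℂ)) (L : Type) [Field L]
    [Algebra ℂ L] (w : ℕ) (y : Fin (n + 1) → L), Gen L w y → Component (FiniteOffFg S) y → 1 ≤ w
  pullback : ∀ (n N d : ℕ) (m : Fin (N + 1) → Fin (n + 1) → ℕ)
    (S : Set (MvPolynomial (Fin (n + 1)) ℂ)) (A : MvPolynomial (Fin (N + 1)) ℂ),
    Good n N d m S A → ∀ G, IsForm G → FiniteOffFg {A} G → FiniteOffFg S (pull m G)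
  pushout : ∀ (n N d : ℕ) (m : Fin (N + 1) → Fin (n + 1) → ℕ)
    (S : Set (MvPolynomial (Fin (n + 1)) ℂ)) (A : MvPolynomial (Fin (N + 1)) ℂ),
    Good n N d m S A → (∀ p ∈ S, ∃ e ≤ d, p.IsHomogeneous e) → ∀ G, IsForm G →
    FiniteOffFg S (pull m G) →
    (∀ F, IsForm F → (∀ x : Fin (n + 1) → ℂ, (∀ p ∈ S, eval x p = 0) → eval (ver m x) F = 0) →
      FiniteOffFg {A} F) → FiniteOffFg {A} G

/-- BLVA: Q1 for all affine schemes follows from Q1 for smooth affine hypersurfaces -/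
def BlvA_stm : Prop :=
  ∀ D₁ : ℕ → ℕ, GeoAll D₁ → ∀ (K : Type) [Field K] [NumberField K] (σ : K →+* ℂ) (E : Set ℕ),
    E.Infinite →
    (∀ (N D : ℕ) (Q : Fin (N * (2 * N + 1)) → MvPolynomial (Fin (N + 1)) (𝓞 K)), D ∈ E →
      D₁ N ≤ D → (∀ t, (Q t).IsHomogeneous 2) →
      SmoothOver (map (algebraMap (𝓞 K) K) (powerFormRing D Q)) →
      ∀ (κ : Type) (G : κ → MvPolynomial (Fin N) (𝓞 K)),
        AffineBLV σ (fun _ : Unit => dehom (powerFormRing D Q)) G) →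
    ∀ (n : ℕ) (ι κ : Type) [Finite ι] (F : ι → MvPolynomial (Fin n) (𝓞 K))
      (G : κ → MvPolynomial (Fin n) (𝓞 K)), AffineBLV σ F G

/-- BLVP: Q1 for all projective varieties follows from Q1 for smooth hypersurfaces -/
def BlvP_stm : Prop :=
  ∀ D₁ : ℕ → ℕ, GeoAll D₁ → ∀ (K : Type) [Field K] [NumberField K] (σ : K →+* ℂ) (E : Set ℕ),
    E.Infinite →
    (∀ (N D : ℕ) (Q : Fin (N * (2 * N + 1)) → MvPolynomial (Fin (N + 1)) K), D ∈ E →
      D₁ N ≤ D → (∀ t, (Q t).IsHomogeneous 2) → SmoothOver (powerFormOver D Q) →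
      ∀ (κ : Type) (G : κ → MvPolynomial (Fin (N + 1)) K), (∀ k, ∃ e, (G k).IsHomogeneous e) →
        ProjectiveBLV σ (fun _ : Unit => powerFormOver D Q) G) →
    ∀ (n : ℕ) (ι κ : Type) [Finite ι] (F : ι → MvPolynomial (Fin (n + 1)) K)
      (G : κ → MvPolynomial (Fin (n + 1)) K), (∀ i, ∃ e, (F i).IsHomogeneous e) →
      (∀ k, ∃ e, (G k).IsHomogeneous e) → ProjectiveBLV σ F G

end Pool.Agent.N254.SQ
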