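import Pool.Agent.N254.SQ.Fin3
import Pool.Agent.N254.SQ.StmS

/-!
Project SQ, sixth part, BLVA (helper930): integral points of affine varieties, reduction to smooth
hypersurfaces.
-/

set_option autoImplicit false

namespace Pool.Agent.N254.SQ

open MvPolynomial NumberField IsDedekindDomain

section hom

variable {K : Type} [Field K] {n : ℕ}

/-- the homogenization in degree `d` of a polynomial with integral coefficients -/
noncomputable def blva_hom (d : ℕ) (p : MvPolynomial (Fin n) (𝓞 K)) :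
    MvPolynomial (Fin (n + 1)) K :=
  ∑ s ∈ p.support, C (algebraMap (𝓞 K) K (coeff s p)) *
    (X 0 ^ (d - ∑ j, s j) * ∏ j : Fin n, X j.succ ^ s j)

theorem blva_deg {d : ℕ} {p : MvPolynomial (Fin n) (𝓞 K)} (hd : p.totalDegree ≤ d)
    {s : Fin n →₀ ℕ} (hs : s ∈ p.support) : ∑ j, s j ≤ d := by
  have h1 := le_totalDegree hs
  rw [Finsupp.sum_fintype _ _ (fun _ => rfl)] at h1
  exact h1.trans hd

theorem blva_hom_form {d : ℕ} {p : MvPolynomial (Fin n) (𝓞 K)} (hd : p.totalDegree ≤ d) :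
    (blva_hom d p).IsHomogeneous d := by
  refine IsHomogeneous.sum _ _ _ fun s hs => ?_
  have h1 : (X 0 ^ (d - ∑ j, s j) : MvPolynomial (Fin (n + 1)) K).IsHomogeneous
      (1 * (d - ∑ j, s j)) := (isHomogeneous_X K 0).pow _
  have h2 : (∏ j : Fin n, X j.succ ^ s j : MvPolynomial (Fin (n + 1)) K).IsHomogeneous
      (∑ j : Fin n, 1 * s j) := IsHomogeneous.prod _ _ _ fun j _ => (isHomogeneous_X K j.succ).pow _
  have h3 := (isHomogeneous_C (Fin (n + 1)) (algebraMap (𝓞 K) K (coeff s p))).mul (h1.mul h2)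
  have h4 : 0 + (1 * (d - ∑ j, s j) + ∑ j : Fin n, 1 * s j) = d := by
    simp only [one_mul, zero_add]
    have := blva_deg hd hs
    omega
  rwa [h4] at h3

theorem blva_hom_eval {Ω : Type} [Field Ω] (τ : K →+* Ω) {d : ℕ} {p : MvPolynomial (Fin n) (𝓞 K)}
    (hd : p.totalDegree ≤ d) (x : Fin (n + 1) → Ω) (hx : x 0 ≠ 0) :
    eval x (map τ (blva_hom d p)) =
      x 0 ^ d * eval₂ (τ.comp (algebraMap (𝓞 K) K)) (fun j => x j.succ / x 0) p := by
  unfold blva_hom
  rw [map_sum, map_sum, eval₂_eq', Finset.mul_sum]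
  apply Finset.sum_congr rfl
  intro s hs
  have h1 := blva_deg hd hs
  simp only [map_mul, map_pow, map_prod, map_C, map_X, eval_C, eval_X, RingHom.comp_apply, div_pow,
    Finset.prod_div_distrib]
  rw [Finset.prod_pow_eq_pow_sum]
  have h2 : x 0 ^ d = x 0 ^ (d - ∑ j, s j) * x 0 ^ (∑ j, s j) := by
    rw [← pow_add, Nat.sub_add_cancel h1]
  rw [h2]
  have h3 : x 0 ^ (∑ j, s j) ≠ 0 := pow_ne_zero _ hx
  field_simp

theorem blva_hom_zero {Ω : Type} [Field Ω] (τ : K →+* Ω) {d : ℕ} {p : MvPolynomial (Fin n) (𝓞 K)}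
    (hd : p.totalDegree ≤ d) (x : Fin (n + 1) → Ω) (hx : x 0 ≠ 0) :
    eval x (map τ (blva_hom d p)) = 0 ↔
      eval₂ (τ.comp (algebraMap (𝓞 K) K)) (fun j => x j.succ / x 0) p = 0 := by
  rw [blva_hom_eval τ hd x hx, mul_eq_zero]
  constructor
  · rintro (h | h)
    · exact absurd h (pow_ne_zero _ hx)
    · exact h
  · exact Or.inr

end hom

section denominators

variable {K : Type} [Field K]

attribute [local instance] MvPolynomial.algebraMvPolynomial in
theorem blva_denom [NumberField K] {N M : ℕ} (Q : Fin M → MvPolynomial (Fin (N + 1)) K)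
    (hQ : ∀ t, (Q t).IsHomogeneous 2) :
    ∃ (c : 𝓞 K) (Q' : Fin M → MvPolynomial (Fin (N + 1)) (𝓞 K)), c ≠ 0 ∧
      (∀ t, (Q' t).IsHomogeneous 2) ∧
      ∀ t, map (algebraMap (𝓞 K) K) (Q' t) = C (algebraMap (𝓞 K) K c) * Q t := by
  have : IsLocalization ((nonZeroDivisors (𝓞 K)).map (C (σ := Fin (N + 1))))
      (MvPolynomial (Fin (N + 1)) K) := MvPolynomial.isLocalization (nonZeroDivisors (𝓞 K)) K
  obtain ⟨⟨b, hb⟩, hb2⟩ := IsLocalization.exist_integer_multiples_of_finite
    ((nonZeroDivisors (𝓞 K)).map (C (σ := Fin (N + 1)))) Q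
  obtain ⟨c, hc, rfl⟩ := hb
  choose Q' hQ' using hb2
  have hc0 : c ≠ 0 := nonZeroDivisors.ne_zero hc
  have h1 : ∀ t, map (algebraMap (𝓞 K) K) (Q' t) = C (algebraMap (𝓞 K) K c) * Q t := by
    intro t
    have h2 : algebraMap (MvPolynomial (Fin (N + 1)) (𝓞 K)) (MvPolynomial (Fin (N + 1)) K) (Q' t) =
        (C c : MvPolynomial (Fin (N + 1)) (𝓞 K)) • Q t := hQ' t
    rw [Algebra.smul_def, MvPolynomial.algebraMap_def, map_C] at h2
    exact h2
  refine ⟨c, Q', hc0, fun t => ?_, h1⟩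
  apply IsHomogeneous.of_map (f := algebraMap (𝓞 K) K)
    (FaithfulSMul.algebraMap_injective (𝓞 K) K)
  rw [h1 t]
  have h3 := (isHomogeneous_C (Fin (N + 1)) (algebraMap (𝓞 K) K c)).mul (hQ t)
  rwa [zero_add] at h3

theorem blva_power {N M D : ℕ} {c : 𝓞 K} {Q : Fin M → MvPolynomial (Fin (N + 1)) K}
    {Q' : Fin M → MvPolynomial (Fin (N + 1)) (𝓞 K)}
    (h : ∀ t, map (algebraMap (𝓞 K) K) (Q' t) = C (algebraMap (𝓞 K) K c) * Q t) :
    map (algebraMap (𝓞 K) K) (powerFormRing D Q') =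
      C (algebraMap (𝓞 K) K c) * powerSum D Q := by
  unfold powerFormRing powerSum lin
  rw [map_sum, Finset.mul_sum]
  apply Finset.sum_congr rfl
  intro t _
  rw [map_mul, h t, map_pow, map_sum, mul_assoc]
  congr 3
  apply Finset.sum_congr rfl
  intro j _
  rw [map_mul, map_C, map_X, map_pow (algebraMap (𝓞 K) K), map_natCast (algebraMap (𝓞 K) K)]

theorem blva_smooth {N : ℕ} {c : K} (hc : c ≠ 0) {A : MvPolynomial (Fin (N + 1)) K}
    (h : Smooth A) : SmoothOver (C c * A) := by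
  intro Ω _ τ y hy
  obtain ⟨j, hj⟩ := h Ω τ y hy
  rw [pderiv_map, eval_map] at hj
  refine ⟨j, ?_⟩
  rw [pderiv_C_mul, eval₂_mul, eval₂_C]
  exact mul_ne_zero ((map_ne_zero τ).2 hc) hj

theorem blva_dehom {N : ℕ} {Ω : Type} [Field Ω] (τ : K →+* Ω)
    (A : MvPolynomial (Fin (N + 1)) (𝓞 K)) (u : Fin N → Ω) :
    eval₂ (τ.comp (algebraMap (𝓞 K) K)) u (dehom A) =
      eval (Fin.cons 1 u : Fin (N + 1) → Ω) (map τ (map (algebraMap (𝓞 K) K) A)) := by
  unfold dehom
  rw [eval_map, eval₂_map, ← coe_eval₂Hom (f := τ.comp (algebraMap (𝓞 K) K)) (g := u),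
    ← coe_eval₂Hom (f := τ.comp (algebraMap (𝓞 K) K)) (g := (Fin.cons 1 u : Fin (N + 1) → Ω)),
    aeval_def, ← coe_eval₂Hom, ← RingHom.comp_apply]
  congr 1
  apply ringHom_ext
  · intro r
    simp [algebraMap_eq]
  · intro i
    refine Fin.cases ?_ (fun i => ?_) i
    · simp
    · simp

end denominators

section affine

variable {n N d : ℕ} {m : Fin (N + 1) → Fin (n + 1) → ℕ}

/-- the affine Veronese map -/
def blva_w {R : Type} [CommMonoid R] (m : Fin (N + 1) → Fin (n + 1) → ℕ) (x : Fin n → R) :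
    Fin N → R := fun b => ∏ j, x j ^ m b.succ j.succ

theorem blva_ver {R : Type} [CommMonoid R] (hm0 : ∀ j : Fin n, m 0 j.succ = 0) (x : Fin n → R) :
    ver m (Fin.cons 1 x : Fin (n + 1) → R) = Fin.cons 1 (blva_w m x) := by
  funext a
  unfold ver
  rw [Fin.prod_univ_succ]
  simp only [Fin.cons_zero, one_pow, one_mul, Fin.cons_succ]
  refine Fin.cases ?_ (fun b => ?_) a
  · simp [hm0]
  · simp [blva_w]

/-- a Veronese map with the monomial `x_0 ^ d` in the first place -/
theorem blva_mon (hm : Mon n N d m) : ∃ m' : Fin (N + 1) → Fin (n + 1) → ℕ, Mon n N d m' ∧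
    m' 0 0 = d ∧ ∀ j : Fin n, m' 0 j.succ = 0 := by
  obtain ⟨a, ha⟩ := hm.surj (Fin.cons d fun _ => 0) (by
    rw [Fin.sum_univ_succ]
    simp)
  refine ⟨fun b => m (Equiv.swap 0 a b), ⟨fun b => hm.deg _, ?_, ?_⟩, ?_, ?_⟩
  · intro b b' h
    exact (Equiv.swap 0 a).injective (hm.inj h)
  · intro α hα
    obtain ⟨b, hb⟩ := hm.surj α hα
    refine ⟨Equiv.swap 0 a b, ?_⟩
    simp only [Equiv.swap_apply_self]
    exact hb
  · simp only [Equiv.swap_apply_left, ha, Fin.cons_zero]
  · intro j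
    simp only [Equiv.swap_apply_left, ha, Fin.cons_succ]

/-- the places of the monomials `x_0 ^ (d - 1) x_j` -/
theorem blva_ind (hm : Mon n N d m) (hd : 1 ≤ d) (hm0 : ∀ j : Fin n, m 0 j.succ = 0) :
    ∃ b : Fin n → Fin N, ∀ j i : Fin n, m (b j).succ i.succ = if i = j then 1 else 0 := by
  have h1 : ∀ j : Fin n, ∃ b : Fin N, m b.succ = near d 0 j.succ := by
    intro j
    obtain ⟨a, ha⟩ := hm.surj _ (near_sum hd (0 : Fin (n + 1)) j.succ)
    have ha0 : a ≠ 0 := by
      rintro rfl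
      have h2 := congrFun ha j.succ
      rw [hm0 j] at h2
      unfold near at h2
      simp at h2
    obtain ⟨b, rfl⟩ := Fin.exists_succ_eq.2 ha0
    exact ⟨b, ha⟩
  choose b hb using h1
  refine ⟨b, fun j i => ?_⟩
  rw [hb j]
  unfold near
  simp [Fin.succ_ne_zero]

theorem blva_pi {b : Fin n → Fin N}
    (hb : ∀ j i : Fin n, m (b j).succ i.succ = if i = j then 1 else 0) {R : Type} [CommMonoid R]
    (x : Fin n → R) (j : Fin n) : blva_w m x (b j) = x j := by
  unfold blva_w
  rw [Finset.prod_eq_single j]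
  · rw [hb]
    simp
  · intro i _ hi
    rw [hb, if_neg hi, pow_zero]
  · intro h
    exact absurd (Finset.mem_univ _) h

theorem blva_w_diff {f : ℂ → Fin n → ℂ} (hf : Differentiable ℂ f) :
    Differentiable ℂ fun z => blva_w m (f z) := by
  rw [differentiable_pi] at hf ⊢
  intro b
  unfold blva_w
  exact diff_prod _ _ fun j => (hf j).fun_pow _

/-- the equations of the image of `V` -/
noncomputable def blva_W {R : Type} [CommRing R] {ι : Type}
    (m : Fin (N + 1) → Fin (n + 1) → ℕ) (b : Fin n → Fin N) (F : ι → MvPolynomial (Fin n) R) :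
    ι ⊕ Fin N → MvPolynomial (Fin N) R :=
  Sum.elim (fun i => rename b (F i)) fun c => X c - ∏ j, X (b j) ^ m c.succ j.succ

theorem blva_W_iff {R Ω ι : Type} [CommRing R] [Field Ω] (τ : R →+* Ω) {b : Fin n → Fin N}
    {F : ι → MvPolynomial (Fin n) R} (u : Fin N → Ω) :
    (∀ i, eval₂ τ u (blva_W m b F i) = 0) ↔
      (∀ i, eval₂ τ (fun j => u (b j)) (F i) = 0) ∧ u = blva_w m fun j => u (b j) := by
  rw [Sum.forall]
  unfold blva_W
  simp only [Sum.elim_inl, Sum.elim_inr, eval₂_rename]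
  apply and_congr
  · rfl
  · rw [funext_iff]
    apply forall_congr'
    intro c
    rw [eval₂_sub, eval₂_X, ← coe_eval₂Hom, map_prod, sub_eq_zero]
    simp only [map_pow, coe_eval₂Hom, eval₂_X]
    rfl

end affine

theorem t_blva : BlvA_stm := by
  intro D₁ hG K _ _ σ E hE H n ι κ _ F G
  rcases Nat.eq_zero_or_pos n with rfl | hn
  · constructor
    · intro _ L _ _ _ S _
      exact Set.Subsingleton.finite (fun x _ y _ => Subsingleton.elim x y)
    · intro _ f _ _ hne
      obtain ⟨z, w, hzw⟩ := hne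
      exact absurd (Subsingleton.elim _ _) hzw
  obtain ⟨d, hd3, hd⟩ : ∃ d, 3 ≤ d ∧ ∀ i, (F i).totalDegree ≤ d := by
    cases nonempty_fintype ι
    exact ⟨max 3 (Finset.univ.sup fun i => (F i).totalDegree), le_max_left _ _, fun i =>
      (Finset.le_sup (f := fun i => (F i).totalDegree) (Finset.mem_univ i)).trans
        (le_max_right _ _)⟩
  have hd1 : 1 ≤ d := by omega
  obtain ⟨N, m0, hm0, hN⟩ := t_num n d hn hd3
  obtain ⟨m, hm, hm00, hm0s⟩ := blva_mon hm0
  obtain ⟨D, hDE, hD⟩ := hE.exists_gt (D₁ N)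
  have hSd : ∀ p ∈ Set.range (fun i => blva_hom d (F i)), ∃ e ≤ d, p.IsHomogeneous e := by
    rintro _ ⟨i, rfl⟩
    exact ⟨d, le_rfl, blva_hom_form (hd i)⟩
  obtain ⟨Q, hQ, hsm, hv, hgood⟩ := hG n d hn hd3 N m hm hN D hD.le K σ _ hSd
  obtain ⟨c, Q', hc, hQ', hcQ⟩ := blva_denom Q hQ
  have hcK : algebraMap (𝓞 K) K c ≠ 0 := by
    intro h0
    exact hc ((FaithfulSMul.algebraMap_injective (𝓞 K) K) (by rw [h0, map_zero]))
  have hA := blva_power (D := D) hcQ
  have hsm' : SmoothOver (map (algebraMap (𝓞 K) K) (powerFormRing D Q')) := by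
    rw [hA]
    exact blva_smooth hcK hsm
  obtain ⟨b, hb⟩ := blva_ind hm hd1 hm0s
  -- the points of the hypersurface
  have hU : ∀ (Ω : Type) [Field Ω] (τ : K →+* Ω) (u : Fin N → Ω),
      eval₂ (τ.comp (algebraMap (𝓞 K) K)) u (dehom (powerFormRing D Q')) = 0 ↔
        eval (Fin.cons 1 u : Fin (N + 1) → Ω) (map τ (powerSum D Q)) = 0 := by
    intro Ω _ τ u
    rw [blva_dehom, hA, map_mul, map_C, map_mul, eval_C, mul_eq_zero]
    constructor
    · rintro (h | h)
      · exact absurd h ((map_ne_zero τ).2 hcK)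
      · exact h
    · exact Or.inr
  have hVU : ∀ (Ω : Type) [Field Ω] (τ : K →+* Ω) (x : Fin n → Ω),
      (∀ i, eval₂ (τ.comp (algebraMap (𝓞 K) K)) x (F i) = 0) →
      eval₂ (τ.comp (algebraMap (𝓞 K) K)) (blva_w m x) (dehom (powerFormRing D Q')) = 0 := by
    intro Ω _ τ x hx
    rw [hU, ← blva_ver hm0s]
    apply hv
    rintro _ ⟨i, rfl⟩
    rw [blva_hom_zero τ (hd i) _ (by simp)]
    have h1 : (fun j : Fin n => (Fin.cons 1 x : Fin (n + 1) → Ω) j.succ /
        (Fin.cons 1 x : Fin (n + 1) → Ω) 0) = x := by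
      funext j
      simp
    rw [h1]
    exact hx i
  -- the entire curves
  have hcur : ∀ f : ℂ → Fin N → ℂ, Differentiable ℂ f →
      (∀ z, eval₂ (σ.comp (algebraMap (𝓞 K) K)) (f z) (dehom (powerFormRing D Q')) = 0) →
      (∃ z w, f z ≠ f w) → ∀ z,
        (∀ i, eval₂ (σ.comp (algebraMap (𝓞 K) K)) (fun j => f z (b j)) (F i) = 0) ∧
          f z = blva_w m fun j => f z (b j) := by
    intro f hf hfU hne z
    rcases hgood.curves (fun z => (Fin.cons 1 (f z) : Fin (N + 1) → ℂ)) (by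
        rw [differentiable_pi] at hf ⊢
        intro j
        refine Fin.cases ?_ (fun j => ?_) j
        · simp only [Fin.cons_zero]
          exact differentiable_const _
        · simp only [Fin.cons_succ]
          exact hf j) (fun z h0 => by
        have h1 := congrFun h0 0
        simp at h1) (fun z => (hU ℂ σ (f z)).1 (hfU z)) with h | h
    · exfalso
      obtain ⟨z1, z2, h12⟩ := hne
      obtain ⟨c, hc⟩ := h z1 z2
      have h0 := congrFun hc 0
      simp only [Fin.cons_zero, Pi.smul_apply, smul_eq_mul, mul_one] at h0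
      apply h12
      funext j
      have h1 := congrFun hc j.succ
      simp only [Fin.cons_succ, Pi.smul_apply, smul_eq_mul, ← h0, one_mul] at h1
      exact h1.symm
    · obtain ⟨x, hx, hxS, hfx⟩ := h z
      have h1 : x 0 ^ d = 1 := by
        have h0 := congrFun hfx 0
        rw [Fin.cons_zero] at h0
        rw [h0]
        unfold ver
        rw [Fin.prod_univ_succ, hm00]
        simp [hm0s]
      have hx0 : x 0 ≠ 0 := by
        intro h
        rw [h, zero_pow (by omega)] at h1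
        exact zero_ne_one h1
      have h2 : x = x 0 • (Fin.cons 1 (fun j => x j.succ / x 0) : Fin (n + 1) → ℂ) := by
        funext j
        refine Fin.cases ?_ (fun j => ?_) j
        · simp
        · simp only [Pi.smul_apply, Fin.cons_succ, smul_eq_mul]
          field_simp
      have h3 : ver m x = Fin.cons 1 (blva_w m fun j => x j.succ / x 0) := by
        rw [← blva_ver hm0s]
        conv_lhs => rw [h2]
        rw [ver_smul hm, h1, one_smul]
      have hy : f z = blva_w m fun j => x j.succ / x 0 := by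
        rw [h3] at hfx
        funext c
        have h4 := congrFun hfx c.succ
        simpa only [Fin.cons_succ] using h4
      have hpi : (fun j => f z (b j)) = fun j => x j.succ / x 0 := by
        funext j
        rw [hy, blva_pi hb]
      rw [hpi]
      refine ⟨fun i => ?_, hy⟩
      have h5 := hxS (map σ (blva_hom d (F i))) ⟨_, ⟨i, rfl⟩, rfl⟩
      rwa [blva_hom_zero σ (hd i) x hx0] at h5
  -- all curves lie in the image, so only finitely many integral points are outside
  have hWfin := (H N D Q' hDE hD.le hQ' hsm' (ι ⊕ Fin N) (blva_W m b F)).1 (by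
    intro f hf hfU hne z
    exact (blva_W_iff _ (f z)).2 (hcur f hf (fun z => hfU z ()) hne z))
  have hW' := H N D Q' hDE hD.le hQ' hsm' ((ι ⊕ Fin N) ⊕ κ)
    (Sum.elim (blva_W m b F) fun k => rename b (G k))
  have hW'iff : ∀ (Ω : Type) [Field Ω] (τ : 𝓞 K →+* Ω) (u : Fin N → Ω),
      (∀ k, eval₂ τ u (Sum.elim (blva_W m b F) (fun k => rename b (G k)) k) = 0) ↔
        ((∀ i, eval₂ τ (fun j => u (b j)) (F i) = 0) ∧ u = blva_w m fun j => u (b j)) ∧
          ∀ k, eval₂ τ (fun j => u (b j)) (G k) = 0 := by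
    intro Ω _ τ u
    rw [Sum.forall]
    simp only [Sum.elim_inl, Sum.elim_inr, eval₂_rename]
    rw [blva_W_iff]
    rfl
  have hwint : ∀ (L : Type) [Field L] [NumberField L] (S : Set (HeightOneSpectrum (𝓞 L)))
      (x : Fin n → L), (∀ j, x j ∈ S.integer L) → ∀ a, blva_w m x a ∈ S.integer L := by
    intro L _ _ S x hx a
    exact prod_mem fun j _ => pow_mem (hx j) _
  constructor
  · intro hleft L _ _ _ S hS
    have h1 := hW'.1 (by
      intro f hf hfU hne z
      have h2 := hcur f hf (fun z => hfU z ()) hne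
      refine (hW'iff ℂ _ (f z)).2 ⟨h2 z, fun k => ?_⟩
      refine hleft (fun z j => f z (b j)) (differentiable_pi.2 fun j =>
        differentiable_pi.1 hf (b j)) (fun z => (h2 z).1) ?_ z k
      obtain ⟨z1, z2, h12⟩ := hne
      refine ⟨z1, z2, fun h3 => h12 ?_⟩
      rw [(h2 z1).2, (h2 z2).2]
      exact congrArg _ h3) L S hS
    refine (h1.preimage (f := blva_w m) fun x _ y _ hxy => ?_).subset fun x hx => ?_
    · funext j
      rw [← blva_pi hb x j, ← blva_pi hb y j]
      exact congrFun hxy _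
    · obtain ⟨⟨hx1, hx2⟩, hx3⟩ := hx
      refine ⟨⟨hwint L S x hx1, fun _ => hVU L (algebraMap K L) x hx2⟩, fun h4 => hx3 ⟨hx1, ?_⟩⟩
      have h5 := ((hW'iff L _ (blva_w m x)).1 h4.2).2
      intro k
      have h6 := h5 k
      have h7 : (fun j => blva_w m x (b j)) = x := funext fun j => blva_pi hb x j
      rwa [h7] at h6
  · intro hright
    have h1 := hW'.2 (by
      intro L _ _ _ S hS
      refine ((hWfin L S hS).union ((hright L S hS).image (blva_w m))).subset fun u hu => ?_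
      obtain ⟨hu1, hu2⟩ := hu
      by_cases hu3 : u ∈ intPoints (blva_W m b F) L S
      · right
        obtain ⟨h3, h4⟩ := (blva_W_iff _ u).1 hu3.2
        refine ⟨fun j => u (b j), ⟨⟨fun j => hu1.1 (b j), h3⟩, fun h5 => hu2 ⟨hu1.1, ?_⟩⟩, h4.symm⟩
        exact (hW'iff L _ u).2 ⟨⟨h3, h4⟩, h5.2⟩
      · exact Or.inl ⟨hu1, hu3⟩)
    intro f hf hfV hne z k
    have h2 := h1 (fun z => blva_w m (f z)) (blva_w_diff hf)
      (fun z _ => hVU ℂ σ (f z) (hfV z)) (by
        obtain ⟨z1, z2, h12⟩ := hne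
        refine ⟨z1, z2, fun h3 => h12 ?_⟩
        funext j
        rw [← blva_pi hb (f z1) j, ← blva_pi hb (f z2) j]
        exact congrFun h3 _) z
    have h3 := ((hW'iff ℂ _ _).1 h2).2 k
    have h4 : (fun j => blva_w m (f z) (b j)) = f z := funext fun j => blva_pi hb (f z) j
    rwa [h4] at h3

end Pool.Agent.N254.SQ
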