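import Pool.Agent.N254.SQ.Fin3
import Pool.Agent.N254.SQ.StmS

/-!
Project SQ (helper254), part BLVP (helper756): rational points and entire curves of projective
varieties, reduction to smooth hypersurfaces.
-/

set_option autoImplicit false

namespace Pool.Agent.N254.SQ

open MvPolynomial NumberField
open scoped LinearAlgebra.Projectivization


theorem blvp_smooth {K : Type} [Field K] {N : ℕ} {A : MvPolynomial (Fin (N + 1)) K}
    (h : Smooth A) : SmoothOver A := by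
  intro Ω _ τ y hy
  obtain ⟨j, hj⟩ := h Ω τ y hy
  rw [pderiv_map, eval_map] at hj
  exact ⟨j, hj⟩

theorem blvp_zero {K : Type} [Field K] {n : ℕ} {R : Type} [Field R] (σ : K →+* R)
    {p : MvPolynomial (Fin (n + 1)) K} (hp : ∃ e, p.IsHomogeneous e) {c : R}
    {x : Fin (n + 1) → R} (h : eval₂ σ x p = 0) : eval₂ σ (c • x) p = 0 := by
  obtain ⟨e, he⟩ := hp
  rw [eval₂_scale σ he, h, mul_zero]

/-- forms vanish at the representative of a point if they vanish at one vector of coordinates -/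
theorem blvp_rep {K L : Type} [Field K] [Field L] [Algebra K L] {n : ℕ}
    {p : MvPolynomial (Fin (n + 1)) K} (hp : ∃ e, p.IsHomogeneous e)
    (x : Fin (n + 1) → L) (hx : x ≠ 0) :
    aeval (Projectivization.mk L x hx).rep p = 0 ↔ aeval x p = 0 := by
  obtain ⟨a, ha⟩ := Projectivization.exists_smul_eq_mk_rep L x hx
  rw [← ha, aeval_def, aeval_def]
  have h1 : a • x = (a : L) • x := rfl
  rw [h1]
  constructor
  · intro h
    have h2 := blvp_zero (algebraMap K L) hp (c := ((a : L))⁻¹) h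
    rwa [smul_smul, inv_mul_cancel₀ a.ne_zero, one_smul] at h2
  · intro h
    exact blvp_zero (algebraMap K L) hp h

theorem blvp_lift {n N d : ℕ} {m : Fin (N + 1) → Fin (n + 1) → ℕ}
    {S : Set (MvPolynomial (Fin (n + 1)) ℂ)} {A : MvPolynomial (Fin (N + 1)) ℂ}
    (hg : Good n N d m S A) (f : ℂ → Fin (N + 1) → ℂ) (hf : Differentiable ℂ f)
    (hf0 : ∀ z, f z ≠ 0) (hfA : ∀ z, eval (f z) A = 0) (hcon : ¬ ∀ z w, ∃ c : ℂ, f w = c • f z) :
    ∃ F : ℂ → Fin (n + 1) → ℂ, Differentiable ℂ F ∧ (∀ z, F z ≠ 0) ∧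
      (∀ z, ∀ p ∈ S, eval (F z) p = 0) ∧ ∀ z, f z = ver m (F z) := by
  choose e he using hg.homS
  obtain ⟨F, hF1, hF0, hFS, hGF⟩ := maps t_lift hg.mon hg.deg
    (fun p : S => (p : MvPolynomial (Fin (n + 1)) ℂ)) (fun p => e p p.2)
    (fun p => he p p.2) A (by
      intro g hg1 hg0 hgA hgn z
      rcases hg.curves (fun z j => g j z) (differentiable_pi.2 hg1) (fun z h0 => by
          obtain ⟨j, hj⟩ := hg0 z
          exact hj (congrFun h0 j)) hgA with h4 | h4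
      · exfalso
        obtain ⟨i, j, z, w, hne⟩ := hgn
        apply hne
        obtain ⟨c, hc⟩ := h4 z w
        have h5 := congrFun hc i
        have h6 := congrFun hc j
        simp only [Pi.smul_apply, smul_eq_mul] at h5 h6
        rw [h5, h6]
        ring
      · obtain ⟨x, hx, hxS, hgx⟩ := h4 z
        exact ⟨x, hx, fun p => hxS _ p.2, hgx⟩) f hf hf0 (fun z => hfA z) hcon
  exact ⟨F, hF1, hF0, fun z p hp => hFS z ⟨p, hp⟩, hGF⟩

theorem blvp_fin (j : Fin (0 + 1)) : j = 0 := Fin.fin_one_eq_zero j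

/-- the case `n = 0` -/
theorem blvp_point {K : Type} [Field K] (σ : K →+* ℂ) {ι κ : Type}
    (F : ι → MvPolynomial (Fin (0 + 1)) K) (G : κ → MvPolynomial (Fin (0 + 1)) K) :
    ProjectiveBLV σ F G := by
  have key : ∀ {R : Type} [Field R] (x y : Fin (0 + 1) → R), x ≠ 0 → ∃ c : R, y = c • x := by
    intro R _ x y hx
    have hx0 : x 0 ≠ 0 := by
      intro h
      apply hx
      funext j
      rw [blvp_fin j]
      exact h
    refine ⟨y 0 / x 0, funext fun j => ?_⟩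
    rw [blvp_fin j, Pi.smul_apply, smul_eq_mul, div_mul_cancel₀ _ hx0]
  constructor
  · intro _ L _ _ _
    apply Set.Subsingleton.finite
    intro P _ P' _
    obtain ⟨c, hc⟩ := key P'.rep P.rep P'.rep_nonzero
    rw [← P.mk_rep, ← P'.mk_rep, Projectivization.mk_eq_mk_iff']
    exact ⟨c, hc.symm⟩
  · rintro _ f _ hf0 _ ⟨z, w, h⟩
    obtain ⟨c, hc⟩ := key (f z) (f w) (hf0 z)
    exact absurd hc (h c)

/-- the Veronese map on points -/
noncomputable def blvp_phi {n N d : ℕ} {m : Fin (N + 1) → Fin (n + 1) → ℕ} (hm : Mon n N d m)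
    (hd : 1 ≤ d) {L : Type} [Field L] (P : ℙ L (Fin (n + 1) → L)) : ℙ L (Fin (N + 1) → L) :=
  Projectivization.mk L (ver m P.rep) (ver_ne_zero hm hd P.rep_nonzero)

theorem blvp_inj {n N d : ℕ} {m : Fin (N + 1) → Fin (n + 1) → ℕ} (hm : Mon n N d m)
    (hd : 1 ≤ d) {L : Type} [Field L] :
    Function.Injective (blvp_phi hm hd : ℙ L (Fin (n + 1) → L) → ℙ L (Fin (N + 1) → L)) := by
  intro P P' h
  unfold blvp_phi at h
  rw [Projectivization.mk_eq_mk_iff'] at h
  obtain ⟨c, hc⟩ := h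
  obtain ⟨c', hc'⟩ := ver_prop hm hd P.rep_nonzero hc.symm
  rw [← P.mk_rep, ← P'.mk_rep, Projectivization.mk_eq_mk_iff']
  exact ⟨c', hc'.symm⟩

/-- the main step -/
theorem blvp_main {K : Type} [Field K] [CharZero K] (σ : K →+* ℂ) {n N d : ℕ}
    {m : Fin (N + 1) → Fin (n + 1) → ℕ} (hm : Mon n N d m) (hd : 1 ≤ d)
    {ι κ : Type} (F : ι → MvPolynomial (Fin (n + 1)) K)
    (hF : ∀ i, ∃ e, (F i).IsHomogeneous e) (G : κ → MvPolynomial (Fin (n + 1)) K)
    (hG : ∀ k, ∃ e, (G k).IsHomogeneous e)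
    (T : Finset (MvPolynomial (Fin (n + 1)) K)) (hT : (T : Set _) ⊆ Set.range G)
    (hTG : ∀ (Ω : Type) [Field Ω] (σ : K →+* Ω) (x : Fin (n + 1) → Ω),
        (∀ p ∈ T, eval x (map σ p) = 0) → ∀ p ∈ Set.range G, eval x (map σ p) = 0)
    (A : MvPolynomial (Fin (N + 1)) K) (hA : ∃ e, A.IsHomogeneous e)
    (hv : ∀ (Ω : Type) [Field Ω] (τ : K →+* Ω) (x : Fin (n + 1) → Ω),
      (∀ p ∈ Set.range F, eval x (map τ p) = 0) → eval (ver m x) (map τ A) = 0)
    (hg : Good n N d m (map σ '' Set.range F) (map σ A))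
    {ι₁ : Type} (q₁ : ι₁ → MvPolynomial (Fin (N + 1)) K) (hq₁ : ∀ i, (q₁ i).IsHomogeneous 2)
    (v₁ : ∀ (Ω : Type) [Field Ω] [Algebra K Ω] (x : Fin (n + 1) → Ω), (∀ k, aeval x (F k) = 0) →
      ∀ i, aeval (ver m x) (q₁ i) = 0)
    (w₁ : ∀ (Ω : Type) [Field Ω] [Algebra K Ω] (y : Fin (N + 1) → Ω), y ≠ 0 →
      (∀ i, aeval y (q₁ i) = 0) → ∃ (x : Fin (n + 1) → Ω) (a : Fin (n + 1)) (b : Fin (N + 1)),
        x a = 1 ∧ y b ≠ 0 ∧ (∀ c, y c = y b * ver m x c) ∧ ∀ k, aeval x (F k) = 0)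
    {ι₂ : Type} (q₂ : ι₂ → MvPolynomial (Fin (N + 1)) K) (hq₂ : ∀ i, (q₂ i).IsHomogeneous 2)
    (v₂ : ∀ (Ω : Type) [Field Ω] [Algebra K Ω] (x : Fin (n + 1) → Ω), (∀ k, aeval x (F k) = 0) →
      (∀ p ∈ T, aeval x p = 0) → ∀ i, aeval (ver m x) (q₂ i) = 0)
    (w₂ : ∀ (Ω : Type) [Field Ω] [Algebra K Ω] (y : Fin (N + 1) → Ω), y ≠ 0 →
      (∀ i, aeval y (q₂ i) = 0) → ∃ (x : Fin (n + 1) → Ω) (a : Fin (n + 1)) (b : Fin (N + 1)),
        x a = 1 ∧ y b ≠ 0 ∧ (∀ c, y c = y b * ver m x c) ∧ (∀ k, aeval x (F k) = 0) ∧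
          ∀ p ∈ T, aeval x p = 0)
    (h1 : ProjectiveBLV σ (fun _ : Unit => A) q₁) (h2 : ProjectiveBLV σ (fun _ : Unit => A) q₂) :
    ProjectiveBLV σ F G := by
  have hTh : ∀ p ∈ T, ∃ e, p.IsHomogeneous e := by
    intro p hp
    obtain ⟨k, hk⟩ := hT hp
    rw [← hk]
    exact hG k
  -- from the image to the equations
  have back : ∀ (Ω : Type) [Field Ω] [Algebra K Ω] (x : Fin (n + 1) → Ω), x ≠ 0 →
      (∀ i, aeval (ver m x) (q₂ i) = 0) → ∀ k, aeval x (G k) = 0 := by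
    intro Ω _ _ x hx hq k
    obtain ⟨x', a, b, hxa, hyb, hyc, -, hxT⟩ := w₂ Ω (ver m x) (ver_ne_zero hm hd hx) hq
    obtain ⟨c', hc'⟩ := ver_prop hm hd hx (x := x') (c := ver m x b) (funext fun c => hyc c)
    have h3 := hTG Ω (algebraMap K Ω) x (fun p hp => by
      rw [eval_map, hc']
      exact blvp_zero _ (hTh p hp) (hxT p hp)) (G k) ⟨k, rfl⟩
    rw [eval_map] at h3
    exact h3
  have forth : ∀ (Ω : Type) [Field Ω] [Algebra K Ω] (x : Fin (n + 1) → Ω),
      (∀ i, aeval x (F i) = 0) → (∀ k, aeval x (G k) = 0) → ∀ i, aeval (ver m x) (q₂ i) = 0 := by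
    intro Ω _ _ x hxF hxG
    refine v₂ Ω x hxF fun p hp => ?_
    obtain ⟨k, hk⟩ := hT hp
    rw [← hk]
    exact hxG k
  let algC : Algebra K ℂ := σ.toAlgebra
  -- the exceptional set of `A = 0` is contained in the image of `V`
  have hY : ∀ (L : Type) [Field L] [NumberField L] [Algebra K L],
      (projPoints (fun _ : Unit => A) L \ projPoints q₁ L).Finite := by
    refine h1.1 ?_
    rintro f hf hf0 hfA ⟨z₀, w₀, hnc⟩
    obtain ⟨F₁, -, hF0, hFS, hfF⟩ := blvp_lift hg f hf hf0 (fun z => by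
      rw [eval_map]
      exact hfA z ()) (fun h => by
      obtain ⟨c, hc⟩ := h z₀ w₀
      exact hnc c hc)
    intro z i
    rw [hfF z]
    refine v₁ ℂ (F₁ z) (fun k => ?_) i
    have h3 := hFS z _ ⟨F k, ⟨k, rfl⟩, rfl⟩
    rw [eval_map] at h3
    exact h3
  -- curves
  have hcurves : (∀ f : ℂ → Fin (n + 1) → ℂ, Differentiable ℂ f → (∀ z, f z ≠ 0) →
      (∀ z i, eval₂ σ (f z) (F i) = 0) → (∃ z w, ∀ c : ℂ, f w ≠ c • f z) →
      ∀ z k, eval₂ σ (f z) (G k) = 0) ↔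
      (∀ f : ℂ → Fin (N + 1) → ℂ, Differentiable ℂ f → (∀ z, f z ≠ 0) →
      (∀ z, ∀ _i : Unit, eval₂ σ (f z) A = 0) → (∃ z w, ∀ c : ℂ, f w ≠ c • f z) →
      ∀ z k, eval₂ σ (f z) (q₂ k) = 0) := by
    constructor
    · rintro h f hf hf0 hfA ⟨z₀, w₀, hnc⟩
      obtain ⟨F₁, hF₁, hF0, hFS, hfF⟩ := blvp_lift hg f hf hf0 (fun z => by
        rw [eval_map]
        exact hfA z ()) (fun h => by
        obtain ⟨c, hc⟩ := h z₀ w₀
        exact hnc c hc)
      have hV : ∀ z i, eval₂ σ (F₁ z) (F i) = 0 := by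
        intro z k
        have h3 := hFS z _ ⟨F k, ⟨k, rfl⟩, rfl⟩
        rw [eval_map] at h3
        exact h3
      have h4 := h F₁ hF₁ hF0 hV ⟨z₀, w₀, fun c hc => hnc (c ^ d) (by
        rw [hfF, hfF, hc, ver_smul hm])⟩
      intro z i
      rw [hfF z]
      exact forth ℂ (F₁ z) (hV z) (h4 z) i
    · rintro h f hf hf0 hfF ⟨z₀, w₀, hnc⟩ z k
      have h4 := h (fun z => ver m (f z)) (ver_diff hf) (fun z => ver_ne_zero hm hd (hf0 z))
        (fun z _ => by
          have h3 := hv ℂ σ (f z) (by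
            rintro _ ⟨i, rfl⟩
            rw [eval_map]
            exact hfF z i)
          rw [eval_map] at h3
          exact h3) ⟨z₀, w₀, fun c hc => by
            obtain ⟨c', hc'⟩ := ver_prop hm hd (hf0 w₀) hc
            exact hnc c' hc'⟩
      exact back ℂ (f z) (hf0 z) (h4 z) k
  -- points
  have hpoints : (∀ (L : Type) [Field L] [NumberField L] [Algebra K L],
      (projPoints F L \ projPoints G L).Finite) ↔
      (∀ (L : Type) [Field L] [NumberField L] [Algebra K L],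
      (projPoints (fun _ : Unit => A) L \ projPoints q₂ L).Finite) := by
    constructor
    · intro h L _ _ _
      refine ((hY L).union ((h L).image (blvp_phi hm hd))).subset ?_
      rintro P ⟨hPA, hPq⟩
      by_cases hP1 : P ∈ projPoints q₁ L
      · right
        obtain ⟨x, a, b, hxa, hyb, hyc, hxF⟩ := w₁ L P.rep P.rep_nonzero hP1
        have hx0 : x ≠ 0 := by
          intro h0
          rw [h0] at hxa
          exact zero_ne_one hxa
        have hyx : P.rep = (P.rep b) • ver m x := funext fun c => hyc c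
        refine ⟨Projectivization.mk L x hx0, ⟨fun i => (blvp_rep (hF i) x hx0).2 (hxF i),
          fun hxG => hPq fun i => ?_⟩, ?_⟩
        · have hxG' : ∀ k, aeval x (G k) = 0 := fun k => (blvp_rep (hG k) x hx0).1 (hxG k)
          rw [hyx]
          exact blvp_zero (algebraMap K L) ⟨2, hq₂ i⟩ (forth L x hxF hxG' i)
        · unfold blvp_phi
          obtain ⟨u, hu⟩ := Projectivization.exists_smul_eq_mk_rep L x hx0
          conv_rhs => rw [← P.mk_rep]
          rw [Projectivization.mk_eq_mk_iff']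
          have hu' : (Projectivization.mk L x hx0).rep = (u : L) • x := hu.symm
          have hub : (u : L) ^ d ≠ 0 := pow_ne_zero _ u.ne_zero
          refine ⟨(u : L) ^ d * (P.rep b)⁻¹, ?_⟩
          have hvx : ver m x = (P.rep b)⁻¹ • P.rep := by
            funext c
            rw [Pi.smul_apply, smul_eq_mul, hyc c, ← mul_assoc, inv_mul_cancel₀ hyb, one_mul]
          rw [hu', ver_smul hm, mul_smul, hvx]
      · left
        exact ⟨hPA, hP1⟩
    · intro h L _ _ _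
      refine Set.Finite.of_finite_image ((h L).subset ?_) ((blvp_inj hm hd).injOn)
      rintro _ ⟨P, ⟨hPF, hPG⟩, rfl⟩
      unfold blvp_phi
      refine ⟨fun _ => ?_, fun hq => hPG fun k => ?_⟩
      · rw [blvp_rep hA]
        have h3 := hv L (algebraMap K L) P.rep (by
          rintro _ ⟨i, rfl⟩
          rw [eval_map]
          exact hPF i)
        rw [eval_map] at h3
        exact h3
      · exact back L P.rep P.rep_nonzero (fun i => (blvp_rep ⟨2, hq₂ i⟩ _ _).1 (hq i)) k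
  exact hcurves.trans (h2.trans hpoints.symm)

theorem t_blvp : BlvP_stm := by
  intro D₁ hGeo K _ _ σ E hE H n ι κ _ F G hF hG
  classical
  rcases Nat.eq_zero_or_pos n with rfl | hn
  · exact blvp_point σ F G
  obtain ⟨T, hT, hTG⟩ := reduce (Set.range G)
  have hTh : ∀ p ∈ T, ∃ e, p.IsHomogeneous e := by
    intro p hp
    obtain ⟨k, hk⟩ := hT hp
    rw [← hk]
    exact hG k
  -- the bound for the degrees
  obtain ⟨d, hd3, hdF, hdT⟩ : ∃ d, 3 ≤ d ∧ (∀ i, ∃ e ≤ d, (F i).IsHomogeneous e) ∧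
      ∀ p ∈ T, ∃ e ≤ d, p.IsHomogeneous e := by
    have := Fintype.ofFinite ι
    choose eF heF using hF
    choose! eT heT using hTh
    refine ⟨max 3 (max (Finset.univ.sup eF) (T.sup eT)), le_max_left _ _, fun i => ⟨eF i, ?_,
      heF i⟩, fun p hp => ⟨eT p, ?_, heT p hp⟩⟩
    · exact (Finset.le_sup (f := eF) (Finset.mem_univ i)).trans
        ((le_max_left _ _).trans (le_max_right _ _))
    · exact (Finset.le_sup (f := eT) hp).trans ((le_max_right _ _).trans (le_max_right _ _))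
  obtain ⟨N, m, hm, hN⟩ := t_num n d hn hd3
  have hd1 : 1 ≤ d := by omega
  obtain ⟨D, hDE, hD⟩ := hE.exists_gt (D₁ N)
  obtain ⟨Q, hQ, hsm, hv, hg⟩ := hGeo n d hn hd3 N m hm hN D hD.le K σ (Set.range F) (by
    rintro _ ⟨i, rfl⟩
    exact hdF i)
  choose gF hgF1 hgF2 using hdF
  choose gT hgT1 hgT2 using fun p : T => hdT p.1 p.2
  obtain ⟨ι₁, _, q₁, hq₁, v₁, w₁⟩ := t_ver K n N d m hm hd1 ι F gF hgF2 hgF1
  obtain ⟨ι₂, _, q₂, hq₂, v₂, w₂⟩ := t_ver K n N d m hm hd1 (ι ⊕ T)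
    (Sum.elim F fun p : T => (p : MvPolynomial (Fin (n + 1)) K)) (Sum.elim gF gT)
    (by
      rintro (i | p)
      · exact hgF2 i
      · exact hgT2 p) (by
      rintro (i | p)
      · exact hgF1 i
      · exact hgT1 p)
  refine blvp_main σ hm hd1 F hF G hG T hT hTG (powerSum D Q) ⟨_, power_form hQ⟩ hv hg
    q₁ hq₁ v₁ (fun Ω _ _ y hy hyq => (w₁ Ω y hy hyq).2) q₂ hq₂
    (fun Ω _ _ x hxF hxT i => v₂ Ω x (by
      rintro (i | p)
      · exact hxF i
      · exact hxT p.1 p.2) i)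
    (fun Ω _ _ y hy hyq => by
      obtain ⟨x, a, b, hxa, hyb, hyc, hx⟩ := (w₂ Ω y hy hyq).2
      exact ⟨x, a, b, hxa, hyb, hyc, fun k => hx (Sum.inl k), fun p hp => hx (Sum.inr ⟨p, hp⟩)⟩)
    (H N D Q hDE hD.le hQ (blvp_smooth hsm) ι₁ q₁ fun i => ⟨2, hq₁ i⟩)
    (H N D Q hDE hD.le hQ (blvp_smooth hsm) ι₂ q₂ fun i => ⟨2, hq₂ i⟩)

end Pool.Agent.N254.SQ
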