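import Pool.Agent.N254.SQ.StmB

/-!
Project SQ (helper254), ninth part: values at places and logarithmic general type under Veronese maps
(helper316).
-/

set_option autoImplicit false

namespace Pool.Agent.N254.SQ

open MvPolynomial Metric FF
open Pool.Agent.W602.GT (SubVar GeneralType LogGeneralType coords)

section ce

variable {L : Type} [Field L] [Algebra ℂ L] (P : Place ℂ L)

/-- all coordinates are regular at `P`, and one of them is a unit -/
def CeU {n : ℕ} (v : Fin (n + 1) → L) : Prop :=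
  (∀ j, P.Reg (v j)) ∧ ∃ j, v j ≠ 0 ∧ P.ord (v j) = 0

theorem ce_reg_pow {f : L} (hf : P.Reg f) (k : ℕ) : P.Reg (f ^ k) := by
  induction k with
  | zero => rw [pow_zero]; exact P.reg_one
  | succ k ih => rw [pow_succ]; exact P.reg_mul ih hf

theorem ce_reg_prod {ι : Type} (s : Finset ι) (f : ι → L) (hf : ∀ i ∈ s, P.Reg (f i)) :
    P.Reg (∏ i ∈ s, f i) := by
  classical
  induction s using Finset.induction_on with
  | empty => rw [Finset.prod_empty]; exact P.reg_one
  | insert a s ha ih =>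
    rw [Finset.prod_insert ha]
    exact P.reg_mul (hf a (Finset.mem_insert_self a s))
      (ih fun i hi => hf i (Finset.mem_insert_of_mem hi))

theorem ce_ver {n N d : ℕ} {m : Fin (N + 1) → Fin (n + 1) → ℕ} (hm : Mon n N d m) (hd : 1 ≤ d)
    {u : Fin (n + 1) → L} (hu : CeU P u) : CeU P (ver m u) := by
  obtain ⟨h1, a, ha, ha0⟩ := hu
  refine ⟨fun b => ?_, ?_⟩
  · unfold ver
    exact ce_reg_prod P _ _ fun i _ => ce_reg_pow P (h1 i) _
  · obtain ⟨b, hb⟩ := ver_near (Ω := L) hm hd a a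
    refine ⟨b, ?_, ?_⟩
    · rw [hb]
      exact mul_ne_zero (pow_ne_zero _ ha) ha
    · rw [hb, P.ord_mul (pow_ne_zero _ ha) ha, P.ord_pow, ha0]
      simp

theorem ce_exists {n : ℕ} {y : Fin (n + 1) → L} (hy : y ≠ 0) : ∃ s : L, s ≠ 0 ∧ CeU P (s • y) := by
  classical
  obtain ⟨a, ha⟩ : ∃ a, y a ≠ 0 := by
    by_contra hcon
    push Not at hcon
    exact hy (funext hcon)
  obtain ⟨j, hj, hmin⟩ := Finset.exists_min_image (Finset.univ.filter fun i => y i ≠ 0)
    (fun i => P.ord (y i)) ⟨a, Finset.mem_filter.2 ⟨Finset.mem_univ _, ha⟩⟩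
  have hj0 : y j ≠ 0 := (Finset.mem_filter.1 hj).2
  refine ⟨(y j)⁻¹, inv_ne_zero hj0, fun i => ?_, j, ?_, ?_⟩
  · by_cases hi : y i = 0
    · left
      rw [Pi.smul_apply, smul_eq_mul, hi, mul_zero]
    · right
      rw [Pi.smul_apply, smul_eq_mul, P.ord_mul (inv_ne_zero hj0) hi, P.ord_inv]
      have := hmin i (Finset.mem_filter.2 ⟨Finset.mem_univ _, hi⟩)
      omega
  · rw [Pi.smul_apply, smul_eq_mul, inv_mul_cancel₀ hj0]
    exact one_ne_zero
  · rw [Pi.smul_apply, smul_eq_mul, inv_mul_cancel₀ hj0, P.ord_one]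

theorem ce_ord {n : ℕ} {v : Fin (n + 1) → L} {c : L} (hv : CeU P v) (hc : CeU P (c • v)) :
    c ≠ 0 ∧ P.ord c = 0 := by
  obtain ⟨h1, a, ha, ha0⟩ := hv
  obtain ⟨h2, b, hb, hb0⟩ := hc
  rw [Pi.smul_apply, smul_eq_mul] at hb hb0
  have hc0 : c ≠ 0 := left_ne_zero_of_mul hb
  have hvb : v b ≠ 0 := right_ne_zero_of_mul hb
  refine ⟨hc0, ?_⟩
  rw [P.ord_mul hc0 hvb] at hb0
  have h3 := (P.reg_iff hvb).1 (h1 b)
  have h4 := h2 a
  rw [Pi.smul_apply, smul_eq_mul] at h4
  have h5 := (P.reg_iff (mul_ne_zero hc0 ha)).1 h4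
  rw [P.ord_mul hc0 ha, ha0] at h5
  omega

/-- varieties of general type are of log general type for every boundary (`TH466.QG.log_of_general`) -/
theorem ce_general {k K : Type} [Field k] [Field K] [Algebra k K] {w : ℕ}
    (h : GeneralType k K w) (Bd : Place k K → Prop) : LogGeneralType k K w Bd := by
  obtain ⟨h0, N, hN, ω, h1, h2, h3⟩ := h
  refine ⟨h0, N, hN, ω, h1, fun P hP j D hDP => ?_, fun P hP _ => h2 P hP, h3⟩
  refine h2 P hP j D fun i f hf => ?_
  by_cases h0 : f = 0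
  · rw [h0, map_zero]
    exact P.reg_zero
  · have h3 := P.reg_mul (hDP i f) hf
    rwa [div_mul_cancel₀ _ h0] at h3

end ce

theorem t_cent : Cent := by
  refine ⟨?_, ?_, ?_⟩
  · intro n N d m hm hd T T' hT L _ _ y c hy hc P
    constructor
    · rintro ⟨c0, h1, ⟨j, h2, h3⟩, G', hG', h4, h5⟩
      obtain ⟨G, hG, e, he, he', hp⟩ := hT.down G' hG'
      obtain ⟨s, hs0, hs⟩ := ce_exists P hy
      have hv := ce_ver P hm hd hs
      have hU : CeU P (c0 • (c • ver m y)) := ⟨h1, j, h2, h3⟩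
      have hsd : s ^ d ≠ 0 := pow_ne_zero _ hs0
      have e1 : c0 • (c • ver m y) = (c0 * c / s ^ d) • ver m (s • y) := by
        rw [ver_smul hm, smul_smul, smul_smul, div_mul_cancel₀ _ hsd]
      rw [e1] at hU h4 h5
      obtain ⟨ht0, ht⟩ := ce_ord P hv hU
      rw [aeval_scale he', ← aeval_pull, hp, map_pow] at h4 h5
      have h6 : aeval (s • y) G ≠ 0 := by
        intro h
        apply h4
        rw [h, zero_pow (by omega), mul_zero]
      rw [P.ord_mul (pow_ne_zero _ ht0) (pow_ne_zero _ h6), P.ord_pow, P.ord_pow, ht, mul_zero,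
        zero_add] at h5
      refine ⟨s, hs.1, hs.2, G, hG, h6, ?_⟩
      rcases mul_eq_zero.1 h5 with h | h
      · have : d = 0 := by exact_mod_cast h
        omega
      · exact h
    · rintro ⟨s, h1, ⟨j, h2, h3⟩, G, hG, h4, h5⟩
      obtain ⟨G', hG', e, he, he', hp⟩ := hT.up G hG
      have hU : CeU P (s • y) := ⟨h1, j, h2, h3⟩
      have hv := ce_ver P hm hd hU
      have e1 : (s ^ d / c) • (c • ver m y) = ver m (s • y) := by
        rw [ver_smul hm, smul_smul, div_mul_cancel₀ _ hc]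
      rw [← e1] at hv
      refine ⟨s ^ d / c, hv.1, hv.2, G', hG', ?_, ?_⟩
      · rw [e1, ← aeval_pull, hp, map_pow]
        exact pow_ne_zero _ h4
      · rw [e1, ← aeval_pull, hp, map_pow, P.ord_pow, h5, mul_zero]
  · intro n N d m hd T T' hT L _ _ y c hc
    constructor
    · rintro ⟨G', hG', h⟩
      obtain ⟨G, hG, e, he, he', hp⟩ := hT.down G' hG'
      refine ⟨G, hG, fun h0 => h ?_⟩
      rw [aeval_scale he', ← aeval_pull, hp, map_pow, h0, zero_pow (by omega), mul_zero]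
    · rintro ⟨G, hG, h⟩
      obtain ⟨G', hG', e, he, he', hp⟩ := hT.up G hG
      refine ⟨G', hG', ?_⟩
      rw [aeval_scale he', ← aeval_pull, hp, map_pow]
      exact mul_ne_zero (pow_ne_zero _ hc) (pow_ne_zero _ h)
  · intro n T L _ _ w y h
    exact ce_general h _

end Pool.Agent.N254.SQ

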