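import Mathlib
import Pool.Agent.N131.SR.Ldl
import Pool.Agent.H159R3.NV.Wron

/-!
Light base of project SQ: meromorphic functions up to discrete sets, small functions, the
characteristic of a holomorphic curve (copied from Pool/Agent/TH143/EL/Mero.lean,
Pool/Agent/N131/SR/Small.lean, Alg.lean, Frob.lean, Curve.lean, to have few imports).
-/

set_option autoImplicit false

namespace Pool.Agent.N254.SQ

open MeasureTheory Set Filter Topology Metric Real ValueDistribution MeromorphicOn Function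
open Asymptotics
open Pool.Agent.N131.SR (Big NZ ldl exists_big borel)

noncomputable section

theorem codis_open {U : Set ℂ} (hU : U ∈ codiscrete ℂ) : IsOpen U := (mem_codiscrete'.1 hU).1

theorem codis_countable {U : Set ℂ} (hU : U ∈ codiscrete ℂ) : Uᶜ.Countable :=
  (HereditarilyLindelofSpace.isLindelof _).countable_of_isDiscrete (mem_codiscrete'.1 hU).2

theorem codis_connected {U : Set ℂ} (hU : U ∈ codiscrete ℂ) : IsConnected U := by
  have h := (codis_countable hU).isConnected_compl_of_one_lt_rank (E := ℂ) (by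
    rw [Complex.rank_real_complex]
    exact Nat.one_lt_ofNat)
  rwa [compl_compl] at h

theorem codis_pre {U : Set ℂ} (hU : U ∈ codiscrete ℂ) : IsPreconnected U :=
  (codis_connected hU).isPreconnected

theorem codis_ne {U : Set ℂ} (hU : U ∈ codiscrete ℂ) : U.Nonempty := (codis_connected hU).nonempty

theorem codis_punct {U : Set ℂ} (hU : U ∈ codiscrete ℂ) (x : ℂ) : U ∈ 𝓝[≠] x := by
  have h := mem_codiscrete.1 hU x
  rwa [disjoint_principal_right, compl_compl] at h

theorem codis_of_punct {U : Set ℂ} (h : ∀ x, U ∈ 𝓝[≠] x) : U ∈ codiscrete ℂ := by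
  rw [mem_codiscrete]
  intro x
  rw [disjoint_principal_right, compl_compl]
  exact h x

instance : (codiscrete ℂ).NeBot := by
  constructor
  intro h
  have h1 : (∅ : Set ℂ) ∈ codiscrete ℂ := by rw [h]; exact mem_bot
  exact (codis_ne h1).ne_empty rfl

theorem codis_ev {p : ℂ → Prop} (h : ∀ᶠ z in codiscrete ℂ, p z) (x : ℂ) : ∀ᶠ z in 𝓝[≠] x, p z :=
  codis_punct h x

theorem codis_of_ev {p : ℂ → Prop} (h : ∀ x, ∀ᶠ z in 𝓝[≠] x, p z) : ∀ᶠ z in codiscrete ℂ, p z :=
  codis_of_punct h

theorem codis_of_ev' {p : ℂ → Prop} (h : ∀ x, ∀ᶠ z in 𝓝 x, p z) : ∀ᶠ z in codiscrete ℂ, p z :=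
  codis_of_punct fun x => nhdsWithin_le_nhds (h x)

/-- on the good set everything holds in a full neighbourhood -/
theorem codis_nhds {U : Set ℂ} (hU : U ∈ codiscrete ℂ) {x : ℂ} (hx : x ∈ U) : U ∈ 𝓝 x :=
  (codis_open hU).mem_nhds hx

theorem punct_shift {p : ℂ → Prop} (a x : ℂ) (h : ∀ᶠ z in 𝓝[≠] (x + a), p z) :
    ∀ᶠ z in 𝓝[≠] x, p (z + a) := by
  have h1 : Tendsto (fun z : ℂ => z + a) (𝓝[≠] x) (𝓝[≠] (x + a)) := by
    apply tendsto_nhdsWithin_of_tendsto_nhds_of_eventually_within
    · exact ((continuous_id.add continuous_const).tendsto x).mono_left nhdsWithin_le_nhds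
    · filter_upwards [self_mem_nhdsWithin] with z hz
      intro h2
      exact hz (add_right_cancel h2)
  exact h1.eventually h

theorem codis_shift {p : ℂ → Prop} (a : ℂ) (h : ∀ᶠ z in codiscrete ℂ, p z) :
    ∀ᶠ z in codiscrete ℂ, p (z + a) :=
  codis_of_ev fun x => punct_shift a x (codis_ev h (x + a))

theorem mero_an {f : ℂ → ℂ} (hf : Meromorphic f) : ∀ᶠ z in codiscrete ℂ, AnalyticAt ℂ f z :=
  codis_of_ev fun x => (hf x).eventually_analyticAt

theorem mero_top {f : ℂ → ℂ} (hf : Meromorphic f) {x : ℂ} (h : ∃ᶠ z in 𝓝[≠] x, f z = 0) (y : ℂ) :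
    ∀ᶠ z in 𝓝[≠] y, f z = 0 := by
  have h1 := (hf x).frequently_zero_iff_eventuallyEq_zero.1 h
  have h2 : meromorphicOrderAt f x = ⊤ := meromorphicOrderAt_eq_top_iff.2 h1
  by_contra h3
  have h4 : meromorphicOrderAt f y ≠ ⊤ := fun h5 => h3 (meromorphicOrderAt_eq_top_iff.1 h5)
  exact (MeromorphicOn.meromorphicOrderAt_ne_top_of_isPreconnected (U := univ)
    (fun z _ => hf z) isPreconnected_univ (mem_univ y) (mem_univ x) h4) h2

/-- identity theorem -/
theorem mero_id {f : ℂ → ℂ} (hf : Meromorphic f) {x : ℂ} (h : ∃ᶠ z in 𝓝[≠] x, f z = 0) :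
    ∀ᶠ z in codiscrete ℂ, f z = 0 :=
  codis_of_ev (mero_top hf h)

theorem mero_ne {f : ℂ → ℂ} (hf : Meromorphic f) (h : ¬ ∀ᶠ z in codiscrete ℂ, f z = 0) :
    ∀ᶠ z in codiscrete ℂ, f z ≠ 0 := by
  apply codis_of_ev
  intro x
  by_contra h1
  exact h (mero_id hf (by simpa using h1))

theorem mero_id2 {f g : ℂ → ℂ} (hf : Meromorphic f) (hg : Meromorphic g) {x : ℂ}
    (h : ∃ᶠ z in 𝓝[≠] x, f z = g z) : ∀ᶠ z in codiscrete ℂ, f z = g z := by
  have h1 := mero_id (hf.sub hg) (x := x) (h.mono fun z hz => by rw [Pi.sub_apply, hz, sub_self])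
  filter_upwards [h1] with z hz
  exact sub_eq_zero.1 hz

/-- comparison functions -/
structure Cmp (L : Filter ℝ) (τ : ℝ → ℝ) : Prop where
  big : Big L
  log : Real.log =o[L] τ

variable {L : Filter ℝ} {τ : ℝ → ℝ}

/-- the characteristic is `O(τ)` -/
def OT (L : Filter ℝ) (τ : ℝ → ℝ) (a : ℂ → ℂ) : Prop :=
  Meromorphic a ∧ characteristic a ⊤ =O[L] τ

/-- the characteristic is `o(τ)` -/
def Sm (L : Filter ℝ) (τ : ℝ → ℝ) (a : ℂ → ℂ) : Prop :=
  Meromorphic a ∧ characteristic a ⊤ =o[L] τ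

/-- the order of the poles is at most `M` -/
def PL (M : ℕ) (a : ℂ → ℂ) : Prop := ∀ z, ((-(M : ℤ) : ℤ) : WithTop ℤ) ≤ meromorphicOrderAt a z

theorem Cmp.one (h : Cmp L τ) : (fun _ : ℝ => (1 : ℝ)) =o[L] τ := by
  refine IsBigO.trans_isLittleO ?_ h.log
  apply IsBigO.of_bound 1
  have h1 : ∀ᶠ r : ℝ in L, Real.exp 1 ≤ r := h.big.top (eventually_ge_atTop _)
  filter_upwards [h1] with r hr
  have h2 : 1 ≤ Real.log r := by
    rw [← Real.log_exp 1]
    exact Real.log_le_log (Real.exp_pos 1) hr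
  rw [Real.norm_eq_abs, Real.norm_eq_abs, one_mul, abs_one, abs_of_nonneg (by linarith)]
  exact h2

theorem Cmp.const (h : Cmp L τ) (c : ℝ) : (fun _ : ℝ => c) =o[L] τ := by
  have := h.one.const_mul_left c
  simpa using this

theorem Cmp.ge (h : Cmp L τ) : ∀ᶠ r : ℝ in L, 1 ≤ r := h.big.top (eventually_ge_atTop _)

theorem o_of_ev {s t : ℝ → ℝ} (hst : ∀ᶠ r in L, 0 ≤ s r ∧ s r ≤ t r)
    (ht : t =o[L] τ) : s =o[L] τ := by
  refine IsBigO.trans_isLittleO ?_ ht
  apply IsBigO.of_bound 1
  filter_upwards [hst] with r hr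
  obtain ⟨h1, h2⟩ := hr
  rw [Real.norm_eq_abs, Real.norm_eq_abs, one_mul, abs_of_nonneg h1, abs_of_nonneg (h1.trans h2)]
  exact h2

theorem O_of_ev {s t : ℝ → ℝ} (hst : ∀ᶠ r in L, 0 ≤ s r ∧ s r ≤ t r)
    (ht : t =O[L] τ) : s =O[L] τ := by
  refine IsBigO.trans ?_ ht
  apply IsBigO.of_bound 1
  filter_upwards [hst] with r hr
  obtain ⟨h1, h2⟩ := hr
  rw [Real.norm_eq_abs, Real.norm_eq_abs, one_mul, abs_of_nonneg h1, abs_of_nonneg (h1.trans h2)]
  exact h2

theorem Cmp.o_of_le (h : Cmp L τ) {s t : ℝ → ℝ} (hst : ∀ r, 1 ≤ r → 0 ≤ s r ∧ s r ≤ t r)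
    (ht : t =o[L] τ) : s =o[L] τ := o_of_ev (h.ge.mono hst) ht

theorem Cmp.O_of_le (h : Cmp L τ) {s t : ℝ → ℝ} (hst : ∀ r, 1 ≤ r → 0 ≤ s r ∧ s r ≤ t r)
    (ht : t =O[L] τ) : s =O[L] τ := O_of_ev (h.ge.mono hst) ht

theorem nz_or {a : ℂ → ℂ} (ha : Meromorphic a) : NZ a ∨ ∀ᶠ z in codiscrete ℂ, a z = 0 := by
  by_cases h : ∃ z, meromorphicOrderAt a z ≠ ⊤
  · left
    obtain ⟨z, hz⟩ := h
    intro w
    exact (ha.exists_meromorphicOrderAt_ne_top_iff_forall).1 ⟨z, hz⟩ w
  · right
    push Not at h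
    exact codis_of_ev fun z => meromorphicOrderAt_eq_top_iff.1 (h z)

theorem nz_ne {a : ℂ → ℂ} (ha : Meromorphic a) (h : NZ a) : ∀ᶠ z in codiscrete ℂ, a z ≠ 0 := by
  apply mero_ne ha
  intro h1
  exact h 0 (meromorphicOrderAt_eq_top_iff.2 (codis_ev h1 0))

theorem nz_of_ne {a : ℂ → ℂ} (ha : Meromorphic a) (h : ∃ᶠ z in codiscrete ℂ, a z ≠ 0) : NZ a := by
  rcases nz_or ha with h1 | h1
  · exact h1
  · exact absurd (h1.mono fun z hz => not_not.2 hz) h

theorem char_nonneg (a : ℂ → ℂ) {r : ℝ} (hr : 1 ≤ r) : 0 ≤ characteristic a ⊤ r :=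
  characteristic_nonneg hr

theorem char_zero {a : ℂ → ℂ} (h : ∀ᶠ z in codiscrete ℂ, a z = 0) {r : ℝ} (hr : r ≠ 0) :
    characteristic a ⊤ r = 0 := by
  have h1 : a =ᶠ[codiscrete ℂ] (fun _ => (0 : ℂ)) := h
  rw [characteristic_congr_codiscrete h1 hr]
  simp [characteristic, proximity_top, circleAverage_const]

theorem prox_zero {a : ℂ → ℂ} (h : ∀ᶠ z in codiscrete ℂ, a z = 0) {r : ℝ} (hr : r ≠ 0) :
    proximity a ⊤ r = 0 := by
  have h1 : a =ᶠ[codiscrete ℂ] (fun _ => (0 : ℂ)) := h
  rw [proximity_congr_codiscrete h1 hr]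
  simp [proximity_top, circleAverage_const]

theorem char_const (c : ℂ) (r : ℝ) : characteristic (fun _ => c) ⊤ r = log⁺ ‖c‖ := by
  simp [characteristic, proximity_top, circleAverage_const]

/-- the characteristic of a product -/
theorem char_mul {a b : ℂ → ℂ} (ha : Meromorphic a) (hb : Meromorphic b) {r : ℝ} (hr : 1 ≤ r) :
    characteristic (fun z => a z * b z) ⊤ r ≤ characteristic a ⊤ r + characteristic b ⊤ r := by
  have hr0 : r ≠ 0 := by positivity
  have h3 := char_nonneg a hr
  have h4 := char_nonneg b hr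
  rcases nz_or ha with h1 | h1
  · rcases nz_or hb with h2 | h2
    · exact characteristic_mul_top_le hr ha h1 hb h2
    · rw [char_zero (a := fun z => a z * b z) _ hr0]
      · positivity
      · filter_upwards [h2] with z hz
        rw [hz, mul_zero]
  · rw [char_zero (a := fun z => a z * b z) _ hr0]
    · positivity
    · filter_upwards [h1] with z hz
      rw [hz, zero_mul]

theorem char_add {a b : ℂ → ℂ} (ha : Meromorphic a) (hb : Meromorphic b) {r : ℝ} (hr : 1 ≤ r) :
    characteristic (fun z => a z + b z) ⊤ r ≤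
      characteristic a ⊤ r + characteristic b ⊤ r + log 2 :=
  characteristic_add_top_le ha hb hr

theorem prox_mul {a b : ℂ → ℂ} (ha : Meromorphic a) (hb : Meromorphic b) (r : ℝ) :
    proximity (fun z => a z * b z) ⊤ r ≤ proximity a ⊤ r + proximity b ⊤ r :=
  proximity_mul_top_le ha hb r

theorem prox_add {a b : ℂ → ℂ} (ha : Meromorphic a) (hb : Meromorphic b) (r : ℝ) :
    proximity (fun z => a z + b z) ⊤ r ≤
      proximity a ⊤ r + proximity b ⊤ r + log 2 :=
  proximity_add_top_le ha hb r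

theorem char_inv {a : ℂ → ℂ} (ha : Meromorphic a) : ∃ C : ℝ, ∀ r,
    characteristic (fun z => (a z)⁻¹) ⊤ r ≤ characteristic a ⊤ r + C := by
  refine ⟨max |log ‖a 0‖| |log ‖meromorphicTrailingCoeffAt a 0‖|, fun r => ?_⟩
  have := (abs_le.1 (characteristic_sub_characteristic_inv_le ha (R := r))).1
  have e : (fun z => (a z)⁻¹) = a⁻¹ := rfl
  rw [e]
  linarith

theorem char_le_of_congr {a b : ℂ → ℂ} (h : ∀ᶠ z in codiscrete ℂ, a z = b z) {r : ℝ}
    (hr : 1 ≤ r) : characteristic a ⊤ r = characteristic b ⊤ r :=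
  characteristic_congr_codiscrete h (by positivity)

section classes

variable (H : Cmp L τ)
include H

theorem sm_const (c : ℂ) : Sm L τ fun _ => c := by
  refine ⟨Meromorphic.const c, ?_⟩
  refine (H.const (log⁺ ‖c‖)).congr_left fun r => ?_
  exact (char_const c r).symm

omit H in
theorem Sm.ot {a : ℂ → ℂ} (h : Sm L τ a) : OT L τ a := ⟨h.1, h.2.isBigO⟩

theorem Sm.mul {a b : ℂ → ℂ} (ha : Sm L τ a) (hb : Sm L τ b) : Sm L τ fun z => a z * b z :=
  ⟨ha.1.mul hb.1, H.o_of_le (fun _ hr => ⟨char_nonneg _ hr, char_mul ha.1 hb.1 hr⟩)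
    (ha.2.add hb.2)⟩

theorem Sm.add {a b : ℂ → ℂ} (ha : Sm L τ a) (hb : Sm L τ b) : Sm L τ fun z => a z + b z :=
  ⟨ha.1.add hb.1, H.o_of_le (fun _ hr => ⟨char_nonneg _ hr, char_add ha.1 hb.1 hr⟩)
    ((ha.2.add hb.2).add (H.const (log 2)))⟩

theorem OT.mul {a b : ℂ → ℂ} (ha : OT L τ a) (hb : OT L τ b) : OT L τ fun z => a z * b z :=
  ⟨ha.1.mul hb.1, H.O_of_le (fun _ hr => ⟨char_nonneg _ hr, char_mul ha.1 hb.1 hr⟩)
    (ha.2.add hb.2)⟩

theorem OT.add {a b : ℂ → ℂ} (ha : OT L τ a) (hb : OT L τ b) : OT L τ fun z => a z + b z :=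
  ⟨ha.1.add hb.1, H.O_of_le (fun _ hr => ⟨char_nonneg _ hr, char_add ha.1 hb.1 hr⟩)
    ((ha.2.add hb.2).add (H.const (log 2)).isBigO)⟩

theorem OT.inv {a : ℂ → ℂ} (ha : OT L τ a) : OT L τ fun z => (a z)⁻¹ := by
  obtain ⟨C, hC⟩ := char_inv ha.1
  exact ⟨ha.1.inv, H.O_of_le (fun r hr => ⟨char_nonneg _ hr, hC r⟩)
    (ha.2.add (H.const C).isBigO)⟩

theorem Sm.inv {a : ℂ → ℂ} (ha : Sm L τ a) : Sm L τ fun z => (a z)⁻¹ := by
  obtain ⟨C, hC⟩ := char_inv ha.1
  exact ⟨ha.1.inv, H.o_of_le (fun r hr => ⟨char_nonneg _ hr, hC r⟩)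
    (ha.2.add (H.const C))⟩

theorem log_o {t : ℝ → ℝ} (h0 : ∀ᶠ r in L, 0 ≤ t r) (ht : t =O[L] τ) :
    (fun r => Real.log (1 + t r)) =o[L] τ := by
  obtain ⟨C, hC0, hC⟩ := ht.exists_pos
  rw [isLittleO_iff]
  intro c hc
  set ε : ℝ := c / (2 * C) with hε
  have hε0 : 0 < ε := by positivity
  have h1 := (isLittleO_iff.1 (H.const |ε - 1 - log ε|)) (show 0 < c / 2 by positivity)
  filter_upwards [h0, hC.bound, h1] with r h2 h3 h4
  have h5 := Real.log_le_sub_one_of_pos (x := ε * (1 + t r)) (by positivity)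
  rw [Real.log_mul hε0.ne' (by positivity)] at h5
  have h6 : 0 ≤ log (1 + t r) := Real.log_nonneg (by linarith)
  rw [Real.norm_eq_abs, abs_of_nonneg h6]
  rw [Real.norm_eq_abs, abs_of_nonneg h2] at h3
  rw [Real.norm_eq_abs, abs_abs] at h4
  have h7 := le_abs_self (ε - 1 - log ε)
  have h8 : ε * t r ≤ c / 2 * ‖τ r‖ := by
    have h9 := mul_le_mul_of_nonneg_left h3 hε0.le
    have h10 : ε * (C * ‖τ r‖) = c / 2 * ‖τ r‖ := by
      rw [hε]
      field_simp
    linarith
  linarith

/-- logarithmic derivatives have small proximity functions -/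
theorem ld_o {a : ℂ → ℂ} (ha : OT L τ a) : proximity (logDeriv a) ⊤ =o[L] τ := by
  rcases nz_or ha.1 with h1 | h1
  · obtain ⟨E, C, hE, hC, hb⟩ := ldl ha.1 h1
    have h2 : (fun r => C * (1 + log r + log (1 + characteristic a ⊤ r))) =o[L] τ := by
      apply IsLittleO.const_mul_left
      exact ((H.const 1).add H.log).add
        (log_o H (H.ge.mono fun r hr => char_nonneg a hr) ha.2)
    refine o_of_ev ?_ h2
    filter_upwards [H.ge, H.big.fin E hE] with r h3 h4
    exact ⟨proximity_nonneg r, hb r h3 h4⟩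
  · have h2 : ∀ᶠ z in codiscrete ℂ, logDeriv a z = 0 := by
      filter_upwards [h1] with z hz
      rw [logDeriv_apply, hz, div_zero]
    refine H.o_of_le (fun r hr => ?_) (H.const 0)
    rw [prox_zero h2 (by positivity)]
    exact ⟨le_rfl, le_rfl⟩

omit H in
theorem order_deriv {a : ℂ → ℂ} (ha : Meromorphic a) (z : ℂ) :
    (0 ≤ meromorphicOrderAt a z ∧ 0 ≤ meromorphicOrderAt (deriv a) z) ∨
      ∃ n : ℤ, n < 0 ∧ meromorphicOrderAt a z = n ∧ meromorphicOrderAt (deriv a) z = (n - 1 : ℤ) := by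
  rcases lt_or_ge (meromorphicOrderAt a z) 0 with h | h
  · right
    obtain ⟨n, hn⟩ := WithTop.ne_top_iff_exists.1 (ne_top_of_lt h)
    have hn0 : n < 0 := by
      rw [← hn] at h
      exact_mod_cast h
    refine ⟨n, hn0, hn.symm, ?_⟩
    exact meromorphicOrderAt_deriv_eq_sub_one (f := a) (x := z) (n := n)
      (by exact_mod_cast hn0.ne) hn.symm
  · left
    refine ⟨h, ?_⟩
    obtain ⟨g, hg, hfg⟩ := (ha z).meromorphicOrderAt_nonneg_iff.1 h
    rw [meromorphicOrderAt_congr hfg.nhdsNE_deriv]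
    exact hg.deriv.meromorphicOrderAt_nonneg

omit H in
theorem count_deriv {a : ℂ → ℂ} (ha : Meromorphic a) {r : ℝ} (hr : 1 ≤ r) :
    ValueDistribution.logCounting (deriv a) ⊤ r ≤
      2 * ValueDistribution.logCounting a ⊤ r := by
  rw [logCounting_top, logCounting_top, two_mul, ← Pi.add_apply,
    ← locallyFinsuppWithin.logCounting.map_add]
  apply locallyFinsuppWithin.logCounting_le _ hr
  intro z
  change (divisor (deriv a) univ z)⁻ ≤ (divisor a univ z)⁻ + (divisor a univ z)⁻
  rw [divisor_apply ha.deriv.meromorphicOn (mem_univ z), divisor_apply ha.meromorphicOn (mem_univ z)]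
  rcases order_deriv ha z with ⟨h1, h2⟩ | ⟨n, hn, h1, h2⟩
  · have h3 : ∀ w : WithTop ℤ, 0 ≤ w → (w.untop₀)⁻ = 0 := by
      intro w hw
      rw [negPart_eq_zero]
      rcases eq_or_ne w ⊤ with h4 | h4
      · rw [h4]; simp
      · lift w to ℤ using h4
        simpa using hw
    rw [h3 _ h1, h3 _ h2]
    simp
  · rw [h1, h2]
    simp only [WithTop.untop₀_coe]
    rw [negPart_of_nonpos (by omega), negPart_of_nonpos (by omega)]
    omega

omit H in
theorem prox_deriv {a : ℂ → ℂ} (ha : Meromorphic a) {r : ℝ} (hr : r ≠ 0) :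
    proximity (deriv a) ⊤ r ≤ proximity a ⊤ r + proximity (logDeriv a) ⊤ r := by
  have hld : Meromorphic (logDeriv a) := ha.deriv.div ha
  rcases nz_or ha with h1 | h1
  · have h2 : deriv a =ᶠ[codiscrete ℂ] fun z => a z * logDeriv a z := by
      filter_upwards [nz_ne ha h1] with z hz
      rw [logDeriv_apply, mul_div_cancel₀ _ hz]
    rw [proximity_congr_codiscrete h2 hr]
    exact prox_mul ha hld r
  · have h2 : ∀ᶠ z in codiscrete ℂ, deriv a z = 0 := by
      apply codis_of_ev
      intro z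
      have h3 : a =ᶠ[𝓝[≠] z] fun _ => (0 : ℂ) := codis_ev h1 z
      have h4 := h3.nhdsNE_deriv
      filter_upwards [h4] with w hw
      rw [hw]
      simp
    rw [prox_zero h2 hr]
    exact add_nonneg (proximity_nonneg _) (proximity_nonneg _)

omit H in
theorem char_deriv {a : ℂ → ℂ} (ha : Meromorphic a) {r : ℝ} (hr : 1 ≤ r) :
    characteristic (deriv a) ⊤ r ≤ 2 * characteristic a ⊤ r + proximity (logDeriv a) ⊤ r := by
  have h1 := count_deriv ha hr
  have h2 := prox_deriv ha (r := r) (by positivity)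
  have h3 : 0 ≤ proximity a ⊤ r := proximity_nonneg r
  unfold characteristic
  simp only [Pi.add_apply]
  linarith

theorem OT.deriv {a : ℂ → ℂ} (ha : OT L τ a) : OT L τ (deriv a) :=
  ⟨ha.1.deriv, H.O_of_le (fun _ hr => ⟨char_nonneg _ hr, char_deriv ha.1 hr⟩)
    ((ha.2.const_mul_left 2).add (ld_o H ha).isBigO)⟩

theorem Sm.deriv {a : ℂ → ℂ} (ha : Sm L τ a) : Sm L τ (deriv a) :=
  ⟨ha.1.deriv, H.o_of_le (fun _ hr => ⟨char_nonneg _ hr, char_deriv ha.1 hr⟩)
    ((ha.2.const_mul_left 2).add (ld_o H ha.ot))⟩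

end classes

/-- the characteristic of a holomorphic curve with the homogeneous coordinates `f` -/
def Tf {N : ℕ} (f : Fin (N + 1) → ℂ → ℂ) (r : ℝ) : ℝ :=
  circleAverage (fun z => Real.log ‖fun j => f j z‖) 0 r

section curve

variable {N : ℕ} {f : Fin (N + 1) → ℂ → ℂ} (hf : ∀ j, Differentiable ℂ (f j))
  (h0 : ∀ z, ∃ j, f j z ≠ 0)

include hf in
theorem curve_cont : Continuous fun z => (fun j => f j z : Fin (N + 1) → ℂ) :=
  continuous_pi fun j => (hf j).continuous

include h0 in
theorem curve_pos (z : ℂ) : 0 < ‖(fun j => f j z : Fin (N + 1) → ℂ)‖ := by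
  rw [norm_pos_iff]
  intro h
  obtain ⟨j, hj⟩ := h0 z
  exact hj (congrFun h j)

include hf h0 in
theorem curve_int (r : ℝ) : CircleIntegrable (fun z => Real.log ‖fun j => f j z‖) 0 r := by
  apply ContinuousOn.circleIntegrable'
  apply Continuous.continuousOn
  exact Continuous.log (curve_cont hf).norm fun z => (curve_pos h0 z).ne'

include hf in
theorem f_mero (j : Fin (N + 1)) : Meromorphic (f j) := fun z => ((hf j).analyticAt z).meromorphicAt

include hf in
theorem f_div (j : Fin (N + 1)) (z : ℂ) : 0 ≤ divisor (f j) univ z := by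
  rw [divisor_apply (f_mero hf j).meromorphicOn (mem_univ z)]
  have h1 := ((hf j).analyticAt z).meromorphicOrderAt_nonneg
  rcases eq_or_ne (meromorphicOrderAt (f j) z) ⊤ with h6 | h6
  · rw [h6]; simp
  · lift meromorphicOrderAt (f j) z to ℤ using h6 with n
    rw [WithTop.untop₀_coe]
    exact_mod_cast h1

include hf in
theorem f_avg {l : Fin (N + 1)} {r : ℝ} (hr : 1 ≤ r) :
    circleAverage (fun z => Real.log ‖f l z‖) 0 r =
      ValueDistribution.logCounting (f l) 0 r + log ‖meromorphicTrailingCoeffAt (f l) 0‖ := by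
  have h1 := logCounting_zero_sub_logCounting_top_eq_circleAverage_sub_const (f_mero hf l)
    (show r ≠ 0 by positivity)
  have h2 : ValueDistribution.logCounting (f l) ⊤ = 0 := by
    rw [logCounting_top]
    have : (divisor (f l) univ)⁻ = 0 := by
      rw [negPart_eq_zero]
      exact f_div hf l
    rw [this, map_zero]
  rw [h2, sub_zero] at h1
  linarith

include hf h0 in
/-- ratios of coordinates grow at most like the curve -/
theorem ratio_le (i l : Fin (N + 1)) (hl : ∃ z, f l z ≠ 0) : ∃ C : ℝ, ∀ r, 1 ≤ r →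
    characteristic (fun z => f i z / f l z) ⊤ r ≤ Tf f r + C := by
  have hml := f_mero hf l
  have hmi := f_mero hf i
  have hnz : NZ (f l) := by
    obtain ⟨z, hz⟩ := hl
    rcases nz_or hml with h1 | h1
    · exact h1
    · exfalso
      have h2 : ∀ᶠ w in 𝓝[≠] z, f l w ≠ 0 :=
        ((hf l).continuous.continuousAt.eventually_ne hz).filter_mono nhdsWithin_le_nhds
      obtain ⟨w, h3, h4⟩ := ((codis_ev h1 z).and h2).exists
      exact h4 h3
  have hne := nz_ne hml hnz
  refine ⟨-log ‖meromorphicTrailingCoeffAt (f l) 0‖, fun r hr => ?_⟩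
  have hr0 : r ≠ 0 := by positivity
  have hav := f_avg hf (l := l) hr
  -- counting functions
  have hN : ValueDistribution.logCounting (fun z => f i z / f l z) ⊤ r ≤
      ValueDistribution.logCounting (f l) 0 r := by
    rw [logCounting_top, logCounting_zero]
    apply locallyFinsuppWithin.logCounting_le _ hr
    intro z
    change (divisor (fun z => f i z / f l z) univ z)⁻ ≤ (divisor (f l) univ z)⁺
    have hdiv : Meromorphic fun z => f i z / f l z := hmi.div hml
    rw [divisor_apply hdiv.meromorphicOn (mem_univ z)]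
    have h1 : meromorphicOrderAt (fun z => f i z / f l z) z =
        meromorphicOrderAt (f i) z - meromorphicOrderAt (f l) z :=
      meromorphicOrderAt_div (hmi z) (hml z)
    rw [h1, divisor_apply hml.meromorphicOn (mem_univ z)]
    have h2 := ((hf i).analyticAt z).meromorphicOrderAt_nonneg
    have h3 := ((hf l).analyticAt z).meromorphicOrderAt_nonneg
    have h4 := hnz z
    lift meromorphicOrderAt (f l) z to ℤ using h4 with n
    rcases eq_or_ne (meromorphicOrderAt (f i) z) ⊤ with h6 | h6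
    · rw [h6]
      have : (⊤ : WithTop ℤ) - (n : WithTop ℤ) = ⊤ := rfl
      rw [this]
      simp
    · lift meromorphicOrderAt (f i) z to ℤ using h6 with m
      have h2' : 0 ≤ m := by exact_mod_cast h2
      have h3' : 0 ≤ n := by exact_mod_cast h3
      have : (m : WithTop ℤ) - (n : WithTop ℤ) = ((m - n : ℤ) : WithTop ℤ) := rfl
      rw [this, WithTop.untop₀_coe, WithTop.untop₀_coe, posPart_of_nonneg h3']
      rcases le_total (m - n) 0 with h7 | h7
      · rw [negPart_of_nonpos h7]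
        omega
      · rw [negPart_of_nonneg h7]
        exact h3'
  have hm : proximity (fun z => f i z / f l z) ⊤ r ≤
      Tf f r - circleAverage (fun z => Real.log ‖f l z‖) 0 r := by
    have h1 : CircleIntegrable (fun z => Real.log ‖f l z‖) 0 r :=
      hml.meromorphicOn.circleIntegrable_log_norm
    unfold Tf
    rw [← circleAverage_fun_sub (curve_int hf h0 r) h1, proximity_top]
    apply Pool.Agent.Helper160.Nev.circleAverage_mono_codiscrete hr0
    · exact (hmi.div hml).meromorphicOn.circleIntegrable_posLog_norm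
    · exact (curve_int hf h0 r).sub h1
    · have h2 : ∀ᶠ z in codiscreteWithin (sphere (0 : ℂ) |r|), f l z ≠ 0 :=
        hne.filter_mono (codiscreteWithin_mono (subset_univ _))
      filter_upwards [h2] with z hz
      have h3 : ‖f l z‖ ≤ ‖(fun j => f j z : Fin (N + 1) → ℂ)‖ :=
        norm_le_pi_norm (fun j => f j z : Fin (N + 1) → ℂ) l
      have h4 : ‖f i z‖ ≤ ‖(fun j => f j z : Fin (N + 1) → ℂ)‖ :=
        norm_le_pi_norm (fun j => f j z : Fin (N + 1) → ℂ) i
      have h5 : 0 < ‖f l z‖ := norm_pos_iff.2 hz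
      rw [norm_div, posLog_apply]
      apply max_le
      · have := Real.log_le_log h5 h3
        linarith
      · rcases eq_or_lt_of_le (norm_nonneg (f i z)) with h6 | h6
        · rw [← h6, zero_div, Real.log_zero]
          have := Real.log_le_log h5 h3
          linarith
        · rw [Real.log_div h6.ne' h5.ne']
          have := Real.log_le_log h6 h4
          linarith
  unfold characteristic
  simp only [Pi.add_apply]
  linarith

include hf h0 in
/-- the curve grows at most like the ratios of the coordinates -/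
theorem Tf_le (l : Fin (N + 1)) (hl : ∃ z, f l z ≠ 0) : ∃ C : ℝ, ∀ r, 1 ≤ r →
    Tf f r ≤ ∑ i, characteristic (fun z => f i z / f l z) ⊤ r + C := by
  have hml := f_mero hf l
  have hnz : NZ (f l) := by
    obtain ⟨z, hz⟩ := hl
    rcases nz_or hml with h1 | h1
    · exact h1
    · exfalso
      have h2 : ∀ᶠ w in 𝓝[≠] z, f l w ≠ 0 :=
        ((hf l).continuous.continuousAt.eventually_ne hz).filter_mono nhdsWithin_le_nhds
      obtain ⟨w, h3, h4⟩ := ((codis_ev h1 z).and h2).exists
      exact h4 h3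
  have hne := nz_ne hml hnz
  refine ⟨log ‖meromorphicTrailingCoeffAt (f l) 0‖, fun r hr => ?_⟩
  have hr0 : r ≠ 0 := by positivity
  have hav := f_avg hf (l := l) hr
  have hN : ValueDistribution.logCounting (f l) 0 r ≤
      ∑ i, ValueDistribution.logCounting (fun z => f i z / f l z) ⊤ r := by
    have e1 : ∑ i, ValueDistribution.logCounting (fun z => f i z / f l z) ⊤ r =
        locallyFinsuppWithin.logCounting (∑ i, (divisor (fun z => f i z / f l z) univ)⁻) r := by
      rw [map_sum, Finset.sum_apply]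
      apply Finset.sum_congr rfl
      intro i _
      rw [logCounting_top]
    rw [e1, logCounting_zero]
    apply locallyFinsuppWithin.logCounting_le _ hr
    intro z
    obtain ⟨i, hi⟩ := h0 z
    have e2 : ∀ (s : Finset (Fin (N + 1))), (divisor (fun z => f i z / f l z) univ z)⁻ ≤
        (∑ j ∈ insert i s, (divisor (fun z => f j z / f l z) univ)⁻ :
          locallyFinsupp ℂ ℤ) z := by
      intro s
      classical
      have key : ∀ s : Finset (Fin (N + 1)),
          0 ≤ (∑ j ∈ s, (divisor (fun z => f j z / f l z) univ)⁻ : locallyFinsupp ℂ ℤ) := by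
        intro s
        exact Finset.sum_nonneg fun j _ => negPart_nonneg _
      have h2 : (∑ j ∈ insert i s, (divisor (fun z => f j z / f l z) univ)⁻ :
          locallyFinsupp ℂ ℤ) = (divisor (fun z => f i z / f l z) univ)⁻ +
            ∑ j ∈ (insert i s).erase i, (divisor (fun z => f j z / f l z) univ)⁻ :=
        (Finset.add_sum_erase _ _ (Finset.mem_insert_self i s)).symm
      rw [h2]
      have h3 := key ((insert i s).erase i) z
      change _ ≤ (divisor (fun z => f i z / f l z) univ z)⁻ + _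
      have h4 : (0 : ℤ) ≤ (∑ j ∈ (insert i s).erase i,
        (divisor (fun z => f j z / f l z) univ)⁻ : locallyFinsupp ℂ ℤ) z := h3
      linarith
    have e3 := e2 Finset.univ
    rw [Finset.insert_eq_of_mem (Finset.mem_univ i)] at e3
    refine le_trans ?_ e3
    change (divisor (f l) univ z)⁺ ≤ _
    have hmi := f_mero hf i
    have hdiv : Meromorphic fun z => f i z / f l z := hmi.div hml
    rw [divisor_apply hdiv.meromorphicOn (mem_univ z)]
    have h1 : meromorphicOrderAt (fun z => f i z / f l z) z =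
        meromorphicOrderAt (f i) z - meromorphicOrderAt (f l) z :=
      meromorphicOrderAt_div (hmi z) (hml z)
    have h2 : meromorphicOrderAt (f i) z = 0 := by
      rw [((hf i).analyticAt z).meromorphicOrderAt_eq,
        ((hf i).analyticAt z).analyticOrderAt_eq_zero.2 hi]
      rfl
    rw [h1, h2, divisor_apply hml.meromorphicOn (mem_univ z)]
    have h3 := ((hf l).analyticAt z).meromorphicOrderAt_nonneg
    have h4 := hnz z
    lift meromorphicOrderAt (f l) z to ℤ using h4 with n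
    have h3' : 0 ≤ n := by exact_mod_cast h3
    have : (0 : WithTop ℤ) - (n : WithTop ℤ) = ((0 - n : ℤ) : WithTop ℤ) := rfl
    rw [this, WithTop.untop₀_coe, WithTop.untop₀_coe, posPart_of_nonneg h3',
      negPart_of_nonpos (by omega)]
    omega
  have hm : Tf f r ≤ circleAverage (fun z => Real.log ‖f l z‖) 0 r +
      ∑ i, proximity (fun z => f i z / f l z) ⊤ r := by
    have h1 : CircleIntegrable (fun z => Real.log ‖f l z‖) 0 r :=
      hml.meromorphicOn.circleIntegrable_log_norm
    have h2 : ∀ i ∈ (Finset.univ : Finset (Fin (N + 1))),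
        CircleIntegrable (fun z => log⁺ ‖f i z / f l z‖) 0 r := fun i _ =>
      ((f_mero hf i).div hml).meromorphicOn.circleIntegrable_posLog_norm
    have h3 : ∑ i, proximity (fun z => f i z / f l z) ⊤ r =
        circleAverage (fun z => ∑ i, log⁺ ‖f i z / f l z‖) 0 r := by
      rw [circleAverage_fun_sum h2]
      apply Finset.sum_congr rfl
      intro i _
      rw [proximity_top]
    unfold Tf
    rw [h3, ← circleAverage_fun_add h1 (CircleIntegrable.fun_sum _ h2)]
    apply Pool.Agent.Helper160.Nev.circleAverage_mono_codiscrete hr0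
    · exact curve_int hf h0 r
    · exact h1.add (CircleIntegrable.fun_sum _ h2)
    · have h2 : ∀ᶠ z in codiscreteWithin (sphere (0 : ℂ) |r|), f l z ≠ 0 :=
        hne.filter_mono (codiscreteWithin_mono (subset_univ _))
      filter_upwards [h2] with z hz
      have h5 : 0 < ‖f l z‖ := norm_pos_iff.2 hz
      have h6 : ‖(fun j => f j z : Fin (N + 1) → ℂ)‖ ≤
          ‖f l z‖ * Real.exp (∑ i, log⁺ ‖f i z / f l z‖) := by
        rw [pi_norm_le_iff_of_nonneg (by positivity)]
        intro i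
        have h7 : ‖f i z / f l z‖ ≤ Real.exp (log⁺ ‖f i z / f l z‖) := by
          rcases eq_or_lt_of_le (norm_nonneg (f i z / f l z)) with h8 | h8
          · rw [← h8]
            positivity
          · calc ‖f i z / f l z‖ = Real.exp (Real.log ‖f i z / f l z‖) := (Real.exp_log h8).symm
              _ ≤ _ := Real.exp_le_exp.2 (le_max_right _ _)
        have h8 : log⁺ ‖f i z / f l z‖ ≤ ∑ i, log⁺ ‖f i z / f l z‖ :=
          Finset.single_le_sum (f := fun i => log⁺ ‖f i z / f l z‖)
            (fun j _ => posLog_nonneg) (Finset.mem_univ i)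
        have h9 := h7.trans (Real.exp_le_exp.2 h8)
        rw [norm_div, div_le_iff₀ h5] at h9
        linarith
      have h7 := Real.log_le_log (curve_pos h0 z) h6
      rw [Real.log_mul h5.ne' (Real.exp_pos _).ne', Real.log_exp] at h7
      exact h7
  unfold characteristic
  simp only [Pi.add_apply, Finset.sum_add_distrib]
  linarith

end curve

theorem codis_deriv {a b : ℂ → ℂ} (h : ∀ᶠ z in codiscrete ℂ, a z = b z) :
    ∀ᶠ z in codiscrete ℂ, deriv a z = deriv b z := by
  apply codis_of_ev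
  intro z
  have h1 : a =ᶠ[𝓝[≠] z] b := codis_ev h z
  exact h1.nhdsNE_deriv

theorem codis_deriv_mul {a b : ℂ → ℂ} (ha : Meromorphic a) (hb : Meromorphic b) :
    ∀ᶠ z in codiscrete ℂ, deriv (fun z => a z * b z) z = deriv a z * b z + a z * deriv b z := by
  filter_upwards [mero_an ha, mero_an hb] with z h1 h2
  exact (h1.differentiableAt.hasDerivAt.mul h2.differentiableAt.hasDerivAt).deriv

theorem codis_deriv_add {a b : ℂ → ℂ} (ha : Meromorphic a) (hb : Meromorphic b) :
    ∀ᶠ z in codiscrete ℂ, deriv (fun z => a z + b z) z = deriv a z + deriv b z := by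
  filter_upwards [mero_an ha, mero_an hb] with z h1 h2
  exact (h1.differentiableAt.hasDerivAt.add h2.differentiableAt.hasDerivAt).deriv

theorem codis_deriv_sub {a b : ℂ → ℂ} (ha : Meromorphic a) (hb : Meromorphic b) :
    ∀ᶠ z in codiscrete ℂ, deriv (fun z => a z - b z) z = deriv a z - deriv b z := by
  filter_upwards [mero_an ha, mero_an hb] with z h1 h2
  exact (h1.differentiableAt.hasDerivAt.sub h2.differentiableAt.hasDerivAt).deriv

theorem mero_sum {ι : Type*} (s : Finset ι) {a : ι → ℂ → ℂ} (ha : ∀ i ∈ s, Meromorphic (a i)) :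
    Meromorphic fun z => ∑ i ∈ s, a i z := by
  classical
  induction s using Finset.induction_on with
  | empty => simpa using Meromorphic.const (0 : ℂ)
  | insert i s hi ih =>
    simp only [Finset.sum_insert hi]
    exact (ha i (Finset.mem_insert_self i s)).add
      (ih fun j hj => ha j (Finset.mem_insert_of_mem hj))

theorem codis_deriv_sum {ι : Type*} (s : Finset ι) {a : ι → ℂ → ℂ}
    (ha : ∀ i ∈ s, Meromorphic (a i)) :
    ∀ᶠ z in codiscrete ℂ, deriv (fun z => ∑ i ∈ s, a i z) z = ∑ i ∈ s, deriv (a i) z := by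
  have h1 : ∀ᶠ z in codiscrete ℂ, ∀ i ∈ s, AnalyticAt ℂ (a i) z := by
    rw [eventually_all_finset]
    exact fun i hi => mero_an (ha i hi)
  filter_upwards [h1] with z hz
  exact (HasDerivAt.fun_sum fun i hi => (hz i hi).differentiableAt.hasDerivAt).deriv

/-- the operator `y ↦ y' - u y` -/
def Eop (u : ℂ → ℂ) : ℕ → (ℂ → ℂ) → ℂ → ℂ
  | 0, y => y
  | (k + 1), y => fun z => deriv (Eop u k y) z - u z * Eop u k y z

theorem mero_Eop {u y : ℂ → ℂ} (hu : Meromorphic u) (hy : Meromorphic y) (k : ℕ) :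
    Meromorphic (Eop u k y) := by
  induction k with
  | zero => exact hy
  | succ k ih => exact ih.deriv.sub (hu.mul ih)

theorem Eop_zero_fn (k : ℕ) (y : ℂ → ℂ) : Eop (fun _ => 0) k y = iteratedDeriv k y := by
  induction k with
  | zero => rw [iteratedDeriv_zero]; rfl
  | succ k ih =>
    rw [iteratedDeriv_succ, ← ih]
    funext z
    change deriv (Eop (fun _ => 0) k y) z - 0 * Eop (fun _ => 0) k y z = _
    rw [zero_mul, sub_zero]

/-- gauge transformations -/
theorem Eop_gauge {s y u v : ℂ → ℂ} (hs : Meromorphic s) (hy : Meromorphic y)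
    (hu : Meromorphic u) (hv : Meromorphic v)
    (h : ∀ᶠ z in codiscrete ℂ, deriv s z = (v z - u z) * s z) (k : ℕ) :
    ∀ᶠ z in codiscrete ℂ, Eop v k (fun z => s z * y z) z = s z * Eop u k y z := by
  induction k with
  | zero => exact Eventually.of_forall fun z => rfl
  | succ k ih =>
    have h1 := codis_deriv ih
    have h2 := codis_deriv_mul hs (mero_Eop hu hy k)
    filter_upwards [h, ih, h1, h2] with z e1 e2 e3 e4
    change deriv (Eop v k fun z => s z * y z) z - v z * Eop v k (fun z => s z * y z) z =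
      s z * (deriv (Eop u k y) z - u z * Eop u k y z)
    rw [e3, e4, e1, e2]
    ring

open MvPolynomial in
theorem form_diff {N : ℕ} {f : Fin (N + 1) → ℂ → ℂ} (hf : ∀ j, Differentiable ℂ (f j))
    (G : MvPolynomial (Fin (N + 1)) ℂ) : Differentiable ℂ fun z => eval (fun j => f j z) G := by
  induction G using MvPolynomial.induction_on with
  | C c =>
    simp only [eval_C]
    exact differentiable_const c
  | add p q hp hq =>
    simp only [map_add]
    exact hp.add hq
  | mul_X p i hp =>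
    simp only [map_mul, eval_X]
    exact hp.mul (hf i)

theorem diff_mero {a : ℂ → ℂ} (ha : Differentiable ℂ a) : Meromorphic a := fun z =>
  (ha.analyticAt z).meromorphicAt

theorem diff_ne {a : ℂ → ℂ} (ha : Differentiable ℂ a) (h : ∃ z, a z ≠ 0) :
    ∀ᶠ z in codiscrete ℂ, a z ≠ 0 := by
  apply codis_of_ev
  intro x
  rcases (ha.analyticAt x).eventually_eq_zero_or_eventually_ne_zero with h2 | h2
  · exfalso
    obtain ⟨z, hz⟩ := h
    apply hz
    have h3 : AnalyticOnNhd ℂ a univ := fun z _ => ha.analyticAt z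
    exact h3.eqOn_zero_of_preconnected_of_eventuallyEq_zero isPreconnected_univ (mem_univ x) h2
      (mem_univ z)
  · exact h2

section

variable {L : Filter ℝ} {τ : ℝ → ℝ} {N n d : ℕ} {f : Fin (N + 1) → ℂ → ℂ} {g : Fin n → ℂ → ℂ}
  {Q : MvPolynomial (Fin (N + 1)) ℂ}

theorem ratio_ot (H : Cmp L τ) (hT : Tf f =O[L] τ) (hf : ∀ j, Differentiable ℂ (f j))
    (h0 : ∀ z, ∃ j, f j z ≠ 0) (i l : Fin (N + 1)) (hl : ∃ z, f l z ≠ 0) :
    OT L τ fun z => f i z / f l z := by
  obtain ⟨C, hC⟩ := ratio_le hf h0 i l hl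
  refine ⟨(f_mero hf i).div (f_mero hf l), H.O_of_le (fun r hr => ⟨char_nonneg _ hr, hC r hr⟩) ?_⟩
  exact hT.add (H.const C).isBigO

end

end

end Pool.Agent.N254.SQ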