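import Mathlib
import Pool.Agent.N254.SQ.Nev

/-!
Project SQ (helper254): smooth hypersurfaces through a given projective variety which contain all
entire curves of the hypersurface. Definitions and the statements of the leaves.
-/

set_option autoImplicit false

namespace Pool.Agent.N254.SQ

open MvPolynomial Filter Topology Asymptotics ValueDistribution
open Pool.Agent.N131.SR (Big NZ)

/-- the linear form `x_0 + t x_1 + … + t ^ n x_n` -/
noncomputable def lin (K : Type) [Field K] (n t : ℕ) : MvPolynomial (Fin (n + 1)) K :=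
  ∑ j : Fin (n + 1), C ((t : K) ^ (j : ℕ)) * X j

/-! ### algebra -/

/-- SPEC: specialization of systems of equations with generic coefficients -/
def Spec_stm : Prop :=
  ∀ (K : Type) [Field K] (σ τ ι : Type) (P : ι → MvPolynomial (σ ⊕ τ) K)
    (h : MvPolynomial (σ ⊕ τ) K),
    (∀ (Ω : Type) [Field Ω] [Algebra K Ω] (y : σ → Ω) (x : τ → Ω), AlgebraicIndependent K y →
      (∀ i, aeval (Sum.elim y x) (P i) = 0) → aeval (Sum.elim y x) h = 0) →
    ∃ Δ : MvPolynomial σ K, Δ ≠ 0 ∧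
      ∀ (Ω : Type) [Field Ω] [Algebra K Ω] (c : σ → Ω) (x : τ → Ω), aeval c Δ ≠ 0 →
        (∀ i, aeval (Sum.elim c x) (P i) = 0) → aeval (Sum.elim c x) h = 0

/-- COUNT: a point of transcendence degree `t` satisfies at most `t` independent linear equations
with algebraically independent coefficients -/
def Count_stm : Prop :=
  ∀ (K Ω : Type) [Field K] [Field Ω] [Algebra K Ω] (κ σ τ : Type) [Fintype κ] [Fintype σ]
    [Fintype τ] (x : τ → Ω) (y : σ → Ω), AlgebraicIndependent K y →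
    ∀ P : Matrix κ σ (MvPolynomial τ K), (∀ b, ∑ s, aeval x (P b s) * y s = 0) →
      (((P.map fun p => (aeval x p : Ω)).rank : ℕ) : Cardinal) ≤
        Algebra.trdeg K (Algebra.adjoin K (Set.range x))

/-- TD: the transcendence degree of a point with an affine coordinate -/
def Td_stm : Prop :=
  ∀ (K Ω : Type) [Field K] [Field Ω] [Algebra K Ω] (n N : ℕ) (x : Fin (n + 1) → Ω)
    (a : Fin (n + 1)) (y : Fin (N + 1) → Ω), x a = 1 →
    (∀ b, ∃ p : MvPolynomial (Fin (n + 1)) K, y b = aeval x p) →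
    Algebra.trdeg K (Algebra.adjoin K (Set.range y)) ≤ n

/-- BLOCKS: a general point of the coefficients has no `2 n + 1` disjoint vanishing subsums outside
of the zeros of the forms `q i` -/
def Blocks_stm : Prop :=
  ∀ (K : Type) [Field K] [CharZero K] (n L D e : ℕ) (ι : Type) [Fintype ι]
    (q : ι → MvPolynomial (Fin (n + 1)) K), (∀ i, (q i).IsHomogeneous e) →
    ∃ Δ : MvPolynomial (Fin L × ι) K, Δ ≠ 0 ∧
      ∀ (Ω : Type) [Field Ω] [Algebra K Ω] (c : Fin L × ι → Ω), aeval c Δ ≠ 0 →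
        ∀ 𝓑 : Finset (Finset (Fin L)), (∀ B ∈ 𝓑, B.Nonempty) →
          (∀ B ∈ 𝓑, ∀ B' ∈ 𝓑, B ≠ B' → Disjoint B B') → 2 * n + 1 ≤ 𝓑.card →
          ∀ x : Fin (n + 1) → Ω, x ≠ 0 →
            (∀ B ∈ 𝓑, ∑ t ∈ B, (∑ i, c (t, i) * aeval x (q i)) *
              aeval x (lin K n (t : ℕ)) ^ D = 0) →
            ∀ i, aeval x (q i) = 0

/-- SMOOTH: the general hypersurface has no singular points -/
def Smooth_stm : Prop :=
  ∀ (K : Type) [Field K] [CharZero K] (n L D e r : ℕ) (ι : Type) [Fintype ι]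
    (q : ι → MvPolynomial (Fin (n + 1)) K), (∀ i, (q i).IsHomogeneous e) → 1 ≤ D →
    2 * n + 1 ≤ L →
    (∀ (Ω : Type) [Field Ω] [Algebra K Ω] (x : Fin (n + 1) → Ω), x ≠ 0 →
      (∀ i, aeval x (q i) = 0) →
      r < (Matrix.of fun (i : ι) (j : Fin (n + 1)) => (aeval x (pderiv j (q i)) : Ω)).rank) →
    (∀ (Ω : Type) [Field Ω] [Algebra K Ω] (x : Fin (n + 1) → Ω) (a : Fin (n + 1)), x a = 1 →
      (∀ i, aeval x (q i) = 0) → Algebra.trdeg K (Algebra.adjoin K (Set.range x)) ≤ r) →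
    ∃ Δ : MvPolynomial (Fin L × ι) K, Δ ≠ 0 ∧
      ∀ (Ω : Type) [Field Ω] [Algebra K Ω] (c : Fin L × ι → Ω), aeval c Δ ≠ 0 →
        ∀ x : Fin (n + 1) → Ω, x ≠ 0 → ∃ j, eval x (pderiv j (∑ t : Fin L,
          (∑ i, C (c (t, i)) * map (algebraMap K Ω) (q i)) * lin Ω n (t : ℕ) ^ D)) ≠ 0

/-! ### the Veronese map -/

/-- the exponent vectors of degree `d` in `n + 1` variables -/
structure Mon (n N d : ℕ) (m : Fin (N + 1) → Fin (n + 1) → ℕ) : Prop where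
  deg : ∀ a, ∑ j, m a j = d
  inj : Function.Injective m
  surj : ∀ α : Fin (n + 1) → ℕ, ∑ j, α j = d → ∃ a, m a = α

/-- the Veronese map -/
def ver {n N : ℕ} {R : Type} [CommMonoid R] (m : Fin (N + 1) → Fin (n + 1) → ℕ)
    (x : Fin (n + 1) → R) : Fin (N + 1) → R := fun a => ∏ j, x j ^ m a j

/-- NUM: the exponent vectors of degree `d` -/
def Num_stm : Prop :=
  ∀ n d : ℕ, 1 ≤ n → 3 ≤ d → ∃ (N : ℕ) (m : Fin (N + 1) → Fin (n + 1) → ℕ),
    Mon n N d m ∧ 2 * n < N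

/-- VER: the Veronese image of a projective variety is given by quadratic forms with a Jacobian
matrix of large rank -/
def Ver_stm : Prop :=
  ∀ (K : Type) [Field K] [CharZero K] (n N d : ℕ) (m : Fin (N + 1) → Fin (n + 1) → ℕ),
    Mon n N d m → 1 ≤ d → ∀ (κ : Type) [Finite κ] (F : κ → MvPolynomial (Fin (n + 1)) K)
    (g : κ → ℕ), (∀ k, (F k).IsHomogeneous (g k)) → (∀ k, g k ≤ d) →
    ∃ (ι : Type) (_ : Fintype ι) (q : ι → MvPolynomial (Fin (N + 1)) K),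
      (∀ i, (q i).IsHomogeneous 2) ∧
      (∀ (Ω : Type) [Field Ω] [Algebra K Ω] (x : Fin (n + 1) → Ω), (∀ k, aeval x (F k) = 0) →
        ∀ i, aeval (ver m x) (q i) = 0) ∧
      ∀ (Ω : Type) [Field Ω] [Algebra K Ω] (y : Fin (N + 1) → Ω), y ≠ 0 →
        (∀ i, aeval y (q i) = 0) →
        N ≤ n + (Matrix.of fun (i : ι) (j : Fin (N + 1)) => (aeval y (pderiv j (q i)) : Ω)).rank ∧
        ∃ (x : Fin (n + 1) → Ω) (a : Fin (n + 1)) (b : Fin (N + 1)), x a = 1 ∧ y b ≠ 0 ∧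
          (∀ c, y c = y b * ver m x c) ∧ ∀ k, aeval x (F k) = 0

/-- LIFT: holomorphic maps to the cone over the Veronese variety can be lifted -/
def Lift_stm : Prop :=
  ∀ (n N d : ℕ) (m : Fin (N + 1) → Fin (n + 1) → ℕ), Mon n N d m → 1 ≤ d →
    ∀ (E : Type) [NormedAddCommGroup E] [NormedSpace ℂ E] (G : E → Fin (N + 1) → ℂ),
      Differentiable ℂ G → (∀ z, ∃ x : Fin (n + 1) → ℂ, x ≠ 0 ∧ G z = ver m x) →
      ∃ F : E → Fin (n + 1) → ℂ, Differentiable ℂ F ∧ ∀ z, G z = ver m (F z)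

/-! ### vanishing sums -/

/-- PART: partition of a vanishing sum in minimal vanishing subsums -/
def Part_stm : Prop :=
  ∀ (V : Type) [AddCommGroup V] (ι : Type) [Fintype ι] (u : ι → V), ∑ i, u i = 0 →
    ∃ 𝓑 : Finset (Finset ι), (∀ B ∈ 𝓑, B.Nonempty) ∧
      (∀ B ∈ 𝓑, ∀ B' ∈ 𝓑, B ≠ B' → Disjoint B B') ∧ (∀ i, ∃ B ∈ 𝓑, i ∈ B) ∧
      ∀ B ∈ 𝓑, ∑ i ∈ B, u i = 0 ∧ ∀ B' ⊆ B, B'.Nonempty → B' ≠ B → ∑ i ∈ B', u i ≠ 0

/-- CIRC: in a minimal vanishing sum all indices are connected by circuits -/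
def Circ_stm : Prop :=
  ∀ (V : Type) [AddCommGroup V] [Module ℂ V] (ι : Type) [Fintype ι] (u : ι → V), ∑ i, u i = 0 →
    (∀ B : Finset ι, B.Nonempty → B ≠ Finset.univ → ∑ i ∈ B, u i ≠ 0) →
    ∀ R : ι → ι → Prop, Equivalence R →
      (∀ a : ι → ℂ, a ≠ 0 → ∑ i, a i • u i = 0 →
        (∀ b : ι → ℂ, (∀ i, a i = 0 → b i = 0) → ∑ i, b i • u i = 0 → ∃ c : ℂ, b = c • a) →
        ∀ i j, a i ≠ 0 → a j ≠ 0 → R i j) →
      ∀ i j, R i j

/-! ### value distribution -/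

/-- the characteristic is at most `C τ + o(τ)` -/
def Le (L : Filter ℝ) (τ : ℝ → ℝ) (C : ℝ) (a : ℂ → ℂ) : Prop :=
  Meromorphic a ∧ ∃ s : ℝ → ℝ, s =o[L] τ ∧ ∀ᶠ r in L, characteristic a ⊤ r ≤ C * τ r + s r

/-- `P_0 = 1`, `P_{k+1} = P_k' + φ P_k` -/
noncomputable def pp (φ : ℂ → ℂ) : ℕ → ℂ → ℂ
  | 0 => fun _ => 1
  | k + 1 => fun z => deriv (pp φ k) z + φ z * pp φ k z

/-- LEDET: the characteristic of the determinant of the matrix of the `pp` -/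
def LeDet_stm : Prop :=
  ∀ m : ℕ, ∃ C : ℝ, 0 ≤ C ∧ ∀ (L : Filter ℝ) (τ : ℝ → ℝ), Cmp L τ → (∀ᶠ r in L, 0 ≤ τ r) →
    ∀ κ : ℝ, 0 ≤ κ → ∀ φ : Fin m → ℂ → ℂ, (∀ i, Le L τ κ (φ i)) →
      Le L τ (C * κ) fun z => (Matrix.of fun i k : Fin m => pp (φ i) k z).det

/-- WR: the ratios in a minimal linear relation of entire functions are ratios of determinants of
logarithmic derivatives -/
def Wr_stm : Prop :=
  ∀ (m : ℕ) (u : Fin (m + 2) → ℂ → ℂ) (s : ℂ → ℂ), (∀ i, Differentiable ℂ (u i)) →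
    Differentiable ℂ s → (∃ z, s z ≠ 0) →
    ∀ a : Fin (m + 2) → ℂ, (∀ i, a i ≠ 0) → (∀ z, ∑ i, a i * u i z = 0) →
    (∀ b : Fin (m + 2) → ℂ, (∀ z, ∑ i, b i * u i z = 0) → ∃ c : ℂ, b = c • a) →
    ∀ i j : Fin (m + 2), ∃ c : ℂ, ∀ᶠ z in codiscrete ℂ, u i z / u j z = c *
      ((Matrix.of fun l k : Fin (m + 1) =>
          pp (logDeriv fun w => u (i.succAbove l) w / s w) k z).det /
        (Matrix.of fun l k : Fin (m + 1) =>
          pp (logDeriv fun w => u (j.succAbove l) w / s w) k z).det)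

/-- FORM: ratios of forms along a curve -/
def Form_stm : Prop :=
  ∀ (n : ℕ) (f : Fin (n + 1) → ℂ → ℂ), (∀ j, Differentiable ℂ (f j)) → (∀ z, ∃ j, f j z ≠ 0) →
    ∀ (e : ℕ) (G₁ G₂ : MvPolynomial (Fin (n + 1)) ℂ), G₁.IsHomogeneous e → G₂.IsHomogeneous e →
      (∃ z, eval (fun j => f j z) G₂ ≠ 0) → ∃ C : ℝ, ∀ r, 1 ≤ r →
        characteristic (fun z => eval (fun j => f j z) G₁ / eval (fun j => f j z) G₂) ⊤ r ≤
          e * Tf f r + C ∧
        ValueDistribution.logCounting (fun z => eval (fun j => f j z) G₂) 0 r ≤ e * Tf f r + C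

/-- LOGD: the logarithmic derivatives of the terms -/
def Logd_stm : Prop :=
  ∀ (n : ℕ) (f : Fin (n + 1) → ℂ → ℂ), (∀ j, Differentiable ℂ (f j)) → (∀ z, ∃ j, f j z ≠ 0) →
    ∀ L : Filter ℝ, Cmp L (Tf f) → ∀ (e D : ℕ) (G ℓ : MvPolynomial (Fin (n + 1)) ℂ),
      G.IsHomogeneous e → ℓ.IsHomogeneous 1 → ∀ l : Fin (n + 1), (∃ z, f l z ≠ 0) →
      (∃ z, eval (fun j => f j z) G ≠ 0) → (∃ z, eval (fun j => f j z) ℓ ≠ 0) →
      Le L (Tf f) (e + 2) (logDeriv fun z =>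
        eval (fun j => f j z) G * eval (fun j => f j z) ℓ ^ D / f l z ^ (D + e))

/-- TOP: a curve grows at most like the ratios of independent linear forms -/
def Top_stm : Prop :=
  ∀ (n : ℕ) (f : Fin (n + 1) → ℂ → ℂ), (∀ j, Differentiable ℂ (f j)) → (∀ z, ∃ j, f j z ≠ 0) →
    ∀ A : Fin (n + 1) → Fin (n + 1) → ℂ, LinearIndependent ℂ A → ∀ i₀ : Fin (n + 1),
      (∃ z, ∑ j, A i₀ j * f j z ≠ 0) → ∃ C : ℝ, ∀ r, 1 ≤ r →
        Tf f r ≤ ∑ i, characteristic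
          (fun z => (∑ j, A i j * f j z) / (∑ j, A i₀ j * f j z)) ⊤ r + C

/-- EXP: after composition with the exponential function the curve grows fast -/
def Exp_stm : Prop :=
  ∀ (n : ℕ) (f : Fin (n + 1) → ℂ → ℂ), (∀ j, Differentiable ℂ (f j)) → (∀ z, ∃ j, f j z ≠ 0) →
    (∃ i j z w, f i z * f j w ≠ f j z * f i w) →
    ∃ L : Filter ℝ, Cmp L (Tf fun j z => f j (Complex.exp z)) ∧
      ∀ᶠ r in L, 0 ≤ Tf (fun j z => f j (Complex.exp z)) r

/-- SIZE: the size of the blocks -/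
def Size_stm : Prop :=
  ∀ n e M : ℕ, ∃ D₁ : ℕ, ∀ D, D₁ ≤ D → ∀ (κ : Type) [Fintype κ], Fintype.card κ ≤ M →
    n + 1 ≤ Fintype.card κ → 2 ≤ Fintype.card κ →
    ∀ (G : κ → MvPolynomial (Fin (n + 1)) ℂ) (p : κ → ℕ), Function.Injective p →
      (∀ t, (G t).IsHomogeneous e) → ∀ f : Fin (n + 1) → ℂ → ℂ, (∀ j, Differentiable ℂ (f j)) →
      (∀ z, ∃ j, f j z ≠ 0) →
      (∀ z, ∑ t, eval (fun j => f j z) (G t) * eval (fun j => f j z) (lin ℂ n (p t)) ^ D = 0) →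
      (∀ B : Finset κ, B.Nonempty → B ≠ Finset.univ → ∃ z, ∑ t ∈ B,
        eval (fun j => f j z) (G t) * eval (fun j => f j z) (lin ℂ n (p t)) ^ D ≠ 0) →
      ∀ i j z w, f i z * f j w = f j z * f i w

end Pool.Agent.N254.SQ
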