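import Pool.Agent.N254.SQ.StmQ

/-!
# Forms of degree `d e` are forms of degree `e` in the monomials of degree `d`

By helper765.
-/

set_option autoImplicit false

namespace Pool.Agent.N254.SQ

open MvPolynomial

/-- a vector of exponents contains a vector of any smaller degree -/
theorem verSurj_split {n : ℕ} (α : Fin (n + 1) → ℕ) (d : ℕ) (h : d ≤ ∑ j, α j) :
    ∃ β : Fin (n + 1) → ℕ, (∀ j, β j ≤ α j) ∧ ∑ j, β j = d := by
  induction d with
  | zero => exact ⟨fun _ => 0, fun _ => Nat.zero_le _, by simp⟩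
  | succ d ih =>
    obtain ⟨β, h1, h2⟩ := ih (by omega)
    obtain ⟨j, -, hj⟩ : ∃ j ∈ Finset.univ, β j < α j := by
      apply Finset.exists_lt_of_sum_lt
      omega
    refine ⟨Function.update β j (β j + 1), fun i => ?_, ?_⟩
    · by_cases hi : i = j
      · subst hi
        rw [Function.update_self]
        exact hj
      · rw [Function.update_of_ne hi]
        exact h1 i
    · rw [Finset.sum_update_of_mem (Finset.mem_univ j)]
      have h3 := Finset.add_sum_erase Finset.univ β (Finset.mem_univ j)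
      rw [Finset.sdiff_singleton_eq_erase]
      omega

/-- monomials -/
theorem verSurj_mono {n N d : ℕ} {m : Fin (N + 1) → Fin (n + 1) → ℕ} (hm : Mon n N d m) (e : ℕ) :
    ∀ α : Fin (n + 1) → ℕ, ∑ j, α j = d * e →
      ∃ G : MvPolynomial (Fin (N + 1)) ℂ, G.IsHomogeneous e ∧
        aeval (fun a => ∏ j, (X j : MvPolynomial (Fin (n + 1)) ℂ) ^ m a j) G =
          ∏ j, (X j : MvPolynomial (Fin (n + 1)) ℂ) ^ α j := by
  induction e with
  | zero =>
    intro α h
    refine ⟨1, isHomogeneous_one _ _, ?_⟩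
    rw [map_one]
    rw [mul_zero, Finset.sum_eq_zero_iff] at h
    rw [Finset.prod_eq_one]
    intro j hj
    rw [h j hj, pow_zero]
  | succ e ih =>
    intro α h
    obtain ⟨β, h1, h2⟩ := verSurj_split α d (by rw [h]; exact Nat.le_mul_of_pos_right _ e.succ_pos)
    obtain ⟨a, ha⟩ := hm.surj β h2
    obtain ⟨G, hG, hG'⟩ := ih (fun j => α j - β j) (by
      have h3 : ∑ j, (α j - β j) + ∑ j, β j = ∑ j, α j := by
        rw [← Finset.sum_add_distrib]
        exact Finset.sum_congr rfl fun j _ => Nat.sub_add_cancel (h1 j)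
      rw [h2, h, mul_add, mul_one] at h3
      omega)
    refine ⟨X a * G, ?_, ?_⟩
    · have := (isHomogeneous_X ℂ a).mul hG
      rwa [Nat.add_comm 1 e] at this
    · rw [map_mul, aeval_X, hG', ha, ← Finset.prod_mul_distrib]
      refine Finset.prod_congr rfl fun j _ => ?_
      rw [← pow_add, Nat.add_sub_cancel' (h1 j)]

theorem t_versurj : VerSurj_stm := by
  intro n N d m hm e P hP
  have h1 : ∀ α ∈ P.support, ∃ G : MvPolynomial (Fin (N + 1)) ℂ, G.IsHomogeneous e ∧
      aeval (fun a => ∏ j, (X j : MvPolynomial (Fin (n + 1)) ℂ) ^ m a j) G =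
        monomial α (P.coeff α) := by
    intro α hα
    have h2 : ∑ j, α j = d * e := by
      have h3 := hP (mem_support_iff.1 hα)
      rw [← h3, Finsupp.weight_apply, Finsupp.sum_fintype _ _ (by simp)]
      simp
    obtain ⟨G, hG, hG'⟩ := verSurj_mono hm e α h2
    refine ⟨C (P.coeff α) * G, ?_, ?_⟩
    · have := (isHomogeneous_C (Fin (N + 1)) (P.coeff α)).mul hG
      rwa [zero_add] at this
    · rw [map_mul, hG', monomial_eq, Finsupp.prod_fintype _ _ (by simp)]
      congr 1
      rw [← algebraMap_eq, AlgHom.commutes, algebraMap_eq]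
  choose! G hG hG' using h1
  refine ⟨∑ α ∈ P.support, G α, IsHomogeneous.sum _ _ _ fun α hα => hG α hα, ?_⟩
  rw [map_sum, Finset.sum_congr rfl hG', ← as_sum]

end Pool.Agent.N254.SQ
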