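import Pool.Agent.N254.SQ.StmB
import Pool.Agent.N254.SQ.VerSurj

/-!
Project SQ (helper254), ninth part, SQ/CLS: lifts of sets of forms.

By helper160.
-/

set_option autoImplicit false

namespace Pool.Agent.N254.SQ

open MvPolynomial

/-- a lift of one form -/
theorem cl_one {n N d : ℕ} {m : Fin (N + 1) → Fin (n + 1) → ℕ} (hm : Mon n N d m)
    (G : MvPolynomial (Fin (n + 1)) ℂ) (hG : IsForm G) :
    ∃ G' : MvPolynomial (Fin (N + 1)) ℂ, ∃ e, G.IsHomogeneous e ∧ G'.IsHomogeneous e ∧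
      pull m G' = G ^ d := by
  obtain ⟨e, he⟩ := hG
  obtain ⟨G', h1, h2⟩ := t_versurj n N d m hm e (G ^ d) (by
    have h := he.pow d
    rwa [mul_comm] at h)
  exact ⟨G', e, he, h1, h2⟩

/-- a lift of a set of forms -/
theorem cl_lift {n N d : ℕ} {m : Fin (N + 1) → Fin (n + 1) → ℕ} (hm : Mon n N d m)
    (T : Set (MvPolynomial (Fin (n + 1)) ℂ)) (hT : ∀ H ∈ T, IsForm H) :
    ∃ φ : MvPolynomial (Fin (n + 1)) ℂ → MvPolynomial (Fin (N + 1)) ℂ,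
      (∀ G ∈ T, IsForm (φ G)) ∧ Lifts m d T (φ '' T) := by
  choose! φ e h1 h2 h3 using fun (G : MvPolynomial (Fin (n + 1)) ℂ) (hG : G ∈ T) =>
    cl_one hm G (hT G hG)
  refine ⟨φ, fun G hG => ⟨e G, h2 G hG⟩, ?_, ?_⟩
  · intro G hG
    exact ⟨φ G, ⟨G, hG, rfl⟩, e G, h1 G hG, h2 G hG, h3 G hG⟩
  · rintro _ ⟨G, hG, rfl⟩
    exact ⟨G, hG, e G, h1 G hG, h2 G hG, h3 G hG⟩

theorem t_cls : Cls_stm := by
  refine ⟨⟨fun n T hT H hH => hT H hH, ?_⟩, ⟨fun n T hT H hH => hT.2 H hH, ?_⟩, ⟨?_, ?_⟩⟩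
  · intro n N d m hm _ T hT
    obtain ⟨φ, h1, h2⟩ := cl_lift hm T hT
    refine ⟨φ '' T, ?_, h2⟩
    rintro _ ⟨G, hG, rfl⟩
    exact h1 G hG
  · intro n N d m hm _ T hT
    obtain ⟨φ, h1, h2⟩ := cl_lift hm T hT.2
    refine ⟨φ '' T, ⟨hT.1.image φ, ?_⟩, h2⟩
    rintro _ ⟨G, hG, rfl⟩
    exact h1 G hG
  · rintro n T ⟨H, hH, rfl⟩ H' hH'
    rw [Set.mem_singleton_iff] at hH'
    rw [hH']
    exact hH
  · rintro n N d m hm - T ⟨H, hH, rfl⟩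
    obtain ⟨φ, h1, h2⟩ := cl_lift hm {H} (fun H' hH' => by
      rw [Set.mem_singleton_iff] at hH'
      rw [hH']
      exact hH)
    rw [Set.image_singleton] at h2
    exact ⟨{φ H}, ⟨φ H, h1 H rfl, rfl⟩, h2⟩

end Pool.Agent.N254.SQ
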