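import Pool.Agent.N254.SQ.Cls

/-!
Affine varieties: the class of sets consisting of one form of positive degree.
-/

set_option autoImplicit false

namespace Pool.Agent.N254.SQ

open MvPolynomial

/-- affine varieties: the complements of `V(H)`, `H` a form of positive degree -/
theorem cls_affine : Cls (fun n => {T : Set (MvPolynomial (Fin (n + 1)) ℂ) |
    ∃ (e : ℕ) (H : MvPolynomial (Fin (n + 1)) ℂ), 1 ≤ e ∧ H.IsHomogeneous e ∧ T = {H}}) := by
  refine ⟨?_, ?_⟩
  · rintro n T ⟨e, H, _, hH, rfl⟩ H' hH'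
    rw [Set.mem_singleton_iff] at hH'
    rw [hH']
    exact ⟨e, hH⟩
  · rintro n N d m hm - T ⟨e, H, he, hH, rfl⟩
    obtain ⟨H', h1, h2⟩ := t_versurj n N d m hm e (H ^ d) (by
      have h := hH.pow d
      rwa [mul_comm] at h)
    refine ⟨{H'}, ⟨e, H', he, h1, rfl⟩, ⟨?_, ?_⟩⟩
    · intro G hG
      rw [Set.mem_singleton_iff] at hG
      subst hG
      exact ⟨H', rfl, e, hH, h1, h2⟩
    · intro G hG
      rw [Set.mem_singleton_iff] at hG
      subst hG
      exact ⟨H, rfl, e, hH, h1, h2⟩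

end Pool.Agent.N254.SQ
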