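import Pool.Agent.N254.SQ.Stm

/-!
The transcendence degree of a point with an affine coordinate.
-/

set_option autoImplicit false

namespace Pool.Agent.N254.SQ

open MvPolynomial

theorem t_td : Td_stm := by
  intro K Ω _ _ _ n N x a y hxa hy
  have h1 : ∀ j, x j ∈ (aeval (x ∘ a.succAbove) : MvPolynomial (Fin n) K →ₐ[K] Ω).range := by
    intro j
    rcases Fin.eq_self_or_eq_succAbove a j with h | ⟨i, h⟩
    · rw [h, hxa]
      exact one_mem _
    · rw [h]
      exact ⟨X i, by simp⟩
  have h2 : Algebra.adjoin K (Set.range y) ≤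
      (aeval (x ∘ a.succAbove) : MvPolynomial (Fin n) K →ₐ[K] Ω).range := by
    rw [Algebra.adjoin_le_iff]
    rintro _ ⟨b, rfl⟩
    obtain ⟨p, hp⟩ := hy b
    rw [hp]
    have h3 : aeval x p ∈ Algebra.adjoin K (Set.range x) := by
      rw [Algebra.adjoin_range_eq_range_aeval]
      exact ⟨p, rfl⟩
    have h4 : Algebra.adjoin K (Set.range x) ≤
        (aeval (x ∘ a.succAbove) : MvPolynomial (Fin n) K →ₐ[K] Ω).range := by
      rw [Algebra.adjoin_le_iff]
      rintro _ ⟨j, rfl⟩
      exact h1 j
    exact h4 h3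
  refine (trdeg_le_of_injective (Subalgebra.inclusion h2)
    (Subalgebra.inclusion_injective h2)).trans ?_
  refine (trdeg_le_of_surjective
    (aeval (x ∘ a.succAbove) : MvPolynomial (Fin n) K →ₐ[K] Ω).rangeRestrict
    (AlgHom.rangeRestrict_surjective _)).trans ?_
  rw [MvPolynomial.trdeg_of_isDomain]
  simp

end Pool.Agent.N254.SQ
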