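import Pool.Agent.N254.SQ.StmS
import Pool.Agent.N254.SQ.Comp

/-!
Project SQ, COMP2: a form which is not in `I` does not vanish on some component (helper130).
-/

set_option autoImplicit false

namespace Pool.Agent.N254.SQ

open MvPolynomial
open Pool.Agent.W602.GT (coords)

attribute [local instance] MvPolynomial.gradedAlgebra

/-- a form of positive degree is in every ideal which contains all variables -/
theorem comp2_mem {n : ℕ} {P : Ideal (MvPolynomial (Fin (n + 1)) ℂ)}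
    (hP : ∀ j, (X j : MvPolynomial (Fin (n + 1)) ℂ) ∈ P) {e : ℕ} (he : 1 ≤ e)
    {G : MvPolynomial (Fin (n + 1)) ℂ} (hG : G.IsHomogeneous e) : G ∈ P := by
  have h1 : G ∈ Ideal.span ((X : Fin (n + 1) → MvPolynomial (Fin (n + 1)) ℂ) '' Set.univ) := by
    rw [mem_ideal_span_X_image]
    intro m hm
    by_contra hcon
    push Not at hcon
    have h2 := hG (mem_support_iff.1 hm)
    rw [Finsupp.weight_apply, Finsupp.sum_fintype _ _ (fun _ => by simp)] at h2
    rw [Finset.sum_eq_zero fun i _ => by rw [hcon i (Set.mem_univ i)]; simp] at h2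
    omega
  refine (Ideal.span_le.2 ?_) h1
  rintro _ ⟨j, -, rfl⟩
  exact hP j

theorem t_comp2 : Comp2_stm := by
  intro n I hI e G hG he hIG
  obtain ⟨J, hJ⟩ : ∃ J : Ideal (MvPolynomial (Fin (n + 1)) ℂ),
      J = Ideal.span {G : MvPolynomial (Fin (n + 1)) ℂ | Fm G ∧ I G} := ⟨_, rfl⟩
  have hJh : J.IsHomogeneous (homogeneousSubmodule (Fin (n + 1)) ℂ) := by
    rw [hJ]
    refine Ideal.homogeneous_span _ _ ?_
    rintro G ⟨⟨e, he⟩, -⟩
    exact ⟨e, he⟩
  have hrad : ∀ (k : ℕ) (F : MvPolynomial (Fin (n + 1)) ℂ), F.IsHomogeneous k →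
      F ∈ J.radical → I F := by
    rintro k F hF ⟨r, hr⟩
    have h2 : (F ^ r).IsHomogeneous (k * r) := hF.pow r
    rw [hJ] at hr
    have h3 := comp_span hI _ hr (k * r)
    rw [homogeneousComponent_of_mem h2, if_pos rfl] at h3
    exact hI.rad _ r ⟨_, hF⟩ h3
  obtain ⟨P, hPm, hGP⟩ : ∃ P ∈ J.minimalPrimes, G ∉ P := by
    by_contra hcon
    push Not at hcon
    apply hIG
    apply hrad e G hG
    rw [← Ideal.sInf_minimalPrimes, Ideal.mem_sInf]
    intro P hP
    exact hcon P hP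
  have hPp : P.IsPrime := hPm.1.1
  have hPh := comp_min_hom hJh hPm
  have hfin : J.minimalPrimes.Finite := Ideal.finite_minimalPrimes_of_isNoetherianRing _ J
  -- forms in the other minimal primes
  have hex : ∀ P' ∈ J.minimalPrimes, P' ≠ P → ∃ G, Fm G ∧ G ∈ P' ∧ G ∉ P := by
    intro P' hP' hne
    refine comp_form (comp_min_hom hJh hP') fun hle => hne ?_
    exact le_antisymm hle (hPm.2 hP'.1 hle)
  choose! h hh1 hh2 hh3 using hex
  classical
  obtain ⟨H, hH⟩ : ∃ H, H = ∏ P' ∈ hfin.toFinset.erase P, h P' := ⟨_, rfl⟩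
  have hmemT : ∀ P', P' ∈ hfin.toFinset.erase P ↔ P' ≠ P ∧ P' ∈ J.minimalPrimes := by
    intro P'
    rw [Finset.mem_erase, Set.Finite.mem_toFinset]
  have hHF : Fm H := by
    rw [hH]
    refine comp_prod_fm _ _ fun P' hP' => ?_
    rw [hmemT] at hP'
    exact hh1 P' hP'.2 hP'.1
  have hHP : H ∉ P := by
    rw [hH, hPp.prod_mem_iff]
    rintro ⟨P', hP', h1⟩
    rw [hmemT] at hP'
    exact hh3 P' hP'.2 hP'.1 h1
  have hGH : ∀ G, Fm G → G ∈ P → I (G * H) := by
    rintro G ⟨e, he⟩ hG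
    have h1 : G * H ∈ J.radical := by
      rw [← Ideal.sInf_minimalPrimes, Ideal.mem_sInf]
      intro P' hP'
      by_cases hPP : P' = P
      · rw [hPP]
        exact P.mul_mem_right _ hG
      · refine P'.mul_mem_left _ ?_
        rw [hH]
        exact P'.mem_of_dvd (Finset.dvd_prod_of_mem h ((hmemT P').2 ⟨hPP, hP'⟩))
          (hh2 P' hP' hPP)
    obtain ⟨e', he'⟩ := hHF
    exact hrad _ _ (he.mul he') h1
  obtain ⟨a, ha⟩ : ∃ a, (X a : MvPolynomial (Fin (n + 1)) ℂ) ∉ P := by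
    by_contra hcon
    push Not at hcon
    exact hGP (comp2_mem hcon he hG)
  obtain ⟨L', iF, iA, w', y', hgen, hya, hmem⟩ := comp_gen P hPp a ha
  refine ⟨L', iF, iA, w', y', hgen, ?_, ?_, H, hHF, ?_, ?_⟩
  · intro h0
    exact hGP ((hmem G ⟨e, hG⟩).1 h0)
  · intro F hF hIF
    rw [hmem F hF]
    apply hPm.1.2
    rw [hJ]
    exact Ideal.subset_span ⟨hF, hIF⟩
  · intro h0
    exact hHP ((hmem _ hHF).1 h0)
  · intro F hF h0
    exact hGH F hF ((hmem F hF).1 h0)

end Pool.Agent.N254.SQ
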