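import Pool.Agent.N254.SQ.Stm

/-!
Project SQ, leaf COUNT: a point of transcendence degree `t` satisfies at most `t` independent
linear equations with algebraically independent coefficients.
-/

set_option autoImplicit false

namespace Pool.Agent.N254.SQ

open MvPolynomial Cardinal

/-- linear algebra: the rank of the relations and the rank of the coordinates -/
theorem count_lin {F Ω : Type} [Field F] [Field Ω] [Algebra F Ω] {κ σ : Type} [Fintype κ]
    [Fintype σ] (y : σ → Ω) (A : Matrix κ σ F)
    (hA : ∀ b, ∑ s, algebraMap F Ω (A b s) * y s = 0) :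
    ∃ (B : Type) (_ : Fintype B) (a : B → σ), Function.Injective a ∧
      (∀ s, ∃ c : B → F, y s = ∑ i, algebraMap F Ω (c i) * y (a i)) ∧
      (A.map (algebraMap F Ω)).rank + Fintype.card B ≤ Fintype.card σ := by
  classical
  obtain ⟨B, a, ha, hsp, hli⟩ := exists_linearIndependent' F y
  have : Finite B := Finite.of_injective a ha
  have : Fintype B := Fintype.ofFinite B
  refine ⟨B, inferInstance, a, ha, ?_⟩
  have hc : ∀ s, ∃ c : B → F, y s = ∑ i, algebraMap F Ω (c i) * y (a i) := by
    intro s
    have h1 : y s ∈ Submodule.span F (Set.range (y ∘ a)) := by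
      rw [hsp]
      exact Submodule.subset_span ⟨s, rfl⟩
    rw [Submodule.mem_span_range_iff_exists_fun] at h1
    obtain ⟨c, hc⟩ := h1
    refine ⟨c, ?_⟩
    rw [← hc]
    apply Finset.sum_congr rfl
    intro i _
    rw [Algebra.smul_def]
    rfl
  refine ⟨hc, ?_⟩
  choose c hc using hc
  have hzero : ∀ d : B → F, ∑ i, algebraMap F Ω (d i) * y (a i) = 0 → ∀ i, d i = 0 := by
    intro d hd
    rw [Fintype.linearIndependent_iff] at hli
    apply hli d
    rw [← hd]
    apply Finset.sum_congr rfl
    intro i _
    rw [Algebra.smul_def]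
    rfl
  -- the coefficient matrix
  set C : Matrix σ B F := Matrix.of fun s i => c s i with hC
  have hAC : A * C = 0 := by
    ext b i
    rw [Matrix.zero_apply, Matrix.mul_apply]
    refine hzero (fun i => ∑ s, A b s * C s i) ?_ i
    have h1 := hA b
    have h2 : ∑ s, algebraMap F Ω (A b s) * y s =
        ∑ s, ∑ i, algebraMap F Ω (A b s) * (algebraMap F Ω (c s i) * y (a i)) := by
      apply Finset.sum_congr rfl
      intro s _
      conv_lhs => rw [hc s]
      rw [Finset.mul_sum]
    rw [h2, Finset.sum_comm] at h1
    rw [← h1]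
    apply Finset.sum_congr rfl
    intro i _
    rw [map_sum, Finset.sum_mul]
    apply Finset.sum_congr rfl
    intro s _
    rw [map_mul, mul_assoc]
    rfl
  have hAC' : A.map (algebraMap F Ω) * C.map (algebraMap F Ω) = 0 := by
    rw [← Matrix.map_mul, hAC]
    simp
  have h3 := Matrix.rank_add_rank_le_card_of_mul_eq_zero hAC'
  have h4 : (C.map (algebraMap F Ω)).rank = Fintype.card B := by
    have hsub : (C.map (algebraMap F Ω)).submatrix a id = 1 := by
      ext i j
      rw [Matrix.submatrix_apply, Matrix.map_apply]
      have h5 : c (a i) j - (if i = j then 1 else 0) = 0 := by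
        refine hzero (fun j => c (a i) j - (if i = j then 1 else 0)) ?_ j
        have h6 := hc (a i)
        simp only [map_sub, sub_mul, Finset.sum_sub_distrib]
        rw [← h6]
        simp
      have h7 : c (a i) j = if i = j then 1 else 0 := sub_eq_zero.1 h5
      show algebraMap F Ω (c (a i) j) = _
      rw [h7, Matrix.one_apply]
      split_ifs <;> simp
    apply le_antisymm
    · exact Matrix.rank_le_card_width _
    · have h8 := Matrix.rank_submatrix_le (C.map (algebraMap F Ω)) a id
      have h9 : (C.map (algebraMap F Ω)).submatrix a id = 1 := hsub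
      rw [h9, Matrix.rank_one] at h8
      exact h8
  rw [h4] at h3
  exact h3

/-- algebraic elements form a field -/
theorem count_field {K Ω : Type} [Field K] [Field Ω] [Algebra K Ω] (X Z : Set Ω)
    (h : ∀ x ∈ X, IsAlgebraic (Algebra.adjoin K Z) x) :
    ∀ x ∈ IntermediateField.adjoin K X, IsAlgebraic (Algebra.adjoin K Z) x := by
  intro x hx
  induction hx using IntermediateField.adjoin_induction with
  | mem x hx => exact h x hx
  | algebraMap r =>
    exact isAlgebraic_algebraMap (A := Ω)
      (algebraMap K (Algebra.adjoin K Z) r : Algebra.adjoin K Z)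
  | add x y _ _ hx hy => exact hx.add hy
  | inv x _ hx => exact hx.inv
  | mul x y _ _ hx hy => exact hx.mul hy

/-- the count -/
theorem t_count : Count_stm := by
  classical
  intro K Ω _ _ _ κ σ τ _ _ _ x y hy P hP
  set F := IntermediateField.adjoin K (Set.range x) with hF
  have hmem : ∀ p : MvPolynomial τ K, aeval x p ∈ F := by
    intro p
    have h1 : aeval x p ∈ Algebra.adjoin K (Set.range x) := by
      rw [Algebra.adjoin_range_eq_range_aeval]
      exact ⟨p, rfl⟩
    exact IntermediateField.algebra_adjoin_le_adjoin K _ h1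
  set A : Matrix κ σ F := P.map fun p => ⟨aeval x p, hmem p⟩ with hA
  have hAm : A.map (algebraMap F Ω) = P.map fun p => (aeval x p : Ω) := by
    ext b s
    rfl
  obtain ⟨B, _, a, ha, hspan, hrank⟩ := count_lin (F := F) y A (by
    intro b
    exact hP b)
  rw [hAm] at hrank
  -- the matroid
  set M := AlgebraicIndependent.matroid K Ω with hM
  obtain ⟨I, hI⟩ := M.exists_isBasis (Set.range x)
  have hI2 := AlgebraicIndependent.matroid_isBasis_iff.1 hI
  have hIX : I ⊆ Set.range x := hI2.2.1
  have hIfin : I.Finite := (Set.finite_range x).subset hIX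
  set Z : Set Ω := I ∪ Set.range (y ∘ a) with hZ
  have halg : ∀ z ∈ F, IsAlgebraic (Algebra.adjoin K Z) z := by
    apply count_field
    intro z hz
    have h1 : z ∈ M.closure I := by
      rw [hI.closure_eq_closure]
      exact M.subset_closure _ (Set.subset_univ _) hz
    have h2 : z ∈ M.closure Z := M.closure_subset_closure Set.subset_union_left h1
    rw [AlgebraicIndependent.matroid_closure_eq] at h2
    exact h2
  have hyalg : ∀ s, IsAlgebraic (Algebra.adjoin K Z) (y s) := by
    intro s
    obtain ⟨c, hc⟩ := hspan s
    rw [hc]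
    have : ∑ i, algebraMap F Ω (c i) * y (a i) ∈
        Subalgebra.algebraicClosure (Algebra.adjoin K Z) Ω := by
      apply Subalgebra.sum_mem
      intro i _
      apply Subalgebra.mul_mem
      · exact halg _ (c i).2
      · exact isAlgebraic_algebraMap (A := Ω) (⟨y (a i), Algebra.subset_adjoin
          (Set.mem_union_right _ ⟨i, rfl⟩)⟩ : Algebra.adjoin K Z)
    exact this
  have hsub : Set.range y ⊆ M.closure Z := by
    rintro _ ⟨s, rfl⟩
    rw [AlgebraicIndependent.matroid_closure_eq]
    exact hyalg s
  have hind : M.Indep (Set.range y) := by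
    rw [AlgebraicIndependent.matroid_indep_iff]
    exact hy.to_subtype_range
  have h1 : (Set.range y).encard ≤ Z.encard := by
    calc (Set.range y).encard ≤ M.eRk (M.closure Z) := hind.encard_le_eRk_of_subset hsub
      _ = M.eRk Z := M.eRk_closure_eq Z
      _ ≤ Z.encard := M.eRk_le_encard Z
  have h2 : (Set.range y).encard = Fintype.card σ := by
    rw [← Set.image_univ, hy.injective.injOn.encard_image, Set.encard_univ, ENat.card_eq_coe_fintype_card]
  have h3 : Z.encard ≤ I.encard + Fintype.card B := by
    refine (Set.encard_union_le _ _).trans (add_le_add le_rfl ?_)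
    rw [← Set.image_univ]
    exact (Set.encard_image_le _ _).trans (by rw [Set.encard_univ, ENat.card_eq_coe_fintype_card])
  have h4 : I.encard = (I.ncard : ℕ∞) := hIfin.cast_ncard_eq.symm
  have h5 : Fintype.card σ ≤ I.ncard + Fintype.card B := by
    have h6 := (h2.symm.le.trans h1).trans h3
    rw [h4] at h6
    exact_mod_cast h6
  have h7 : (P.map fun p => (aeval x p : Ω)).rank ≤ I.ncard := by omega
  -- the transcendence degree
  have h8 : ((I.ncard : ℕ) : Cardinal) ≤
      Algebra.trdeg K (Algebra.adjoin K (Set.range x)) := by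
    have hIind : AlgebraicIndependent K ((↑) : I → Ω) := hI2.1
    have h9 : AlgebraicIndependent K (fun i : I =>
        (⟨i.1, Algebra.subset_adjoin (hIX i.2)⟩ : Algebra.adjoin K (Set.range x))) := by
      have h10 : ((Algebra.adjoin K (Set.range x)).val ∘ fun i : I =>
        (⟨i.1, Algebra.subset_adjoin (hIX i.2)⟩ : Algebra.adjoin K (Set.range x))) =
          ((↑) : I → Ω) := rfl
      apply AlgebraicIndependent.of_comp (Algebra.adjoin K (Set.range x)).val
      rw [h10]
      exact hIind
    have h11 := h9.cardinalMk_le_trdeg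
    refine le_trans (le_of_eq ?_) h11
    exact Set.cast_ncard hIfin
  exact le_trans (by exact_mod_cast h7) h8

end Pool.Agent.N254.SQ
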