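import Pool.Agent.N254.SQ.StmR

/-!
Project SQ, fourth part (helper878): rational points on a component are dense.
-/

set_option autoImplicit false

namespace Pool.Agent.N254.SQ

open MvPolynomial Metric
open Pool.Agent.W602.GT (SubVar GeneralType coords)

theorem DenseR_points (n : ℕ) (K : Subfield ℂ) (S : Set (MvPolynomial (Fin (n + 1)) ℂ)) (L : Type)
    [Field L] [Algebra ℂ L] (y : Fin (n + 1) → L) (hC : Component (OnPoints K S) y) :
    ∃ T : Set (Fin (n + 1) → ℂ), (∀ x ∈ T, ∀ j, x j ∈ K) ∧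
      ∀ G, IsForm G → (aeval y G = 0 ↔ ∀ x ∈ T, eval x G = 0) := by
  obtain ⟨h1, H, hH, hyH, h2⟩ := hC
  refine ⟨{x | x ≠ 0 ∧ (∀ j, x j ∈ K) ∧ (∀ p ∈ S, eval x p = 0) ∧ eval x H ≠ 0},
    fun x hx => hx.2.1, fun G hG => ⟨?_, ?_⟩⟩
  · rintro hyG x ⟨hx0, hxK, hxS, hxH⟩
    have h3 := h2 G hG hyG x hx0 hxK hxS
    rw [map_mul] at h3
    exact (mul_eq_zero.1 h3).resolve_right hxH
  · intro hT
    have h3 : OnPoints K S (G * H) := by
      intro x hx0 hxK hxS
      rw [map_mul]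
      by_cases hxH : eval x H = 0
      · rw [hxH, mul_zero]
      · rw [hT x ⟨hx0, hxK, hxS, hxH⟩, zero_mul]
    obtain ⟨e, he⟩ := hG
    obtain ⟨e', he'⟩ := hH
    have h4 := h1 (G * H) ⟨_, he.mul he'⟩ h3
    rw [map_mul] at h4
    exact (mul_eq_zero.1 h4).resolve_right hyH

theorem DenseR_finite (n : ℕ) (S : Set (MvPolynomial (Fin (n + 1)) ℂ)) (L : Type)
    [Field L] [Algebra ℂ L] (y : Fin (n + 1) → L) (hC : Component (FiniteOff S) y) :
    ∃ T : Set (Fin (n + 1) → ℂ), (∀ x ∈ T, ∀ j, IsAlgebraic ℚ (x j)) ∧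
      ∀ G, IsForm G → (aeval y G = 0 ↔ ∀ x ∈ T, eval x G = 0) := by
  obtain ⟨h1, H, hH, hyH, h2⟩ := hC
  refine ⟨{x | x ≠ 0 ∧ (∀ j, IsAlgebraic ℚ (x j)) ∧ (∀ p ∈ S, eval x p = 0) ∧ eval x H ≠ 0 ∧
    ∀ F ∈ Eqs y, eval x F = 0}, fun x hx => hx.2.1, fun G hG => ⟨?_, ?_⟩⟩
  · rintro hyG x ⟨-, -, -, -, hx⟩
    exact hx G ⟨hG, hyG⟩
  · intro hT
    have h3 : FiniteOff S (G * H) := by
      intro M hM
      obtain ⟨T0, hT0, hT1⟩ := reduce (Eqs y)
      have h4 : ({P : Projectivization ℂ (Fin (n + 1) → ℂ) | ∃ (x : Fin (n + 1) → ℂ) (hx : x ≠ 0),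
          P = Projectivization.mk ℂ x hx ∧ (∀ j, x j ∈ M) ∧ (∀ p ∈ S, eval x p = 0) ∧
          eval x (G * H) ≠ 0}) ⊆ ⋃ F ∈ T0, {P : Projectivization ℂ (Fin (n + 1) → ℂ) |
          ∃ (x : Fin (n + 1) → ℂ) (hx : x ≠ 0),
          P = Projectivization.mk ℂ x hx ∧ (∀ j, x j ∈ M) ∧ (∀ p ∈ S, eval x p = 0) ∧
          eval x (F * H) ≠ 0} := by
        rintro P ⟨x, hx0, hP, hxM, hxS, hxG⟩
        rw [map_mul] at hxG
        have hxG' := left_ne_zero_of_mul hxG
        have hxH := right_ne_zero_of_mul hxG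
        have h5 : ∃ F ∈ T0, eval x F ≠ 0 := by
          by_contra hcon
          push Not at hcon
          have h6 : ∀ F ∈ Eqs y, eval x F = 0 := by
            intro F hF
            have h7 := hT1 ℂ (RingHom.id ℂ) x (fun p hp => by
              rw [map_id]
              exact hcon p hp) F hF
            rwa [map_id] at h7
          apply hxG'
          apply hT x
          refine ⟨hx0, fun j => ?_, hxS, hxH, h6⟩
          have h8 : IsAlgebraic ℚ (⟨x j, hxM j⟩ : M) := Algebra.IsAlgebraic.isAlgebraic _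
          exact h8.algebraMap (A := ℂ)
        obtain ⟨F, hF, hxF⟩ := h5
        rw [Set.mem_iUnion₂]
        refine ⟨F, hF, x, hx0, hP, hxM, hxS, ?_⟩
        rw [map_mul]
        exact mul_ne_zero hxF hxH
      refine Set.Finite.subset ?_ h4
      refine Set.Finite.biUnion T0.finite_toSet fun F hF => ?_
      have hF' := hT0 hF
      exact h2 F hF'.1 hF'.2 M hM
    obtain ⟨e, he⟩ := hG
    obtain ⟨e', he'⟩ := hH
    have h4 := h1 (G * H) ⟨_, he.mul he'⟩ h3
    rw [map_mul] at h4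
    exact (mul_eq_zero.1 h4).resolve_right hyH

theorem t_dense : Dense where
  points := fun n K S L _ _ _ y _ hC => DenseR_points n K S L y hC
  finite := fun n S L _ _ _ y _ hC => DenseR_finite n S L y hC

end Pool.Agent.N254.SQ
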