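import Pool.Agent.N254.SQ.StmQ

/-!
Project SQ, part DESC: forms over subfields (helper588).
-/

set_option autoImplicit false

namespace Pool.Agent.N254.SQ

open MvPolynomial

theorem t_desc : Desc_stm := by
  classical
  intro K n e T hT G hG hGT
  let B := Module.Basis.ofVectorSpace K ℂ
  let g : (Module.Basis.ofVectorSpaceIndex K ℂ) → MvPolynomial (Fin (n + 1)) K := fun b =>
    ∑ α ∈ G.support, monomial α (B.repr (coeff α G) b)
  have hg : ∀ b α, coeff α (g b) = B.repr (coeff α G) b := by
    intro b α
    simp only [g, coeff_sum, coeff_monomial]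
    rw [Finset.sum_ite_eq']
    split_ifs with h
    · rfl
    · rw [notMem_support_iff.1 h]
      simp
  let S : Finset (Module.Basis.ofVectorSpaceIndex K ℂ) :=
    G.support.biUnion fun α => (B.repr (coeff α G)).support
  have hrepr : ∀ α, ∑ b ∈ S, B b * algebraMap K ℂ (B.repr (coeff α G) b) = coeff α G := by
    intro α
    have h1 := B.linearCombination_repr (coeff α G)
    rw [Finsupp.linearCombination_apply, Finsupp.sum] at h1
    by_cases hα : α ∈ G.support
    · have hsub : (B.repr (coeff α G)).support ⊆ S :=
        Finset.subset_biUnion_of_mem (fun α => (B.repr (coeff α G)).support) hα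
      rw [← Finset.sum_subset hsub]
      · conv_rhs => rw [← h1]
        refine Finset.sum_congr rfl fun b _ => ?_
        rw [Algebra.smul_def, mul_comm]
      · intro b _ hb
        rw [Finsupp.notMem_support_iff.1 hb, map_zero, mul_zero]
    · rw [notMem_support_iff.1 hα]
      refine Finset.sum_eq_zero fun b _ => ?_
      simp
  have hsum : G = ∑ b ∈ S, C (B b) * map (algebraMap K ℂ) (g b) := by
    ext α
    rw [coeff_sum, ← hrepr α]
    refine Finset.sum_congr rfl fun b _ => ?_
    rw [coeff_C_mul, coeff_map, hg]
  have hhom : ∀ b, (g b).IsHomogeneous e := by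
    intro b α hα
    apply hG
    intro h
    apply hα
    rw [hg, h]
    simp
  have hval : ∀ b ∈ S, ∀ x ∈ T, eval x (map (algebraMap K ℂ) (g b)) = 0 := by
    intro b hb x hx
    let x' : Fin (n + 1) → K := fun j => ⟨x j, hT x hx j⟩
    have hx' : ∀ p : MvPolynomial (Fin (n + 1)) K,
        eval x (map (algebraMap K ℂ) p) = algebraMap K ℂ (eval x' p) := by
      intro p
      rw [eval_map]
      exact (eval₂_comp (algebraMap K ℂ) x' p).symm
    have h1 := hGT x hx
    rw [hsum, map_sum] at h1
    have h2 : ∑ b ∈ S, (eval x' (g b)) • B b = 0 := by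
      rw [← h1]
      refine Finset.sum_congr rfl fun b _ => ?_
      rw [map_mul, eval_C, hx', Algebra.smul_def, mul_comm]
    have h3 := linearIndependent_iff'.1 B.linearIndependent S (fun b => eval x' (g b)) h2 b hb
    rw [hx', h3, map_zero]
  refine ⟨S.card, fun i => B (S.equivFin.symm i).1, fun i => g (S.equivFin.symm i).1,
    fun i => hhom _, fun i x hx => hval _ (S.equivFin.symm i).2 x hx, ?_⟩
  rw [hsum, ← Finset.sum_coe_sort S]
  exact (Equiv.sum_comp S.equivFin.symm (fun b : S => C (B b.1) * map (algebraMap K ℂ) (g b.1))).symm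

end Pool.Agent.N254.SQ
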