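import Mathlib
import Pool.Agent.N254.SQ.Stm

/-!
Project SQ (helper254), leaf EXP: a nonconstant holomorphic curve composed with the exponential
function grows at least linearly (helper682).
-/

set_option autoImplicit false

namespace Pool.Agent.N254.SQ

open MeasureTheory Set Filter Topology Metric Real ValueDistribution MeromorphicOn Function
open Asymptotics
open Pool.Agent.N131.SR (Big NZ exists_big count_ge)

noncomputable section

/-- zeros of an entire function at all points `2 π i k` -/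
theorem exp_count {H : ℂ → ℂ} (hH : Differentiable ℂ H) (hne : ∃ z, H z ≠ 0)
    (h0 : ∀ k : ℕ, H (2 * π * Complex.I * k) = 0) {r : ℝ} (hr : 2 ≤ r) :
    (r / (4 * π) - 1) * log 2 ≤ ValueDistribution.logCounting H 0 r := by
  classical
  have hm : Meromorphic H := diff_mero hH
  have hpi := Real.pi_pos
  set K : ℕ := ⌊r / (4 * π)⌋₊ with hK
  have hKle : (K : ℝ) ≤ r / (4 * π) := Nat.floor_le (by positivity)
  have hKgt : r / (4 * π) < K + 1 := Nat.lt_floor_add_one _
  set G : Finset ℂ := (Finset.Icc 1 K).image fun k : ℕ => 2 * π * Complex.I * (k : ℂ) with hG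
  have hinj : Function.Injective fun k : ℕ => 2 * (π : ℂ) * Complex.I * (k : ℂ) := by
    intro a b hab
    have h1 : (2 * (π : ℂ) * Complex.I) ≠ 0 := Complex.two_pi_I_ne_zero
    have h2 := mul_left_cancel₀ h1 hab
    exact_mod_cast h2
  have hcard : G.card = K := by
    rw [hG, Finset.card_image_of_injective _ hinj, Nat.card_Icc]
    omega
  have hGn : ∀ u ∈ G, ‖u‖ ≤ r / 2 := by
    intro u hu
    rw [hG, Finset.mem_image] at hu
    obtain ⟨k, hk, rfl⟩ := hu
    rw [Finset.mem_Icc] at hk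
    have h1 : ‖2 * (π : ℂ) * Complex.I * (k : ℂ)‖ = 2 * π * k := by
      rw [norm_mul, norm_mul, norm_mul, Complex.norm_I, Complex.norm_natCast, Complex.norm_real,
        Real.norm_eq_abs, abs_of_pos hpi]
      simp
    rw [h1]
    have h2 : (k : ℝ) ≤ K := by exact_mod_cast hk.2
    have h3 : (k : ℝ) ≤ r / (4 * π) := h2.trans hKle
    rw [le_div_iff₀ (by positivity)] at h3
    linarith
  have hnz : ∀ z, meromorphicOrderAt H z ≠ ⊤ := by
    intro z h1
    have h2 := meromorphicOrderAt_eq_top_iff.1 h1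
    have h3 := codis_ev (diff_ne hH hne) z
    obtain ⟨w, h4, h5⟩ := (h2.and h3).exists
    exact h5 h4
  have hD : ∀ u ∈ G, (1 : ℤ) ≤ ((divisor H univ)⁺ : locallyFinsupp ℂ ℤ) u := by
    intro u hu
    rw [hG, Finset.mem_image] at hu
    obtain ⟨k, hk, rfl⟩ := hu
    change (1 : ℤ) ≤ (divisor H univ (2 * (π : ℂ) * Complex.I * (k : ℂ)))⁺
    refine le_trans ?_ (le_posPart _)
    rw [divisor_apply hm.meromorphicOn (mem_univ _)]
    have h1 := hnz (2 * (π : ℂ) * Complex.I * (k : ℂ))
    have h2 : 0 < meromorphicOrderAt H (2 * (π : ℂ) * Complex.I * (k : ℂ)) := by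
      rw [(hH.analyticAt _).meromorphicOrderAt_eq]
      have h3 : analyticOrderAt H (2 * (π : ℂ) * Complex.I * (k : ℂ)) ≠ 0 :=
        (hH.analyticAt _).analyticOrderAt_ne_zero.2 (h0 k)
      have h4 : analyticOrderAt H (2 * (π : ℂ) * Complex.I * (k : ℂ)) ≠ ⊤ := by
        intro h5
        apply h1
        rw [(hH.analyticAt _).meromorphicOrderAt_eq, h5]
        rfl
      lift analyticOrderAt H (2 * (π : ℂ) * Complex.I * (k : ℂ)) to ℕ using h4 with m
      have h5 : m ≠ 0 := by exact_mod_cast h3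
      have h6 : ((0 : ℤ) : WithTop ℤ) < ((m : ℤ) : WithTop ℤ) := by
        rw [WithTop.coe_lt_coe]
        omega
      exact h6
    lift meromorphicOrderAt H (2 * (π : ℂ) * Complex.I * (k : ℂ)) to ℤ using h1 with m
    rw [WithTop.untop₀_coe]
    have h3 : ((0 : ℤ) : WithTop ℤ) < (m : WithTop ℤ) := h2
    rw [WithTop.coe_lt_coe] at h3
    omega
  have hc := count_ge (D := (divisor H univ)⁺) (posPart_nonneg _) (R := r / 2) (R' := r)
    (by linarith) (by linarith) G hGn
  rw [← logCounting_zero] at hc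
  have h1 : (K : ℝ) ≤ ∑ u ∈ G, ((((divisor H univ)⁺ : locallyFinsupp ℂ ℤ) u : ℤ) : ℝ) := by
    calc (K : ℝ) = ∑ u ∈ G, (1 : ℝ) := by rw [Finset.sum_const, hcard]; simp
      _ ≤ _ := Finset.sum_le_sum fun u hu => by exact_mod_cast hD u hu
  have h2 : log r - log (r / 2) = log 2 := by
    rw [Real.log_div (by positivity) (by norm_num)]
    ring
  rw [h2] at hc
  have h3 : 0 < log 2 := Real.log_pos (by norm_num)
  have h4 : (r / (4 * π) - 1) * log 2 ≤ K * log 2 :=
    mul_le_mul_of_nonneg_right (by linarith) h3.le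
  have h5 := mul_le_mul_of_nonneg_right h1 h3.le
  linarith

/-- a nonconstant curve composed with the exponential function grows at least linearly -/
theorem exp_grow (n : ℕ) (f : Fin (n + 1) → ℂ → ℂ) (hf : ∀ j, Differentiable ℂ (f j))
    (h0 : ∀ z, ∃ j, f j z ≠ 0) (hnc : ∃ i j z w, f i z * f j w ≠ f j z * f i w) :
    ∃ C : ℝ, ∀ r, 2 ≤ r →
      (r / (4 * π)) * log 2 ≤ Tf (fun j z => f j (Complex.exp z)) r + C := by
  have h1 : ∃ i j w, f i w * f j 1 ≠ f j w * f i 1 := by
    by_contra hcon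
    push Not at hcon
    obtain ⟨i, j, z, w, hne⟩ := hnc
    obtain ⟨a, ha⟩ := h0 1
    apply hne
    have e1 := hcon i a z
    have e2 := hcon j a w
    have e3 := hcon j a z
    have e4 := hcon i a w
    have h2 : f a 1 * f a 1 * (f i z * f j w) = f a 1 * f a 1 * (f j z * f i w) := by
      calc f a 1 * f a 1 * (f i z * f j w) = (f i z * f a 1) * (f j w * f a 1) := by ring
        _ = (f a z * f i 1) * (f a w * f j 1) := by rw [e1, e2]
        _ = (f a z * f j 1) * (f a w * f i 1) := by ring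
        _ = (f j z * f a 1) * (f i w * f a 1) := by rw [e3, e4]
        _ = _ := by ring
    exact mul_left_cancel₀ (mul_ne_zero ha ha) h2
  obtain ⟨i, j, w, hw⟩ := h1
  set h : ℂ → ℂ := fun z => f i z * f j 1 - f j z * f i 1 with hh
  have hhd : Differentiable ℂ h := ((hf i).mul_const _).sub ((hf j).mul_const _)
  have hhne : ∃ z, h z ≠ 0 := ⟨w, sub_ne_zero.2 hw⟩
  have hh1 : h 1 = 0 := by
    rw [hh]
    ring
  set H : ℂ → ℂ := fun z => h (Complex.exp z) with hHdef
  have hHd : Differentiable ℂ H := hhd.comp Complex.differentiable_exp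
  have hHne : ∃ z, H z ≠ 0 := by
    have h2 := codis_ev (diff_ne hhd hhne) 0
    obtain ⟨v, h3, h4⟩ := (h2.and self_mem_nhdsWithin).exists
    refine ⟨Complex.log v, ?_⟩
    rw [hHdef]
    change h (Complex.exp (Complex.log v)) ≠ 0
    rw [Complex.exp_log h4]
    exact h3
  have hH0 : ∀ k : ℕ, H (2 * π * Complex.I * k) = 0 := by
    intro k
    change h (Complex.exp (2 * π * Complex.I * k)) = 0
    have : Complex.exp (2 * π * Complex.I * k) = 1 := by
      rw [mul_comm]
      exact_mod_cast Complex.exp_nat_mul_two_pi_mul_I k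
    rw [this, hh1]
  set g : Fin (n + 1) → ℂ → ℂ := fun j z => f j (Complex.exp z) with hg
  have hgd : ∀ j, Differentiable ℂ (g j) := fun j => (hf j).comp Complex.differentiable_exp
  have hg0 : ∀ z, ∃ j, g j z ≠ 0 := fun z => h0 _
  set c : ℝ := ‖f i 1‖ + ‖f j 1‖ + 1 with hc
  have hcpos : 0 < c := by positivity
  refine ⟨log c + log 2 - log ‖meromorphicTrailingCoeffAt H 0‖, fun r hr => ?_⟩
  have hr0 : r ≠ 0 := by positivity
  have hcount := exp_count hHd hHne hH0 hr
  have hav := f_avg (f := fun _ : Fin 1 => H) (fun _ => hHd) (l := 0) (r := r) (by linarith)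
  have hle : circleAverage (fun z => Real.log ‖H z‖) 0 r ≤ Tf g r + log c := by
    have h2 : CircleIntegrable (fun z => Real.log ‖H z‖) 0 r :=
      (diff_mero hHd).meromorphicOn.circleIntegrable_log_norm
    have h3 : CircleIntegrable (fun _ : ℂ => log c) 0 r := circleIntegrable_const _ _ _
    have h4 : Tf g r + log c = circleAverage (fun z => Real.log ‖fun j => g j z‖ + log c) 0 r := by
      rw [circleAverage_fun_add (curve_int hgd hg0 r) h3, circleAverage_const]
      rfl
    rw [h4]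
    apply Pool.Agent.Helper160.Nev.circleAverage_mono_codiscrete hr0 h2
    · exact (curve_int hgd hg0 r).add h3
    · have h5 : ∀ᶠ z in codiscreteWithin (sphere (0 : ℂ) |r|), H z ≠ 0 :=
        (diff_ne hHd hHne).filter_mono (codiscreteWithin_mono (subset_univ _))
      filter_upwards [h5] with z hz
      have h6 : 0 < ‖(fun j => g j z : Fin (n + 1) → ℂ)‖ := curve_pos hg0 z
      have h7 : ‖H z‖ ≤ ‖(fun j => g j z : Fin (n + 1) → ℂ)‖ * c := by
        have h8 : ‖g i z‖ ≤ ‖(fun j => g j z : Fin (n + 1) → ℂ)‖ :=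
          norm_le_pi_norm (fun j => g j z : Fin (n + 1) → ℂ) i
        have h9 : ‖g j z‖ ≤ ‖(fun j => g j z : Fin (n + 1) → ℂ)‖ :=
          norm_le_pi_norm (fun j => g j z : Fin (n + 1) → ℂ) j
        calc ‖H z‖ = ‖g i z * f j 1 - g j z * f i 1‖ := rfl
          _ ≤ ‖g i z * f j 1‖ + ‖g j z * f i 1‖ := norm_sub_le _ _
          _ = ‖g i z‖ * ‖f j 1‖ + ‖g j z‖ * ‖f i 1‖ := by rw [norm_mul, norm_mul]
          _ ≤ ‖(fun j => g j z : Fin (n + 1) → ℂ)‖ * ‖f j 1‖ +
              ‖(fun j => g j z : Fin (n + 1) → ℂ)‖ * ‖f i 1‖ := by gcongr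
          _ ≤ _ := by
            rw [hc]
            nlinarith
      have h8 := Real.log_le_log (norm_pos_iff.2 hz) h7
      rw [Real.log_mul h6.ne' hcpos.ne'] at h8
      exact h8
  have h5 : (r / (4 * π) - 1) * log 2 = r / (4 * π) * log 2 - log 2 := by ring
  rw [h5] at hcount
  have h6 : circleAverage (fun z => Real.log ‖H z‖) 0 r =
      ValueDistribution.logCounting H 0 r + log ‖meromorphicTrailingCoeffAt H 0‖ := hav
  linarith

theorem t_exp : Exp_stm := by
  intro n f hf h0 hnc
  obtain ⟨C, hC⟩ := exp_grow n f hf h0 hnc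
  set T : ℝ → ℝ := Tf fun j z => f j (Complex.exp z) with hT
  have hpi := Real.pi_pos
  have hlin : ∀ k : ℕ, ∀ᶠ r : ℝ in atTop, (k : ℝ) * log r ≤ T r := by
    intro k
    have h1 : ∀ᶠ r : ℝ in atTop, ‖log r‖ ≤ (log 2 / (4 * π) / (2 * (k + 1))) * ‖r‖ :=
      (isLittleO_iff.1 Real.isLittleO_log_id_atTop)
        (by have := Real.log_pos (show (1 : ℝ) < 2 by norm_num); positivity)
    have h2 : ∀ᶠ r : ℝ in atTop, C ≤ r * (log 2 / (4 * π) / 2) := by
      have h3 : 0 < log 2 / (4 * π) / 2 := by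
        have := Real.log_pos (show (1 : ℝ) < 2 by norm_num)
        positivity
      exact (tendsto_id.atTop_mul_const h3).eventually_ge_atTop C
    filter_upwards [h1, h2, eventually_ge_atTop (2 : ℝ)] with r e1 e2 e3
    have h3 : 0 ≤ log r := Real.log_nonneg (by linarith)
    rw [Real.norm_eq_abs, Real.norm_eq_abs, abs_of_nonneg h3,
      abs_of_nonneg (by linarith : (0 : ℝ) ≤ r)] at e1
    have h4 := hC r e3
    have h5 : (k : ℝ) * log r ≤ (k + 1) * log r :=
      mul_le_mul_of_nonneg_right (by linarith) h3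
    have h6 : ((k : ℝ) + 1) * log r ≤ r * (log 2 / (4 * π) / 2) := by
      have h7 := mul_le_mul_of_nonneg_left e1 (show (0 : ℝ) ≤ (k : ℝ) + 1 by positivity)
      refine h7.trans (le_of_eq ?_)
      field_simp
    have h7 : r / (4 * π) * log 2 = r * (log 2 / (4 * π) / 2) + r * (log 2 / (4 * π) / 2) := by
      ring
    rw [h7] at h4
    linarith
  obtain ⟨L, hL, hP⟩ := exists_big (P := fun k r => 1 ≤ r ∧ (k : ℝ) * log r ≤ T r)
    (by
      rintro a b r hab ⟨h1, h2⟩
      refine ⟨h1, le_trans ?_ h2⟩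
      exact mul_le_mul_of_nonneg_right (by exact_mod_cast hab) (Real.log_nonneg h1))
    (by
      intro k
      obtain ⟨R, hR⟩ := eventually_atTop.1 (hlin k)
      rw [eq_top_iff, ← Real.volume_Ici (a := max R 1)]
      apply measure_mono
      intro r hr
      rw [mem_Ici, max_le_iff] at hr
      exact ⟨hr.2, hr.2, hR r hr.1⟩)
  refine ⟨L, ⟨hL, ?_⟩, ?_⟩
  · rw [isLittleO_iff]
    intro c hc
    obtain ⟨k, hk⟩ := exists_nat_ge (1 / c)
    filter_upwards [hP k] with r hr
    have h1 : 0 ≤ log r := Real.log_nonneg hr.1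
    have h2 : 0 ≤ T r := le_trans (by positivity) hr.2
    rw [Real.norm_eq_abs, Real.norm_eq_abs, abs_of_nonneg h1, abs_of_nonneg h2]
    rw [div_le_iff₀ hc] at hk
    calc log r = 1 * log r := (one_mul _).symm
      _ ≤ (k * c) * log r := mul_le_mul_of_nonneg_right hk h1
      _ = c * (k * log r) := by ring
      _ ≤ c * T r := mul_le_mul_of_nonneg_left hr.2 hc.le
  · filter_upwards [hP 0] with r hr
    have := hr.2
    simpa using this

end

end Pool.Agent.N254.SQ
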