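import Pool.Agent.N254.SQ.StmQ

/-!
Project SQ (helper254), EXT: extension across the puncture and ratios of the coordinates (helper160).
-/

set_option autoImplicit false

namespace Pool.Agent.N254.SQ

open Filter Topology Metric

lemma ExtR_preconn : IsPreconnected (ball (0 : ℂ) 1 \ {0}) := by
  have h1 : Complex.exp '' {z : ℂ | z.re < 0} = ball (0 : ℂ) 1 \ {0} := by
    ext w
    constructor
    · rintro ⟨z, hz, rfl⟩
      refine ⟨?_, Complex.exp_ne_zero z⟩
      rw [mem_ball_zero_iff, Complex.norm_exp]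
      have hz' : z.re < 0 := hz
      rw [← Real.exp_zero]
      exact Real.exp_lt_exp.2 hz'
    · rintro ⟨hw, hw0⟩
      have hw0' : w ≠ 0 := hw0
      refine ⟨Complex.log w, ?_, Complex.exp_log hw0'⟩
      rw [mem_ball_zero_iff] at hw
      show (Complex.log w).re < 0
      rw [Complex.log_re]
      exact Real.log_neg (norm_pos_iff.2 hw0') hw
  rw [← h1]
  exact ((convex_halfSpace_re_lt 0).isPreconnected).image _ Complex.continuous_exp.continuousOn

lemma ExtR_open : IsOpen (ball (0 : ℂ) 1 \ {0}) := isOpen_ball.sdiff isClosed_singleton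

/-- a coordinate vanishing near the puncture vanishes identically -/
lemma ExtR_ident {n : ℕ} (f : ℂ → Fin (n + 1) → ℂ) (hf : DifferentiableOn ℂ f (ball 0 1 \ {0}))
    (l : Fin (n + 1)) (h : ∀ᶠ w in 𝓝[≠] (0 : ℂ), f w l = 0) :
    ∀ w ∈ ball (0 : ℂ) 1 \ {0}, f w l = 0 := by
  have hfl : DifferentiableOn ℂ (fun w => f w l) (ball 0 1 \ {0}) := by
    rw [differentiableOn_pi] at hf
    exact hf l
  have ha : AnalyticOnNhd ℂ (fun w => f w l) (ball 0 1 \ {0}) := hfl.analyticOnNhd ExtR_open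
  rw [eventually_nhdsWithin_iff, Metric.eventually_nhds_iff] at h
  obtain ⟨r, hr, hr2⟩ := h
  obtain ⟨t, ht⟩ : ∃ t : ℝ, t = min r 1 / 2 := ⟨_, rfl⟩
  have hm : 0 < min r 1 := lt_min hr one_pos
  have ht0 : 0 < t := by rw [ht]; positivity
  have ht1 : t < r := by
    have := min_le_left r 1
    rw [ht]
    linarith
  have ht2 : t < 1 := by
    have := min_le_right r 1
    rw [ht]
    linarith
  have hn : ‖(t : ℂ)‖ = t := by rw [Complex.norm_real, Real.norm_of_nonneg ht0.le]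
  have htc : (t : ℂ) ≠ 0 := by exact_mod_cast ht0.ne'
  have hz : (t : ℂ) ∈ ball (0 : ℂ) 1 \ {0} := by
    refine ⟨?_, htc⟩
    rw [mem_ball_zero_iff, hn]
    exact ht2
  have hev : (fun w => f w l) =ᶠ[𝓝 (t : ℂ)] 0 := by
    have h1 : ball (0 : ℂ) r \ {0} ∈ 𝓝 (t : ℂ) := by
      refine (isOpen_ball.sdiff isClosed_singleton).mem_nhds ⟨?_, htc⟩
      rw [mem_ball_zero_iff, hn]
      exact ht1
    filter_upwards [h1] with w hw
    exact hr2 (by simpa using hw.1) hw.2
  exact ha.eqOn_zero_of_preconnected_of_eventuallyEq_zero ExtR_preconn hz hev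

theorem t_ext : Ext_stm := by
  intro n f hf hne
  constructor
  · rintro ⟨ε, hε, g, hg, hg0, hfg⟩ i l ⟨w0, hw0, hw0l⟩
    have hga : ∀ j, AnalyticAt ℂ (fun w => g w j) 0 := by
      intro j
      rw [differentiableOn_pi] at hg
      exact (hg j).analyticAt (ball_mem_nhds 0 hε)
    have hball : ∀ᶠ w in 𝓝[≠] (0 : ℂ), w ∈ ball (0 : ℂ) ε \ {0} := by
      rw [eventually_nhdsWithin_iff]
      filter_upwards [ball_mem_nhds (0 : ℂ) hε] with w hw hw0
      exact ⟨hw, hw0⟩
    rcases (hga l).eventually_eq_zero_or_eventually_ne_zero with h | h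
    · exfalso
      apply hw0l
      refine ExtR_ident f hf l ?_ w0 hw0
      filter_upwards [hball, h.filter_mono nhdsWithin_le_nhds] with w hw hw2
      obtain ⟨c, hc⟩ := hfg w hw
      rw [hc, Pi.smul_apply, hw2, smul_zero]
    · refine ⟨fun w => g w i / g w l, (hga i).meromorphicAt.div (hga l).meromorphicAt, ?_⟩
      filter_upwards [hball, h] with w hw hw2
      obtain ⟨c, hc⟩ := hfg w hw
      rw [hc, Pi.smul_apply, Pi.smul_apply, smul_eq_mul, smul_eq_mul]
      field_simp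
  · intro h
    obtain ⟨w0, hw0, hfw0⟩ := hne
    obtain ⟨l, hl⟩ := Function.ne_iff.1 hfw0
    have hl' : ∃ w ∈ ball (0 : ℂ) 1 \ {0}, f w l ≠ 0 := ⟨w0, hw0, hl⟩
    have hρ : ∀ i, ∃ ρ : ℂ → ℂ, MeromorphicAt ρ 0 ∧
        (∀ᶠ w in 𝓝[≠] (0 : ℂ), f w i = ρ w * f w l) ∧ (i = l → ρ = fun _ => 1) := by
      intro i
      by_cases hi : i = l
      · refine ⟨fun _ => 1, MeromorphicAt.const 1 0, Eventually.of_forall fun w => ?_, fun _ => rfl⟩
        rw [hi, one_mul]
      · obtain ⟨ρ, h1, h2⟩ := h i l hl'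
        exact ⟨ρ, h1, h2, fun h3 => absurd h3 hi⟩
    choose ρ hρ1 hρ2 hρ3 using hρ
    choose N hN using hρ1
    obtain ⟨M, hM⟩ : ∃ M, M = Finset.univ.sup N := ⟨_, rfl⟩
    have hNM : ∀ i, N i ≤ M := fun i => by rw [hM]; exact Finset.le_sup (Finset.mem_univ i)
    have ha : AnalyticAt ℂ (fun w => fun i => w ^ M * ρ i w) 0 := by
      rw [analyticAt_pi_iff]
      intro i
      have h1 := hN i
      have h2 : AnalyticAt ℂ (fun w : ℂ => w ^ (M - N i)) 0 := by fun_prop
      refine (h2.mul h1).congr (Eventually.of_forall fun w => ?_)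
      simp only [sub_zero, smul_eq_mul, Pi.mul_apply]
      rw [← mul_assoc, ← pow_add, Nat.sub_add_cancel (hNM i)]
    have hnz : ¬ ∀ᶠ w in 𝓝 (0 : ℂ), (fun i => w ^ M * ρ i w) = 0 := by
      intro hcon
      rw [Metric.eventually_nhds_iff] at hcon
      obtain ⟨r, hr, hr2⟩ := hcon
      have hn : ‖((r / 2 : ℝ) : ℂ)‖ = r / 2 := by
        rw [Complex.norm_real, Real.norm_of_nonneg (by positivity)]
      have h1 := congrFun (hr2 (y := ((r / 2 : ℝ) : ℂ)) (by rw [dist_zero_right, hn]; linarith)) l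
      rw [hρ3 l rfl] at h1
      simp only [mul_one, Pi.zero_apply] at h1
      have h3 : ((r / 2 : ℝ) : ℂ) ≠ 0 := by exact_mod_cast (by positivity : r / 2 ≠ 0)
      exact pow_ne_zero M h3 h1
    obtain ⟨m, g, hg, hg0, hgev⟩ := (ha.exists_eventuallyEq_pow_smul_nonzero_iff).2 hnz
    have hgd : ∀ᶠ w in 𝓝 (0 : ℂ), AnalyticAt ℂ g w := hg.eventually_analyticAt
    have hgn : ∀ᶠ w in 𝓝 (0 : ℂ), g w ≠ 0 := hg.continuousAt.eventually_ne hg0
    have hall : ∀ᶠ w in 𝓝 (0 : ℂ), ∀ i, w ≠ 0 → f w i = ρ i w * f w l := by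
      rw [eventually_all]
      intro i
      have := hρ2 i
      rw [eventually_nhdsWithin_iff] at this
      exact this
    obtain ⟨ε, hε, hε2⟩ := Metric.eventually_nhds_iff_ball.1 (hgd.and (hgn.and (hall.and hgev)))
    refine ⟨ε, hε, g, fun w hw => (hε2 w hw).1.differentiableAt.differentiableWithinAt,
      fun w hw => (hε2 w hw).2.1, fun w hw => ?_⟩
    obtain ⟨-, -, h3, h4⟩ := hε2 w hw.1
    have hw0 : w ≠ 0 := hw.2
    refine ⟨f w l * (w ^ M)⁻¹ * w ^ m, ?_⟩
    funext i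
    have h5 := congrFun h4 i
    simp only [sub_zero, Pi.smul_apply, smul_eq_mul] at h5
    rw [h3 i hw0, Pi.smul_apply, smul_eq_mul, mul_assoc, ← h5]
    have h6 : w ^ M ≠ 0 := pow_ne_zero M hw0
    field_simp

end Pool.Agent.N254.SQ
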