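import Mathlib
import Pool.Agent.N254.SQ.Stm

/-!
Assembly of the main theorem of project SQ.
-/

set_option autoImplicit false

namespace Pool.Agent.N254.SQ

open MvPolynomial Filter Topology

/-- the value of a term along a curve -/
noncomputable def term {n : ℕ} (f : Fin (n + 1) → ℂ → ℂ) (G : MvPolynomial (Fin (n + 1)) ℂ)
    (t D : ℕ) (z : ℂ) : ℂ :=
  eval (fun j => f j z) G * eval (fun j => f j z) (lin ℂ n t) ^ D

/-- CURVES: along a nonconstant curve the sum splits in many vanishing subsums -/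
theorem curves (hP : Part_stm) (hS : Size_stm) (n e L : ℕ) : ∃ D₁ : ℕ, ∀ D, D₁ ≤ D →
    ∀ H : Fin L → MvPolynomial (Fin (n + 1)) ℂ, (∀ t, (H t).IsHomogeneous e) →
    ∀ f : Fin (n + 1) → ℂ → ℂ, (∀ j, Differentiable ℂ (f j)) → (∀ z, ∃ j, f j z ≠ 0) →
    (∀ z, ∑ t : Fin L, term f (H t) t D z = 0) → (∃ i j z w, f i z * f j w ≠ f j z * f i w) →
    ∃ 𝓑 : Finset (Finset (Fin L)), (∀ B ∈ 𝓑, B.Nonempty) ∧
      (∀ B ∈ 𝓑, ∀ B' ∈ 𝓑, B ≠ B' → Disjoint B B') ∧
      (∀ B ∈ 𝓑, ∀ z, ∑ t ∈ B, term f (H t) t D z = 0) ∧ L ≤ n * 𝓑.card := by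
  classical
  obtain ⟨D₁, hD₁⟩ := hS n e L
  refine ⟨D₁, fun D hD H hH f hf h0 hsum hnc => ?_⟩
  obtain ⟨𝓑, hne, hdis, hcov, hmin⟩ := hP (ℂ → ℂ) (Fin L) (fun t => term f (H t) t D) (by
    funext z
    rw [Finset.sum_apply]
    exact hsum z)
  have hvan : ∀ B ∈ 𝓑, ∀ z, ∑ t ∈ B, term f (H t) t D z = 0 := by
    intro B hB z
    have h1 := congrFun (hmin B hB).1 z
    rwa [Finset.sum_apply] at h1
  refine ⟨𝓑, hne, hdis, hvan, ?_⟩
  -- n is positive
  have hn : 1 ≤ n := by
    by_contra hcon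
    obtain ⟨i, j, z, w, h⟩ := hnc
    have hn0 : n = 0 := by omega
    subst hn0
    apply h
    rw [show i = j from Fin.ext (by omega)]
  have hcard : ∀ B ∈ 𝓑, B.card ≤ n := by
    intro B hB
    by_contra hcon
    push Not at hcon
    obtain ⟨i, j, z, w, h⟩ := hnc
    apply h
    have hc : Fintype.card {t // t ∈ B} = B.card := Fintype.card_coe B
    refine hD₁ D hD {t // t ∈ B} ?_ ?_ ?_ (fun t => H t.1) (fun t => (t.1 : ℕ)) ?_
      (fun t => hH t.1) f hf h0 ?_ ?_ i j z w
    · rw [hc]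
      exact (Finset.card_le_univ B).trans (by simp)
    · rw [hc]; omega
    · rw [hc]; omega
    · intro a b hab
      exact Subtype.ext (Fin.ext hab)
    · intro z
      have h1 := hvan B hB z
      rw [← Finset.sum_coe_sort] at h1
      exact h1
    · intro B' hB' hB'u
      have h1 := (hmin B hB).2 (B'.map (Function.Embedding.subtype _)) (by
        intro t ht
        rw [Finset.mem_map] at ht
        obtain ⟨a, -, rfl⟩ := ht
        exact a.2) (by simpa using hB') (by
        intro h2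
        apply hB'u
        rw [Finset.eq_univ_iff_forall]
        intro a
        have h3 : a.1 ∈ B'.map (Function.Embedding.subtype _) := by
          rw [h2]
          exact a.2
        rw [Finset.mem_map] at h3
        obtain ⟨b, hb, hba⟩ := h3
        have : b = a := Subtype.ext hba
        rwa [← this])
      by_contra hcon2
      push Not at hcon2
      apply h1
      funext z
      rw [Finset.sum_apply, Finset.sum_map]
      exact hcon2 z
  have hunion : (Finset.univ : Finset (Fin L)) ⊆ 𝓑.biUnion id := by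
    intro t _
    obtain ⟨B, hB, ht⟩ := hcov t
    exact Finset.mem_biUnion.2 ⟨B, hB, ht⟩
  have h1 := Finset.card_le_card hunion
  have h2 : (𝓑.biUnion id).card ≤ 𝓑.card * n :=
    Finset.card_biUnion_le_card_mul _ _ _ fun B hB => hcard B hB
  rw [Finset.card_univ, Fintype.card_fin] at h1
  rw [mul_comm]
  omega

/-- the hypersurfaces -/
noncomputable def hyp {K : Type} [Field K] {n L : ℕ} {ι : Type} [Fintype ι]
    (q : ι → MvPolynomial (Fin (n + 1)) K) (D : ℕ) (c : Fin L × ι → K) :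
    MvPolynomial (Fin (n + 1)) K :=
  ∑ t : Fin L, (∑ i, C (c (t, i)) * q i) * lin K n (t : ℕ) ^ D

theorem map_lin {K K' : Type} [Field K] [Field K'] (σ : K →+* K') (n t : ℕ) :
    map σ (lin K n t) = lin K' n t := by
  simp [lin]

theorem map_hyp {K K' : Type} [Field K] [Field K'] (σ : K →+* K') {n L : ℕ} {ι : Type}
    [Fintype ι] (q : ι → MvPolynomial (Fin (n + 1)) K) (D : ℕ) (c : Fin L × ι → K) :
    map σ (hyp q D c) = hyp (fun i => map σ (q i)) D fun p => σ (c p) := by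
  simp [hyp, map_lin]

theorem lin_hom (K : Type) [Field K] (n t : ℕ) : (lin K n t).IsHomogeneous 1 := by
  apply IsHomogeneous.sum
  intro j _
  have h := (isHomogeneous_C (Fin (n + 1)) ((t : K) ^ (j : ℕ))).mul (isHomogeneous_X K j)
  simpa using h

theorem fam_hom {K : Type} [Field K] {n : ℕ} {ι : Type} [Fintype ι]
    {q : ι → MvPolynomial (Fin (n + 1)) K} {e : ℕ} (hq : ∀ i, (q i).IsHomogeneous e)
    (c : ι → K) : (∑ i, C (c i) * q i).IsHomogeneous e := by
  apply IsHomogeneous.sum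
  intro i _
  have h := (isHomogeneous_C (Fin (n + 1)) (c i)).mul (hq i)
  simpa using h

theorem hyp_hom {K : Type} [Field K] {n L : ℕ} {ι : Type} [Fintype ι]
    {q : ι → MvPolynomial (Fin (n + 1)) K} {e : ℕ} (hq : ∀ i, (q i).IsHomogeneous e) (D : ℕ)
    (c : Fin L × ι → K) : (hyp q D c).IsHomogeneous (e + D) := by
  apply IsHomogeneous.sum
  intro t _
  have h := (fam_hom hq fun i => c (t, i)).mul ((lin_hom K n (t : ℕ)).pow D)
  simpa using h

theorem hyp_vanish {K Ω : Type} [Field K] [Field Ω] (σ : K →+* Ω) {n L : ℕ} {ι : Type} [Fintype ι]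
    (q : ι → MvPolynomial (Fin (n + 1)) K) (D : ℕ) (c : Fin L × ι → K) (x : Fin (n + 1) → Ω)
    (h : ∀ i, eval x (map σ (q i)) = 0) : eval x (map σ (hyp q D c)) = 0 := by
  rw [map_hyp, hyp, map_sum]
  apply Finset.sum_eq_zero
  intro t _
  rw [map_mul, map_sum]
  have : ∑ i, eval x (C (σ (c (t, i))) * map σ (q i)) = 0 := by
    apply Finset.sum_eq_zero
    intro i _
    rw [map_mul, h i, mul_zero]
  rw [this, zero_mul]

/-- no singular points over any extension field -/
def Smooth {K : Type} [Field K] {n : ℕ} (F : MvPolynomial (Fin (n + 1)) K) : Prop :=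
  ∀ (Ω : Type) [Field Ω] (σ : K →+* Ω) (x : Fin (n + 1) → Ω), x ≠ 0 →
    ∃ j, eval x (pderiv j (map σ F)) ≠ 0

/-- the main theorem for the zeros of forms of the same degree with large Jacobian rank -/
theorem main_forms (hP : Part_stm) (hS : Size_stm) (hB : Blocks_stm) (hSm : Smooth_stm)
    (n e : ℕ) (hn : 1 ≤ n) : ∃ D₁ : ℕ, ∀ D, D₁ ≤ D → ∀ (K : Type) [Field K] [CharZero K]
      (ι : Type) [Fintype ι] (q : ι → MvPolynomial (Fin (n + 1)) K),
      (∀ i, (q i).IsHomogeneous e) → ∀ r : ℕ,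
      (∀ (Ω : Type) [Field Ω] [Algebra K Ω] (x : Fin (n + 1) → Ω), x ≠ 0 →
        (∀ i, aeval x (q i) = 0) →
        r < (Matrix.of fun (i : ι) (j : Fin (n + 1)) => (aeval x (pderiv j (q i)) : Ω)).rank) →
      (∀ (Ω : Type) [Field Ω] [Algebra K Ω] (x : Fin (n + 1) → Ω) (a : Fin (n + 1)), x a = 1 →
        (∀ i, aeval x (q i) = 0) → Algebra.trdeg K (Algebra.adjoin K (Set.range x)) ≤ r) →
      ∃ c : Fin (n * (2 * n + 1)) × ι → K, Smooth (hyp q D c) ∧
        ∀ (σ : K →+* ℂ) (f : Fin (n + 1) → ℂ → ℂ), (∀ j, Differentiable ℂ (f j)) →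
          (∀ z, ∃ j, f j z ≠ 0) → (∀ z, eval (fun j => f j z) (map σ (hyp q D c)) = 0) →
          (∃ i j z w, f i z * f j w ≠ f j z * f i w) →
          ∀ z i, eval (fun j => f j z) (map σ (q i)) = 0 := by
  classical
  obtain ⟨D₁, hD₁⟩ := curves hP hS n e (n * (2 * n + 1))
  refine ⟨max D₁ 1, fun D hD K _ _ ι _ q hq r hr1 hr2 => ?_⟩
  have hDD : D₁ ≤ D := le_trans (le_max_left _ _) hD
  have hD1 : 1 ≤ D := le_trans (le_max_right _ _) hD
  set L := n * (2 * n + 1) with hL
  have hL2 : 2 * n + 1 ≤ L := Nat.le_mul_of_pos_left _ hn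
  obtain ⟨Δ₁, hΔ₁, hB1⟩ := hB K n L D e ι q hq
  obtain ⟨Δ₂, hΔ₂, hS1⟩ := hSm K n L D e r ι q hq hD1 hL2 hr1 hr2
  obtain ⟨c, hc⟩ : ∃ c : Fin L × ι → K, eval c (Δ₁ * Δ₂) ≠ 0 := by
    by_contra hcon
    push Not at hcon
    exact mul_ne_zero hΔ₁ hΔ₂ (MvPolynomial.funext fun c => by rw [hcon c, map_zero])
  rw [map_mul] at hc
  have hc1 := left_ne_zero_of_mul hc
  have hc2 := right_ne_zero_of_mul hc
  have haev : ∀ (Ω : Type) [Field Ω] (σ : K →+* Ω) (Δ : MvPolynomial (Fin L × ι) K),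
      eval c Δ ≠ 0 → eval₂ σ (fun p => σ (c p)) Δ ≠ 0 := by
    intro Ω _ σ Δ h h2
    apply h
    apply σ.injective
    rw [map_zero, ← h2]
    exact (eval₂_comp (f := σ) (g := c) Δ).trans rfl
  refine ⟨c, ?_, ?_⟩
  · intro Ω _ σ x hx
    letI : Algebra K Ω := σ.toAlgebra
    obtain ⟨j, hj⟩ := hS1 Ω (fun p => σ (c p)) (haev Ω σ Δ₂ hc2) x hx
    refine ⟨j, ?_⟩
    rw [map_hyp]
    exact hj
  · intro σ f hf h0 hF hnc z i
    letI : Algebra K ℂ := σ.toAlgebra
    obtain ⟨𝓑, hne, hdis, hvan, hcard⟩ := hD₁ D hDD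
      (fun t => ∑ i, C (σ (c (t, i))) * map σ (q i))
      (fun t => fam_hom (fun i => (hq i).map σ) _) f hf h0 (by
        intro z
        have h1 := hF z
        rw [map_hyp, hyp, map_sum] at h1
        rw [← h1]
        apply Finset.sum_congr rfl
        intro t _
        rw [map_mul, map_pow]
        rfl) hnc
    have hcard2 : 2 * n + 1 ≤ 𝓑.card := Nat.le_of_mul_le_mul_left hcard hn
    have hx : (fun j => f j z) ≠ (0 : Fin (n + 1) → ℂ) := by
      intro h
      obtain ⟨j, hj⟩ := h0 z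
      exact hj (congrFun h j)
    have key := hB1 ℂ (fun p => σ (c p)) (haev ℂ σ Δ₁ hc1) 𝓑 hne hdis hcard2 (fun j => f j z) hx
      (by
        intro B hBB
        rw [← hvan B hBB z]
        apply Finset.sum_congr rfl
        intro t _
        unfold term
        rw [map_sum]
        congr 1
        · apply Finset.sum_congr rfl
          intro i _
          rw [map_mul, eval_C, eval_map]
          rfl
        · rw [← map_lin σ, eval_map]
          rfl) i
    rw [eval_map]
    exact key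

end Pool.Agent.N254.SQ
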