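import Mathlib
import Pool.Agent.N254.SQ.Main

/-!
The geometric form of the main theorem of project SQ.
-/

set_option autoImplicit false

namespace Pool.Agent.N254.SQ

open MvPolynomial Filter Topology

section ver

variable {n N d : ℕ} {m : Fin (N + 1) → Fin (n + 1) → ℕ} {Ω : Type} [Field Ω]

/-- the exponent vector `(d - 1) e_a + e_j` -/
def near (d : ℕ) (a j : Fin (n + 1)) : Fin (n + 1) → ℕ :=
  fun i => (if i = a then d - 1 else 0) + if i = j then 1 else 0

theorem near_sum (hd : 1 ≤ d) (a j : Fin (n + 1)) : ∑ i, near d a j i = d := by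
  unfold near
  rw [Finset.sum_add_distrib, Finset.sum_ite_eq', Finset.sum_ite_eq']
  simp
  omega

theorem near_prod (a j : Fin (n + 1)) (x : Fin (n + 1) → Ω) :
    ∏ i, x i ^ near d a j i = x a ^ (d - 1) * x j := by
  unfold near
  simp only [pow_add, Finset.prod_mul_distrib]
  congr 1
  · rw [Finset.prod_eq_single a]
    · simp
    · intro b _ hb
      simp [hb]
    · intro h
      exact absurd (Finset.mem_univ _) h
  · rw [Finset.prod_eq_single j]
    · simp
    · intro b _ hb
      simp [hb]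
    · intro h
      exact absurd (Finset.mem_univ _) h

theorem ver_near (hm : Mon n N d m) (hd : 1 ≤ d) (a j : Fin (n + 1)) :
    ∃ b, ∀ x : Fin (n + 1) → Ω, ver m x b = x a ^ (d - 1) * x j := by
  obtain ⟨b, hb⟩ := hm.surj _ (near_sum hd a j)
  refine ⟨b, fun x => ?_⟩
  unfold ver
  rw [hb, near_prod]

theorem ver_smul (hm : Mon n N d m) (c : Ω) (x : Fin (n + 1) → Ω) :
    ver m (c • x) = c ^ d • ver m x := by
  funext b
  unfold ver
  simp only [Pi.smul_apply, smul_eq_mul, mul_pow, Finset.prod_mul_distrib]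
  rw [Finset.prod_pow_eq_pow_sum, hm.deg]

theorem ver_prop (hm : Mon n N d m) (hd : 1 ≤ d) {w x : Fin (n + 1) → Ω} (hw : w ≠ 0) {c : Ω}
    (h : ver m w = c • ver m x) : ∃ c' : Ω, w = c' • x := by
  obtain ⟨a, ha⟩ : ∃ a, w a ≠ 0 := by
    by_contra hcon
    push Not at hcon
    exact hw (funext hcon)
  have key : ∀ j, w a ^ (d - 1) * w j = c * (x a ^ (d - 1) * x j) := by
    intro j
    obtain ⟨b, hb⟩ := ver_near (Ω := Ω) hm hd a j
    have h1 := congrFun h b
    rw [Pi.smul_apply, smul_eq_mul, hb, hb] at h1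
    exact h1
  have h1 := key a
  have h2 : w a ^ (d - 1) * w a ≠ 0 := mul_ne_zero (pow_ne_zero _ ha) ha
  have hxa : x a ≠ 0 := by
    intro h3
    rw [h1, h3, mul_zero, mul_zero] at h2
    exact h2 rfl
  refine ⟨w a / x a, funext fun j => ?_⟩
  rw [Pi.smul_apply, smul_eq_mul]
  have h3 := key j
  have h4 : w a ^ (d - 1) ≠ 0 := pow_ne_zero _ ha
  have h5 : c * x a ^ (d - 1) = w a ^ (d - 1) * w a / x a := by
    rw [h1]
    field_simp
  apply mul_left_cancel₀ h4
  rw [h3, ← mul_assoc, h5]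
  field_simp

theorem ver_ne_zero (hm : Mon n N d m) (hd : 1 ≤ d) {x : Fin (n + 1) → Ω} (hx : x ≠ 0) :
    ver m x ≠ 0 := by
  obtain ⟨a, ha⟩ : ∃ a, x a ≠ 0 := by
    by_contra hcon
    push Not at hcon
    exact hx (funext hcon)
  obtain ⟨b, hb⟩ := ver_near (Ω := Ω) hm hd a a
  intro h
  have h1 := congrFun h b
  rw [hb] at h1
  exact mul_ne_zero (pow_ne_zero _ ha) ha h1

theorem diff_prod {E α : Type} [NormedAddCommGroup E] [NormedSpace ℂ E] (s : Finset α)
    (g : α → E → ℂ) (hg : ∀ a, Differentiable ℂ (g a)) :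
    Differentiable ℂ fun z => ∏ a ∈ s, g a z := by
  classical
  induction s using Finset.induction_on with
  | empty => simpa using differentiable_const (1 : ℂ)
  | insert a s ha ih =>
    simp only [Finset.prod_insert ha]
    exact (hg a).mul ih

theorem ver_diff {E : Type} [NormedAddCommGroup E] [NormedSpace ℂ E] {f : E → Fin (n + 1) → ℂ}
    (hf : Differentiable ℂ f) : Differentiable ℂ fun z => ver m (f z) := by
  rw [differentiable_pi] at hf ⊢
  intro b
  unfold ver
  exact diff_prod _ _ fun j => (hf j).fun_pow _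

end ver

open scoped IntermediateField.algebraAdjoinAdjoin in
theorem trdeg_field {K Ω : Type} [Field K] [Field Ω] [Algebra K Ω] (S : Set Ω) :
    Algebra.trdeg K (IntermediateField.adjoin K S) = Algebra.trdeg K (Algebra.adjoin K S) := by
  have h1 := trdeg_add_eq K (Algebra.adjoin K S) (A := IntermediateField.adjoin K S)
  rw [← h1, trdeg_eq_zero (R := Algebra.adjoin K S), add_zero]

/-- the transcendence degree of a rescaled point -/
theorem td_scale (hT : Td_stm) {K Ω : Type} [Field K] [Field Ω] [Algebra K Ω] {n N : ℕ}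
    (x : Fin (n + 1) → Ω) (a : Fin (n + 1)) (hxa : x a = 1) (y' y : Fin (N + 1) → Ω)
    (hy' : ∀ b, ∃ p : MvPolynomial (Fin (n + 1)) K, y' b = aeval x p) (a' : Fin (N + 1))
    (hy : ∀ c, y c = y' c / y' a') :
    Algebra.trdeg K (Algebra.adjoin K (Set.range y)) ≤ n := by
  have h1 := hT K Ω n N x a y' hxa hy'
  rw [← trdeg_field] at h1
  have hyF : Algebra.adjoin K (Set.range y) ≤
      (IntermediateField.adjoin K (Set.range y')).toSubalgebra := by
    rw [Algebra.adjoin_le_iff]
    rintro _ ⟨c, rfl⟩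
    change y c ∈ IntermediateField.adjoin K (Set.range y')
    rw [hy c]
    exact div_mem (IntermediateField.subset_adjoin K _ ⟨c, rfl⟩)
      (IntermediateField.subset_adjoin K _ ⟨a', rfl⟩)
  have h2 : Algebra.trdeg K (Algebra.adjoin K (Set.range y)) ≤
      Algebra.trdeg K (IntermediateField.adjoin K (Set.range y')) :=
    trdeg_le_of_injective (A' := IntermediateField.adjoin K (Set.range y'))
      (Subalgebra.inclusion hyF) (Subalgebra.inclusion_injective hyF)
  exact h2.trans h1

theorem eval₂_scale {K : Type} [Field K] {n e : ℕ} {R : Type} [CommRing R] (σ : K →+* R)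
    {F : MvPolynomial (Fin (n + 1)) K} (hF : F.IsHomogeneous e) (c : R) (x : Fin (n + 1) → R) :
    eval₂ σ (c • x) F = c ^ e * eval₂ σ x F := by
  rw [eval₂_eq', eval₂_eq', Finset.mul_sum]
  apply Finset.sum_congr rfl
  intro α hα
  have h1 : ∑ j, α j = e := by
    have h2 := hF (mem_support_iff.1 hα)
    rw [Finsupp.weight_apply, Finsupp.sum_fintype _ _ (fun _ => by simp)] at h2
    simpa using h2
  simp only [Pi.smul_apply, smul_eq_mul, mul_pow, Finset.prod_mul_distrib]
  rw [Finset.prod_pow_eq_pow_sum, h1]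
  ring

/-- `∑ t, Q t * (x_0 + t x_1 + … + t ^ N x_N) ^ D` -/
noncomputable def powerSum {K : Type} [Field K] {N L : ℕ} (D : ℕ)
    (Q : Fin L → MvPolynomial (Fin (N + 1)) K) : MvPolynomial (Fin (N + 1)) K :=
  ∑ t : Fin L, Q t * lin K N (t : ℕ) ^ D

/-- the leaves -/
structure Leaves : Prop where
  part : Part_stm
  size : Size_stm
  blocks : Blocks_stm
  smooth : Smooth_stm
  td : Td_stm
  num : Num_stm
  ver : Ver_stm
  lift : Lift_stm

/-- the geometric form of the main theorem; `N`, `m` only depend on `n`, `d` -/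
theorem geo (H : Leaves) : ∃ D₁ : ℕ → ℕ, ∀ (n d : ℕ), 1 ≤ n → 3 ≤ d →
    ∃ (N : ℕ) (m : Fin (N + 1) → Fin (n + 1) → ℕ), Mon n N d m ∧ 2 * n < N ∧
      ∀ D, D₁ N ≤ D → ∀ (K : Type) [Field K] [CharZero K] (κ : Type) [Finite κ]
        (F : κ → MvPolynomial (Fin (n + 1)) K) (g : κ → ℕ), (∀ k, (F k).IsHomogeneous (g k)) →
        (∀ k, g k ≤ d) →
        ∃ Q : Fin (N * (2 * N + 1)) → MvPolynomial (Fin (N + 1)) K,
          (∀ t, (Q t).IsHomogeneous 2) ∧ Smooth (powerSum D Q) ∧
          (∀ (Ω : Type) [Field Ω] (σ : K →+* Ω) (x : Fin (n + 1) → Ω),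
            (∀ k, eval x (map σ (F k)) = 0) → eval (ver m x) (map σ (powerSum D Q)) = 0) ∧
          ∀ (σ : K →+* ℂ) (f : Fin (N + 1) → ℂ → ℂ), (∀ j, Differentiable ℂ (f j)) →
            (∀ z, ∃ j, f j z ≠ 0) → (∀ z, eval (fun j => f j z) (map σ (powerSum D Q)) = 0) →
            (∃ i j z w, f i z * f j w ≠ f j z * f i w) →
            ∀ z, ∃ x : Fin (n + 1) → ℂ, x ≠ 0 ∧ (∀ k, eval x (map σ (F k)) = 0) ∧
              (fun j => f j z) = ver m x := by
  classical
  have hmain := fun (N : ℕ) (hN1 : 1 ≤ N) => main_forms H.part H.size H.blocks H.smooth N 2 hN1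
  refine ⟨fun N => if h : 1 ≤ N then (hmain N h).choose else 0, fun n d hn hd => ?_⟩
  obtain ⟨N, m, hm, hN⟩ := H.num n d hn hd
  refine ⟨N, m, hm, hN, ?_⟩
  have hN1 : 1 ≤ N := by omega
  have hd1 : 1 ≤ d := by omega
  simp only [hN1, dif_pos]
  have hD₁ := (hmain N hN1).choose_spec
  intro D hD K _ _ κ _ F g hF hg
  obtain ⟨ι, _, q, hq2, hqv, hqr⟩ := H.ver K n N d m hm hd1 κ F g hF hg
  obtain ⟨c, hc1, hc2⟩ := hD₁ D hD K ι q hq2 n (by
    intro Ω _ _ x hx hxq
    have h1 := (hqr Ω x hx hxq).1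
    omega) (by
    intro Ω _ _ y a hya hyq
    have hy0 : y ≠ 0 := by
      intro h
      rw [h] at hya
      exact zero_ne_one hya
    obtain ⟨-, x, a', b, hxa, hyb, hyc, -⟩ := hqr Ω y hy0 hyq
    refine td_scale H.td x a' hxa (ver m x) y (fun b => ?_) a (fun c => ?_)
    · refine ⟨∏ j, X j ^ m b j, ?_⟩
      rw [map_prod]
      unfold ver
      apply Finset.prod_congr rfl
      intro j _
      rw [map_pow, aeval_X]
    · have h1 := hyc a
      rw [hya] at h1
      have h2 : ver m x a ≠ 0 := by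
        intro h3
        rw [h3, mul_zero] at h1
        exact one_ne_zero h1
      rw [hyc c]
      rw [eq_div_iff h2]
      linear_combination (-ver m x c) * h1)
  refine ⟨fun t => ∑ i, C (c (t, i)) * q i, fun t => fam_hom hq2 _, hc1, ?_, ?_⟩
  · intro Ω _ σ x hx
    letI : Algebra K Ω := σ.toAlgebra
    refine hyp_vanish σ q D c (ver m x) fun i => ?_
    rw [eval_map]
    refine hqv Ω x (fun k => ?_) i
    have := hx k
    rw [eval_map] at this
    exact this
  · intro σ f hf h0 hF' hnc z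
    letI : Algebra K ℂ := σ.toAlgebra
    have h1 := hc2 σ f hf h0 hF' hnc z
    have hx0 : (fun j => f j z) ≠ (0 : Fin (N + 1) → ℂ) := by
      intro h
      obtain ⟨j, hj⟩ := h0 z
      exact hj (congrFun h j)
    obtain ⟨-, x, a, b, hxa, hyb, hyc, hFx⟩ := hqr ℂ (fun j => f j z) hx0 (fun i => by
      have := h1 i
      rw [eval_map] at this
      exact this)
    obtain ⟨s, hs⟩ := IsAlgClosed.exists_pow_nat_eq (f b z) (n := d) (by omega)
    have hs0 : s ≠ 0 := by
      intro h
      rw [h, zero_pow (by omega)] at hs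
      exact hyb hs.symm
    refine ⟨s • x, ?_, fun k => ?_, ?_⟩
    · intro h
      have h2 := congrFun h a
      rw [Pi.smul_apply, hxa, smul_eq_mul, mul_one] at h2
      exact hs0 h2
    · have h2 : eval (s • x) (map σ (F k)) = s ^ g k * eval x (map σ (F k)) := by
        have h3 := eval₂_scale (RingHom.id ℂ) ((hF k).map σ) s x
        exact h3
      rw [h2, eval_map]
      have := hFx k
      rw [show eval₂ σ x (F k) = aeval x (F k) from rfl, this, mul_zero]
    · rw [ver_smul hm, hs]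
      funext c
      exact hyc c

/-- holomorphic maps from a complex normed space factor through the Veronese variety -/
theorem maps (hL : Lift_stm) {n N d : ℕ} {m : Fin (N + 1) → Fin (n + 1) → ℕ} (hm : Mon n N d m)
    (hd : 1 ≤ d) {κ : Type} (P : κ → MvPolynomial (Fin (n + 1)) ℂ) (g : κ → ℕ)
    (hP : ∀ k, (P k).IsHomogeneous (g k)) (A : MvPolynomial (Fin (N + 1)) ℂ)
    (hA : ∀ f : Fin (N + 1) → ℂ → ℂ, (∀ j, Differentiable ℂ (f j)) →
      (∀ z, ∃ j, f j z ≠ 0) → (∀ z, eval (fun j => f j z) A = 0) →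
      (∃ i j z w, f i z * f j w ≠ f j z * f i w) →
      ∀ z, ∃ x : Fin (n + 1) → ℂ, x ≠ 0 ∧ (∀ k, eval x (P k) = 0) ∧ (fun j => f j z) = ver m x)
    {E : Type} [NormedAddCommGroup E] [NormedSpace ℂ E] (G : E → Fin (N + 1) → ℂ)
    (hG : Differentiable ℂ G) (hG0 : ∀ z, G z ≠ 0) (hGA : ∀ z, eval (G z) A = 0)
    (hnc : ¬ ∀ z w, ∃ c : ℂ, G w = c • G z) :
    ∃ F : E → Fin (n + 1) → ℂ, Differentiable ℂ F ∧ (∀ z, F z ≠ 0) ∧
      (∀ z k, eval (F z) (P k) = 0) ∧ ∀ z, G z = ver m (F z) := by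
  have key : ∀ z, ∃ x : Fin (n + 1) → ℂ, x ≠ 0 ∧ (∀ k, eval x (P k) = 0) ∧ G z = ver m x := by
    intro z
    -- a point with another value
    obtain ⟨w, hw⟩ : ∃ w, ¬ ∃ c : ℂ, G w = c • G z := by
      by_contra hcon
      push Not at hcon
      apply hnc
      intro a b
      obtain ⟨c, hc⟩ := hcon a
      obtain ⟨c', hc'⟩ := hcon b
      have hc0 : c ≠ 0 := by
        intro h
        rw [h, zero_smul] at hc
        exact hG0 a hc
      refine ⟨c' * c⁻¹, ?_⟩
      rw [hc', hc, smul_smul, mul_assoc, inv_mul_cancel₀ hc0, mul_one]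
    have hline : Differentiable ℂ fun s : ℂ => z + s • (w - z) :=
      (differentiable_const z).add (differentiable_id.smul_const (w - z))
    have h1 := hA (fun j s => G (z + s • (w - z)) j)
      (fun j => (differentiable_pi.1 (hG.comp hline)) j) (by
        intro s
        by_contra hcon
        push Not at hcon
        exact hG0 _ (funext hcon)) (fun s => hGA _) (by
        by_contra hcon
        push Not at hcon
        apply hw
        obtain ⟨j0, hj0⟩ : ∃ j, G z j ≠ 0 := by
          by_contra h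
          push Not at h
          exact hG0 z (funext h)
        refine ⟨G w j0 / G z j0, funext fun i => ?_⟩
        have h2 := hcon i j0 1 0
        simp only [one_smul, add_sub_cancel, zero_smul, add_zero] at h2
        rw [Pi.smul_apply, smul_eq_mul, div_mul_eq_mul_div, eq_div_iff hj0, h2]) 0
    simp only [zero_smul, add_zero] at h1
    exact h1
  obtain ⟨F, hF, hGF⟩ := hL n N d m hm hd E G hG fun z => by
    obtain ⟨x, hx, -, hxG⟩ := key z
    exact ⟨x, hx, hxG⟩
  have hF0 : ∀ z, F z ≠ 0 := by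
    intro z h
    apply hG0 z
    rw [hGF z, h]
    funext b
    obtain ⟨j, hj⟩ : ∃ j, m b j ≠ 0 := by
      by_contra hcon
      push Not at hcon
      have := hm.deg b
      rw [Finset.sum_eq_zero fun j _ => hcon j] at this
      omega
    exact Finset.prod_eq_zero (Finset.mem_univ j) (by simp [hj])
  refine ⟨F, hF, hF0, fun z k => ?_, hGF⟩
  obtain ⟨x, hx, hxP, hxG⟩ := key z
  obtain ⟨c, hc⟩ := ver_prop (x := x) (c := 1) hm hd (hF0 z) (by rw [one_smul, ← hGF z, hxG])
  have := eval₂_scale (RingHom.id ℂ) (hP k) c x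
  rw [hc]
  change eval₂ (RingHom.id ℂ) (c • x) (P k) = 0
  rw [this]
  have h3 := hxP k
  change eval₂ (RingHom.id ℂ) x (P k) = 0 at h3
  rw [h3, mul_zero]

end Pool.Agent.N254.SQ
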