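import Mathlib
import Pool.Agent.N254.SQ.Geo

/-!
Reduction of arbitrary sets of equations to finite families, and comparison of the maps from tori and
of the entire curves.
-/

set_option autoImplicit false

namespace Pool.Agent.N254.SQ

open MvPolynomial Filter Topology

/-- finitely many equations suffice -/
theorem reduce {K : Type} [Field K] {n : ℕ} (S : Set (MvPolynomial (Fin (n + 1)) K)) :
    ∃ T : Finset (MvPolynomial (Fin (n + 1)) K), (T : Set _) ⊆ S ∧
      ∀ (Ω : Type) [Field Ω] (σ : K →+* Ω) (x : Fin (n + 1) → Ω),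
        (∀ p ∈ T, eval x (map σ p) = 0) → ∀ p ∈ S, eval x (map σ p) = 0 := by
  obtain ⟨T, hT, hT2⟩ := (Submodule.fg_span_iff_fg_span_finset_subset S).1
    (IsNoetherian.noetherian (Ideal.span S))
  refine ⟨T, hT, fun Ω _ σ x hx p hp => ?_⟩
  have h1 : p ∈ Ideal.span (T : Set (MvPolynomial (Fin (n + 1)) K)) := by
    have : p ∈ Ideal.span S := Ideal.subset_span hp
    rw [Ideal.span, hT2] at this
    exact this
  have h2 : Ideal.span (T : Set (MvPolynomial (Fin (n + 1)) K)) ≤
      RingHom.ker ((eval x).comp (map σ)) := by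
    rw [Ideal.span_le]
    intro q hq
    exact hx q hq
  exact h2 h1

end Pool.Agent.N254.SQ
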