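import Pool.Agent.N254.SQ.StmS
import Pool.Agent.N254.SQ.Red

/-!
Project SQ, FGA: points over finitely generated fields, five lemmas (helper130).
-/

set_option autoImplicit false

namespace Pool.Agent.N254.SQ

open MvPolynomial Metric NumberField
open Pool.Agent.W602.GT (SubVar GeneralType coords)
open scoped LinearAlgebra.Projectivization

theorem fg_idl : ∀ (n : ℕ) (S : Set (MvPolynomial (Fin (n + 1)) ℂ)), Idl (FiniteOffFg S) :=
  fun n S =>
  { zero := fun s => by
      refine Set.finite_empty.subset ?_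
      rintro P ⟨x, hx, -, -, -, h⟩
      exact absurd (map_zero _) h
    add := fun e G G' _ _ h h' s => by
      refine ((h s).union (h' s)).subset ?_
      rintro P ⟨x, hx, h1, h2, h3, h4⟩
      by_cases h5 : eval x G = 0
      · right
        refine ⟨x, hx, h1, h2, h3, fun h6 => h4 ?_⟩
        rw [map_add, h5, h6, add_zero]
      · left
        exact ⟨x, hx, h1, h2, h3, h5⟩
    mul := fun G F _ _ h s => by
      refine (h s).subset ?_
      rintro P ⟨x, hx, h1, h2, h3, h4⟩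
      refine ⟨x, hx, h1, h2, h3, fun h6 => h4 ?_⟩
      rw [map_mul, h6, zero_mul]
    rad := fun G r _ h s => by
      refine (h s).subset ?_
      rintro P ⟨x, hx, h1, h2, h3, h4⟩
      refine ⟨x, hx, h1, h2, h3, ?_⟩
      rw [map_pow]
      exact pow_ne_zero r h4 }

theorem fg_restr : ∀ (n : ℕ) (S : Set (MvPolynomial (Fin (n + 1)) ℂ)) (L : Type) [Field L]
    [Algebra ℂ L] (y : Fin (n + 1) → L) (G H : MvPolynomial (Fin (n + 1)) ℂ), IsForm G → IsForm H →
    (∀ F, IsForm F → aeval y F = 0 → FiniteOffFg S (F * H)) → FiniteOffFg (Eqs y) G →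
    FiniteOffFg S (G * H) := by
  classical
  intro n S L _ _ y G H _ _ hF hG s
  obtain ⟨T, hT, hT2⟩ := reduce (Eqs y)
  have h1 := hG s
  have h2 : (⋃ F ∈ T, {P : ℙ ℂ (Fin (n + 1) → ℂ) |
      ∃ (x : Fin (n + 1) → ℂ) (hx : x ≠ 0), P = Projectivization.mk ℂ x hx ∧
        (∀ j, x j ∈ Subfield.closure (s : Set ℂ)) ∧
        (∀ p ∈ S, eval x p = 0) ∧ eval x (F * H) ≠ 0}).Finite := by
    refine T.finite_toSet.biUnion fun F hFT => ?_
    have h3 := hT hFT
    exact hF F h3.1 h3.2 s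
  refine (h1.union h2).subset ?_
  rintro P ⟨x, hx, hP, hxk, hxS, hne⟩
  rw [map_mul] at hne
  have hG0 := left_ne_zero_of_mul hne
  have hH0 := right_ne_zero_of_mul hne
  by_cases hall : ∀ p ∈ Eqs y, eval x p = 0
  · left
    exact ⟨x, hx, hP, hxk, hall, hG0⟩
  · right
    have h4 : ∃ F ∈ T, eval x F ≠ 0 := by
      by_contra hcon
      push Not at hcon
      apply hall
      intro p hp
      have h5 := hT2 ℂ (RingHom.id ℂ) x (fun q hq => by
        rw [map_id]
        exact hcon q hq) p hp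
      rwa [map_id] at h5
    obtain ⟨F, hFT, hF0⟩ := h4
    rw [Set.mem_iUnion₂]
    refine ⟨F, hFT, x, hx, hP, hxk, hxS, ?_⟩
    rw [map_mul]
    exact mul_ne_zero hF0 hH0

theorem fg_mono : ∀ (n : ℕ) (S T : Set (MvPolynomial (Fin (n + 1)) ℂ)),
    (∀ x : Fin (n + 1) → ℂ, (∀ p ∈ T, eval x p = 0) → ∀ p ∈ S, eval x p = 0) →
    ∀ G, FiniteOffFg S G → FiniteOffFg T G := by
  intro n S T hST G h s
  refine (h s).subset ?_
  rintro P ⟨x, hx, h1, h2, h3, h4⟩
  exact ⟨x, hx, h1, h2, hST x h3, h4⟩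

theorem fg_coord : ∀ (n : ℕ) (S : Set (MvPolynomial (Fin (n + 1)) ℂ))
    (G : MvPolynomial (Fin (n + 1)) ℂ),
    (∀ j, FiniteOffFg S (G * X j)) → FiniteOffFg S G := by
  intro n S G h s
  have h2 : (⋃ j : Fin (n + 1), {P : ℙ ℂ (Fin (n + 1) → ℂ) |
      ∃ (x : Fin (n + 1) → ℂ) (hx : x ≠ 0), P = Projectivization.mk ℂ x hx ∧
        (∀ j, x j ∈ Subfield.closure (s : Set ℂ)) ∧
        (∀ p ∈ S, eval x p = 0) ∧ eval x (G * X j) ≠ 0}).Finite :=
    Set.finite_iUnion fun j => h j s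
  refine h2.subset ?_
  rintro P ⟨x, hx, h1, h3, h4, h5⟩
  obtain ⟨j, hj⟩ : ∃ j, x j ≠ 0 := by
    by_contra hcon
    push Not at hcon
    exact hx (funext hcon)
  rw [Set.mem_iUnion]
  refine ⟨j, x, hx, h1, h3, h4, ?_⟩
  rw [map_mul, eval_X]
  exact mul_ne_zero h5 hj

theorem fg_compPos : ∀ (n : ℕ) (S : Set (MvPolynomial (Fin (n + 1)) ℂ)) (L : Type) [Field L]
    [Algebra ℂ L] (w : ℕ) (y : Fin (n + 1) → L), Gen L w y → Component (FiniteOffFg S) y →
    1 ≤ w := by
  intro n S L _ _ w y hy hcomp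
  by_contra hw
  have hw0 : w = 0 := by omega
  subst hw0
  have h1 := hy.dim
  rw [Nat.cast_zero, trdeg_eq_zero_iff] at h1
  have hsurj : Function.Surjective (algebraMap ℂ L) :=
    (IsAlgClosed.algebraMap_bijective_of_isIntegral (k := ℂ) (K := L)).2
  choose c hc using fun j => hsurj (y j)
  have hc0 : c ≠ 0 := by
    intro h
    apply hy.ne
    funext j
    rw [← hc j, h, Pi.zero_apply, Pi.zero_apply, map_zero]
  obtain ⟨a, ha⟩ : ∃ a, c a ≠ 0 := by
    by_contra hcon
    push Not at hcon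
    exact hc0 (funext hcon)
  have hform : ∀ i j, (C (c i) * X j - C (c j) * X i : MvPolynomial (Fin (n + 1)) ℂ) ∈ Eqs y := by
    intro i j
    refine ⟨⟨1, ?_⟩, ?_⟩
    · have h2 : ∀ i j, (C (c i) * X j : MvPolynomial (Fin (n + 1)) ℂ).IsHomogeneous 1 := by
        intro i j
        have := (isHomogeneous_C (Fin (n + 1)) (c i)).mul (isHomogeneous_X ℂ j)
        rwa [zero_add] at this
      exact (h2 i j).sub (h2 j i)
    · rw [map_sub, map_mul, map_mul, aeval_X, aeval_X, aeval_C, aeval_C, hc, hc]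
      ring
  have hfin : FiniteOffFg (Eqs y) 1 := by
    intro s
    refine (Set.finite_singleton (Projectivization.mk ℂ c hc0)).subset ?_
    rintro P ⟨x, hx, rfl, -, h4, -⟩
    rw [Set.mem_singleton_iff, Projectivization.mk_eq_mk_iff']
    refine ⟨x a / c a, ?_⟩
    funext j
    have h5 := h4 _ (hform a j)
    rw [map_sub, map_mul, map_mul, eval_X, eval_X, eval_C, eval_C, sub_eq_zero] at h5
    rw [Pi.smul_apply, smul_eq_mul]
    field_simp
    rw [h5]
    ring
  obtain ⟨hA, H, hH, hHy, hB⟩ := hcomp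
  have h6 := fg_restr n S L y 1 H ⟨0, isHomogeneous_one _ _⟩ hH hB hfin
  rw [one_mul] at h6
  exact hHy (hA H hH h6)

end Pool.Agent.N254.SQ
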