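import Pool.Agent.N254.SQ.StmS
import Pool.Agent.N254.SQ.Ver

/-!
Project SQ, sixth part: points over finitely generated fields and the Veronese map
(helper394, for helper254).
-/

set_option autoImplicit false

namespace Pool.Agent.N254.SQ

open MvPolynomial
open scoped LinearAlgebra.Projectivization

/-- the map of the projective spaces -/
noncomputable def fgb_map {n N d : ℕ} {m : Fin (N + 1) → Fin (n + 1) → ℕ} (hm : Mon n N d m)
    (hd : 1 ≤ d) (P : ℙ ℂ (Fin (n + 1) → ℂ)) : ℙ ℂ (Fin (N + 1) → ℂ) :=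
  Projectivization.mk ℂ (ver m P.rep) (ver_ne_zero hm hd P.rep_nonzero)

theorem fgb_inj {n N d : ℕ} {m : Fin (N + 1) → Fin (n + 1) → ℕ} (hm : Mon n N d m) (hd : 1 ≤ d) :
    Function.Injective (fgb_map hm hd) := by
  intro P P' hP
  obtain ⟨a, ha⟩ := (Projectivization.mk_eq_mk_iff ℂ _ _ _ _).1 hP
  obtain ⟨c, hc⟩ := ver_prop (c := (a : ℂ)) hm hd P.rep_nonzero ha.symm
  have hc0 : c ≠ 0 := by
    intro h0
    rw [h0, zero_smul] at hc
    exact P.rep_nonzero hc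
  rw [← P.mk_rep, ← P'.mk_rep, Projectivization.mk_eq_mk_iff]
  exact ⟨Units.mk0 c hc0, hc.symm⟩

theorem fgb_mk {n N d : ℕ} {m : Fin (N + 1) → Fin (n + 1) → ℕ} (hm : Mon n N d m) (hd : 1 ≤ d)
    {x : Fin (n + 1) → ℂ} (hx : x ≠ 0) : fgb_map hm hd (Projectivization.mk ℂ x hx) =
      Projectivization.mk ℂ (ver m x) (ver_ne_zero hm hd hx) := by
  obtain ⟨a, ha⟩ := Projectivization.exists_smul_eq_mk_rep ℂ x hx
  have h1 : (Projectivization.mk ℂ x hx).rep = (a : ℂ) • x := ha.symm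
  unfold fgb_map
  rw [Projectivization.mk_eq_mk_iff]
  refine ⟨a ^ d, ?_⟩
  rw [h1, ver_smul hm]
  rw [Units.smul_def, Units.val_pow_eq_pow_val]

theorem fg_pullback : ∀ (n N d : ℕ) (m : Fin (N + 1) → Fin (n + 1) → ℕ)
    (S : Set (MvPolynomial (Fin (n + 1)) ℂ)) (A : MvPolynomial (Fin (N + 1)) ℂ),
    Good n N d m S A → ∀ G, IsForm G → FiniteOffFg {A} G → FiniteOffFg S (pull m G) := by
  intro n N d m S A hg G _ hG s
  apply Set.Finite.of_finite_image (f := fgb_map hg.mon hg.deg) ((hG s).subset ?_)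
    (fgb_inj hg.mon hg.deg).injOn
  rintro _ ⟨P, ⟨x, hx, hPx, hxL, hxS, hxG⟩, rfl⟩
  refine ⟨ver m x, ver_ne_zero hg.mon hg.deg hx, ?_, ?_, ?_, ?_⟩
  · rw [hPx]
    exact fgb_mk hg.mon hg.deg hx
  · intro j
    exact prod_mem fun s _ => pow_mem (hxL s) _
  · intro p hp
    rw [Set.mem_singleton_iff] at hp
    rw [hp]
    exact hg.sub ℂ x hxS
  · rw [← eval_pull]
    exact hxG

theorem fg_pushout : ∀ (n N d : ℕ) (m : Fin (N + 1) → Fin (n + 1) → ℕ)
    (S : Set (MvPolynomial (Fin (n + 1)) ℂ)) (A : MvPolynomial (Fin (N + 1)) ℂ),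
    Good n N d m S A → (∀ p ∈ S, ∃ e ≤ d, p.IsHomogeneous e) → ∀ G, IsForm G →
    FiniteOffFg S (pull m G) →
    (∀ F, IsForm F → (∀ x : Fin (n + 1) → ℂ, (∀ p ∈ S, eval x p = 0) → eval (ver m x) F = 0) →
      FiniteOffFg {A} F) → FiniteOffFg {A} G := by
  classical
  intro n N d m S A hg hS G hGf hG hF s
  obtain ⟨T, hT, hTS⟩ := reduce S
  have hT2 : ∀ p : T, ∃ e ≤ d, (p : MvPolynomial (Fin (n + 1)) ℂ).IsHomogeneous e :=
    fun p => hS _ (hT p.2)
  choose e he hp using hT2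
  obtain ⟨ι, _, q, hq, hq1, hq2⟩ := t_ver ℂ n N d m hg.mon hg.deg T
    (fun p => (p : MvPolynomial (Fin (n + 1)) ℂ)) e hp he
  have hfin := fun i => hF (q i) ⟨2, hq i⟩ (fun x hx => hq1 ℂ x (fun k => hx _ (hT k.2)) i) s
  refine ((Set.finite_iUnion hfin).union ((hG s).image (fgb_map hg.mon hg.deg))).subset ?_
  rintro P ⟨y, hy, hPy, hyL, hyA, hyG⟩
  by_cases hqy : ∀ i, eval y (q i) = 0
  · right
    obtain ⟨-, x, a, b, hxa, hyb, hyx, hxT⟩ := hq2 ℂ y hy hqy
    have hyv : y = y b • ver m x := funext fun c => by rw [Pi.smul_apply, smul_eq_mul]; exact hyx c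
    have hx0 : x ≠ 0 := by
      intro h0
      rw [h0] at hxa
      exact zero_ne_one hxa
    have hxL : ∀ j, x j ∈ Subfield.closure (s : Set ℂ) := by
      intro j
      obtain ⟨c, hc⟩ := ver_near (Ω := ℂ) hg.mon hg.deg a j
      have h1 := hyx c
      rw [hc x, hxa, one_pow, one_mul] at h1
      have h2 : x j = y c / y b := by
        rw [h1, mul_div_cancel_left₀ _ hyb]
      rw [h2]
      exact div_mem (hyL c) (hyL b)
    have hxS : ∀ p ∈ S, eval x p = 0 := by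
      intro p hp
      have h1 := hTS ℂ (RingHom.id ℂ) x (fun p hp => by
        rw [map_id]
        exact hxT ⟨p, hp⟩) p hp
      rwa [map_id] at h1
    refine ⟨Projectivization.mk ℂ x hx0, ⟨x, hx0, rfl, hxL, hxS, ?_⟩, ?_⟩
    · rw [eval_pull]
      intro h0
      apply hyG
      obtain ⟨e', he'⟩ := hGf
      rw [hyv, eval_scale he', h0, mul_zero]
    · rw [fgb_mk, hPy]
      symm
      rw [Projectivization.mk_eq_mk_iff]
      exact ⟨Units.mk0 (y b) hyb, hyv.symm⟩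
  · left
    push Not at hqy
    obtain ⟨i, hi⟩ := hqy
    exact Set.mem_iUnion.2 ⟨i, y, hy, hPy, hyL, hyA, hi⟩

end Pool.Agent.N254.SQ
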