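import Pool.Agent.N254.SQ.StmP

/-!
Project SQ, third part: the filter for a sum of characteristics (helper773).
-/

set_option autoImplicit false

namespace Pool.Agent.N254.SQ

open MeasureTheory Set Filter Topology Asymptotics ValueDistribution Metric
open Pool.Agent.N131.SR (Big NZ exists_big)

theorem t_filt : Filt_stm := by
  intro N H hH
  set τ : ℝ → ℝ := fun r => ∑ i, characteristic (H i) ⊤ r with hτ
  have hmono : ∀ r r' : ℝ, 1 ≤ r → r ≤ r' → τ r ≤ τ r' := by
    intro r r' hr hrr
    refine Finset.sum_le_sum fun i _ => ?_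
    exact characteristic_monotoneOn (hH i) (mem_Ioi.2 (by linarith)) (mem_Ioi.2 (by linarith)) hrr
  set P : ℕ → ℝ → Prop := fun k r => (k : ℝ) * |Real.log r| ≤ τ r with hP
  have hPm : ∀ n m r, n ≤ m → P m r → P n r := by
    intro n m r hnm h
    have h1 : (n : ℝ) ≤ m := by exact_mod_cast hnm
    exact (mul_le_mul_of_nonneg_right h1 (abs_nonneg _)).trans h
  by_cases hcase : ∀ n, volume {r | 1 ≤ r ∧ P n r} = ⊤
  · right
    obtain ⟨L, hL, hLP⟩ := exists_big hPm hcase
    refine ⟨L, hL, ?_⟩
    rw [isLittleO_iff_nat_mul_le]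
    intro n
    filter_upwards [hLP n] with r hr
    rw [Real.norm_eq_abs, Real.norm_eq_abs]
    exact hr.trans (le_abs_self _)
  · left
    push Not at hcase
    obtain ⟨k, hk⟩ := hcase
    set E : Set ℝ := {r | 1 ≤ r ∧ P k r} with hE
    set V : ℝ := (volume E).toReal with hV
    have hV0 : 0 ≤ V := ENNReal.toReal_nonneg
    have hout : ∀ r : ℝ, 1 ≤ r → ∃ r' : ℝ, r ≤ r' ∧ r' ≤ r + V + 1 ∧ r' ∉ E := by
      intro r _
      by_contra hcon
      push Not at hcon
      have h1 : Icc r (r + V + 1) ⊆ E := fun x hx => hcon x hx.1 hx.2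
      have h2 := measure_mono (μ := volume) h1
      rw [Real.volume_Icc] at h2
      have h3 : volume E = ENNReal.ofReal V := (ENNReal.ofReal_toReal hk).symm
      rw [h3] at h2
      have h4 := (ENNReal.ofReal_le_ofReal_iff hV0).1 h2
      linarith
    have hlV : 0 ≤ Real.log (V + 2) := Real.log_nonneg (by linarith)
    refine ⟨k * (1 + Real.log (V + 2)), fun r hr => ?_⟩
    obtain ⟨r', h1, h2, h3⟩ := hout r hr
    have hr' : 1 ≤ r' := hr.trans h1
    have h4 : τ r' < k * Real.log r' := by
      have h5 : ¬ P k r' := fun h => h3 ⟨hr', h⟩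
      have h6 : ¬ (k : ℝ) * |Real.log r'| ≤ τ r' := h5
      rw [abs_of_nonneg (Real.log_nonneg hr'), not_le] at h6
      exact h6
    have hlr : 0 ≤ Real.log r := Real.log_nonneg hr
    have h7 : Real.log r' ≤ Real.log r + Real.log (V + 2) := by
      rw [← Real.log_mul (by linarith) (by linarith)]
      apply Real.log_le_log (by linarith)
      nlinarith
    have hk0 : (0 : ℝ) ≤ k := Nat.cast_nonneg k
    calc τ r ≤ τ r' := hmono r r' hr h1
      _ ≤ k * Real.log r' := h4.le
      _ ≤ k * (Real.log r + Real.log (V + 2)) := mul_le_mul_of_nonneg_left h7 hk0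
      _ ≤ k * ((1 + Real.log (V + 2)) * (1 + Real.log r)) := by
          apply mul_le_mul_of_nonneg_left _ hk0
          nlinarith [mul_nonneg hlV hlr]
      _ = _ := by ring

end Pool.Agent.N254.SQ
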