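import Pool.Agent.N254.SQ.Stm

/-!
Project SQ, leaf FORM: ratios of forms along a curve.
-/

set_option autoImplicit false

namespace Pool.Agent.N254.SQ

open MeasureTheory Set Filter Topology Metric Real ValueDistribution MeromorphicOn Function

theorem form_bd {n e : ℕ} {G : MvPolynomial (Fin (n + 1)) ℂ} (hG : G.IsHomogeneous e) :
    ∃ C : ℝ, 0 ≤ C ∧ ∀ x : Fin (n + 1) → ℂ, ‖MvPolynomial.eval x G‖ ≤ C * ‖x‖ ^ e := by
  refine ⟨∑ m ∈ G.support, ‖G.coeff m‖, by positivity, fun x => ?_⟩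
  rw [MvPolynomial.eval_eq', Finset.sum_mul]
  refine (norm_sum_le _ _).trans (Finset.sum_le_sum fun m hm => ?_)
  rw [norm_mul, norm_prod]
  refine mul_le_mul_of_nonneg_left ?_ (norm_nonneg _)
  have h1 : ∑ i, m i = e := by
    have h2 : Finsupp.weight (1 : Fin (n + 1) → ℕ) m = e := hG (MvPolynomial.mem_support_iff.1 hm)
    have h3 : m.degree = e := by
      rw [Finsupp.degree_eq_weight_one]
      exact h2
    rwa [Finsupp.degree_eq_sum] at h3
  calc ∏ i, ‖x i ^ m i‖ ≤ ∏ i, ‖x‖ ^ m i :=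
        Finset.prod_le_prod (fun i _ => norm_nonneg _) fun i _ => by
          rw [norm_pow]
          exact pow_le_pow_left₀ (norm_nonneg _) (norm_le_pi_norm x i) _
    _ = ‖x‖ ^ e := by rw [Finset.prod_pow_eq_pow_sum, h1]

/-- the auxiliary curve -/
noncomputable def formCurve {n : ℕ} (f : Fin (n + 1) → ℂ → ℂ) (e : ℕ)
    (G₁ G₂ : MvPolynomial (Fin (n + 1)) ℂ) : Fin (n + 2 + 1) → ℂ → ℂ :=
  Fin.cons (fun z => MvPolynomial.eval (fun j => f j z) G₁)
    (Fin.cons (fun z => MvPolynomial.eval (fun j => f j z) G₂) fun j z => f j z ^ e)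

/-- the counting function of the zeros of a coordinate -/
theorem form_cnt {N : ℕ} {f : Fin (N + 1) → ℂ → ℂ} (hf : ∀ j, Differentiable ℂ (f j))
    (h0 : ∀ z, ∃ j, f j z ≠ 0) (l : Fin (N + 1)) (hl : ∃ z, f l z ≠ 0) : ∃ C : ℝ, ∀ r, 1 ≤ r →
    ValueDistribution.logCounting (f l) 0 r ≤ Tf f r + C := by
  have hml := f_mero hf l
  have hne := diff_ne (hf l) hl
  refine ⟨-log ‖meromorphicTrailingCoeffAt (f l) 0‖, fun r hr => ?_⟩
  have hr0 : r ≠ 0 := by positivity
  have hav := f_avg hf (l := l) hr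
  have hm : circleAverage (fun z => Real.log ‖f l z‖) 0 r ≤ Tf f r := by
    have h1 : CircleIntegrable (fun z => Real.log ‖f l z‖) 0 r :=
      hml.meromorphicOn.circleIntegrable_log_norm
    unfold Tf
    apply Pool.Agent.Helper160.Nev.circleAverage_mono_codiscrete hr0
    · exact h1
    · exact curve_int hf h0 r
    · have h2 : ∀ᶠ z in codiscreteWithin (sphere (0 : ℂ) |r|), f l z ≠ 0 :=
        hne.filter_mono (codiscreteWithin_mono (subset_univ _))
      filter_upwards [h2] with z hz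
      exact Real.log_le_log (norm_pos_iff.2 hz)
        (norm_le_pi_norm (fun j => f j z : Fin (N + 1) → ℂ) l)
  linarith

theorem t_form : Form_stm := by
  intro n f hf h0 e G₁ G₂ hG₁ hG₂ hz
  set g := formCurve f e G₁ G₂ with hg
  have hgd : ∀ j, Differentiable ℂ (g j) := by
    intro j
    refine Fin.cases ?_ (fun i => ?_) j
    · exact form_diff hf G₁
    · refine Fin.cases ?_ (fun k => ?_) i
      · exact form_diff hf G₂
      · exact (hf k).pow e
  have hg0 : ∀ z, ∃ j, g j z ≠ 0 := by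
    intro z
    obtain ⟨j, hj⟩ := h0 z
    exact ⟨j.succ.succ, pow_ne_zero e hj⟩
  obtain ⟨C₁, hC₁, hb₁⟩ := form_bd hG₁
  obtain ⟨C₂, hC₂, hb₂⟩ := form_bd hG₂
  -- the pointwise bound
  have hpt : ∀ z, ‖(fun j => g j z : Fin (n + 2 + 1) → ℂ)‖ ≤
      (1 + C₁ + C₂) * ‖(fun j => f j z : Fin (n + 1) → ℂ)‖ ^ e := by
    intro z
    have hp : 0 ≤ ‖(fun j => f j z : Fin (n + 1) → ℂ)‖ ^ e := by positivity
    rw [pi_norm_le_iff_of_nonneg (by positivity)]
    intro j
    refine Fin.cases ?_ (fun i => ?_) j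
    · refine (hb₁ fun j => f j z).trans ?_
      nlinarith
    · refine Fin.cases ?_ (fun k => ?_) i
      · refine (hb₂ fun j => f j z).trans ?_
        nlinarith
      · change ‖f k z ^ e‖ ≤ _
        rw [norm_pow]
        have h1 : ‖f k z‖ ^ e ≤ ‖(fun j => f j z : Fin (n + 1) → ℂ)‖ ^ e :=
          pow_le_pow_left₀ (norm_nonneg _)
            (norm_le_pi_norm (fun j => f j z : Fin (n + 1) → ℂ) k) _
        nlinarith
  have hT : ∀ r, Tf g r ≤ e * Tf f r + Real.log (1 + C₁ + C₂) := by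
    intro r
    have hi := curve_int hf h0 r
    have hie : CircleIntegrable (fun z => (e : ℝ) * Real.log ‖fun j => f j z‖) 0 r :=
      hi.const_mul (e : ℝ)
    have h1 : CircleIntegrable (fun z => (e : ℝ) * Real.log ‖fun j => f j z‖ +
        Real.log (1 + C₁ + C₂)) 0 r :=
      hie.add (circleIntegrable_const (Real.log (1 + C₁ + C₂)) 0 r)
    have h2 : circleAverage (fun z => (e : ℝ) * Real.log ‖fun j => f j z‖ +
        Real.log (1 + C₁ + C₂)) 0 r = e * Tf f r + Real.log (1 + C₁ + C₂) := by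
      rw [circleAverage_fun_add hie
        (circleIntegrable_const (Real.log (1 + C₁ + C₂)) 0 r), circleAverage_const]
      congr 1
      exact circleAverage_fun_smul (a := (e : ℝ)) (f := fun z => Real.log ‖fun j => f j z‖)
        (c := 0) (R := r)
    rw [← h2]
    unfold Tf
    apply circleAverage_mono (curve_int hgd hg0 r) h1
    intro z _
    have h3 := Real.log_le_log (curve_pos hg0 z) (hpt z)
    rw [Real.log_mul (by positivity) (pow_pos (curve_pos h0 z) e).ne', Real.log_pow] at h3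
    linarith
  obtain ⟨A, hA⟩ := ratio_le hgd hg0 0 1 hz
  obtain ⟨B, hB⟩ := form_cnt hgd hg0 1 hz
  refine ⟨max A B + Real.log (1 + C₁ + C₂), fun r hr => ⟨?_, ?_⟩⟩
  · have h1 := hA r hr
    have h2 := hT r
    have h3 := le_max_left A B
    change characteristic (fun z => g 0 z / g 1 z) ⊤ r ≤ _
    linarith
  · have h1 := hB r hr
    have h2 := hT r
    have h3 := le_max_right A B
    change ValueDistribution.logCounting (g 1) 0 r ≤ _
    linarith

end Pool.Agent.N254.SQ

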