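import Mathlib
import Pool.Agent.N254.SQ.Stm

/-!
Project SQ (helper254), leaf LEDET: characteristics of determinants of logarithmic derivatives.
-/

set_option autoImplicit false

namespace Pool.Agent.N254.SQ

open Filter Topology Asymptotics ValueDistribution
open Pool.Agent.N131.SR (Big NZ)

namespace LeDet

variable {L : Filter ℝ} {τ : ℝ → ℝ}

theorem le_ot (H : Cmp L τ) {C : ℝ} {a : ℂ → ℂ} (h : Le L τ C a) : OT L τ a := by
  obtain ⟨ha, s, hs, hb⟩ := h
  refine ⟨ha, O_of_ev (t := fun r => C * τ r + s r) ?_ ?_⟩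
  · filter_upwards [hb, H.ge] with r h1 h2
    exact ⟨char_nonneg a h2, h1⟩
  · exact ((isBigO_refl τ L).const_mul_left C).add hs.isBigO

theorem le_const (H : Cmp L τ) (c : ℂ) : Le L τ 0 (fun _ => c) := by
  refine ⟨Meromorphic.const c, fun _ => Real.posLog ‖c‖, H.const _, Eventually.of_forall fun r => ?_⟩
  rw [char_const c r, zero_mul, zero_add]

theorem le_mul (H : Cmp L τ) {C C' : ℝ} {a b : ℂ → ℂ} (ha : Le L τ C a) (hb : Le L τ C' b) :
    Le L τ (C + C') fun z => a z * b z := by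
  obtain ⟨h1, s, hs, h2⟩ := ha
  obtain ⟨h3, t, ht, h4⟩ := hb
  refine ⟨h1.mul h3, fun r => s r + t r, hs.add ht, ?_⟩
  filter_upwards [h2, h4, H.ge] with r h5 h6 h7
  have := char_mul h1 h3 h7
  linarith

theorem le_add (H : Cmp L τ) {C C' : ℝ} {a b : ℂ → ℂ} (ha : Le L τ C a) (hb : Le L τ C' b) :
    Le L τ (C + C') fun z => a z + b z := by
  obtain ⟨h1, s, hs, h2⟩ := ha
  obtain ⟨h3, t, ht, h4⟩ := hb
  refine ⟨h1.add h3, fun r => s r + t r + Real.log 2, (hs.add ht).add (H.const _), ?_⟩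
  filter_upwards [h2, h4, H.ge] with r h5 h6 h7
  have := char_add h1 h3 h7
  linarith

theorem le_deriv (H : Cmp L τ) {C : ℝ} {a : ℂ → ℂ} (ha : Le L τ C a) :
    Le L τ (2 * C) (deriv a) := by
  have h0 := ld_o H (le_ot H ha)
  obtain ⟨h1, s, hs, h2⟩ := ha
  refine ⟨h1.deriv, fun r => 2 * s r + proximity (logDeriv a) ⊤ r,
    (hs.const_mul_left 2).add h0, ?_⟩
  filter_upwards [h2, H.ge] with r h5 h7
  have := char_deriv h1 h7
  linarith

theorem le_sum (H : Cmp L τ) {ι : Type*} (S : Finset ι) (C : ι → ℝ) (a : ι → ℂ → ℂ)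
    (h : ∀ i ∈ S, Le L τ (C i) (a i)) :
    Le L τ (∑ i ∈ S, C i) fun z => ∑ i ∈ S, a i z := by
  classical
  induction S using Finset.induction_on with
  | empty =>
    simp only [Finset.sum_empty]
    exact le_const H 0
  | insert i S hi ih =>
    simp only [Finset.sum_insert hi]
    exact le_add H (h i (Finset.mem_insert_self i S))
      (ih fun j hj => h j (Finset.mem_insert_of_mem hj))

theorem le_prod (H : Cmp L τ) {ι : Type*} (S : Finset ι) (C : ι → ℝ) (a : ι → ℂ → ℂ)
    (h : ∀ i ∈ S, Le L τ (C i) (a i)) :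
    Le L τ (∑ i ∈ S, C i) fun z => ∏ i ∈ S, a i z := by
  classical
  induction S using Finset.induction_on with
  | empty =>
    simp only [Finset.sum_empty, Finset.prod_empty]
    exact le_const H 1
  | insert i S hi ih =>
    simp only [Finset.sum_insert hi, Finset.prod_insert hi]
    exact le_mul H (h i (Finset.mem_insert_self i S))
      (ih fun j hj => h j (Finset.mem_insert_of_mem hj))

/-- the constants -/
noncomputable def cst : ℕ → ℝ
  | 0 => 0
  | k + 1 => 3 * cst k + 1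

theorem cst_nonneg (k : ℕ) : 0 ≤ cst k := by
  induction k with
  | zero => exact le_rfl
  | succ k ih =>
    have : cst (k + 1) = 3 * cst k + 1 := rfl
    linarith

theorem le_pp (H : Cmp L τ) {κ : ℝ} {φ : ℂ → ℂ} (h : Le L τ κ φ) (k : ℕ) :
    Le L τ (cst k * κ) (pp φ k) := by
  induction k with
  | zero =>
    have e : cst 0 * κ = 0 := by
      change (0 : ℝ) * κ = 0
      exact zero_mul κ
    rw [e]
    exact le_const H 1
  | succ k ih =>
    have e : cst (k + 1) * κ = 2 * (cst k * κ) + (κ + cst k * κ) := by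
      change (3 * cst k + 1) * κ = _
      ring
    rw [e]
    exact le_add H (le_deriv H ih) (le_mul H h ih)

end LeDet

open LeDet in
theorem t_ledet : LeDet_stm := by
  intro m
  refine ⟨∑ _σ : Equiv.Perm (Fin m), (0 + ∑ i : Fin m, cst i), ?_, ?_⟩
  · exact Finset.sum_nonneg fun σ _ => add_nonneg le_rfl (Finset.sum_nonneg fun i _ => cst_nonneg i)
  intro L τ H _ κ _ φ hφ
  have key : Le L τ (∑ _σ : Equiv.Perm (Fin m), (0 + ∑ i : Fin m, cst i * κ)) fun z =>
      ∑ σ : Equiv.Perm (Fin m), ((Equiv.Perm.sign σ : ℤ) : ℂ) * ∏ i, pp (φ (σ i)) i z := by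
    apply le_sum H
    intro σ _
    apply le_mul H (le_const H _)
    apply le_prod H
    intro i _
    exact le_pp H (hφ (σ i)) i
  have e1 : (∑ _σ : Equiv.Perm (Fin m), (0 + ∑ i : Fin m, cst i)) * κ =
      ∑ _σ : Equiv.Perm (Fin m), (0 + ∑ i : Fin m, cst i * κ) := by
    rw [Finset.sum_mul]
    apply Finset.sum_congr rfl
    intro σ _
    rw [zero_add, zero_add, Finset.sum_mul]
  rw [e1]
  have e2 : (fun z => (Matrix.of fun i k : Fin m => pp (φ i) k z).det) = fun z =>
      ∑ σ : Equiv.Perm (Fin m), ((Equiv.Perm.sign σ : ℤ) : ℂ) * ∏ i, pp (φ (σ i)) i z := by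
    funext z
    rw [Matrix.det_apply']
    rfl
  rw [e2]
  exact key

end Pool.Agent.N254.SQ
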