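import Pool.Agent.N254.SQ.Stm

/-!
# Project SQ: lifting of holomorphic maps to the cone over a Veronese variety
-/

set_option autoImplicit false

namespace Pool.Agent.N254.SQ

open Filter Topology

theorem lift_prod_single {n : ℕ} {R : Type} [CommMonoid R] (x : Fin (n + 1) → R) (a : Fin (n + 1))
    (k : ℕ) : ∏ i, x i ^ (Pi.single a k : Fin (n + 1) → ℕ) i = x a ^ k := by
  rw [Finset.prod_eq_single a]
  · simp
  · intro i _ hi
    simp [Pi.single_eq_of_ne hi]
  · intro h
    exact absurd (Finset.mem_univ a) h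

theorem lift_idx1 {n N d : ℕ} {m : Fin (N + 1) → Fin (n + 1) → ℕ} (hm : Mon n N d m)
    (a : Fin (n + 1)) : ∃ b, ∀ (R : Type) [CommMonoid R] (x : Fin (n + 1) → R),
      ver m x b = x a ^ d := by
  obtain ⟨b, hb⟩ := hm.surj (Pi.single a d) (by simp)
  refine ⟨b, fun R _ x => ?_⟩
  unfold ver
  rw [hb, lift_prod_single]

theorem lift_idx2 {n N d : ℕ} {m : Fin (N + 1) → Fin (n + 1) → ℕ} (hm : Mon n N d m) (hd : 1 ≤ d)
    (a j : Fin (n + 1)) : ∃ b, ∀ (R : Type) [CommMonoid R] (x : Fin (n + 1) → R),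
      ver m x b = x a ^ (d - 1) * x j := by
  obtain ⟨b, hb⟩ := hm.surj (Pi.single a (d - 1) + Pi.single j 1) (by
    simp [Finset.sum_add_distrib]
    omega)
  refine ⟨b, fun R _ x => ?_⟩
  unfold ver
  rw [hb]
  simp only [Pi.add_apply, pow_add, Finset.prod_mul_distrib]
  rw [lift_prod_single, lift_prod_single, pow_one]

theorem lift_ver_smul {n N d : ℕ} {m : Fin (N + 1) → Fin (n + 1) → ℕ} (hm : Mon n N d m)
    (c : ℂ) (x : Fin (n + 1) → ℂ) (b : Fin (N + 1)) : ver m (c • x) b = c ^ d * ver m x b := by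
  unfold ver
  simp only [Pi.smul_apply, smul_eq_mul, mul_pow, Finset.prod_mul_distrib]
  rw [Finset.prod_pow_eq_pow_sum, hm.deg]

theorem lift_ver_zero {n N d : ℕ} {m : Fin (N + 1) → Fin (n + 1) → ℕ} (hm : Mon n N d m)
    (hd : 1 ≤ d) : ver m (0 : Fin (n + 1) → ℂ) = 0 := by
  funext b
  have h := lift_ver_smul hm 0 0 b
  rw [zero_smul, zero_pow (by omega), zero_mul] at h
  exact h

theorem lift_ver_eq_zero {n N d : ℕ} {m : Fin (N + 1) → Fin (n + 1) → ℕ} (hm : Mon n N d m)
    (hd : 1 ≤ d) (x : Fin (n + 1) → ℂ) (h : ver m x = 0) : x = 0 := by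
  funext a
  obtain ⟨b, hb⟩ := lift_idx1 hm a
  have h1 := hb ℂ x
  rw [h] at h1
  exact pow_eq_zero_iff (by omega) |>.1 h1.symm

/-- the fibres are orbits -/
theorem lift_orbit {n N d : ℕ} {m : Fin (N + 1) → Fin (n + 1) → ℕ} (hm : Mon n N d m)
    (hd : 1 ≤ d) (x x' : Fin (n + 1) → ℂ) :
    ver m x = ver m x' ↔ x ∈ MulAction.orbit (rootsOfUnity d ℂ) x' := by
  constructor
  · intro h
    by_cases hx' : x' = 0
    · rw [hx', lift_ver_zero hm hd] at h
      rw [hx', lift_ver_eq_zero hm hd x h]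
      exact MulAction.mem_orbit_self _
    · obtain ⟨a, ha⟩ : ∃ a, x' a ≠ 0 := by
        by_contra hcon
        push Not at hcon
        exact hx' (funext hcon)
      obtain ⟨b, hb⟩ := lift_idx1 hm a
      have h1 : x a ^ d = x' a ^ d := by rw [← hb, ← hb, h]
      have hxa : x a ≠ 0 := by
        intro h0
        rw [h0, zero_pow (by omega)] at h1
        exact ha (pow_eq_zero_iff (by omega) |>.1 h1.symm)
      have hz : (x a / x' a) ^ d = 1 := by
        rw [div_pow, h1, div_self (pow_ne_zero _ ha)]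
      have hz0 : x a / x' a ≠ 0 := div_ne_zero hxa ha
      refine ⟨⟨Units.mk0 _ hz0, ?_⟩, ?_⟩
      · rw [mem_rootsOfUnity]
        ext
        simpa using hz
      · show (Units.mk0 _ hz0 : ℂˣ) • x' = x
        rw [Units.smul_def, Units.val_mk0]
        funext j
        obtain ⟨b', hb'⟩ := lift_idx2 hm hd a j
        have h2 : x a ^ (d - 1) * x j = x' a ^ (d - 1) * x' j := by rw [← hb', ← hb', h]
        rw [Pi.smul_apply, smul_eq_mul]
        apply mul_left_cancel₀ (pow_ne_zero (d - 1) hxa)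
        rw [h2]
        have h3 : x a ^ (d - 1) * (x a / x' a * x' j) = x a ^ d / x' a * x' j := by
          obtain ⟨k, rfl⟩ : ∃ k, d = k + 1 := ⟨d - 1, by omega⟩
          simp only [Nat.add_sub_cancel]
          ring
        rw [h3, h1]
        obtain ⟨k, rfl⟩ : ∃ k, d = k + 1 := ⟨d - 1, by omega⟩
        simp only [Nat.add_sub_cancel]
        field_simp
        ring
  · rintro ⟨ζ, rfl⟩
    funext b
    have hζ : ((ζ : ℂˣ) : ℂ) ^ d = 1 := by
      have := ζ.2
      rw [mem_rootsOfUnity] at this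
      have h2 := congrArg Units.val this
      simpa using h2
    have h1 : (ζ • x' : Fin (n + 1) → ℂ) = ((ζ : ℂˣ) : ℂ) • x' := rfl
    show ver m (ζ • x') b = ver m x' b
    rw [h1, lift_ver_smul hm, hζ, one_mul]

theorem lift_continuous {n N : ℕ} (m : Fin (N + 1) → Fin (n + 1) → ℕ) :
    Continuous (ver m : (Fin (n + 1) → ℂ) → Fin (N + 1) → ℂ) := by
  unfold ver
  fun_prop

theorem lift_closed {n N d : ℕ} {m : Fin (N + 1) → Fin (n + 1) → ℕ} (hm : Mon n N d m)
    (hd : 1 ≤ d) : IsClosedMap (ver m : (Fin (n + 1) → ℂ) → Fin (N + 1) → ℂ) := by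
  have h : IsProperMap (ver m : (Fin (n + 1) → ℂ) → Fin (N + 1) → ℂ) := by
    rw [isProperMap_iff_tendsto_cocompact]
    refine ⟨lift_continuous m, ?_⟩
    rw [← Metric.cobounded_eq_cocompact, ← Metric.cobounded_eq_cocompact,
      ← tendsto_norm_atTop_iff_cobounded]
    have h1 : ∀ x : Fin (n + 1) → ℂ, ‖x‖ ≤ 1 + ‖ver m x‖ := by
      intro x
      rw [pi_norm_le_iff_of_nonneg (by positivity)]
      intro a
      obtain ⟨b, hb⟩ := lift_idx1 hm a
      have h2 : ‖x a‖ ^ d ≤ ‖ver m x‖ := by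
        rw [← norm_pow, ← hb]
        exact norm_le_pi_norm _ b
      rcases le_total ‖x a‖ 1 with h3 | h3
      · have := norm_nonneg (ver m x)
        linarith
      · have := le_self_pow₀ h3 (by omega : d ≠ 0)
        linarith
    refine tendsto_atTop_mono' _ ?_ (tendsto_norm_cobounded_atTop.atTop_add
      (tendsto_const_nhds (x := (-1 : ℝ))))
    filter_upwards with x
    have := h1 x
    linarith
  exact h.isClosedMap

theorem lift_quot {n N d : ℕ} {m : Fin (N + 1) → Fin (n + 1) → ℕ} (hm : Mon n N d m)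
    (hd : 1 ≤ d) : IsQuotientMap
      (Set.rangeFactorization (ver m : (Fin (n + 1) → ℂ) → Fin (N + 1) → ℂ)) := by
  refine IsClosedMap.isQuotientMap ?_ ?_ ?_
  · exact (lift_closed hm hd).codRestrict _
  · exact (lift_continuous m).codRestrict _
  · exact Set.rangeFactorization_surjective

theorem lift_cov {n N d : ℕ} {m : Fin (N + 1) → Fin (n + 1) → ℕ} (hm : Mon n N d m)
    (hd : 1 ≤ d) : IsCoveringMapOn
      (Set.rangeFactorization (ver m : (Fin (n + 1) → ℂ) → Fin (N + 1) → ℂ))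
      (Set.rangeFactorization (ver m : (Fin (n + 1) → ℂ) → Fin (N + 1) → ℂ) '' {x | x ≠ 0}) := by
  have : NeZero d := ⟨by omega⟩
  have hc : ContinuousConstSMul (rootsOfUnity d ℂ) (Fin (n + 1) → ℂ) :=
    ⟨fun ζ => continuous_const_smul (((ζ : ℂˣ) : ℂ))⟩
  have h := (lift_quot hm hd).isCoveringMapOn_of_properlyDiscontinuousSMul
    (G := rootsOfUnity d ℂ) (by
      intro e₁ e₂
      rw [← lift_orbit hm hd]
      exact Subtype.ext_iff)
  have h2 : {e : Fin (n + 1) → ℂ | MulAction.stabilizer (rootsOfUnity d ℂ) e = ⊥} ⊇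
      {x | x ≠ 0} := by
    intro x hx
    show MulAction.stabilizer (rootsOfUnity d ℂ) x = ⊥
    rw [eq_bot_iff]
    intro ζ hζ
    rw [MulAction.mem_stabilizer_iff] at hζ
    obtain ⟨a, ha⟩ : ∃ a, x a ≠ 0 := by
      by_contra hcon
      push Not at hcon
      exact hx (funext hcon)
    have h3 : ((ζ : ℂˣ) : ℂ) * x a = x a := congrFun hζ a
    have h4 : ((ζ : ℂˣ) : ℂ) = 1 := mul_right_cancel₀ ha (by rw [h3, one_mul])
    rw [Subgroup.mem_bot]
    ext
    exact h4
  exact h.mono (Set.image_mono h2)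

/-- a continuous root of a differentiable function is differentiable -/
theorem lift_root {E : Type} [NormedAddCommGroup E] [NormedSpace ℂ E] (f g : E → ℂ) (d : ℕ)
    (hd : 1 ≤ d) (z : E) (hf : ContinuousAt f z) (hfz : f z ≠ 0) (hg : DifferentiableAt ℂ g z)
    (hfg : ∀ w, f w ^ d = g w) : DifferentiableAt ℂ f z := by
  have h1 : HasStrictDerivAt (fun w : ℂ => w ^ d) (d * f z ^ (d - 1)) (f z) := by
    simpa using hasStrictDerivAt_pow d (f z)
  have h2 : (d : ℂ) * f z ^ (d - 1) ≠ 0 :=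
    mul_ne_zero (Nat.cast_ne_zero.2 (by omega)) (pow_ne_zero _ hfz)
  have h3 := h1.hasStrictFDerivAt_equiv h2
  have h4 := h3.eventually_left_inverse
  have h5 : HasStrictDerivAt (h1.localInverse _ _ _ h2) ((d : ℂ) * f z ^ (d - 1))⁻¹
      ((fun w : ℂ => w ^ d) (f z)) := h1.to_localInverse h2
  have h6 : f =ᶠ[𝓝 z] fun w => h1.localInverse _ _ _ h2 (g w) := by
    filter_upwards [hf.eventually h4] with w hw
    rw [← hfg w]
    exact hw.symm
  refine DifferentiableAt.congr_of_eventuallyEq ?_ h6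
  refine DifferentiableAt.comp (g := h1.localInverse _ _ _ h2) z ?_ hg
  rw [← hfg z]
  exact h5.hasDerivAt.differentiableAt

theorem t_lift : Lift_stm := by
  intro n N d m hm hd E _ _ G hG hx
  have : NormedSpace ℝ E := NormedSpace.complexToReal
  obtain ⟨x₀, hx₀, hGx₀⟩ := hx 0
  have hmem : ∀ z, G z ∈ Set.range (ver m : (Fin (n + 1) → ℂ) → Fin (N + 1) → ℂ) := fun z => by
    obtain ⟨x, -, hx⟩ := hx z
    exact ⟨x, hx.symm⟩
  set f : C(E, Set.range (ver m : (Fin (n + 1) → ℂ) → Fin (N + 1) → ℂ)) :=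
    ⟨fun z => ⟨G z, hmem z⟩, Continuous.subtype_mk hG.continuous hmem⟩ with hf
  obtain ⟨F, ⟨-, hF⟩, -⟩ := (lift_cov hm hd).existsUnique_continuousMap_lifts f (a₀ := 0)
    (e₀ := x₀) (Subtype.ext hGx₀.symm) (fun z => by
      obtain ⟨x, hx1, hx2⟩ := hx z
      exact ⟨x, hx1, Subtype.ext hx2.symm⟩)
  have hFG : ∀ z, G z = ver m (F z) := fun z => (congrArg Subtype.val (congrFun hF z)).symm
  refine ⟨F, fun z => ?_, hFG⟩
  have hF0 : F z ≠ 0 := by
    intro h0
    obtain ⟨x, hx1, hx2⟩ := hx z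
    rw [hFG z, h0, lift_ver_zero hm hd] at hx2
    exact hx1 (lift_ver_eq_zero hm hd x hx2.symm)
  obtain ⟨a, ha⟩ : ∃ a, F z a ≠ 0 := by
    by_contra hcon
    push Not at hcon
    exact hF0 (funext hcon)
  have hcont : ∀ j, Continuous fun w => F w j := fun j =>
    (continuous_apply j).comp F.continuous
  have hGd : ∀ b, DifferentiableAt ℂ (fun w => G w b) z := fun b =>
    (differentiableAt_pi.1 (hG z)) b
  have hda : DifferentiableAt ℂ (fun w => F w a) z := by
    obtain ⟨b, hb⟩ := lift_idx1 hm a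
    exact lift_root _ _ d hd z (hcont a).continuousAt ha (hGd b) fun w => by rw [hFG w, hb]
  rw [differentiableAt_pi]
  intro j
  obtain ⟨b, hb⟩ := lift_idx2 hm hd a j
  have h1 : (fun w => F w j) =ᶠ[𝓝 z] fun w => G w b / F w a ^ (d - 1) := by
    filter_upwards [(hcont a).continuousAt.eventually_ne ha] with w hw
    rw [hFG w, hb, mul_div_cancel_left₀ _ (pow_ne_zero _ hw)]
  refine DifferentiableAt.congr_of_eventuallyEq ?_ h1
  have h2 : DifferentiableAt ℂ (fun w => F w a ^ (d - 1)) z := hda.fun_pow (d - 1)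
  simp only [div_eq_mul_inv]
  exact (hGd b).mul (h2.fun_inv (pow_ne_zero _ ha))

end Pool.Agent.N254.SQ
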