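import Pool.Agent.N254.SQ.Stm

/-!
# (LOGD) logarithmic derivatives of the terms
-/

set_option autoImplicit false

namespace Pool.Agent.N254.SQ

open MeasureTheory Set Filter Topology Metric Real ValueDistribution MeromorphicOn Function
open Asymptotics
open Pool.Agent.N131.SR (Big NZ)

theorem logd_neg {x : WithTop ℤ} (hx : 0 ≤ x) : (x.untop₀)⁻ = 0 := by
  rw [negPart_eq_zero]
  rcases eq_or_ne x ⊤ with h4 | h4
  · rw [h4]; simp
  · lift x to ℤ using h4
    simpa using hx

theorem logd_ord {w : ℂ → ℂ} (hw : Meromorphic w) (hnz : NZ w) (z : ℂ) :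
    (divisor (logDeriv w) univ z)⁻ ≤ 1 ∧
      (meromorphicOrderAt w z = 0 → (divisor (logDeriv w) univ z)⁻ = 0) := by
  have hld : Meromorphic (logDeriv w) := hw.deriv.div hw
  rw [divisor_apply hld.meromorphicOn (mem_univ z)]
  have h1 : meromorphicOrderAt (logDeriv w) z =
      meromorphicOrderAt (deriv w) z - meromorphicOrderAt w z :=
    meromorphicOrderAt_div (hw.deriv z) (hw z)
  rw [h1]
  obtain ⟨n, hn⟩ := WithTop.ne_top_iff_exists.1 (hnz z)
  by_cases h0 : n = 0
  · subst h0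
    have h3 : 0 ≤ meromorphicOrderAt (deriv w) z := by
      rcases order_deriv hw z with ⟨_, h4⟩ | ⟨m, hm, h4, _⟩
      · exact h4
      · rw [← hn] at h4
        have h5 : (0 : ℤ) = m := by exact_mod_cast h4
        omega
    rw [← hn]
    have h4 : 0 ≤ meromorphicOrderAt (deriv w) z - ((0 : ℤ) : WithTop ℤ) := by
      rw [WithTop.coe_zero, sub_zero]
      exact h3
    rw [logd_neg h4]
    exact ⟨by norm_num, fun _ => rfl⟩
  · have h3 : meromorphicOrderAt (deriv w) z = (n - 1 : ℤ) :=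
      meromorphicOrderAt_deriv_eq_sub_one (f := w) (x := z) (n := n) (by exact_mod_cast h0) hn.symm
    rw [h3, ← hn]
    have h4 : (((n - 1 : ℤ) : WithTop ℤ) - (n : WithTop ℤ)) = (((n - 1) - n : ℤ) : WithTop ℤ) := rfl
    rw [h4, WithTop.untop₀_coe]
    constructor
    · rw [negPart_of_nonpos (by omega)]
      omega
    · intro h5
      exfalso
      apply h0
      exact_mod_cast h5

theorem logd_pos {g : ℂ → ℂ} (hg : Differentiable ℂ g) (hnz : NZ g) (z : ℂ) :
    0 ≤ (divisor g univ z)⁺ ∧ (meromorphicOrderAt g z ≠ 0 → 1 ≤ (divisor g univ z)⁺) := by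
  refine ⟨posPart_nonneg _, fun h => ?_⟩
  rw [divisor_apply (diff_mero hg).meromorphicOn (mem_univ z)]
  have h3 := (hg.analyticAt z).meromorphicOrderAt_nonneg
  have h4 := hnz z
  lift meromorphicOrderAt g z to ℤ using h4 with n
  have h3' : 0 ≤ n := by exact_mod_cast h3
  have h5 : n ≠ 0 := by exact_mod_cast h
  rw [WithTop.untop₀_coe, posPart_of_nonneg h3']
  omega

theorem logd_count {w g₁ g₂ g₃ : ℂ → ℂ} (hw : Meromorphic w) (hnz : NZ w)
    (h₁ : Differentiable ℂ g₁) (n₁ : NZ g₁) (h₂ : Differentiable ℂ g₂) (n₂ : NZ g₂)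
    (h₃ : Differentiable ℂ g₃) (n₃ : NZ g₃)
    (h : ∀ z, meromorphicOrderAt g₁ z = 0 → meromorphicOrderAt g₂ z = 0 →
      meromorphicOrderAt g₃ z = 0 → meromorphicOrderAt w z = 0) {r : ℝ} (hr : 1 ≤ r) :
    ValueDistribution.logCounting (logDeriv w) ⊤ r ≤ ValueDistribution.logCounting g₁ 0 r +
      ValueDistribution.logCounting g₂ 0 r + ValueDistribution.logCounting g₃ 0 r := by
  rw [logCounting_top, logCounting_zero, logCounting_zero, logCounting_zero, ← Pi.add_apply,
    ← locallyFinsuppWithin.logCounting.map_add, ← Pi.add_apply,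
    ← locallyFinsuppWithin.logCounting.map_add]
  apply locallyFinsuppWithin.logCounting_le _ hr
  intro z
  change (divisor (logDeriv w) univ z)⁻ ≤
    (divisor g₁ univ z)⁺ + (divisor g₂ univ z)⁺ + (divisor g₃ univ z)⁺
  obtain ⟨a1, a2⟩ := logd_ord hw hnz z
  obtain ⟨b1, b2⟩ := logd_pos h₁ n₁ z
  obtain ⟨c1, c2⟩ := logd_pos h₂ n₂ z
  obtain ⟨d1, d2⟩ := logd_pos h₃ n₃ z
  by_cases e1 : meromorphicOrderAt g₁ z = 0
  · by_cases e2 : meromorphicOrderAt g₂ z = 0
    · by_cases e3 : meromorphicOrderAt g₃ z = 0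
      · rw [a2 (h z e1 e2 e3)]
        linarith
      · have := d2 e3
        linarith
    · have := c2 e2
      linarith
  · have := b2 e1
    linarith

theorem logd_nz {g : ℂ → ℂ} (hg : Differentiable ℂ g) (h : ∃ z, g z ≠ 0) : NZ g :=
  nz_of_ne (diff_mero hg) (diff_ne hg h).frequently

open MvPolynomial in
/-- **(LOGD)** -/
theorem t_logd (h : Form_stm) : Logd_stm := by
  intro n f hf h0 L H e D G ℓ hG hℓ l hl hG0 hℓ0
  -- the three entire functions
  have dG := form_diff hf G
  have dℓ := form_diff hf ℓ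
  have dl := hf l
  have nG := logd_nz dG hG0
  have nℓ := logd_nz dℓ hℓ0
  have nl := logd_nz dl hl
  -- the ratios
  have hX : (X l ^ e : MvPolynomial (Fin (n + 1)) ℂ).IsHomogeneous e := by
    have := (isHomogeneous_X ℂ l).pow e
    rwa [one_mul] at this
  obtain ⟨C₁, hC₁⟩ := h n f hf h0 e G (X l ^ e) hG hX (by
    obtain ⟨z, hz⟩ := hl
    refine ⟨z, ?_⟩
    rw [map_pow, eval_X]
    exact pow_ne_zero _ hz)
  obtain ⟨C₂, hC₂⟩ := h n f hf h0 1 ℓ (X l) hℓ (isHomogeneous_X ℂ l) (by
    obtain ⟨z, hz⟩ := hl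
    exact ⟨z, by rw [eval_X]; exact hz⟩)
  obtain ⟨C₃, hC₃⟩ := h n f hf h0 e G G hG hG hG0
  obtain ⟨C₄, hC₄⟩ := h n f hf h0 1 ℓ ℓ hℓ hℓ hℓ0
  simp only [map_pow, eval_X] at hC₁ hC₂
  have oT : ∀ (c C : ℝ), (fun r => c * Tf f r + C) =O[L] Tf f := fun c C =>
    ((isBigO_refl _ _).const_mul_left c).add (H.const C).isBigO
  have o1 : OT L (Tf f) fun z => eval (fun j => f j z) G / f l z ^ e :=
    ⟨fun z => (diff_mero dG z).div ((diff_mero dl z).pow e),
      H.O_of_le (fun r hr => ⟨char_nonneg _ hr, (hC₁ r hr).1⟩) (oT e C₁)⟩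
  have o2 : OT L (Tf f) fun z => eval (fun j => f j z) ℓ / f l z :=
    ⟨(diff_mero dℓ).div (diff_mero dl),
      H.O_of_le (fun r hr => ⟨char_nonneg _ hr, (hC₂ r hr).1⟩) (oT _ C₂)⟩
  have o3 : ∀ k : ℕ, OT L (Tf f) fun z => (eval (fun j => f j z) ℓ / f l z) ^ k := by
    intro k
    induction k with
    | zero =>
      simp only [pow_zero]
      exact (sm_const H 1).ot
    | succ k ih =>
      simp only [pow_succ]
      exact OT.mul H ih o2
  set w : ℂ → ℂ := fun z => eval (fun j => f j z) G * eval (fun j => f j z) ℓ ^ D /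
    f l z ^ (D + e) with hw
  have hwe : w = fun z => (eval (fun j => f j z) G / f l z ^ e) *
      (eval (fun j => f j z) ℓ / f l z) ^ D := by
    funext z
    rw [hw]
    simp only
    rw [div_pow, div_mul_div_comm, ← pow_add, add_comm e D]
  have o4 : OT L (Tf f) w := by
    rw [hwe]
    exact OT.mul H o1 (o3 D)
  have hwm : Meromorphic w := o4.1
  have hprox := ld_o H o4
  -- the order of `w`
  have hord : ∀ z, meromorphicOrderAt w z = meromorphicOrderAt (fun z => eval (fun j => f j z) G) z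
      + D * meromorphicOrderAt (fun z => eval (fun j => f j z) ℓ) z -
        (D + e : ℕ) * meromorphicOrderAt (f l) z := by
    intro z
    have h1 : meromorphicOrderAt w z = meromorphicOrderAt
        ((fun z => eval (fun j => f j z) G) * (fun z => eval (fun j => f j z) ℓ) ^ D) z -
          meromorphicOrderAt (f l ^ (D + e)) z :=
      meromorphicOrderAt_div ((diff_mero dG z).mul ((diff_mero dℓ z).pow D))
        ((diff_mero dl z).pow (D + e))
    rw [h1, meromorphicOrderAt_mul (diff_mero dG z) ((diff_mero dℓ z).pow D),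
      meromorphicOrderAt_pow (diff_mero dℓ z), meromorphicOrderAt_pow (diff_mero dl z)]
  have hwnz : NZ w := by
    refine nz_of_ne hwm (Eventually.frequently ?_)
    filter_upwards [diff_ne dG hG0, diff_ne dℓ hℓ0, diff_ne dl hl] with z z1 z2 z3
    exact div_ne_zero (mul_ne_zero z1 (pow_ne_zero _ z2)) (pow_ne_zero _ z3)
  refine ⟨hwm.deriv.div hwm, fun r => proximity (logDeriv w) ⊤ r + (C₃ + C₄ + C₂), ?_, ?_⟩
  · exact hprox.add (H.const _)
  · filter_upwards [H.ge] with r hr
    have h1 := logd_count hwm hwnz dG nG dℓ nℓ dl nl (fun z z1 z2 z3 => by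
      rw [hord z, z1, z2, z3]
      simp) hr
    have h2 := (hC₃ r hr).2
    have h3 := (hC₄ r hr).2
    have h4 := (hC₂ r hr).2
    unfold characteristic
    simp only [Pi.add_apply]
    push_cast at h3 h4
    linarith

end Pool.Agent.N254.SQ
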