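import Pool.Agent.N254.SQ.Stm

/-!
Project SQ, leaf NUM: the exponent vectors of degree `d` in `n + 1` variables.
-/

set_option autoImplicit false

namespace Pool.Agent.N254.SQ

/-- `3 n + 1` exponent vectors of degree `d` -/
def num_g (n d : ℕ) : Option (Fin n × Fin 3) → Fin (n + 1) → ℕ
  | none => Fin.cons d 0
  | some p => Fin.cons (d - ((p.2 : ℕ) + 1)) (Pi.single p.1 ((p.2 : ℕ) + 1))

theorem num_g_sum (n d : ℕ) (hd : 3 ≤ d) (o : Option (Fin n × Fin 3)) :
    ∑ j, num_g n d o j = d := by
  rcases o with _ | ⟨j, k⟩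
  · simp [num_g, Fin.sum_univ_succ]
  · have hk : (k : ℕ) < 3 := k.2
    rw [Fin.sum_univ_succ]
    simp only [num_g, Fin.cons_zero, Fin.cons_succ]
    rw [Finset.sum_pi_single']
    simp only [Finset.mem_univ, if_true]
    omega

theorem num_g_inj (n d : ℕ) : Function.Injective (num_g n d) := by
  have key : ∀ (j j' : Fin n) (k k' : Fin 3),
      num_g n d (some (j, k)) = num_g n d (some (j', k')) → j = j' ∧ k = k' := by
    intro j j' k k' h
    have h1 := congrFun h j.succ
    simp only [num_g, Fin.cons_succ, Pi.single_eq_same] at h1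
    by_cases hj : j = j'
    · subst hj
      rw [Pi.single_eq_same] at h1
      exact ⟨rfl, Fin.ext (by omega)⟩
    · rw [Pi.single_eq_of_ne hj] at h1
      omega
  have key2 : ∀ (j : Fin n) (k : Fin 3), num_g n d (some (j, k)) ≠ num_g n d none := by
    intro j k h
    have h1 := congrFun h j.succ
    simp only [num_g, Fin.cons_succ, Pi.single_eq_same, Pi.zero_apply] at h1
    omega
  intro o o' h
  rcases o with _ | ⟨j, k⟩ <;> rcases o' with _ | ⟨j', k'⟩
  · rfl
  · exact absurd h.symm (key2 j' k')
  · exact absurd h (key2 j k)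
  · obtain ⟨rfl, rfl⟩ := key j j' k k' h
    rfl

/-- the exponent vectors of degree `d` can be enumerated, and there are at least `2 n + 2` of
them -/
theorem t_num : Num_stm := by
  intro n d hn hd
  set A : Finset (Fin (n + 1) → ℕ) := Finset.piAntidiag Finset.univ d with hA
  have memA : ∀ α : Fin (n + 1) → ℕ, α ∈ A ↔ ∑ j, α j = d := by
    intro α
    rw [hA, Finset.mem_piAntidiag]
    simp
  have hcard : 3 * n + 1 ≤ A.card := by
    have h1 : (Finset.univ.image (num_g n d)).card ≤ A.card := by
      apply Finset.card_le_card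
      intro α hα
      rw [Finset.mem_image] at hα
      obtain ⟨o, -, rfl⟩ := hα
      exact (memA _).2 (num_g_sum n d hd o)
    rw [Finset.card_image_of_injective _ (num_g_inj n d)] at h1
    simp only [Finset.card_univ, Fintype.card_option, Fintype.card_prod, Fintype.card_fin] at h1
    omega
  obtain ⟨N, hN⟩ : ∃ N, A.card = N + 1 := ⟨A.card - 1, by omega⟩
  have e : A ≃ Fin (N + 1) := A.equivFinOfCardEq hN
  refine ⟨N, fun a => (e.symm a : Fin (n + 1) → ℕ), ⟨?_, ?_, ?_⟩, by omega⟩
  · intro a
    exact (memA _).1 (e.symm a).2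
  · intro a b h
    exact e.symm.injective (Subtype.ext h)
  · intro α hα
    exact ⟨e ⟨α, (memA α).2 hα⟩, by simp⟩

end Pool.Agent.N254.SQ
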