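import Pool.Agent.N254.SQ.Stm

/-!
# SQ/PART: partition of a vanishing sum in minimal vanishing subsums
-/

set_option autoImplicit false

namespace Pool.Agent.N254.SQ

open Finset

theorem part_aux {V : Type} [AddCommGroup V] {ι : Type} [DecidableEq ι] (u : ι → V) :
    ∀ (n : ℕ) (S : Finset ι), S.card = n → ∑ i ∈ S, u i = 0 →
      ∃ 𝓑 : Finset (Finset ι), (∀ B ∈ 𝓑, B.Nonempty) ∧
        (∀ B ∈ 𝓑, ∀ B' ∈ 𝓑, B ≠ B' → Disjoint B B') ∧ (∀ B ∈ 𝓑, B ⊆ S) ∧
        (∀ i ∈ S, ∃ B ∈ 𝓑, i ∈ B) ∧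
        ∀ B ∈ 𝓑, ∑ i ∈ B, u i = 0 ∧ ∀ B' ⊆ B, B'.Nonempty → B' ≠ B → ∑ i ∈ B', u i ≠ 0 := by
  intro n
  induction n using Nat.strong_induction_on with
  | _ n ih =>
    intro S hn hS
    rcases S.eq_empty_or_nonempty with h0 | h0
    · refine ⟨∅, by simp, by simp, by simp, ?_, by simp⟩
      rw [h0]
      simp
    -- a nonempty vanishing subset of minimal cardinality
    have hex : ∃ k : ℕ, ∃ B ⊆ S, B.Nonempty ∧ ∑ i ∈ B, u i = 0 ∧ B.card = k :=
      ⟨S.card, S, Subset.refl S, h0, hS, rfl⟩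
    classical
    obtain ⟨B, hBS, hB0, hBs, hBk⟩ := Nat.find_spec hex
    have hmin : ∀ B' ⊆ B, B'.Nonempty → B' ≠ B → ∑ i ∈ B', u i ≠ 0 := by
      intro B' hB' hne hneq hs
      have h1 : B'.card < B.card := card_lt_card (hB'.ssubset_of_ne hneq)
      rw [hBk] at h1
      exact Nat.find_min hex h1 ⟨B', hB'.trans hBS, hne, hs, rfl⟩
    have hlt : (S \ B).card < n := by
      rw [← hn]
      apply card_lt_card
      refine ⟨sdiff_subset, fun h => ?_⟩
      obtain ⟨i, hi⟩ := hB0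
      exact (mem_sdiff.1 (h (hBS hi))).2 hi
    have hsd : ∑ i ∈ S \ B, u i = 0 := by
      have h1 := sum_sdiff (f := u) hBS
      rw [hBs, add_zero, hS] at h1
      exact h1
    obtain ⟨𝓑, c1, c2, c3, c4, c5⟩ := ih _ hlt (S \ B) rfl hsd
    have hdis : ∀ B' ∈ 𝓑, Disjoint B B' := by
      intro B' hB'
      rw [disjoint_left]
      intro i hi hi'
      exact (mem_sdiff.1 (c3 B' hB' hi')).2 hi
    refine ⟨insert B 𝓑, ?_, ?_, ?_, ?_, ?_⟩
    · intro C hC
      rcases mem_insert.1 hC with rfl | hC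
      · exact hB0
      · exact c1 C hC
    · intro C hC C' hC' hne
      rcases mem_insert.1 hC with h1 | h1 <;> rcases mem_insert.1 hC' with h2 | h2
      · exact absurd (h1.trans h2.symm) hne
      · rw [h1]; exact hdis C' h2
      · rw [h2]; exact (hdis C h1).symm
      · exact c2 C h1 C' h2 hne
    · intro C hC
      rcases mem_insert.1 hC with rfl | hC
      · exact hBS
      · exact (c3 C hC).trans sdiff_subset
    · intro i hi
      by_cases hiB : i ∈ B
      · exact ⟨B, mem_insert_self _ _, hiB⟩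
      · obtain ⟨C, hC, hiC⟩ := c4 i (mem_sdiff.2 ⟨hi, hiB⟩)
        exact ⟨C, mem_insert_of_mem hC, hiC⟩
    · intro C hC
      rcases mem_insert.1 hC with h1 | h1
      · rw [h1]; exact ⟨hBs, hmin⟩
      · exact c5 C h1

theorem t_part : Part_stm := by
  intro V _ ι _ u hu
  classical
  obtain ⟨𝓑, c1, c2, c3, c4, c5⟩ := part_aux u _ univ rfl hu
  exact ⟨𝓑, c1, c2, fun i => c4 i (mem_univ i), c5⟩

end Pool.Agent.N254.SQ
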