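import Mathlib
import Pool.Agent.N254.SQ.Stm

/-!
Project SQ, leaf SIZE (helper953): assembly of the value distribution part.
-/

set_option autoImplicit false

namespace Pool.Agent.N254.SQ

open MvPolynomial Filter Topology Asymptotics ValueDistribution
open Pool.Agent.N131.SR (Big NZ)

section

variable {L : Filter ℝ} {τ : ℝ → ℝ}

theorem size_congr (H : Cmp L τ) {C : ℝ} {a b : ℂ → ℂ} (ha : Le L τ C a) (hb : Meromorphic b)
    (h : ∀ᶠ z in codiscrete ℂ, a z = b z) : Le L τ C b := by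
  obtain ⟨_, s, hs, h1⟩ := ha
  refine ⟨hb, s, hs, ?_⟩
  filter_upwards [h1, H.ge] with r hr hr1
  rw [← char_le_of_congr h hr1]
  exact hr

theorem size_mul (H : Cmp L τ) {C C' : ℝ} {a b : ℂ → ℂ} (ha : Le L τ C a) (hb : Le L τ C' b) :
    Le L τ (C + C') fun z => a z * b z := by
  obtain ⟨ma, s, hs, h1⟩ := ha
  obtain ⟨mb, s', hs', h2⟩ := hb
  refine ⟨ma.mul mb, fun r => s r + s' r, hs.add hs', ?_⟩
  filter_upwards [h1, h2, H.ge] with r hr hr' hr1
  have := char_mul ma mb hr1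
  linarith [add_mul C C' (τ r)]

theorem size_inv (H : Cmp L τ) {C : ℝ} {a : ℂ → ℂ} (ha : Le L τ C a) :
    Le L τ C fun z => (a z)⁻¹ := by
  obtain ⟨ma, s, hs, h1⟩ := ha
  obtain ⟨C', hC'⟩ := char_inv ma
  refine ⟨ma.inv, fun r => s r + C', hs.add (H.const C'), ?_⟩
  filter_upwards [h1] with r hr
  have := hC' r
  linarith

theorem size_const (H : Cmp L τ) (c : ℂ) : Le L τ 0 fun _ => c := by
  refine ⟨Meromorphic.const c, fun _ => Real.posLog ‖c‖, H.const _, ?_⟩
  refine Eventually.of_forall fun r => ?_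
  rw [char_const]
  simp

theorem size_mono {C C' : ℝ} (h0 : ∀ᶠ r in L, 0 ≤ τ r) (hC : C ≤ C') {a : ℂ → ℂ}
    (ha : Le L τ C a) : Le L τ C' a := by
  obtain ⟨ma, s, hs, h1⟩ := ha
  refine ⟨ma, s, hs, ?_⟩
  filter_upwards [h1, h0] with r hr hr0
  have := mul_le_mul_of_nonneg_right hC hr0
  linarith

/-- a nonzero value at a point of the image of the exponential function -/
theorem size_exp {h : ℂ → ℂ} (hc : Continuous h) {z : ℂ} (hz : h z ≠ 0) :
    ∃ w, h (Complex.exp w) ≠ 0 := by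
  have h1 : IsOpen {w | h w ≠ 0} := isOpen_ne_fun hc continuous_const
  obtain ⟨w, hw, hw0⟩ := (dense_compl_singleton (0 : ℂ)).inter_open_nonempty _ h1 ⟨z, hz⟩
  refine ⟨Complex.log w, ?_⟩
  rw [Complex.exp_log hw0]
  exact hw

end

section circuit

variable {L : Filter ℝ} {τ : ℝ → ℝ}

/-- the ratios in a circuit -/
theorem size_circuit (h3 : Wr_stm) {M e : ℕ} (H : Cmp L τ)
    (h0 : ∀ᶠ r in L, 0 ≤ τ r) (Cd : ℕ → ℝ)
    (hCd : ∀ m, 0 ≤ Cd m ∧ ∀ (L : Filter ℝ) (τ : ℝ → ℝ), Cmp L τ → (∀ᶠ r in L, 0 ≤ τ r) →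
      ∀ κ : ℝ, 0 ≤ κ → ∀ φ : Fin m → ℂ → ℂ, (∀ i, Le L τ κ (φ i)) →
        Le L τ (Cd m * κ) fun z => (Matrix.of fun i k : Fin m => pp (φ i) k z).det)
    {κ : Type} [Fintype κ] (hM : Fintype.card κ ≤ M) (u : κ → ℂ → ℂ)
    (hu : ∀ i, Differentiable ℂ (u i)) (s : ℂ → ℂ) (hs : Differentiable ℂ s)
    (hs0 : ∃ z, s z ≠ 0) (hlog : ∀ i, Le L τ (e + 2) (logDeriv fun w => u i w / s w))
    (a : κ → ℂ) (ha : ∀ z, ∑ i, a i * u i z = 0)
    (hmin : ∀ b : κ → ℂ, (∀ i, a i = 0 → b i = 0) → (∀ z, ∑ i, b i * u i z = 0) →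
      ∃ c : ℂ, b = c • a) {i j : κ} (hij : i ≠ j) (hai : a i ≠ 0) (haj : a j ≠ 0) :
    Le L τ (2 * (((e : ℝ) + 2) * ∑ m ∈ Finset.range (M + 1), Cd m)) fun z => u i z / u j z := by
  classical
  set S : Finset κ := Finset.univ.filter fun i => a i ≠ 0 with hS
  have hiS : i ∈ S := by simp [hS, hai]
  have hjS : j ∈ S := by simp [hS, haj]
  have hcard : 2 ≤ S.card := by
    have h4 : ({i, j} : Finset κ) ⊆ S := by
      intro x hx
      rw [Finset.mem_insert, Finset.mem_singleton] at hx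
      rcases hx with rfl | rfl
      · exact hiS
      · exact hjS
    have := Finset.card_le_card h4
    rwa [Finset.card_pair hij] at this
  obtain ⟨m, hm⟩ : ∃ m, S.card = m + 2 := ⟨S.card - 2, by omega⟩
  have hmM : m + 2 ≤ M := by
    rw [← hm]
    exact (Finset.card_le_univ S).trans hM
  let E : Fin (m + 2) ≃ S := (Fintype.equivFinOfCardEq (by rw [Fintype.card_coe, hm])).symm
  have hsumS : ∀ (b : κ → ℂ), (∀ x, x ∉ S → b x = 0) → ∀ z, ∑ x : Fin (m + 2), b (E x) * u (E x) z =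
      ∑ x, b x * u x z := by
    intro b hb z
    rw [Equiv.sum_comp E fun x : S => b x * u x z,
      Finset.sum_coe_sort S fun x => b x * u x z]
    refine Finset.sum_subset (Finset.subset_univ _) fun x _ hx => ?_
    rw [hb x hx, zero_mul]
  have haS : ∀ x, x ∉ S → a x = 0 := by
    intro x hx
    by_contra h
    exact hx (by simp [hS, h])
  have key := h3 m (fun x => u (E x)) s (fun x => hu _) hs hs0 (fun x => a (E x))
    (fun x => by
      have h5 : (E x : κ) ∈ Finset.univ.filter fun i => a i ≠ 0 := (E x).2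
      exact (Finset.mem_filter.1 h5).2)
    (fun z => by rw [hsumS a haS z, ha z])
    (fun b hb => by
      set b' : κ → ℂ := fun x => if h : x ∈ S then b (E.symm ⟨x, h⟩) else 0 with hb'
      have h4 : ∀ x, x ∉ S → b' x = 0 := by
        intro x hx
        simp only [hb']
        rw [dif_neg hx]
      have h5 : ∀ x : Fin (m + 2), b' (E x) = b x := by
        intro x
        simp only [hb']
        rw [dif_pos (E x).2]
        simp
      obtain ⟨c, hc⟩ := hmin b' (fun x hx => h4 x (by simp [hS, hx])) (fun z => by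
        rw [← hsumS b' h4 z, ← hb z]
        exact Finset.sum_congr rfl fun x _ => by rw [h5])
      refine ⟨c, ?_⟩
      funext x
      rw [← h5, hc]
      rfl)
  obtain ⟨c, hc⟩ := key (E.symm ⟨i, hiS⟩) (E.symm ⟨j, hjS⟩)
  simp only [Equiv.apply_symm_apply] at hc
  -- the bound for the determinants
  have hκ : (0 : ℝ) ≤ (e : ℝ) + 2 := by positivity
  have hdet : ∀ k : Fin (m + 2), Le L τ (((e : ℝ) + 2) * ∑ m ∈ Finset.range (M + 1), Cd m)
      fun z => (Matrix.of fun l k' : Fin (m + 1) =>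
          pp (logDeriv fun w => u (E (k.succAbove l)) w / s w) k' z).det := by
    intro k
    have h5 := (hCd (m + 1)).2 L τ H h0 (e + 2) hκ
      (fun l => logDeriv fun w => u (E (k.succAbove l)) w / s w) (fun l => hlog _)
    refine size_mono h0 ?_ h5
    rw [mul_comm]
    refine mul_le_mul_of_nonneg_left ?_ hκ
    exact Finset.single_le_sum (f := Cd) (fun x _ => (hCd x).1) (Finset.mem_range.2 (by omega))
  have h6 := size_mul H (size_const H c) (size_mul H (hdet (E.symm ⟨i, hiS⟩))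
    (size_inv H (hdet (E.symm ⟨j, hjS⟩))))
  have h7 : Meromorphic fun z => u i z / u j z := (diff_mero (hu i)).div (diff_mero (hu j))
  have h8 := size_congr H h6 h7 (by
    filter_upwards [hc] with z hz
    rw [hz, div_eq_mul_inv])
  refine size_mono h0 (le_of_eq ?_) h8
  ring

end circuit

section chain

variable {L : Filter ℝ} {τ : ℝ → ℝ}

/-- the ratios along a walk -/
theorem size_walk (H : Cmp L τ) {κ : Type} (u : κ → ℂ → ℂ) (hu : ∀ i, Differentiable ℂ (u i))
    (hu0 : ∀ i, ∃ z, u i z ≠ 0) (C : ℝ) (G : SimpleGraph κ)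
    (hG : ∀ i j, G.Adj i j → Le L τ C fun z => u i z / u j z) {i j : κ} (w : G.Walk i j) :
    Le L τ (w.length * C) fun z => u i z / u j z := by
  induction w with
  | nil =>
    rename_i i
    rw [SimpleGraph.Walk.length_nil, Nat.cast_zero, zero_mul]
    refine size_congr H (size_const H 1) ((diff_mero (hu i)).div (diff_mero (hu i))) ?_
    filter_upwards [diff_ne (hu i) (hu0 i)] with z hz
    rw [div_self hz]
  | cons h p ih =>
    rename_i i k j
    rw [SimpleGraph.Walk.length_cons]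
    have h1 := size_mul H (hG _ _ h) ih
    have hm : Meromorphic fun z => u i z / u j z := (diff_mero (hu i)).div (diff_mero (hu j))
    have h2 := size_congr H h1 hm (by
      filter_upwards [diff_ne (hu k) (hu0 k)] with z hz
      rw [div_mul_div_cancel₀ hz])
    have e1 : ((p.length + 1 : ℕ) : ℝ) * C = C + p.length * C := by push_cast; ring
    rw [e1]
    exact h2

end chain

theorem size_lin {n : ℕ} (t : ℕ) (x : Fin (n + 1) → ℂ) :
    eval x (lin ℂ n t) = ∑ j : Fin (n + 1), (t : ℂ) ^ (j : ℕ) * x j := by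
  unfold lin
  rw [map_sum]
  refine Finset.sum_congr rfl fun j _ => ?_
  rw [map_mul, eval_C, eval_X]

theorem size_lin_hom (n t : ℕ) : (lin ℂ n t).IsHomogeneous 1 := by
  unfold lin
  refine IsHomogeneous.sum _ _ _ fun j _ => ?_
  have := (isHomogeneous_C (Fin (n + 1)) ((t : ℂ) ^ (j : ℕ))).mul (isHomogeneous_X ℂ j)
  simpa using this

theorem t_size (h1 : Circ_stm) (h2 : LeDet_stm) (h3 : Wr_stm) (h4 : Form_stm) (h5 : Logd_stm)
    (h6 : Top_stm) (h7 : Exp_stm) : Size_stm := by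
  classical
  intro n e M
  choose Cd hCd using h2
  obtain ⟨C₀, hC₀⟩ : ∃ C₀ : ℝ,
    C₀ = 2 * (((e : ℝ) + 2) * ∑ m ∈ Finset.range (M + 1), Cd m) := ⟨_, rfl⟩
  have hC₀0 : 0 ≤ C₀ := by
    rw [hC₀]
    have : 0 ≤ ∑ m ∈ Finset.range (M + 1), Cd m := Finset.sum_nonneg fun m _ => (hCd m).1
    positivity
  obtain ⟨D₁, hD₁⟩ := exists_nat_gt (((n : ℝ) + 1) * (M * C₀ + e))
  refine ⟨D₁ + 1, ?_⟩
  intro D hD κ _ hM hn1 h2c G p hp hG f hf hf0 hsum hsub
  by_contra hcon
  push Not at hcon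
  obtain ⟨L, H, hτ0⟩ := h7 n f hf hf0 (by
    obtain ⟨i, j, z, w, h⟩ := hcon
    exact ⟨i, j, z, w, h⟩)
  set g : Fin (n + 1) → ℂ → ℂ := fun j z => f j (Complex.exp z) with hg
  set τ : ℝ → ℝ := Tf g with hτ
  have hgd : ∀ j, Differentiable ℂ (g j) := fun j => (hf j).comp Complex.differentiable_exp
  have hg0 : ∀ z, ∃ j, g j z ≠ 0 := fun z => hf0 _
  have hD1 : 1 ≤ D := by omega
  -- the terms
  set U : κ → ℂ → ℂ := fun t z => eval (fun j => f j z) (G t) *
    eval (fun j => f j z) (lin ℂ n (p t)) ^ D with hU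
  have hUd : ∀ t, Differentiable ℂ (U t) := fun t =>
    (form_diff hf (G t)).mul ((form_diff hf (lin ℂ n (p t))).pow D)
  set u : κ → ℂ → ℂ := fun t z => eval (fun j => g j z) (G t) *
    eval (fun j => g j z) (lin ℂ n (p t)) ^ D with hu
  have hud : ∀ t, Differentiable ℂ (u t) := fun t =>
    (form_diff hgd (G t)).mul ((form_diff hgd (lin ℂ n (p t))).pow D)
  have huU : ∀ t z, u t z = U t (Complex.exp z) := fun t z => rfl
  have husum : ∀ z, ∑ t, u t z = 0 := fun z => hsum (Complex.exp z)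
  have husub : ∀ B : Finset κ, B.Nonempty → B ≠ Finset.univ → ∃ z, ∑ t ∈ B, u t z ≠ 0 := by
    intro B hB hB'
    obtain ⟨z, hz⟩ := hsub B hB hB'
    have hc : Continuous fun z => ∑ t ∈ B, U t z :=
      continuous_finsetSum _ fun t _ => (hUd t).continuous
    exact size_exp hc hz
  have hu0 : ∀ t, ∃ z, u t z ≠ 0 := by
    intro t
    obtain ⟨z, hz⟩ := husub {t} (Finset.singleton_nonempty t) (by
      intro h
      have := congrArg Finset.card h
      rw [Finset.card_singleton, Finset.card_univ] at this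
      omega)
    rw [Finset.sum_singleton] at hz
    exact ⟨z, hz⟩
  have hG0 : ∀ t, ∃ z, eval (fun j => g j z) (G t) ≠ 0 := by
    intro t
    obtain ⟨z, hz⟩ := hu0 t
    exact ⟨z, left_ne_zero_of_mul hz⟩
  have hl0 : ∀ t, ∃ z, eval (fun j => g j z) (lin ℂ n (p t)) ≠ 0 := by
    intro t
    obtain ⟨z, hz⟩ := hu0 t
    refine ⟨z, fun h => right_ne_zero_of_mul hz ?_⟩
    rw [h]
    exact zero_pow (by omega)
  obtain ⟨l, hl⟩ : ∃ l, ∃ z, g l z ≠ 0 := by
    obtain ⟨l, hl⟩ := hg0 0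
    exact ⟨l, 0, hl⟩
  have hlog : ∀ t, Le L τ (e + 2) (logDeriv fun w => u t w / g l w ^ (D + e)) := fun t =>
    h5 n g hgd hg0 L H e D (G t) (lin ℂ n (p t)) (hG t) (size_lin_hom n (p t)) l hl (hG0 t) (hl0 t)
  -- the graph
  let Gr : SimpleGraph κ :=
    { Adj := fun i j => i ≠ j ∧ (Le L τ C₀ fun z => u i z / u j z) ∧
        Le L τ C₀ fun z => u j z / u i z
      symm := ⟨fun i j h => ⟨h.1.symm, h.2.2, h.2.1⟩⟩
      loopless := ⟨fun i h => h.1 rfl⟩ }
  have hreach : ∀ i j, Gr.Reachable i j := by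
    refine h1 (ℂ → ℂ) κ u (by
      funext z
      rw [Finset.sum_apply]
      exact husum z) (by
      intro B hB hB' h
      obtain ⟨z, hz⟩ := husub B hB hB'
      apply hz
      have := congrFun h z
      rwa [Finset.sum_apply] at this) Gr.Reachable Gr.reachable_is_equivalence ?_
    intro a ha hasum hmin i j hai haj
    by_cases hij : i = j
    · rw [hij]
    · have hfun : ∀ b : κ → ℂ, (∀ z, ∑ i, b i * u i z = 0) → ∑ i, b i • u i = 0 := by
        intro b hb
        funext z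
        rw [Finset.sum_apply]
        exact hb z
      have hfun' : ∀ z, ∑ i, a i * u i z = 0 := by
        intro z
        have := congrFun hasum z
        rw [Finset.sum_apply] at this
        exact this
      have hs : Differentiable ℂ fun w => g l w ^ (D + e) := (hgd l).pow _
      have hs0 : ∃ z, g l z ^ (D + e) ≠ 0 := by
        obtain ⟨z, hz⟩ := hl
        exact ⟨z, pow_ne_zero _ hz⟩
      have hmin' : ∀ b : κ → ℂ, (∀ i, a i = 0 → b i = 0) → (∀ z, ∑ i, b i * u i z = 0) →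
          ∃ c : ℂ, b = c • a := fun b hb hb' => hmin b hb (hfun b hb')
      refine SimpleGraph.Adj.reachable ⟨hij, ?_, ?_⟩
      · rw [hC₀]
        exact size_circuit h3 H hτ0 Cd hCd hM u hud _ hs hs0 hlog a hfun'
          hmin' hij hai haj
      · rw [hC₀]
        exact size_circuit h3 H hτ0 Cd hCd hM u hud _ hs hs0 hlog a hfun'
          hmin' (Ne.symm hij) haj hai
  have hratio : ∀ i j, Le L τ (M * C₀) fun z => u i z / u j z := by
    intro i j
    obtain ⟨w, hw⟩ := (hreach i j).exists_isPath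
    have h8 := size_walk H u hud hu0 C₀ Gr (fun i j h => h.2.1) w
    refine size_mono hτ0 ?_ h8
    refine mul_le_mul_of_nonneg_right ?_ hC₀0
    have := hw.length_lt
    exact_mod_cast (by omega : w.length ≤ M)
  -- the linear forms
  obtain ⟨ψ⟩ : Nonempty (Fin (n + 1) ↪ κ) := by
    rw [Function.Embedding.nonempty_iff_card_le, Fintype.card_fin]
    exact hn1
  set ℓ : Fin (n + 1) → ℂ → ℂ := fun i z => eval (fun j => g j z) (lin ℂ n (p (ψ i))) with hℓ
  have hℓd : ∀ i, Differentiable ℂ (ℓ i) := fun i => form_diff hgd _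
  have hA : LinearIndependent ℂ (fun i j : Fin (n + 1) => ((p (ψ i) : ℕ) : ℂ) ^ (j : ℕ)) := by
    have h8 : (Matrix.vandermonde fun i : Fin (n + 1) => ((p (ψ i) : ℕ) : ℂ)).det ≠ 0 := by
      rw [Matrix.det_vandermonde_ne_zero_iff]
      intro i j hij
      exact ψ.injective (hp (Nat.cast_injective hij))
    exact Matrix.linearIndependent_rows_of_det_ne_zero h8
  have hℓ0 : ∀ i, ∃ z, ℓ i z ≠ 0 := fun i => hl0 _
  have hℓeq : ∀ i z, ∑ j : Fin (n + 1), (((p (ψ i) : ℕ) : ℂ) ^ (j : ℕ)) * g j z = ℓ i z := fun i z =>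
    (size_lin _ _).symm
  obtain ⟨Ct, hCt⟩ := h6 n g hgd hg0 (fun i j => ((p (ψ i) : ℕ) : ℂ) ^ (j : ℕ)) hA 0 (by
    obtain ⟨z, hz⟩ := hℓ0 0
    exact ⟨z, by rw [hℓeq]; exact hz⟩)
  simp only [hℓeq] at hCt
  have hpowl : ∀ i, Le L τ (M * C₀ + e) fun z => (ℓ i z / ℓ 0 z) ^ D := by
    intro i
    obtain ⟨Cf, hCf⟩ := h4 n g hgd hg0 e (G (ψ 0)) (G (ψ i)) (hG _) (hG _) (hG0 _)
    have h8 : Le L τ e fun z => eval (fun j => g j z) (G (ψ 0)) / eval (fun j => g j z) (G (ψ i)) := by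
      refine ⟨(diff_mero (form_diff hgd _)).div (diff_mero (form_diff hgd _)), fun _ => Cf,
        H.const Cf, ?_⟩
      filter_upwards [H.ge] with r hr
      exact (hCf r hr).1
    have hmp : Meromorphic fun z => (ℓ i z / ℓ 0 z) ^ D := fun z =>
      (((diff_mero (hℓd i)).div (diff_mero (hℓd 0))) z).pow D
    refine size_congr H (size_mul H (hratio (ψ i) (ψ 0)) h8) hmp ?_
    filter_upwards [diff_ne (form_diff hgd (G (ψ 0))) (hG0 _),
      diff_ne (form_diff hgd (G (ψ i))) (hG0 _), diff_ne (hℓd 0) (hℓ0 0)] with z hz1 hz2 hz3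
    simp only [hu, hℓ] at hz3 ⊢
    have hz4 := pow_ne_zero D hz3
    rw [div_pow]
    field_simp
  -- the final inequality
  have hfin : ∃ s : ℝ → ℝ, s =o[L] τ ∧
      ∀ᶠ r in L, (D : ℝ) * τ r ≤ ((n : ℝ) + 1) * (M * C₀ + e) * τ r + s r := by
    choose ml s hs hb using hpowl
    refine ⟨fun r => ∑ i, s i r + D * Ct, (IsLittleO.fun_sum fun i _ => hs i).add (H.const _), ?_⟩
    filter_upwards [eventually_all.2 hb, H.ge] with r hr hr1
    have h9 := mul_le_mul_of_nonneg_left (hCt r hr1) (Nat.cast_nonneg (α := ℝ) D)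
    refine h9.trans ?_
    rw [mul_add, Finset.mul_sum]
    have h10 : ∀ i, (D : ℝ) * characteristic (fun z => ℓ i z / ℓ 0 z) ⊤ r ≤
        (M * C₀ + e) * τ r + s i r := by
      intro i
      have h11 : characteristic (fun z => (ℓ i z / ℓ 0 z) ^ D) ⊤ r =
          (D : ℝ) * characteristic (fun z => ℓ i z / ℓ 0 z) ⊤ r := by
        have h12 := characteristic_pow_top (n := D) ((diff_mero (hℓd i)).div (diff_mero (hℓd 0)))
        have h13 : (fun z => (ℓ i z / ℓ 0 z) ^ D) = (ℓ i / ℓ 0) ^ D := rfl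
        have h15 : (fun z => ℓ i z / ℓ 0 z) = ℓ i / ℓ 0 := rfl
        rw [h13, h12, h15, Pi.smul_apply, nsmul_eq_mul]
      rw [← h11]
      exact hr i
    have h14 := Finset.sum_le_sum fun i (_ : i ∈ (Finset.univ : Finset (Fin (n + 1)))) => h10 i
    rw [Finset.sum_add_distrib, Finset.sum_const, Finset.card_univ, Fintype.card_fin,
      nsmul_eq_mul] at h14
    push_cast at h14
    linarith
  obtain ⟨s, hs, hb⟩ := hfin
  have hne : L.NeBot := H.big.ne
  have hgap : 0 < (D : ℝ) - ((n : ℝ) + 1) * (M * C₀ + e) := by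
    have : (D₁ : ℝ) ≤ D := by exact_mod_cast (by omega : D₁ ≤ D)
    linarith
  set δ : ℝ := (D : ℝ) - ((n : ℝ) + 1) * (M * C₀ + e) with hδ
  have h8 := isLittleO_iff.1 hs (show 0 < δ / 2 by positivity)
  have h9 := isLittleO_iff.1 H.one (show (0 : ℝ) < 1 by norm_num)
  obtain ⟨r, hr1, hr2, hr3, hr4⟩ := (h8.and (h9.and (hb.and hτ0))).exists
  rw [Real.norm_eq_abs, Real.norm_eq_abs, abs_of_nonneg hr4] at hr1
  rw [Real.norm_eq_abs, Real.norm_eq_abs, abs_of_nonneg hr4, abs_one, one_mul] at hr2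
  have h10 := le_abs_self (s r)
  have h11 : δ * τ r ≤ δ / 2 * τ r := by
    have : δ * τ r = D * τ r - ((n : ℝ) + 1) * (M * C₀ + e) * τ r := by rw [hδ]; ring
    linarith
  nlinarith

end Pool.Agent.N254.SQ
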