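import Pool.Agent.N254.SQ.Stm

/-!
Project SQ (helper254), subtask 3225: the general hypersurface is smooth (helper157).
-/

set_option autoImplicit false

namespace Pool.Agent.N254.SQ

open MvPolynomial

section smooth

/-- values of a homogeneous polynomial at a scaled point -/
theorem smooth_scale {K Ω : Type} [Field K] [Field Ω] [Algebra K Ω] {n m : ℕ}
    {φ : MvPolynomial (Fin (n + 1)) K} (hφ : φ.IsHomogeneous m) (c : Ω) (x : Fin (n + 1) → Ω) :
    aeval (fun j => c * x j) φ = c ^ m * aeval x φ := by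
  rw [aeval_def, aeval_def, eval₂_eq', eval₂_eq', Finset.mul_sum]
  apply Finset.sum_congr rfl
  intro d hd
  have h1 : ∑ j, d j = m := by
    have := hφ.degree_eq_sum_deg_support hd
    rw [this]
    exact (Finset.sum_subset (Finset.subset_univ _) (fun j _ hj => Finsupp.notMem_support_iff.1 hj)).symm
  rw [← h1, ← Finset.prod_pow_eq_pow_sum]
  simp only [mul_pow, Finset.prod_mul_distrib]
  ring

theorem smooth_lin_map (K Ω : Type) [Field K] [Field Ω] [Algebra K Ω] (n t : ℕ) :
    lin Ω n t = map (algebraMap K Ω) (lin K n t) := by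
  unfold lin
  rw [map_sum]
  apply Finset.sum_congr rfl
  intro j _
  rw [map_mul, map_C, map_X, map_pow (algebraMap K Ω), map_natCast (algebraMap K Ω)]

theorem smooth_lin_eval {K Ω : Type} [Field K] [Field Ω] [Algebra K Ω] (n t : ℕ)
    (x : Fin (n + 1) → Ω) : aeval x (lin K n t) = ∑ j : Fin (n + 1), x j * (t : Ω) ^ (j : ℕ) := by
  unfold lin
  rw [map_sum]
  apply Finset.sum_congr rfl
  intro j _
  rw [map_mul, aeval_C, aeval_X, map_pow, map_natCast, mul_comm]

theorem smooth_lin_pderiv (K : Type) [Field K] (n t : ℕ) (j : Fin (n + 1)) :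
    pderiv j (lin K n t) = C ((t : K) ^ (j : ℕ)) := by
  classical
  unfold lin
  rw [map_sum, Finset.sum_eq_single j]
  · rw [pderiv_C_mul, pderiv_X_self, mul_one]
  · intro b _ hb
    rw [pderiv_C_mul, pderiv_X_of_ne hb, mul_zero]
  · intro h
    exact absurd (Finset.mem_univ _) h

theorem smooth_lin_hom (K : Type) [Field K] (n t : ℕ) : (lin K n t).IsHomogeneous 1 := by
  unfold lin
  apply IsHomogeneous.sum
  intro j _
  exact isHomogeneous_C_mul_X _ _

/-- a vector whose form vanishes for `n + 1` values of `t` is zero -/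
theorem smooth_vand {Ω : Type} [Field Ω] [CharZero Ω] {n L : ℕ} (w : Fin (n + 1) → Ω)
    (T : Finset (Fin L)) (hT : n + 1 ≤ T.card)
    (h : ∀ t ∈ T, ∑ j : Fin (n + 1), w j * ((t : ℕ) : Ω) ^ (j : ℕ) = 0) : w = 0 := by
  classical
  set p : Polynomial Ω := ∑ j : Fin (n + 1), Polynomial.C (w j) * Polynomial.X ^ (j : ℕ) with hp
  have heval : ∀ z : Ω, p.eval z = ∑ j : Fin (n + 1), w j * z ^ (j : ℕ) := by
    intro z
    rw [hp, Polynomial.eval_finsetSum]
    simp
  have hdeg : p.natDegree ≤ n := by
    rw [hp]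
    apply Polynomial.natDegree_sum_le_of_forall_le
    intro j _
    refine (Polynomial.natDegree_C_mul_X_pow_le _ _).trans ?_
    omega
  have hp0 : p = 0 := by
    apply Polynomial.eq_zero_of_natDegree_lt_card_of_eval_eq_zero' p
      (T.image fun t : Fin L => ((t : ℕ) : Ω))
    · intro z hz
      obtain ⟨t, ht, rfl⟩ := Finset.mem_image.1 hz
      rw [heval]
      exact h t ht
    · rw [Finset.card_image_of_injective]
      · omega
      · intro a b hab
        have : ((a : ℕ) : Ω) = ((b : ℕ) : Ω) := hab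
        exact Fin.ext (Nat.cast_injective this)
  funext j
  have h1 := congrArg (fun p : Polynomial Ω => p.coeff (j : ℕ)) hp0
  simp only [hp, Polynomial.finsetSum_coeff, Polynomial.coeff_C_mul, Polynomial.coeff_X_pow,
    Polynomial.coeff_zero] at h1
  rw [Finset.sum_eq_single j] at h1
  · simpa using h1
  · intro b _ hb
    have : ¬ (j : ℕ) = (b : ℕ) := fun h => hb (Fin.ext h.symm)
    rw [if_neg this, mul_zero]
  · intro h
    exact absurd (Finset.mem_univ _) h

/-- the entries -/
theorem smooth_entry {K Ω : Type} [Field K] [Field Ω] [Algebra K Ω] {n : ℕ} (D t : ℕ) (hD : 1 ≤ D)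
    (q : MvPolynomial (Fin (n + 1)) K) (j : Fin (n + 1)) (x : Fin (n + 1) → Ω) :
    aeval x (pderiv j (q * lin K n t ^ D)) = aeval x (lin K n t) ^ (D - 1) *
      (aeval x (pderiv j q) * aeval x (lin K n t) + D * aeval x q * (t : Ω) ^ (j : ℕ)) := by
  rw [pderiv_mul, Derivation.leibniz_pow, smooth_lin_pderiv]
  simp only [map_add, map_mul, map_pow, smul_eq_mul, nsmul_eq_mul, map_natCast]
  obtain ⟨D', rfl⟩ : ∃ D', D = D' + 1 := ⟨D - 1, by omega⟩
  rw [Nat.add_sub_cancel]
  push_cast
  ring

/-- the generic case -/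
theorem smooth_core (hcount : Count_stm) (htd : Td_stm)
    {K : Type} [Field K] [CharZero K] {n L D e r : ℕ} {ι : Type} [Fintype ι]
    {q : ι → MvPolynomial (Fin (n + 1)) K} (hq : ∀ i, (q i).IsHomogeneous e) (hD : 1 ≤ D)
    (hL : 2 * n + 1 ≤ L)
    (hrank : ∀ (Ω : Type) [Field Ω] [Algebra K Ω] (x : Fin (n + 1) → Ω), x ≠ 0 →
      (∀ i, aeval x (q i) = 0) →
      r < (Matrix.of fun (i : ι) (j : Fin (n + 1)) => (aeval x (pderiv j (q i)) : Ω)).rank)
    (htr : ∀ (Ω : Type) [Field Ω] [Algebra K Ω] (x : Fin (n + 1) → Ω) (a : Fin (n + 1)), x a = 1 →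
      (∀ i, aeval x (q i) = 0) → Algebra.trdeg K (Algebra.adjoin K (Set.range x)) ≤ r)
    (Ω : Type) [Field Ω] [Algebra K Ω] (y : Fin L × ι → Ω) (x : Fin (n + 1) → Ω)
    (hy : AlgebraicIndependent K y) (a : Fin (n + 1)) (ha : x a = 1)
    (hz : ∀ j, ∑ s : Fin L × ι, aeval x (pderiv j (q s.2 * lin K n (s.1 : ℕ) ^ D)) * y s = 0) :
    False := by
  classical
  have hch : CharZero Ω := charZero_of_injective_algebraMap (FaithfulSMul.algebraMap_injective K Ω)
  have hx0 : x ≠ 0 := by
    intro h
    rw [h] at ha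
    exact zero_ne_one ha
  set P : Matrix (Fin (n + 1)) (Fin L × ι) (MvPolynomial (Fin (n + 1)) K) :=
    Matrix.of fun j s => pderiv j (q s.2 * lin K n (s.1 : ℕ) ^ D) with hP
  have hcnt := hcount K Ω (Fin (n + 1)) (Fin L × ι) (Fin (n + 1)) x y hy P (fun j => hz j)
  set M : Matrix (Fin (n + 1)) (Fin L × ι) Ω := P.map fun p => (aeval x p : Ω) with hM
  have hMe : ∀ j t i, M j (t, i) = aeval x (lin K n (t : ℕ)) ^ (D - 1) *
      (aeval x (pderiv j (q i)) * aeval x (lin K n (t : ℕ)) +
        D * aeval x (q i) * ((t : ℕ) : Ω) ^ (j : ℕ)) := by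
    intro j t i
    exact smooth_entry D t hD (q i) j x
  -- the forms which do not vanish
  set T : Finset (Fin L) := Finset.univ.filter fun t : Fin L => aeval x (lin K n (t : ℕ)) ≠ (0 : Ω)
    with hT
  have hTc : n + 1 ≤ T.card := by
    by_contra hcon
    have h1 := Finset.card_filter_add_card_filter_not (s := (Finset.univ : Finset (Fin L)))
      (p := fun t : Fin L => aeval x (lin K n (t : ℕ)) ≠ (0 : Ω))
    rw [Finset.card_univ, Fintype.card_fin] at h1
    apply hx0
    apply smooth_vand x (Finset.univ.filter fun t : Fin L => ¬ aeval x (lin K n (t : ℕ)) ≠ (0 : Ω))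
    · rw [← hT] at h1
      omega
    · intro t ht
      have h2 := (Finset.mem_filter.1 ht).2
      rw [not_not, smooth_lin_eval] at h2
      exact h2
  by_cases hall : ∀ i, aeval x (q i) = (0 : Ω)
  · -- case 2
    obtain ⟨t₀, ht₀⟩ : T.Nonempty := Finset.card_pos.1 (by omega)
    have hl0 := (Finset.mem_filter.1 ht₀).2
    set l : Ω := aeval x (lin K n (t₀ : ℕ)) with hl
    have hJ : (Matrix.of fun (i : ι) (j : Fin (n + 1)) => (aeval x (pderiv j (q i)) : Ω)).rank ≤
        M.rank := by
      have h1 : (Matrix.of fun (i : ι) (j : Fin (n + 1)) => (aeval x (pderiv j (q i)) : Ω)) =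
          ((M.submatrix id fun i : ι => (t₀, i)).transpose) *
            ((l ^ D)⁻¹ • (1 : Matrix (Fin (n + 1)) (Fin (n + 1)) Ω)) := by
        ext i j
        rw [Matrix.mul_smul, Matrix.mul_one, Matrix.smul_apply, Matrix.transpose_apply,
          Matrix.submatrix_apply, id, hMe, hall i, Matrix.of_apply, smul_eq_mul]
        have h2 : l ^ D = l ^ (D - 1) * l := by
          rw [← pow_succ]
          congr 1
          omega
        have h3 : l ^ (D - 1) ≠ 0 := pow_ne_zero _ hl0
        rw [h2]
        field_simp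
        ring
      rw [h1]
      refine (Matrix.rank_mul_le_left _ _).trans ?_
      rw [Matrix.rank_transpose]
      exact Matrix.rank_submatrix_le _ _ _
    have h1 := hrank Ω x hx0 hall
    have h2 := htr Ω x a ha hall
    have h3 := hcnt.trans h2
    rw [Nat.cast_le] at h3
    omega
  · -- case 1
    push Not at hall
    obtain ⟨i₀, hi₀⟩ := hall
    have h2 := htd K Ω n n x a x ha (fun b => ⟨X b, (aeval_X _ _).symm⟩)
    have h3 := hcnt.trans h2
    rw [Nat.cast_le] at h3
    have hli : LinearIndependent Ω M.row := by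
      rw [Fintype.linearIndependent_iff]
      intro g hg
      have hg' : ∀ t i, ∑ j, g j * M j (t, i) = 0 := by
        intro t i
        have := congrFun hg (t, i)
        simpa [Finset.sum_apply, Matrix.row] using this
      set qv : Ω := aeval x (q i₀) with hqv
      set Dq : Ω := ∑ j, g j * aeval x (pderiv j (q i₀)) with hDq
      have hw : (fun j => Dq * x j + D * qv * g j) = 0 := by
        apply smooth_vand _ T hTc
        intro t ht
        have hl0 := (Finset.mem_filter.1 ht).2
        have h4 := hg' t i₀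
        have h5 : ∑ j, g j * M j (t, i₀) = aeval x (lin K n (t : ℕ)) ^ (D - 1) *
            ∑ j : Fin (n + 1), (Dq * x j + D * qv * g j) * ((t : ℕ) : Ω) ^ (j : ℕ) := by
          have h6 : ∑ j : Fin (n + 1), (Dq * x j + D * qv * g j) * ((t : ℕ) : Ω) ^ (j : ℕ) =
              Dq * aeval x (lin K n (t : ℕ)) + D * qv * ∑ j : Fin (n + 1), g j * ((t : ℕ) : Ω) ^ (j : ℕ) := by
            rw [smooth_lin_eval, Finset.mul_sum, Finset.mul_sum, ← Finset.sum_add_distrib]
            apply Finset.sum_congr rfl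
            intro j _
            ring
          rw [h6, hDq, Finset.sum_mul, Finset.mul_sum, ← Finset.sum_add_distrib, Finset.mul_sum]
          apply Finset.sum_congr rfl
          intro j _
          rw [hMe]
          ring
        rw [h5] at h4
        exact (mul_eq_zero.1 h4).resolve_left (pow_ne_zero _ hl0)
      have heuler : ∑ j, x j * aeval x (pderiv j (q i₀)) = e * qv := by
        have h4 := congrArg (aeval x) (hq i₀).sum_X_mul_pderiv
        rw [map_sum, map_nsmul, nsmul_eq_mul] at h4
        rw [← h4]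
        apply Finset.sum_congr rfl
        intro j _
        rw [map_mul, aeval_X]
      have hD0 : (D : Ω) ≠ 0 := Nat.cast_ne_zero.2 (by omega)
      have hDq0 : Dq = 0 := by
        have h4 : ∑ j, (Dq * x j + D * qv * g j) * aeval x (pderiv j (q i₀)) = 0 := by
          apply Finset.sum_eq_zero
          intro j _
          have := congrFun hw j
          simp only [Pi.zero_apply] at this
          rw [this, zero_mul]
        have h5 : ∑ j, (Dq * x j + D * qv * g j) * aeval x (pderiv j (q i₀)) =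
            Dq * (e * qv) + D * qv * Dq := by
          rw [← heuler]
          nth_rewrite 3 [hDq]
          rw [Finset.mul_sum, Finset.mul_sum, ← Finset.sum_add_distrib]
          apply Finset.sum_congr rfl
          intro j _
          ring
        rw [h5] at h4
        have h6 : Dq * qv * ((e + D : ℕ) : Ω) = 0 := by
          push_cast
          linear_combination h4
        have h7 : ((e + D : ℕ) : Ω) ≠ 0 := Nat.cast_ne_zero.2 (by omega)
        rcases mul_eq_zero.1 ((mul_eq_zero.1 h6).resolve_right h7) with h | h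
        · exact h
        · exact absurd h hi₀
      intro j
      have := congrFun hw j
      simp only [Pi.zero_apply, hDq0, zero_mul, zero_add] at this
      exact (mul_eq_zero.1 this).resolve_left (mul_ne_zero hD0 hi₀)
    rw [hli.rank_matrix, Fintype.card_fin] at h3
    omega

/-- SMOOTH -/
theorem t_smooth (h1 : Spec_stm) (h2 : Count_stm) (h3 : Td_stm) : Smooth_stm := by
  classical
  intro K _ _ n L D e r ι _ q hq hD hL hrank htr
  set P : Fin (n + 1) → MvPolynomial ((Fin L × ι) ⊕ Fin (n + 1)) K := fun j =>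
    ∑ s : Fin L × ι, X (Sum.inl s) * rename Sum.inr (pderiv j (q s.2 * lin K n (s.1 : ℕ) ^ D)) with hP
  have hPe : ∀ (Ω : Type) [Field Ω] [Algebra K Ω] (y : Fin L × ι → Ω) (x : Fin (n + 1) → Ω) j,
      aeval (Sum.elim y x) (P j) =
        ∑ s : Fin L × ι, aeval x (pderiv j (q s.2 * lin K n (s.1 : ℕ) ^ D)) * y s := by
    intro Ω _ _ y x j
    rw [hP, map_sum]
    apply Finset.sum_congr rfl
    intro s _
    rw [map_mul, aeval_X, aeval_rename, Sum.elim_comp_inr, Sum.elim_inl, mul_comm]
  have hhom : ∀ j (s : Fin L × ι), (pderiv j (q s.2 * lin K n (s.1 : ℕ) ^ D)).IsHomogeneous (e + 1 * D - 1) :=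
    fun j s => ((hq s.2).mul ((smooth_lin_hom K n s.1).pow D)).pderiv
  have hgen : ∀ a : Fin (n + 1), ∃ Δ : MvPolynomial (Fin L × ι) K, Δ ≠ 0 ∧
      ∀ (Ω : Type) [Field Ω] [Algebra K Ω] (c : Fin L × ι → Ω) (x : Fin (n + 1) → Ω), aeval c Δ ≠ 0 →
        (∀ i, aeval (Sum.elim c x) (P i) = 0) →
          aeval (Sum.elim c x) (X (Sum.inr a) : MvPolynomial ((Fin L × ι) ⊕ Fin (n + 1)) K) = 0 := by
    intro a
    apply h1
    intro Ω _ _ y x hy hz
    rw [aeval_X, Sum.elim_inr]
    by_contra hxa
    have hz' : ∀ j, ∑ s : Fin L × ι, aeval x (pderiv j (q s.2 * lin K n (s.1 : ℕ) ^ D)) * y s = 0 :=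
      fun j => by rw [← hPe]; exact hz j
    apply smooth_core h2 h3 hq hD hL hrank htr Ω y (fun j => (x a)⁻¹ * x j) hy a
      (inv_mul_cancel₀ hxa)
    intro j
    have h4 : ∀ s : Fin L × ι, aeval (fun j => (x a)⁻¹ * x j) (pderiv j (q s.2 * lin K n (s.1 : ℕ) ^ D)) * y s =
        (x a)⁻¹ ^ (e + 1 * D - 1) * (aeval x (pderiv j (q s.2 * lin K n (s.1 : ℕ) ^ D)) * y s) := by
      intro s
      rw [smooth_scale (hhom j s)]
      ring
    rw [Finset.sum_congr rfl (fun s _ => h4 s), ← Finset.mul_sum, hz' j, mul_zero]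
  choose Δ hΔ0 hΔ using hgen
  refine ⟨∏ a, Δ a, Finset.prod_ne_zero_iff.2 (fun a _ => hΔ0 a), ?_⟩
  intro Ω _ _ c hc x hx
  by_contra hcon
  push Not at hcon
  rw [map_prod, Finset.prod_ne_zero_iff] at hc
  apply hx
  funext a
  have h4 := hΔ a Ω c x (hc a (Finset.mem_univ _)) (by
    intro j
    rw [hPe, ← hcon j]
    rw [map_sum, map_sum, Fintype.sum_prod_type]
    apply Finset.sum_congr rfl
    intro t _
    rw [Finset.sum_mul, map_sum, map_sum]
    apply Finset.sum_congr rfl
    intro i _
    rw [smooth_lin_map K Ω, mul_assoc, ← map_pow, ← map_mul, pderiv_C_mul, pderiv_map, (eval x).map_mul,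
      eval_C, eval_map, ← aeval_def, mul_comm])
  rw [aeval_X, Sum.elim_inr] at h4
  exact h4

end smooth
end Pool.Agent.N254.SQ
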