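import Pool.Agent.N254.SQ.Stm

/-!
# Specialization of systems of equations with generic coefficients (helper134)
-/

set_option autoImplicit false

namespace Pool.Agent.N254.SQ

open MvPolynomial

/-- the products `Δ h ^ N` -/
theorem spec_key (K : Type) [Field K] (σ τ ι : Type) (P : ι → MvPolynomial (σ ⊕ τ) K)
    (h : MvPolynomial (σ ⊕ τ) K)
    (hyp : ∀ (Ω : Type) [Field Ω] [Algebra K Ω] (y : σ → Ω) (x : τ → Ω),
      AlgebraicIndependent K y →
      (∀ i, aeval (Sum.elim y x) (P i) = 0) → aeval (Sum.elim y x) h = 0) :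
    ∃ (Δ : MvPolynomial σ K) (N : ℕ), Δ ≠ 0 ∧
      rename Sum.inl Δ * h ^ N ∈ Ideal.span (Set.range P) := by
  by_contra hcon
  push Not at hcon
  let M : Submonoid (MvPolynomial (σ ⊕ τ) K) :=
    { carrier := {f | ∃ (Δ : MvPolynomial σ K) (N : ℕ), Δ ≠ 0 ∧ f = rename Sum.inl Δ * h ^ N}
      mul_mem' := by
        rintro f g ⟨Δ, N, hΔ, rfl⟩ ⟨Δ', N', hΔ', rfl⟩
        refine ⟨Δ * Δ', N + N', mul_ne_zero hΔ hΔ', ?_⟩
        rw [map_mul, pow_add]
        ring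
      one_mem' := ⟨1, 0, one_ne_zero, by rw [map_one, pow_zero, mul_one]⟩ }
  have hdis : Disjoint (Ideal.span (Set.range P) : Set (MvPolynomial (σ ⊕ τ) K)) M := by
    rw [Set.disjoint_left]
    rintro f hf ⟨Δ, N, hΔ, rfl⟩
    exact hcon Δ N hΔ hf
  obtain ⟨p, hp, hIp, hpM⟩ := Ideal.exists_le_prime_disjoint _ M hdis
  rw [Set.disjoint_left] at hpM
  let Ω := FractionRing (MvPolynomial (σ ⊕ τ) K ⧸ p)
  let φ : MvPolynomial (σ ⊕ τ) K →ₐ[K] Ω :=
    (IsScalarTower.toAlgHom K (MvPolynomial (σ ⊕ τ) K ⧸ p) Ω).comp (Ideal.Quotient.mkₐ K p)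
  have hφ : ∀ Q, φ Q = 0 ↔ Q ∈ p := by
    intro Q
    have h1 : φ Q = algebraMap (MvPolynomial (σ ⊕ τ) K ⧸ p) Ω (Ideal.Quotient.mk p Q) := rfl
    rw [h1, map_eq_zero_iff _ (IsFractionRing.injective (MvPolynomial (σ ⊕ τ) K ⧸ p) Ω),
      Ideal.Quotient.eq_zero_iff_mem]
  have hev : aeval (Sum.elim (fun s => φ (X (Sum.inl s))) (fun t => φ (X (Sum.inr t)))) = φ := by
    apply MvPolynomial.algHom_ext
    rintro (s | t)
    · rw [aeval_X]; rfl
    · rw [aeval_X]; rfl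
  have hy : AlgebraicIndependent K (fun s => φ (X (Sum.inl s))) := by
    rw [algebraicIndependent_iff]
    intro Δ hΔ
    by_contra hne
    have h1 : φ (rename Sum.inl Δ) = 0 := by
      rw [← hev, aeval_rename, Sum.elim_comp_inl]
      exact hΔ
    rw [hφ] at h1
    exact hpM h1 ⟨Δ, 0, hne, by rw [pow_zero, mul_one]⟩
  have h1 := hyp Ω (fun s => φ (X (Sum.inl s))) (fun t => φ (X (Sum.inr t))) hy (fun i => by
    rw [hev, hφ]
    exact hIp (Ideal.subset_span ⟨i, rfl⟩))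
  rw [hev, hφ] at h1
  exact hpM h1 ⟨1, 1, one_ne_zero, by rw [map_one, pow_one, one_mul]⟩

/-- SPEC -/
theorem t_spec : Spec_stm := by
  intro K _ σ τ ι P h hyp
  obtain ⟨Δ, N, hΔ, hmem⟩ := spec_key K σ τ ι P h hyp
  refine ⟨Δ, hΔ, ?_⟩
  intro Ω _ _ c x hc hP
  have hle : Ideal.span (Set.range P) ≤ RingHom.ker (aeval (Sum.elim c x)) := by
    rw [Ideal.span_le]
    rintro f ⟨i, rfl⟩
    exact hP i
  have h1 := hle hmem
  rw [RingHom.mem_ker, map_mul, map_pow, aeval_rename, Sum.elim_comp_inl] at h1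
  by_contra hne
  exact mul_ne_zero hc (pow_ne_zero N hne) h1

end Pool.Agent.N254.SQ
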