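import Pool.Agent.N254.SQ.Stm

/-!
TOP: a curve grows at most like the ratios of independent linear forms (helper296 for helper254)
-/

set_option autoImplicit false

namespace Pool.Agent.N254.SQ

open MeasureTheory Set Filter Topology Metric Real ValueDistribution

/-- the coordinates in terms of independent linear forms -/
theorem top_inv {n : ℕ} (A : Fin (n + 1) → Fin (n + 1) → ℂ) (hA : LinearIndependent ℂ A) :
    ∃ B : Matrix (Fin (n + 1)) (Fin (n + 1)) ℂ, ∀ (v : Fin (n + 1) → ℂ) (j : Fin (n + 1)),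
      v j = ∑ i, B j i * ∑ k, A i k * v k := by
  have hu : IsUnit (Matrix.of A) := Matrix.linearIndependent_rows_iff_isUnit.1 hA
  refine ⟨(Matrix.of A)⁻¹, fun v j => ?_⟩
  have h1 : (Matrix.of A)⁻¹ * Matrix.of A = 1 :=
    Matrix.nonsing_inv_mul _ ((Matrix.isUnit_iff_isUnit_det _).1 hu)
  have h2 : (Matrix.of A)⁻¹.mulVec ((Matrix.of A).mulVec v) = v := by
    rw [Matrix.mulVec_mulVec, h1, Matrix.one_mulVec]
  have h3 := congrFun h2 j
  rw [← h3]
  rfl

/-- TOP -/
theorem t_top : Top_stm := by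
  intro n f hf h0 A hA i₀ hi₀
  obtain ⟨B, hB⟩ := top_inv A hA
  obtain ⟨g, hg⟩ : ∃ g : Fin (n + 1) → ℂ → ℂ, g = fun i z => ∑ j, A i j * f j z := ⟨_, rfl⟩
  have hgd : ∀ i, Differentiable ℂ (g i) := by
    intro i
    rw [hg]
    exact Differentiable.fun_sum fun j _ => (hf j).const_mul (A i j)
  have hfg : ∀ z j, f j z = ∑ i, B j i * g i z := by
    intro z j
    rw [hg]
    exact hB (fun j => f j z) j
  have hg0 : ∀ z, ∃ i, g i z ≠ 0 := by
    intro z
    by_contra hc
    push Not at hc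
    obtain ⟨j, hj⟩ := h0 z
    apply hj
    rw [hfg z j]
    exact Finset.sum_eq_zero fun i _ => by rw [hc i, mul_zero]
  obtain ⟨C, hC⟩ := Tf_le hgd hg0 i₀ (by rw [hg]; exact hi₀)
  obtain ⟨c, hc⟩ : ∃ c : ℝ, c = ∑ j, ∑ i, ‖B j i‖ + 1 := ⟨_, rfl⟩
  have hc0 : 0 < c := by
    have : 0 ≤ ∑ j, ∑ i, ‖B j i‖ :=
      Finset.sum_nonneg fun j _ => Finset.sum_nonneg fun i _ => norm_nonneg _
    rw [hc]
    linarith
  have hle : ∀ z, ‖(fun j => f j z : Fin (n + 1) → ℂ)‖ ≤
      c * ‖(fun i => g i z : Fin (n + 1) → ℂ)‖ := by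
    intro z
    rw [pi_norm_le_iff_of_nonneg (mul_nonneg hc0.le (norm_nonneg _))]
    intro j
    have h1 : ‖∑ i, B j i * g i z‖ ≤ (∑ i, ‖B j i‖) * ‖(fun i => g i z : Fin (n + 1) → ℂ)‖ := by
      rw [Finset.sum_mul]
      refine (norm_sum_le _ _).trans (Finset.sum_le_sum fun i _ => ?_)
      rw [norm_mul]
      exact mul_le_mul_of_nonneg_left (norm_le_pi_norm (fun i => g i z : Fin (n + 1) → ℂ) i)
        (norm_nonneg _)
    rw [hfg z j]
    refine h1.trans (mul_le_mul_of_nonneg_right ?_ (norm_nonneg _))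
    have h2 : ∑ i, ‖B j i‖ ≤ ∑ j, ∑ i, ‖B j i‖ :=
      Finset.single_le_sum (f := fun j => ∑ i, ‖B j i‖)
        (fun j _ => Finset.sum_nonneg fun i _ => norm_nonneg _) (Finset.mem_univ j)
    rw [hc]
    linarith
  refine ⟨C + Real.log c, fun r hr => ?_⟩
  have h1 := hC r hr
  have h2 : Tf f r ≤ Tf g r + Real.log c := by
    have e1 : Tf g r + Real.log c = circleAverage
        (fun z => Real.log ‖(fun i => g i z : Fin (n + 1) → ℂ)‖ + Real.log c) 0 r := by
      rw [circleAverage_fun_add (curve_int hgd hg0 r) (circleIntegrable_const _ _ _),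
        circleAverage_const]
      rfl
    rw [e1]
    refine circleAverage_mono (curve_int hf h0 r)
      ((curve_int hgd hg0 r).add (circleIntegrable_const _ _ _)) fun z _ => ?_
    have h3 := Real.log_le_log (curve_pos h0 z) (hle z)
    rw [Real.log_mul hc0.ne' (curve_pos hg0 z).ne'] at h3
    linarith
  have h4 : ∑ i, characteristic (fun z => g i z / g i₀ z) ⊤ r =
      ∑ i, characteristic (fun z => (∑ j, A i j * f j z) / (∑ j, A i₀ j * f j z)) ⊤ r := by
    rw [hg]
  rw [← h4]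
  linarith

end Pool.Agent.N254.SQ
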