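import Pool.Agent.N254.SQ.Stm

/-!
# Ratios in a minimal linear relation of entire functions (project SQ, leaf WR)
-/

set_option autoImplicit false

namespace Pool.Agent.N254.SQ

open MvPolynomial Filter Topology Asymptotics ValueDistribution

/-- Cramer's rule for a matrix with one more column than rows. -/
theorem wr_cramer {m : ℕ} (D : Fin (m + 1) → Fin (m + 2) → ℂ) (a : Fin (m + 2) → ℂ) (ha : a ≠ 0)
    (h : ∀ k, ∑ l, D k l * a l = 0) (i j : Fin (m + 2)) :
    (-1) ^ (i : ℕ) * a j * (Matrix.of fun k l : Fin (m + 1) => D k (i.succAbove l)).det =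
      (-1) ^ (j : ℕ) * a i * (Matrix.of fun k l : Fin (m + 1) => D k (j.succAbove l)).det := by
  classical
  let r : Fin (m + 2) → ℂ := Pi.single i (a j) - Pi.single j (a i)
  let N : Matrix (Fin (m + 2)) (Fin (m + 2)) ℂ := Matrix.of (Fin.cons r D)
  have hr : ∑ l, r l * a l = 0 := by
    simp only [r, Pi.sub_apply, sub_mul, Finset.sum_sub_distrib]
    rw [Finset.sum_eq_single i, Finset.sum_eq_single j]
    · rw [Pi.single_eq_same, Pi.single_eq_same]
      ring
    · intro l _ hl
      rw [Pi.single_eq_of_ne hl, zero_mul]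
    · intro h
      exact absurd (Finset.mem_univ _) h
    · intro l _ hl
      rw [Pi.single_eq_of_ne hl, zero_mul]
    · intro h
      exact absurd (Finset.mem_univ _) h
  have hN : N.det = 0 := by
    rw [← Matrix.exists_mulVec_eq_zero_iff]
    refine ⟨a, ha, ?_⟩
    funext k
    refine Fin.cases ?_ (fun k => ?_) k
    · change ∑ l, r l * a l = 0
      exact hr
    · change ∑ l, D k l * a l = 0
      exact h k
  rw [Matrix.det_succ_row_zero] at hN
  have hterm : ∀ l : Fin (m + 2), (-1) ^ (l : ℕ) * N 0 l *
      (N.submatrix Fin.succ l.succAbove).det =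
      (-1) ^ (l : ℕ) * r l * (Matrix.of fun k l' : Fin (m + 1) => D k (l.succAbove l')).det := by
    intro l
    rfl
  simp only [hterm] at hN
  have h2 : ∀ l : Fin (m + 2), (-1) ^ (l : ℕ) * r l *
      (Matrix.of fun k l' : Fin (m + 1) => D k (l.succAbove l')).det =
      (-1) ^ (l : ℕ) * (Pi.single i (a j) : Fin (m + 2) → ℂ) l *
      (Matrix.of fun k l' : Fin (m + 1) => D k (l.succAbove l')).det -
      (-1) ^ (l : ℕ) * (Pi.single j (a i) : Fin (m + 2) → ℂ) l *
      (Matrix.of fun k l' : Fin (m + 1) => D k (l.succAbove l')).det := by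
    intro l
    simp only [r, Pi.sub_apply]
    ring
  simp only [h2, Finset.sum_sub_distrib] at hN
  rw [Finset.sum_eq_single i, Finset.sum_eq_single j, Pi.single_eq_same, Pi.single_eq_same,
    sub_eq_zero] at hN
  · exact hN
  · intro l _ hl
    rw [Pi.single_eq_of_ne hl, mul_zero, zero_mul]
  · intro h
    exact absurd (Finset.mem_univ _) h
  · intro l _ hl
    rw [Pi.single_eq_of_ne hl, mul_zero, zero_mul]
  · intro h
    exact absurd (Finset.mem_univ _) h

theorem wr_iter_diff {y : ℂ → ℂ} (hy : Differentiable ℂ y) (k : ℕ) :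
    Differentiable ℂ (iteratedDeriv k y) :=
  (hy.contDiff (n := (k + 1 : ℕ))).differentiable_iteratedDeriv k (by exact_mod_cast Nat.lt_succ_self k)

/-- the operators `(d/dz - σ) ^ k` in terms of the derivatives -/
theorem wr_shift {σ : ℂ → ℂ} (hσ : Meromorphic σ) (k : ℕ) : ∃ T : ℕ → ℂ → ℂ,
    (∀ j, Meromorphic (T j)) ∧ (T k = fun _ => 1) ∧ (∀ j, k < j → T j = fun _ => 0) ∧
    ∀ y : ℂ → ℂ, Differentiable ℂ y → ∀ᶠ z in codiscrete ℂ,
      Eop σ k y z = ∑ j ∈ Finset.range (k + 1), T j z * iteratedDeriv j y z := by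
  induction k with
  | zero =>
    refine ⟨fun j => if j = 0 then fun _ => 1 else fun _ => 0, ?_, ?_, ?_, ?_⟩
    · intro j
      beta_reduce
      split_ifs
      · exact Meromorphic.const 1
      · exact Meromorphic.const 0
    · simp
    · intro j hj
      beta_reduce
      rw [if_neg hj.ne']
    · intro y _
      refine Eventually.of_forall fun z => ?_
      simp [Eop]
  | succ k ih =>
    obtain ⟨T, hTm, hTk, hT0, hT⟩ := ih
    refine ⟨fun j z => deriv (T j) z + (if j = 0 then 0 else T (j - 1) z) - σ z * T j z,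
      ?_, ?_, ?_, ?_⟩
    · intro j
      refine Meromorphic.sub (Meromorphic.add (hTm j).deriv ?_) (hσ.mul (hTm j))
      by_cases hj : j = 0
      · simp only [hj, if_true]
        exact Meromorphic.const 0
      · simp only [hj, if_false]
        exact hTm _
    · funext z
      beta_reduce
      rw [hT0 (k + 1) (Nat.lt_succ_self k)]
      simp [hTk]
    · intro j hj
      funext z
      beta_reduce
      rw [hT0 j (by omega)]
      have h1 : j ≠ 0 := by omega
      simp only [h1, if_false]
      rw [hT0 (j - 1) (by omega)]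
      simp
    · intro y hy
      have hit : ∀ j, Meromorphic (iteratedDeriv j y) := fun j => diff_mero (wr_iter_diff hy j)
      have h1 := hT y hy
      have h2 := codis_deriv h1
      have h3 := codis_deriv_sum (Finset.range (k + 1))
        (a := fun j z => T j z * iteratedDeriv j y z) (fun j _ => (hTm j).mul (hit j))
      have h4 : ∀ᶠ z in codiscrete ℂ, ∀ j ∈ Finset.range (k + 1),
          deriv (fun z => T j z * iteratedDeriv j y z) z =
            deriv (T j) z * iteratedDeriv j y z + T j z * deriv (iteratedDeriv j y) z := by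
        rw [eventually_all_finset]
        exact fun j _ => codis_deriv_mul (hTm j) (hit j)
      filter_upwards [h1, h2, h3, h4] with z e1 e2 e3 e4
      change deriv (Eop σ k y) z - σ z * Eop σ k y z = _
      rw [e2, e3, e1, Finset.sum_congr rfl e4, Finset.sum_add_distrib]
      have e5 : ∑ j ∈ Finset.range (k + 1 + 1), (deriv (T j) z + (if j = 0 then 0 else T (j - 1) z) -
          σ z * T j z) * iteratedDeriv j y z =
          ∑ j ∈ Finset.range (k + 1 + 1), (deriv (T j) z - σ z * T j z) * iteratedDeriv j y z +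
          ∑ j ∈ Finset.range (k + 1 + 1), (if j = 0 then 0 else T (j - 1) z) *
            iteratedDeriv j y z := by
        rw [← Finset.sum_add_distrib]
        exact Finset.sum_congr rfl fun j _ => by ring
      rw [e5, Finset.sum_range_succ (fun j => (deriv (T j) z - σ z * T j z) * iteratedDeriv j y z),
        Finset.sum_range_succ' (fun j => (if j = 0 then 0 else T (j - 1) z) * iteratedDeriv j y z)]
      rw [hT0 (k + 1) (Nat.lt_succ_self k)]
      simp only [deriv_const, mul_zero, sub_zero, zero_mul, add_zero, if_true,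
        Nat.add_sub_cancel, Nat.succ_ne_zero, if_false]
      have e6 : ∀ j, iteratedDeriv (j + 1) y = deriv (iteratedDeriv j y) := fun j =>
        iteratedDeriv_succ
      simp only [e6]
      rw [Finset.mul_sum]
      have e7 : ∑ j ∈ Finset.range (k + 1), (deriv (T j) z - σ z * T j z) * iteratedDeriv j y z =
          ∑ j ∈ Finset.range (k + 1), deriv (T j) z * iteratedDeriv j y z -
          ∑ j ∈ Finset.range (k + 1), σ z * (T j z * iteratedDeriv j y z) := by
        rw [← Finset.sum_sub_distrib]
        exact Finset.sum_congr rfl fun j _ => by ring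
      rw [e7]
      ring

/-- the determinant does not depend on the gauge -/
theorem wr_det_shift {n : ℕ} {σ : ℂ → ℂ} (hσ : Meromorphic σ) {y : Fin n → ℂ → ℂ}
    (hy : ∀ l, Differentiable ℂ (y l)) : ∀ᶠ z in codiscrete ℂ,
      (Matrix.of fun l k : Fin n => Eop σ k (y l) z).det =
        (Matrix.of fun l k : Fin n => iteratedDeriv k (y l) z).det := by
  choose T hTm hTk hT0 hT using fun k => wr_shift hσ k
  have h1 : ∀ᶠ z in codiscrete ℂ, ∀ l : Fin n, ∀ k : Fin n,
      Eop σ k (y l) z = ∑ j ∈ Finset.range (k + 1), T k j z * iteratedDeriv j (y l) z := by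
    rw [eventually_all]
    intro l
    rw [eventually_all]
    intro k
    exact hT k (y l) (hy l)
  filter_upwards [h1] with z hz
  have h2 : (Matrix.of fun l k : Fin n => Eop σ k (y l) z) =
      (Matrix.of fun l k : Fin n => iteratedDeriv k (y l) z) *
        (Matrix.of fun j k : Fin n => T k j z) := by
    ext l k
    rw [Matrix.mul_apply, Matrix.of_apply, hz]
    simp only [Matrix.of_apply]
    rw [Fin.sum_univ_eq_sum_range (fun j => iteratedDeriv j (y l) z * T k j z) n]
    have h5 : ∑ j ∈ Finset.range ((k : ℕ) + 1), iteratedDeriv j (y l) z * T k j z =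
        ∑ j ∈ Finset.range n, iteratedDeriv j (y l) z * T k j z := by
      apply Finset.sum_subset
      · intro j hj
        rw [Finset.mem_range] at hj ⊢
        have := k.2
        omega
      · intro j _ hj
        rw [Finset.mem_range] at hj
        rw [hT0 k j (by omega), mul_zero]
    rw [← h5]
    exact Finset.sum_congr rfl fun j _ => mul_comm _ _
  have h3 : (Matrix.of fun j k : Fin n => T k j z).det = 1 := by
    rw [Matrix.det_of_isUpperTriangular]
    · apply Finset.prod_eq_one
      intro k _
      rw [Matrix.of_apply, hTk]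
    · intro j k hjk
      have h4 : (k : ℕ) < j := by simpa using hjk
      rw [Matrix.of_apply, hT0 k j h4]
  rw [h2, Matrix.det_mul, h3, mul_one]

theorem wr_pp_mero {φ : ℂ → ℂ} (hφ : Meromorphic φ) (k : ℕ) : Meromorphic (pp φ k) := by
  induction k with
  | zero => exact Meromorphic.const 1
  | succ k ih => exact ih.deriv.add (hφ.mul ih)

/-- `(d/dz - s'/s) ^ k u = u P_k(φ)`, `φ = (u/s)'/(u/s)` -/
theorem wr_pp {u s : ℂ → ℂ} (hu : Differentiable ℂ u) (hs : Differentiable ℂ s)
    (hu0 : ∃ z, u z ≠ 0) (hs0 : ∃ z, s z ≠ 0) (k : ℕ) : ∀ᶠ z in codiscrete ℂ,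
      Eop (logDeriv s) k u z = u z * pp (logDeriv fun w => u w / s w) k z := by
  have hφ : Meromorphic (logDeriv fun w => u w / s w) := by
    have h1 : Meromorphic (fun w => u w / s w) := (diff_mero hu).div (diff_mero hs)
    exact h1.deriv.div h1
  induction k with
  | zero =>
    refine Eventually.of_forall fun z => ?_
    change u z = u z * 1
    rw [mul_one]
  | succ k ih =>
    have h1 := codis_deriv ih
    have h2 := codis_deriv_mul (diff_mero hu) (wr_pp_mero hφ k)
    filter_upwards [ih, h1, h2, diff_ne hu hu0, diff_ne hs hs0] with z e1 e2 e3 e4 e5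
    change deriv (Eop (logDeriv s) k u) z - logDeriv s z * Eop (logDeriv s) k u z =
      u z * (deriv (pp (logDeriv fun w => u w / s w) k) z +
        logDeriv (fun w => u w / s w) z * pp (logDeriv fun w => u w / s w) k z)
    rw [e2, e3, e1]
    have e6 : logDeriv (fun w => u w / s w) z = logDeriv u z - logDeriv s z :=
      logDeriv_div z e4 e5 (hu z) (hs z)
    rw [e6]
    have e7 : deriv u z = u z * logDeriv u z := by
      rw [logDeriv_apply]
      field_simp
    rw [e7]
    ring

theorem t_wr : Wr_stm := by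
  classical
  intro m u s hu hs hs0 a ha hrel hmin i j
  -- no function vanishes identically
  have hu0 : ∀ l, ∃ z, u l z ≠ 0 := by
    intro l
    by_contra hcon
    push Not at hcon
    obtain ⟨c, hc⟩ := hmin (Pi.single l 1) (fun z => by
      apply Finset.sum_eq_zero
      intro l' _
      by_cases h : l' = l
      · subst h
        rw [hcon, mul_zero]
      · rw [Pi.single_eq_of_ne h, zero_mul])
    obtain ⟨l', hl'⟩ : ∃ l' : Fin (m + 2), l' ≠ l := exists_ne l
    have h1 := congrFun hc l'
    rw [Pi.single_eq_of_ne hl', Pi.smul_apply, smul_eq_mul] at h1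
    have h2 : c = 0 := (mul_eq_zero.1 h1.symm).resolve_right (ha l')
    have h3 := congrFun hc l
    rw [Pi.single_eq_same, Pi.smul_apply, smul_eq_mul, h2, zero_mul] at h3
    exact one_ne_zero h3
  have hσ : Meromorphic (logDeriv s) := (diff_mero hs).deriv.div (diff_mero hs)
  have hrel' : ∀ k : ℕ, ∀ᶠ z in codiscrete ℂ, ∑ l, Eop (logDeriv s) k (u l) z * a l = 0 := by
    intro k
    induction k with
    | zero =>
      refine Eventually.of_forall fun z => ?_
      rw [← hrel z]
      exact Finset.sum_congr rfl fun l _ => mul_comm _ _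
    | succ k ih =>
      have h1 := codis_deriv (b := fun _ => 0) ih
      have h2 := codis_deriv_sum Finset.univ (a := fun l z => Eop (logDeriv s) k (u l) z * a l)
        (fun l _ => (mero_Eop hσ (diff_mero (hu l)) k).mul (Meromorphic.const (a l)))
      filter_upwards [ih, h1, h2] with z e1 e2 e3
      rw [e3, deriv_const] at e2
      have e4 : ∑ l, Eop (logDeriv s) (k + 1) (u l) z * a l =
          ∑ l, deriv (fun z => Eop (logDeriv s) k (u l) z * a l) z -
            logDeriv s z * ∑ l, Eop (logDeriv s) k (u l) z * a l := by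
        rw [Finset.mul_sum, ← Finset.sum_sub_distrib]
        refine Finset.sum_congr rfl fun l _ => ?_
        rw [deriv_mul_const_field]
        change (deriv (Eop (logDeriv s) k (u l)) z - logDeriv s z * Eop (logDeriv s) k (u l) z) *
          a l = _
        ring
      rw [e4, e1, e2, mul_zero, sub_zero]
  -- the Wronskian does not vanish
  have hW : ∀ᶠ z in codiscrete ℂ,
      (Matrix.of fun l k : Fin (m + 1) => iteratedDeriv k (u (j.succAbove l)) z).det ≠ 0 := by
    apply diff_ne
    · simp only [Matrix.det_apply]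
      refine Differentiable.fun_sum fun τ _ => Differentiable.const_smul ?_ _
      refine Differentiable.fun_finsetProd fun l _ => ?_
      exact wr_iter_diff (hu _) _
    · apply Pool.Agent.H159R3.NV.wron_ne _ (fun l => hu _)
      intro c hc
      obtain ⟨e, he⟩ := hmin (j.insertNth 0 c) (fun z => by
        rw [Fin.sum_univ_succAbove _ j]
        simp only [Fin.insertNth_apply_same, Fin.insertNth_apply_succAbove, zero_mul, zero_add]
        exact hc z)
      have h1 := congrFun he j
      rw [Fin.insertNth_apply_same, Pi.smul_apply, smul_eq_mul] at h1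
      have h2 : e = 0 := (mul_eq_zero.1 h1.symm).resolve_right (ha j)
      funext l
      have h3 := congrFun he (j.succAbove l)
      rw [Fin.insertNth_apply_succAbove, Pi.smul_apply, smul_eq_mul, h2, zero_mul] at h3
      exact h3
  have hall : ∀ᶠ z in codiscrete ℂ, ∀ k : Fin (m + 1),
      ∑ l, Eop (logDeriv s) k (u l) z * a l = 0 := by
    rw [eventually_all]
    exact fun k => hrel' k
  have hpp : ∀ᶠ z in codiscrete ℂ, ∀ k : Fin (m + 1), ∀ l : Fin (m + 2),
      Eop (logDeriv s) k (u l) z = u l z * pp (logDeriv fun w => u l w / s w) k z := by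
    rw [eventually_all]
    intro k
    rw [eventually_all]
    intro l
    exact wr_pp (hu l) hs (hu0 l) hs0 k
  have hne : ∀ᶠ z in codiscrete ℂ, ∀ l : Fin (m + 2), u l z ≠ 0 := by
    rw [eventually_all]
    exact fun l => diff_ne (hu l) (hu0 l)
  have ha0 : a ≠ 0 := fun h => ha 0 (congrFun h 0)
  refine ⟨(-1) ^ (i : ℕ) * (-1) ^ (j : ℕ) * a j / a i, ?_⟩
  filter_upwards [hW, hall, hpp, hne, wr_det_shift hσ (y := fun l => u (j.succAbove l))
    (fun l => hu _)] with z e1 e2 e3 e4 e5
  have hfac : ∀ i : Fin (m + 2), (Matrix.of fun l k : Fin (m + 1) =>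
      Eop (logDeriv s) k (u (i.succAbove l)) z).det = (∏ l, u (i.succAbove l) z) *
        (Matrix.of fun l k : Fin (m + 1) =>
          pp (logDeriv fun w => u (i.succAbove l) w / s w) k z).det := by
    intro i
    rw [← Matrix.det_mul_column]
    congr 1
    ext l k
    simp only [Matrix.of_apply]
    exact e3 k _
  have hcr := wr_cramer (fun k l => Eop (logDeriv s) k (u l) z) a ha0 e2 i j
  have htr : ∀ i : Fin (m + 2), (Matrix.of fun k l : Fin (m + 1) =>
      Eop (logDeriv s) k (u (i.succAbove l)) z).det = (Matrix.of fun l k : Fin (m + 1) =>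
      Eop (logDeriv s) k (u (i.succAbove l)) z).det := by
    intro i
    rw [← Matrix.det_transpose]
    rfl
  rw [htr, htr, hfac, hfac] at hcr
  rw [← e5, hfac] at e1
  set Δi := (Matrix.of fun l k : Fin (m + 1) =>
          pp (logDeriv fun w => u (i.succAbove l) w / s w) k z).det with hΔi
  set Δj := (Matrix.of fun l k : Fin (m + 1) =>
          pp (logDeriv fun w => u (j.succAbove l) w / s w) k z).det with hΔj
  have hΔ : Δj ≠ 0 := right_ne_zero_of_mul e1
  have hPi : u i z * ∏ l, u (i.succAbove l) z = ∏ l, u l z :=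
    (Fin.prod_univ_succAbove (fun l => u l z) i).symm
  have hPj : u j z * ∏ l, u (j.succAbove l) z = ∏ l, u l z :=
    (Fin.prod_univ_succAbove (fun l => u l z) j).symm
  have hP : ∏ l, u l z ≠ 0 := Finset.prod_ne_zero_iff.2 fun l _ => e4 l
  have hkey : (∏ l, u l z) * ((-1) ^ (i : ℕ) * a j * u j z * Δi) =
      (∏ l, u l z) * ((-1) ^ (j : ℕ) * a i * u i z * Δj) := by
    have e6 : u i z * u j z * ((-1) ^ (i : ℕ) * a j * ((∏ l, u (i.succAbove l) z) * Δi)) =
        u i z * u j z * ((-1) ^ (j : ℕ) * a i * ((∏ l, u (j.succAbove l) z) * Δj)) := by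
      rw [hcr]
    calc (∏ l, u l z) * ((-1) ^ (i : ℕ) * a j * u j z * Δi)
        = (u i z * ∏ l, u (i.succAbove l) z) * ((-1) ^ (i : ℕ) * a j * u j z * Δi) := by rw [hPi]
      _ = u i z * u j z * ((-1) ^ (i : ℕ) * a j * ((∏ l, u (i.succAbove l) z) * Δi)) := by ring
      _ = _ := e6
      _ = (u j z * ∏ l, u (j.succAbove l) z) * ((-1) ^ (j : ℕ) * a i * u i z * Δj) := by ring
      _ = _ := by rw [hPj]
  have hkey2 := mul_left_cancel₀ hP hkey
  have hui := e4 i
  have huj := e4 j
  have hai := ha i
  have hsq : ((-1 : ℂ) ^ (j : ℕ)) * (-1) ^ (j : ℕ) = 1 := by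
    rw [← mul_pow]; norm_num
  rw [div_mul_div_comm, div_eq_div_iff huj (mul_ne_zero hai hΔ)]
  calc u i z * (a i * Δj) = (((-1 : ℂ) ^ (j : ℕ)) * (-1) ^ (j : ℕ)) * (u i z * (a i * Δj)) := by
        rw [hsq, one_mul]
    _ = (-1) ^ (j : ℕ) * ((-1) ^ (j : ℕ) * a i * u i z * Δj) := by ring
    _ = (-1) ^ (j : ℕ) * ((-1) ^ (i : ℕ) * a j * u j z * Δi) := by rw [hkey2]
    _ = _ := by ring

end Pool.Agent.N254.SQ
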