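import Mathlib
import Pool.Agent.N254.SQ.Red
import Pool.Agent.N254.SQ.Spec
import Pool.Agent.N254.SQ.Count
import Pool.Agent.N254.SQ.Td
import Pool.Agent.N254.SQ.Blocks
import Pool.Agent.N254.SQ.Smooth
import Pool.Agent.N254.SQ.Num
import Pool.Agent.N254.SQ.Ver
import Pool.Agent.N254.SQ.Lift
import Pool.Agent.N254.SQ.Part
import Pool.Agent.N254.SQ.Circ
import Pool.Agent.N254.SQ.LeDet
import Pool.Agent.N254.SQ.Wr
import Pool.Agent.N254.SQ.Form
import Pool.Agent.N254.SQ.Logd
import Pool.Agent.N254.SQ.Top
import Pool.Agent.N254.SQ.Exp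
import Pool.Agent.N254.SQ.Size

/-!
All leaves of project SQ.
-/

set_option autoImplicit false

namespace Pool.Agent.N254.SQ

theorem leaves : Leaves where
  part := t_part
  size := t_size t_circ t_ledet t_wr t_form (t_logd t_form) t_top t_exp
  blocks := t_blocks t_spec t_count t_td
  smooth := t_smooth t_spec t_count t_td
  td := t_td
  num := t_num
  ver := t_ver
  lift := t_lift

end Pool.Agent.N254.SQ
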