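import Mathlib
import Pool.Agent.N254.SQ.StmG

/-!
Project SQ (helper254), second part, leaf GT (helper999): general type from minimal vanishing sums
with many terms.
-/

set_option autoImplicit false

namespace Pool.Agent.N254.SQ

open MvPolynomial FF Pool.Agent.W602.GT Pool.Agent.W603.LV

section circuits

variable {K : Type} [Field K] [Algebra ℂ K] {κ : Type} [Fintype κ]

/-- the members `i`, `j` belong to a circuit of `u` -/
def GT_con (u : κ → K) (i j : κ) : Prop :=
  ∃ a : κ → ℂ, ∑ x, a x • u x = 0 ∧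
    (∀ b : κ → ℂ, (∀ x, a x = 0 → b x = 0) → ∑ x, b x • u x = 0 → ∃ c : ℂ, b = c • a) ∧
    a i ≠ 0 ∧ a j ≠ 0

/-- the terms of one circuit -/
theorem GT_circuit (u : κ → K) (hu : ∀ t, u t ≠ 0) (a : κ → ℂ) (ha : ∑ x, a x • u x = 0)
    (hmin : ∀ b : κ → ℂ, (∀ x, a x = 0 → b x = 0) → ∑ x, b x • u x = 0 → ∃ c : ℂ, b = c • a)
    {i : κ} (hi : a i ≠ 0) :
    ∃ (m : ℕ) (E : Fin (m + 1) → κ) (T : Fin (m + 1) → K), m + 1 ≤ Fintype.card κ ∧
      (∀ j, T j ≠ 0) ∧ ∑ j, T j = 0 ∧
      LinearIndependent ℂ (fun l => T ((Fin.last m).succAbove l)) ∧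
      (∀ (P : Place ℂ K) j, P.ord (T j) = P.ord (u (E j))) ∧ ∀ x, a x ≠ 0 → ∃ j, E j = x := by
  classical
  set S : Finset κ := Finset.univ.filter fun i => a i ≠ 0 with hS
  have hiS : i ∈ S := by simp [hS, hi]
  have hcard : 1 ≤ S.card := Finset.card_pos.2 ⟨i, hiS⟩
  obtain ⟨m, hm⟩ : ∃ m, S.card = m + 1 := ⟨S.card - 1, by omega⟩
  let E : Fin (m + 1) ≃ S := (Fintype.equivFinOfCardEq (by rw [Fintype.card_coe, hm])).symm
  have hES : ∀ x, a (E x) ≠ 0 := fun x => by
    have h5 : (E x : κ) ∈ Finset.univ.filter fun i => a i ≠ 0 := (E x).2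
    exact (Finset.mem_filter.1 h5).2
  have hsumS : ∀ (b : κ → ℂ), (∀ x, x ∉ S → b x = 0) →
      ∑ x : Fin (m + 1), b (E x) • u (E x) = ∑ x, b x • u x := by
    intro b hb
    rw [Equiv.sum_comp E fun x : S => b x • u x,
      Finset.sum_coe_sort S fun x => b x • u x]
    refine Finset.sum_subset (Finset.subset_univ _) fun x _ hx => ?_
    rw [hb x hx, zero_smul]
  have haS : ∀ x, x ∉ S → a x = 0 := by
    intro x hx
    by_contra h
    exact hx (by simp [hS, h])
  refine ⟨m, fun x => (E x : κ), fun x => a (E x) • u (E x), ?_, ?_, ?_, ?_, ?_, ?_⟩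
  · rw [← hm]
    exact Finset.card_le_univ S
  · intro j
    exact smul_ne_zero (hES j) (hu _)
  · rw [hsumS a haS, ha]
  · rw [Fintype.linearIndependent_iff]
    intro c hc
    obtain ⟨c', hc1, hc2⟩ : ∃ c' : Fin (m + 1) → ℂ, c' (Fin.last m) = 0 ∧
        ∀ l, c' ((Fin.last m).succAbove l) = c l :=
      ⟨(Fin.last m).insertNth 0 c, Fin.insertNth_apply_same _ _ _,
        fun l => Fin.insertNth_apply_succAbove _ _ _ _⟩
    set b' : κ → ℂ := fun x => if h : x ∈ S then c' (E.symm ⟨x, h⟩) * a x else 0 with hb'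
    have h4 : ∀ x, x ∉ S → b' x = 0 := by
      intro x hx
      simp only [hb']
      rw [dif_neg hx]
    have h5 : ∀ x : Fin (m + 1), b' (E x) = c' x * a (E x) := by
      intro x
      simp only [hb']
      rw [dif_pos (E x).2]
      simp
    have h6 : ∑ x, b' x • u x = 0 := by
      rw [← hsumS b' h4, Fin.sum_univ_succAbove _ (Fin.last m), h5, hc1, zero_mul, zero_smul,
        zero_add, ← hc]
      refine Finset.sum_congr rfl fun l _ => ?_
      rw [h5, hc2, mul_smul]
    obtain ⟨d, hd⟩ := hmin b' (fun x hx => h4 x (by simp [hS, hx])) h6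
    have h7 : d = 0 := by
      have h8 := congrFun hd (E (Fin.last m))
      rw [h5, hc1, zero_mul, Pi.smul_apply, smul_eq_mul] at h8
      rcases mul_eq_zero.1 h8.symm with h | h
      · exact h
      · exact absurd h (hES _)
    intro l
    have h9 := congrFun hd (E ((Fin.last m).succAbove l))
    rw [h5, hc2, h7, zero_smul, Pi.zero_apply] at h9
    rcases mul_eq_zero.1 h9 with h | h
    · exact h
    · exact absurd h (hES _)
  · intro P j
    exact ord_smul' P (hES j) _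
  · intro x hx
    have hxS : x ∈ S := by simp [hS, hx]
    exact ⟨E.symm ⟨x, hxS⟩, by simp⟩

/-- a finite family of circuits -/
theorem GT_circuits (u : κ → K) (hu : ∀ t, u t ≠ 0) :
    ∃ (I : Type) (_ : Fintype I) (m : I → ℕ) (E : ∀ i, Fin (m i + 1) → κ)
      (T : ∀ i, Fin (m i + 1) → K), Fintype.card I ≤ Fintype.card κ ^ 2 ∧
      (∀ i, m i + 1 ≤ Fintype.card κ) ∧ (∀ i j, T i j ≠ 0) ∧ (∀ i, ∑ j, T i j = 0) ∧
      (∀ i, LinearIndependent ℂ (fun l => T i ((Fin.last (m i)).succAbove l))) ∧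
      (∀ (P : Place ℂ K) i j, P.ord (T i j) = P.ord (u (E i j))) ∧
      ∀ x y, GT_con u x y → ∃ i j l, E i j = x ∧ E i l = y := by
  classical
  have hex : ∀ q : {q : κ × κ // GT_con u q.1 q.2}, ∃ (m : ℕ) (E : Fin (m + 1) → κ)
      (T : Fin (m + 1) → K), m + 1 ≤ Fintype.card κ ∧ (∀ j, T j ≠ 0) ∧ ∑ j, T j = 0 ∧
      LinearIndependent ℂ (fun l => T ((Fin.last m).succAbove l)) ∧
      (∀ (P : Place ℂ K) j, P.ord (T j) = P.ord (u (E j))) ∧
      (∃ j, E j = q.1.1) ∧ ∃ j, E j = q.1.2 := by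
    rintro ⟨⟨i, j⟩, a, h1, h2, h3, h4⟩
    obtain ⟨m, E, T, h5, h6, h7, h8, h9, h10⟩ := GT_circuit u hu a h1 h2 h3
    exact ⟨m, E, T, h5, h6, h7, h8, h9, h10 _ h3, h10 _ h4⟩
  choose m E T h1 h2 h3 h4 h5 h6 h7 using hex
  refine ⟨{q : κ × κ // GT_con u q.1 q.2}, inferInstance, m, E, T, ?_, h1, h2, h3, h4,
    fun P i j => h5 i P j, ?_⟩
  · refine (Fintype.card_subtype_le _).trans ?_
    rw [Fintype.card_prod, sq]
  · intro x y hxy
    obtain ⟨j, hj⟩ := h6 ⟨(x, y), hxy⟩
    obtain ⟨l, hl⟩ := h7 ⟨(x, y), hxy⟩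
    exact ⟨_, j, l, hj, hl⟩

/-- differences along a walk -/
theorem GT_walk (o : κ → ℤ) (J : ℤ) (Gr : SimpleGraph κ)
    (hG : ∀ i j, Gr.Adj i j → |o i - o j| ≤ J) {i j : κ} (w : Gr.Walk i j) :
    |o i - o j| ≤ w.length * J := by
  induction w with
  | nil => simp
  | cons h p ih =>
    rename_i i k j
    rw [SimpleGraph.Walk.length_cons]
    have h1 := hG _ _ h
    have h2 := abs_sub_le (o i) (o k) (o j)
    push_cast
    linarith

/-- the differences are bounded if all members of circuits have bounded differences -/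
theorem GT_diff (h1 : Circ_stm) (u : κ → K) (hsum : ∑ t, u t = 0)
    (hmin : ∀ B : Finset κ, B.Nonempty → B ≠ Finset.univ → ∑ t ∈ B, u t ≠ 0) (o : κ → ℤ) (J : ℤ)
    (hJ : ∀ i j, GT_con u i j → |o i - o j| ≤ J) (hJ0 : 0 ≤ J) (i j : κ) :
    |o i - o j| ≤ Fintype.card κ * J := by
  classical
  let Gr : SimpleGraph κ :=
    { Adj := fun i j => i ≠ j ∧ |o i - o j| ≤ J
      symm := ⟨fun i j h => ⟨h.1.symm, by rw [abs_sub_comm]; exact h.2⟩⟩
      loopless := ⟨fun i h => h.1 rfl⟩ }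
  have hreach : ∀ i j, Gr.Reachable i j := by
    refine h1 K κ u hsum hmin Gr.Reachable Gr.reachable_is_equivalence ?_
    intro a _ ha hamin i j hi hj
    by_cases hij : i = j
    · rw [hij]
    · exact SimpleGraph.Adj.reachable ⟨hij, hJ i j ⟨a, ha, hamin, hi, hj⟩⟩
  obtain ⟨w, hw⟩ := (hreach i j).exists_isPath
  refine (GT_walk o J Gr (fun i j h => h.2) w).trans ?_
  apply mul_le_mul_of_nonneg_right _ hJ0
  exact_mod_cast hw.length_lt.le

end circuits

section forms

variable {K : Type} [Field K] [Algebra ℂ K] {n : ℕ}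

/-- the order of the value of a form -/
theorem GT_ge (P : Place ℂ K) (y : Fin (n + 1) → K) {μ : ℤ} (hμ : ∀ i, Ge P μ (y i)) {d : ℕ}
    {F : MvPolynomial (Fin (n + 1)) ℂ} (hF : F.IsHomogeneous d) : Ge P (d * μ) (val y F) := by
  unfold val
  rw [aeval_def, eval₂_eq']
  refine Ge.sum _ _ fun α hα => ?_
  have h1 : ∑ i, α i = d := by
    have h2 := hF (mem_support_iff.1 hα)
    rw [Finsupp.weight_apply, Finsupp.sum_fintype _ _ (fun i => by simp)] at h2
    simpa using h2
  have h3 := Ge.prod (P := P) Finset.univ (fun i => y i ^ α i) (fun i => (α i : ℤ) * μ)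
    (fun i _ => (hμ i).pow (α i))
  have h4 := (Ge.const (P := P) (coeff α F)).mul h3
  rw [← Finset.sum_mul, zero_add, ← Nat.cast_sum, h1] at h4
  exact h4

theorem GT_lin (y : Fin (n + 1) → K) (t : ℕ) :
    val y (lin ℂ n t) = ∑ j : Fin (n + 1), algebraMap ℂ K ((t : ℂ) ^ (j : ℕ)) * y j := by
  unfold lin val
  rw [map_sum]
  refine Finset.sum_congr rfl fun j _ => ?_
  rw [map_mul, aeval_C, aeval_X]

theorem GT_lin_hom (n t : ℕ) : (lin ℂ n t).IsHomogeneous 1 := by
  unfold lin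
  refine IsHomogeneous.sum _ _ _ fun j _ => ?_
  have := (isHomogeneous_C (Fin (n + 1)) ((t : ℂ) ^ (j : ℕ))).mul (isHomogeneous_X ℂ j)
  simpa using this

/-- the coordinates are combinations of the linear forms -/
theorem GT_inv (q : Fin (n + 1) → ℕ) (hq : Function.Injective q) (y : Fin (n + 1) → K) :
    ∃ B : Fin (n + 1) → Fin (n + 1) → ℂ, ∀ j, y j =
      ∑ s, algebraMap ℂ K (B j s) * val y (lin ℂ n (q s)) := by
  set V : Matrix (Fin (n + 1)) (Fin (n + 1)) ℂ := Matrix.vandermonde fun i => (q i : ℂ) with hV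
  have h8 : V.det ≠ 0 := by
    rw [hV, Matrix.det_vandermonde_ne_zero_iff]
    intro i j hij
    exact hq (Nat.cast_injective hij)
  have h9 : V⁻¹ * V = 1 := Matrix.nonsing_inv_mul V (isUnit_iff_ne_zero.2 h8)
  refine ⟨fun j s => V⁻¹ j s, fun j => ?_⟩
  have h10 : ∀ s, val y (lin ℂ n (q s)) = ∑ k, algebraMap ℂ K (V s k) * y k := fun s => by
    rw [GT_lin]
    rfl
  simp only [h10, Finset.mul_sum]
  rw [Finset.sum_comm]
  have h11 : ∀ k, ∑ s, algebraMap ℂ K (V⁻¹ j s) * (algebraMap ℂ K (V s k) * y k) =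
      algebraMap ℂ K ((V⁻¹ * V) j k) * y k := by
    intro k
    rw [Matrix.mul_apply, map_sum, Finset.sum_mul]
    refine Finset.sum_congr rfl fun s _ => ?_
    rw [map_mul, mul_assoc]
  simp only [h11, h9, Matrix.one_apply]
  rw [Finset.sum_eq_single j]
  · simp
  · intro k _ hk
    rw [if_neg (Ne.symm hk), map_zero, zero_mul]
  · intro h
    exact absurd (Finset.mem_univ _) h

/-- a transcendence basis among the ratios of the linear forms -/
theorem GT_basis {w : ℕ} (y : Fin (n + 1) → K) (hgen : coords ℂ y = ⊤)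
    (htr : Algebra.trdeg ℂ K = w) (q : Fin (n + 1) → ℕ) (hq : Function.Injective q)
    (h0 : val y (lin ℂ n (q 0)) ≠ 0) :
    ∃ a : Fin w → Fin (n + 1), IsTranscendenceBasis ℂ
      (fun j => val y (lin ℂ n (q (a j))) / val y (lin ℂ n (q 0))) := by
  obtain ⟨B, hB⟩ := GT_inv q hq y
  set r : Fin (n + 1) → K := fun s => val y (lin ℂ n (q s)) / val y (lin ℂ n (q 0)) with hr
  have hmem : ∀ j, y j / val y (lin ℂ n (q 0)) ∈ IntermediateField.adjoin ℂ (Set.range r) := by
    intro j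
    have h1 : y j / val y (lin ℂ n (q 0)) = ∑ s, algebraMap ℂ K (B j s) * r s := by
      conv_lhs => rw [hB j]
      rw [Finset.sum_div]
      refine Finset.sum_congr rfl fun s _ => ?_
      rw [hr]
      exact mul_div_assoc _ _ _
    rw [h1]
    refine sum_mem fun s _ => mul_mem (algebraMap_mem _ _) ?_
    exact IntermediateField.subset_adjoin _ _ ⟨s, rfl⟩
  have htop : IntermediateField.adjoin ℂ (Set.range r) = ⊤ := by
    rw [eq_top_iff, ← hgen]
    unfold coords
    rw [IntermediateField.adjoin_le_iff]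
    rintro z ⟨i, j, hj, rfl⟩
    have h2 : y i / y j = (y i / val y (lin ℂ n (q 0))) / (y j / val y (lin ℂ n (q 0))) := by
      field_simp
    rw [h2]
    exact div_mem (hmem i) (hmem j)
  have halg : Algebra.IsAlgebraic (IntermediateField.adjoin ℂ (Set.range r)) K := by
    refine ⟨fun x => ?_⟩
    have hx : x ∈ IntermediateField.adjoin ℂ (Set.range r) := by
      rw [htop]
      exact IntermediateField.mem_top
    exact isAlgebraic_algebraMap (⟨x, hx⟩ : IntermediateField.adjoin ℂ (Set.range r))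
  have halg' := alg_adjoin halg
  obtain ⟨x0, hx0⟩ := basis_of_trdeg htr
  obtain ⟨B', hB', hBb⟩ := exists_isTranscendenceBasis_subset (R := ℂ) (A := K) (Set.range r)
  have hcard := hx0.lift_cardinalMk_eq hBb
  rw [Cardinal.mk_fin] at hcard
  obtain ⟨φ⟩ : Nonempty (Fin w ≃ B') := by
    rw [← Cardinal.eq, Cardinal.mk_fin]
    have := hcard
    simpa using this
  have htb : IsTranscendenceBasis ℂ (fun i => (φ i : K)) := hBb.comp_equiv φ
  have hmem' : ∀ i, ∃ s, r s = (φ i : K) := fun i => hB' (φ i).2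
  choose a ha using hmem'
  refine ⟨a, ?_⟩
  have h3 : (fun j => val y (lin ℂ n (q (a j))) / val y (lin ℂ n (q 0))) =
      fun i => (φ i : K) := by
    funext j
    exact ha j
  rw [h3]
  exact htb

/-- curves of positive dimension lie in projective spaces of positive dimension -/
theorem GT_pos {w : ℕ} (y : Fin (n + 1) → K) (hw : 1 ≤ w) (hgen : coords ℂ y = ⊤)
    (htr : Algebra.trdeg ℂ K = w) : 1 ≤ n := by
  by_contra hn
  have hn0 : n = 0 := by omega
  subst hn0
  obtain ⟨x0, hx0⟩ := basis_of_trdeg htr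
  have h1 : coords ℂ y ≤ ⊥ := by
    unfold coords
    rw [IntermediateField.adjoin_le_iff]
    rintro z ⟨i, j, hj, rfl⟩
    have : i = j := Fin.ext (by omega)
    rw [this, div_self hj]
    exact one_mem _
  have h2 : x0 ⟨0, hw⟩ ∈ (⊥ : IntermediateField ℂ K) := by
    apply h1
    rw [hgen]
    exact IntermediateField.mem_top
  obtain ⟨c, hc⟩ := IntermediateField.mem_bot.1 h2
  have h4 := hx0.1.transcendental ⟨0, hw⟩
  rw [← hc] at h4
  exact h4 (isAlgebraic_algebraMap c)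

end forms

/-- the numerical part -/
theorem GT_num {κ I : Type} [Fintype κ] [Fintype I] {m : I → ℕ} (E : ∀ i, Fin (m i + 1) → κ)
    (b : ∀ i, Fin (m i + 1)) {M N N₁ A A₁ D s : ℕ} {c₀ i₀ : κ} {o l gg : κ → ℤ} {c : ℤ}
    (hN : N ≤ N₁) (hM : Fintype.card κ ≤ M) (hs : s = N₁ + 1) (hA : A ≤ A₁)
    (hD : 2 * A₁ * M + 2 * N₁ + 1 ≤ D)
    (ho : ∀ t, o t = gg t + D * l t + c) (hl : ∀ t, 0 ≤ l t) (hg : ∀ t, 0 ≤ gg t)
    (hb : ∀ i j, o (E i (b i)) ≤ o (E i j))
    (hdiff : ∀ i j, |o i - o j| ≤ Fintype.card κ * ∑ i, ∑ j, (o (E i j) - o (E i (b i))))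
    (hi₀ : l i₀ = 0) {h : ℤ} (hh : s * ∑ t, gg t - A * l c₀ ≤ h) :
    (((∀ t, l t = 0) ∧ (∀ i j l, o (E i j) = o (E i l)) ∧ 0 ≤ h) ∨
      (N : ℤ) ≤ ∑ i, ∑ j, (o (E i j) - o (E i (b i))) + h) := by
  classical
  obtain ⟨J, hJ⟩ : ∃ J, J = ∑ i, ∑ j, (o (E i j) - o (E i (b i))) := ⟨_, rfl⟩
  obtain ⟨g, hgg⟩ : ∃ g, g = ∑ t, gg t := ⟨_, rfl⟩
  rw [← hJ] at hdiff ⊢
  rw [← hgg] at hh
  have hJ0 : 0 ≤ J := by
    rw [hJ]
    exact Finset.sum_nonneg fun i _ => Finset.sum_nonneg fun j _ => sub_nonneg.2 (hb i j)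
  have hg0 : 0 ≤ g := by
    rw [hgg]
    exact Finset.sum_nonneg fun t _ => hg t
  have hgt : ∀ t, gg t ≤ g := fun t => by
    rw [hgg]
    exact Finset.single_le_sum (f := gg) (fun t _ => hg t) (Finset.mem_univ t)
  have hκ : 1 ≤ Fintype.card κ := Fintype.card_pos_iff.2 ⟨i₀⟩
  have hM1 : (1 : ℤ) ≤ M := by exact_mod_cast hκ.trans hM
  have hMz : (Fintype.card κ : ℤ) ≤ M := by exact_mod_cast hM
  have hAz : (A : ℤ) ≤ A₁ := by exact_mod_cast hA
  have hDz : 2 * (A₁ : ℤ) * M + 2 * N₁ + 1 ≤ D := by exact_mod_cast hD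
  have hNz : (N : ℤ) ≤ N₁ := by exact_mod_cast hN
  have hsz : (s : ℤ) = N₁ + 1 := by rw [hs]; push_cast; rfl
  have hN0 : (0 : ℤ) ≤ N₁ := Int.natCast_nonneg _
  have hA0 : (0 : ℤ) ≤ A₁ := Int.natCast_nonneg _
  have hAA0 : (0 : ℤ) ≤ A := Int.natCast_nonneg _
  have hdM : ∀ i j, |o i - o j| ≤ M * J := fun i j =>
    (hdiff i j).trans (mul_le_mul_of_nonneg_right hMz hJ0)
  -- the main estimate
  have hmain : 2 * (A : ℤ) * l c₀ ≤ J + g := by
    have h1 : (D : ℤ) * l c₀ ≤ M * J + g := by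
      have h2 := (abs_le.1 (hdM c₀ i₀)).2
      rw [ho, ho, hi₀] at h2
      have h3 := hg c₀
      have h4 := hgt i₀
      linarith
    have h5 : 2 * (A₁ : ℤ) * M * l c₀ ≤ D * l c₀ :=
      mul_le_mul_of_nonneg_right (by linarith) (hl c₀)
    have h6 : 2 * (A : ℤ) * l c₀ * M ≤ 2 * (A₁ : ℤ) * M * l c₀ := by
      have h7 : (A : ℤ) * (l c₀ * M) ≤ A₁ * (l c₀ * M) :=
        mul_le_mul_of_nonneg_right hAz (mul_nonneg (hl c₀) (by linarith))
      nlinarith
    have h8 : g ≤ M * g := by nlinarith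
    have h9 : 2 * (A : ℤ) * l c₀ * M ≤ (J + g) * M := by
      calc 2 * (A : ℤ) * l c₀ * M ≤ M * J + g := by linarith
        _ ≤ (J + g) * M := by linarith
    exact le_of_mul_le_mul_right h9 (by linarith)
  rcases lt_or_eq_of_le hg0 with hgpos | hg00
  · -- g ≥ 1
    right
    have h1 : (2 * (s : ℤ) - 1) * 1 ≤ (2 * s - 1) * g :=
      mul_le_mul_of_nonneg_left (by omega) (by linarith)
    nlinarith
  · subst hg00
    have hgt0 : ∀ t, gg t = 0 := fun t => le_antisymm (hgt t) (hg t)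
    rcases lt_or_eq_of_le hJ0 with hJpos | hJ00
    · right
      -- a nonzero difference
      have h2 : ∃ i j, 0 < o (E i j) - o (E i (b i)) := by
        by_contra hcon
        push Not at hcon
        have : J ≤ 0 := by
          rw [hJ]
          exact Finset.sum_nonpos fun i _ => Finset.sum_nonpos fun j _ => hcon i j
        linarith
      obtain ⟨i, j, hij⟩ := h2
      have h3 : o (E i j) - o (E i (b i)) ≤ J := by
        rw [hJ]
        refine le_trans ?_ (Finset.single_le_sum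
            (f := fun i => ∑ j, (o (E i j) - o (E i (b i))))
            (fun i _ => Finset.sum_nonneg fun j _ => sub_nonneg.2 (hb i j)) (Finset.mem_univ i))
        exact Finset.single_le_sum (f := fun j => o (E i j) - o (E i (b i)))
            (fun j _ => sub_nonneg.2 (hb i j)) (Finset.mem_univ j)
      have h4 : o (E i j) - o (E i (b i)) = D * (l (E i j) - l (E i (b i))) := by
        rw [ho, ho, hgt0, hgt0]
        ring
      have hD0 : (0 : ℤ) < D := by
        have h7 : 0 ≤ 2 * (A₁ : ℤ) * M := by positivity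
        linarith
      have h5 : 0 < l (E i j) - l (E i (b i)) := by
        rw [h4] at hij
        exact (mul_pos_iff_of_pos_left hD0).1 hij
      have h6 : (D : ℤ) ≤ J := by
        refine le_trans ?_ h3
        rw [h4]
        have : (D : ℤ) * 1 ≤ D * (l (E i j) - l (E i (b i))) :=
          mul_le_mul_of_nonneg_left (by omega) hD0.le
        linarith
      have h7 : 0 ≤ 2 * (A₁ : ℤ) * M := by positivity
      rw [mul_zero] at hh
      nlinarith
    · left
      subst hJ00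
      have h1 : ∀ i j, o i = o j := by
        intro i j
        have h2 := hdM i j
        rw [mul_zero] at h2
        have h3 := abs_nonpos_iff.1 h2
        linarith
      have h4 : ∀ t, l t = 0 := by
        intro t
        have h5 := h1 t i₀
        rw [ho, ho, hgt0, hgt0, hi₀] at h5
        have h6 : (D : ℤ) * l t = 0 := by linarith
        rcases mul_eq_zero.1 h6 with h | h
        · exfalso
          have h7 : 0 ≤ 2 * (A₁ : ℤ) * M := by positivity
          linarith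
        · exact h
      refine ⟨h4, fun i j l => h1 _ _, ?_⟩
      rw [h4, mul_zero, mul_zero] at hh
      linarith

theorem t_gt (h1 : GTA_stm) (h2 : Circ_stm) : GT_stm := by
  classical
  intro e M
  obtain ⟨N₁, hN₁⟩ : ∃ N₁, N₁ = M ^ 2 * (M * tn M) + 1 := ⟨_, rfl⟩
  obtain ⟨s, hs⟩ : ∃ s, s = N₁ + 1 := ⟨_, rfl⟩
  refine ⟨2 * (s * e * M + 1) * M + 2 * N₁ + 1, ?_⟩
  intro D hD K _ _ n w y hw hy0 hgen htr κ _ hM hn1 G p hp hG hsum hmin
  have hn : 1 ≤ n := GT_pos y hw hgen htr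
  have hκ2 : 2 ≤ Fintype.card κ := by omega
  obtain ⟨Λ, hΛ⟩ : ∃ Λ : κ → K, ∀ t, val y (lin ℂ n (p t)) = Λ t := ⟨_, fun t => rfl⟩
  obtain ⟨g, hg⟩ : ∃ g : κ → K, ∀ t, val y (G t) = g t := ⟨_, fun t => rfl⟩
  obtain ⟨u, hu⟩ : ∃ u : κ → K, ∀ t, g t * Λ t ^ D = u t := ⟨_, fun t => rfl⟩
  simp only [hΛ, hg, hu] at hsum hmin
  have hu0 : ∀ t, u t ≠ 0 := by
    intro t
    have := hmin {t} (Finset.singleton_nonempty t) (by
      intro h
      have := congrArg Finset.card h
      rw [Finset.card_singleton, Finset.card_univ] at this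
      omega)
    rwa [Finset.sum_singleton] at this
  have hg0 : ∀ t, g t ≠ 0 := fun t => by
    have := hu0 t
    rw [← hu] at this
    exact left_ne_zero_of_mul this
  have hΛ0 : ∀ t, Λ t ≠ 0 := by
    intro t h
    have := hu0 t
    rw [← hu, h] at this
    apply right_ne_zero_of_mul this
    exact zero_pow (by omega)
  obtain ⟨I, _, m, E, T, hI, hm, hT0, hTsum, hTlin, hTord, hcon⟩ := GT_circuits u hu0
  obtain ⟨ψ⟩ : Nonempty (Fin (n + 1) ↪ κ) := by
    rw [Function.Embedding.nonempty_iff_card_le, Fintype.card_fin]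
    exact hn1
  have hq : Function.Injective fun i => p (ψ i) := hp.comp ψ.injective
  obtain ⟨a, ha⟩ := GT_basis y hgen htr (fun i => p (ψ i)) hq (by
    rw [hΛ]
    exact hΛ0 (ψ 0))
  simp only [hΛ] at ha
  obtain ⟨t, ht⟩ : ∃ t : Fin w → K, (fun j => Λ (ψ (a j)) / Λ (ψ 0)) = t := ⟨_, rfl⟩
  rw [ht] at ha
  have htj : ∀ j, t j = Λ (ψ (a j)) / Λ (ψ 0) := fun j => by rw [← ht]
  obtain ⟨g₀, hg₀, hreg⟩ := h1 K w hw t ha I m T hT0 hTsum hTlin
  obtain ⟨N, hN⟩ : ∃ N, N = wt2 m := ⟨_, rfl⟩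
  rw [← hN] at hreg
  have hNN₁ : N ≤ N₁ := by
    rw [hN, hN₁]
    unfold wt2
    apply Nat.add_le_add_right
    calc ∑ i, (m i + 1) * tn (m i) ≤ ∑ _i : I, M * tn M := by
          refine Finset.sum_le_sum fun i _ => ?_
          have h3 : m i + 1 ≤ M := (hm i).trans hM
          exact Nat.mul_le_mul h3 (tn_mono (by omega))
      _ = Fintype.card I * (M * tn M) := by
          rw [Finset.sum_const, Finset.card_univ, smul_eq_mul]
      _ ≤ M ^ 2 * (M * tn M) :=
          Nat.mul_le_mul_right _ (hI.trans (Nat.pow_le_pow_left hM 2))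
  obtain ⟨A, hA⟩ : ∃ A, A = s * e * Fintype.card κ + 1 := ⟨_, rfl⟩
  have hAA₁ : A ≤ s * e * M + 1 := by
    rw [hA]
    exact Nat.add_le_add_right (Nat.mul_le_mul_left _ hM) 1
  let c : Fin (w + 1) → κ := Fin.cases (ψ 0) (fun j => ψ (a j))
  obtain ⟨h, hh⟩ : ∃ h : Fin (w + 1) → K, ∀ j, (∏ t, g t) ^ s * Λ (c j) / Λ (ψ 0) ^ A = h j :=
    ⟨_, fun j => rfl⟩
  have hprod : ∏ t, g t ≠ 0 := Finset.prod_ne_zero_iff.2 fun t _ => hg0 t
  have hh0 : ∀ j, h j ≠ 0 := fun j => by
    rw [← hh]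
    exact div_ne_zero (mul_ne_zero (pow_ne_zero _ hprod) (hΛ0 _)) (pow_ne_zero _ (hΛ0 _))
  refine ⟨htr, N, by rw [hN]; unfold wt2; omega, fun j => form t N (g₀ * h j),
    fun j => form_pluri t N _, fun P _ j => ?_, ?_⟩
  · -- regularity
    apply hreg (h j) P (hh0 j)
    -- the minimal order of the coordinates
    obtain ⟨j₀, hj₀, hmin₀⟩ : ∃ j₀, y j₀ ≠ 0 ∧ ∀ i, y i ≠ 0 → P.ord (y j₀) ≤ P.ord (y i) := by
      have hne : (Finset.univ.filter fun i => y i ≠ 0).Nonempty := by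
        by_contra hcon
        rw [Finset.not_nonempty_iff_eq_empty, Finset.filter_eq_empty_iff] at hcon
        apply hy0
        funext i
        have := hcon (Finset.mem_univ i)
        simpa using this
      obtain ⟨j₀, h3, h4⟩ := Finset.exists_min_image _ (fun i => P.ord (y i)) hne
      exact ⟨j₀, (Finset.mem_filter.1 h3).2,
        fun i hi => h4 i (Finset.mem_filter.2 ⟨Finset.mem_univ i, hi⟩)⟩
    obtain ⟨μ, hμd⟩ : ∃ μ, μ = P.ord (y j₀) := ⟨_, rfl⟩
    rw [← hμd] at hmin₀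
    have hμ : ∀ i, Ge P μ (y i) := fun i => by
      by_cases h : y i = 0
      · exact Or.inl h
      · exact Or.inr (hmin₀ i h)
    have hgμ : ∀ t, 0 ≤ P.ord (g t) - e * μ := fun t => by
      have h3 := GT_ge P y hμ (hG t)
      rw [hg] at h3
      exact sub_nonneg.2 (h3.resolve_left (hg0 t))
    have hΛμ : ∀ t, 0 ≤ P.ord (Λ t) - μ := fun t => by
      have h3 := GT_ge P y hμ (GT_lin_hom n (p t))
      rw [hΛ] at h3
      have h4 := h3.resolve_left (hΛ0 t)
      rw [Nat.cast_one, one_mul] at h4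
      exact sub_nonneg.2 h4
    obtain ⟨i₀, hi₀⟩ : ∃ i : Fin (n + 1), P.ord (Λ (ψ i)) - μ = 0 := by
      by_contra hcon
      push Not at hcon
      obtain ⟨B, hB⟩ := GT_inv _ hq y
      have h3 : Ge P (μ + 1) (y j₀) := by
        rw [hB j₀]
        refine Ge.sum _ _ fun s _ => ?_
        rw [hΛ]
        have h4 : Ge P (μ + 1) (Λ (ψ s)) := Or.inr (by
          have h5 := hΛμ (ψ s)
          have h6 := hcon s
          omega)
        have h7 := (Ge.const (P := P) (B j₀ s)).mul h4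
        rwa [zero_add] at h7
      rcases h3 with h | h
      · exact hj₀ h
      · omega
    -- orders of the terms
    have ho : ∀ t, P.ord (u t) = (P.ord (g t) - e * μ) + D * (P.ord (Λ t) - μ) +
        (e * μ + D * μ) := by
      intro t
      rw [← hu, P.ord_mul (hg0 t) (pow_ne_zero _ (hΛ0 t)), P.ord_pow]
      ring
    have hb : ∀ i, ∃ b : Fin (m i + 1), ∀ j, P.ord (u (E i b)) ≤ P.ord (u (E i j)) := fun i =>
      Finite.exists_min _
    choose b hb using hb
    have hJ0 : 0 ≤ ∑ i, ∑ j, (P.ord (u (E i j)) - P.ord (u (E i (b i)))) :=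
      Finset.sum_nonneg fun i _ => Finset.sum_nonneg fun j _ => sub_nonneg.2 (hb i j)
    have hJ : ∀ x z, GT_con u x z → |P.ord (u x) - P.ord (u z)| ≤
        ∑ i, ∑ j, (P.ord (u (E i j)) - P.ord (u (E i (b i)))) := by
      intro x z hxz
      obtain ⟨i, j, l, rfl, rfl⟩ := hcon x z hxz
      have h3 : ∀ j, P.ord (u (E i j)) - P.ord (u (E i (b i))) ≤
          ∑ i, ∑ j, (P.ord (u (E i j)) - P.ord (u (E i (b i)))) := by
        intro j
        refine le_trans ?_ (Finset.single_le_sum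
            (f := fun i => ∑ j, (P.ord (u (E i j)) - P.ord (u (E i (b i)))))
            (fun i _ => Finset.sum_nonneg fun j _ => sub_nonneg.2 (hb i j)) (Finset.mem_univ i))
        exact Finset.single_le_sum (f := fun j => P.ord (u (E i j)) - P.ord (u (E i (b i))))
            (fun j _ => sub_nonneg.2 (hb i j)) (Finset.mem_univ j)
      have h4 := h3 j
      have h5 := h3 l
      have h6 := hb i j
      have h7 := hb i l
      rw [abs_le]
      constructor <;> linarith
    have hord : P.ord (h j) = s * ∑ t, (P.ord (g t) - e * μ) - A * (P.ord (Λ (ψ 0)) - μ) +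
        (P.ord (Λ (c j)) - μ) := by
      rw [← hh, P.ord_div (mul_ne_zero (pow_ne_zero _ hprod) (hΛ0 _)) (pow_ne_zero _ (hΛ0 _)),
        P.ord_mul (pow_ne_zero _ hprod) (hΛ0 _), P.ord_pow, P.ord_pow,
        ord_prod' P _ _ (fun t _ => hg0 t), Finset.sum_sub_distrib, Finset.sum_const,
        Finset.card_univ, nsmul_eq_mul, hA]
      push_cast
      ring
    rcases GT_num E b (M := M) (D := D) (c₀ := ψ 0) (c := e * μ + D * μ) (h := P.ord (h j)) hNN₁ hM
      hs hAA₁ hD ho hΛμ hgμ hb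
      (GT_diff h2 u hsum hmin (fun t => P.ord (u t)) _ hJ hJ0) hi₀ (by
        rw [hord]
        have := hΛμ (c j)
        linarith) with ⟨k1, k2, k3⟩ | k
    · left
      refine ⟨fun l => ?_, fun i j l => ?_, k3⟩
      · rw [htj, P.ord_div (hΛ0 _) (hΛ0 _)]
        have h3 := k1 (ψ (a l))
        have h4 := k1 (ψ 0)
        linarith
      · rw [hTord, hTord]
        exact k2 i j l
    · right
      refine ⟨b, fun i j => by rw [hTord, hTord]; exact hb i j, ?_⟩
      simp only [hTord]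
      exact k
  · obtain ⟨Dd, hDd⟩ := exists_dual ha
    have hf : ∀ j, form t N (g₀ * h j) Dd = g₀ * h j := fun j => by
      unfold form
      rw [hDd, Matrix.det_one, one_pow, mul_one]
    refine ⟨Dd, ?_, ?_⟩
    · change form t N (g₀ * h 0) Dd ≠ 0
      rw [hf]
      exact mul_ne_zero hg₀ (hh0 0)
    · have h3 : (fun i : Fin w => form t N (g₀ * h i.succ) Dd / form t N (g₀ * h 0) Dd) = t := by
        funext i
        rw [hf, hf, htj, ← hh, ← hh]
        have h4 := hΛ0 (ψ 0)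
        change g₀ * ((∏ t, g t) ^ s * Λ (ψ (a i)) / Λ (ψ 0) ^ A) /
          (g₀ * ((∏ t, g t) ^ s * Λ (ψ 0) / Λ (ψ 0) ^ A)) = _
        have h5 := pow_ne_zero s hprod
        have h6 := pow_ne_zero A h4
        field_simp
      change AlgebraicIndependent ℂ
        (fun i : Fin w => form t N (g₀ * h i.succ) Dd / form t N (g₀ * h 0) Dd)
      rw [h3]
      exact ha.1

end Pool.Agent.N254.SQ
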