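import Mathlib
import Pool.Agent.N254.SQ.Stm
import Pool.Agent.W603.BP.Extn

/-!
Project SQ, third part: the big Picard theorem. Statements of the leaves.
-/

set_option autoImplicit false

namespace Pool.Agent.N254.SQ

open MvPolynomial Filter Topology Asymptotics ValueDistribution Metric
open Pool.Agent.N131.SR (Big NZ)
open Pool.Agent.W603.BP (Ext)

/-- quotients of entire functions -/
def QE (H : ℂ → ℂ) : Prop :=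
  ∃ A B : ℂ → ℂ, Differentiable ℂ A ∧ Differentiable ℂ B ∧ (∃ z, B z ≠ 0) ∧
    ∀ z, H z = A z / B z

/-- `h = z ^ k * exp (q (1 / z)) * H` on the exterior of the disc of radius `a`, off a discrete
set, with a quotient `H` of entire functions -/
def Rp (a : ℝ) (h H : ℂ → ℂ) : Prop :=
  QE H ∧ ∃ (k : ℤ) (q : ℂ → ℂ), DifferentiableOn ℂ q (ball 0 a⁻¹) ∧
    ∀ᶠ z in codiscreteWithin (Ext a), h z = z ^ k * Complex.exp (q z⁻¹) * H z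

/-- the characteristic near infinity is at most `C τ + o(τ)` -/
def LeP (L : Filter ℝ) (τ : ℝ → ℝ) (C : ℝ) (h : ℂ → ℂ) : Prop :=
  ∃ a : ℝ, 1 ≤ a ∧ ∃ H : ℂ → ℂ, Rp a h H ∧ Le L τ C H

/-- REPAN: analytic functions have representations -/
def RepAn_stm : Prop :=
  ∀ (R : ℝ) (f : ℂ → ℂ), 0 < R → AnalyticOnNhd ℂ f (Ext R) →
    ∃ a : ℝ, 1 ≤ a ∧ R ≤ a ∧ ∃ H : ℂ → ℂ, Rp a f H

/-- UNIQ: the characteristic does not depend on the representation -/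
def Uniq_stm : Prop :=
  ∀ (a : ℝ) (h H H' : ℂ → ℂ), 1 ≤ a → Rp a h H → Rp a h H' →
    ∃ C : ℝ, ∀ r, 1 ≤ r → characteristic H' ⊤ r ≤ characteristic H ⊤ r + C * (1 + Real.log r)

/-- LEPALG: constants, products, inverses, powers -/
structure LePAlg : Prop where
  mono_rp : ∀ (a a' : ℝ) (h H : ℂ → ℂ), 1 ≤ a → a ≤ a' → Rp a h H → Rp a' h H
  rp_mul : ∀ (a : ℝ) (h h' H H' : ℂ → ℂ), 1 ≤ a → Rp a h H → Rp a h' H' →
    Rp a (fun z => h z * h' z) fun z => H z * H' z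
  rp_inv : ∀ (a : ℝ) (h H : ℂ → ℂ), 1 ≤ a → Rp a h H → Rp a (fun z => (h z)⁻¹) fun z => (H z)⁻¹
  const : ∀ (L : Filter ℝ) (τ : ℝ → ℝ), Cmp L τ → ∀ c : ℂ, LeP L τ 0 fun _ => c
  mono : ∀ (L : Filter ℝ) (τ : ℝ → ℝ), Cmp L τ → (∀ᶠ r in L, 0 ≤ τ r) → ∀ (C C' : ℝ)
    (h : ℂ → ℂ), C ≤ C' → LeP L τ C h → LeP L τ C' h
  congr : ∀ (L : Filter ℝ) (τ : ℝ → ℝ) (C a : ℝ) (h h' : ℂ → ℂ),
    (∀ᶠ z in codiscreteWithin (Ext a), h' z = h z) → LeP L τ C h → LeP L τ C h'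
  mul : ∀ (L : Filter ℝ) (τ : ℝ → ℝ), Cmp L τ → ∀ (C C' : ℝ) (h h' : ℂ → ℂ), LeP L τ C h →
    LeP L τ C' h' → LeP L τ (C + C') fun z => h z * h' z
  inv : ∀ (L : Filter ℝ) (τ : ℝ → ℝ), Cmp L τ → ∀ (C : ℝ) (h : ℂ → ℂ), LeP L τ C h →
    LeP L τ C fun z => (h z)⁻¹
  pow : ∀ (L : Filter ℝ) (τ : ℝ → ℝ), Cmp L τ → ∀ (C : ℝ) (D : ℕ), 1 ≤ D → ∀ (h : ℂ → ℂ) (a : ℝ)
    (H : ℂ → ℂ), 1 ≤ a → Rp a h H → LeP L τ C (fun z => h z ^ D) → LeP L τ (C / D) h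

/-- MODER: functions of moderate growth without poles -/
def Moder_stm : Prop :=
  ∀ (L : Filter ℝ) (τ : ℝ → ℝ), Cmp L τ → ∀ (a C : ℝ) (κ : ℕ) (h : ℂ → ℂ), 1 ≤ a →
    AnalyticOnNhd ℂ h (Ext a) → (∀ z ∈ Ext a, ‖h z‖ ≤ C * ‖z‖ ^ κ) → LeP L τ 0 h

/-- LEPADD: sums -/
def LePAdd_stm : Prop :=
  ∀ (L : Filter ℝ) (τ : ℝ → ℝ), Cmp L τ → (∀ᶠ r in L, 0 ≤ τ r) → ∀ (C C' : ℝ) (h h' : ℂ → ℂ),
    LeP L τ C h → LeP L τ C' h' → LeP L τ (C + C') fun z => h z + h' z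

/-- LEPDER: derivatives -/
def LePDer_stm : Prop :=
  ∀ (L : Filter ℝ) (τ : ℝ → ℝ), Cmp L τ → (∀ᶠ r in L, 0 ≤ τ r) → ∀ (C : ℝ) (h : ℂ → ℂ),
    LeP L τ C h → LeP L τ (3 * C) (deriv h)

/-- LEPDET: the characteristic of the determinant of the matrix of the `pp` -/
def LePDet_stm : Prop :=
  ∀ m : ℕ, ∃ C : ℝ, 0 ≤ C ∧ ∀ (L : Filter ℝ) (τ : ℝ → ℝ), Cmp L τ → (∀ᶠ r in L, 0 ≤ τ r) →
    ∀ κ : ℝ, 0 ≤ κ → ∀ φ : Fin m → ℂ → ℂ, (∀ i, LeP L τ κ (φ i)) →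
      LeP L τ (C * κ) fun z => (Matrix.of fun i k : Fin m => pp (φ i) k z).det

/-- WRP: the ratios in a minimal linear relation of analytic functions -/
def WrP_stm : Prop :=
  ∀ (R : ℝ), 0 < R → ∀ (m : ℕ) (u : Fin (m + 2) → ℂ → ℂ) (s : ℂ → ℂ),
    (∀ i, AnalyticOnNhd ℂ (u i) (Ext R)) → AnalyticOnNhd ℂ s (Ext R) →
    (∃ z ∈ Ext R, s z ≠ 0) → ∀ a : Fin (m + 2) → ℂ, (∀ i, a i ≠ 0) →
    (∀ z ∈ Ext R, ∑ i, a i * u i z = 0) →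
    (∀ b : Fin (m + 2) → ℂ, (∀ z ∈ Ext R, ∑ i, b i * u i z = 0) → ∃ c : ℂ, b = c • a) →
    ∀ i j : Fin (m + 2), ∃ c : ℂ, ∀ᶠ z in codiscreteWithin (Ext R), u i z / u j z = c *
      ((Matrix.of fun l k : Fin (m + 1) =>
          pp (logDeriv fun w => u (i.succAbove l) w / s w) k z).det /
        (Matrix.of fun l k : Fin (m + 1) =>
          pp (logDeriv fun w => u (j.succAbove l) w / s w) k z).det)

/-- RATP: functions with a representation of logarithmic growth are meromorphic at infinity -/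
def RatP_stm : Prop :=
  ∀ (a : ℝ) (h H : ℂ → ℂ) (C : ℝ), 1 ≤ a → Rp a h H →
    (∀ r, 1 ≤ r → characteristic H ⊤ r ≤ C * (1 + Real.log r)) →
    ∃ (ρ : ℂ → ℂ) (b : ℝ), MeromorphicAt ρ 0 ∧ 1 ≤ b ∧
      ∀ᶠ z in codiscreteWithin (Ext b), h z = ρ z⁻¹

/-- FILT: the filter for a sum of characteristics -/
def Filt_stm : Prop :=
  ∀ (N : ℕ) (H : Fin N → ℂ → ℂ), (∀ i, Meromorphic (H i)) →
    (∃ C : ℝ, ∀ r, 1 ≤ r → ∑ i, characteristic (H i) ⊤ r ≤ C * (1 + Real.log r)) ∨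
    ∃ L : Filter ℝ, Cmp L (fun r => ∑ i, characteristic (H i) ⊤ r)

/-- SIZEP: the size of the blocks for curves with an essential singularity at infinity -/
def SizeP_stm : Prop :=
  ∀ n e M : ℕ, ∃ D₁ : ℕ, ∀ D, D₁ ≤ D → ∀ (κ : Type) [Fintype κ], Fintype.card κ ≤ M →
    n + 1 ≤ Fintype.card κ → 2 ≤ Fintype.card κ →
    ∀ (G : κ → MvPolynomial (Fin (n + 1)) ℂ) (p : κ → ℕ), Function.Injective p →
      (∀ t, (G t).IsHomogeneous e) → ∀ (R : ℝ) (f : Fin (n + 1) → ℂ → ℂ), 0 < R →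
      (∀ j, AnalyticOnNhd ℂ (f j) (Ext R)) →
      (∀ z ∈ Ext R, ∑ t, eval (fun j => f j z) (G t) *
        eval (fun j => f j z) (lin ℂ n (p t)) ^ D = 0) →
      (∀ B : Finset κ, B.Nonempty → B ≠ Finset.univ → ∃ z ∈ Ext R, ∑ t ∈ B,
        eval (fun j => f j z) (G t) * eval (fun j => f j z) (lin ℂ n (p t)) ^ D ≠ 0) →
      ∀ i l, (∃ z ∈ Ext R, f l z ≠ 0) → ∃ (ρ : ℂ → ℂ) (b : ℝ), MeromorphicAt ρ 0 ∧ R ≤ b ∧
        ∀ z ∈ Ext b, f i z = ρ z⁻¹ * f l z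

end Pool.Agent.N254.SQ
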