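import Mathlib
import Pool.Agent.N254.SQ.Geo
import Pool.Agent.N254.SQ.StmG
import Pool.Agent.N254.SQ.StmP

/-!
Assembly of the four properties.
-/

set_option autoImplicit false

namespace Pool.Agent.N254.SQ

open MvPolynomial Filter Topology
open Pool.Agent.W602.GT (SubVar GeneralType val coords)
open Pool.Agent.W603.BP (Ext)

/-- a vanishing sum whose minimal vanishing subsums have at most `n` terms -/
theorem split_card {V : Type} [AddCommGroup V] (hP : Part_stm) {n L : ℕ} (hn : 1 ≤ n)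
    (u : Fin L → V) (hu : ∑ t, u t = 0)
    (hsize : ∀ B : Finset (Fin L), n + 1 ≤ B.card → ∑ t ∈ B, u t = 0 →
      (∀ B' ⊆ B, B'.Nonempty → B' ≠ B → ∑ t ∈ B', u t ≠ 0) → False) :
    ∃ 𝓑 : Finset (Finset (Fin L)), (∀ B ∈ 𝓑, B.Nonempty) ∧
      (∀ B ∈ 𝓑, ∀ B' ∈ 𝓑, B ≠ B' → Disjoint B B') ∧
      (∀ B ∈ 𝓑, ∑ t ∈ B, u t = 0) ∧ L ≤ n * 𝓑.card := by
  classical
  obtain ⟨𝓑, hne, hdis, hcov, hmin⟩ := hP V (Fin L) u hu
  refine ⟨𝓑, hne, hdis, fun B hB => (hmin B hB).1, ?_⟩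
  have hcard : ∀ B ∈ 𝓑, B.card ≤ n := by
    intro B hB
    by_contra hcon
    push Not at hcon
    exact hsize B hcon (hmin B hB).1 (hmin B hB).2
  have hunion : (Finset.univ : Finset (Fin L)) ⊆ 𝓑.biUnion id := by
    intro t _
    obtain ⟨B, hB, ht⟩ := hcov t
    exact Finset.mem_biUnion.2 ⟨B, hB, ht⟩
  have h1 := Finset.card_le_card hunion
  have h2 : (𝓑.biUnion id).card ≤ 𝓑.card * n :=
    Finset.card_biUnion_le_card_mul _ _ _ fun B hB => hcard B hB
  rw [Finset.card_univ, Fintype.card_fin] at h1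
  rw [mul_comm]
  omega

/-- from subsets to subtypes -/
theorem sub_min {V : Type} [AddCommGroup V] {L : ℕ} (u : Fin L → V) (B : Finset (Fin L))
    (hmin : ∀ B' ⊆ B, B'.Nonempty → B' ≠ B → ∑ t ∈ B', u t ≠ 0) (B' : Finset {t // t ∈ B})
    (h1 : B'.Nonempty) (h2 : B' ≠ Finset.univ) : ∑ t ∈ B', u t.1 ≠ 0 := by
  classical
  have h3 := hmin (B'.map (Function.Embedding.subtype _)) (by
    intro t ht
    rw [Finset.mem_map] at ht
    obtain ⟨a, -, rfl⟩ := ht
    exact a.2) (by simpa using h1) (by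
    intro h4
    apply h2
    rw [Finset.eq_univ_iff_forall]
    intro a
    have h5 : a.1 ∈ B'.map (Function.Embedding.subtype _) := by
      rw [h4]
      exact a.2
    rw [Finset.mem_map] at h5
    obtain ⟨b, hb, hba⟩ := h5
    have : b = a := Subtype.ext hba
    rwa [← this])
  rw [Finset.sum_map] at h3
  exact h3

/-- The four properties of the general hypersurface. -/
theorem main_four (hP : Part_stm) (hS : Size_stm) (hG : GT_stm) (hPic : SizeP_stm)
    (hB : Blocks_stm) (hSm : Smooth_stm) (n e : ℕ) (hn : 1 ≤ n) (he : 1 ≤ e) :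
    ∃ D₁ : ℕ, ∀ D, D₁ ≤ D → ∀ (K : Type) [Field K] [CharZero K]
      (ι : Type) [Fintype ι] (q : ι → MvPolynomial (Fin (n + 1)) K),
      (∀ i, (q i).IsHomogeneous e) → ∀ r : ℕ,
      (∀ (Ω : Type) [Field Ω] [Algebra K Ω] (x : Fin (n + 1) → Ω), x ≠ 0 →
        (∀ i, aeval x (q i) = 0) →
        r < (Matrix.of fun (i : ι) (j : Fin (n + 1)) => (aeval x (pderiv j (q i)) : Ω)).rank) →
      (∀ (Ω : Type) [Field Ω] [Algebra K Ω] (x : Fin (n + 1) → Ω) (a : Fin (n + 1)), x a = 1 →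
        (∀ i, aeval x (q i) = 0) → Algebra.trdeg K (Algebra.adjoin K (Set.range x)) ≤ r) →
      ∃ c : Fin (n * (2 * n + 1)) × ι → K, Smooth (hyp q D c) ∧ ∀ σ : K →+* ℂ,
        (∀ f : Fin (n + 1) → ℂ → ℂ, (∀ j, Differentiable ℂ (f j)) →
          (∀ z, ∃ j, f j z ≠ 0) → (∀ z, eval (fun j => f j z) (map σ (hyp q D c)) = 0) →
          (∃ i j z w, f i z * f j w ≠ f j z * f i w) →
          ∀ z i, eval (fun j => f j z) (map σ (q i)) = 0) ∧
        (∀ (F : Type) [Field F] [Algebra ℂ F] (w : ℕ) (y : Fin (n + 1) → F), 1 ≤ w →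
          SubVar (fun _ : Unit => map σ (hyp q D c)) F w y →
          (∀ i, val y (map σ (q i)) = 0) ∨ GeneralType ℂ F w) ∧
        ∀ (R : ℝ) (f : Fin (n + 1) → ℂ → ℂ), 0 < R → (∀ j, AnalyticOnNhd ℂ (f j) (Ext R)) →
          (∀ z ∈ Ext R, eval (fun j => f j z) (map σ (hyp q D c)) = 0) →
          (∀ z ∈ Ext R, ∀ i, eval (fun j => f j z) (map σ (q i)) = 0) ∨
          ∀ i l, (∃ z ∈ Ext R, f l z ≠ 0) → ∃ (ρ : ℂ → ℂ) (b : ℝ), MeromorphicAt ρ 0 ∧ R ≤ b ∧
            ∀ z ∈ Ext b, f i z = ρ z⁻¹ * f l z := by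
  classical
  obtain ⟨D₁, hD₁⟩ := curves hP hS n e (n * (2 * n + 1))
  obtain ⟨D₂, hD₂⟩ := hG e (n * (2 * n + 1))
  obtain ⟨D₃, hD₃⟩ := hPic n e (n * (2 * n + 1))
  refine ⟨max (max D₁ D₂) (max D₃ 1), fun D hD K _ _ ι _ q hq r hr1 hr2 => ?_⟩
  have hDD : D₁ ≤ D := le_trans (le_trans (le_max_left _ _) (le_max_left _ _)) hD
  have hDD2 : D₂ ≤ D := le_trans (le_trans (le_max_right _ _) (le_max_left _ _)) hD
  have hDD3 : D₃ ≤ D := le_trans (le_trans (le_max_left _ _) (le_max_right _ _)) hD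
  have hD1 : 1 ≤ D := le_trans (le_trans (le_max_right _ _) (le_max_right _ _)) hD
  set L := n * (2 * n + 1) with hL
  have hL2 : 2 * n + 1 ≤ L := Nat.le_mul_of_pos_left _ hn
  obtain ⟨Δ₁, hΔ₁, hB1⟩ := hB K n L D e ι q hq
  obtain ⟨Δ₂, hΔ₂, hS1⟩ := hSm K n L D e r ι q hq hD1 hL2 hr1 hr2
  obtain ⟨c, hc⟩ : ∃ c : Fin L × ι → K, eval c (Δ₁ * Δ₂) ≠ 0 := by
    by_contra hcon
    push Not at hcon
    exact mul_ne_zero hΔ₁ hΔ₂ (MvPolynomial.funext fun c => by rw [hcon c, map_zero])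
  rw [map_mul] at hc
  have hc1 := left_ne_zero_of_mul hc
  have hc2 := right_ne_zero_of_mul hc
  have haev : ∀ (Ω : Type) [Field Ω] (σ : K →+* Ω) (Δ : MvPolynomial (Fin L × ι) K),
      eval c Δ ≠ 0 → eval₂ σ (fun p => σ (c p)) Δ ≠ 0 := by
    intro Ω _ σ Δ h h2
    apply h
    apply σ.injective
    rw [map_zero, ← h2]
    exact (eval₂_comp (f := σ) (g := c) Δ).trans rfl
  -- the values of the terms over an extension of `ℂ`
  have hval : ∀ (σ : K →+* ℂ) (Ω : Type) [Field Ω] (τ : ℂ →+* Ω) (x : Fin (n + 1) → Ω)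
      (t : Fin L), eval₂ τ x (∑ i, C (σ (c (t, i))) * map σ (q i)) * eval₂ τ x (lin ℂ n t) ^ D =
        (∑ i, τ (σ (c (t, i))) * eval₂ (τ.comp σ) x (q i)) *
          eval₂ (τ.comp σ) x (lin K n t) ^ D := by
    intro σ Ω _ τ x t
    rw [eval₂_sum, ← map_lin σ, eval₂_map]
    congr 1
    apply Finset.sum_congr rfl
    intro i _
    rw [eval₂_mul, eval₂_C, eval₂_map]
  have hkey : ∀ (σ : K →+* ℂ) (Ω : Type) [Field Ω] (τ : ℂ →+* Ω) (x : Fin (n + 1) → Ω)
      (𝓑 : Finset (Finset (Fin L))), x ≠ 0 → (∀ B ∈ 𝓑, B.Nonempty) →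
      (∀ B ∈ 𝓑, ∀ B' ∈ 𝓑, B ≠ B' → Disjoint B B') → L ≤ n * 𝓑.card →
      (∀ B ∈ 𝓑, ∑ t ∈ B, eval₂ τ x (∑ i, C (σ (c (t, i))) * map σ (q i)) *
        eval₂ τ x (lin ℂ n t) ^ D = 0) → ∀ i, eval₂ τ x (map σ (q i)) = 0 := by
    intro σ Ω _ τ x 𝓑 hx hne hdis hcard hvan i
    letI : Algebra K Ω := (τ.comp σ).toAlgebra
    have hcard2 : 2 * n + 1 ≤ 𝓑.card := Nat.le_of_mul_le_mul_left hcard hn
    have key := hB1 Ω (fun p => (τ.comp σ) (c p)) (haev Ω (τ.comp σ) Δ₁ hc1) 𝓑 hne hdis hcard2 x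
      hx (by
        intro B hBB
        rw [← hvan B hBB]
        apply Finset.sum_congr rfl
        intro t _
        rw [hval]
        rfl) i
    rw [eval₂_map]
    exact key
  have hsum : ∀ (σ : K →+* ℂ) (Ω : Type) [Field Ω] (τ : ℂ →+* Ω) (x : Fin (n + 1) → Ω),
      eval₂ τ x (map σ (hyp q D c)) = ∑ t : Fin L, eval₂ τ x (∑ i, C (σ (c (t, i))) *
        map σ (q i)) * eval₂ τ x (lin ℂ n t) ^ D := by
    intro σ Ω _ τ x
    rw [map_hyp, hyp, eval₂_sum]
    apply Finset.sum_congr rfl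
    intro t _
    rw [eval₂_mul, eval₂_pow]
  have hhom : ∀ (σ : K →+* ℂ) (t : Fin L),
      (∑ i, C (σ (c (t, i))) * map σ (q i)).IsHomogeneous e := fun σ t =>
    fam_hom (fun i => (hq i).map σ) _
  refine ⟨c, ?_, fun σ => ⟨?_, ?_, ?_⟩⟩
  · intro Ω _ σ x hx
    letI : Algebra K Ω := σ.toAlgebra
    obtain ⟨j, hj⟩ := hS1 Ω (fun p => σ (c p)) (haev Ω σ Δ₂ hc2) x hx
    refine ⟨j, ?_⟩
    rw [map_hyp]
    exact hj
  · intro f hf h0 hF hnc z i
    obtain ⟨𝓑, hne, hdis, hvan, hcard⟩ := hD₁ D hDD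
      (fun t => ∑ i, C (σ (c (t, i))) * map σ (q i)) (hhom σ) f hf h0 (by
        intro z
        have h1 := hF z
        change eval₂ (RingHom.id ℂ) _ _ = 0 at h1
        rw [hsum σ ℂ (RingHom.id ℂ)] at h1
        exact h1) hnc
    have hx : (fun j => f j z) ≠ (0 : Fin (n + 1) → ℂ) := by
      intro h
      obtain ⟨j, hj⟩ := h0 z
      exact hj (congrFun h j)
    exact hkey σ ℂ (RingHom.id ℂ) _ 𝓑 hx hne hdis hcard (fun B hBB => hvan B hBB z) i
  · intro F _ _ w y hw hy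
    by_cases hgt : GeneralType ℂ F w
    · exact Or.inr hgt
    · left
      intro i
      obtain ⟨𝓑, hne, hdis, hvan, hcard⟩ := split_card hP hn (fun t : Fin L =>
        eval₂ (algebraMap ℂ F) y (∑ i, C (σ (c (t, i))) * map σ (q i)) *
          eval₂ (algebraMap ℂ F) y (lin ℂ n t) ^ D) (by
          rw [← hsum σ F (algebraMap ℂ F)]
          exact hy.mem ()) (by
        intro B hBc hB0 hBmin
        apply hgt
        have hc : Fintype.card {t // t ∈ B} = B.card := Fintype.card_coe B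
        refine hD₂ D hDD2 F n w y hw hy.ne hy.gen hy.dim {t // t ∈ B} ?_ ?_
          (fun t => ∑ i, C (σ (c (t.1, i))) * map σ (q i)) (fun t => (t.1 : ℕ)) ?_
          (fun t => hhom σ t.1) ?_ ?_
        · rw [hc]
          exact (Finset.card_le_univ B).trans (by simp)
        · rw [hc]
          exact hBc
        · intro a b hab
          exact Subtype.ext (Fin.ext hab)
        · have h1 := hB0
          rw [← Finset.sum_coe_sort] at h1
          exact h1
        · intro B' hB' hB'u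
          exact sub_min (fun t : Fin L =>
            eval₂ (algebraMap ℂ F) y (∑ i, C (σ (c (t, i))) * map σ (q i)) *
              eval₂ (algebraMap ℂ F) y (lin ℂ n t) ^ D) B hBmin B' hB' hB'u)
      exact hkey σ F (algebraMap ℂ F) y 𝓑 hy.ne hne hdis hcard hvan i
  · intro R f hR hf hF
    by_cases hmer : ∀ i l, (∃ z ∈ Ext R, f l z ≠ 0) → ∃ (ρ : ℂ → ℂ) (b : ℝ),
        MeromorphicAt ρ 0 ∧ R ≤ b ∧ ∀ z ∈ Ext b, f i z = ρ z⁻¹ * f l z
    · exact Or.inr hmer
    · left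
      intro z hz i
      obtain ⟨𝓑, hne, hdis, hvan, hcard⟩ := split_card hP hn (fun (t : Fin L) (z : Ext R) =>
        eval (fun j => f j z) (∑ i, C (σ (c (t, i))) * map σ (q i)) *
          eval (fun j => f j z) (lin ℂ n t) ^ D) (by
          funext z
          rw [Finset.sum_apply]
          have h1 := hF z.1 z.2
          change eval₂ (RingHom.id ℂ) _ _ = 0 at h1
          rw [hsum σ ℂ (RingHom.id ℂ)] at h1
          exact h1) (by
        intro B hBc hB0 hBmin
        apply hmer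
        have hc : Fintype.card {t // t ∈ B} = B.card := Fintype.card_coe B
        refine hD₃ D hDD3 {t // t ∈ B} ?_ ?_ ?_
          (fun t => ∑ i, C (σ (c (t.1, i))) * map σ (q i)) (fun t => (t.1 : ℕ)) ?_
          (fun t => hhom σ t.1) R f hR hf ?_ ?_
        · rw [hc]
          exact (Finset.card_le_univ B).trans (by simp)
        · rw [hc]
          exact hBc
        · rw [hc]
          omega
        · intro a b hab
          exact Subtype.ext (Fin.ext hab)
        · intro z hz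
          have h1 := congrFun hB0 ⟨z, hz⟩
          rw [← Finset.sum_coe_sort, Finset.sum_apply] at h1
          exact h1
        · intro B' hB' hB'u
          have h1 := sub_min (fun (t : Fin L) (z : Ext R) =>
            eval (fun j => f j z) (∑ i, C (σ (c (t, i))) * map σ (q i)) *
              eval (fun j => f j z) (lin ℂ n t) ^ D) B hBmin B' hB' hB'u
          by_contra hcon
          push Not at hcon
          apply h1
          funext z
          rw [Finset.sum_apply]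
          exact hcon z.1 z.2)
      by_cases hx : (fun j => f j z) = (0 : Fin (n + 1) → ℂ)
      · rw [hx]
        have h1 := eval₂_scale (RingHom.id ℂ) ((hq i).map σ) 0 (0 : Fin (n + 1) → ℂ)
        rw [zero_smul, zero_pow (by omega), zero_mul] at h1
        exact h1
      · refine hkey σ ℂ (RingHom.id ℂ) _ 𝓑 hx hne hdis hcard (fun B hBB => ?_) i
        have h1 := congrFun (hvan B hBB) ⟨z, hz⟩
        rw [Finset.sum_apply] at h1
        exact h1

end Pool.Agent.N254.SQ
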