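import Pool.Agent.N254.SQ.StmP

/-!
Project SQ, leaf LEPADD: sums of functions near infinity.
-/

set_option autoImplicit false

namespace Pool.Agent.N254.SQ

open Filter Topology Asymptotics ValueDistribution Metric MeromorphicOn Function Real Set
open Pool.Agent.N131.SR (Big NZ)
open Pool.Agent.W603.BP (Ext)

/-! ### counting functions -/

theorem lepadd_fin (D : locallyFinsupp ℂ ℤ) (a : ℝ) : {z : ℂ | D z ≠ 0 ∧ ‖z‖ ≤ a}.Finite := by
  have h1 := (Function.locallyFinsupp.locallyFiniteSupport D).finite_inter_support_of_isCompact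
    (isCompact_closedBall (0 : ℂ) a)
  refine h1.subset ?_
  rintro z ⟨h2, h3⟩
  exact ⟨by rw [mem_closedBall, dist_zero_right]; exact h3, h2⟩

theorem lepadd_count (D D' : locallyFinsupp ℂ ℤ) (a : ℝ) (h0 : ∀ z, 0 ≤ D z) (h0' : ∀ z, 0 ≤ D' z)
    (h : ∀ z, a < ‖z‖ → D z ≤ D' z) : ∃ C : ℝ, 0 ≤ C ∧ ∀ r, 1 ≤ r → a ≤ r →
      locallyFinsuppWithin.logCounting D r ≤
        locallyFinsuppWithin.logCounting D' r + C * (1 + Real.log r) := by
  classical
  set T : Finset ℂ := (lepadd_fin D a).toFinset with hT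
  have hTm : ∀ z, z ∈ T ↔ D z ≠ 0 ∧ ‖z‖ ≤ a := by
    intro z
    rw [hT, Set.Finite.mem_toFinset]
    rfl
  set F : locallyFinsupp ℂ ℤ := ∑ w ∈ T, locallyFinsuppWithin.single w (D w) with hF
  have hFz : ∀ z, F z = if z ∈ T then D z else 0 := by
    intro z
    have h1 : F z = ∑ w ∈ T, (locallyFinsuppWithin.single w (D w) : locallyFinsupp ℂ ℤ) z := by
      rw [hF]
      clear_value T
      induction T using Finset.induction_on with
      | empty => rfl
      | insert w s hw ih =>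
        rw [Finset.sum_insert hw, Finset.sum_insert hw]
        rw [locallyFinsuppWithin.coe_add, Pi.add_apply]
        congr 1
        have : ∀ s : Finset ℂ, (∑ w ∈ s, locallyFinsuppWithin.single w (D w) :
            locallyFinsupp ℂ ℤ) z =
            ∑ w ∈ s, (locallyFinsuppWithin.single w (D w) : locallyFinsupp ℂ ℤ) z := by
          intro s
          induction s using Finset.induction_on with
          | empty => rfl
          | insert w s hw ih =>
            rw [Finset.sum_insert hw, Finset.sum_insert hw, locallyFinsuppWithin.coe_add,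
              Pi.add_apply, ih]
        exact this s
    rw [h1]
    simp only [locallyFinsuppWithin.single_apply]
    rw [Finset.sum_ite_eq]
  refine ⟨∑ w ∈ T, (D w : ℝ) * (1 + |Real.log ‖w‖|), ?_, fun r hr har => ?_⟩
  · refine Finset.sum_nonneg fun w _ => ?_
    have : (0 : ℝ) ≤ D w := by exact_mod_cast h0 w
    positivity
  · have h1 : D ≤ D' + F := by
      intro z
      change D z ≤ D' z + F z
      rw [hFz]
      split_ifs with hz
      · linarith [h0' z]
      · rw [hTm] at hz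
        by_cases hD : D z = 0
        · rw [hD]
          linarith [h0' z]
        · have h2 : a < ‖z‖ := by
            by_contra h3
            exact hz ⟨hD, not_lt.1 h3⟩
          linarith [h z h2]
    have h2 := locallyFinsuppWithin.logCounting_le h1 hr
    rw [map_add, Pi.add_apply] at h2
    refine h2.trans (add_le_add le_rfl ?_)
    rw [hF, map_sum, Finset.sum_apply, Finset.sum_mul]
    refine Finset.sum_le_sum fun w hw => ?_
    have h3 : ‖w‖ ≤ r := (((hTm w).1 hw).2).trans har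
    rw [locallyFinsuppWithin.logCounting_single_eq_log_sub_const h3]
    have h4 : (0 : ℝ) ≤ D w := by exact_mod_cast h0 w
    have h5 : 0 ≤ Real.log r := Real.log_nonneg hr
    have h6 : -Real.log ‖w‖ ≤ |Real.log ‖w‖| := neg_le_abs _
    have h7 : 0 ≤ |Real.log ‖w‖| := abs_nonneg _
    rw [mul_assoc]
    refine mul_le_mul_of_nonneg_left ?_ h4
    nlinarith

/-- poles of a sum -/
theorem lepadd_neg (x y w : WithTop ℤ) (h : min x y ≤ w) :
    (w.untop₀)⁻ ≤ (x.untop₀)⁻ + (y.untop₀)⁻ := by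
  have hx : 0 ≤ (x.untop₀)⁻ := negPart_nonneg _
  have hy : 0 ≤ (y.untop₀)⁻ := negPart_nonneg _
  rcases eq_or_ne w ⊤ with hw | hw
  · rw [hw]
    simpa using add_nonneg hx hy
  · lift w to ℤ using hw
    rw [WithTop.untop₀_coe]
    have key : ∀ v : WithTop ℤ, v ≤ (w : WithTop ℤ) → (w : ℤ)⁻ ≤ (v.untop₀)⁻ := by
      intro v hv
      have hv1 : v ≠ ⊤ := ne_top_of_le_ne_top WithTop.coe_ne_top hv
      lift v to ℤ using hv1
      rw [WithTop.untop₀_coe]
      have hv2 : v ≤ w := by exact_mod_cast hv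
      exact negPart_anti hv2
    rcases min_le_iff.1 h with h1 | h1
    · linarith [key x h1]
    · linarith [key y h1]

/-! ### proximity functions -/

theorem lepadd_prox {H1 H2 H3 v v' : ℂ → ℂ} (m1 : Meromorphic H1) (m2 : Meromorphic H2)
    (m3 : Meromorphic H3) {a : ℝ} (ha : 1 ≤ a) {c : ℝ} (hc : 1 ≤ c) {κ : ℕ}
    (hv : ∀ z : ℂ, a + 1 ≤ ‖z‖ → ‖v z‖ ≤ c * ‖z‖ ^ κ)
    (hv' : ∀ z : ℂ, a + 1 ≤ ‖z‖ → ‖v' z‖ ≤ c * ‖z‖ ^ κ)
    (h : ∀ᶠ z in codiscreteWithin (Ext a), H3 z = v z * H1 z + v' z * H2 z) :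
    ∃ C : ℝ, 0 ≤ C ∧ ∀ r, a + 1 ≤ r → proximity H3 ⊤ r ≤
      proximity H1 ⊤ r + proximity H2 ⊤ r + C * (1 + Real.log r) := by
  refine ⟨2 * Real.log c + 2 * κ + Real.log 2, ?_, fun r hr => ?_⟩
  · have h1 := Real.log_nonneg hc
    have h2 : 0 ≤ Real.log 2 := Real.log_nonneg (by norm_num)
    positivity
  · have hr1 : 1 ≤ r := by linarith
    have hr0 : r ≠ 0 := by positivity
    have hlr : 0 ≤ Real.log r := Real.log_nonneg hr1
    have hlc : 0 ≤ Real.log c := Real.log_nonneg hc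
    have hl2 : 0 ≤ Real.log 2 := Real.log_nonneg (by norm_num)
    have i1 : CircleIntegrable (fun z => log⁺ ‖H1 z‖) 0 r :=
      m1.meromorphicOn.circleIntegrable_posLog_norm
    have i2 : CircleIntegrable (fun z => log⁺ ‖H2 z‖) 0 r :=
      m2.meromorphicOn.circleIntegrable_posLog_norm
    have i3 : CircleIntegrable (fun z => log⁺ ‖H3 z‖) 0 r :=
      m3.meromorphicOn.circleIntegrable_posLog_norm
    obtain ⟨K, hK⟩ : ∃ K : ℝ, K = 2 * (Real.log c + κ * Real.log r) + Real.log 2 := ⟨_, rfl⟩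
    have i4 : CircleIntegrable (fun _ : ℂ => K) 0 r := circleIntegrable_const _ _ _
    have h1 : circleAverage (fun z => log⁺ ‖H3 z‖) 0 r ≤
        circleAverage (fun z => (log⁺ ‖H1 z‖ + log⁺ ‖H2 z‖) + K) 0 r := by
      apply Pool.Agent.Helper160.Nev.circleAverage_mono_codiscrete hr0 i3 ((i1.add i2).add i4)
      have h2 : ∀ᶠ z in codiscreteWithin (sphere (0 : ℂ) |r|),
          H3 z = v z * H1 z + v' z * H2 z := by
        refine h.filter_mono (codiscreteWithin_mono ?_)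
        intro z hz
        rw [mem_sphere, dist_zero_right, abs_of_nonneg (by linarith)] at hz
        change a < ‖z‖
        linarith
      have h3 : ∀ᶠ z in codiscreteWithin (sphere (0 : ℂ) |r|), z ∈ sphere (0 : ℂ) |r| := by
        exact self_mem_codiscreteWithin _
      filter_upwards [h2, h3] with z hz hzs
      rw [mem_sphere, dist_zero_right, abs_of_nonneg (by linarith)] at hzs
      have key : ∀ (w H : ℂ), ‖w‖ ≤ c * r ^ κ →
          log⁺ ‖w * H‖ ≤ (Real.log c + κ * Real.log r) + log⁺ ‖H‖ := by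
        intro w H hw
        rw [norm_mul]
        refine posLog_mul.trans (add_le_add ?_ le_rfl)
        have h4 : log⁺ ‖w‖ ≤ log⁺ (c * r ^ κ) := by
          refine monotoneOn_posLog (Set.mem_Ici.2 (norm_nonneg _)) (Set.mem_Ici.2 ?_) hw
          positivity
        refine h4.trans (le_of_eq ?_)
        have h5 : 1 ≤ c * r ^ κ := one_le_mul_of_one_le_of_one_le hc (one_le_pow₀ hr1)
        rw [posLog_eq_log (by rw [abs_of_nonneg (by positivity)]; exact h5),
          Real.log_mul (by positivity) (by positivity), Real.log_pow]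
      have k1 := key (v z) (H1 z) (by rw [← hzs]; exact hv z (by linarith))
      have k2 := key (v' z) (H2 z) (by rw [← hzs]; exact hv' z (by linarith))
      have k3 := posLog_norm_add_le (v z * H1 z) (v' z * H2 z)
      have k4 : log⁺ ‖H3 z‖ ≤ (log⁺ ‖H1 z‖ + log⁺ ‖H2 z‖) + K := by
        rw [hz, hK]
        linarith
      exact k4
    rw [proximity_top, proximity_top, proximity_top]
    have h4 : circleAverage (fun z => (log⁺ ‖H1 z‖ + log⁺ ‖H2 z‖) + K) 0 r =
        circleAverage (fun z => log⁺ ‖H1 z‖) 0 r + circleAverage (fun z => log⁺ ‖H2 z‖) 0 r + K := by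
      have i12 : CircleIntegrable (fun z => log⁺ ‖H1 z‖ + log⁺ ‖H2 z‖) 0 r := i1.add i2
      rw [circleAverage_fun_add i12 i4, circleAverage_fun_add i1 i2, circleAverage_const]
    rw [h4] at h1
    refine h1.trans ?_
    rw [hK]
    have h5 : (0 : ℝ) ≤ κ := Nat.cast_nonneg _
    nlinarith [mul_nonneg hlc hlr, mul_nonneg hl2 hlr]

/-! ### the estimate of the characteristic -/

/-- the characteristic of a sum with unit coefficients near infinity -/
theorem lepadd_char {H1 H2 H3 v v' : ℂ → ℂ} (m1 : Meromorphic H1) (m2 : Meromorphic H2)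
    (m3 : Meromorphic H3) {a : ℝ} (ha : 1 ≤ a) {c : ℝ} (hc : 1 ≤ c) {κ : ℕ}
    (hv : ∀ z : ℂ, a + 1 ≤ ‖z‖ → ‖v z‖ ≤ c * ‖z‖ ^ κ)
    (hv' : ∀ z : ℂ, a + 1 ≤ ‖z‖ → ‖v' z‖ ≤ c * ‖z‖ ^ κ)
    (av : ∀ z ∈ Ext a, AnalyticAt ℂ v z ∧ v z ≠ 0)
    (av' : ∀ z ∈ Ext a, AnalyticAt ℂ v' z ∧ v' z ≠ 0)
    (h : ∀ᶠ z in codiscreteWithin (Ext a), H3 z = v z * H1 z + v' z * H2 z) :
    ∃ C : ℝ, 0 ≤ C ∧ ∀ r, a + 1 ≤ r → characteristic H3 ⊤ r ≤
      characteristic H1 ⊤ r + characteristic H2 ⊤ r + C * (1 + Real.log r) := by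
  obtain ⟨C1, hC1, hp⟩ := lepadd_prox m1 m2 m3 ha hc hv hv' h
  have hord : ∀ z, a < ‖z‖ → (divisor H3 univ)⁻ z ≤
      ((divisor H1 univ)⁻ + (divisor H2 univ)⁻ : locallyFinsupp ℂ ℤ) z := by
    intro z hz
    change (divisor H3 univ z)⁻ ≤ (divisor H1 univ z)⁻ + (divisor H2 univ z)⁻
    rw [divisor_apply m3.meromorphicOn (mem_univ z), divisor_apply m1.meromorphicOn (mem_univ z),
      divisor_apply m2.meromorphicOn (mem_univ z)]
    apply lepadd_neg
    have h1 : H3 =ᶠ[𝓝[≠] z] (v * H1) + (v' * H2) := by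
      have h2 := (mem_codiscreteWithin_iff_forall_mem_nhdsNE.1 h) z hz
      have h3 : Ext a ∈ 𝓝[≠] z := nhdsWithin_le_nhds
        ((Pool.Agent.W603.BP.Ext_open a).mem_nhds hz)
      filter_upwards [h2, h3] with w hw hw2
      rcases hw with h4 | h4
      · exact h4
      · exact absurd hw2 h4
    rw [meromorphicOrderAt_congr h1]
    have o1 : ∀ {w H : ℂ → ℂ}, Meromorphic H → AnalyticAt ℂ w z → w z ≠ 0 →
        meromorphicOrderAt (w * H) z = meromorphicOrderAt H z := by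
      intro w H hH hw hw0
      rw [meromorphicOrderAt_mul hw.meromorphicAt (hH z)]
      have h4 : meromorphicOrderAt w z = 0 := by
        rw [hw.meromorphicOrderAt_eq, hw.analyticOrderAt_eq_zero.2 hw0]
        rfl
      rw [h4, zero_add]
    have h5 := meromorphicOrderAt_add (x := z) (f₁ := v * H1) (f₂ := v' * H2)
      ((av z hz).1.meromorphicAt.mul (m1 z)) ((av' z hz).1.meromorphicAt.mul (m2 z))
    rw [o1 m1 (av z hz).1 (av z hz).2, o1 m2 (av' z hz).1 (av' z hz).2] at h5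
    exact h5
  obtain ⟨C2, hC2, hN⟩ := lepadd_count (divisor H3 univ)⁻
    ((divisor H1 univ)⁻ + (divisor H2 univ)⁻) a (fun z => negPart_nonneg (divisor H3 univ z))
    (fun z => add_nonneg (negPart_nonneg (divisor H1 univ z)) (negPart_nonneg (divisor H2 univ z)))
    hord
  refine ⟨C1 + C2, by positivity, fun r hr => ?_⟩
  have h1 := hp r hr
  have h2 := hN r (by linarith) (by linarith)
  rw [map_add, Pi.add_apply, ← logCounting_top, ← logCounting_top, ← logCounting_top] at h2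
  unfold characteristic
  simp only [Pi.add_apply]
  linarith

/-- sums -/
theorem t_lepadd : LePAdd_stm := by
  intro L τ hcmp hτ C C' h h' hh hh'
  obtain ⟨a1, ha1, H1, ⟨⟨A, B, dA, dB, hB, hH1⟩, k, q, hq, hr1⟩, mH1, s1, hs1, hc1⟩ := hh
  obtain ⟨a2, ha2, H2, ⟨⟨A', B', dA', dB', hB', hH2⟩, k', q', hq', hr2⟩, mH2, s2, hs2, hc2⟩ := hh'
  obtain ⟨a, haa⟩ : ∃ a : ℝ, a = max a1 a2 := ⟨_, rfl⟩
  have h1a : a1 ≤ a := by rw [haa]; exact le_max_left _ _
  have h2a : a2 ≤ a := by rw [haa]; exact le_max_right _ _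
  have ha : 1 ≤ a := ha1.trans h1a
  have ha0 : 0 < a := by linarith
  -- units
  obtain ⟨u, hu⟩ : ∃ u : ℂ → ℂ, u = fun z => z ^ k * Complex.exp (q z⁻¹) := ⟨_, rfl⟩
  obtain ⟨u', hu'⟩ : ∃ u' : ℂ → ℂ, u' = fun z => z ^ k' * Complex.exp (q' z⁻¹) := ⟨_, rfl⟩
  have ball_sub : ∀ {x y : ℝ}, 1 ≤ x → x ≤ y → ball (0 : ℂ) y⁻¹ ⊆ ball 0 x⁻¹ := by
    intro x y hx hxy
    exact ball_subset_ball (inv_anti₀ (by linarith) hxy)
  have tu : ∀ b, a ≤ b → Pool.Agent.W603.BP.Tame b u := by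
    intro b hb
    rw [hu]
    exact Pool.Agent.W603.BP.tame_of (ha.trans hb) k
      (hq.mono (ball_sub ha1 (h1a.trans hb)))
  have tu' : ∀ b, a ≤ b → Pool.Agent.W603.BP.Tame b u' := by
    intro b hb
    rw [hu']
    exact Pool.Agent.W603.BP.tame_of (ha.trans hb) k'
      (hq'.mono (ball_sub ha2 (h2a.trans hb)))
  have hr1' : ∀ b, a ≤ b → ∀ᶠ z in codiscreteWithin (Ext b), h z = u z * H1 z := by
    intro b hb
    rw [hu]
    exact hr1.filter_mono (codiscreteWithin_mono (Pool.Agent.W603.BP.Ext_mono (h1a.trans hb)))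
  have hr2' : ∀ b, a ≤ b → ∀ᶠ z in codiscreteWithin (Ext b), h' z = u' z * H2 z := by
    intro b hb
    rw [hu']
    exact hr2.filter_mono (codiscreteWithin_mono (Pool.Agent.W603.BP.Ext_mono (h2a.trans hb)))
  have nB : ∀ b, ∀ᶠ z in codiscreteWithin (Ext b), B z ≠ 0 := fun b =>
    (diff_ne dB hB).filter_mono (codiscreteWithin_mono (subset_univ _))
  have nB' : ∀ b, ∀ᶠ z in codiscreteWithin (Ext b), B' z ≠ 0 := fun b =>
    (diff_ne dB' hB').filter_mono (codiscreteWithin_mono (subset_univ _))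
  obtain ⟨S, hS⟩ : ∃ S : ℂ → ℂ, S = fun z => u z * (A z * B' z) + u' z * (A' z * B z) := ⟨_, rfl⟩
  have anS : AnalyticOnNhd ℂ S (Ext a) := by
    rw [hS]
    intro z hz
    exact (((tu a le_rfl).an z hz).fun_mul ((dA.analyticAt z).fun_mul (dB'.analyticAt z))).fun_add
      (((tu' a le_rfl).an z hz).fun_mul ((dA'.analyticAt z).fun_mul (dB.analyticAt z)))
  have sumS : ∀ b, a ≤ b → ∀ᶠ z in codiscreteWithin (Ext b),
      h z + h' z = S z / (B z * B' z) := by
    intro b hb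
    filter_upwards [hr1' b hb, hr2' b hb, nB b, nB' b] with z e1 e2 e3 e4
    rw [e1, e2, hH1, hH2, hS]
    field_simp
  by_cases hS0 : ∃ z ∈ Ext a, S z ≠ 0
  · obtain ⟨r1, r2, har, hrr, hne⟩ := Pool.Agent.W603.BP.annulus ha0 anS hS0
    obtain ⟨a3, h13, h32⟩ := exists_between hrr
    have ha3 : a ≤ a3 := by linarith
    have ha31 : 1 ≤ a3 := ha.trans ha3
    obtain ⟨k3, q3, G, hq3, dG, hG, hSG⟩ := Pool.Agent.W603.BP.birkhoff (F := S) (r0 := r1)
      (r1 := r2) (a := a3) (by linarith) h13 h32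
      (fun z hz => (anS z (lt_trans har hz)).differentiableAt.differentiableWithinAt) hne
    obtain ⟨u3, hu3⟩ : ∃ u3 : ℂ → ℂ, u3 = fun z => z ^ k3 * Complex.exp (q3 z⁻¹) := ⟨_, rfl⟩
    have tu3 : Pool.Agent.W603.BP.Tame a3 u3 := by
      rw [hu3]
      exact Pool.Agent.W603.BP.tame_of ha31 k3 hq3
    obtain ⟨H3, hH3⟩ : ∃ H3 : ℂ → ℂ, H3 = fun z => G z / (B z * B' z) := ⟨_, rfl⟩
    have dBB : Differentiable ℂ fun z => B z * B' z := dB.mul dB'
    have m3 : Meromorphic H3 := by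
      rw [hH3]
      exact (diff_mero dG).div (diff_mero dBB)
    have hBB : ∃ z, B z * B' z ≠ 0 := by
      obtain ⟨z, h1, h2⟩ := ((diff_ne dB hB).and (diff_ne dB' hB')).exists
      exact ⟨z, mul_ne_zero h1 h2⟩
    -- the quotients of the units
    have hrel : ∀ᶠ z in codiscreteWithin (Ext a3),
        H3 z = (u z / u3 z) * H1 z + (u' z / u3 z) * H2 z := by
      filter_upwards [nB a3, nB' a3, self_mem_codiscreteWithin (Ext a3)] with z e3 e4 e5
      have h3 : u3 z ≠ 0 := tu3.ne z e5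
      have h4 : S z = u3 z * G z := by rw [hSG z e5, hu3]
      have h5 : G z = S z / u3 z := by rw [h4]; field_simp
      have h6 : H3 z = G z / (B z * B' z) := by rw [hH3]
      have h7 : S z = u z * (A z * B' z) + u' z * (A' z * B z) := by rw [hS]
      rw [h6, h5, h7, hH1, hH2]
      field_simp
    obtain ⟨c, hc, κ, hbd⟩ := (tu a3 ha3).bd
    obtain ⟨c', hc', κ', hbd'⟩ := (tu' a3 ha3).bd
    obtain ⟨c3, hc3, κ3, hbd3⟩ := tu3.bd
    have bound : ∀ (w : ℂ → ℂ) (d : ℝ) (κ₀ : ℕ), 1 ≤ d →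
        (∀ z : ℂ, a3 + 1 ≤ ‖z‖ → ‖w z‖ ≤ d * ‖z‖ ^ κ₀) → ∀ (D : ℝ) (K : ℕ), d * c3 ≤ D →
        κ₀ + κ3 ≤ K → ∀ z : ℂ, a3 + 1 ≤ ‖z‖ → ‖w z / u3 z‖ ≤ D * ‖z‖ ^ K := by
      intro w d κ₀ hd hw D K hD hK z hz
      have hz1 : 1 ≤ ‖z‖ := by linarith
      have h1 := hw z hz
      have h2 := (hbd3 z hz).2
      have h3 : u3 z ≠ 0 := tu3.ne z (by change a3 < ‖z‖; linarith)
      have h4 : 0 < ‖u3 z‖ := norm_pos_iff.2 h3
      rw [norm_div, div_le_iff₀ h4]
      calc ‖w z‖ ≤ d * ‖z‖ ^ κ₀ := h1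
        _ ≤ d * ‖z‖ ^ κ₀ * (c3 * ‖z‖ ^ κ3 * ‖u3 z‖) := le_mul_of_one_le_right (by positivity) h2
        _ = (d * c3) * ‖z‖ ^ (κ₀ + κ3) * ‖u3 z‖ := by rw [pow_add]; ring
        _ ≤ D * ‖z‖ ^ K * ‖u3 z‖ := by
            refine mul_le_mul_of_nonneg_right ?_ h4.le
            exact mul_le_mul hD (pow_le_pow_right₀ hz1 hK) (by positivity) (by
              have : 0 ≤ d * c3 := by positivity
              linarith)
    obtain ⟨C3, hC3, hest⟩ := lepadd_char (H1 := H1) (H2 := H2) (H3 := H3)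
      (v := fun z => u z / u3 z) (v' := fun z => u' z / u3 z) mH1 mH2 m3 ha31
      (c := max (c * c3) (c' * c3))
      (le_max_of_le_left (one_le_mul_of_one_le_of_one_le hc hc3)) (κ := max (κ + κ3) (κ' + κ3))
      (bound u c κ hc (fun z hz => (hbd z hz).1) _ _ (le_max_left _ _) (le_max_left _ _))
      (bound u' c' κ' hc' (fun z hz => (hbd' z hz).1) _ _ (le_max_right _ _) (le_max_right _ _))
      (fun z hz => ⟨((tu a3 ha3).an z hz).fun_div (tu3.an z hz) (tu3.ne z hz),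
        div_ne_zero ((tu a3 ha3).ne z hz) (tu3.ne z hz)⟩)
      (fun z hz => ⟨((tu' a3 ha3).an z hz).fun_div (tu3.an z hz) (tu3.ne z hz),
        div_ne_zero ((tu' a3 ha3).ne z hz) (tu3.ne z hz)⟩) hrel
    refine ⟨a3, ha31, H3, ⟨⟨G, fun z => B z * B' z, dG, dBB, hBB, fun z => by rw [hH3]⟩,
      k3, q3, hq3, ?_⟩, m3, fun r => s1 r + s2 r + C3 * (1 + Real.log r), ?_, ?_⟩
    · filter_upwards [sumS a3 ha3, self_mem_codiscreteWithin (Ext a3)] with z e1 e2
      rw [e1, hSG z e2, hH3]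
      ring
    · exact (hs1.add hs2).add ((hcmp.one.add hcmp.log).const_mul_left C3)
    · have hbig : ∀ᶠ r in L, a3 + 1 ≤ r := hcmp.big.top (eventually_ge_atTop _)
      filter_upwards [hc1, hc2, hbig] with r e1 e2 e3
      have := hest r e3
      linarith
  · push Not at hS0
    have hz0 : ∀ᶠ z in codiscreteWithin (Ext a), h z + h' z = 0 := by
      filter_upwards [sumS a le_rfl, self_mem_codiscreteWithin (Ext a)] with z e1 e2
      rw [e1, hS0 z e2, zero_div]
    refine ⟨a, ha, fun _ => 0, ⟨⟨fun _ => 0, fun _ => 1, differentiable_const _,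
      differentiable_const _, ⟨0, one_ne_zero⟩, fun z => by simp⟩, 0, fun _ => 0,
      differentiableOn_const _, ?_⟩, Meromorphic.const 0, fun r => s1 r + s2 r, hs1.add hs2, ?_⟩
    · filter_upwards [hz0] with z e1
      rw [e1, mul_zero]
    · filter_upwards [hc1, hc2, hcmp.ge] with r e1 e2 e3
      rw [char_const]
      have h1 := char_nonneg H1 e3
      have h2 := char_nonneg H2 e3
      have h3 : log⁺ ‖(0 : ℂ)‖ = 0 := by simp
      rw [h3]
      linarith

end Pool.Agent.N254.SQ
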