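import Pool.Agent.N254.SQ.StmP

/-!
Project SQ, leaf LEPALG (helper27): products, inverses and powers of functions near infinity.
-/

set_option autoImplicit false

namespace Pool.Agent.N254.SQ

open MvPolynomial Filter Topology Asymptotics ValueDistribution Metric
open Pool.Agent.N131.SR (Big NZ)
open Pool.Agent.W603.BP (Ext)

theorem lepalg_sub {a a' : ℝ} (h : a ≤ a') : Ext a' ⊆ Ext a := fun _ hz => lt_of_le_of_lt h hz

theorem lepalg_mono {a a' : ℝ} (h : a ≤ a') {p : ℂ → Prop}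
    (hp : ∀ᶠ z in codiscreteWithin (Ext a), p z) : ∀ᶠ z in codiscreteWithin (Ext a'), p z :=
  (codiscreteWithin_mono (lepalg_sub h)) hp

theorem lepalg_ne {a : ℝ} (ha : 1 ≤ a) : ∀ᶠ z in codiscreteWithin (Ext a), z ≠ 0 := by
  filter_upwards [self_mem_codiscreteWithin (Ext a)] with z hz
  rintro rfl
  have h : a < ‖(0 : ℂ)‖ := hz
  rw [norm_zero] at h
  linarith

theorem lepalg_rp_mono {a a' : ℝ} {h H : ℂ → ℂ} (ha : 1 ≤ a) (haa : a ≤ a') (hR : Rp a h H) :
    Rp a' h H := by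
  obtain ⟨hQ, k, q, hq, hh⟩ := hR
  refine ⟨hQ, k, q, hq.mono ?_, lepalg_mono haa hh⟩
  apply ball_subset_ball
  exact inv_anti₀ (by linarith) haa

theorem lepalg_qe_mero {H : ℂ → ℂ} (hQ : QE H) : Meromorphic H := by
  obtain ⟨A, B, hA, hB, -, hAB⟩ := hQ
  have e : H = fun z => A z / B z := funext hAB
  rw [e]
  exact (diff_mero hA).div (diff_mero hB)

theorem lepalg_qe_mul {H H' : ℂ → ℂ} (hQ : QE H) (hQ' : QE H') : QE fun z => H z * H' z := by
  obtain ⟨A, B, hA, hB, hB0, hAB⟩ := hQ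
  obtain ⟨A', B', hA', hB', hB0', hAB'⟩ := hQ'
  refine ⟨fun z => A z * A' z, fun z => B z * B' z, hA.mul hA', hB.mul hB', ?_, fun z => ?_⟩
  · obtain ⟨z, hz⟩ := ((diff_ne hB hB0).and (diff_ne hB' hB0')).exists
    exact ⟨z, mul_ne_zero hz.1 hz.2⟩
  · change H z * H' z = (A z * A' z) / (B z * B' z)
    rw [hAB, hAB', div_mul_div_comm]

theorem lepalg_qe_inv {H : ℂ → ℂ} (hQ : QE H) : QE fun z => (H z)⁻¹ := by
  obtain ⟨A, B, hA, hB, hB0, hAB⟩ := hQ
  by_cases hA0 : ∃ z, A z ≠ 0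
  · refine ⟨B, A, hB, hA, hA0, fun z => ?_⟩
    change (H z)⁻¹ = _
    rw [hAB, inv_div]
  · push Not at hA0
    refine ⟨fun _ => 0, fun _ => 1, differentiable_const 0, differentiable_const 1,
      ⟨0, one_ne_zero⟩, fun z => ?_⟩
    change (H z)⁻¹ = 0 / 1
    rw [hAB, hA0]
    simp

theorem lepalg_qe_const (c : ℂ) : QE fun _ => c :=
  ⟨fun _ => c, fun _ => 1, differentiable_const c, differentiable_const 1, ⟨0, one_ne_zero⟩,
    fun _ => (div_one c).symm⟩

theorem lepalg_rp_const (a : ℝ) (c : ℂ) : Rp a (fun _ => c) fun _ => c :=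
  ⟨lepalg_qe_const c, 0, fun _ => 0, differentiableOn_const 0, Eventually.of_forall fun z => by
    simp⟩

theorem lepalg_rp_mul {a : ℝ} {h h' H H' : ℂ → ℂ} (ha : 1 ≤ a) (hR : Rp a h H)
    (hR' : Rp a h' H') : Rp a (fun z => h z * h' z) fun z => H z * H' z := by
  obtain ⟨hQ, k, q, hq, hh⟩ := hR
  obtain ⟨hQ', k', q', hq', hh'⟩ := hR'
  refine ⟨lepalg_qe_mul hQ hQ', k + k', fun z => q z + q' z, hq.add hq', ?_⟩
  filter_upwards [hh, hh', lepalg_ne ha] with z h1 h2 h3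
  rw [h1, h2, zpow_add₀ h3, Complex.exp_add]
  ring

theorem lepalg_rp_inv {a : ℝ} {h H : ℂ → ℂ} (_ha : 1 ≤ a) (hR : Rp a h H) :
    Rp a (fun z => (h z)⁻¹) fun z => (H z)⁻¹ := by
  obtain ⟨hQ, k, q, hq, hh⟩ := hR
  refine ⟨lepalg_qe_inv hQ, -k, fun z => -q z, hq.neg, ?_⟩
  filter_upwards [hh] with z h1
  rw [h1, mul_inv, mul_inv, zpow_neg, Complex.exp_neg]

theorem lepalg_rp_pow {a : ℝ} {h H : ℂ → ℂ} (ha : 1 ≤ a) (hR : Rp a h H) (D : ℕ) :
    Rp a (fun z => h z ^ D) fun z => H z ^ D := by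
  induction D with
  | zero =>
    simp only [pow_zero]
    exact lepalg_rp_const a 1
  | succ D ih =>
    simp only [pow_succ]
    exact lepalg_rp_mul ha ih hR

theorem lepalg_congr (L : Filter ℝ) (τ : ℝ → ℝ) (C a : ℝ) (h h' : ℂ → ℂ)
    (hh : ∀ᶠ z in codiscreteWithin (Ext a), h' z = h z) (hL : LeP L τ C h) : LeP L τ C h' := by
  obtain ⟨a₁, ha₁, H, hR, hLe⟩ := hL
  refine ⟨max a a₁, ha₁.trans (le_max_right _ _), H, ?_, hLe⟩
  obtain ⟨hQ, k, q, hq, h1⟩ := lepalg_rp_mono ha₁ (le_max_right a a₁) hR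
  refine ⟨hQ, k, q, hq, ?_⟩
  filter_upwards [h1, lepalg_mono (le_max_left a a₁) hh] with z e1 e2
  rw [e2, e1]

theorem t_lepalg (h : Uniq_stm) : LePAlg where
  mono_rp := fun a a' h H ha haa hR => lepalg_rp_mono ha haa hR
  rp_mul := fun a h h' H H' ha hR hR' => lepalg_rp_mul ha hR hR'
  rp_inv := fun a h H ha hR => lepalg_rp_inv ha hR
  const := by
    intro L τ hC c
    refine ⟨1, le_rfl, fun _ => c, lepalg_rp_const 1 c, Meromorphic.const c,
      fun _ => Real.posLog ‖c‖, hC.const _, Eventually.of_forall fun r => ?_⟩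
    rw [char_const]
    simp
  mono := by
    intro L τ _ hτ C C' h hCC hL
    obtain ⟨a, ha, H, hR, hm, s, hs, hle⟩ := hL
    refine ⟨a, ha, H, hR, hm, s, hs, ?_⟩
    filter_upwards [hτ, hle] with r h1 h2
    have := mul_le_mul_of_nonneg_right hCC h1
    linarith
  congr := lepalg_congr
  mul := by
    intro L τ hC C C' h h' hL hL'
    obtain ⟨a, ha, H, hR, hm, s, hs, hle⟩ := hL
    obtain ⟨a', ha', H', hR', hm', s', hs', hle'⟩ := hL'
    have hmax : 1 ≤ max a a' := ha.trans (le_max_left _ _)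
    refine ⟨max a a', hmax, fun z => H z * H' z,
      lepalg_rp_mul hmax (lepalg_rp_mono ha (le_max_left _ _) hR)
        (lepalg_rp_mono ha' (le_max_right _ _) hR'), hm.mul hm', fun r => s r + s' r,
      hs.add hs', ?_⟩
    filter_upwards [hC.ge, hle, hle'] with r h1 h2 h3
    have := char_mul hm hm' h1
    linarith
  inv := by
    intro L τ hC C h hL
    obtain ⟨a, ha, H, hR, hm, s, hs, hle⟩ := hL
    obtain ⟨K, hK⟩ := char_inv hm
    refine ⟨a, ha, fun z => (H z)⁻¹, lepalg_rp_inv ha hR, hm.inv, fun r => s r + K,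
      hs.add (hC.const K), ?_⟩
    filter_upwards [hle] with r h2
    have := hK r
    linarith
  pow := by
    intro L τ hC C D hD f a H ha hR hL
    obtain ⟨a₂, ha₂, H₂, hR₂, hm₂, s, hs, hle⟩ := hL
    have hmax : 1 ≤ max a a₂ := ha.trans (le_max_left _ _)
    have hm : Meromorphic H := lepalg_qe_mero hR.1
    obtain ⟨K, hK⟩ := h (max a a₂) (fun z => f z ^ D) H₂ (fun z => H z ^ D) hmax
      (lepalg_rp_mono ha₂ (le_max_right _ _) hR₂)
      (lepalg_rp_pow hmax (lepalg_rp_mono ha (le_max_left _ _) hR) D)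
    have hD0 : (0 : ℝ) < D := by exact_mod_cast hD
    refine ⟨a, ha, H, hR, hm, fun r => (D : ℝ)⁻¹ * (s r + K * (1 + Real.log r)), ?_, ?_⟩
    · exact (hs.add ((hC.one.add hC.log).const_mul_left K)).const_mul_left _
    · filter_upwards [hC.ge, hle] with r h1 h2
      have h3 := hK r h1
      have h4 : characteristic (fun z => H z ^ D) ⊤ r = D * characteristic H ⊤ r := by
        have h5 := characteristic_pow_top (n := D) hm
        have h6 : (fun z => H z ^ D) = H ^ D := rfl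
        rw [h6, h5]
        simp
      rw [h4] at h3
      have h7 : characteristic H ⊤ r ≤ (D : ℝ)⁻¹ * (C * τ r + s r + K * (1 + Real.log r)) := by
        rw [le_inv_mul_iff₀ hD0]
        linarith
      refine h7.trans (le_of_eq ?_)
      rw [div_eq_inv_mul]
      ring

end Pool.Agent.N254.SQ
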