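import Pool.Agent.N254.SQ.StmP

/-!
Project SQ, leaf LEPDER: derivatives of functions with a representation near infinity.
-/

set_option autoImplicit false
set_option linter.all false

namespace Pool.Agent.N254.SQ

open Filter Topology Asymptotics ValueDistribution Metric
open Pool.Agent.N131.SR (Big NZ)
open Pool.Agent.W603.BP (Ext)

theorem LePDer_open (a : ℝ) : IsOpen (Ext a) :=
  isOpen_lt continuous_const continuous_norm

theorem LePDer_cod {a : ℝ} {p : ℂ → Prop} (h : ∀ᶠ z in codiscreteWithin (Ext a), p z) {x : ℂ}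
    (hx : x ∈ Ext a) : ∀ᶠ z in 𝓝[≠] x, p z := by
  have h1 := (mem_codiscreteWithin.1 h) x hx
  rw [disjoint_principal_right] at h1
  filter_upwards [h1, nhdsWithin_le_nhds ((LePDer_open a).mem_nhds hx)] with z h2 h3
  by_contra h4
  exact h2 ⟨h3, h4⟩

theorem LePDer_cod' {a : ℝ} {p : ℂ → Prop} (h : ∀ x ∈ Ext a, ∀ᶠ z in 𝓝[≠] x, p z) :
    ∀ᶠ z in codiscreteWithin (Ext a), p z := by
  refine mem_codiscreteWithin.2 fun x hx => ?_
  rw [disjoint_principal_right]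
  filter_upwards [h x hx] with z hz h2
  exact h2.2 hz

theorem LePDer_ball {a : ℝ} (ha : 1 ≤ a) {z : ℂ} (hz : z ∈ Ext a) :
    z ≠ 0 ∧ z⁻¹ ∈ ball (0 : ℂ) a⁻¹ := by
  have h1 : a < ‖z‖ := hz
  have h0 : 0 < ‖z‖ := by linarith
  refine ⟨norm_pos_iff.1 h0, ?_⟩
  rw [mem_ball_zero_iff, norm_inv]
  exact inv_strictAnti₀ (by linarith) h1

/-- the logarithmic derivative of the factor -/
noncomputable def LePDer_phi (k : ℤ) (q : ℂ → ℂ) (z : ℂ) : ℂ := k / z - deriv q z⁻¹ / z ^ 2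

theorem LePDer_u {a : ℝ} (ha : 1 ≤ a) (k : ℤ) {q : ℂ → ℂ}
    (hq : DifferentiableOn ℂ q (ball 0 a⁻¹)) {z : ℂ} (hz : z ∈ Ext a) :
    HasDerivAt (fun z => z ^ k * Complex.exp (q z⁻¹))
      (LePDer_phi k q z * (z ^ k * Complex.exp (q z⁻¹))) z := by
  obtain ⟨h0, hb⟩ := LePDer_ball ha hz
  have h1 : HasDerivAt q (deriv q z⁻¹) z⁻¹ :=
    (hq.differentiableAt (isOpen_ball.mem_nhds hb)).hasDerivAt
  have h2 : HasDerivAt (fun z : ℂ => z⁻¹) (-(z ^ 2)⁻¹) z := hasDerivAt_inv h0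
  have h3 : HasDerivAt (fun z : ℂ => q z⁻¹) (deriv q z⁻¹ * (-(z ^ 2)⁻¹)) z :=
    HasDerivAt.comp z h1 h2
  have h4 := h3.cexp
  have h5 : HasDerivAt (fun z : ℂ => z ^ k) (k * z ^ (k - 1)) z := hasDerivAt_zpow k z (Or.inl h0)
  have h6 := h5.mul h4
  refine h6.congr_deriv ?_
  unfold LePDer_phi
  rw [zpow_sub_one₀ h0]
  field_simp
  ring

theorem LePDer_phi_le {a : ℝ} (ha : 1 ≤ a) (k : ℤ) {q : ℂ → ℂ}
    (hq : DifferentiableOn ℂ q (ball 0 a⁻¹)) (h3 : Moder_stm) {L : Filter ℝ} {τ : ℝ → ℝ}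
    (H : Cmp L τ) : LeP L τ 0 (LePDer_phi k q) := by
  have hA : AnalyticOnNhd ℂ q (ball 0 a⁻¹) := hq.analyticOnNhd isOpen_ball
  have hD : AnalyticOnNhd ℂ (deriv q) (ball 0 a⁻¹) := hA.deriv
  have hlt : (a + 1)⁻¹ < a⁻¹ := inv_strictAnti₀ (by linarith) (by linarith)
  have hsub : closedBall (0 : ℂ) (a + 1)⁻¹ ⊆ ball 0 a⁻¹ := closedBall_subset_ball hlt
  obtain ⟨M, hM⟩ := (isCompact_closedBall (0 : ℂ) (a + 1)⁻¹).exists_bound_of_continuousOn
    (hD.continuousOn.mono hsub)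
  refine h3 L τ H (a + 1) (|(k : ℝ)| + |M|) 0 _ (by linarith) ?_ ?_
  · intro z hz
    have hz' : z ∈ Ext a := lt_trans (show a < a + 1 by linarith) hz
    obtain ⟨h0, hb⟩ := LePDer_ball ha hz'
    have e1 : AnalyticAt ℂ (fun z : ℂ => z⁻¹) z := analyticAt_inv h0
    have e2 : AnalyticAt ℂ (fun z : ℂ => deriv q z⁻¹) z := (hD _ hb).comp e1
    have e3 : AnalyticAt ℂ (fun z : ℂ => (k : ℂ) / z) z :=
      AnalyticAt.div analyticAt_const analyticAt_id h0
    exact e3.sub (e2.div (analyticAt_id.pow 2) (pow_ne_zero 2 h0))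
  · intro z hz
    have hz1 : a + 1 < ‖z‖ := hz
    have hz2 : 1 ≤ ‖z‖ := by linarith
    have hb : z⁻¹ ∈ closedBall (0 : ℂ) (a + 1)⁻¹ := by
      rw [mem_closedBall_zero_iff, norm_inv]
      exact inv_anti₀ (by linarith) hz1.le
    have hm := hM _ hb
    rw [pow_zero, mul_one]
    unfold LePDer_phi
    refine (norm_sub_le _ _).trans (add_le_add ?_ ?_)
    · rw [norm_div, Complex.norm_intCast]
      exact div_le_self (abs_nonneg _) hz2
    · rw [norm_div, norm_pow]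
      refine (div_le_self (norm_nonneg _) (one_le_pow₀ hz2)).trans (hm.trans (le_abs_self M))

theorem LePDer_le {L : Filter ℝ} {τ : ℝ → ℝ} (H : Cmp L τ) {C : ℝ} {F F' : ℂ → ℂ}
    (hF : Le L τ C F) (h' : Meromorphic F') (he : ∀ᶠ z in codiscrete ℂ, F' z = deriv F z) :
    Le L τ (2 * C) F' := by
  obtain ⟨hm, s, hs, hb⟩ := hF
  have hot : OT L τ F := by
    refine ⟨hm, O_of_ev (t := fun r => C * τ r + s r) ?_ ?_⟩
    · filter_upwards [hb, H.ge] with r h1 h2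
      exact ⟨char_nonneg F h2, h1⟩
    · exact ((isBigO_refl τ L).const_mul_left C).add hs.isBigO
  have hld := ld_o H hot
  refine ⟨h', fun r => 2 * s r + proximity (logDeriv F) ⊤ r,
    (hs.const_mul_left 2).add hld, ?_⟩
  filter_upwards [hb, H.ge] with r h1 h2
  rw [char_le_of_congr he h2]
  have h3 := char_deriv hm h2
  linarith

theorem t_lepder (h1 : LePAlg) (h2 : LePAdd_stm) (h3 : Moder_stm) : LePDer_stm := by
  intro L τ H hτ C h hh
  obtain ⟨a, ha, F, ⟨⟨A, B, hA, hB, hB0, hF⟩, k, q, hq, he⟩, hLe⟩ := id hh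
  have hBne : ∀ᶠ z in codiscrete ℂ, B z ≠ 0 := diff_ne hB hB0
  -- the derivative of the quotient
  set F' : ℂ → ℂ := fun z => (deriv A z * B z - A z * deriv B z) / (B z ^ 2) with hF'
  have hFe : F = fun z => A z / B z := funext hF
  have hdF : ∀ z, B z ≠ 0 → HasDerivAt F (F' z) z := by
    intro z hz
    rw [hFe]
    exact (hA z).hasDerivAt.div (hB z).hasDerivAt hz
  have hdd : ∀ᶠ z in codiscrete ℂ, F' z = deriv F z := by
    filter_upwards [hBne] with z hz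
    exact (hdF z hz).deriv.symm
  have hdA : Differentiable ℂ (deriv A) := fun z => (hA.analyticAt z).deriv.differentiableAt
  have hdB : Differentiable ℂ (deriv B) := fun z => (hB.analyticAt z).deriv.differentiableAt
  have hN : Differentiable ℂ (fun z => deriv A z * B z - A z * deriv B z) :=
    (hdA.mul hB).sub (hA.mul hdB)
  have hDn : Differentiable ℂ (fun z => B z ^ 2) := hB.pow 2
  have hQ : QE F' := by
    refine ⟨_, _, hN, hDn, ?_, fun z => rfl⟩
    obtain ⟨z, hz⟩ := hB0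
    exact ⟨z, pow_ne_zero 2 hz⟩
  have hM' : Meromorphic F' := (diff_mero hN).div (diff_mero hDn)
  have hLe' : Le L τ (2 * C) F' := LePDer_le H hLe hM' hdd
  -- the two summands
  have p1 : LeP L τ (0 + C) (fun z => LePDer_phi k q z * h z) :=
    h1.mul L τ H 0 C _ _ (LePDer_phi_le ha k hq h3 H) hh
  have p2 : LeP L τ (2 * C) (fun z => z ^ k * Complex.exp (q z⁻¹) * deriv F z) := by
    refine ⟨a, ha, F', ⟨hQ, k, q, hq, ?_⟩, hLe'⟩
    refine LePDer_cod' fun x hx => ?_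
    filter_upwards [codis_ev hdd x] with z hz
    rw [hz]
  have p3 := h2 L τ H hτ _ _ _ _ p1 p2
  have e3 : 0 + C + 2 * C = 3 * C := by ring
  rw [e3] at p3
  refine h1.congr L τ (3 * C) a _ (deriv h) (LePDer_cod' fun x hx => ?_) p3
  have q1 := LePDer_cod he hx
  have q2 : h =ᶠ[𝓝[≠] x] fun z => z ^ k * Complex.exp (q z⁻¹) * F z := q1
  filter_upwards [q1, q2.nhdsNE_deriv, codis_ev hBne x,
    nhdsWithin_le_nhds ((LePDer_open a).mem_nhds hx)] with z r1 r2 r3 r4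
  have r5 := (LePDer_u ha k hq r4).mul (hdF z r3)
  have r6 : deriv (fun z => z ^ k * Complex.exp (q z⁻¹) * F z) z =
      LePDer_phi k q z * (z ^ k * Complex.exp (q z⁻¹)) * F z +
        z ^ k * Complex.exp (q z⁻¹) * F' z := r5.deriv
  rw [r2, r6, r1, (hdF z r3).deriv]
  ring

end Pool.Agent.N254.SQ
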