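import Pool.Agent.N254.SQ.StmP

/-!
Project SQ (helper254), leaf LEPDET: characteristics of determinants of logarithmic derivatives
near infinity.
-/

set_option autoImplicit false

namespace Pool.Agent.N254.SQ

open Filter Topology Asymptotics ValueDistribution

namespace LePDet

variable {L : Filter ℝ} {τ : ℝ → ℝ}

theorem sum_ (h1 : LePAlg) (h2 : LePAdd_stm) (H : Cmp L τ) (H0 : ∀ᶠ r in L, 0 ≤ τ r)
    {ι : Type*} (S : Finset ι) (C : ι → ℝ) (a : ι → ℂ → ℂ) (h : ∀ i ∈ S, LeP L τ (C i) (a i)) :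
    LeP L τ (∑ i ∈ S, C i) fun z => ∑ i ∈ S, a i z := by
  classical
  induction S using Finset.induction_on with
  | empty =>
    simp only [Finset.sum_empty]
    exact h1.const L τ H 0
  | insert i S hi ih =>
    simp only [Finset.sum_insert hi]
    exact h2 L τ H H0 _ _ _ _ (h i (Finset.mem_insert_self i S))
      (ih fun j hj => h j (Finset.mem_insert_of_mem hj))

theorem prod_ (h1 : LePAlg) (H : Cmp L τ) {ι : Type*} (S : Finset ι) (C : ι → ℝ)
    (a : ι → ℂ → ℂ) (h : ∀ i ∈ S, LeP L τ (C i) (a i)) :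
    LeP L τ (∑ i ∈ S, C i) fun z => ∏ i ∈ S, a i z := by
  classical
  induction S using Finset.induction_on with
  | empty =>
    simp only [Finset.sum_empty, Finset.prod_empty]
    exact h1.const L τ H 1
  | insert i S hi ih =>
    simp only [Finset.sum_insert hi, Finset.prod_insert hi]
    exact h1.mul L τ H _ _ _ _ (h i (Finset.mem_insert_self i S))
      (ih fun j hj => h j (Finset.mem_insert_of_mem hj))

/-- the constants -/
noncomputable def cst : ℕ → ℝ
  | 0 => 0
  | k + 1 => 4 * cst k + 1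

theorem cst_nonneg (k : ℕ) : 0 ≤ cst k := by
  induction k with
  | zero => exact le_rfl
  | succ k ih =>
    have : cst (k + 1) = 4 * cst k + 1 := rfl
    linarith

theorem pp_ (h1 : LePAlg) (h2 : LePAdd_stm) (h3 : LePDer_stm) (H : Cmp L τ)
    (H0 : ∀ᶠ r in L, 0 ≤ τ r) {κ : ℝ} {φ : ℂ → ℂ} (h : LeP L τ κ φ) (k : ℕ) :
    LeP L τ (cst k * κ) (pp φ k) := by
  induction k with
  | zero =>
    have e : cst 0 * κ = 0 := by
      change (0 : ℝ) * κ = 0
      exact zero_mul κ
    rw [e]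
    exact h1.const L τ H 1
  | succ k ih =>
    have e : cst (k + 1) * κ = 3 * (cst k * κ) + (κ + cst k * κ) := by
      change (4 * cst k + 1) * κ = _
      ring
    rw [e]
    exact h2 L τ H H0 _ _ _ _ (h3 L τ H H0 _ _ ih) (h1.mul L τ H _ _ _ _ h ih)

end LePDet

open LePDet in
theorem t_lepdet (h1 : LePAlg) (h2 : LePAdd_stm) (h3 : LePDer_stm) : LePDet_stm := by
  intro m
  refine ⟨∑ _σ : Equiv.Perm (Fin m), (0 + ∑ i : Fin m, cst i), ?_, ?_⟩
  · exact Finset.sum_nonneg fun σ _ => add_nonneg le_rfl (Finset.sum_nonneg fun i _ => cst_nonneg i)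
  intro L τ H H0 κ _ φ hφ
  have key : LeP L τ (∑ _σ : Equiv.Perm (Fin m), (0 + ∑ i : Fin m, cst i * κ)) fun z =>
      ∑ σ : Equiv.Perm (Fin m), ((Equiv.Perm.sign σ : ℤ) : ℂ) * ∏ i, pp (φ (σ i)) i z := by
    apply sum_ h1 h2 H H0
    intro σ _
    apply h1.mul L τ H _ _ _ _ (h1.const L τ H _)
    apply prod_ h1 H
    intro i _
    exact pp_ h1 h2 h3 H H0 (hφ (σ i)) i
  have e1 : (∑ _σ : Equiv.Perm (Fin m), (0 + ∑ i : Fin m, cst i)) * κ =
      ∑ _σ : Equiv.Perm (Fin m), (0 + ∑ i : Fin m, cst i * κ) := by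
    rw [Finset.sum_mul]
    apply Finset.sum_congr rfl
    intro σ _
    rw [zero_add, zero_add, Finset.sum_mul]
  rw [e1]
  have e2 : (fun z => (Matrix.of fun i k : Fin m => pp (φ i) k z).det) = fun z =>
      ∑ σ : Equiv.Perm (Fin m), ((Equiv.Perm.sign σ : ℤ) : ℂ) * ∏ i, pp (φ (σ i)) i z := by
    funext z
    rw [Matrix.det_apply']
    rfl
  rw [e2]
  exact key

end Pool.Agent.N254.SQ
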