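import Pool.Agent.N254.SQ.StmP
import Pool.Agent.W603.BP.Tame

/-!
Project SQ, third part: functions of moderate growth without poles (helper773).
-/

set_option autoImplicit false

namespace Pool.Agent.N254.SQ

open MeasureTheory Set Filter Topology Asymptotics ValueDistribution Metric
open Pool.Agent.N131.SR (Big NZ)
open Pool.Agent.W603.BP (Ext)

theorem moder_ev {a : ℝ} {p : ℂ → Prop} (h : ∀ z ∈ Ext a, p z) :
    ∀ᶠ z in codiscreteWithin (Ext a), p z := by
  filter_upwards [self_mem_codiscreteWithin (Ext a)] with z hz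
  exact h z hz

theorem moder_mero {G : ℂ → ℂ} (hG : Differentiable ℂ G) : Meromorphic G :=
  fun z => (hG.analyticAt z).meromorphicAt

theorem moder_char {G : ℂ → ℂ} (hG : Differentiable ℂ G) {B r : ℝ} (hr : 0 < r) (hB : 1 ≤ B)
    (h : ∀ z : ℂ, ‖z‖ = r → ‖G z‖ ≤ B) : characteristic G ⊤ r ≤ Real.log B := by
  have hm := moder_mero hG
  have h2 : ValueDistribution.logCounting G ⊤ = 0 := by
    rw [logCounting_top]
    have : (MeromorphicOn.divisor G univ)⁻ = 0 := by
      rw [negPart_eq_zero]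
      intro z
      rw [MeromorphicOn.divisor_apply hm.meromorphicOn (mem_univ z)]
      have h1 := (hG.analyticAt z).meromorphicOrderAt_nonneg
      rcases eq_or_ne (meromorphicOrderAt G z) ⊤ with h6 | h6
      · rw [h6]; simp
      · lift meromorphicOrderAt G z to ℤ using h6 with n
        rw [WithTop.untop₀_coe]
        exact_mod_cast h1
    rw [this, map_zero]
  show (proximity G ⊤ + ValueDistribution.logCounting G ⊤) r ≤ _
  rw [h2, add_zero, proximity_top]
  apply Real.circleAverage_mono_on_of_le_circle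
  · exact MeromorphicOn.circleIntegrable_posLog_norm hm.meromorphicOn
  · intro z hz
    rw [abs_of_pos hr, mem_sphere, dist_zero_right] at hz
    have h3 := h z hz
    have h4 : Real.posLog ‖G z‖ ≤ Real.posLog B := Real.posLog_le_posLog (norm_nonneg _) h3
    refine h4.trans ?_
    rw [Real.posLog, max_eq_right (Real.log_nonneg hB)]

theorem t_moder : Moder_stm := by
  intro L τ hC a C κ h ha1 han hbd
  have ha0 : 0 < a := by linarith
  by_cases hne : ∃ z ∈ Ext a, h z ≠ 0
  · obtain ⟨r1, r2, h1, h2, h3⟩ := Pool.Agent.W603.BP.annulus ha0 han hne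
    set a' : ℝ := (r1 + r2) / 2 with ha'
    have ha'1 : 1 ≤ a' := by rw [ha']; linarith
    obtain ⟨k, q, G, hq, hG, -, hGe⟩ := Pool.Agent.W603.BP.birkhoff (F := h) (r0 := r1) (r1 := r2)
      (a := a') (by linarith) (by rw [ha']; linarith) (by rw [ha']; linarith)
      (fun z hz => (han z (show a < ‖z‖ from h1.trans hz)).differentiableAt.differentiableWithinAt)
      h3
    obtain ⟨C1, hC1, κ1, hun⟩ := (Pool.Agent.W603.BP.tame_of ha'1 k hq).bd
    refine ⟨a', ha'1, G, ⟨⟨G, fun _ => 1, hG, differentiable_const _, ⟨0, one_ne_zero⟩,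
      fun z => (div_one _).symm⟩, k, q, hq, moder_ev fun z hz => hGe z hz⟩, moder_mero hG, ?_⟩
    set C2 : ℝ := C1 * max C 1 with hC2
    have hC21 : 1 ≤ C2 := one_le_mul_of_one_le_of_one_le hC1 (le_max_right _ _)
    have hGb : ∀ z : ℂ, a' + 1 ≤ ‖z‖ → ‖G z‖ ≤ C2 * ‖z‖ ^ (κ1 + κ) := by
      intro z hz
      have hz1 : (0 : ℝ) ≤ ‖z‖ := norm_nonneg z
      have h4 := (hun z hz).2
      have h5 : h z = z ^ k * Complex.exp (q z⁻¹) * G z := hGe z (show a' < ‖z‖ by linarith)
      have h6 := hbd z (show a < ‖z‖ by rw [ha'] at hz; linarith)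
      have h7 : ‖h z‖ ≤ max C 1 * ‖z‖ ^ κ :=
        h6.trans (mul_le_mul_of_nonneg_right (le_max_left _ _) (by positivity))
      calc ‖G z‖ = 1 * ‖G z‖ := (one_mul _).symm
        _ ≤ (C1 * ‖z‖ ^ κ1 * ‖z ^ k * Complex.exp (q z⁻¹)‖) * ‖G z‖ :=
            mul_le_mul_of_nonneg_right h4 (norm_nonneg _)
        _ = C1 * ‖z‖ ^ κ1 * ‖h z‖ := by rw [h5, norm_mul (z ^ k * Complex.exp (q z⁻¹)) (G z)]; ring
        _ ≤ C1 * ‖z‖ ^ κ1 * (max C 1 * ‖z‖ ^ κ) :=
            mul_le_mul_of_nonneg_left h7 (by positivity)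
        _ = C2 * ‖z‖ ^ (κ1 + κ) := by rw [hC2, pow_add]; ring
    refine ⟨fun r => Real.log C2 + ((κ1 + κ : ℕ) : ℝ) * Real.log r,
      (hC.const _).add (hC.log.const_mul_left _), ?_⟩
    filter_upwards [hC.big.top (eventually_ge_atTop (a' + 1))] with r hr
    have hr' : a' + 1 ≤ r := hr
    have hr0 : 0 < r := by linarith
    have hr1 : 1 ≤ r := by linarith
    rw [zero_mul, zero_add]
    refine (moder_char hG hr0 (B := C2 * r ^ (κ1 + κ))
      (one_le_mul_of_one_le_of_one_le hC21 (one_le_pow₀ hr1)) fun z hz => ?_).trans (le_of_eq ?_)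
    · have := hGb z (by rw [hz]; exact hr')
      rwa [hz] at this
    · rw [Real.log_mul (by linarith) (by positivity), Real.log_pow]
  · push Not at hne
    refine ⟨a, ha1, fun _ => 0, ⟨⟨fun _ => 0, fun _ => 1, differentiable_const _,
      differentiable_const _, ⟨0, one_ne_zero⟩, fun z => (zero_div _).symm⟩, 0, fun _ => 0,
      differentiableOn_const _, moder_ev fun z hz => ?_⟩, ?_, ?_⟩
    · rw [hne z hz, mul_zero]
    · exact moder_mero (differentiable_const _)
    · refine ⟨fun _ => 0, isLittleO_zero _ _, ?_⟩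
      filter_upwards [hC.ge] with r hr
      rw [char_zero (Eventually.of_forall fun _ => rfl) (by linarith)]
      simp

end Pool.Agent.N254.SQ
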