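import Pool.Agent.N254.SQ.StmP
import Pool.Agent.W603.BP.Rat

/-!
Project SQ (helper254), leaf RATP: functions with a representation of logarithmic growth are
meromorphic at infinity. Proof: helper946, after `rational_quot` in `Pool/Agent/W603/BP/Rat.lean`.
-/

set_option autoImplicit false

namespace Pool.Agent.N254.SQ

open Filter Metric Set Topology Pool.Agent.H159R3.NV ValueDistribution MeromorphicOn
open Pool.Agent.W603.BP

/-- the mean of `|log ‖f‖|` is bounded by twice the characteristic -/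
theorem RatP_avg {f : ℂ → ℂ} (hf : Meromorphic f) {r : ℝ} (hr : 1 ≤ r) :
    Real.circleAverage (fun z => |Real.log ‖f z‖|) 0 r ≤
      characteristic f ⊤ r + characteristic f⁻¹ ⊤ r := by
  have e : (fun z => |Real.log ‖f z‖|) = fun z => Real.posLog ‖f z‖ + Real.posLog ‖f⁻¹ z‖ := by
    funext z
    rw [Pi.inv_apply, norm_inv, Real.posLog_apply, Real.posLog_apply, Real.log_inv]
    rcases le_total 0 (Real.log ‖f z‖) with h | h
    · rw [abs_of_nonneg h, max_eq_right h, max_eq_left (by linarith), add_zero]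
    · rw [abs_of_nonpos h, max_eq_left h, max_eq_right (by linarith), zero_add]
  have hf' : Meromorphic f⁻¹ := fun z => (hf z).inv
  rw [e, Real.circleAverage_fun_add (ci_posLog hf r) (ci_posLog hf' r)]
  have h1 : Real.circleAverage (fun z => Real.posLog ‖f z‖) 0 r = proximity f ⊤ r := by
    rw [proximity_top]
  have h2 : Real.circleAverage (fun z => Real.posLog ‖f⁻¹ z‖) 0 r = proximity f⁻¹ ⊤ r := by
    rw [proximity_top]
  rw [h1, h2]
  unfold characteristic
  have h3 : 0 ≤ logCounting f ⊤ r := logCounting_nonneg hr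
  have h4 : 0 ≤ logCounting f⁻¹ ⊤ r := logCounting_nonneg hr
  simp only [Pi.add_apply]
  linarith

theorem RatP_rational {Φ : ℂ → ℂ} (hΦm : Meromorphic Φ)
    (hord0 : ∀ u : ℂ, meromorphicOrderAt Φ u ≠ ⊤) {C : ℝ}
    (h : ∀ r, 1 ≤ r → characteristic Φ ⊤ r ≤ C * (1 + Real.log r)) :
    ∃ (T : Finset ℂ) (D : ℂ → ℤ) (c : ℂ),
      ∀ᶠ z in codiscrete ℂ, Φ z = (∏ u ∈ T, (z - u) ^ D u) * c := by
  classical
  obtain ⟨M, hM⟩ : ∃ M : ℝ, M = max |Real.log ‖Φ 0‖| |Real.log ‖meromorphicTrailingCoeffAt Φ 0‖| :=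
    ⟨_, rfl⟩
  have hinv : ∀ r, 1 ≤ r → characteristic Φ⁻¹ ⊤ r ≤ (C + M) + C * Real.log r := by
    intro r hr
    have h1 := characteristic_sub_characteristic_inv_le hΦm (R := r)
    rw [← hM] at h1
    have h2 := (abs_le.1 h1).1
    have h3 := h r hr
    linarith
  have h' : ∀ r, 1 ≤ r → characteristic Φ ⊤ r ≤ C + C * Real.log r := by
    intro r hr
    have := h r hr
    linarith
  -- finitely many zeros and poles
  have hpole : logCounting Φ ⊤ =O[atTop] Real.log := by
    apply isBigO_log (A := C) (B := C) (ρ0 := 1) (fun ρ hρ => logCounting_nonneg hρ)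
    intro ρ hρ
    refine le_trans ?_ (h' ρ hρ)
    unfold characteristic
    simp only [Pi.add_apply]
    have : 0 ≤ proximity Φ ⊤ ρ := proximity_nonneg ρ
    linarith
  have hzero : logCounting Φ 0 =O[atTop] Real.log := by
    apply isBigO_log (A := C + M) (B := C) (ρ0 := 1) (fun ρ hρ => logCounting_nonneg hρ)
    intro ρ hρ
    refine le_trans ?_ (hinv ρ hρ)
    unfold characteristic
    simp only [Pi.add_apply]
    have : 0 ≤ proximity Φ⁻¹ ⊤ ρ := proximity_nonneg ρ
    rw [logCounting_inv]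
    linarith
  rw [logCounting_top] at hpole
  rw [logCounting_zero] at hzero
  have f1 := Function.locallyFinsuppWithin.finite_support_of_logCounting_isBigO_log
    (negPart_nonneg _) hpole
  have f2 := Function.locallyFinsuppWithin.finite_support_of_logCounting_isBigO_log
    (posPart_nonneg _) hzero
  have hfin : (divisor Φ univ).support.Finite := by
    apply (f1.union f2).subset
    intro z hz
    by_contra hcon
    rw [mem_union, not_or, Function.notMem_support, Function.notMem_support] at hcon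
    apply hz
    have h1 := posPart_sub_negPart (divisor Φ univ)
    rw [← h1, Function.locallyFinsuppWithin.coe_sub, Pi.sub_apply, hcon.1, hcon.2, sub_zero]
  have hord : ∀ u : (univ : Set ℂ), meromorphicOrderAt Φ u.1 ≠ ⊤ := fun u => hord0 u.1
  obtain ⟨g, hg, hgne, hge⟩ := MeromorphicOn.extract_zeros_poles (fun z _ => hΦm z) hord hfin
  have hgd : Differentiable ℂ g := fun z => (hg z (mem_univ z)).differentiableAt
  have hgne' : ∀ z, g z ≠ 0 := fun z => hgne ⟨z, mem_univ z⟩
  let D : ℂ → ℤ := fun u => divisor Φ univ u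
  set T : Finset ℂ := hfin.toFinset with hT
  have hprod : ∀ z, (∏ᶠ u, (fun w : ℂ => w - u) ^ divisor Φ univ u) z
      = ∏ u ∈ T, (z - u) ^ D u := by
    intro z
    rw [finprod_eq_prod_of_mulSupport_subset (s := T)]
    · simp [D]
    · rw [Function.FactorizedRational.mulSupport]
      intro u hu
      simp only [hT, Finite.coe_toFinset]
      exact hu
  have hge' : ∀ᶠ z in codiscrete ℂ, Φ z = (∏ u ∈ T, (z - u) ^ D u) * g z := by
    filter_upwards [hge] with z hz
    rw [hz, Pi.smul_apply', hprod, smul_eq_mul]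
  have hΦne : ∀ᶠ z in codiscrete ℂ, Φ z ≠ 0 := by
    refine mem_codiscreteWithin_iff_forall_mem_nhdsNE.2 fun x _ => ?_
    filter_upwards [(meromorphicOrderAt_ne_top_iff_eventually_ne_zero (hΦm x)).1 (hord0 x)] with w hw
    exact Or.inl hw
  -- the mean of `|log ‖g‖|`
  set T0 : ℝ := ∑ u ∈ T, ‖u‖ with hT0
  have hTn : ∀ u ∈ T, ‖u‖ ≤ T0 := fun u hu =>
    Finset.single_le_sum (f := fun u => ‖u‖) (fun i _ => norm_nonneg _) hu
  set K : ℝ := ∑ u ∈ T, |(D u : ℝ)| with hK
  have hKn : 0 ≤ K := Finset.sum_nonneg fun _ _ => abs_nonneg _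
  obtain ⟨c, hc, hgc⟩ := const_of_avg hgd hgne' (A := (2 * C + M) + K * (2 * Real.log 2))
    (B := 2 * C + 2 * K) (ρ0 := max 1 T0) (by
    intro ρ hρ
    have hρ1 : 1 ≤ ρ := (le_max_left _ _).trans hρ
    have hρ0 : ρ ≠ 0 := by linarith
    have i0 := ci_abs (ci_log (mero_of_diff hgd) ρ)
    have i1 := ci_abs (ci_log hΦm ρ)
    have i2 : ∀ u ∈ T, CircleIntegrable (fun z => |Real.log ‖(z - u) ^ D u‖|) 0 ρ := by
      intro u _
      apply ci_abs
      apply ci_log
      intro z
      exact ((mero_of_diff (differentiable_id.sub_const u)) z).zpow (D u)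
    have i3 : CircleIntegrable (fun z => ∑ u ∈ T, |Real.log ‖(z - u) ^ D u‖|) 0 ρ :=
      CircleIntegrable.fun_sum _ i2
    have h1 : Real.circleAverage (fun z => |Real.log ‖g z‖|) 0 ρ
        ≤ Real.circleAverage (fun z => |Real.log ‖Φ z‖|
          + ∑ u ∈ T, |Real.log ‖(z - u) ^ D u‖|) 0 ρ := by
      apply avg_le_cod i0 (i1.add i3) hρ0
      have hcs : ∀ {P : ℂ → Prop}, (∀ᶠ z in codiscrete ℂ, P z) →
          ∀ᶠ z in codiscreteWithin (sphere (0 : ℂ) |ρ|), P z := fun hP =>
        (codiscreteWithin_mono (subset_univ _)) hP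
      filter_upwards [hcs hge', hcs hΦne] with z hz1 a2
      rw [Pi.add_apply]
      have a3 : ∏ u ∈ T, (z - u) ^ D u ≠ 0 := by
        intro h0
        rw [hz1, h0, zero_mul] at a2
        exact a2 rfl
      have a4 : Real.log ‖g z‖ = Real.log ‖Φ z‖ - ∑ u ∈ T, Real.log ‖(z - u) ^ D u‖ := by
        rw [hz1, norm_mul, Real.log_mul (norm_ne_zero_iff.mpr a3)
          (norm_ne_zero_iff.mpr (hgne' z)), norm_prod, Real.log_prod]
        · ring
        · intro u hu
          exact norm_ne_zero_iff.mpr (Finset.prod_ne_zero_iff.mp a3 u hu)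
      rw [a4]
      refine (abs_sub _ _).trans ?_
      gcongr
      exact Finset.abs_sum_le_sum_abs _ _
    have e2 : Real.circleAverage (fun z => |Real.log ‖Φ z‖|
          + ∑ u ∈ T, |Real.log ‖(z - u) ^ D u‖|) 0 ρ
        = Real.circleAverage (fun z => |Real.log ‖Φ z‖|) 0 ρ
          + ∑ u ∈ T, Real.circleAverage (fun z => |Real.log ‖(z - u) ^ D u‖|) 0 ρ := by
      rw [Real.circleAverage_fun_add i1 i3, Real.circleAverage_fun_sum i2]
    have h2 : ∑ u ∈ T, Real.circleAverage (fun z => |Real.log ‖(z - u) ^ D u‖|) 0 ρ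
        ≤ K * (2 * Real.log (2 * ρ)) := by
      rw [hK, Finset.sum_mul]
      apply Finset.sum_le_sum
      intro u hu
      exact avg_abs_lin' hρ1 ((hTn u hu).trans ((le_max_right _ _).trans hρ)) (D u)
    have h3 : Real.log (2 * ρ) = Real.log 2 + Real.log ρ := Real.log_mul (by norm_num) hρ0
    rw [h3] at h2
    rw [e2] at h1
    have h5 := RatP_avg hΦm hρ1
    have h6 := h' ρ hρ1
    have h7 := hinv ρ hρ1
    linarith)
  refine ⟨T, D, c, ?_⟩
  filter_upwards [hge'] with z hz
  rw [hz, hgc]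

theorem t_ratp : RatP_stm := by
  classical
  intro a h H C ha hR hC
  obtain ⟨⟨A, B, hA, hB, ⟨zB, hzB⟩, hH⟩, k, q, hq, hev⟩ := hR
  have ha0 : 0 < a := by linarith
  have hHe : H = fun z => A z / B z := funext hH
  by_cases hA0 : ∀ z, A z = 0
  · refine ⟨fun _ => 0, a, MeromorphicAt.const 0 0, ha, ?_⟩
    filter_upwards [hev] with z hz
    rw [hz, hH, hA0, zero_div, mul_zero]
  · push Not at hA0
    obtain ⟨zA, hzA⟩ := hA0
    have hHm : Meromorphic H := by
      rw [hHe]
      exact quot_mero hB hA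
    have hord0 : ∀ u : ℂ, meromorphicOrderAt H u ≠ ⊤ := by
      intro u
      rw [meromorphicOrderAt_ne_top_iff_eventually_ne_zero (hHm u)]
      filter_upwards [ev_ne hA hzA u, ev_ne hB hzB u] with w h1 h2
      rw [hH]
      exact div_ne_zero h1 h2
    obtain ⟨T, D, c, hT⟩ := RatP_rational hHm hord0 hC
    refine ⟨fun w => (w⁻¹) ^ k * Complex.exp (q w) * ((∏ u ∈ T, (w⁻¹ - u) ^ D u) * c), a, ?_, ha, ?_⟩
    · have hqa : AnalyticAt ℂ q 0 := by
        apply hq.analyticAt
        exact ball_mem_nhds 0 (inv_pos.2 ha0)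
      have h1 : MeromorphicAt (fun w : ℂ => (w⁻¹) ^ k) 0 :=
        ((MeromorphicAt.id 0).fun_inv).fun_zpow k
      have h2 : MeromorphicAt (fun w : ℂ => Complex.exp (q w)) 0 := hqa.cexp.meromorphicAt
      refine (h1.fun_mul h2).fun_mul (MeromorphicAt.fun_mul ?_ (MeromorphicAt.const c 0))
      apply MeromorphicAt.fun_prod
      intro u _
      apply MeromorphicAt.fun_zpow
      exact ((MeromorphicAt.id 0).fun_inv).fun_sub (MeromorphicAt.const u 0)
    · have h3 : ∀ᶠ z in codiscreteWithin (Ext a), H z = (∏ u ∈ T, (z - u) ^ D u) * c :=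
        (codiscreteWithin_mono (subset_univ _)) hT
      filter_upwards [hev, h3] with z hz1 hz2
      rw [hz1, hz2, inv_inv]

end Pool.Agent.N254.SQ
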