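import Pool.Agent.N254.SQ.StmP
import Pool.Agent.W603.BP.Tame
import Pool.Agent.W603.BP.Birk

set_option autoImplicit false

namespace Pool.Agent.N254.SQ

open Filter Topology Metric
open Pool.Agent.W603.BP (Ext Ext_mono annulus birkhoff)

theorem t_repan : RepAn_stm := by
  intro R f hR hf
  have hm : 0 < max 1 R := lt_of_lt_of_le one_pos (le_max_left 1 R)
  by_cases hz : ∀ z ∈ Ext (max 1 R), f z = 0
  · refine ⟨max 1 R, le_max_left _ _, le_max_right _ _, fun _ => 0, ⟨fun _ => 0, fun _ => 1,
      differentiable_const _, differentiable_const _, ⟨0, one_ne_zero⟩, fun z => by simp⟩,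
      0, fun _ => 0, differentiableOn_const _, ?_⟩
    filter_upwards [self_mem_codiscreteWithin (Ext (max 1 R))] with z hzE
    rw [hz z hzE, mul_zero]
  · push Not at hz
    have hf' : AnalyticOnNhd ℂ f (Ext (max 1 R)) := hf.mono (Ext_mono (le_max_right 1 R))
    obtain ⟨r1, r2, h1, h2, h3⟩ := annulus hm hf' hz
    have hr1 : 0 ≤ r1 := by linarith
    have ha : r1 < (r1 + r2) / 2 := by linarith
    have ha2 : (r1 + r2) / 2 < r2 := by linarith
    obtain ⟨k, q, G, hq, hG, hG0, hfG⟩ := birkhoff (F := f) hr1 ha ha2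
      (fun z hz => (hf' z (lt_trans h1 hz)).differentiableAt.differentiableWithinAt) h3
    refine ⟨(r1 + r2) / 2, ?_, ?_, G, ⟨G, fun _ => 1, hG, differentiable_const _, ⟨0, one_ne_zero⟩,
      fun z => by simp⟩, k, q, hq, ?_⟩
    · have := le_max_left 1 R
      linarith
    · have := le_max_right 1 R
      linarith
    · filter_upwards [self_mem_codiscreteWithin (Ext ((r1 + r2) / 2))] with z hzE
      exact hfG z hzE

end Pool.Agent.N254.SQ
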