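import Pool.Agent.N254.SQ.StmP

/-!
Project SQ, leaf SIZEP (helper271): assembly of the Picard part.
-/

set_option autoImplicit false

namespace Pool.Agent.N254.SQ

open MvPolynomial Filter Topology Asymptotics ValueDistribution Metric
open Pool.Agent.N131.SR (Big NZ)
open Pool.Agent.W603.BP (Ext Ext_open Ext_preconn Ext_mono Ext_nonempty ext_ne_zero)

section ext

theorem sizep_ev_mono {a b : ℝ} (h : a ≤ b) {p : ℂ → Prop}
    (hp : ∀ᶠ z in codiscreteWithin (Ext a), p z) : ∀ᶠ z in codiscreteWithin (Ext b), p z :=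
  hp.filter_mono (codiscreteWithin_mono (Ext_mono h))

theorem sizep_self {a : ℝ} {p : ℂ → Prop} (h : ∀ z ∈ Ext a, p z) :
    ∀ᶠ z in codiscreteWithin (Ext a), p z := by
  filter_upwards [self_mem_codiscreteWithin (Ext a)] with z hz
  exact h z hz

theorem sizep_ne {R : ℝ} (hR : 0 < R) {h : ℂ → ℂ} (hh : AnalyticOnNhd ℂ h (Ext R))
    (h0 : ∃ z ∈ Ext R, h z ≠ 0) : ∀ᶠ z in codiscreteWithin (Ext R), h z ≠ 0 := by
  rcases hh.eqOn_zero_or_eventually_ne_zero_of_preconnected (Ext_preconn hR) with h1 | h1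
  · obtain ⟨z, hz, hz0⟩ := h0
    exact absurd (h1 hz) hz0
  · exact h1

theorem sizep_punct {a : ℝ} {p : ℂ → Prop} (h : ∀ᶠ z in codiscreteWithin (Ext a), p z) {z : ℂ}
    (hz : z ∈ Ext a) : ∀ᶠ w in 𝓝[≠] z, p w := by
  have h2 := (mem_codiscreteWithin_iff_forall_mem_nhdsNE.1 h) z hz
  have h3 : ∀ᶠ w in 𝓝[≠] z, w ∈ {w | p w} ∪ (Ext a)ᶜ := h2
  have h4 : ∀ᶠ w in 𝓝[≠] z, w ∈ Ext a := nhdsWithin_le_nhds ((Ext_open a).mem_nhds hz)
  filter_upwards [h3, h4] with w h5 h6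
  rcases h5 with h5 | h5
  · exact h5
  · exact absurd h6 h5

theorem sizep_an {n : ℕ} {f : Fin (n + 1) → ℂ → ℂ} {z : ℂ} (hf : ∀ j, AnalyticAt ℂ (f j) z)
    (G : MvPolynomial (Fin (n + 1)) ℂ) : AnalyticAt ℂ (fun z => eval (fun j => f j z) G) z := by
  induction G using MvPolynomial.induction_on with
  | C c =>
    simp only [eval_C]
    exact analyticAt_const
  | add p q hp hq =>
    simp only [map_add]
    exact hp.fun_add hq
  | mul_X p i hp =>
    simp only [map_mul, eval_X]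
    exact hp.fun_mul (hf i)

theorem sizep_deg {n e : ℕ} {G : MvPolynomial (Fin (n + 1)) ℂ} (hG : G.IsHomogeneous e)
    {m : Fin (n + 1) →₀ ℕ} (hm : m ∈ G.support) : ∑ i, m i = e := by
  rw [hG.degree_eq_sum_deg_support hm]
  symm
  refine Finset.sum_subset (Finset.subset_univ _) fun i _ hi => ?_
  exact Finsupp.notMem_support_iff.1 hi

theorem sizep_hom {n e : ℕ} {G : MvPolynomial (Fin (n + 1)) ℂ} (hG : G.IsHomogeneous e)
    (x : Fin (n + 1) → ℂ) (c : ℂ) : eval (fun j => x j * c) G = c ^ e * eval x G := by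
  rw [eval_eq', eval_eq', Finset.mul_sum]
  refine Finset.sum_congr rfl fun m hm => ?_
  rw [← sizep_deg hG hm, ← Finset.prod_pow_eq_pow_sum]
  have h1 : ∏ i, (x i * c) ^ m i = (∏ i, x i ^ m i) * ∏ i, c ^ m i := by
    rw [← Finset.prod_mul_distrib]
    exact Finset.prod_congr rfl fun i _ => mul_pow _ _ _
  rw [h1]
  ring

theorem sizep_qe {H : ℂ → ℂ} (h : QE H) : Meromorphic H := by
  obtain ⟨A, B, hA, hB, _, he⟩ := h
  have : H = fun z => A z / B z := funext he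
  rw [this]
  exact (diff_mero hA).div (diff_mero hB)

end ext

section lep

variable {L : Filter ℝ} {τ : ℝ → ℝ}

theorem sizep_sum (hA : LePAlg) (hadd : LePAdd_stm) (H : Cmp L τ) (h0 : ∀ᶠ r in L, 0 ≤ τ r)
    {ι : Type*} (s : Finset ι) (C : ℝ) (h : ι → ℂ → ℂ) (hh : ∀ i ∈ s, LeP L τ C (h i)) :
    LeP L τ (s.card * C) fun z => ∑ i ∈ s, h i z := by
  classical
  induction s using Finset.induction_on with
  | empty =>
    simp only [Finset.sum_empty, Finset.card_empty, Nat.cast_zero, zero_mul]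
    exact hA.const L τ H 0
  | insert i s hi ih =>
    simp only [Finset.sum_insert hi]
    rw [Finset.card_insert_of_notMem hi]
    have h1 := hadd L τ H h0 _ _ _ _ (hh i (Finset.mem_insert_self i s))
      (ih fun j hj => hh j (Finset.mem_insert_of_mem hj))
    have e1 : ((s.card + 1 : ℕ) : ℝ) * C = C + s.card * C := by push_cast; ring
    rw [e1]
    exact h1

theorem sizep_pow (hA : LePAlg) (H : Cmp L τ) {C : ℝ} {h : ℂ → ℂ} (hh : LeP L τ C h) (k : ℕ) :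
    LeP L τ (k * C) fun z => h z ^ k := by
  induction k with
  | zero =>
    simp only [pow_zero, Nat.cast_zero, zero_mul]
    exact hA.const L τ H 1
  | succ k ih =>
    have h1 := hA.mul L τ H _ _ _ _ ih hh
    have e1 : ((k + 1 : ℕ) : ℝ) * C = k * C + C := by push_cast; ring
    rw [e1]
    simp only [pow_succ]
    exact h1

theorem sizep_prod (hA : LePAlg) (H : Cmp L τ) {ι : Type*} (s : Finset ι) (m : ι → ℕ)
    (h : ι → ℂ → ℂ) (hh : ∀ i, LeP L τ 1 (h i)) :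
    LeP L τ ((∑ i ∈ s, m i : ℕ) : ℝ) fun z => ∏ i ∈ s, h i z ^ m i := by
  classical
  induction s using Finset.induction_on with
  | empty =>
    simp only [Finset.prod_empty, Finset.sum_empty, Nat.cast_zero]
    exact hA.const L τ H 1
  | insert i s hi ih =>
    simp only [Finset.prod_insert hi, Finset.sum_insert hi]
    have h1 := hA.mul L τ H _ _ _ _ (sizep_pow hA H (hh i) (m i)) ih
    have e1 : ((m i + ∑ i ∈ s, m i : ℕ) : ℝ) = m i * 1 + ((∑ i ∈ s, m i : ℕ) : ℝ) := by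
      push_cast; ring
    rw [e1]
    exact h1

/-- the number of exponent vectors times the degree -/
noncomputable def sizepC (n e : ℕ) : ℝ :=
  (Finset.finsuppAntidiag (Finset.univ : Finset (Fin (n + 1))) e).card * e

theorem sizep_form (hA : LePAlg) (hadd : LePAdd_stm) (H : Cmp L τ) (h0 : ∀ᶠ r in L, 0 ≤ τ r)
    {n e : ℕ} {G : MvPolynomial (Fin (n + 1)) ℂ} (hG : G.IsHomogeneous e)
    {x : Fin (n + 1) → ℂ → ℂ} (hx : ∀ j, LeP L τ 1 (x j)) :
    LeP L τ (sizepC n e) fun z => eval (fun j => x j z) G := by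
  have h1 : (fun z => eval (fun j => x j z) G) =
      fun z => ∑ m ∈ G.support, G.coeff m * ∏ i, x i z ^ m i := by
    funext z
    rw [eval_eq']
  rw [h1]
  have h2 := sizep_sum hA hadd H h0 G.support (e : ℝ)
    (fun m z => G.coeff m * ∏ i, x i z ^ m i) (fun m hm => by
      have h3 := hA.mul L τ H _ _ _ _ (hA.const L τ H (G.coeff m))
        (sizep_prod hA H Finset.univ (fun i => m i) x hx)
      rw [sizep_deg hG hm, zero_add] at h3
      exact h3)
  refine hA.mono L τ H h0 _ _ _ ?_ h2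
  unfold sizepC
  refine mul_le_mul_of_nonneg_right ?_ (Nat.cast_nonneg e)
  refine Nat.cast_le.2 (Finset.card_le_card fun m hm => ?_)
  rw [Finset.mem_finsuppAntidiag]
  exact ⟨sizep_deg hG hm, Finset.subset_univ _⟩

theorem sizep_logd (hA : LePAlg) (hder : LePDer_stm) (H : Cmp L τ) (h0 : ∀ᶠ r in L, 0 ≤ τ r)
    {C : ℝ} {h : ℂ → ℂ} (hh : LeP L τ C h) : LeP L τ (4 * C) (logDeriv h) := by
  have h1 := hA.mul L τ H _ _ _ _ (hder L τ H h0 C h hh) (hA.inv L τ H C h hh)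
  have e1 : 3 * C + C = 4 * C := by ring
  rw [e1] at h1
  have h2 : logDeriv h = fun z => deriv h z * (h z)⁻¹ := by
    funext z
    rw [logDeriv_apply, div_eq_mul_inv]
  rw [h2]
  exact h1

end lep

section circuit

variable {L : Filter ℝ} {τ : ℝ → ℝ}

/-- the ratios in a circuit -/
theorem sizep_circuit (hA : LePAlg) (h3 : WrP_stm) {M : ℕ} {κ₀ : ℝ} (hκ : 0 ≤ κ₀) (H : Cmp L τ)
    (h0 : ∀ᶠ r in L, 0 ≤ τ r) (Cd : ℕ → ℝ)
    (hCd : ∀ m, 0 ≤ Cd m ∧ ∀ (L : Filter ℝ) (τ : ℝ → ℝ), Cmp L τ → (∀ᶠ r in L, 0 ≤ τ r) →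
      ∀ κ : ℝ, 0 ≤ κ → ∀ φ : Fin m → ℂ → ℂ, (∀ i, LeP L τ κ (φ i)) →
        LeP L τ (Cd m * κ) fun z => (Matrix.of fun i k : Fin m => pp (φ i) k z).det)
    {R : ℝ} (hR : 0 < R)
    {κ : Type} [Fintype κ] (hM : Fintype.card κ ≤ M) (u : κ → ℂ → ℂ)
    (hu : ∀ i, AnalyticOnNhd ℂ (u i) (Ext R)) (s : ℂ → ℂ) (hs : AnalyticOnNhd ℂ s (Ext R))
    (hs0 : ∃ z ∈ Ext R, s z ≠ 0) (hlog : ∀ i, LeP L τ κ₀ (logDeriv fun w => u i w / s w))
    (a : κ → ℂ) (ha : ∀ z ∈ Ext R, ∑ i, a i * u i z = 0)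
    (hmin : ∀ b : κ → ℂ, (∀ i, a i = 0 → b i = 0) → (∀ z ∈ Ext R, ∑ i, b i * u i z = 0) →
      ∃ c : ℂ, b = c • a) {i j : κ} (hij : i ≠ j) (hai : a i ≠ 0) (haj : a j ≠ 0) :
    LeP L τ (2 * (κ₀ * ∑ m ∈ Finset.range (M + 1), Cd m)) fun z => u i z / u j z := by
  classical
  set S : Finset κ := Finset.univ.filter fun i => a i ≠ 0 with hS
  have hiS : i ∈ S := by simp [hS, hai]
  have hjS : j ∈ S := by simp [hS, haj]
  have hcard : 2 ≤ S.card := by
    have h4 : ({i, j} : Finset κ) ⊆ S := by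
      intro x hx
      rw [Finset.mem_insert, Finset.mem_singleton] at hx
      rcases hx with rfl | rfl
      · exact hiS
      · exact hjS
    have := Finset.card_le_card h4
    rwa [Finset.card_pair hij] at this
  obtain ⟨m, hm⟩ : ∃ m, S.card = m + 2 := ⟨S.card - 2, by omega⟩
  have hmM : m + 2 ≤ M := by
    rw [← hm]
    exact (Finset.card_le_univ S).trans hM
  let E : Fin (m + 2) ≃ S := (Fintype.equivFinOfCardEq (by rw [Fintype.card_coe, hm])).symm
  have hsumS : ∀ (b : κ → ℂ), (∀ x, x ∉ S → b x = 0) → ∀ z, ∑ x : Fin (m + 2), b (E x) * u (E x) z =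
      ∑ x, b x * u x z := by
    intro b hb z
    rw [Equiv.sum_comp E fun x : S => b x * u x z,
      Finset.sum_coe_sort S fun x => b x * u x z]
    refine Finset.sum_subset (Finset.subset_univ _) fun x _ hx => ?_
    rw [hb x hx, zero_mul]
  have haS : ∀ x, x ∉ S → a x = 0 := by
    intro x hx
    by_contra h
    exact hx (by simp [hS, h])
  have key := h3 R hR m (fun x => u (E x)) s (fun x => hu _) hs hs0 (fun x => a (E x))
    (fun x => by
      have h5 : (E x : κ) ∈ Finset.univ.filter fun i => a i ≠ 0 := (E x).2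
      exact (Finset.mem_filter.1 h5).2)
    (fun z hz => by rw [hsumS a haS z, ha z hz])
    (fun b hb => by
      set b' : κ → ℂ := fun x => if h : x ∈ S then b (E.symm ⟨x, h⟩) else 0 with hb'
      have h4 : ∀ x, x ∉ S → b' x = 0 := by
        intro x hx
        simp only [hb']
        rw [dif_neg hx]
      have h5 : ∀ x : Fin (m + 2), b' (E x) = b x := by
        intro x
        simp only [hb']
        rw [dif_pos (E x).2]
        simp
      obtain ⟨c, hc⟩ := hmin b' (fun x hx => h4 x (by simp [hS, hx])) (fun z hz => by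
        rw [← hsumS b' h4 z, ← hb z hz]
        exact Finset.sum_congr rfl fun x _ => by rw [h5])
      refine ⟨c, ?_⟩
      funext x
      rw [← h5, hc]
      rfl)
  obtain ⟨c, hc⟩ := key (E.symm ⟨i, hiS⟩) (E.symm ⟨j, hjS⟩)
  simp only [Equiv.apply_symm_apply] at hc
  -- the bound for the determinants
  have hdet : ∀ k : Fin (m + 2), LeP L τ (κ₀ * ∑ m ∈ Finset.range (M + 1), Cd m)
      fun z => (Matrix.of fun l k' : Fin (m + 1) =>
          pp (logDeriv fun w => u (E (k.succAbove l)) w / s w) k' z).det := by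
    intro k
    have h5 := (hCd (m + 1)).2 L τ H h0 κ₀ hκ
      (fun l => logDeriv fun w => u (E (k.succAbove l)) w / s w) (fun l => hlog _)
    refine hA.mono L τ H h0 _ _ _ ?_ h5
    rw [mul_comm]
    refine mul_le_mul_of_nonneg_left ?_ hκ
    exact Finset.single_le_sum (f := Cd) (fun x _ => (hCd x).1) (Finset.mem_range.2 (by omega))
  have h6 := hA.mul L τ H _ _ _ _ (hA.const L τ H c) (hA.mul L τ H _ _ _ _
    (hdet (E.symm ⟨i, hiS⟩)) (hA.inv L τ H _ _ (hdet (E.symm ⟨j, hjS⟩))))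
  have h8 := hA.congr L τ _ R _ (fun z => u i z / u j z) (by
    filter_upwards [hc] with z hz
    rw [hz, div_eq_mul_inv]) h6
  refine hA.mono L τ H h0 _ _ _ (le_of_eq ?_) h8
  ring

end circuit

section chain

variable {L : Filter ℝ} {τ : ℝ → ℝ}

/-- the ratios along a walk -/
theorem sizep_walk (hA : LePAlg) (H : Cmp L τ) {R : ℝ} (hR : 0 < R) {κ : Type} (u : κ → ℂ → ℂ)
    (hu : ∀ i, AnalyticOnNhd ℂ (u i) (Ext R))
    (hu0 : ∀ i, ∃ z ∈ Ext R, u i z ≠ 0) (C : ℝ) (G : SimpleGraph κ)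
    (hG : ∀ i j, G.Adj i j → LeP L τ C fun z => u i z / u j z) {i j : κ} (w : G.Walk i j) :
    LeP L τ (w.length * C) fun z => u i z / u j z := by
  induction w with
  | nil =>
    rename_i i
    rw [SimpleGraph.Walk.length_nil, Nat.cast_zero, zero_mul]
    refine hA.congr L τ _ R _ _ ?_ (hA.const L τ H 1)
    filter_upwards [sizep_ne hR (hu i) (hu0 i)] with z hz
    rw [div_self hz]
  | cons h p ih =>
    rename_i i k j
    rw [SimpleGraph.Walk.length_cons]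
    have h1 := hA.mul L τ H _ _ _ _ (hG _ _ h) ih
    have e1 : ((p.length + 1 : ℕ) : ℝ) * C = C + p.length * C := by push_cast; ring
    rw [e1]
    refine hA.congr L τ _ R _ _ ?_ h1
    filter_upwards [sizep_ne hR (hu k) (hu0 k)] with z hz
    rw [div_mul_div_cancel₀ hz]

end chain

theorem sizep_lin {n : ℕ} (t : ℕ) (x : Fin (n + 1) → ℂ) :
    eval x (lin ℂ n t) = ∑ j : Fin (n + 1), (t : ℂ) ^ (j : ℕ) * x j := by
  unfold lin
  rw [map_sum]
  refine Finset.sum_congr rfl fun j _ => ?_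
  rw [map_mul, eval_C, eval_X]

theorem sizep_lin_hom (n t : ℕ) : (lin ℂ n t).IsHomogeneous 1 := by
  unfold lin
  refine IsHomogeneous.sum _ _ _ fun j _ => ?_
  have := (isHomogeneous_C (Fin (n + 1)) ((t : ℂ) ^ (j : ℕ))).mul (isHomogeneous_X ℂ j)
  simpa using this

/-- the case of logarithmic growth -/
theorem sizep_rat {R : ℝ} {g fl ρ : ℂ → ℂ} (hg : AnalyticOnNhd ℂ g (Ext R))
    (hfl : AnalyticOnNhd ℂ fl (Ext R))
    (hfl0 : ∀ᶠ z in codiscreteWithin (Ext R), fl z ≠ 0) (hρ : MeromorphicAt ρ 0) {b : ℝ}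
    (hb : 1 ≤ b) (he : ∀ᶠ z in codiscreteWithin (Ext b), g z * (fl z)⁻¹ = ρ z⁻¹) :
    ∃ (ρ : ℂ → ℂ) (b : ℝ), MeromorphicAt ρ 0 ∧ R ≤ b ∧ ∀ z ∈ Ext b, g z = ρ z⁻¹ * fl z := by
  have h1 := hρ.eventually_analyticAt
  rw [eventually_nhdsWithin_iff, Metric.eventually_nhds_iff] at h1
  obtain ⟨ε, hε, h1⟩ := h1
  refine ⟨ρ, max (max R b) ε⁻¹, hρ, (le_max_left _ _).trans (le_max_left _ _), ?_⟩
  intro z hz
  have hzR : z ∈ Ext R := Ext_mono ((le_max_left _ _).trans (le_max_left _ _)) hz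
  have hzb : z ∈ Ext b := Ext_mono ((le_max_right _ _).trans (le_max_left _ _)) hz
  have hzε : ε⁻¹ < ‖z‖ := lt_of_le_of_lt (le_max_right _ _) hz
  have hz0 : z ≠ 0 := ext_ne_zero (by linarith) hzb
  have hρz : AnalyticAt ℂ ρ z⁻¹ := by
    refine h1 ?_ (inv_ne_zero hz0)
    rw [dist_zero_right, norm_inv]
    exact inv_lt_of_inv_lt₀ hε hzε
  have hc1 : ContinuousAt g z := (hg z hzR).continuousAt
  have hc2 : ContinuousAt (fun w => ρ w⁻¹ * fl w) z := by
    refine ContinuousAt.mul ?_ (hfl z hzR).continuousAt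
    exact ContinuousAt.comp (f := fun w : ℂ => w⁻¹) (g := ρ) hρz.continuousAt
      (continuousAt_inv₀ hz0)
  have h2 : ∀ᶠ w in 𝓝[≠] z, g w = ρ w⁻¹ * fl w := by
    filter_upwards [sizep_punct he hzb, sizep_punct hfl0 hzR] with w h3 h4
    rw [← h3]
    field_simp
  exact tendsto_nhds_unique_of_eventuallyEq (hc1.tendsto.mono_left nhdsWithin_le_nhds)
    (hc2.tendsto.mono_left nhdsWithin_le_nhds) h2

/-- the logarithmic derivatives of the terms -/
theorem sizep_term (hA : LePAlg) (hadd : LePAdd_stm) (hder : LePDer_stm) {L : Filter ℝ}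
    {τ : ℝ → ℝ} (H : Cmp L τ) (h0 : ∀ᶠ r in L, 0 ≤ τ r) {R : ℝ} (hR : 0 < R) {n e D : ℕ}
    {f : Fin (n + 1) → ℂ → ℂ} (hf : ∀ j, AnalyticOnNhd ℂ (f j) (Ext R)) {l : Fin (n + 1)}
    (hl : ∃ z ∈ Ext R, f l z ≠ 0) (hx : ∀ j, LeP L τ 1 fun z => f j z * (f l z)⁻¹)
    {G ℓ : MvPolynomial (Fin (n + 1)) ℂ} (hG : G.IsHomogeneous e) (hℓ : ℓ.IsHomogeneous 1)
    (hlx : LeP L τ (n + 1) fun z => eval (fun j => f j z * (f l z)⁻¹) ℓ)
    (hG0 : ∃ z ∈ Ext R, eval (fun j => f j z) G ≠ 0)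
    (hℓ0 : ∃ z ∈ Ext R, eval (fun j => f j z) ℓ ≠ 0) :
    LeP L τ (4 * sizepC n e + 4 * (n + 1)) (logDeriv fun z =>
      (eval (fun j => f j z) G * eval (fun j => f j z) ℓ ^ D) / f l z ^ (D + e)) := by
  have h1 := sizep_logd hA hder H h0 (sizep_form hA hadd H h0 hG hx)
  have h2 := hA.mul L τ H _ _ _ _ (hA.const L τ H (D : ℂ)) (sizep_logd hA hder H h0 hlx)
  rw [zero_add] at h2
  have h3 := hadd L τ H h0 _ _ _ _ h1 h2
  refine hA.congr L τ _ R _ _ ?_ h3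
  have hGa : AnalyticOnNhd ℂ (fun z => eval (fun j => f j z) G) (Ext R) :=
    fun z hz => sizep_an (fun j => hf j z hz) G
  have hℓa : AnalyticOnNhd ℂ (fun z => eval (fun j => f j z) ℓ) (Ext R) :=
    fun z hz => sizep_an (fun j => hf j z hz) ℓ
  filter_upwards [sizep_ne hR (hf l) hl, sizep_ne hR hGa hG0, sizep_ne hR hℓa hℓ0,
    self_mem_codiscreteWithin (Ext R)] with z e1 e2 e3 hz
  have hev : ∀ᶠ w in 𝓝 z, f l w ≠ 0 := (hf l z hz).continuousAt.eventually_ne e1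
  have hGx : ∀ w, eval (fun j => f j w * (f l w)⁻¹) G = ((f l w)⁻¹) ^ e * eval (fun j => f j w) G :=
    fun w => sizep_hom hG _ _
  have hℓx : ∀ w, eval (fun j => f j w * (f l w)⁻¹) ℓ = ((f l w)⁻¹) ^ 1 * eval (fun j => f j w) ℓ :=
    fun w => sizep_hom hℓ _ _
  have hxa : ∀ j, AnalyticAt ℂ (fun w => f j w * (f l w)⁻¹) z := fun j =>
    (hf j z hz).fun_mul ((hf l z hz).fun_inv e1)
  have hGxa := sizep_an hxa G
  have hℓxa := sizep_an hxa ℓ
  have hfun : (fun w => (eval (fun j => f j w) G * eval (fun j => f j w) ℓ ^ D) / f l w ^ (D + e))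
      =ᶠ[𝓝 z] fun w => eval (fun j => f j w * (f l w)⁻¹) G *
        (fun w => eval (fun j => f j w * (f l w)⁻¹) ℓ ^ D) w := by
    filter_upwards [hev] with w hw
    simp only [hGx, hℓx, pow_one]
    rw [pow_add, mul_pow, inv_pow, inv_pow]
    field_simp
  have hld : logDeriv (fun w => (eval (fun j => f j w) G * eval (fun j => f j w) ℓ ^ D) /
      f l w ^ (D + e)) z = logDeriv (fun w => eval (fun j => f j w * (f l w)⁻¹) G *
        (fun w => eval (fun j => f j w * (f l w)⁻¹) ℓ ^ D) w) z := by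
    rw [logDeriv_apply, logDeriv_apply, hfun.deriv_eq, hfun.eq_of_nhds]
  have hn1 : eval (fun j => f j z * (f l z)⁻¹) G ≠ 0 := by
    rw [hGx]
    exact mul_ne_zero (pow_ne_zero _ (inv_ne_zero e1)) e2
  have hn2 : eval (fun j => f j z * (f l z)⁻¹) ℓ ≠ 0 := by
    rw [hℓx]
    exact mul_ne_zero (pow_ne_zero _ (inv_ne_zero e1)) e3
  rw [hld, logDeriv_mul (f := fun w => eval (fun j => f j w * (f l w)⁻¹) G)
    (g := fun w => eval (fun j => f j w * (f l w)⁻¹) ℓ ^ D) z hn1 (pow_ne_zero D hn2)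
    hGxa.differentiableAt (hℓxa.differentiableAt.fun_pow D)]
  rw [logDeriv_fun_pow hℓxa.differentiableAt D]

theorem t_sizep (h1 : Circ_stm) (h2 : LePAlg) (h3 : LePAdd_stm) (h4 : LePDer_stm)
    (h5 : LePDet_stm) (h6 : WrP_stm) (h7 : RepAn_stm) (h8 : Uniq_stm) (h9 : RatP_stm)
    (h10 : Filt_stm) : SizeP_stm := by
  classical
  intro n e M
  choose Cd hCd using h5
  have hS0 : 0 ≤ ∑ m ∈ Finset.range (M + 1), Cd m := Finset.sum_nonneg fun m _ => (hCd m).1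
  obtain ⟨Ce, hCe⟩ : ∃ Ce : ℝ, Ce = sizepC n e := ⟨_, rfl⟩
  have hCe0 : 0 ≤ Ce := by
    rw [hCe]
    unfold sizepC
    positivity
  obtain ⟨κ₀, hκ₀⟩ : ∃ κ₀ : ℝ, κ₀ = 4 * Ce + 4 * ((n : ℝ) + 1) := ⟨_, rfl⟩
  have hκ₀0 : 0 ≤ κ₀ := by rw [hκ₀]; positivity
  obtain ⟨C₀, hC₀⟩ : ∃ C₀ : ℝ, C₀ = 2 * (κ₀ * ∑ m ∈ Finset.range (M + 1), Cd m) := ⟨_, rfl⟩
  have hC₀0 : 0 ≤ C₀ := by rw [hC₀]; positivity
  obtain ⟨C₁, hC₁⟩ : ∃ C₁ : ℝ, C₁ = M * C₀ + 2 * Ce := ⟨_, rfl⟩
  have hC₁0 : 0 ≤ C₁ := by rw [hC₁]; positivity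
  obtain ⟨D₁, hD₁⟩ := exists_nat_gt (4 * (((n : ℝ) + 1) ^ 2 * C₁))
  refine ⟨D₁ + 1, ?_⟩
  intro D hD κ _ hM hn1 h2c G p hp hG R f hR hf hsum hsub i₀ l hl
  have hD1 : 1 ≤ D := by omega
  have hfl0 := sizep_ne hR (hf l) hl
  -- representations
  choose aa haa1 haaR F hF using fun j => h7 R (f j) hR (hf j)
  obtain ⟨a, ha⟩ : ∃ a : ℝ, a = ∑ j, aa j := ⟨_, rfl⟩
  have haj : ∀ j, aa j ≤ a := by
    intro j
    rw [ha]
    exact Finset.single_le_sum (f := aa) (fun i _ => by linarith [haa1 i]) (Finset.mem_univ j)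
  have ha1 : 1 ≤ a := (haa1 0).trans (haj 0)
  have hFa : ∀ j, Rp a (f j) (F j) := fun j => h2.mono_rp _ _ _ _ (haa1 j) (haj j) (hF j)
  obtain ⟨Hc, hHc⟩ : ∃ Hc : Fin (n + 1) → ℂ → ℂ, Hc = fun j z => F j z * (F l z)⁻¹ := ⟨_, rfl⟩
  have hRp : ∀ j, Rp a (fun z => f j z * (f l z)⁻¹) (Hc j) := by
    intro j
    rw [hHc]
    exact h2.rp_mul a (f j) (fun z => (f l z)⁻¹) (F j) (fun z => (F l z)⁻¹) ha1 (hFa j)
      (h2.rp_inv a (f l) (F l) ha1 (hFa l))
  have hHm : ∀ j, Meromorphic (Hc j) := fun j => sizep_qe (hRp j).1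
  rcases h10 (n + 1) Hc hHm with ⟨C, hC⟩ | ⟨L, H⟩
  · -- logarithmic growth
    obtain ⟨ρ, b, hρ, hb, he⟩ := h9 a _ (Hc i₀) C ha1 (hRp i₀) (fun r hr =>
      (Finset.single_le_sum (f := fun i => characteristic (Hc i) ⊤ r)
        (fun j _ => char_nonneg _ hr) (Finset.mem_univ i₀)).trans (hC r hr))
    exact sizep_rat (hf i₀) (hf l) hfl0 hρ hb he
  exfalso
  obtain ⟨τ, hτ⟩ : ∃ τ : ℝ → ℝ, τ = fun r => ∑ i, characteristic (Hc i) ⊤ r := ⟨_, rfl⟩
  rw [← hτ] at H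
  have hτ0 : ∀ᶠ r in L, 0 ≤ τ r := by
    filter_upwards [H.ge] with r hr
    rw [hτ]
    exact Finset.sum_nonneg fun i _ => char_nonneg _ hr
  -- the coordinates
  have hx : ∀ j, LeP L τ 1 fun z => f j z * (f l z)⁻¹ := by
    intro j
    refine ⟨a, ha1, Hc j, hRp j, hHm j, fun _ => 0, isLittleO_zero _ _, ?_⟩
    filter_upwards [H.ge] with r hr
    rw [hτ, one_mul, add_zero]
    exact Finset.single_le_sum (f := fun i => characteristic (Hc i) ⊤ r)
        (fun j _ => char_nonneg _ hr) (Finset.mem_univ j)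
  have hlx : ∀ t, LeP L τ ((n : ℝ) + 1) fun z =>
      eval (fun j => f j z * (f l z)⁻¹) (lin ℂ n t) := by
    intro t
    have e1 : (fun z => eval (fun j => f j z * (f l z)⁻¹) (lin ℂ n t)) =
        fun z => ∑ j : Fin (n + 1), (t : ℂ) ^ (j : ℕ) * (f j z * (f l z)⁻¹) := by
      funext z
      rw [sizep_lin]
    rw [e1]
    have e2 := sizep_sum h2 h3 H hτ0 Finset.univ (1 : ℝ)
      (fun (j : Fin (n + 1)) z => (t : ℂ) ^ (j : ℕ) * (f j z * (f l z)⁻¹)) (fun j _ => by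
        have := h2.mul L τ H _ _ _ _ (h2.const L τ H ((t : ℂ) ^ (j : ℕ))) (hx j)
        rwa [zero_add] at this)
    rw [Finset.card_univ, Fintype.card_fin, mul_one] at e2
    push_cast at e2
    exact e2
  -- the terms
  obtain ⟨u, hu⟩ : ∃ u : κ → ℂ → ℂ, u = fun t z => eval (fun j => f j z) (G t) *
    eval (fun j => f j z) (lin ℂ n (p t)) ^ D := ⟨_, rfl⟩
  have hGan : ∀ t, AnalyticOnNhd ℂ (fun z => eval (fun j => f j z) (G t)) (Ext R) :=
    fun t z hz => sizep_an (fun j => hf j z hz) _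
  have hlan : ∀ t, AnalyticOnNhd ℂ (fun z => eval (fun j => f j z) (lin ℂ n (p t))) (Ext R) :=
    fun t z hz => sizep_an (fun j => hf j z hz) _
  have hua : ∀ t, AnalyticOnNhd ℂ (u t) (Ext R) := by
    intro t z hz
    rw [hu]
    exact (hGan t z hz).fun_mul ((hlan t z hz).fun_pow D)
  have husum : ∀ z ∈ Ext R, ∑ t, u t z = 0 := by
    rw [hu]
    exact hsum
  have husub : ∀ B : Finset κ, B.Nonempty → B ≠ Finset.univ →
      ∃ z ∈ Ext R, ∑ t ∈ B, u t z ≠ 0 := by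
    rw [hu]
    exact hsub
  have hu0 : ∀ t, ∃ z ∈ Ext R, u t z ≠ 0 := by
    intro t
    obtain ⟨z, hz, hz2⟩ := husub {t} (Finset.singleton_nonempty t) (by
      intro h
      have := congrArg Finset.card h
      rw [Finset.card_singleton, Finset.card_univ] at this
      omega)
    rw [Finset.sum_singleton] at hz2
    exact ⟨z, hz, hz2⟩
  have hG0 : ∀ t, ∃ z ∈ Ext R, eval (fun j => f j z) (G t) ≠ 0 := by
    intro t
    obtain ⟨z, hz, hz2⟩ := hu0 t
    rw [hu] at hz2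
    exact ⟨z, hz, left_ne_zero_of_mul hz2⟩
  have hl0 : ∀ t, ∃ z ∈ Ext R, eval (fun j => f j z) (lin ℂ n (p t)) ≠ 0 := by
    intro t
    obtain ⟨z, hz, hz2⟩ := hu0 t
    rw [hu] at hz2
    refine ⟨z, hz, fun h => right_ne_zero_of_mul hz2 ?_⟩
    rw [h]
    exact zero_pow (by omega)
  have hlog : ∀ t, LeP L τ κ₀ (logDeriv fun w => u t w / f l w ^ (D + e)) := by
    intro t
    rw [hκ₀, hCe, hu]
    exact sizep_term h2 h3 h4 H hτ0 hR hf hl hx (hG t) (sizep_lin_hom n (p t)) (hlx (p t))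
      (hG0 t) (hl0 t)
  -- the graph
  let Gr : SimpleGraph κ :=
    { Adj := fun i j => i ≠ j ∧ (LeP L τ C₀ fun z => u i z / u j z) ∧
        LeP L τ C₀ fun z => u j z / u i z
      symm := ⟨fun i j h => ⟨h.1.symm, h.2.2, h.2.1⟩⟩
      loopless := ⟨fun i h => h.1 rfl⟩ }
  have hreach : ∀ i j, Gr.Reachable i j := by
    refine h1 (Ext R → ℂ) κ (fun t z => u t z) (by
      funext z
      rw [Finset.sum_apply]
      exact husum z z.2) (by
      intro B hB hB' h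
      obtain ⟨z, hz, hz2⟩ := husub B hB hB'
      apply hz2
      have := congrFun h ⟨z, hz⟩
      rwa [Finset.sum_apply] at this) Gr.Reachable Gr.reachable_is_equivalence ?_
    intro a _ hasum hmin i j hai haj
    by_cases hij : i = j
    · rw [hij]
    · have hfun : ∀ b : κ → ℂ, (∀ z ∈ Ext R, ∑ i, b i * u i z = 0) →
          ∑ i, b i • (fun (z : Ext R) => u i z) = 0 := by
        intro b hb
        funext z
        rw [Finset.sum_apply]
        exact hb z z.2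
      have hfun' : ∀ z ∈ Ext R, ∑ i, a i * u i z = 0 := by
        intro z hz
        have := congrFun hasum ⟨z, hz⟩
        rw [Finset.sum_apply] at this
        exact this
      have hs : AnalyticOnNhd ℂ (fun w => f l w ^ (D + e)) (Ext R) :=
        fun z hz => (hf l z hz).fun_pow _
      have hs0 : ∃ z ∈ Ext R, f l z ^ (D + e) ≠ 0 := by
        obtain ⟨z, hz, hz2⟩ := hl
        exact ⟨z, hz, pow_ne_zero _ hz2⟩
      have hmin' : ∀ b : κ → ℂ, (∀ i, a i = 0 → b i = 0) →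
          (∀ z ∈ Ext R, ∑ i, b i * u i z = 0) →
          ∃ c : ℂ, b = c • a := fun b hb hb' => hmin b hb (hfun b hb')
      refine SimpleGraph.Adj.reachable ⟨hij, ?_, ?_⟩
      · rw [hC₀]
        exact sizep_circuit h2 h6 hκ₀0 H hτ0 Cd hCd hR hM u hua _ hs hs0 hlog a hfun'
          hmin' hij hai haj
      · rw [hC₀]
        exact sizep_circuit h2 h6 hκ₀0 H hτ0 Cd hCd hR hM u hua _ hs hs0 hlog a hfun'
          hmin' (Ne.symm hij) haj hai
  have hratio : ∀ i j, LeP L τ (M * C₀) fun z => u i z / u j z := by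
    intro i j
    obtain ⟨w, hw⟩ := (hreach i j).exists_isPath
    have h11 := sizep_walk h2 H hR u hua hu0 C₀ Gr (fun i j h => h.2.1) w
    refine h2.mono L τ H hτ0 _ _ _ ?_ h11
    refine mul_le_mul_of_nonneg_right ?_ hC₀0
    have := hw.length_lt
    exact_mod_cast (by omega : w.length ≤ M)
  -- the linear forms
  obtain ⟨ψ⟩ : Nonempty (Fin (n + 1) ↪ κ) := by
    rw [Function.Embedding.nonempty_iff_card_le, Fintype.card_fin]
    exact hn1
  have hfx : ∀ (G : MvPolynomial (Fin (n + 1)) ℂ) (d : ℕ), G.IsHomogeneous d → ∀ z,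
      eval (fun j => f j z * (f l z)⁻¹) G = ((f l z)⁻¹) ^ d * eval (fun j => f j z) G :=
    fun G d hG z => sizep_hom hG _ _
  obtain ⟨v, hv⟩ : ∃ v : Fin (n + 1) → ℂ → ℂ, v = fun i z =>
    eval (fun j => f j z * (f l z)⁻¹) (lin ℂ n (p (ψ i))) *
      (eval (fun j => f j z * (f l z)⁻¹) (lin ℂ n (p (ψ 0))))⁻¹ := ⟨_, rfl⟩
  have hvD : ∀ i, LeP L τ C₁ fun z => v i z ^ D := by
    intro i
    have h11 := h2.mul L τ H _ _ _ _ (hratio (ψ i) (ψ 0)) (h2.mul L τ H _ _ _ _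
      (sizep_form h2 h3 H hτ0 (hG (ψ 0)) hx)
      (h2.inv L τ H _ _ (sizep_form h2 h3 H hτ0 (hG (ψ i)) hx)))
    have e1 : M * C₀ + (sizepC n e + sizepC n e) = C₁ := by rw [hC₁, hCe]; ring
    rw [e1] at h11
    refine h2.congr L τ _ R _ _ ?_ h11
    filter_upwards [hfl0, sizep_ne hR (hGan (ψ 0)) (hG0 (ψ 0)),
      sizep_ne hR (hGan (ψ i)) (hG0 (ψ i)), sizep_ne hR (hlan (ψ 0)) (hl0 (ψ 0))] with z e1 e2 e3 e4
    rw [hv, hu]
    simp only [hfx _ _ (hG _), hfx _ _ (sizep_lin_hom n _), pow_one]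
    field_simp
    rw [div_pow, div_mul_cancel₀ _ (pow_ne_zero D e4)]
  have hε : (0 : ℝ) < D := by exact_mod_cast hD1
  obtain ⟨ε, hεd⟩ : ∃ ε : ℝ, ε = C₁ / D := ⟨_, rfl⟩
  have hvL : ∀ i, LeP L τ ε (v i) := by
    intro i
    obtain ⟨a', ha', H', hRp', _⟩ := h2.mul L τ H _ _ _ _ (hlx (p (ψ i)))
      (h2.inv L τ H _ _ (hlx (p (ψ 0))))
    rw [hεd]
    refine h2.pow L τ H C₁ D hD1 (v i) a' H' ha' ?_ (hvD i)
    rw [hv]
    exact hRp'
  -- the inverse of the Vandermonde matrix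
  obtain ⟨A, hA⟩ : ∃ A : Matrix (Fin (n + 1)) (Fin (n + 1)) ℂ,
    A = Matrix.vandermonde fun i : Fin (n + 1) => ((p (ψ i) : ℕ) : ℂ) := ⟨_, rfl⟩
  have hAdet : A.det ≠ 0 := by
    rw [hA, Matrix.det_vandermonde_ne_zero_iff]
    intro i j hij
    exact ψ.injective (hp (Nat.cast_injective hij))
  have hinv : A⁻¹ * A = 1 := Matrix.nonsing_inv_mul A (Ne.isUnit hAdet)
  have hxA : ∀ (y : Fin (n + 1) → ℂ) (j : Fin (n + 1)),
      y j = ∑ s, A⁻¹ j s * eval y (lin ℂ n (p (ψ s))) := by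
    intro y j
    have e1 : ∀ s, eval y (lin ℂ n (p (ψ s))) = (A.mulVec y) s := by
      intro s
      rw [sizep_lin, Matrix.mulVec, dotProduct, hA]
      rfl
    simp only [e1]
    have e2 : (A⁻¹.mulVec (A.mulVec y)) j = y j := by
      rw [Matrix.mulVec_mulVec, hinv, Matrix.one_mulVec]
    rw [← e2]
    rfl
  have hxL : ∀ j, LeP L τ (2 * (((n : ℝ) + 1) * ε)) fun z => f j z * (f l z)⁻¹ := by
    intro j
    have hnum : ∀ j, LeP L τ (((n : ℝ) + 1) * ε) fun z => ∑ s, A⁻¹ j s * v s z := by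
      intro j
      have e2 := sizep_sum h2 h3 H hτ0 Finset.univ ε
        (fun (s : Fin (n + 1)) z => A⁻¹ j s * v s z) (fun s _ => by
          have := h2.mul L τ H _ _ _ _ (h2.const L τ H (A⁻¹ j s)) (hvL s)
          rwa [zero_add] at this)
      rw [Finset.card_univ, Fintype.card_fin] at e2
      push_cast at e2
      exact e2
    have h11 := h2.mul L τ H _ _ _ _ (hnum j) (h2.inv L τ H _ _ (hnum l))
    have e1 : ((n : ℝ) + 1) * ε + ((n : ℝ) + 1) * ε = 2 * (((n : ℝ) + 1) * ε) := by ring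
    rw [e1] at h11
    refine h2.congr L τ _ R _ _ ?_ h11
    filter_upwards [hfl0, sizep_ne hR (hlan (ψ 0)) (hl0 (ψ 0))] with z e1 e2
    have e3 : eval (fun j => f j z * (f l z)⁻¹) (lin ℂ n (p (ψ 0))) ≠ 0 := by
      rw [hfx _ _ (sizep_lin_hom n _)]
      exact mul_ne_zero (pow_ne_zero _ (inv_ne_zero e1)) e2
    have e4 : ∀ j, ∑ s, A⁻¹ j s * v s z = f j z * (f l z)⁻¹ *
        (eval (fun j => f j z * (f l z)⁻¹) (lin ℂ n (p (ψ 0))))⁻¹ := by
      intro j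
      have e5 : f j z * (f l z)⁻¹ = ∑ s, A⁻¹ j s *
          eval (fun j => f j z * (f l z)⁻¹) (lin ℂ n (p (ψ s))) :=
        hxA (fun j => f j z * (f l z)⁻¹) j
      rw [e5, hv, Finset.sum_mul]
      refine Finset.sum_congr rfl fun s _ => ?_
      ring
    rw [e4, e4]
    generalize eval (fun j => f j z * (f l z)⁻¹) (lin ℂ n (p (ψ 0))) = W at e3
    field_simp
  -- the bounds of the characteristics
  have hchar : ∀ j, ∃ s : ℝ → ℝ, s =o[L] τ ∧ ∀ᶠ r in L,
      characteristic (Hc j) ⊤ r ≤ 2 * (((n : ℝ) + 1) * ε) * τ r + s r := by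
    intro j
    obtain ⟨a', ha', H', hRp', _, s, hs, hb⟩ := hxL j
    have e1 := h2.mono_rp _ (max a a') _ _ ha' (le_max_right _ _) hRp'
    have e2 := h2.mono_rp _ (max a a') _ _ ha1 (le_max_left _ _) (hRp j)
    obtain ⟨C, hC⟩ := h8 (max a a') _ H' (Hc j) (ha1.trans (le_max_left _ _)) e1 e2
    refine ⟨fun r => s r + C * (1 + Real.log r), hs.add ?_, ?_⟩
    · have e3 : (fun r => (1 : ℝ) + Real.log r) =o[L] τ := H.one.add H.log
      exact e3.const_mul_left C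
    · filter_upwards [hb, H.ge] with r hr hr1
      have := hC r hr1
      linarith
  choose s hs hb using hchar
  have hsum2 : ∃ S : ℝ → ℝ, S =o[L] τ ∧ ∀ᶠ r in L,
      τ r ≤ ((n : ℝ) + 1) * (2 * (((n : ℝ) + 1) * ε)) * τ r + S r := by
    refine ⟨fun r => ∑ i, s i r, IsLittleO.fun_sum fun i _ => hs i, ?_⟩
    filter_upwards [eventually_all.2 hb] with r hr
    have h14 := Finset.sum_le_sum fun i (_ : i ∈ (Finset.univ : Finset (Fin (n + 1)))) => hr i
    rw [Finset.sum_add_distrib, Finset.sum_const, Finset.card_univ, Fintype.card_fin,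
      nsmul_eq_mul] at h14
    push_cast at h14
    have e1 : τ r = ∑ i, characteristic (Hc i) ⊤ r := by rw [hτ]
    calc τ r = ∑ i, characteristic (Hc i) ⊤ r := e1
      _ ≤ _ := h14
      _ = _ := by ring
  obtain ⟨S, hS, hbS⟩ := hsum2
  have hne : L.NeBot := H.big.ne
  have hsmall : ((n : ℝ) + 1) * (2 * (((n : ℝ) + 1) * ε)) ≤ 1 / 2 := by
    have hD2 : (D₁ : ℝ) ≤ D := by exact_mod_cast (by omega : D₁ ≤ D)
    have e1 : ((n : ℝ) + 1) * (2 * (((n : ℝ) + 1) * ε)) =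
        2 * (((n : ℝ) + 1) ^ 2 * C₁) / D := by
      rw [hεd]; ring
    rw [e1, div_le_iff₀ hε]
    linarith
  have e8 := isLittleO_iff.1 hS (show (0 : ℝ) < 1 / 4 by norm_num)
  have e9 := isLittleO_iff.1 H.one (show (0 : ℝ) < 1 by norm_num)
  obtain ⟨r, hr1, hr2, hr3, hr4⟩ := (e8.and (e9.and (hbS.and hτ0))).exists
  rw [Real.norm_eq_abs, Real.norm_eq_abs, abs_of_nonneg hr4] at hr1
  rw [Real.norm_eq_abs, Real.norm_eq_abs, abs_of_nonneg hr4, abs_one, one_mul] at hr2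
  have e10 := le_abs_self (S r)
  have e11 := mul_le_mul_of_nonneg_right hsmall hr4
  linarith

end Pool.Agent.N254.SQ
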