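import Pool.Agent.N254.SQ.StmP

/-!
Project SQ (helper254), leaf UNIQ: the characteristic does not depend on the representation near
infinity, up to a multiple of the logarithm. Written by helper645.
-/

set_option autoImplicit false

namespace Pool.Agent.N254.SQ

open Filter Topology Asymptotics ValueDistribution Metric Set MeromorphicOn Function Real
open Pool.Agent.N131.SR (Big NZ)
open Pool.Agent.W603.BP (Ext Ext_open Ext_nonempty tame_of Tame)

/-- equality off a discrete set in the exterior of a disc, near a point -/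
theorem uniq_near {a : ℝ} {p : ℂ → Prop} (h : ∀ᶠ z in codiscreteWithin (Ext a), p z) {z : ℂ}
    (hz : z ∈ Ext a) : ∀ᶠ w in 𝓝[≠] z, p w := by
  have h3 := (mem_codiscreteWithin_iff_forall_mem_nhdsNE.1 h) z hz
  filter_upwards [h3, nhdsWithin_le_nhds ((Ext_open a).mem_nhds hz)] with w hw hw2
  rcases hw with h4 | h4
  · exact h4
  · exact absurd hw2 h4

/-- finitely many poles -/
theorem uniq_fin {a : ℝ} {W V : ℂ → ℂ} (hW : Meromorphic W) (hV : AnalyticOnNhd ℂ V (Ext a))
    (h : ∀ᶠ z in codiscreteWithin (Ext a), W z = V z) :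
    ((divisor W univ)⁻).support.Finite := by
  have h1 : ((divisor W univ)⁻).support ⊆
      closedBall (0 : ℂ) a ∩ ((divisor W univ)⁻).support := by
    intro z hz
    refine ⟨?_, hz⟩
    by_contra hza
    have hz' : z ∈ Ext a := by
      rw [mem_closedBall, dist_zero_right, not_le] at hza
      exact hza
    apply hz
    change (divisor W univ z)⁻ = 0
    rw [divisor_apply hW.meromorphicOn (mem_univ z)]
    have h3 : 0 ≤ meromorphicOrderAt W z := by
      rw [meromorphicOrderAt_congr (uniq_near h hz')]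
      exact (hV z hz').meromorphicOrderAt_nonneg
    rw [negPart_eq_zero]
    rcases eq_or_ne (meromorphicOrderAt W z) ⊤ with h4 | h4
    · rw [h4]; simp
    · lift (meromorphicOrderAt W z) to ℤ using h4 with n hn
      simpa using h3
  have h2 := Function.locallyFinsupp.locallyFiniteSupport ((divisor W univ)⁻)
  exact (h2.finite_inter_support_of_isCompact (isCompact_closedBall (0 : ℂ) a)).subset h1

/-- the proximity function outside of a disc -/
theorem uniq_prox {a : ℝ} (ha : 1 ≤ a) {W V : ℂ → ℂ} (hW : Meromorphic W)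
    (h : ∀ᶠ z in codiscreteWithin (Ext a), W z = V z) {C : ℝ} (hC : 1 ≤ C) {κ : ℕ}
    (hb : ∀ z : ℂ, a + 1 ≤ ‖z‖ → ‖V z‖ ≤ C * ‖z‖ ^ κ) {r : ℝ} (hr : a + 1 ≤ r) :
    proximity W ⊤ r ≤ Real.log C + κ * Real.log r := by
  have hr0 : r ≠ 0 := by linarith
  have hr1 : 1 ≤ r := by linarith
  rw [proximity_top]
  have h2 : circleAverage (fun z => log⁺ ‖W z‖) 0 r ≤
      circleAverage (fun _ => Real.log C + κ * Real.log r) 0 r := by
    apply Pool.Agent.Helper160.Nev.circleAverage_mono_codiscrete hr0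
    · exact (hW.meromorphicOn).circleIntegrable_posLog_norm
    · exact circleIntegrable_const _ _ _
    · have h3 : ∀ᶠ w in codiscreteWithin (sphere (0:ℂ) |r|), W w = V w := by
        apply codiscreteWithin_mono _ h
        intro z hz
        rw [mem_sphere, dist_zero_right, abs_of_pos (by linarith)] at hz
        change a < ‖z‖
        linarith
      filter_upwards [h3, self_mem_codiscreteWithin _] with w hw hw2
      rw [mem_sphere, dist_zero_right, abs_of_pos (by linarith)] at hw2
      have h4 := hb w (by rw [hw2]; exact hr)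
      rw [hw2] at h4
      rw [hw]
      have h5 : (1 : ℝ) ≤ C * r ^ κ := one_le_mul_of_one_le_of_one_le hC (one_le_pow₀ hr1)
      calc log⁺ ‖V w‖ ≤ log⁺ (C * r ^ κ) := posLog_le_posLog (norm_nonneg _) h4
        _ = Real.log (C * r ^ κ) := posLog_eq_log (by rwa [abs_of_nonneg (by linarith)])
        _ = _ := by
          rw [Real.log_mul (by linarith) (by positivity), Real.log_pow]
  rwa [circleAverage_const] at h2

/-- a meromorphic function that is a unit of moderate growth outside of a disc -/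
theorem uniq_char {a : ℝ} (ha : 1 ≤ a) {W V : ℂ → ℂ} (hW : Meromorphic W) (hV : Tame a V)
    (h : ∀ᶠ z in codiscreteWithin (Ext a), W z = V z) :
    ∃ C : ℝ, ∀ r, 1 ≤ r → characteristic W ⊤ r ≤ C * (1 + Real.log r) := by
  obtain ⟨C, hC, κ, hb⟩ := hV.bd
  have h1 : logCounting W ⊤ =O[atTop] Real.log :=
    logCounting_isBigO_log_iff_finite_support.2 (uniq_fin hW hV.an h)
  obtain ⟨C', hC'0, hC'⟩ := h1.exists_pos
  rw [isBigOWith_iff, eventually_atTop] at hC'
  obtain ⟨r₁, hr₁⟩ := hC'
  set r₂ := max r₁ (a + 1) with hr₂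
  have h21 : r₁ ≤ r₂ := le_max_left _ _
  have h22 : a + 1 ≤ r₂ := le_max_right _ _
  have hlC : 0 ≤ Real.log C := Real.log_nonneg hC
  have hκ : (0 : ℝ) ≤ κ := Nat.cast_nonneg κ
  have key : ∀ r, r₂ ≤ r → characteristic W ⊤ r ≤ (Real.log C + κ + C') * (1 + Real.log r) := by
    intro r hr
    have h3 := uniq_prox ha hW h hC (fun z hz => (hb z hz).1) (h22.trans hr)
    have h4 := hr₁ r (h21.trans hr)
    have hr1 : 1 ≤ r := by linarith
    have h5 : 0 ≤ Real.log r := Real.log_nonneg hr1
    rw [Real.norm_eq_abs, Real.norm_eq_abs, abs_of_nonneg h5] at h4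
    have h6 := (le_abs_self _).trans h4
    have h7 : characteristic W ⊤ r = proximity W ⊤ r + logCounting W ⊤ r := rfl
    rw [h7]
    nlinarith [mul_nonneg hlC h5]
  refine ⟨(Real.log C + κ + C') * (1 + Real.log r₂), fun r hr => ?_⟩
  have h5 : 0 ≤ Real.log r := Real.log_nonneg hr
  have h6 : 0 ≤ Real.log r₂ := Real.log_nonneg (by linarith)
  have h8 : 0 ≤ Real.log C + κ + C' := by positivity
  rcases le_total r₂ r with h7 | h7
  · refine (key r h7).trans ?_
    nlinarith [mul_nonneg (mul_nonneg h8 h6) h5, mul_nonneg h8 h6]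
  · have h9 := characteristic_monotoneOn hW (mem_Ioi.2 (show 0 < r by linarith))
      (mem_Ioi.2 (show 0 < r₂ by linarith)) h7
    refine h9.trans ((key r₂ le_rfl).trans ?_)
    nlinarith [mul_nonneg (mul_nonneg h8 h6) h5, mul_nonneg h8 h5]

/-- the quotient of two of the units -/
theorem uniq_tame {a : ℝ} (ha : 1 ≤ a) (k k' : ℤ) {q q' : ℂ → ℂ}
    (hq : DifferentiableOn ℂ q (ball 0 a⁻¹)) (hq' : DifferentiableOn ℂ q' (ball 0 a⁻¹)) :
    ∃ V : ℂ → ℂ, Tame a V ∧ ∀ z ∈ Ext a, ∀ x y : ℂ,
      z ^ k * Complex.exp (q z⁻¹) * x = z ^ k' * Complex.exp (q' z⁻¹) * y → y = x * V z := by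
  refine ⟨_, tame_of ha (k - k') (hq.sub hq'), ?_⟩
  intro z hz x y hxy
  have hz0 : z ≠ 0 := by
    intro h
    have hz' : a < ‖z‖ := hz
    rw [h, norm_zero] at hz'
    linarith
  have e1 : z ^ (k - k') = z ^ k / z ^ k' := zpow_sub₀ hz0 k k'
  have e2 : Complex.exp ((q - q') z⁻¹) = Complex.exp (q z⁻¹) / Complex.exp (q' z⁻¹) := by
    rw [Pi.sub_apply, Complex.exp_sub]
  have e3 : z ^ k' ≠ 0 := zpow_ne_zero _ hz0
  have e4 : Complex.exp (q' z⁻¹) ≠ 0 := Complex.exp_ne_zero _
  simp only [e1, e2]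
  generalize Complex.exp (q' z⁻¹) = E' at hxy e4 ⊢
  generalize Complex.exp (q z⁻¹) = E at hxy ⊢
  generalize z ^ k' = Z' at hxy e3 ⊢
  generalize z ^ k = Z at hxy ⊢
  field_simp
  linear_combination -hxy

theorem uniq_mero {H : ℂ → ℂ} (h : QE H) : Meromorphic H := by
  obtain ⟨A, B, hA, hB, -, h1⟩ := h
  have h2 : H = A / B := funext h1
  rw [h2]
  exact (diff_mero hA).div (diff_mero hB)

/-- UNIQ: the characteristic does not depend on the representation -/
theorem t_uniq : Uniq_stm := by
  intro a h H H' ha hH hH'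
  obtain ⟨hQ, k, q, hq, h1⟩ := hH
  obtain ⟨hQ', k', q', hq', h1'⟩ := hH'
  have mH := uniq_mero hQ
  have mH' := uniq_mero hQ'
  obtain ⟨V, hV, hV1⟩ := uniq_tame ha k k' hq hq'
  have h2 : ∀ᶠ z in codiscreteWithin (Ext a), H' z = H z * V z := by
    filter_upwards [h1, h1', self_mem_codiscreteWithin _] with z hz hz' hz2
    exact hV1 z hz2 _ _ (hz.symm.trans hz')
  by_cases h0 : ∀ᶠ z in codiscrete ℂ, H z = 0
  · refine ⟨0, fun r hr => ?_⟩
    obtain ⟨x, hx⟩ := Ext_nonempty a
    have h3 : ∀ᶠ z in 𝓝[≠] x, H' z = 0 := by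
      filter_upwards [uniq_near h2 hx, codis_ev h0 x] with z hz hz2
      rw [hz, hz2, zero_mul]
    have h4 := mero_id mH' h3.frequently
    rw [char_zero h4 (by positivity)]
    have := char_nonneg H hr
    linarith
  · have h3 := mero_ne mH h0
    set W : ℂ → ℂ := fun z => H' z / H z with hW
    have mW : Meromorphic W := mH'.div mH
    have h4 : ∀ᶠ z in codiscreteWithin (Ext a), W z = V z := by
      have h5 : ∀ᶠ z in codiscreteWithin (Ext a), H z ≠ 0 :=
        codiscreteWithin_mono (subset_univ _) h3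
      filter_upwards [h2, h5] with z hz hz2
      rw [hW]
      simp only
      rw [hz, mul_div_cancel_left₀ _ hz2]
    obtain ⟨C, hC⟩ := uniq_char ha mW hV h4
    refine ⟨C, fun r hr => ?_⟩
    have h5 : ∀ᶠ z in codiscrete ℂ, H' z = H z * W z := by
      filter_upwards [h3] with z hz
      rw [hW]
      simp only
      rw [mul_div_cancel₀ _ hz]
    rw [char_le_of_congr h5 hr]
    exact (char_mul mH mW hr).trans (by linarith [hC r hr])

end Pool.Agent.N254.SQ
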