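import Pool.Agent.N254.SQ.StmP
import Pool.Agent.N254.SQ.Wr

/-!
# Ratios in a minimal linear relation of functions analytic near infinity (project SQ, leaf WRP)

helper427, after the file `Wr.lean` for entire functions.
-/

set_option autoImplicit false

namespace Pool.Agent.N254.SQ

open Filter Topology
open Pool.Agent.W603.BP (Ext Ext_open Ext_preconn Ext_nonempty wron_ne_loc)

theorem WrP_deriv {U : Set ℂ} (hU : IsOpen U) {f g : ℂ → ℂ} (h : ∀ z ∈ U, f z = g z) {z : ℂ}
    (hz : z ∈ U) : deriv f z = deriv g z :=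
  Filter.EventuallyEq.deriv_eq (by filter_upwards [hU.mem_nhds hz] with w hw using h w hw)

theorem WrP_iter {U : Set ℂ} {y : ℂ → ℂ} (hy : AnalyticOnNhd ℂ y U) (k : ℕ) :
    AnalyticOnNhd ℂ (iteratedDeriv k y) U := by
  induction k with
  | zero => rw [iteratedDeriv_zero]; exact hy
  | succ k ih => rw [iteratedDeriv_succ]; exact ih.deriv

theorem WrP_Eop {U : Set ℂ} {σ y : ℂ → ℂ} (hσ : AnalyticOnNhd ℂ σ U) (hy : AnalyticOnNhd ℂ y U)
    (k : ℕ) : AnalyticOnNhd ℂ (Eop σ k y) U := by
  induction k with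
  | zero => exact hy
  | succ k ih => exact ih.deriv.sub (hσ.mul ih)

theorem WrP_pp {U : Set ℂ} {φ : ℂ → ℂ} (hφ : AnalyticOnNhd ℂ φ U) (k : ℕ) :
    AnalyticOnNhd ℂ (pp φ k) U := by
  induction k with
  | zero => exact analyticOnNhd_const
  | succ k ih => exact ih.deriv.add (hφ.mul ih)

/-- the operators `(d/dz - σ) ^ k` in terms of the derivatives -/
theorem WrP_shift {U : Set ℂ} (hU : IsOpen U) {σ : ℂ → ℂ} (hσ : AnalyticOnNhd ℂ σ U) (k : ℕ) :
    ∃ T : ℕ → ℂ → ℂ, (∀ j, AnalyticOnNhd ℂ (T j) U) ∧ (T k = fun _ => 1) ∧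
      (∀ j, k < j → T j = fun _ => 0) ∧
      ∀ y : ℂ → ℂ, AnalyticOnNhd ℂ y U → ∀ z ∈ U,
        Eop σ k y z = ∑ j ∈ Finset.range (k + 1), T j z * iteratedDeriv j y z := by
  induction k with
  | zero =>
    refine ⟨fun j => if j = 0 then fun _ => 1 else fun _ => 0, ?_, ?_, ?_, ?_⟩
    · intro j
      beta_reduce
      split_ifs
      · exact analyticOnNhd_const
      · exact analyticOnNhd_const
    · simp
    · intro j hj
      beta_reduce
      rw [if_neg hj.ne']
    · intro y _ z _
      simp [Eop]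
  | succ k ih =>
    obtain ⟨T, hTm, hTk, hT0, hT⟩ := ih
    refine ⟨fun j z => deriv (T j) z + (if j = 0 then 0 else T (j - 1) z) - σ z * T j z,
      ?_, ?_, ?_, ?_⟩
    · intro j
      refine AnalyticOnNhd.sub (AnalyticOnNhd.add (hTm j).deriv ?_) (hσ.mul (hTm j))
      by_cases hj : j = 0
      · simp only [hj, if_true]
        exact analyticOnNhd_const
      · simp only [hj, if_false]
        exact hTm _
    · funext z
      beta_reduce
      rw [hT0 (k + 1) (Nat.lt_succ_self k)]
      simp [hTk]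
    · intro j hj
      funext z
      beta_reduce
      rw [hT0 j (by omega)]
      have h1 : j ≠ 0 := by omega
      simp only [h1, if_false]
      rw [hT0 (j - 1) (by omega)]
      simp
    · intro y hy z hz
      have hit : ∀ j, AnalyticOnNhd ℂ (iteratedDeriv j y) U := fun j => WrP_iter hy j
      have e1 := hT y hy z hz
      have e2 := WrP_deriv hU (hT y hy) hz
      have e3 : deriv (fun z => ∑ j ∈ Finset.range (k + 1), T j z * iteratedDeriv j y z) z =
          ∑ j ∈ Finset.range (k + 1), deriv (fun z => T j z * iteratedDeriv j y z) z :=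
        deriv_fun_sum fun j _ => ((hTm j z hz).differentiableAt.mul (hit j z hz).differentiableAt)
      have e4 : ∀ j ∈ Finset.range (k + 1),
          deriv (fun z => T j z * iteratedDeriv j y z) z =
            deriv (T j) z * iteratedDeriv j y z + T j z * deriv (iteratedDeriv j y) z := fun j _ =>
        deriv_fun_mul (hTm j z hz).differentiableAt (hit j z hz).differentiableAt
      change deriv (Eop σ k y) z - σ z * Eop σ k y z = _
      rw [e2, e3, e1, Finset.sum_congr rfl e4, Finset.sum_add_distrib]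
      have e5 : ∑ j ∈ Finset.range (k + 1 + 1), (deriv (T j) z + (if j = 0 then 0 else T (j - 1) z) -
          σ z * T j z) * iteratedDeriv j y z =
          ∑ j ∈ Finset.range (k + 1 + 1), (deriv (T j) z - σ z * T j z) * iteratedDeriv j y z +
          ∑ j ∈ Finset.range (k + 1 + 1), (if j = 0 then 0 else T (j - 1) z) *
            iteratedDeriv j y z := by
        rw [← Finset.sum_add_distrib]
        exact Finset.sum_congr rfl fun j _ => by ring
      rw [e5, Finset.sum_range_succ (fun j => (deriv (T j) z - σ z * T j z) * iteratedDeriv j y z),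
        Finset.sum_range_succ' (fun j => (if j = 0 then 0 else T (j - 1) z) * iteratedDeriv j y z)]
      rw [hT0 (k + 1) (Nat.lt_succ_self k)]
      simp only [deriv_const, mul_zero, sub_zero, zero_mul, add_zero, if_true,
        Nat.add_sub_cancel, Nat.succ_ne_zero, if_false]
      have e6 : ∀ j, iteratedDeriv (j + 1) y = deriv (iteratedDeriv j y) := fun j =>
        iteratedDeriv_succ
      simp only [e6]
      rw [Finset.mul_sum]
      have e7 : ∑ j ∈ Finset.range (k + 1), (deriv (T j) z - σ z * T j z) * iteratedDeriv j y z =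
          ∑ j ∈ Finset.range (k + 1), deriv (T j) z * iteratedDeriv j y z -
          ∑ j ∈ Finset.range (k + 1), σ z * (T j z * iteratedDeriv j y z) := by
        rw [← Finset.sum_sub_distrib]
        exact Finset.sum_congr rfl fun j _ => by ring
      rw [e7]
      ring

/-- the determinant does not depend on the gauge -/
theorem WrP_det_shift {n : ℕ} {U : Set ℂ} (hU : IsOpen U) {σ : ℂ → ℂ} (hσ : AnalyticOnNhd ℂ σ U)
    {y : Fin n → ℂ → ℂ} (hy : ∀ l, AnalyticOnNhd ℂ (y l) U) {z : ℂ} (hzU : z ∈ U) :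
      (Matrix.of fun l k : Fin n => Eop σ k (y l) z).det =
        (Matrix.of fun l k : Fin n => iteratedDeriv k (y l) z).det := by
  choose T hTm hTk hT0 hT using fun k => WrP_shift hU hσ k
  have hz : ∀ l : Fin n, ∀ k : Fin n,
      Eop σ k (y l) z = ∑ j ∈ Finset.range (k + 1), T k j z * iteratedDeriv j (y l) z :=
    fun l k => hT k (y l) (hy l) z hzU
  have h2 : (Matrix.of fun l k : Fin n => Eop σ k (y l) z) =
      (Matrix.of fun l k : Fin n => iteratedDeriv k (y l) z) *
        (Matrix.of fun j k : Fin n => T k j z) := by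
    ext l k
    rw [Matrix.mul_apply, Matrix.of_apply, hz]
    simp only [Matrix.of_apply]
    rw [Fin.sum_univ_eq_sum_range (fun j => iteratedDeriv j (y l) z * T k j z) n]
    have h5 : ∑ j ∈ Finset.range ((k : ℕ) + 1), iteratedDeriv j (y l) z * T k j z =
        ∑ j ∈ Finset.range n, iteratedDeriv j (y l) z * T k j z := by
      apply Finset.sum_subset
      · intro j hj
        rw [Finset.mem_range] at hj ⊢
        have := k.2
        omega
      · intro j _ hj
        rw [Finset.mem_range] at hj
        rw [hT0 k j (by omega), mul_zero]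
    rw [← h5]
    exact Finset.sum_congr rfl fun j _ => mul_comm _ _
  have h3 : (Matrix.of fun j k : Fin n => T k j z).det = 1 := by
    rw [Matrix.det_of_isUpperTriangular]
    · apply Finset.prod_eq_one
      intro k _
      rw [Matrix.of_apply, hTk]
    · intro j k hjk
      have h4 : (k : ℕ) < j := by simpa using hjk
      rw [Matrix.of_apply, hT0 k j h4]
  rw [h2, Matrix.det_mul, h3, mul_one]

/-- `(d/dz - s'/s) ^ k u = u P_k(φ)`, `φ = (u/s)'/(u/s)` -/
theorem WrP_key {U : Set ℂ} (hU : IsOpen U) {u s : ℂ → ℂ} (hu : AnalyticOnNhd ℂ u U)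
    (hs : AnalyticOnNhd ℂ s U) (hu0 : ∀ z ∈ U, u z ≠ 0) (hs0 : ∀ z ∈ U, s z ≠ 0) (k : ℕ) :
    ∀ z ∈ U, Eop (logDeriv s) k u z = u z * pp (logDeriv fun w => u w / s w) k z := by
  have hq : AnalyticOnNhd ℂ (fun w => u w / s w) U := hu.div hs hs0
  have hφ : AnalyticOnNhd ℂ (logDeriv fun w => u w / s w) U :=
    hq.deriv.div hq fun z hz => div_ne_zero (hu0 z hz) (hs0 z hz)
  induction k with
  | zero =>
    intro z _
    change u z = u z * 1
    rw [mul_one]
  | succ k ih =>
    intro z hz
    have e1 := ih z hz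
    have e2 := WrP_deriv hU ih hz
    have e3 : deriv (fun z => u z * pp (logDeriv fun w => u w / s w) k z) z =
        deriv u z * pp (logDeriv fun w => u w / s w) k z +
          u z * deriv (pp (logDeriv fun w => u w / s w) k) z :=
      deriv_fun_mul (hu z hz).differentiableAt (WrP_pp hφ k z hz).differentiableAt
    have e4 := hu0 z hz
    have e5 := hs0 z hz
    change deriv (Eop (logDeriv s) k u) z - logDeriv s z * Eop (logDeriv s) k u z =
      u z * (deriv (pp (logDeriv fun w => u w / s w) k) z +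
        logDeriv (fun w => u w / s w) z * pp (logDeriv fun w => u w / s w) k z)
    rw [e2, e3, e1]
    have e6 : logDeriv (fun w => u w / s w) z = logDeriv u z - logDeriv s z :=
      logDeriv_div z e4 e5 (hu z hz).differentiableAt (hs z hz).differentiableAt
    rw [e6]
    have e7 : deriv u z = u z * logDeriv u z := by
      rw [logDeriv_apply]
      field_simp
    rw [e7]
    ring

theorem t_wrp : WrP_stm := by
  classical
  intro R hR m u s hu hs hs0 a ha hrel hmin i j
  have hconn : IsConnected (Ext R) := ⟨Ext_nonempty R, Ext_preconn hR⟩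
  -- no function vanishes identically
  have hu0 : ∀ l, ∃ z ∈ Ext R, u l z ≠ 0 := by
    intro l
    by_contra hcon
    push Not at hcon
    obtain ⟨c, hc⟩ := hmin (Pi.single l 1) (fun z hz => by
      apply Finset.sum_eq_zero
      intro l' _
      by_cases h : l' = l
      · subst h
        rw [hcon z hz, mul_zero]
      · rw [Pi.single_eq_of_ne h, zero_mul])
    obtain ⟨l', hl'⟩ : ∃ l' : Fin (m + 2), l' ≠ l := exists_ne l
    have h1 := congrFun hc l'
    rw [Pi.single_eq_of_ne hl', Pi.smul_apply, smul_eq_mul] at h1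
    have h2 : c = 0 := (mul_eq_zero.1 h1.symm).resolve_right (ha l')
    have h3 := congrFun hc l
    rw [Pi.single_eq_same, Pi.smul_apply, smul_eq_mul, h2, zero_mul] at h3
    exact one_ne_zero h3
  -- the open set where nothing vanishes
  set G : Set ℂ := {z | z ∈ Ext R ∧ s z ≠ 0 ∧ ∀ l, u l z ≠ 0} with hG
  have hGR : G ⊆ Ext R := fun z hz => hz.1
  have hGo : IsOpen G := by
    rw [isOpen_iff_mem_nhds]
    rintro z ⟨h1, h2, h3⟩
    have h4 : ∀ᶠ w in 𝓝 z, ∀ l, u l w ≠ 0 := by
      rw [eventually_all]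
      exact fun l => (hu l z h1).continuousAt.eventually_ne (h3 l)
    filter_upwards [(Ext_open R).mem_nhds h1, (hs z h1).continuousAt.eventually_ne h2, h4] with w a1 a2 a3
    exact ⟨a1, a2, a3⟩
  have huG : ∀ l, AnalyticOnNhd ℂ (u l) G := fun l => (hu l).mono hGR
  have hsG : AnalyticOnNhd ℂ s G := hs.mono hGR
  have hσ : AnalyticOnNhd ℂ (logDeriv s) G := hsG.deriv.div hsG fun z hz => hz.2.1
  have hrel' : ∀ k : ℕ, ∀ z ∈ G, ∑ l, Eop (logDeriv s) k (u l) z * a l = 0 := by
    intro k
    induction k with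
    | zero =>
      intro z hz
      rw [← hrel z hz.1]
      exact Finset.sum_congr rfl fun l _ => mul_comm _ _
    | succ k ih =>
      intro z hz
      have e1 := ih z hz
      have e2 := WrP_deriv (g := fun _ => (0:ℂ)) hGo ih hz
      have e3 : deriv (fun z => ∑ l, Eop (logDeriv s) k (u l) z * a l) z =
          ∑ l, deriv (fun z => Eop (logDeriv s) k (u l) z * a l) z :=
        deriv_fun_sum fun l _ => (WrP_Eop hσ (huG l) k z hz).differentiableAt.mul_const _
      rw [e3, deriv_const] at e2
      have e4 : ∑ l, Eop (logDeriv s) (k + 1) (u l) z * a l =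
          ∑ l, deriv (fun z => Eop (logDeriv s) k (u l) z * a l) z -
            logDeriv s z * ∑ l, Eop (logDeriv s) k (u l) z * a l := by
        rw [Finset.mul_sum, ← Finset.sum_sub_distrib]
        refine Finset.sum_congr rfl fun l _ => ?_
        rw [deriv_mul_const_field]
        change (deriv (Eop (logDeriv s) k (u l)) z - logDeriv s z * Eop (logDeriv s) k (u l) z) *
          a l = _
        ring
      rw [e4, e1, e2, mul_zero, sub_zero]
  -- the Wronskian does not vanish
  have hW : ∀ᶠ z in codiscreteWithin (Ext R),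
      (Matrix.of fun l k : Fin (m + 1) => iteratedDeriv k (u (j.succAbove l)) z).det ≠ 0 := by
    obtain ⟨x, hx, hx0⟩ := wron_ne_loc (Ext_open R) (Ext_preconn hR) (Ext_nonempty R)
      (fun l : Fin (m + 1) => u (j.succAbove l)) (fun l => hu _) (by
      intro c hc
      obtain ⟨e, he⟩ := hmin (j.insertNth 0 c) (fun z hz => by
        rw [Fin.sum_univ_succAbove _ j]
        simp only [Fin.insertNth_apply_same, Fin.insertNth_apply_succAbove, zero_mul, zero_add]
        exact hc z hz)
      have h1 := congrFun he j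
      rw [Fin.insertNth_apply_same, Pi.smul_apply, smul_eq_mul] at h1
      have h2 : e = 0 := (mul_eq_zero.1 h1.symm).resolve_right (ha j)
      funext l
      have h3 := congrFun he (j.succAbove l)
      rw [Fin.insertNth_apply_succAbove, Pi.smul_apply, smul_eq_mul, h2, zero_mul] at h3
      exact h3)
    have han : AnalyticOnNhd ℂ (fun z => (Matrix.of fun l k : Fin (m + 1) =>
        iteratedDeriv k (u (j.succAbove l)) z).det) (Ext R) := by
      simp only [Matrix.det_apply]
      intro z hz
      refine Finset.analyticAt_fun_sum _ fun τ _ => AnalyticAt.const_smul ?_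
      refine Finset.analyticAt_fun_prod _ fun l _ => ?_
      exact WrP_iter (hu _) _ z hz
    exact han.preimage_zero_mem_codiscreteWithin hx0 hx hconn
  have hne : ∀ᶠ z in codiscreteWithin (Ext R), ∀ l : Fin (m + 2), u l z ≠ 0 := by
    rw [eventually_all]
    intro l
    obtain ⟨x, hx, hx0⟩ := hu0 l
    exact (hu l).preimage_zero_mem_codiscreteWithin hx0 hx hconn
  have hsne : ∀ᶠ z in codiscreteWithin (Ext R), s z ≠ 0 := by
    obtain ⟨x, hx, hx0⟩ := hs0
    exact hs.preimage_zero_mem_codiscreteWithin hx0 hx hconn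
  have hin : ∀ᶠ z in codiscreteWithin (Ext R), z ∈ Ext R := self_mem_codiscreteWithin _
  have ha0 : a ≠ 0 := fun h => ha 0 (congrFun h 0)
  refine ⟨(-1) ^ (i : ℕ) * (-1) ^ (j : ℕ) * a j / a i, ?_⟩
  filter_upwards [hW, hne, hsne, hin] with z e1 e4 hsz hzR
  have hzG : z ∈ G := ⟨hzR, hsz, e4⟩
  have e2 : ∀ k : Fin (m + 1), ∑ l, Eop (logDeriv s) k (u l) z * a l = 0 := fun k => hrel' k z hzG
  have e3 : ∀ k : Fin (m + 1), ∀ l : Fin (m + 2),
      Eop (logDeriv s) k (u l) z = u l z * pp (logDeriv fun w => u l w / s w) k z := fun k l =>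
    WrP_key hGo (huG l) hsG (fun w hw => hw.2.2 l) (fun w hw => hw.2.1) k z hzG
  have e5 := WrP_det_shift hGo hσ (y := fun l : Fin (m + 1) => u (j.succAbove l)) (fun l => huG _) hzG
  have hfac : ∀ i : Fin (m + 2), (Matrix.of fun l k : Fin (m + 1) =>
      Eop (logDeriv s) k (u (i.succAbove l)) z).det = (∏ l, u (i.succAbove l) z) *
        (Matrix.of fun l k : Fin (m + 1) =>
          pp (logDeriv fun w => u (i.succAbove l) w / s w) k z).det := by
    intro i
    rw [← Matrix.det_mul_column]
    congr 1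
    ext l k
    simp only [Matrix.of_apply]
    exact e3 k _
  have hcr := wr_cramer (fun k l => Eop (logDeriv s) k (u l) z) a ha0 e2 i j
  have htr : ∀ i : Fin (m + 2), (Matrix.of fun k l : Fin (m + 1) =>
      Eop (logDeriv s) k (u (i.succAbove l)) z).det = (Matrix.of fun l k : Fin (m + 1) =>
      Eop (logDeriv s) k (u (i.succAbove l)) z).det := by
    intro i
    rw [← Matrix.det_transpose]
    rfl
  rw [htr, htr, hfac, hfac] at hcr
  rw [← e5, hfac] at e1
  set Δi := (Matrix.of fun l k : Fin (m + 1) =>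
          pp (logDeriv fun w => u (i.succAbove l) w / s w) k z).det with hΔi
  set Δj := (Matrix.of fun l k : Fin (m + 1) =>
          pp (logDeriv fun w => u (j.succAbove l) w / s w) k z).det with hΔj
  have hΔ : Δj ≠ 0 := right_ne_zero_of_mul e1
  have hPi : u i z * ∏ l, u (i.succAbove l) z = ∏ l, u l z :=
    (Fin.prod_univ_succAbove (fun l => u l z) i).symm
  have hPj : u j z * ∏ l, u (j.succAbove l) z = ∏ l, u l z :=
    (Fin.prod_univ_succAbove (fun l => u l z) j).symm
  have hP : ∏ l, u l z ≠ 0 := Finset.prod_ne_zero_iff.2 fun l _ => e4 l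
  have hkey : (∏ l, u l z) * ((-1) ^ (i : ℕ) * a j * u j z * Δi) =
      (∏ l, u l z) * ((-1) ^ (j : ℕ) * a i * u i z * Δj) := by
    have e6 : u i z * u j z * ((-1) ^ (i : ℕ) * a j * ((∏ l, u (i.succAbove l) z) * Δi)) =
        u i z * u j z * ((-1) ^ (j : ℕ) * a i * ((∏ l, u (j.succAbove l) z) * Δj)) := by
      rw [hcr]
    calc (∏ l, u l z) * ((-1) ^ (i : ℕ) * a j * u j z * Δi)
        = (u i z * ∏ l, u (i.succAbove l) z) * ((-1) ^ (i : ℕ) * a j * u j z * Δi) := by rw [hPi]
      _ = u i z * u j z * ((-1) ^ (i : ℕ) * a j * ((∏ l, u (i.succAbove l) z) * Δi)) := by ring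
      _ = _ := e6
      _ = (u j z * ∏ l, u (j.succAbove l) z) * ((-1) ^ (j : ℕ) * a i * u i z * Δj) := by ring
      _ = _ := by rw [hPj]
  have hkey2 := mul_left_cancel₀ hP hkey
  have hui := e4 i
  have huj := e4 j
  have hai := ha i
  have hsq : ((-1 : ℂ) ^ (j : ℕ)) * (-1) ^ (j : ℕ) = 1 := by
    rw [← mul_pow]; norm_num
  rw [div_mul_div_comm, div_eq_div_iff huj (mul_ne_zero hai hΔ)]
  calc u i z * (a i * Δj) = (((-1 : ℂ) ^ (j : ℕ)) * (-1) ^ (j : ℕ)) * (u i z * (a i * Δj)) := by
        rw [hsq, one_mul]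
    _ = (-1) ^ (j : ℕ) * ((-1) ^ (j : ℕ) * a i * u i z * Δj) := by ring
    _ = (-1) ^ (j : ℕ) * ((-1) ^ (i : ℕ) * a j * u j z * Δi) := by rw [hkey2]
    _ = _ := by ring

end Pool.Agent.N254.SQ
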