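import Mathlib
import Pool.Agent.N254.SQ.Fin
import Pool.Agent.N254.SQ.Geo2
import Pool.Agent.N254.SQ.GTA
import Pool.Agent.N254.SQ.GT
import Pool.Agent.N254.SQ.Uniq
import Pool.Agent.N254.SQ.LePAlg
import Pool.Agent.N254.SQ.Moder
import Pool.Agent.N254.SQ.LePAdd
import Pool.Agent.N254.SQ.LePDer
import Pool.Agent.N254.SQ.LePDet
import Pool.Agent.N254.SQ.WrP
import Pool.Agent.N254.SQ.RatP
import Pool.Agent.N254.SQ.Filt
import Pool.Agent.N254.SQ.RepAn
import Pool.Agent.N254.SQ.SizeP

/-!
All leaves of the second part of project SQ.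
-/

set_option autoImplicit false

namespace Pool.Agent.N254.SQ

theorem t_pic : SizeP_stm :=
  have hA : LePAlg := t_lepalg t_uniq
  have hD : LePDer_stm := t_lepder hA t_lepadd t_moder
  t_sizep t_circ hA t_lepadd hD (t_lepdet hA t_lepadd hD) t_wrp t_repan t_uniq t_ratp t_filt

theorem leaves4 : Leaves4 where
  toLeaves := leaves
  gt := t_gt t_gta t_circ
  pic := t_pic

end Pool.Agent.N254.SQ
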