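import Pool.Agent.N254.SQ.StmQ
import Pool.Agent.W603.BP.MGerm

/-!
Project SQ: generic points of analytic curves (helper887).
-/

set_option autoImplicit false

namespace Pool.Agent.N254.SQ

open MvPolynomial Filter Topology Metric
open Pool.Agent.W602.GT (coords)
open Pool.Agent.W603.BP (Gm gm gm_eq gm_eq_zero MG mem_MG)

/-! ### the algebra of germs over `ℂ` -/

/-- constants -/
noncomputable def genPt_const : ℂ →+* MG where
  toFun c := ⟨gm (fun _ => c), fun _ => c, MeromorphicAt.const c 0, rfl⟩
  map_one' := Subtype.ext (map_one gm)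
  map_mul' a b := Subtype.ext (map_mul gm (fun _ => a) (fun _ => b))
  map_zero' := Subtype.ext (map_zero gm)
  map_add' a b := Subtype.ext (map_add gm (fun _ => a) (fun _ => b))

/-- polynomials in functions -/
noncomputable def genPt_ev {n : ℕ} (F : ℂ → Fin (n + 1) → ℂ) :
    MvPolynomial (Fin (n + 1)) ℂ →+* (ℂ → ℂ) where
  toFun p := fun w => eval (F w) p
  map_one' := by funext w; simp
  map_mul' a b := by funext w; simp
  map_zero' := by funext w; simp
  map_add' a b := by funext w; simp

/-- homogeneous polynomials and scaling -/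
lemma genPt_hom {n e : ℕ} {p : MvPolynomial (Fin (n + 1)) ℂ} (hp : p.IsHomogeneous e) (c : ℂ)
    (x : Fin (n + 1) → ℂ) : eval (fun j => c * x j) p = c ^ e * eval x p := by
  rw [eval_eq, eval_eq, Finset.mul_sum]
  refine Finset.sum_congr rfl fun d hd => ?_
  have h1 : ∑ i, d i = e := by
    have h2 := hp (mem_support_iff.1 hd)
    rw [Finsupp.weight_apply, Finsupp.sum_fintype] at h2
    · simpa using h2
    · intro i
      simp
  have h2 : ∏ i ∈ d.support, (c * x i) ^ d i = c ^ e * ∏ i ∈ d.support, x i ^ d i := by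
    simp only [mul_pow]
    rw [Finset.prod_mul_distrib, Finset.prod_pow_eq_pow_sum]
    congr 2
    rw [← h1]
    refine Finset.sum_subset (Finset.subset_univ _) fun i _ hi => ?_
    simpa using hi
  rw [h2]
  ring

section

variable {n : ℕ} (t : Fin (n + 1) → MG) (F : ℂ → Fin (n + 1) → ℂ)
  (ht : ∀ j, (t j : Gm) = gm fun w => F w j)

include ht in
lemma genPt_aeval [Algebra ℂ MG] (hA : algebraMap ℂ MG = genPt_const)
    (p : MvPolynomial (Fin (n + 1)) ℂ) : ((aeval t p : MG) : Gm) = gm fun w => eval (F w) p := by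
  have h1 : (MG.subtype.comp (aeval t : MvPolynomial (Fin (n + 1)) ℂ →ₐ[ℂ] MG).toRingHom) =
      gm.comp (genPt_ev F) := by
    refine MvPolynomial.ringHom_ext ?_ ?_
    · intro c
      have h2 : aeval t (C c : MvPolynomial (Fin (n + 1)) ℂ) = genPt_const c := by
        rw [← hA, aeval_C]
      have h3 : genPt_ev F (C c) = fun _ => c := by
        funext w
        simp [genPt_ev]
      change ((aeval t (C c : MvPolynomial (Fin (n + 1)) ℂ) : MG) : Gm) = gm (genPt_ev F (C c))
      rw [h2, h3]
      rfl
    · intro j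
      have h3 : genPt_ev F (X j) = fun w => F w j := by
        funext w
        simp [genPt_ev]
      change ((aeval t (X j : MvPolynomial (Fin (n + 1)) ℂ) : MG) : Gm) = gm (genPt_ev F (X j))
      rw [h3, aeval_X, ht j]
  exact congrArg (fun φ : MvPolynomial (Fin (n + 1)) ℂ →+* Gm => φ p) h1

end

theorem t_genpt : GenPt_stm := by
  intro n U f hU hUc hf hne
  obtain ⟨z0, hz0, hfz0⟩ := hne
  obtain ⟨a, ha⟩ : ∃ a, f z0 a ≠ 0 := by
    by_contra! h
    exact hfz0 (funext h)
  -- analyticity
  have hfj : ∀ j, DifferentiableOn ℂ (fun z => f z j) U := fun j =>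
    (differentiableOn_pi.1 hf) j
  have hUn : ∀ᶠ w in 𝓝 (0 : ℂ), z0 + w ∈ U := by
    have h1 : Tendsto (fun w : ℂ => z0 + w) (𝓝 0) (𝓝 z0) := by
      have : Continuous fun w : ℂ => z0 + w := by fun_prop
      simpa using this.tendsto 0
    exact h1 (hU.mem_nhds hz0)
  have han : ∀ j, AnalyticAt ℂ (fun w => f (z0 + w) j) 0 := by
    intro j
    have h1 : AnalyticAt ℂ (fun z => f z j) (z0 + 0) := by
      rw [add_zero]
      exact (hfj j).analyticAt (hU.mem_nhds hz0)
    have h2 : AnalyticAt ℂ (fun w : ℂ => z0 + w) 0 := by fun_prop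
    exact h1.comp h2
  have hne0 : ∀ᶠ w in 𝓝 (0 : ℂ), f (z0 + w) a ≠ 0 := by
    have h1 := (han a).continuousAt
    refine h1.eventually_ne ?_
    simpa using ha
  -- the functions
  obtain ⟨F, hF⟩ : ∃ F : ℂ → Fin (n + 1) → ℂ, F = fun w j => (f (z0 + w) a)⁻¹ * f (z0 + w) j :=
    ⟨_, rfl⟩
  have hmer : ∀ j, MeromorphicAt (fun w => F w j) 0 := by
    intro j
    rw [hF]
    exact ((han a).meromorphicAt.inv).mul (han j).meromorphicAt
  let _ : Algebra ℂ MG := genPt_const.toAlgebra
  have hA : algebraMap ℂ MG = genPt_const := rfl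
  obtain ⟨t, ht⟩ : ∃ t : Fin (n + 1) → MG, ∀ j, (t j : Gm) = gm fun w => F w j :=
    ⟨fun j => ⟨gm fun w => F w j, _, hmer j, rfl⟩, fun j => rfl⟩
  have hta : t a = 1 := by
    apply Subtype.ext
    rw [ht a]
    change _ = (1 : Gm)
    rw [← map_one gm, gm_eq]
    filter_upwards [hne0.filter_mono nhdsWithin_le_nhds] with w hw
    rw [hF]
    exact inv_mul_cancel₀ hw
  obtain ⟨L, hL⟩ : ∃ L : IntermediateField ℂ MG, L = IntermediateField.adjoin ℂ (Set.range t) :=
    ⟨_, rfl⟩
  have htL : ∀ j, t j ∈ L := fun j => by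
    rw [hL]
    exact IntermediateField.subset_adjoin _ _ ⟨j, rfl⟩
  obtain ⟨y, hy⟩ : ∃ y : Fin (n + 1) → L, ∀ j, (y j : MG) = t j := ⟨fun j => ⟨t j, htL j⟩, fun _ => rfl⟩
  have hya : y a = 1 := Subtype.ext (by rw [hy, hta]; rfl)
  have hfin : Algebra.EssFiniteType ℂ L := by
    rw [IntermediateField.essFiniteType_iff, hL]
    exact IntermediateField.fg_adjoin_of_finite (Set.finite_range t)
  have htr : Algebra.trdeg ℂ L < Cardinal.aleph0 := trdeg_lt_aleph0 ℂ L
  obtain ⟨w, hw⟩ := Cardinal.lt_aleph0.1 htr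
  -- the forms
  have hform : ∀ p : MvPolynomial (Fin (n + 1)) ℂ, Fm p →
      (aeval y p = 0 ↔ ∀ z ∈ U, eval (f z) p = 0) := by
    rintro p ⟨e, hp⟩
    have h1 : ((aeval y p : L) : MG) = aeval t p := by
      have h2 : (aeval t : MvPolynomial (Fin (n + 1)) ℂ →ₐ[ℂ] MG) =
          L.val.comp (aeval y : MvPolynomial (Fin (n + 1)) ℂ →ₐ[ℂ] L) := by
        apply MvPolynomial.algHom_ext
        intro j
        simp [hy]
      rw [h2]
      rfl
    have h3 : aeval y p = 0 ↔ ∀ᶠ w in 𝓝[≠] (0 : ℂ), eval (F w) p = 0 := by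
      rw [← gm_eq_zero, ← genPt_aeval t F ht hA p, ← h1]
      constructor
      · intro h
        rw [h]
        rfl
      · intro h
        apply Subtype.ext
        apply Subtype.ext
        exact h
    rw [h3]
    have h4 : ∀ w, eval (F w) p = (f (z0 + w) a)⁻¹ ^ e * eval (f (z0 + w)) p := by
      intro w
      rw [hF]
      exact genPt_hom hp _ _
    constructor
    · intro h
      have h5 : ∀ᶠ w in 𝓝[≠] (0 : ℂ), eval (f (z0 + w)) p = 0 := by
        filter_upwards [h, hne0.filter_mono nhdsWithin_le_nhds] with w hw1 hw2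
        rw [h4] at hw1
        exact (mul_eq_zero.1 hw1).resolve_left (pow_ne_zero _ (inv_ne_zero hw2))
      have h6 : ∀ᶠ z in 𝓝[≠] z0, eval (f z) p = 0 := by
        have h7 : Tendsto (fun z : ℂ => z - z0) (𝓝[≠] z0) (𝓝[≠] 0) := by
          rw [tendsto_nhdsWithin_iff]
          constructor
          · have : Continuous fun z : ℂ => z - z0 := by fun_prop
            have h8 := this.tendsto z0
            rw [sub_self] at h8
            exact h8.mono_left nhdsWithin_le_nhds
          · filter_upwards [self_mem_nhdsWithin] with z hz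
            exact sub_ne_zero.2 hz
        filter_upwards [h7.eventually h5] with z hz
        simpa using hz
      have h8 : AnalyticOnNhd ℂ (fun z => eval (f z) p) U := by
        apply DifferentiableOn.analyticOnNhd _ hU
        have h9 : (fun z => eval (f z) p) = fun z => ∑ d ∈ p.support, p.coeff d *
            ∏ i, f z i ^ d i := by
          funext z
          rw [eval_eq']
        rw [h9]
        refine DifferentiableOn.fun_sum fun d _ => ?_
        refine DifferentiableOn.const_mul ?_ _
        refine DifferentiableOn.fun_finsetProd fun i _ => ?_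
        exact (hfj i).pow _
      exact fun z hz => h8.eqOn_zero_of_preconnected_of_frequently_eq_zero hUc hz0 h6.frequently hz
    · intro h
      filter_upwards [hUn.filter_mono nhdsWithin_le_nhds] with w hw
      rw [h4, h _ hw, mul_zero]
  refine ⟨L, inferInstance, inferInstance, w, y, ⟨?_, ?_, hw⟩, hform, ?_⟩
  · intro h
    rw [h] at hya
    exact zero_ne_one hya
  · -- generators
    apply IntermediateField.lift_injective L
    rw [IntermediateField.lift_top]
    apply le_antisymm
    · exact IntermediateField.lift_le _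
    · have h1 : IntermediateField.adjoin ℂ (Set.range t) ≤
          IntermediateField.lift (coords ℂ y) := by
        rw [IntermediateField.adjoin_le_iff]
        rintro _ ⟨j, rfl⟩
        have h2 : y j ∈ coords ℂ y := by
          refine IntermediateField.subset_adjoin _ _ ⟨j, a, ?_, ?_⟩
          · rw [hya]
            exact one_ne_zero
          · rw [hya, div_one]
        have h3 := (IntermediateField.mem_lift (y j)).2 h2
        rw [hy j] at h3
        exact h3
      exact hL.le.trans h1
  · intro hw0 z hz z' hz' i j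
    have h1 : Algebra.IsAlgebraic ℂ L := by
      rw [← trdeg_eq_zero_iff, hw, hw0]
      rfl
    have h2 : ∀ j, ∃ c : ℂ, ∀ z ∈ U, f z j = c * f z a := by
      intro j
      obtain ⟨c, hc⟩ := (IsAlgClosed.algebraMap_bijective_of_isIntegral (k := ℂ) (K := L)).2 (y j)
      refine ⟨c, fun z hz => ?_⟩
      have h3 : Fm (X j - C c * X a : MvPolynomial (Fin (n + 1)) ℂ) := by
        refine ⟨1, (isHomogeneous_X ℂ j).sub ?_⟩
        have := (isHomogeneous_C (Fin (n + 1)) c).mul (isHomogeneous_X ℂ a)
        simpa using this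
      have h4 := (hform _ h3).1 (by
        simp [hya, hc]) z hz
      simp only [map_sub, map_mul, eval_X, eval_C] at h4
      linear_combination h4
    obtain ⟨c, hc⟩ := h2 i
    obtain ⟨d, hd⟩ := h2 j
    rw [hc z hz, hd z' hz', hd z hz, hc z' hz']
    ring

end Pool.Agent.N254.SQ
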