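import Mathlib
import Pool.Agent.W602.GT.SpDefs

/-!
Exceptional loci of projective varieties, smooth hypersurfaces, Veronese maps: definitions.
-/

set_option autoImplicit false

namespace Pool.Agent.N254.SQ

open MvPolynomial Metric
open Pool.Agent.W602.GT (SubVar GeneralType)

/-- homogeneous polynomials -/
def IsForm {n : ℕ} (G : MvPolynomial (Fin (n + 1)) ℂ) : Prop := ∃ e, G.IsHomogeneous e

/-- all forms vanishing at the point `y` with coordinates in a field extension: the equations of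
the irreducible closed set with generic point `y` -/
def Eqs {n : ℕ} {L : Type} [Field L] [Algebra ℂ L] (y : Fin (n + 1) → L) :
    Set (MvPolynomial (Fin (n + 1)) ℂ) := {p | IsForm p ∧ aeval y p = 0}

/-- the holomorphic map from the punctured disc to `P^n` with the vector of homogeneous coordinates
`f` (holomorphic and not all identically zero) extends across the puncture -/
def Extends {n : ℕ} (f : ℂ → Fin (n + 1) → ℂ) : Prop :=
  ∃ ε : ℝ, 0 < ε ∧ ∃ g : ℂ → Fin (n + 1) → ℂ, DifferentiableOn ℂ g (ball 0 ε) ∧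
    (∀ w ∈ ball (0 : ℂ) ε, g w ≠ 0) ∧ ∀ w ∈ ball (0 : ℂ) ε \ {0}, ∃ c : ℂ, f w = c • g w

section

variable {n : ℕ} (S : Set (MvPolynomial (Fin (n + 1)) ℂ)) (G : MvPolynomial (Fin (n + 1)) ℂ)

/-- `G` vanishes on all closed subvarieties of `V(S)` of positive dimension which are not of general
type -/
def OnSpecial : Prop :=
  ∀ (L : Type) [Field L] [Algebra ℂ L] (w : ℕ) (y : Fin (n + 1) → L), 1 ≤ w →
    SubVar (fun p : S => (p : MvPolynomial (Fin (n + 1)) ℂ)) L w y →
    GeneralType ℂ L w ∨ aeval y G = 0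

/-- `G` vanishes on all nonconstant entire curves in `V(S)` -/
def OnCurves : Prop :=
  ∀ f : ℂ → Fin (n + 1) → ℂ, Differentiable ℂ f → (∀ z, f z ≠ 0) →
    (∀ z, ∀ p ∈ S, eval (f z) p = 0) →
    (∀ z w, ∃ c : ℂ, f w = c • f z) ∨ ∀ z, eval (f z) G = 0

/-- `G` vanishes on all holomorphic maps from the punctured disc to `V(S)` which do not extend -/
def OnDiscs : Prop :=
  ∀ f : ℂ → Fin (n + 1) → ℂ, DifferentiableOn ℂ f (ball 0 1 \ {0}) →
    (∃ w ∈ ball (0 : ℂ) 1 \ {0}, f w ≠ 0) →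
    (∀ w ∈ ball (0 : ℂ) 1 \ {0}, ∀ p ∈ S, eval (f w) p = 0) →
    Extends f ∨ ∀ w ∈ ball (0 : ℂ) 1 \ {0}, eval (f w) G = 0

end

/-- The irreducible closed set with generic point `y` is a component of the closed set on which
exactly the forms in `I` vanish: all of them vanish at `y`, and for some form `H` with `H(y) ≠ 0` all
products `G H` with `G(y) = 0` are in `I`. -/
def Component {n : ℕ} (I : MvPolynomial (Fin (n + 1)) ℂ → Prop) {L : Type} [Field L] [Algebra ℂ L]
    (y : Fin (n + 1) → L) : Prop :=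
  (∀ G, IsForm G → I G → aeval y G = 0) ∧
    ∃ H, IsForm H ∧ aeval y H ≠ 0 ∧ ∀ G, IsForm G → aeval y G = 0 → I (G * H)

/-- the partial derivatives have no common zeros in `P^N` -/
def SmoothForm {N : ℕ} (A : MvPolynomial (Fin (N + 1)) ℂ) : Prop :=
  ∀ y : Fin (N + 1) → ℂ, y ≠ 0 → ∃ j, eval y (pderiv j A) ≠ 0

/-- the form `∑ t, Q_t(y) (y_0 + t y_1 + ⋯ + t ^ N y_N) ^ D` -/
noncomputable def powerForm {N M : ℕ} (D : ℕ) (Q : Fin M → MvPolynomial (Fin (N + 1)) ℂ) :
    MvPolynomial (Fin (N + 1)) ℂ :=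
  ∑ t : Fin M, Q t * (∑ j : Fin (N + 1), C (((t : ℕ) : ℂ) ^ (j : ℕ)) * X j) ^ D

/-- `m` enumerates the exponent vectors of the monomials of degree `d` in `n + 1` variables -/
structure Monomials (n N d : ℕ) (m : Fin (N + 1) → Fin (n + 1) → ℕ) : Prop where
  deg : ∀ a, ∑ j, m a j = d
  inj : Function.Injective m
  surj : ∀ α : Fin (n + 1) → ℕ, ∑ j, α j = d → ∃ a, m a = α

/-- the Veronese map -/
def veronese {n N : ℕ} {Ω : Type} [Field Ω] (m : Fin (N + 1) → Fin (n + 1) → ℕ)
    (x : Fin (n + 1) → Ω) : Fin (N + 1) → Ω := fun a => ∏ j, x j ^ m a j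

end Pool.Agent.N254.SQ
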