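import Mathlib
import Pool.Agent.N254.SQ.Stm
import Pool.Agent.W602.GT.SpDefs

/-!
Project SQ, third part: exceptional loci. Statements of the leaves.
-/

set_option autoImplicit false

namespace Pool.Agent.N254.SQ

open MvPolynomial Filter Topology Metric
open Pool.Agent.W602.GT (coords)

/-- homogeneous polynomials of some degree -/
def Fm {n : ℕ} (G : MvPolynomial (Fin (n + 1)) ℂ) : Prop := ∃ e, G.IsHomogeneous e

/-- `y` is the generic point of an irreducible closed subset of `P^n` of dimension `w` with function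
field `L` -/
structure Gen {n : ℕ} (L : Type) [Field L] [Algebra ℂ L] (w : ℕ) (y : Fin (n + 1) → L) : Prop where
  ne : y ≠ 0
  gen : coords ℂ y = ⊤
  dim : Algebra.trdeg ℂ L = w

/-- the forms vanishing on a closed set: closed under sums in one degree, products, roots -/
structure Idl {n : ℕ} (I : MvPolynomial (Fin (n + 1)) ℂ → Prop) : Prop where
  zero : I 0
  add : ∀ (e : ℕ) (G G' : MvPolynomial (Fin (n + 1)) ℂ), G.IsHomogeneous e →
    G'.IsHomogeneous e → I G → I G' → I (G + G')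
  mul : ∀ G F : MvPolynomial (Fin (n + 1)) ℂ, Fm G → Fm F → I G → I (G * F)
  rad : ∀ (G : MvPolynomial (Fin (n + 1)) ℂ) (r : ℕ), Fm G → I (G ^ r) → I G

/-- COMP: the components of a closed set -/
def Comp_stm : Prop :=
  ∀ (n : ℕ) (I : MvPolynomial (Fin (n + 1)) ℂ → Prop), Idl I →
    ∀ (L : Type) [Field L] [Algebra ℂ L] (w : ℕ) (y : Fin (n + 1) → L), Gen L w y →
      (∀ G, Fm G → I G → aeval y G = 0) →
      (∃ H, Fm H ∧ aeval y H ≠ 0 ∧ ∀ G, Fm G → aeval y G = 0 → I (G * H)) ∨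
      ∃ (L' : Type) (_ : Field L') (_ : Algebra ℂ L') (w' : ℕ) (y' : Fin (n + 1) → L'),
        Gen L' w' y' ∧ 1 ≤ w' ∧ (∀ G, Fm G → I G → aeval y' G = 0) ∧
        (∀ G, Fm G → aeval y' G = 0 → aeval y G = 0) ∧
        (∃ G, Fm G ∧ aeval y G = 0 ∧ aeval y' G ≠ 0) ∧
        ∃ H, Fm H ∧ aeval y' H ≠ 0 ∧ ∀ G, Fm G → aeval y' G = 0 → I (G * H)

/-- GENPT: generic points of analytic curves -/
def GenPt_stm : Prop :=
  ∀ (n : ℕ) (U : Set ℂ) (f : ℂ → Fin (n + 1) → ℂ), IsOpen U → IsPreconnected U →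
    DifferentiableOn ℂ f U → (∃ z ∈ U, f z ≠ 0) →
    ∃ (L : Type) (_ : Field L) (_ : Algebra ℂ L) (w : ℕ) (y : Fin (n + 1) → L), Gen L w y ∧
      (∀ p : MvPolynomial (Fin (n + 1)) ℂ, Fm p →
        (aeval y p = 0 ↔ ∀ z ∈ U, eval (f z) p = 0)) ∧
      (w = 0 → ∀ z ∈ U, ∀ z' ∈ U, ∀ i j, f z i * f z' j = f z j * f z' i)

/-- VERSURJ: forms of degree `d e` are forms of degree `e` in the monomials of degree `d` -/
def VerSurj_stm : Prop :=
  ∀ (n N d : ℕ) (m : Fin (N + 1) → Fin (n + 1) → ℕ), Mon n N d m →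
    ∀ (e : ℕ) (P : MvPolynomial (Fin (n + 1)) ℂ), P.IsHomogeneous (d * e) →
      ∃ G : MvPolynomial (Fin (N + 1)) ℂ, G.IsHomogeneous e ∧
        aeval (fun a => ∏ j, (X j : MvPolynomial (Fin (n + 1)) ℂ) ^ m a j) G = P

/-- the holomorphic map from the punctured disc to `P^n` with the vector of homogeneous coordinates
`f` (holomorphic and not all identically zero) extends across the puncture -/
def Extd {n : ℕ} (f : ℂ → Fin (n + 1) → ℂ) : Prop :=
  ∃ ε : ℝ, 0 < ε ∧ ∃ g : ℂ → Fin (n + 1) → ℂ, DifferentiableOn ℂ g (ball 0 ε) ∧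
    (∀ w ∈ ball (0 : ℂ) ε, g w ≠ 0) ∧ ∀ w ∈ ball (0 : ℂ) ε \ {0}, ∃ c : ℂ, f w = c • g w

/-- EXT: extension and ratios of the coordinates -/
def Ext_stm : Prop :=
  ∀ (n : ℕ) (f : ℂ → Fin (n + 1) → ℂ), DifferentiableOn ℂ f (ball 0 1 \ {0}) →
    (∃ w ∈ ball (0 : ℂ) 1 \ {0}, f w ≠ 0) →
    (Extd f ↔ ∀ i l, (∃ w ∈ ball (0 : ℂ) 1 \ {0}, f w l ≠ 0) → ∃ ρ : ℂ → ℂ, MeromorphicAt ρ 0 ∧
      ∀ᶠ w in 𝓝[≠] (0 : ℂ), f w i = ρ w * f w l)

/-- DESC: the forms vanishing on a set of points with coordinates in a subfield are combinations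
of forms with coefficients in the subfield -/
def Desc_stm : Prop :=
  ∀ (K : Subfield ℂ) (n e : ℕ) (T : Set (Fin (n + 1) → ℂ)), (∀ x ∈ T, ∀ j, x j ∈ K) →
    ∀ G : MvPolynomial (Fin (n + 1)) ℂ, G.IsHomogeneous e → (∀ x ∈ T, eval x G = 0) →
      ∃ (r : ℕ) (b : Fin r → ℂ) (g : Fin r → MvPolynomial (Fin (n + 1)) K),
        (∀ i, (g i).IsHomogeneous e) ∧ (∀ i, ∀ x ∈ T, eval x (map (algebraMap K ℂ) (g i)) = 0) ∧
        G = ∑ i, C (b i) * map (algebraMap K ℂ) (g i)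

/-- NUMF: an irreducible closed set with a dense set of points over the field of algebraic numbers is
defined over a number field -/
def Numf_stm : Prop :=
  ∀ (n : ℕ) (L : Type) [Field L] [Algebra ℂ L] (w : ℕ) (y : Fin (n + 1) → L), Gen L w y →
    ∀ T : Set (Fin (n + 1) → ℂ), (∀ x ∈ T, ∀ j, IsAlgebraic ℚ (x j)) →
      (∀ G, Fm G → (aeval y G = 0 ↔ ∀ x ∈ T, eval x G = 0)) →
      ∀ k₀ : IntermediateField ℚ ℂ, FiniteDimensional ℚ k₀ →
      ∃ k : IntermediateField ℚ ℂ, k₀ ≤ k ∧ FiniteDimensional ℚ k ∧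
        ∃ S : Finset (MvPolynomial (Fin (n + 1)) k), (∀ p ∈ S, ∃ e, p.IsHomogeneous e) ∧
          (∀ p ∈ S, aeval y (map (algebraMap k ℂ) p) = 0) ∧
          ∀ G, Fm G → aeval y G = 0 → ∀ (Ω : Type) [Field Ω] [Algebra ℂ Ω] (x : Fin (n + 1) → Ω),
            (∀ p ∈ S, aeval x (map (algebraMap k ℂ) p) = 0) → aeval x G = 0

/-- NUMK: an irreducible closed set with a dense set of points over a field is defined over it -/
def Numk_stm : Prop :=
  ∀ (k : Subfield ℂ) (n : ℕ) (L : Type) [Field L] [Algebra ℂ L] (w : ℕ) (y : Fin (n + 1) → L),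
    Gen L w y → ∀ T : Set (Fin (n + 1) → ℂ), (∀ x ∈ T, ∀ j, x j ∈ k) →
      (∀ G, Fm G → (aeval y G = 0 ↔ ∀ x ∈ T, eval x G = 0)) →
        ∃ S : Finset (MvPolynomial (Fin (n + 1)) k), (∀ p ∈ S, ∃ e, p.IsHomogeneous e) ∧
          (∀ p ∈ S, aeval y (map (algebraMap k ℂ) p) = 0) ∧
          ∀ G, Fm G → aeval y G = 0 → ∀ (Ω : Type) [Field Ω] [Algebra ℂ Ω] (x : Fin (n + 1) → Ω),
            (∀ p ∈ S, aeval x (map (algebraMap k ℂ) p) = 0) → aeval x G = 0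

end Pool.Agent.N254.SQ
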