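import Pool.Agent.N254.SQ.Geo3
import Pool.Agent.N254.SQ.Red
import Pool.Agent.N254.SQ.LocDefs
import Pool.Agent.N254.SQ.StmQ

/-!
Smooth hypersurfaces through a projective variety, and the transfer of the exceptional loci.
-/

set_option autoImplicit false

namespace Pool.Agent.N254.SQ

open MvPolynomial Topology Metric
open Filter (Eventually)
open Pool.Agent.W602.GT (SubVar GeneralType coords val)
open Pool.Agent.W603.BP (Ext PB)

/-- the properties of the hypersurface `A = 0` through `v(V(S))` -/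
structure Good (n N d : ℕ) (m : Fin (N + 1) → Fin (n + 1) → ℕ)
    (S : Set (MvPolynomial (Fin (n + 1)) ℂ)) (A : MvPolynomial (Fin (N + 1)) ℂ) : Prop where
  mon : Mon n N d m
  deg : 1 ≤ d
  homS : ∀ p ∈ S, IsForm p
  homA : IsForm A
  sub : ∀ (L : Type) [Field L] [Algebra ℂ L] (x : Fin (n + 1) → L), (∀ p ∈ S, aeval x p = 0) →
    aeval (ver m x) A = 0
  curves : ∀ f : ℂ → Fin (N + 1) → ℂ, Differentiable ℂ f → (∀ z, f z ≠ 0) →
    (∀ z, eval (f z) A = 0) → (∀ z w, ∃ c : ℂ, f w = c • f z) ∨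
      ∀ z, ∃ x : Fin (n + 1) → ℂ, x ≠ 0 ∧ (∀ p ∈ S, eval x p = 0) ∧ f z = ver m x
  special : ∀ (L : Type) [Field L] [Algebra ℂ L] (w : ℕ) (y : Fin (N + 1) → L), 1 ≤ w →
    SubVar (fun p : ({A} : Set _) => (p : MvPolynomial (Fin (N + 1)) ℂ)) L w y →
    GeneralType ℂ L w ∨
      ∃ (x : Fin (n + 1) → L) (c : L), x ≠ 0 ∧ c ≠ 0 ∧ (∀ p ∈ S, aeval x p = 0) ∧ y = c • ver m x
  discs : ∀ f : ℂ → Fin (N + 1) → ℂ, DifferentiableOn ℂ f (ball 0 1 \ {0}) →
    (∃ w ∈ ball (0 : ℂ) 1 \ {0}, f w ≠ 0) → (∀ w ∈ ball (0 : ℂ) 1 \ {0}, eval (f w) A = 0) →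
    Extends f ∨ ∀ w ∈ ball (0 : ℂ) 1 \ {0}, f w ≠ 0 →
      ∃ x : Fin (n + 1) → ℂ, x ≠ 0 ∧ (∀ p ∈ S, eval x p = 0) ∧ f w = ver m x

theorem disc_open : IsOpen (ball (0 : ℂ) 1 \ {0}) := isOpen_ball.sdiff isClosed_singleton

theorem power_form {K : Type} [Field K] {N M D : ℕ} {Q : Fin M → MvPolynomial (Fin (N + 1)) K}
    (hQ : ∀ t, (Q t).IsHomogeneous 2) : (powerSum D Q).IsHomogeneous (2 + D) := by
  refine IsHomogeneous.sum _ _ _ fun t _ => ?_
  have h1 := (hQ t).mul ((lin_hom K N (t : ℕ)).pow D)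
  rw [one_mul] at h1
  exact h1

theorem main5 (H4 : Leaves4) (hE : Ext_stm) : ∃ D₁ : ℕ → ℕ,
    ∀ n d : ℕ, 1 ≤ n → 3 ≤ d → ∃ (N : ℕ) (m : Fin (N + 1) → Fin (n + 1) → ℕ),
      Mon n N d m ∧ 2 * n < N ∧ ∀ D, D₁ N ≤ D → ∀ (K : Type) [Field K] [CharZero K] (σ : K →+* ℂ)
        (S : Set (MvPolynomial (Fin (n + 1)) K)), (∀ p ∈ S, ∃ e ≤ d, p.IsHomogeneous e) →
        ∃ Q : Fin (N * (2 * N + 1)) → MvPolynomial (Fin (N + 1)) K,
          (∀ t, (Q t).IsHomogeneous 2) ∧ Smooth (powerSum D Q) ∧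
          (∀ x : Fin (n + 1) → K, (∀ p ∈ S, eval x p = 0) → eval (ver m x) (powerSum D Q) = 0) ∧
          Good n N d m (map σ '' S) (map σ (powerSum D Q)) := by
  obtain ⟨D₁, H⟩ := geo5 H4
  refine ⟨D₁, fun n d hn hd => ?_⟩
  obtain ⟨N, m, hm, hN, H2⟩ := H n d hn hd
  refine ⟨N, m, hm, hN, fun D hD K _ _ σ S hS => ?_⟩
  have hd1 : 1 ≤ d := by omega
  obtain ⟨T, hT, hTS⟩ := reduce S
  have hT2 : ∀ p : T, ∃ e ≤ d, (p : MvPolynomial (Fin (n + 1)) K).IsHomogeneous e :=
    fun p => hS _ (hT p.2)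
  choose e he hp using hT2
  obtain ⟨Q, hQ, hsm, hv, hc⟩ := H2 D hD K T (fun p => (p : MvPolynomial (Fin (n + 1)) K)) e hp he
  -- zeros of the finite family are zeros of all equations
  have hS2 : ∀ (Ω : Type) [Field Ω] [Algebra ℂ Ω] (x : Fin (n + 1) → Ω),
      (∀ p : T, aeval x (map σ (p : MvPolynomial (Fin (n + 1)) K)) = 0) →
      ∀ p ∈ map σ '' S, aeval x p = 0 := by
    rintro Ω _ _ x hx _ ⟨p, hpS, rfl⟩
    have h1 := hTS Ω ((algebraMap ℂ Ω).comp σ) x (fun p hp => by
      have h2 := hx ⟨p, hp⟩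
      rw [eval_map]
      rw [aeval_def, eval₂_map] at h2
      exact h2) p hpS
    rw [eval_map] at h1
    rw [aeval_def, eval₂_map]
    exact h1
  have hS3 : ∀ x : Fin (n + 1) → ℂ, (∀ p : T, eval x (map σ (p : MvPolynomial (Fin (n + 1)) K)) = 0) →
      ∀ p ∈ map σ '' S, eval x p = 0 := by
    intro x hx p hp
    exact hS2 ℂ x hx p hp
  obtain ⟨c1, c2, c3⟩ := hc σ
  refine ⟨Q, hQ, hsm, ?_, hm, hd1, ?_, ⟨_, (power_form hQ).map σ⟩, ?_, ?_, ?_, ?_⟩
  · intro x hx
    have h1 := hv K (RingHom.id K) x (fun p => by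
      rw [map_id]
      exact hx _ (hT p.2))
    rw [map_id] at h1
    exact h1
  · rintro _ ⟨p, hp, rfl⟩
    obtain ⟨e, -, he⟩ := hS p hp
    exact ⟨e, he.map σ⟩
  · intro L _ _ x hx
    have h1 := hv L ((algebraMap ℂ L).comp σ) x (fun p => by
      have h2 := hx _ ⟨_, hT p.2, rfl⟩
      rw [aeval_def, eval₂_map] at h2
      rw [eval_map]
      exact h2)
    rw [eval_map] at h1
    rw [aeval_def, eval₂_map]
    exact h1
  · -- entire curves
    intro f hf hf0 hfA
    by_cases hcon : ∀ z w, ∃ c : ℂ, f w = c • f z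
    · exact Or.inl hcon
    · right
      intro z
      have hnc : ∃ i j z w, f z i * f w j ≠ f z j * f w i := by
        by_contra h2
        push Not at h2
        apply hcon
        intro z w
        obtain ⟨j0, hj0⟩ : ∃ j, f z j ≠ 0 := by
          by_contra h3
          push Not at h3
          exact hf0 z (funext h3)
        refine ⟨f w j0 / f z j0, funext fun i => ?_⟩
        rw [Pi.smul_apply, smul_eq_mul, div_mul_eq_mul_div, eq_div_iff hj0]
        exact h2 i j0 w z
      obtain ⟨x, hx, hxT, hfx⟩ := c1 (fun j z => f z j) (fun j => (differentiable_pi.1 hf) j)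
        (fun z => by
          by_contra h2
          push Not at h2
          exact hf0 z (funext h2)) (fun z => hfA z) hnc z
      exact ⟨x, hx, hS3 x hxT, hfx⟩
  · -- subvarieties
    intro L _ _ w y hw hy
    rcases c2 L w y hw ⟨hy.ne, fun _ => hy.mem ⟨_, rfl⟩, hy.gen, hy.dim⟩ with
      ⟨x, c, hx, hc0, hyx, hxT⟩ | h
    · right
      exact ⟨x, c, hx, hc0, hS2 L x hxT, hyx⟩
    · exact Or.inl h
  · -- the punctured disc
    intro f hf hfn hfA
    have hmem : ∀ z ∈ Ext (1 : ℝ), z⁻¹ ∈ ball (0 : ℂ) 1 \ {0} := by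
      intro z hz
      have hz1 : 1 < ‖z‖ := hz
      have hz0 : z ≠ 0 := Pool.Agent.W603.BP.ext_ne_zero zero_le_one hz
      refine ⟨?_, inv_ne_zero hz0⟩
      rw [mem_ball_zero_iff, norm_inv]
      exact inv_lt_one_of_one_lt₀ hz1
    have hinv : ∀ w ∈ ball (0 : ℂ) 1 \ {0}, w⁻¹ ∈ Ext (1 : ℝ) := by
      intro w hw
      have hw0 : w ≠ 0 := hw.2
      change 1 < ‖w⁻¹‖
      rw [norm_inv]
      exact (one_lt_inv₀ (norm_pos_iff.2 hw0)).2 (mem_ball_zero_iff.1 hw.1)
    have hfan : ∀ j, ∀ w ∈ ball (0 : ℂ) 1 \ {0}, AnalyticAt ℂ (fun w => f w j) w := by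
      intro j w hw
      have h1 : DifferentiableOn ℂ (fun w => f w j) (ball (0 : ℂ) 1 \ {0}) := fun w hw =>
        (differentiableWithinAt_pi.1 (hf w hw)) j
      exact h1.analyticAt (disc_open.mem_nhds hw)
    rcases c3 1 (fun j z => f z⁻¹ j) one_pos (by
      intro j z hz
      exact AnalyticAt.comp' (f := fun z : ℂ => z⁻¹) (g := fun w => f w j) (hfan j _ (hmem z hz))
        (analyticAt_inv (Pool.Agent.W603.BP.ext_ne_zero zero_le_one hz))) (by
      intro z hz
      exact hfA _ (hmem z hz)) with h | h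
    · right
      intro w hw hfw
      obtain ⟨x, hx, hxT, hfx⟩ := h _ (hinv w hw) (by
        rw [inv_inv]
        by_contra h2
        push Not at h2
        exact hfw (funext h2))
      rw [inv_inv] at hfx
      exact ⟨x, hx, hS3 x hxT, hfx⟩
    · left
      change Extd f
      rw [hE N f hf hfn]
      rintro j k ⟨w, hw, hwk⟩
      obtain ⟨ρ, b, hρ, hb, hρf⟩ := h j k ⟨w⁻¹, hinv w hw, by
          change f w⁻¹⁻¹ k ≠ 0
          rwa [inv_inv]⟩
      have hb0 : 0 < b := lt_of_lt_of_le one_pos hb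
      refine ⟨ρ, hρ, ?_⟩
      filter_upwards [Pool.Agent.W603.BP.PB_mem (inv_pos.2 hb0)] with w hw
      have h2 := hρf w⁻¹ (by
        have := Pool.Agent.W603.BP.inv_mem_Ext hw
        rwa [inv_inv] at this)
      rwa [inv_inv] at h2

/-! ### pull-back of forms -/

/-- the pull-back of a polynomial by the Veronese map -/
noncomputable def pull {n N : ℕ} (m : Fin (N + 1) → Fin (n + 1) → ℕ)
    (G : MvPolynomial (Fin (N + 1)) ℂ) : MvPolynomial (Fin (n + 1)) ℂ :=
  aeval (fun a => ∏ j, (X j : MvPolynomial (Fin (n + 1)) ℂ) ^ m a j) G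

section

variable {n N d : ℕ} {m : Fin (N + 1) → Fin (n + 1) → ℕ}

theorem aeval_pull {Ω : Type} [Field Ω] [Algebra ℂ Ω] (x : Fin (n + 1) → Ω)
    (G : MvPolynomial (Fin (N + 1)) ℂ) : aeval x (pull m G) = aeval (ver m x) G := by
  change ((aeval x).comp (aeval fun a => ∏ j, (X j : MvPolynomial (Fin (n + 1)) ℂ) ^ m a j)) G = _
  rw [comp_aeval]
  congr 2
  funext a
  rw [map_prod]
  unfold ver
  apply Finset.prod_congr rfl
  intro j _
  rw [map_pow, aeval_X]

theorem eval_pull (x : Fin (n + 1) → ℂ) (G : MvPolynomial (Fin (N + 1)) ℂ) :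
    eval x (pull m G) = eval (ver m x) G := aeval_pull (Ω := ℂ) x G

theorem pull_hom (hm : Mon n N d m) {G : MvPolynomial (Fin (N + 1)) ℂ} {e : ℕ}
    (hG : G.IsHomogeneous e) : (pull m G).IsHomogeneous (d * e) := by
  refine hG.aeval _ fun a => ?_
  have h1 : (∏ j, (X j : MvPolynomial (Fin (n + 1)) ℂ) ^ m a j).IsHomogeneous (∑ j, 1 * m a j) :=
    IsHomogeneous.prod _ _ _ fun j _ => (isHomogeneous_X ℂ j).pow _
  simp only [one_mul] at h1
  rwa [hm.deg] at h1

theorem aeval_scale {Ω : Type} [Field Ω] [Algebra ℂ Ω] {M e : ℕ}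
    {G : MvPolynomial (Fin (M + 1)) ℂ} (hG : G.IsHomogeneous e) (c : Ω) (x : Fin (M + 1) → Ω) :
    aeval (c • x) G = c ^ e * aeval x G := eval₂_scale (algebraMap ℂ Ω) hG c x

theorem eval_scale {M e : ℕ} {G : MvPolynomial (Fin (M + 1)) ℂ} (hG : G.IsHomogeneous e) (c : ℂ)
    (x : Fin (M + 1) → ℂ) : eval (c • x) G = c ^ e * eval x G := eval₂_scale (RingHom.id ℂ) hG c x

theorem aeval_zero_of {Ω : Type} [Field Ω] [Algebra ℂ Ω] {M : ℕ}
    {G : MvPolynomial (Fin (M + 1)) ℂ} (hG : IsForm G) {c : Ω} (hc : c ≠ 0) (x : Fin (M + 1) → Ω) :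
    aeval (c • x) G = 0 ↔ aeval x G = 0 := by
  obtain ⟨e, he⟩ := hG
  rw [aeval_scale he, mul_eq_zero]
  constructor
  · rintro (h | h)
    · exact absurd h (pow_ne_zero _ hc)
    · exact h
  · exact Or.inr

variable {S : Set (MvPolynomial (Fin (n + 1)) ℂ)} {A : MvPolynomial (Fin (N + 1)) ℂ}

theorem sub_ver (hg : Good n N d m S A) {L : Type} [Field L] [Algebra ℂ L] {w : ℕ}
    {y : Fin (n + 1) → L} (hy : SubVar (fun p : S => (p : MvPolynomial (Fin (n + 1)) ℂ)) L w y) :
    SubVar (fun p : ({A} : Set _) => (p : MvPolynomial (Fin (N + 1)) ℂ)) L w (ver m y) := by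
  refine ⟨ver_ne_zero hg.mon hg.deg hy.ne, fun p => ?_, ?_, hy.dim⟩
  · obtain ⟨p, hp⟩ := p
    rw [Set.mem_singleton_iff] at hp
    subst hp
    exact hg.sub L y fun p hp => hy.mem ⟨p, hp⟩
  · have h1 := coords_ver hg.mon hg.deg y hy.ne (1 : L) one_ne_zero
    rw [one_smul] at h1
    rw [h1, hy.gen]

theorem special_iff (hg : Good n N d m S A) {G : MvPolynomial (Fin (N + 1)) ℂ} (hG : IsForm G) :
    OnSpecial {A} G ↔ OnSpecial S (pull m G) := by
  constructor
  · intro h L _ _ w y hw hy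
    rcases h L w (ver m y) hw (sub_ver hg hy) with h1 | h1
    · exact Or.inl h1
    · right
      rw [aeval_pull]
      exact h1
  · intro h L _ _ w y hw hy
    rcases hg.special L w y hw hy with h1 | ⟨x, c, hx, hc, hxS, hyx⟩
    · exact Or.inl h1
    · rcases h L w x hw ⟨hx, fun p => hxS _ p.2, by
        rw [← coords_ver hg.mon hg.deg x hx c hc, ← hyx, hy.gen], hy.dim⟩ with h1 | h1
      · exact Or.inl h1
      · right
        rw [aeval_pull] at h1
        rw [hyx, aeval_zero_of hG hc]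
        exact h1

theorem curves_iff (hL : Lift_stm) (hg : Good n N d m S A) {G : MvPolynomial (Fin (N + 1)) ℂ} :
    OnCurves {A} G ↔ OnCurves S (pull m G) := by
  constructor
  · intro h F hF1 hF0 hFS
    rcases h (fun z => ver m (F z)) (ver_diff hF1)
      (fun z => ver_ne_zero hg.mon hg.deg (hF0 z)) (fun z p hp => by
        rw [Set.mem_singleton_iff] at hp
        rw [hp]
        exact hg.sub ℂ (F z) (hFS z)) with h1 | h1
    · left
      intro z w
      obtain ⟨c, hc⟩ := h1 z w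
      exact ver_prop hg.mon hg.deg (hF0 w) hc
    · right
      intro z
      rw [eval_pull]
      exact h1 z
  · intro h f hf hf0 hfA
    by_cases hcon : ∀ z w, ∃ c : ℂ, f w = c • f z
    · exact Or.inl hcon
    · right
      choose e he using hg.homS
      obtain ⟨F, hF1, hF0, hFS, hGF⟩ := maps hL hg.mon hg.deg
        (fun p : S => (p : MvPolynomial (Fin (n + 1)) ℂ)) (fun p => e p p.2)
        (fun p => he p p.2) A (by
          intro g hg1 hg0 hgA hgn z
          rcases hg.curves (fun z j => g j z) (differentiable_pi.2 hg1) (fun z h0 => by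
              obtain ⟨j, hj⟩ := hg0 z
              exact hj (congrFun h0 j)) hgA with h4 | h4
          · exfalso
            obtain ⟨i, j, z, w, hne⟩ := hgn
            apply hne
            obtain ⟨c, hc⟩ := h4 z w
            have h5 := congrFun hc i
            have h6 := congrFun hc j
            simp only [Pi.smul_apply, smul_eq_mul] at h5 h6
            rw [h5, h6]
            ring
          · obtain ⟨x, hx, hxS, hgx⟩ := h4 z
            exact ⟨x, hx, fun p => hxS _ p.2, hgx⟩) f hf hf0 (fun z => hfA z A rfl) hcon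
      rcases h F hF1 hF0 (fun z p hp => hFS z ⟨p, hp⟩) with h1 | h1
      · exfalso
        apply hcon
        intro z w
        obtain ⟨c, hc⟩ := h1 z w
        exact ⟨c ^ d, by rw [hGF, hGF, hc, ver_smul hg.mon]⟩
      · intro z
        have := h1 z
        rw [eval_pull] at this
        rw [hGF]
        exact this

/-! ### the punctured disc -/

theorem disc_conn : IsPreconnected (ball (0 : ℂ) 1 \ {0}) := by
  have h1 : ball (0 : ℂ) 1 \ {0} = Complex.exp '' {ζ : ℂ | ζ.re < 0} := by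
    ext z
    constructor
    · rintro ⟨hz, hz0⟩
      have hz' : ‖z‖ < 1 := mem_ball_zero_iff.1 hz
      have hz0' : z ≠ 0 := hz0
      refine ⟨Complex.log z, ?_, Complex.exp_log hz0'⟩
      change (Complex.log z).re < 0
      rw [Complex.log_re]
      exact Real.log_neg (norm_pos_iff.2 hz0') hz'
    · rintro ⟨ζ, hζ, rfl⟩
      have hζ' : ζ.re < 0 := hζ
      refine ⟨?_, Complex.exp_ne_zero ζ⟩
      rw [mem_ball_zero_iff, Complex.norm_exp]
      exact Real.exp_lt_one_iff.2 hζ'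
  rw [h1]
  exact (convex_halfSpace_re_lt _).isPreconnected.image _ Complex.continuous_exp.continuousOn

theorem diff_evalOn {M : ℕ} (G : MvPolynomial (Fin (M + 1)) ℂ) {f : ℂ → Fin (M + 1) → ℂ} {U : Set ℂ}
    (hf : DifferentiableOn ℂ f U) : DifferentiableOn ℂ (fun z => eval (f z) G) U := by
  simp only [eval_eq']
  refine DifferentiableOn.fun_sum fun α _ => ?_
  refine DifferentiableOn.const_mul ?_ _
  exact DifferentiableOn.fun_finsetProd fun j _ => (differentiableOn_pi.1 hf j).fun_pow _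

theorem disc_nhds {P : ℂ → Prop} (h : ∀ w ∈ ball (0 : ℂ) 1 \ {0}, P w) : ∀ᶠ w in 𝓝[≠] (0 : ℂ), P w := by
  filter_upwards [Pool.Agent.W603.BP.PB_mem one_pos] with w hw
  exact h w (Pool.Agent.W603.BP.mem_disc.2 hw)

/-- a product of analytic functions on the punctured disc -/
theorem disc_mul {s f : ℂ → ℂ} (hs : DifferentiableOn ℂ s (ball 0 1 \ {0}))
    (hs0 : ∃ w ∈ ball (0 : ℂ) 1 \ {0}, s w ≠ 0) {U : Set ℂ} (hU : IsOpen U)
    (hUd : U ⊆ ball (0 : ℂ) 1 \ {0}) (hf : ContinuousOn f U) (h : ∀ w ∈ U, s w * f w = 0) :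
    ∀ w ∈ U, f w = 0 := by
  intro w hw
  by_contra hfw
  obtain ⟨w0, hw0, hsw0⟩ := hs0
  apply hsw0
  have han : AnalyticOnNhd ℂ s (ball 0 1 \ {0}) := hs.analyticOnNhd disc_open
  have h1 : s =ᶠ[𝓝 w] 0 := by
    have h2 : ∀ᶠ z in 𝓝 w, f z ≠ 0 := (hf.continuousAt (hU.mem_nhds hw)).eventually_ne hfw
    filter_upwards [h2, hU.mem_nhds hw] with z hz hzU
    exact (mul_eq_zero.1 (h z hzU)).resolve_right hz
  exact han.eqOn_zero_of_preconnected_of_eventuallyEq_zero disc_conn (hUd hw) h1 hw0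

/-- cancellation of a factor in a relation with a meromorphic function -/
theorem disc_cancel {s f g ρ : ℂ → ℂ} (hs : DifferentiableOn ℂ s (ball 0 1 \ {0}))
    (hs0 : ∃ w ∈ ball (0 : ℂ) 1 \ {0}, s w ≠ 0) (hf : DifferentiableOn ℂ f (ball 0 1 \ {0}))
    (hg : DifferentiableOn ℂ g (ball 0 1 \ {0})) (hρ : MeromorphicAt ρ 0)
    (h : ∀ᶠ w in 𝓝[≠] (0 : ℂ), s w * f w = ρ w * (s w * g w)) :
    ∀ᶠ w in 𝓝[≠] (0 : ℂ), f w = ρ w * g w := by
  have h1 : ∀ᶠ w in 𝓝[≠] (0 : ℂ), AnalyticAt ℂ ρ w := hρ.eventually_analyticAt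
  have h2 : ∀ᶠ w in 𝓝[≠] (0 : ℂ), w ∈ ball (0 : ℂ) 1 \ {0} := by
    filter_upwards [Pool.Agent.W603.BP.PB_mem one_pos] with w hw
    exact Pool.Agent.W603.BP.mem_disc.2 hw
  have h3 := (h.and (h1.and h2))
  rw [eventually_nhdsWithin_iff] at h3
  obtain ⟨ε, hε, hball⟩ := Metric.eventually_nhds_iff_ball.1 h3
  have key := disc_mul hs hs0 (U := ball (0 : ℂ) ε \ {0}) (isOpen_ball.sdiff isClosed_singleton)
    (fun w hw => (hball w hw.1 hw.2).2.2) (f := fun w => f w - ρ w * g w) (by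
      intro w hw
      have h4 := hball w hw.1 hw.2
      have h5 := disc_open.mem_nhds h4.2.2
      exact ((hf.differentiableAt h5).continuousAt.sub
        (h4.2.1.continuousAt.mul (hg.differentiableAt h5).continuousAt)).continuousWithinAt) (by
      intro w hw
      have h4 := (hball w hw.1 hw.2).1
      linear_combination h4)
  filter_upwards [self_mem_nhdsWithin, nhdsWithin_le_nhds (ball_mem_nhds (0 : ℂ) hε)] with w hw hw2
  have := key w ⟨hw2, hw⟩
  linear_combination this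

theorem ver_diffOn {f : ℂ → Fin (n + 1) → ℂ} {U : Set ℂ} (hf : DifferentiableOn ℂ f U) :
    DifferentiableOn ℂ (fun z => ver m (f z)) U := by
  rw [differentiableOn_pi] at hf ⊢
  intro b
  unfold ver
  exact DifferentiableOn.fun_finsetProd fun j _ => (hf j).fun_pow _

theorem discs_iff (hE : Ext_stm) (hg : Good n N d m S A) {G : MvPolynomial (Fin (N + 1)) ℂ}
    (hG : IsForm G) : OnDiscs {A} G ↔ OnDiscs S (pull m G) := by
  have hm := hg.mon
  have hd := hg.deg
  constructor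
  · rintro h F hF ⟨w0, hw0, hFw0⟩ hFS
    have hvF : DifferentiableOn ℂ (fun w => ver m (F w)) (ball 0 1 \ {0}) := ver_diffOn hF
    have hvF0 : ∃ w ∈ ball (0 : ℂ) 1 \ {0}, ver m (F w) ≠ 0 := ⟨w0, hw0, ver_ne_zero hm hd hFw0⟩
    rcases h (fun w => ver m (F w)) hvF hvF0 (fun w hw p hp => by
        rw [Set.mem_singleton_iff] at hp
        rw [hp]
        exact hg.sub ℂ (F w) (hFS w hw)) with h1 | h1
    · left
      change Extd _ at h1
      rw [hE N _ hvF hvF0] at h1
      change Extd F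
      rw [hE n F hF ⟨w0, hw0, hFw0⟩]
      rintro i l ⟨w1, hw1, hFw1⟩
      obtain ⟨b, hb⟩ := ver_near (Ω := ℂ) hm hd l l
      obtain ⟨b', hb'⟩ := ver_near (Ω := ℂ) hm hd l i
      obtain ⟨ρ, hρ, hρe⟩ := h1 b' b ⟨w1, hw1, by
        change ver m (F w1) b ≠ 0
        rw [hb]
        exact mul_ne_zero (pow_ne_zero _ hFw1) hFw1⟩
      refine ⟨ρ, hρ, ?_⟩
      refine disc_cancel (s := fun w => F w l ^ (d - 1)) ?_ ⟨w1, hw1, pow_ne_zero _ hFw1⟩
        (differentiableOn_pi.1 hF i) (differentiableOn_pi.1 hF l) hρ ?_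
      · exact (differentiableOn_pi.1 hF l).fun_pow _
      · filter_upwards [hρe] with w hw
        have hw2 : ver m (F w) b' = ρ w * ver m (F w) b := hw
        rw [hb, hb'] at hw2
        exact hw2
    · right
      intro w hw
      rw [eval_pull]
      exact h1 w hw
  · rintro h f hf ⟨w0, hw0, hfw0⟩ hfA
    rcases hg.discs f hf ⟨w0, hw0, hfw0⟩ (fun w hw => hfA w hw A rfl) with h1 | h1
    · exact Or.inl h1
    obtain ⟨x0, hx0, hx0S, hfx0⟩ := h1 w0 hw0 hfw0
    obtain ⟨a, ha⟩ : ∃ a, x0 a ≠ 0 := by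
      by_contra hcon
      push Not at hcon
      exact hx0 (funext hcon)
    choose b hb using fun j => ver_near (Ω := ℂ) hm hd a j
    have hver0 : ver m (0 : Fin (n + 1) → ℂ) = 0 := by
      have h2 := ver_smul (Ω := ℂ) hm 0 0
      rw [zero_smul, zero_pow (by omega), zero_smul] at h2
      exact h2
    set F : ℂ → Fin (n + 1) → ℂ := fun w j => f w (b j) with hFdef
    have hF : DifferentiableOn ℂ F (ball 0 1 \ {0}) := by
      rw [differentiableOn_pi]
      exact fun j => differentiableOn_pi.1 hf (b j)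
    have hFx : ∀ w (x : Fin (n + 1) → ℂ), f w = ver m x → F w = x a ^ (d - 1) • x := by
      intro w x hx
      funext j
      change f w (b j) = _
      rw [hx, hb]
      rfl
    have hFa0 : F w0 a ≠ 0 := by
      rw [hFx w0 x0 hfx0]
      exact mul_ne_zero (pow_ne_zero _ ha) ha
    have hFw0 : F w0 ≠ 0 := fun h0 => hFa0 (congrFun h0 a)
    have hrel : ∀ w ∈ ball (0 : ℂ) 1 \ {0}, ver m (F w) = (F w a ^ (d - 1)) • f w := by
      intro w hw
      by_cases hfw : f w = 0
      · have : F w = 0 := by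
          funext j
          change f w (b j) = 0
          rw [hfw]
          rfl
        rw [this, hfw, hver0, smul_zero]
      · obtain ⟨x, hx, hxS, hfx⟩ := h1 w hw hfw
        rw [hFx w x hfx, ver_smul hm, hfx]
        congr 1
        change (x a ^ (d - 1)) ^ d = (x a ^ (d - 1) * x a) ^ (d - 1)
        obtain ⟨e, rfl⟩ : ∃ e, d = e + 1 := ⟨d - 1, by omega⟩
        simp only [Nat.add_sub_cancel]
        ring
    have hFS : ∀ w ∈ ball (0 : ℂ) 1 \ {0}, ∀ p ∈ S, eval (F w) p = 0 := by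
      intro w hw p hp
      obtain ⟨e, he⟩ := hg.homS p hp
      by_cases hfw : f w = 0
      · have : F w = (0 : ℂ) • x0 := by
          rw [zero_smul]
          funext j
          change f w (b j) = 0
          rw [hfw]
          rfl
        rw [this, eval_scale he, hx0S p hp, mul_zero]
      · obtain ⟨x, hx, hxS, hfx⟩ := h1 w hw hfw
        rw [hFx w x hfx, eval_scale he, hxS p hp, mul_zero]
    have hs : DifferentiableOn ℂ (fun w => F w a ^ (d - 1)) (ball 0 1 \ {0}) :=
      (differentiableOn_pi.1 hF a).fun_pow _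
    have hs0 : ∃ w ∈ ball (0 : ℂ) 1 \ {0}, F w a ^ (d - 1) ≠ 0 := ⟨w0, hw0, pow_ne_zero _ hFa0⟩
    rcases h F hF ⟨w0, hw0, hFw0⟩ hFS with h2 | h2
    · left
      change Extd _ at h2
      rw [hE n F hF ⟨w0, hw0, hFw0⟩] at h2
      change Extd f
      rw [hE N f hf ⟨w0, hw0, hfw0⟩]
      rintro i l ⟨w1, hw1, hfw1⟩
      choose ρ hρ hρe using fun j => h2 j a ⟨w0, hw0, hFa0⟩
      have hall : ∀ᶠ w in 𝓝[≠] (0 : ℂ), ∀ j, F w j = ρ j w * F w a :=
        Filter.eventually_all.2 hρe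
      have hV : ∀ i, MeromorphicAt (fun w => ver m (fun j => ρ j w) i) 0 := by
        intro i
        unfold ver
        exact MeromorphicAt.fun_prod fun j _ => (hρ j).fun_pow _
      have hrel2 : ∀ i, ∀ᶠ w in 𝓝[≠] (0 : ℂ), F w a ^ (d - 1) * f w i =
          ver m (fun j => ρ j w) i * F w a ^ d := by
        intro i
        filter_upwards [hall, disc_nhds hrel] with w hw hw2
        have h3 := congrFun hw2 i
        rw [Pi.smul_apply, smul_eq_mul] at h3
        rw [← h3]
        have h4 : F w = F w a • fun j => ρ j w := by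
          funext j
          rw [Pi.smul_apply, smul_eq_mul, mul_comm]
          exact hw j
        have h5 : ver m (F w) = F w a ^ d • ver m (fun j => ρ j w) := by
          conv_lhs => rw [h4]
          exact ver_smul hm _ _
        rw [h5, Pi.smul_apply, smul_eq_mul, mul_comm]
      rcases (hV l).eventually_eq_zero_or_eventually_ne_zero with h3 | h3
      · exfalso
        -- then `f_l = 0`
        have h4 : ∀ᶠ w in 𝓝[≠] (0 : ℂ), F w a ^ (d - 1) * f w l = 0 * (F w a ^ (d - 1) * 0) := by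
          filter_upwards [h3, hrel2 l] with w hw hw2
          rw [hw2, hw, zero_mul, zero_mul]
        have h5 := disc_cancel hs hs0 (differentiableOn_pi.1 hf l) (differentiableOn_const (0 : ℂ))
          (MeromorphicAt.const (0 : ℂ) 0) h4
        have h6 : ∀ᶠ w in 𝓝[≠] (0 : ℂ), f w l = 0 := by
          filter_upwards [h5] with w hw
          rw [hw, zero_mul]
        have h7 : ∀ᶠ w in 𝓝[≠] (0 : ℂ), w ∈ ball (0 : ℂ) 1 \ {0} := by
          filter_upwards [Pool.Agent.W603.BP.PB_mem one_pos] with w hw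
          exact Pool.Agent.W603.BP.mem_disc.2 hw
        have h8 := h6.and h7
        rw [eventually_nhdsWithin_iff] at h8
        obtain ⟨ε, hε, hball⟩ := Metric.eventually_nhds_iff_ball.1 h8
        have hfl : AnalyticOnNhd ℂ (fun w => f w l) (ball 0 1 \ {0}) :=
          (differentiableOn_pi.1 hf l).analyticOnNhd disc_open
        have hpt : ((ε / 2 : ℝ) : ℂ) ∈ ball (0 : ℂ) ε \ {0} := by
          refine ⟨?_, ?_⟩
          · rw [mem_ball_zero_iff, Complex.norm_real, Real.norm_of_nonneg (by linarith)]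
            linarith
          · intro h9
            have h10 : ((ε / 2 : ℝ) : ℂ) = 0 := h9
            rw [Complex.ofReal_eq_zero] at h10
            linarith
        have h11 : (fun w => f w l) =ᶠ[𝓝 ((ε / 2 : ℝ) : ℂ)] 0 := by
          have h12 : IsOpen (ball (0 : ℂ) ε \ {0}) := isOpen_ball.sdiff isClosed_singleton
          filter_upwards [h12.mem_nhds hpt] with w hw
          exact (hball w hw.1 hw.2).1
        exact hfw1 (hfl.eqOn_zero_of_preconnected_of_eventuallyEq_zero disc_conn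
          (hball _ hpt.1 hpt.2).2 h11 hw1)
      · refine ⟨fun w => ver m (fun j => ρ j w) i / ver m (fun j => ρ j w) l,
          (hV i).fun_div (hV l), ?_⟩
        refine disc_cancel hs hs0 (differentiableOn_pi.1 hf i) (differentiableOn_pi.1 hf l)
          ((hV i).fun_div (hV l)) ?_
        filter_upwards [h3, hrel2 i, hrel2 l] with w hw hwi hwl
        rw [hwi, hwl]
        field_simp
    · right
      obtain ⟨e, he⟩ := hG
      refine disc_mul (s := fun w => (F w a ^ (d - 1)) ^ e) (hs.fun_pow _)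
        ⟨w0, hw0, pow_ne_zero _ (pow_ne_zero _ hFa0)⟩ disc_open le_rfl ?_ ?_
      · exact (diff_evalOn G hf).continuousOn
      · intro w hw
        have h3 := h2 w hw
        rw [eval_pull, hrel w hw, eval_scale he] at h3
        exact h3

end

end Pool.Agent.N254.SQ
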