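import Pool.Agent.N254.SQ.StmQ
import Pool.Agent.N254.SQ.Red

/-!
Project SQ, third part: fields of definition (NUMF, NUMK).
-/

set_option autoImplicit false

namespace Pool.Agent.N254.SQ

open MvPolynomial Filter Topology Metric
open Pool.Agent.W602.GT (coords)

theorem numf_aeval {k : Type} [Field k] [Algebra k ℂ] {n : ℕ} {Ω : Type} [Field Ω] [Algebra ℂ Ω]
    (x : Fin (n + 1) → Ω) (p : MvPolynomial (Fin (n + 1)) k) :
    aeval x (map (algebraMap k ℂ) p) =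
      eval x (map ((algebraMap ℂ Ω).comp (algebraMap k ℂ)) p) := by
  rw [aeval_def, eval₂_map, eval_map]

/-- one set of equations over a subfield -/
theorem numf_core (h : Desc_stm) (k : Subfield ℂ) (n : ℕ) (L : Type) [Field L] [Algebra ℂ L]
    (y : Fin (n + 1) → L) (T : Set (Fin (n + 1) → ℂ)) (hT : ∀ x ∈ T, ∀ j, x j ∈ k)
    (hy : ∀ G, Fm G → (aeval y G = 0 ↔ ∀ x ∈ T, eval x G = 0)) :
    ∃ S : Finset (MvPolynomial (Fin (n + 1)) k), (∀ p ∈ S, ∃ e, p.IsHomogeneous e) ∧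
      (∀ p ∈ S, aeval y (map (algebraMap k ℂ) p) = 0) ∧
      ∀ G, Fm G → aeval y G = 0 → ∀ (Ω : Type) [Field Ω] [Algebra ℂ Ω] (x : Fin (n + 1) → Ω),
        (∀ p ∈ S, aeval x (map (algebraMap k ℂ) p) = 0) → aeval x G = 0 := by
  obtain ⟨S, hS, hred⟩ := reduce {p : MvPolynomial (Fin (n + 1)) k |
    (∃ e, p.IsHomogeneous e) ∧ ∀ x ∈ T, eval x (map (algebraMap k ℂ) p) = 0}
  refine ⟨S, fun p hp => (hS hp).1, fun p hp => ?_, ?_⟩
  · obtain ⟨⟨e, he⟩, h2⟩ := hS hp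
    rw [hy _ ⟨e, he.map _⟩]
    exact h2
  · rintro G ⟨e, hG⟩ hyG Ω _ _ x hx
    have h1 := (hy G ⟨e, hG⟩).1 hyG
    obtain ⟨r, b, g, hg1, hg2, rfl⟩ := h k n e T hT G hG h1
    rw [map_sum]
    apply Finset.sum_eq_zero
    intro i _
    rw [map_mul, numf_aeval, hred Ω _ x (fun p hp => by rw [← numf_aeval]; exact hx p hp) (g i)
      ⟨⟨e, hg1 i⟩, hg2 i⟩, mul_zero]

theorem t_numk (h : Desc_stm) : Numk_stm := by
  intro k n L _ _ w y _ T hT hy
  exact numf_core h k n L y T hT hy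

theorem t_numf (h : Desc_stm) : Numf_stm := by
  classical
  intro n L _ _ w y _ T hT hy k₀ hk₀
  obtain ⟨K, hK⟩ : ∃ K : Subfield ℂ, K = (algebraicClosure ℚ ℂ).toSubfield := ⟨_, rfl⟩
  have hKa : ∀ z : ℂ, z ∈ K ↔ IsAlgebraic ℚ z := by
    intro z
    rw [hK]
    exact mem_algebraicClosure_iff
  obtain ⟨S₁, hS1, hS2, hS3⟩ := numf_core h K n L y T (fun x hx j => (hKa _).2 (hT x hx j)) hy
  -- the coefficients
  obtain ⟨F, hF⟩ : ∃ F : Finset ℂ, F = S₁.biUnion fun p => (map (algebraMap K ℂ) p).coeffs :=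
    ⟨_, rfl⟩
  have hFa : ∀ z ∈ (F : Set ℂ), IsIntegral ℚ z := by
    intro z hz
    rw [Finset.mem_coe, hF, Finset.mem_biUnion] at hz
    obtain ⟨p, hp, hz⟩ := hz
    have h1 := (mem_range_map_iff_coeffs_subset.1 ⟨p, rfl⟩ :
      ((map (algebraMap K ℂ) p).coeffs : Set ℂ) ⊆ Set.range (algebraMap K ℂ)) hz
    obtain ⟨c, hc⟩ := h1
    rw [← hc]
    exact ((hKa _).1 c.2).isIntegral
  have hfin : FiniteDimensional ℚ (IntermediateField.adjoin ℚ (F : Set ℂ)) :=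
    IntermediateField.finiteDimensional_adjoin hFa
  obtain ⟨k, hk⟩ : ∃ k : IntermediateField ℚ ℂ, k = k₀ ⊔ IntermediateField.adjoin ℚ (F : Set ℂ) :=
    ⟨_, rfl⟩
  have hFk : ∀ z ∈ F, z ∈ k := by
    intro z hz
    rw [hk]
    exact (le_sup_right : _ ≤ k₀ ⊔ IntermediateField.adjoin ℚ (F : Set ℂ))
      (IntermediateField.subset_adjoin ℚ _ hz)
  have hlift : ∀ p ∈ S₁, ∃ q : MvPolynomial (Fin (n + 1)) k,
      map (algebraMap k ℂ) q = map (algebraMap K ℂ) p := by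
    intro p hp
    have h1 : ((map (algebraMap K ℂ) p).coeffs : Set ℂ) ⊆ Set.range (algebraMap k ℂ) := by
      intro z hz
      exact ⟨⟨z, hFk z (by rw [hF, Finset.mem_biUnion]; exact ⟨p, hp, hz⟩)⟩, rfl⟩
    exact mem_range_map_iff_coeffs_subset.2 h1
  choose! ℓ hℓ using hlift
  refine ⟨k, by rw [hk]; exact le_sup_left, by rw [hk]; infer_instance, S₁.image ℓ, ?_, ?_, ?_⟩
  · intro q hq
    obtain ⟨p, hp, rfl⟩ := Finset.mem_image.1 hq
    obtain ⟨e, he⟩ := hS1 p hp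
    refine ⟨e, IsHomogeneous.of_map (f := algebraMap k ℂ) (algebraMap k ℂ).injective ?_⟩
    rw [hℓ p hp]
    exact he.map _
  · intro q hq
    obtain ⟨p, hp, rfl⟩ := Finset.mem_image.1 hq
    rw [hℓ p hp]
    exact hS2 p hp
  · intro G hG hyG Ω _ _ x hx
    refine hS3 G hG hyG Ω x fun p hp => ?_
    rw [← hℓ p hp]
    exact hx _ (Finset.mem_image_of_mem ℓ hp)

end Pool.Agent.N254.SQ
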