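import Pool.Agent.N254.SQ.Fin2
import Pool.Agent.N254.SQ.Locus
import Pool.Agent.N254.SQ.Comp
import Pool.Agent.N254.SQ.GenPt
import Pool.Agent.N254.SQ.VerSurj
import Pool.Agent.N254.SQ.ExtR
import Pool.Agent.N254.SQ.Desc
import Pool.Agent.N254.SQ.Numf

/-!
All leaves of the third part of project SQ.
-/

set_option autoImplicit false

namespace Pool.Agent.N254.SQ

theorem numf : Numf_stm := t_numf t_desc

theorem numk : Numk_stm := t_numk t_desc

end Pool.Agent.N254.SQ
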