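import Mathlib
import Pool.Agent.N254.SQ.Geo2

/-!
The geometric form of the four properties, for maps from the punctured disc with arbitrary
homogeneous coordinates.
-/

set_option autoImplicit false

namespace Pool.Agent.N254.SQ

open MvPolynomial Filter Topology
open Pool.Agent.W602.GT (SubVar GeneralType val coords)
open Pool.Agent.W603.BP (Ext)

theorem geo5 (H : Leaves4) : ∃ D₁ : ℕ → ℕ, ∀ (n d : ℕ), 1 ≤ n → 3 ≤ d →
    ∃ (N : ℕ) (m : Fin (N + 1) → Fin (n + 1) → ℕ), Mon n N d m ∧ 2 * n < N ∧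
      ∀ D, D₁ N ≤ D → ∀ (K : Type) [Field K] [CharZero K] (κ : Type) [Finite κ]
        (F : κ → MvPolynomial (Fin (n + 1)) K) (g : κ → ℕ), (∀ k, (F k).IsHomogeneous (g k)) →
        (∀ k, g k ≤ d) →
        ∃ Q : Fin (N * (2 * N + 1)) → MvPolynomial (Fin (N + 1)) K,
          (∀ t, (Q t).IsHomogeneous 2) ∧ Smooth (powerSum D Q) ∧
          (∀ (Ω : Type) [Field Ω] (σ : K →+* Ω) (x : Fin (n + 1) → Ω),
            (∀ k, eval x (map σ (F k)) = 0) → eval (ver m x) (map σ (powerSum D Q)) = 0) ∧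
          ∀ σ : K →+* ℂ,
            (∀ f : Fin (N + 1) → ℂ → ℂ, (∀ j, Differentiable ℂ (f j)) →
              (∀ z, ∃ j, f j z ≠ 0) → (∀ z, eval (fun j => f j z) (map σ (powerSum D Q)) = 0) →
              (∃ i j z w, f i z * f j w ≠ f j z * f i w) →
              ∀ z, ∃ x : Fin (n + 1) → ℂ, x ≠ 0 ∧ (∀ k, eval x (map σ (F k)) = 0) ∧
                (fun j => f j z) = ver m x) ∧
            (∀ (L : Type) [Field L] [Algebra ℂ L] (w : ℕ) (y : Fin (N + 1) → L), 1 ≤ w →
              SubVar (fun _ : Unit => map σ (powerSum D Q)) L w y →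
              (∃ (x : Fin (n + 1) → L) (c : L), x ≠ 0 ∧ c ≠ 0 ∧ y = c • ver m x ∧
                ∀ k, val x (map σ (F k)) = 0) ∨ GeneralType ℂ L w) ∧
            ∀ (R : ℝ) (f : Fin (N + 1) → ℂ → ℂ), 0 < R → (∀ j, AnalyticOnNhd ℂ (f j) (Ext R)) →
              (∀ z ∈ Ext R, eval (fun j => f j z) (map σ (powerSum D Q)) = 0) →
              (∀ z ∈ Ext R, (∃ j, f j z ≠ 0) →
                ∃ x : Fin (n + 1) → ℂ, x ≠ 0 ∧ (∀ k, eval x (map σ (F k)) = 0) ∧
                (fun j => f j z) = ver m x) ∨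
              ∀ i l, (∃ z ∈ Ext R, f l z ≠ 0) → ∃ (ρ : ℂ → ℂ) (b : ℝ), MeromorphicAt ρ 0 ∧
                R ≤ b ∧ ∀ z ∈ Ext b, f i z = ρ z⁻¹ * f l z := by
  classical
  have hmain := fun (N : ℕ) (hN1 : 1 ≤ N) =>
    main_four H.part H.size H.gt H.pic H.blocks H.smooth N 2 hN1 (by norm_num)
  refine ⟨fun N => if h : 1 ≤ N then (hmain N h).choose else 0, fun n d hn hd => ?_⟩
  obtain ⟨N, m, hm, hN⟩ := H.num n d hn hd
  refine ⟨N, m, hm, hN, ?_⟩
  have hN1 : 1 ≤ N := by omega
  have hd1 : 1 ≤ d := by omega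
  simp only [hN1, dif_pos]
  have hD₁ := (hmain N hN1).choose_spec
  intro D hD K _ _ κ _ F g hF hg
  obtain ⟨ι, _, q, hq2, hqv, hqr⟩ := H.ver K n N d m hm hd1 κ F g hF hg
  obtain ⟨c, hc1, hc2⟩ := hD₁ D hD K ι q hq2 n (by
    intro Ω _ _ x hx hxq
    have h1 := (hqr Ω x hx hxq).1
    omega) (by
    intro Ω _ _ y a hya hyq
    have hy0 : y ≠ 0 := by
      intro h
      rw [h] at hya
      exact zero_ne_one hya
    obtain ⟨-, x, a', b, hxa, hyb, hyc, -⟩ := hqr Ω y hy0 hyq
    refine td_scale H.td x a' hxa (ver m x) y (fun b => ?_) a (fun c => ?_)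
    · refine ⟨∏ j, X j ^ m b j, ?_⟩
      rw [map_prod]
      unfold ver
      apply Finset.prod_congr rfl
      intro j _
      rw [map_pow, aeval_X]
    · have h1 := hyc a
      rw [hya] at h1
      have h2 : ver m x a ≠ 0 := by
        intro h3
        rw [h3, mul_zero] at h1
        exact one_ne_zero h1
      rw [hyc c]
      rw [eq_div_iff h2]
      linear_combination (-ver m x c) * h1)
  -- a point at which the quadrics vanish
  have hpt : ∀ (σ : K →+* ℂ) (y : Fin (N + 1) → ℂ), y ≠ 0 → (∀ i, eval y (map σ (q i)) = 0) →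
      ∃ x : Fin (n + 1) → ℂ, x ≠ 0 ∧ (∀ k, eval x (map σ (F k)) = 0) ∧ y = ver m x := by
    intro σ y hy hyq
    letI : Algebra K ℂ := σ.toAlgebra
    obtain ⟨-, x, a, b, hxa, hyb, hyc, hFx⟩ := hqr ℂ y hy (fun i => by
      have := hyq i
      rw [eval_map] at this
      exact this)
    obtain ⟨s, hs⟩ := IsAlgClosed.exists_pow_nat_eq (y b) (n := d) (by omega)
    have hs0 : s ≠ 0 := by
      intro h
      rw [h, zero_pow (by omega)] at hs
      exact hyb hs.symm
    refine ⟨s • x, ?_, fun k => ?_, ?_⟩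
    · intro h
      have h2 := congrFun h a
      rw [Pi.smul_apply, hxa, smul_eq_mul, mul_one] at h2
      exact hs0 h2
    · have h2 : eval (s • x) (map σ (F k)) = s ^ g k * eval x (map σ (F k)) :=
        eval₂_scale (RingHom.id ℂ) ((hF k).map σ) s x
      rw [h2, eval_map]
      have := hFx k
      rw [show eval₂ σ x (F k) = aeval x (F k) from rfl, this, mul_zero]
    · rw [ver_smul hm, hs]
      funext c
      exact hyc c
  refine ⟨fun t => ∑ i, C (c (t, i)) * q i, fun t => fam_hom hq2 _, hc1, ?_, fun σ => ⟨?_, ?_, ?_⟩⟩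
  · intro Ω _ σ x hx
    letI : Algebra K Ω := σ.toAlgebra
    refine hyp_vanish σ q D c (ver m x) fun i => ?_
    rw [eval_map]
    refine hqv Ω x (fun k => ?_) i
    have := hx k
    rw [eval_map] at this
    exact this
  · intro f hf h0 hF' hnc z
    refine hpt σ _ ?_ ((hc2 σ).1 f hf h0 hF' hnc z)
    intro h
    obtain ⟨j, hj⟩ := h0 z
    exact hj (congrFun h j)
  · intro L _ _ w y hw hy
    rcases (hc2 σ).2.1 L w y hw hy with h | h
    · left
      letI : Algebra K L := ((algebraMap ℂ L).comp σ).toAlgebra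
      obtain ⟨-, x, a, b, hxa, hyb, hyc, hFx⟩ := hqr L y hy.ne (fun i => by
        have h1 := h i
        change eval₂ (algebraMap ℂ L) y (map σ (q i)) = 0 at h1
        rw [eval₂_map] at h1
        exact h1)
      refine ⟨x, y b, ?_, hyb, funext fun c => hyc c, fun k => ?_⟩
      · intro h2
        rw [h2] at hxa
        exact zero_ne_one hxa
      · change eval₂ (algebraMap ℂ L) x (map σ (F k)) = 0
        rw [eval₂_map]
        exact hFx k
    · exact Or.inr h
  · intro R f hR hf hF'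
    rcases (hc2 σ).2.2 R f hR hf hF' with h | h
    · left
      intro z hz h0
      refine hpt σ _ ?_ (h z hz)
      intro h2
      obtain ⟨j, hj⟩ := h0
      exact hj (congrFun h2 j)
    · exact Or.inr h

end Pool.Agent.N254.SQ
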