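import Pool.Agent.N254.SQ.StmA
import Pool.Agent.N254.SQ.Fin2
import Pool.Agent.N254.SQ.ExtR

/-!
Project SQ, eighth part: the geometric theorem with control of the algebraic curves.
-/

set_option autoImplicit false

namespace Pool.Agent.N254.SQ

open MvPolynomial Filter Topology Metric FF
open Pool.Agent.W602.GT (SubVar GeneralType val coords)
open Pool.Agent.W603.BP (Ext PB)
open Pool.Agent.W603.LV (canDeg)
open Pool.Agent.W603.PV (pht)

/-- The five properties of the general hypersurface. -/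
theorem geoc_main (hAlg : Alg_stm) (hP : Part_stm) (hS : Size_stm) (hG : GT_stm)
    (hPic : SizeP_stm) (hB : Blocks_stm) (hSm : Smooth_stm) (n e : ℕ) (hn : 1 ≤ n) (he : 1 ≤ e) :
    ∃ D₁ : ℕ, ∀ D, D₁ ≤ D → ∀ (K : Type) [Field K] [CharZero K]
      (ι : Type) [Fintype ι] (q : ι → MvPolynomial (Fin (n + 1)) K),
      (∀ i, (q i).IsHomogeneous e) → ∀ r : ℕ,
      (∀ (Ω : Type) [Field Ω] [Algebra K Ω] (x : Fin (n + 1) → Ω), x ≠ 0 →
        (∀ i, aeval x (q i) = 0) →
        r < (Matrix.of fun (i : ι) (j : Fin (n + 1)) => (aeval x (pderiv j (q i)) : Ω)).rank) →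
      (∀ (Ω : Type) [Field Ω] [Algebra K Ω] (x : Fin (n + 1) → Ω) (a : Fin (n + 1)), x a = 1 →
        (∀ i, aeval x (q i) = 0) → Algebra.trdeg K (Algebra.adjoin K (Set.range x)) ≤ r) →
      ∃ c : Fin (n * (2 * n + 1)) × ι → K, Smooth (hyp q D c) ∧ ∀ σ : K →+* ℂ,
        (∀ f : Fin (n + 1) → ℂ → ℂ, (∀ j, Differentiable ℂ (f j)) →
          (∀ z, ∃ j, f j z ≠ 0) → (∀ z, eval (fun j => f j z) (map σ (hyp q D c)) = 0) →
          (∃ i j z w, f i z * f j w ≠ f j z * f i w) →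
          ∀ z i, eval (fun j => f j z) (map σ (q i)) = 0) ∧
        (∀ (F : Type) [Field F] [Algebra ℂ F] (w : ℕ) (y : Fin (n + 1) → F), 1 ≤ w →
          SubVar (fun _ : Unit => map σ (hyp q D c)) F w y →
          (∀ i, val y (map σ (q i)) = 0) ∨ GeneralType ℂ F w) ∧
        (∀ (E : Type) [Field E] [Algebra ℂ E] [IsFF ℂ E] (y : Fin (n + 1) → E), y ≠ 0 →
          aeval y (map σ (hyp q D c)) = 0 →
          pht ℂ y ≤ max (canDeg ℂ E) 0 ∨ ∀ i, aeval y (map σ (q i)) = 0) ∧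
        ∀ (R : ℝ) (f : Fin (n + 1) → ℂ → ℂ), 0 < R → (∀ j, AnalyticOnNhd ℂ (f j) (Ext R)) →
          (∀ z ∈ Ext R, eval (fun j => f j z) (map σ (hyp q D c)) = 0) →
          (∀ z ∈ Ext R, ∀ i, eval (fun j => f j z) (map σ (q i)) = 0) ∨
          ∀ i l, (∃ z ∈ Ext R, f l z ≠ 0) → ∃ (ρ : ℂ → ℂ) (b : ℝ), MeromorphicAt ρ 0 ∧ R ≤ b ∧
            ∀ z ∈ Ext b, f i z = ρ z⁻¹ * f l z := by
  classical
  obtain ⟨D₁, hD₁⟩ := curves hP hS n e (n * (2 * n + 1))
  obtain ⟨D₂, hD₂⟩ := hG e (n * (2 * n + 1))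
  obtain ⟨D₃, hD₃⟩ := hPic n e (n * (2 * n + 1))
  obtain ⟨D₄, hD₄⟩ := hAlg n e (n * (2 * n + 1))
  refine ⟨max (max (max D₁ D₂) (max D₃ 1)) D₄, fun D hD' K _ _ ι _ q hq r hr1 hr2 => ?_⟩
  have hD : max (max D₁ D₂) (max D₃ 1) ≤ D := le_trans (le_max_left _ _) hD'
  have hDD4 : D₄ ≤ D := le_trans (le_max_right _ _) hD'
  have hDD : D₁ ≤ D := le_trans (le_trans (le_max_left _ _) (le_max_left _ _)) hD
  have hDD2 : D₂ ≤ D := le_trans (le_trans (le_max_right _ _) (le_max_left _ _)) hD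
  have hDD3 : D₃ ≤ D := le_trans (le_trans (le_max_left _ _) (le_max_right _ _)) hD
  have hD1 : 1 ≤ D := le_trans (le_trans (le_max_right _ _) (le_max_right _ _)) hD
  set L := n * (2 * n + 1) with hL
  have hL2 : 2 * n + 1 ≤ L := Nat.le_mul_of_pos_left _ hn
  obtain ⟨Δ₁, hΔ₁, hB1⟩ := hB K n L D e ι q hq
  obtain ⟨Δ₂, hΔ₂, hS1⟩ := hSm K n L D e r ι q hq hD1 hL2 hr1 hr2
  obtain ⟨c, hc⟩ : ∃ c : Fin L × ι → K, eval c (Δ₁ * Δ₂) ≠ 0 := by
    by_contra hcon
    push Not at hcon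
    exact mul_ne_zero hΔ₁ hΔ₂ (MvPolynomial.funext fun c => by rw [hcon c, map_zero])
  rw [map_mul] at hc
  have hc1 := left_ne_zero_of_mul hc
  have hc2 := right_ne_zero_of_mul hc
  have haev : ∀ (Ω : Type) [Field Ω] (σ : K →+* Ω) (Δ : MvPolynomial (Fin L × ι) K),
      eval c Δ ≠ 0 → eval₂ σ (fun p => σ (c p)) Δ ≠ 0 := by
    intro Ω _ σ Δ h h2
    apply h
    apply σ.injective
    rw [map_zero, ← h2]
    exact (eval₂_comp (f := σ) (g := c) Δ).trans rfl
  -- the values of the terms over an extension of `ℂ`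
  have hval : ∀ (σ : K →+* ℂ) (Ω : Type) [Field Ω] (τ : ℂ →+* Ω) (x : Fin (n + 1) → Ω)
      (t : Fin L), eval₂ τ x (∑ i, C (σ (c (t, i))) * map σ (q i)) * eval₂ τ x (lin ℂ n t) ^ D =
        (∑ i, τ (σ (c (t, i))) * eval₂ (τ.comp σ) x (q i)) *
          eval₂ (τ.comp σ) x (lin K n t) ^ D := by
    intro σ Ω _ τ x t
    rw [eval₂_sum, ← map_lin σ, eval₂_map]
    congr 1
    apply Finset.sum_congr rfl
    intro i _
    rw [eval₂_mul, eval₂_C, eval₂_map]
  have hkey : ∀ (σ : K →+* ℂ) (Ω : Type) [Field Ω] (τ : ℂ →+* Ω) (x : Fin (n + 1) → Ω)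
      (𝓑 : Finset (Finset (Fin L))), x ≠ 0 → (∀ B ∈ 𝓑, B.Nonempty) →
      (∀ B ∈ 𝓑, ∀ B' ∈ 𝓑, B ≠ B' → Disjoint B B') → L ≤ n * 𝓑.card →
      (∀ B ∈ 𝓑, ∑ t ∈ B, eval₂ τ x (∑ i, C (σ (c (t, i))) * map σ (q i)) *
        eval₂ τ x (lin ℂ n t) ^ D = 0) → ∀ i, eval₂ τ x (map σ (q i)) = 0 := by
    intro σ Ω _ τ x 𝓑 hx hne hdis hcard hvan i
    letI : Algebra K Ω := (τ.comp σ).toAlgebra
    have hcard2 : 2 * n + 1 ≤ 𝓑.card := Nat.le_of_mul_le_mul_left hcard hn
    have key := hB1 Ω (fun p => (τ.comp σ) (c p)) (haev Ω (τ.comp σ) Δ₁ hc1) 𝓑 hne hdis hcard2 x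
      hx (by
        intro B hBB
        rw [← hvan B hBB]
        apply Finset.sum_congr rfl
        intro t _
        rw [hval]
        rfl) i
    rw [eval₂_map]
    exact key
  have hsum : ∀ (σ : K →+* ℂ) (Ω : Type) [Field Ω] (τ : ℂ →+* Ω) (x : Fin (n + 1) → Ω),
      eval₂ τ x (map σ (hyp q D c)) = ∑ t : Fin L, eval₂ τ x (∑ i, C (σ (c (t, i))) *
        map σ (q i)) * eval₂ τ x (lin ℂ n t) ^ D := by
    intro σ Ω _ τ x
    rw [map_hyp, hyp, eval₂_sum]
    apply Finset.sum_congr rfl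
    intro t _
    rw [eval₂_mul, eval₂_pow]
  have hhom : ∀ (σ : K →+* ℂ) (t : Fin L),
      (∑ i, C (σ (c (t, i))) * map σ (q i)).IsHomogeneous e := fun σ t =>
    fam_hom (fun i => (hq i).map σ) _
  refine ⟨c, ?_, fun σ => ⟨?_, ?_, ?_, ?_⟩⟩
  · intro Ω _ σ x hx
    letI : Algebra K Ω := σ.toAlgebra
    obtain ⟨j, hj⟩ := hS1 Ω (fun p => σ (c p)) (haev Ω σ Δ₂ hc2) x hx
    refine ⟨j, ?_⟩
    rw [map_hyp]
    exact hj
  · intro f hf h0 hF hnc z i
    obtain ⟨𝓑, hne, hdis, hvan, hcard⟩ := hD₁ D hDD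
      (fun t => ∑ i, C (σ (c (t, i))) * map σ (q i)) (hhom σ) f hf h0 (by
        intro z
        have h1 := hF z
        change eval₂ (RingHom.id ℂ) _ _ = 0 at h1
        rw [hsum σ ℂ (RingHom.id ℂ)] at h1
        exact h1) hnc
    have hx : (fun j => f j z) ≠ (0 : Fin (n + 1) → ℂ) := by
      intro h
      obtain ⟨j, hj⟩ := h0 z
      exact hj (congrFun h j)
    exact hkey σ ℂ (RingHom.id ℂ) _ 𝓑 hx hne hdis hcard (fun B hBB => hvan B hBB z) i
  · intro F _ _ w y hw hy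
    by_cases hgt : GeneralType ℂ F w
    · exact Or.inr hgt
    · left
      intro i
      obtain ⟨𝓑, hne, hdis, hvan, hcard⟩ := split_card hP hn (fun t : Fin L =>
        eval₂ (algebraMap ℂ F) y (∑ i, C (σ (c (t, i))) * map σ (q i)) *
          eval₂ (algebraMap ℂ F) y (lin ℂ n t) ^ D) (by
          rw [← hsum σ F (algebraMap ℂ F)]
          exact hy.mem ()) (by
        intro B hBc hB0 hBmin
        apply hgt
        have hc : Fintype.card {t // t ∈ B} = B.card := Fintype.card_coe B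
        refine hD₂ D hDD2 F n w y hw hy.ne hy.gen hy.dim {t // t ∈ B} ?_ ?_
          (fun t => ∑ i, C (σ (c (t.1, i))) * map σ (q i)) (fun t => (t.1 : ℕ)) ?_
          (fun t => hhom σ t.1) ?_ ?_
        · rw [hc]
          exact (Finset.card_le_univ B).trans (by simp)
        · rw [hc]
          exact hBc
        · intro a b hab
          exact Subtype.ext (Fin.ext hab)
        · have h1 := hB0
          rw [← Finset.sum_coe_sort] at h1
          exact h1
        · intro B' hB' hB'u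
          exact sub_min (fun t : Fin L =>
            eval₂ (algebraMap ℂ F) y (∑ i, C (σ (c (t, i))) * map σ (q i)) *
              eval₂ (algebraMap ℂ F) y (lin ℂ n t) ^ D) B hBmin B' hB' hB'u)
      exact hkey σ F (algebraMap ℂ F) y 𝓑 hy.ne hne hdis hcard hvan i
  · intro E _ _ _ y hy0 hy
    by_cases hb : pht ℂ y ≤ max (canDeg ℂ E) 0
    · exact Or.inl hb
    · right
      intro i
      obtain ⟨𝓑, hne, hdis, hvan, hcard⟩ := split_card hP hn (fun t : Fin L =>
        eval₂ (algebraMap ℂ E) y (∑ i, C (σ (c (t, i))) * map σ (q i)) *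
          eval₂ (algebraMap ℂ E) y (lin ℂ n t) ^ D) (by
          rw [← hsum σ E (algebraMap ℂ E)]
          exact hy) (by
        intro B hBc hB0 hBmin
        apply hb
        have hc : Fintype.card {t // t ∈ B} = B.card := Fintype.card_coe B
        refine hD₄ D hDD4 ℂ E {t // t ∈ B} ?_ ?_ ?_
          (fun t => ∑ i, C (σ (c (t.1, i))) * map σ (q i)) (fun t => (t.1 : ℕ)) ?_
          (fun t => hhom σ t.1) y hy0 ?_ ?_
        · rw [hc]
          exact (Finset.card_le_univ B).trans (by simp)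
        · rw [hc]
          exact hBc
        · rw [hc]
          omega
        · intro a b hab
          exact Subtype.ext (Fin.ext hab)
        · have h1 := hB0
          rw [← Finset.sum_coe_sort] at h1
          exact h1
        · intro B' hB' hB'u
          exact sub_min (fun t : Fin L =>
            eval₂ (algebraMap ℂ E) y (∑ i, C (σ (c (t, i))) * map σ (q i)) *
              eval₂ (algebraMap ℂ E) y (lin ℂ n t) ^ D) B hBmin B' hB' hB'u)
      exact hkey σ E (algebraMap ℂ E) y 𝓑 hy0 hne hdis hcard hvan i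
  · intro R f hR hf hF
    by_cases hmer : ∀ i l, (∃ z ∈ Ext R, f l z ≠ 0) → ∃ (ρ : ℂ → ℂ) (b : ℝ),
        MeromorphicAt ρ 0 ∧ R ≤ b ∧ ∀ z ∈ Ext b, f i z = ρ z⁻¹ * f l z
    · exact Or.inr hmer
    · left
      intro z hz i
      obtain ⟨𝓑, hne, hdis, hvan, hcard⟩ := split_card hP hn (fun (t : Fin L) (z : Ext R) =>
        eval (fun j => f j z) (∑ i, C (σ (c (t, i))) * map σ (q i)) *
          eval (fun j => f j z) (lin ℂ n t) ^ D) (by
          funext z
          rw [Finset.sum_apply]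
          have h1 := hF z.1 z.2
          change eval₂ (RingHom.id ℂ) _ _ = 0 at h1
          rw [hsum σ ℂ (RingHom.id ℂ)] at h1
          exact h1) (by
        intro B hBc hB0 hBmin
        apply hmer
        have hc : Fintype.card {t // t ∈ B} = B.card := Fintype.card_coe B
        refine hD₃ D hDD3 {t // t ∈ B} ?_ ?_ ?_
          (fun t => ∑ i, C (σ (c (t.1, i))) * map σ (q i)) (fun t => (t.1 : ℕ)) ?_
          (fun t => hhom σ t.1) R f hR hf ?_ ?_
        · rw [hc]
          exact (Finset.card_le_univ B).trans (by simp)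
        · rw [hc]
          exact hBc
        · rw [hc]
          omega
        · intro a b hab
          exact Subtype.ext (Fin.ext hab)
        · intro z hz
          have h1 := congrFun hB0 ⟨z, hz⟩
          rw [← Finset.sum_coe_sort, Finset.sum_apply] at h1
          exact h1
        · intro B' hB' hB'u
          have h1 := sub_min (fun (t : Fin L) (z : Ext R) =>
            eval (fun j => f j z) (∑ i, C (σ (c (t, i))) * map σ (q i)) *
              eval (fun j => f j z) (lin ℂ n t) ^ D) B hBmin B' hB' hB'u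
          by_contra hcon
          push Not at hcon
          apply h1
          funext z
          rw [Finset.sum_apply]
          exact hcon z.1 z.2)
      by_cases hx : (fun j => f j z) = (0 : Fin (n + 1) → ℂ)
      · rw [hx]
        have h1 := eval₂_scale (RingHom.id ℂ) ((hq i).map σ) 0 (0 : Fin (n + 1) → ℂ)
        rw [zero_smul, zero_pow (by omega), zero_mul] at h1
        exact h1
      · refine hkey σ ℂ (RingHom.id ℂ) _ 𝓑 hx hne hdis hcard (fun B hBB => ?_) i
        have h1 := congrFun (hvan B hBB) ⟨z, hz⟩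
        rw [Finset.sum_apply] at h1
        exact h1

theorem geoc_geo (hAlg : Alg_stm) (H : Leaves4) : ∃ D₁ : ℕ → ℕ, ∀ (n d : ℕ), 1 ≤ n → 3 ≤ d →
    ∀ (N : ℕ) (m : Fin (N + 1) → Fin (n + 1) → ℕ), Mon n N d m → 2 * n < N →
      ∀ D, D₁ N ≤ D → ∀ (K : Type) [Field K] [CharZero K] (κ : Type) [Finite κ]
        (F : κ → MvPolynomial (Fin (n + 1)) K) (g : κ → ℕ), (∀ k, (F k).IsHomogeneous (g k)) →
        (∀ k, g k ≤ d) →
        ∃ Q : Fin (N * (2 * N + 1)) → MvPolynomial (Fin (N + 1)) K,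
          (∀ t, (Q t).IsHomogeneous 2) ∧ Smooth (powerSum D Q) ∧
          (∀ (Ω : Type) [Field Ω] (σ : K →+* Ω) (x : Fin (n + 1) → Ω),
            (∀ k, eval x (map σ (F k)) = 0) → eval (ver m x) (map σ (powerSum D Q)) = 0) ∧
          ∀ σ : K →+* ℂ,
            (∀ f : Fin (N + 1) → ℂ → ℂ, (∀ j, Differentiable ℂ (f j)) →
              (∀ z, ∃ j, f j z ≠ 0) → (∀ z, eval (fun j => f j z) (map σ (powerSum D Q)) = 0) →
              (∃ i j z w, f i z * f j w ≠ f j z * f i w) →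
              ∀ z, ∃ x : Fin (n + 1) → ℂ, x ≠ 0 ∧ (∀ k, eval x (map σ (F k)) = 0) ∧
                (fun j => f j z) = ver m x) ∧
            (∀ (L : Type) [Field L] [Algebra ℂ L] (w : ℕ) (y : Fin (N + 1) → L), 1 ≤ w →
              SubVar (fun _ : Unit => map σ (powerSum D Q)) L w y →
              (∃ (x : Fin (n + 1) → L) (c : L), x ≠ 0 ∧ c ≠ 0 ∧ y = c • ver m x ∧
                ∀ k, val x (map σ (F k)) = 0) ∨ GeneralType ℂ L w) ∧
            (∀ (E : Type) [Field E] [Algebra ℂ E] [IsFF ℂ E] (y : Fin (N + 1) → E), y ≠ 0 →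
              aeval y (map σ (powerSum D Q)) = 0 → pht ℂ y ≤ max (canDeg ℂ E) 0 ∨
              ∃ (x : Fin (n + 1) → E) (c : E), x ≠ 0 ∧ c ≠ 0 ∧ y = c • ver m x ∧
                ∀ k, val x (map σ (F k)) = 0) ∧
            ∀ (R : ℝ) (f : Fin (N + 1) → ℂ → ℂ), 0 < R → (∀ j, AnalyticOnNhd ℂ (f j) (Ext R)) →
              (∀ z ∈ Ext R, eval (fun j => f j z) (map σ (powerSum D Q)) = 0) →
              (∀ z ∈ Ext R, (∃ j, f j z ≠ 0) →
                ∃ x : Fin (n + 1) → ℂ, x ≠ 0 ∧ (∀ k, eval x (map σ (F k)) = 0) ∧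
                (fun j => f j z) = ver m x) ∨
              ∀ i l, (∃ z ∈ Ext R, f l z ≠ 0) → ∃ (ρ : ℂ → ℂ) (b : ℝ), MeromorphicAt ρ 0 ∧
                R ≤ b ∧ ∀ z ∈ Ext b, f i z = ρ z⁻¹ * f l z := by
  classical
  have hmain := fun (N : ℕ) (hN1 : 1 ≤ N) =>
    geoc_main hAlg H.part H.size H.gt H.pic H.blocks H.smooth N 2 hN1 (by norm_num)
  refine ⟨fun N => if h : 1 ≤ N then (hmain N h).choose else 0, fun n d hn hd N m hm hN => ?_⟩
  have hN1 : 1 ≤ N := by omega
  have hd1 : 1 ≤ d := by omega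
  simp only [hN1, dif_pos]
  have hD₁ := (hmain N hN1).choose_spec
  intro D hD K _ _ κ _ F g hF hg
  obtain ⟨ι, _, q, hq2, hqv, hqr⟩ := H.ver K n N d m hm hd1 κ F g hF hg
  obtain ⟨c, hc1, hc2⟩ := hD₁ D hD K ι q hq2 n (by
    intro Ω _ _ x hx hxq
    have h1 := (hqr Ω x hx hxq).1
    omega) (by
    intro Ω _ _ y a hya hyq
    have hy0 : y ≠ 0 := by
      intro h
      rw [h] at hya
      exact zero_ne_one hya
    obtain ⟨-, x, a', b, hxa, hyb, hyc, -⟩ := hqr Ω y hy0 hyq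
    refine td_scale H.td x a' hxa (ver m x) y (fun b => ?_) a (fun c => ?_)
    · refine ⟨∏ j, X j ^ m b j, ?_⟩
      rw [map_prod]
      unfold ver
      apply Finset.prod_congr rfl
      intro j _
      rw [map_pow, aeval_X]
    · have h1 := hyc a
      rw [hya] at h1
      have h2 : ver m x a ≠ 0 := by
        intro h3
        rw [h3, mul_zero] at h1
        exact one_ne_zero h1
      rw [hyc c]
      rw [eq_div_iff h2]
      linear_combination (-ver m x c) * h1)
  -- a point at which the quadrics vanish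
  have hpt : ∀ (σ : K →+* ℂ) (y : Fin (N + 1) → ℂ), y ≠ 0 → (∀ i, eval y (map σ (q i)) = 0) →
      ∃ x : Fin (n + 1) → ℂ, x ≠ 0 ∧ (∀ k, eval x (map σ (F k)) = 0) ∧ y = ver m x := by
    intro σ y hy hyq
    letI : Algebra K ℂ := σ.toAlgebra
    obtain ⟨-, x, a, b, hxa, hyb, hyc, hFx⟩ := hqr ℂ y hy (fun i => by
      have := hyq i
      rw [eval_map] at this
      exact this)
    obtain ⟨s, hs⟩ := IsAlgClosed.exists_pow_nat_eq (y b) (n := d) (by omega)
    have hs0 : s ≠ 0 := by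
      intro h
      rw [h, zero_pow (by omega)] at hs
      exact hyb hs.symm
    refine ⟨s • x, ?_, fun k => ?_, ?_⟩
    · intro h
      have h2 := congrFun h a
      rw [Pi.smul_apply, hxa, smul_eq_mul, mul_one] at h2
      exact hs0 h2
    · have h2 : eval (s • x) (map σ (F k)) = s ^ g k * eval x (map σ (F k)) :=
        eval₂_scale (RingHom.id ℂ) ((hF k).map σ) s x
      rw [h2, eval_map]
      have := hFx k
      rw [show eval₂ σ x (F k) = aeval x (F k) from rfl, this, mul_zero]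
    · rw [ver_smul hm, hs]
      funext c
      exact hyc c
  refine ⟨fun t => ∑ i, C (c (t, i)) * q i, fun t => fam_hom hq2 _, hc1, ?_,
    fun σ => ⟨?_, ?_, ?_, ?_⟩⟩
  · intro Ω _ σ x hx
    letI : Algebra K Ω := σ.toAlgebra
    refine hyp_vanish σ q D c (ver m x) fun i => ?_
    rw [eval_map]
    refine hqv Ω x (fun k => ?_) i
    have := hx k
    rw [eval_map] at this
    exact this
  · intro f hf h0 hF' hnc z
    refine hpt σ _ ?_ ((hc2 σ).1 f hf h0 hF' hnc z)
    intro h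
    obtain ⟨j, hj⟩ := h0 z
    exact hj (congrFun h j)
  · intro L _ _ w y hw hy
    rcases (hc2 σ).2.1 L w y hw hy with h | h
    · left
      letI : Algebra K L := ((algebraMap ℂ L).comp σ).toAlgebra
      obtain ⟨-, x, a, b, hxa, hyb, hyc, hFx⟩ := hqr L y hy.ne (fun i => by
        have h1 := h i
        change eval₂ (algebraMap ℂ L) y (map σ (q i)) = 0 at h1
        rw [eval₂_map] at h1
        exact h1)
      refine ⟨x, y b, ?_, hyb, funext fun c => hyc c, fun k => ?_⟩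
      · intro h2
        rw [h2] at hxa
        exact zero_ne_one hxa
      · change eval₂ (algebraMap ℂ L) x (map σ (F k)) = 0
        rw [eval₂_map]
        exact hFx k
    · exact Or.inr h
  · intro E _ _ _ y hy0 hy
    rcases (hc2 σ).2.2.1 E y hy0 hy with h | h
    · exact Or.inl h
    · right
      letI : Algebra K E := ((algebraMap ℂ E).comp σ).toAlgebra
      obtain ⟨-, x, a, b, hxa, hyb, hyc, hFx⟩ := hqr E y hy0 (fun i => by
        have h1 := h i
        change eval₂ (algebraMap ℂ E) y (map σ (q i)) = 0 at h1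
        rw [eval₂_map] at h1
        exact h1)
      refine ⟨x, y b, ?_, hyb, funext fun c => hyc c, fun k => ?_⟩
      · intro h2
        rw [h2] at hxa
        exact zero_ne_one hxa
      · change eval₂ (algebraMap ℂ E) x (map σ (F k)) = 0
        rw [eval₂_map]
        exact hFx k
  · intro R f hR hf hF'
    rcases (hc2 σ).2.2.2 R f hR hf hF' with h | h
    · left
      intro z hz h0
      refine hpt σ _ ?_ (h z hz)
      intro h2
      obtain ⟨j, hj⟩ := h0
      exact hj (congrFun h2 j)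
    · exact Or.inr h

theorem geoc_all (hAlg : Alg_stm) (H4 : Leaves4) (hE : Ext_stm) : ∃ D₁ : ℕ → ℕ,
    ∀ n d : ℕ, 1 ≤ n → 3 ≤ d → ∀ (N : ℕ) (m : Fin (N + 1) → Fin (n + 1) → ℕ),
      Mon n N d m → 2 * n < N → ∀ D, D₁ N ≤ D → ∀ (K : Type) [Field K] [CharZero K] (σ : K →+* ℂ)
        (S : Set (MvPolynomial (Fin (n + 1)) K)), (∀ p ∈ S, ∃ e ≤ d, p.IsHomogeneous e) →
        ∃ Q : Fin (N * (2 * N + 1)) → MvPolynomial (Fin (N + 1)) K,
          (∀ t, (Q t).IsHomogeneous 2) ∧ Smooth (powerSum D Q) ∧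
          GoodAlg n N m (MvPolynomial.map σ '' S) (map σ (powerSum D Q)) ∧
          Good n N d m (MvPolynomial.map σ '' S) (map σ (powerSum D Q)) := by
  obtain ⟨D₁, H⟩ := geoc_geo hAlg H4
  refine ⟨D₁, fun n d hn hd N m hm hN D hD K _ _ σ S hS => ?_⟩
  have H2 := H n d hn hd N m hm hN
  have hd1 : 1 ≤ d := by omega
  obtain ⟨T, hT, hTS⟩ := reduce S
  have hT2 : ∀ p : T, ∃ e ≤ d, (p : MvPolynomial (Fin (n + 1)) K).IsHomogeneous e :=
    fun p => hS _ (hT p.2)
  choose e he hp using hT2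
  obtain ⟨Q, hQ, hsm, hv, hc⟩ := H2 D hD K T (fun p => (p : MvPolynomial (Fin (n + 1)) K)) e hp he
  -- zeros of the finite family are zeros of all equations
  have hS2 : ∀ (Ω : Type) [Field Ω] [Algebra ℂ Ω] (x : Fin (n + 1) → Ω),
      (∀ p : T, aeval x (map σ (p : MvPolynomial (Fin (n + 1)) K)) = 0) →
      ∀ p ∈ MvPolynomial.map σ '' S, aeval x p = 0 := by
    rintro Ω _ _ x hx _ ⟨p, hpS, rfl⟩
    have h1 := hTS Ω ((algebraMap ℂ Ω).comp σ) x (fun p hp => by
      have h2 := hx ⟨p, hp⟩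
      rw [eval_map]
      rw [aeval_def, eval₂_map] at h2
      exact h2) p hpS
    rw [eval_map] at h1
    rw [aeval_def, eval₂_map]
    exact h1
  have hS3 : ∀ x : Fin (n + 1) → ℂ, (∀ p : T, eval x (map σ (p : MvPolynomial (Fin (n + 1)) K)) = 0) →
      ∀ p ∈ MvPolynomial.map σ '' S, eval x p = 0 := by
    intro x hx p hp
    exact hS2 ℂ x hx p hp
  obtain ⟨c1, c2, c4, c3⟩ := hc σ
  refine ⟨Q, hQ, hsm, ?_, hm, hd1, ?_, ⟨_, (power_form hQ).map σ⟩, ?_, ?_, ?_, ?_⟩
  · intro E _ _ _ y hy0 hy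
    rcases c4 E y hy0 hy with h | ⟨x, c, hx, hc0, hyx, hxT⟩
    · exact Or.inl h
    · right
      exact ⟨x, c, hx, hc0, hS2 E x hxT, hyx⟩
  · rintro _ ⟨p, hp, rfl⟩
    obtain ⟨e, -, he⟩ := hS p hp
    exact ⟨e, he.map σ⟩
  · intro L _ _ x hx
    have h1 := hv L ((algebraMap ℂ L).comp σ) x (fun p => by
      have h2 := hx _ ⟨_, hT p.2, rfl⟩
      rw [aeval_def, eval₂_map] at h2
      rw [eval_map]
      exact h2)
    rw [eval_map] at h1
    rw [aeval_def, eval₂_map]
    exact h1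
  · -- entire curves
    intro f hf hf0 hfA
    by_cases hcon : ∀ z w, ∃ c : ℂ, f w = c • f z
    · exact Or.inl hcon
    · right
      intro z
      have hnc : ∃ i j z w, f z i * f w j ≠ f z j * f w i := by
        by_contra h2
        push Not at h2
        apply hcon
        intro z w
        obtain ⟨j0, hj0⟩ : ∃ j, f z j ≠ 0 := by
          by_contra h3
          push Not at h3
          exact hf0 z (funext h3)
        refine ⟨f w j0 / f z j0, funext fun i => ?_⟩
        rw [Pi.smul_apply, smul_eq_mul, div_mul_eq_mul_div, eq_div_iff hj0]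
        exact h2 i j0 w z
      obtain ⟨x, hx, hxT, hfx⟩ := c1 (fun j z => f z j) (fun j => (differentiable_pi.1 hf) j)
        (fun z => by
          by_contra h2
          push Not at h2
          exact hf0 z (funext h2)) (fun z => hfA z) hnc z
      exact ⟨x, hx, hS3 x hxT, hfx⟩
  · -- subvarieties
    intro L _ _ w y hw hy
    rcases c2 L w y hw ⟨hy.ne, fun _ => hy.mem ⟨_, rfl⟩, hy.gen, hy.dim⟩ with
      ⟨x, c, hx, hc0, hyx, hxT⟩ | h
    · right
      exact ⟨x, c, hx, hc0, hS2 L x hxT, hyx⟩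
    · exact Or.inl h
  · -- the punctured disc
    intro f hf hfn hfA
    have hmem : ∀ z ∈ Ext (1 : ℝ), z⁻¹ ∈ ball (0 : ℂ) 1 \ {0} := by
      intro z hz
      have hz1 : 1 < ‖z‖ := hz
      have hz0 : z ≠ 0 := Pool.Agent.W603.BP.ext_ne_zero zero_le_one hz
      refine ⟨?_, inv_ne_zero hz0⟩
      rw [mem_ball_zero_iff, norm_inv]
      exact inv_lt_one_of_one_lt₀ hz1
    have hinv : ∀ w ∈ ball (0 : ℂ) 1 \ {0}, w⁻¹ ∈ Ext (1 : ℝ) := by
      intro w hw
      have hw0 : w ≠ 0 := hw.2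
      change 1 < ‖w⁻¹‖
      rw [norm_inv]
      exact (one_lt_inv₀ (norm_pos_iff.2 hw0)).2 (mem_ball_zero_iff.1 hw.1)
    have hfan : ∀ j, ∀ w ∈ ball (0 : ℂ) 1 \ {0}, AnalyticAt ℂ (fun w => f w j) w := by
      intro j w hw
      have h1 : DifferentiableOn ℂ (fun w => f w j) (ball (0 : ℂ) 1 \ {0}) := fun w hw =>
        (differentiableWithinAt_pi.1 (hf w hw)) j
      exact h1.analyticAt (disc_open.mem_nhds hw)
    rcases c3 1 (fun j z => f z⁻¹ j) one_pos (by
      intro j z hz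
      exact AnalyticAt.comp' (f := fun z : ℂ => z⁻¹) (g := fun w => f w j) (hfan j _ (hmem z hz))
        (analyticAt_inv (Pool.Agent.W603.BP.ext_ne_zero zero_le_one hz))) (by
      intro z hz
      exact hfA _ (hmem z hz)) with h | h
    · right
      intro w hw hfw
      obtain ⟨x, hx, hxT, hfx⟩ := h _ (hinv w hw) (by
        rw [inv_inv]
        by_contra h2
        push Not at h2
        exact hfw (funext h2))
      rw [inv_inv] at hfx
      exact ⟨x, hx, hS3 x hxT, hfx⟩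
    · left
      change Extd f
      rw [hE N f hf hfn]
      rintro j k ⟨w, hw, hwk⟩
      obtain ⟨ρ, b, hρ, hb, hρf⟩ := h j k ⟨w⁻¹, hinv w hw, by
          change f w⁻¹⁻¹ k ≠ 0
          rwa [inv_inv]⟩
      have hb0 : 0 < b := lt_of_lt_of_le one_pos hb
      refine ⟨ρ, hρ, ?_⟩
      filter_upwards [Pool.Agent.W603.BP.PB_mem (inv_pos.2 hb0)] with w hw
      have h2 := hρf w⁻¹ (by
        have := Pool.Agent.W603.BP.inv_mem_Ext hw
        rwa [inv_inv] at this)
      rwa [inv_inv] at h2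

theorem t_geoc : GeoC_stm := by
  intro hAlg
  obtain ⟨D₁, H⟩ := geoc_all hAlg leaves4 t_ext
  refine ⟨D₁, fun n d hn hd N m hm hN D hD S hS => ?_⟩
  obtain ⟨Q, hQ, hsm, ha, hg⟩ := H n d hn hd N m hm hN D hD ℂ (RingHom.id ℂ) S hS
  have hS' : (MvPolynomial.map (RingHom.id ℂ) : MvPolynomial (Fin (n + 1)) ℂ → MvPolynomial (Fin (n + 1)) ℂ) '' S
      = S := by
    have h1 : (MvPolynomial.map (RingHom.id ℂ) : MvPolynomial (Fin (n + 1)) ℂ → MvPolynomial (Fin (n + 1)) ℂ)
        = id := funext fun p => MvPolynomial.map_id p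
    rw [h1, Set.image_id]
  rw [hS', MvPolynomial.map_id] at ha hg
  exact ⟨Q, hQ, hsm, hg, ha⟩

end Pool.Agent.N254.SQ
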