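import Pool.Agent.N254.SQ.StmA
import Pool.Agent.W603.LV.Blk2

/-! # Project SQ: minimal vanishing sums over function fields (part HBLK, helper61).

After `blocks` in `Pool/Agent/W603/LV/Blk2.lean`. -/

set_option autoImplicit false

open FF

namespace Pool.Agent.N254.SQ

open Pool.Agent.W603.LV

theorem t_hblk (h : Hineq_stm) : Hblk_stm := by
  classical
  intro k _ _ _ E _ _ _ S J _ s D hs hD0 hD g hg0 hrel hmin hgap i0 j0
  set χ : ℤ := max (canDeg k E + S.card) 0 with hχ
  have hχ0 : 0 ≤ χ := le_max_right _ _
  set B : ℤ := 2 * tri s * χ with hB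
  have hB0 : 0 ≤ B := mul_nonneg (mul_nonneg (by norm_num) (tri_nonneg s)) hχ0
  let G : SimpleGraph J :=
    { Adj := fun i j => i ≠ j ∧ hgt k (g i / g j) ≤ B
      symm := by
        refine ⟨?_⟩
        rintro i j ⟨h1, h2⟩
        refine ⟨h1.symm, ?_⟩
        rw [← hgt_inv, inv_div]; exact h2
      loopless := ⟨fun i h => h.1 rfl⟩ }
  have hwalk : ∀ (i j : J) (p : G.Walk i j), hgt k (g i / g j) ≤ p.length * B := by
    intro i j p
    induction p with
    | nil =>
      rw [div_self (hg0 _), hgt_one]; simp
    | cons h p ih =>
      rename_i u v w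
      rw [SimpleGraph.Walk.length_cons]
      have h1 : g u / g w = (g u / g v) * (g v / g w) := by
        have := hg0 v
        have := hg0 w
        field_simp
      rw [h1]
      have h2 := hgt_mul (k := k) (div_ne_zero (hg0 u) (hg0 v)) (div_ne_zero (hg0 v) (hg0 w))
      have h3 := h.2
      push_cast
      linarith
  have key := class_sum (k := k) g G.Reachable G.reachable_is_equivalence (by
      intro m e he c hc hrel' hlin i j
      by_cases hij : e i = e j
      · rw [hij]
      apply SimpleGraph.Adj.reachable
      refine ⟨hij, ?_⟩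
      have hm : m + 1 ≤ s := by
        have := Fintype.card_le_of_injective e he
        simp only [Fintype.card_fin] at this
        omega
      have hm2 : 2 * m ^ 2 ≤ D := by
        have : m ^ 2 ≤ s ^ 2 := Nat.pow_le_pow_left (by omega) 2
        omega
      have h1 := h k E S m D hD0 hm2
        (fun i => c i • g (e i)) (fun i => smul_ne_zero (hc i) (hg0 _)) hrel' hlin (by
          intro P hP i j
          rw [ord_smul P (hc i), ord_smul P (hc j)]
          exact hgap P hP _ _) i j
      have h2 : hgt k (g (e i) / g (e j)) = hgt k (c i • g (e i) / c j • g (e j)) := by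
        refine hgt_congr fun P => ?_
        rw [P.ord_div (hg0 _) (hg0 _), P.ord_div (smul_ne_zero (hc i) (hg0 _))
          (smul_ne_zero (hc j) (hg0 _)), ord_smul P (hc i), ord_smul P (hc j)]
      rw [h2]
      refine h1.trans ?_
      have h3 : (2 : ℤ) * tri m ≤ 2 * tri s :=
        mul_le_mul_of_nonneg_left (tri_mono (by omega)) (by norm_num)
      exact mul_le_mul_of_nonneg_right h3 hχ0)
      (Finset.univ.filter fun j => (fun _ : J => (1 : k)) j ≠ 0).card (fun _ => 1) le_rfl
      (by simpa using hrel) i0
  simp only [one_smul] at key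
  have hreach : G.Reachable i0 j0 := by
    by_contra hcon
    refine hmin (Finset.univ.filter fun j => G.Reachable i0 j) ?_ ?_ (by convert key)
    · exact ⟨i0, by simp⟩
    · intro hu
      have : j0 ∈ Finset.univ.filter fun j => G.Reachable i0 j := by rw [hu]; exact Finset.mem_univ _
      rw [Finset.mem_filter] at this
      exact hcon this.2
  obtain ⟨p, hp⟩ := hreach.exists_isPath
  have h1 := hwalk i0 j0 p
  have h2 : p.length ≤ s := by
    have := hp.length_lt
    omega
  refine h1.trans ?_
  have h3 : (p.length : ℤ) ≤ s := by exact_mod_cast h2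
  exact mul_le_mul_of_nonneg_right h3 hB0

end Pool.Agent.N254.SQ
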