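import Pool.Agent.N254.SQ.StmA
import Pool.Agent.W603.PV.Hgt

/-!
Project SQ, eighth part: HFORM, heights and zeros of forms along a curve. By helper711.
-/

set_option autoImplicit false
set_option linter.unusedSectionVars false

namespace Pool.Agent.N254.SQ

open MvPolynomial FF
open Pool.Agent.W603.LV (canDeg hgt tri Ge sum_ord_finset exists_supp hgt_finset)
open Pool.Agent.W603.PV (pht pord pord_le exists_pord ge_pord ge_form pht_le)

section hform

variable {k : Type} [Field k] [IsAlgClosed k] [CharZero k] {E : Type} [Field E] [Algebra k E]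
  [IsFF k E]

theorem hform_ne {n : ℕ} {y : Fin (n + 1) → E} (hy : y ≠ 0) : ∃ j, y j ≠ 0 :=
  Function.ne_iff.1 hy

theorem hform_pord_zero {n : ℕ} {y : Fin (n + 1) → E} (hy : y ≠ 0) (P : Place k E)
    (h : ∀ j, P.ord (y j) = 0) : pord P y = 0 := by
  obtain ⟨j, -, hj⟩ := exists_pord P (hform_ne hy)
  rw [← hj, h j]

theorem hform_pht {n : ℕ} {y : Fin (n + 1) → E} (hy : y ≠ 0) (T : Finset (Place k E))
    (hT : ∀ j, ∀ P : Place k E, P.ord (y j) ≠ 0 → P ∈ T) : pht k y = -∑ P ∈ T, pord P y := by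
  unfold pht
  rw [finsum_eq_sum_of_support_subset (s := T)]
  intro P hP
  by_contra hcon
  exact hP (hform_pord_zero hy P fun j => by
    by_contra h
    exact hcon (hT j P h))

theorem hform_ge {n e : ℕ} (P : Place k E) (y : Fin (n + 1) → E) {G : MvPolynomial (Fin (n + 1)) k}
    (hG : G.IsHomogeneous e) (hG0 : aeval y G ≠ 0) : e * pord P y ≤ P.ord (aeval y G) :=
  (ge_form P y hG fun _ _ => Pool.Agent.W603.LV.Ge.const _).resolve_left hG0

theorem hform_zeros {n e : ℕ} {y : Fin (n + 1) → E} (hy : y ≠ 0)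
    {G : MvPolynomial (Fin (n + 1)) k} (hG : G.IsHomogeneous e) (hG0 : aeval y G ≠ 0) :
    ∃ S : Finset (Place k E), (S.card : ℤ) ≤ e * pht k y ∧
      ∀ P ∉ S, P.ord (aeval y G) = e * pord P y := by
  classical
  obtain ⟨T1, hT1⟩ := exists_supp (k := k) Finset.univ y
  obtain ⟨T2, hT2⟩ := exists_supp (k := k) (Finset.univ : Finset (Fin 1)) ![aeval y G]
  obtain ⟨T, hT⟩ : ∃ T, T = T1 ∪ T2 := ⟨_, rfl⟩
  have h1 : ∀ j, ∀ P : Place k E, P.ord (y j) ≠ 0 → P ∈ T := fun j P hP => by
    rw [hT]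
    exact Finset.mem_union_left _ (hT1 j (Finset.mem_univ j) P hP)
  have h2 : ∀ P : Place k E, P.ord (aeval y G) ≠ 0 → P ∈ T := fun P hP => by
    rw [hT]
    exact Finset.mem_union_right _ (hT2 0 (Finset.mem_univ _) P hP)
  refine ⟨T.filter fun P => P.ord (aeval y G) ≠ e * pord P y, ?_, fun P hP => ?_⟩
  · have h3 : (e : ℤ) * pht k y = ∑ P ∈ T, (P.ord (aeval y G) - e * pord P y) := by
      rw [Finset.sum_sub_distrib, sum_ord_finset _ T h2, ← Finset.mul_sum, hform_pht hy T h1]
      ring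
    rw [h3, Finset.card_filter, Nat.cast_sum]
    refine Finset.sum_le_sum fun P _ => ?_
    have h4 := hform_ge P y hG hG0
    split_ifs with h5
    · rw [Nat.cast_one]
      omega
    · rw [Nat.cast_zero]
      omega
  · by_cases hPT : P ∈ T
    · by_contra h
      exact hP (Finset.mem_filter.2 ⟨hPT, h⟩)
    · have h3 : P.ord (aeval y G) = 0 := by
        by_contra h
        exact hPT (h2 P h)
      rw [h3, hform_pord_zero hy P fun j => by
        by_contra h
        exact hPT (h1 j P h), mul_zero]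

theorem hform_ratio {n e : ℕ} {y : Fin (n + 1) → E} (hy : y ≠ 0)
    {G₁ G₂ : MvPolynomial (Fin (n + 1)) k} (hG₁ : G₁.IsHomogeneous e) (hG₂ : G₂.IsHomogeneous e)
    (h₁ : aeval y G₁ ≠ 0) (h₂ : aeval y G₂ ≠ 0) :
    hgt k (aeval y G₁ / aeval y G₂) ≤ e * pht k y := by
  classical
  obtain ⟨T1, hT1⟩ := exists_supp (k := k) Finset.univ y
  obtain ⟨T2, hT2⟩ := exists_supp (k := k) (Finset.univ : Finset (Fin 2)) ![aeval y G₁, aeval y G₂]
  obtain ⟨T, hT⟩ : ∃ T, T = T1 ∪ T2 := ⟨_, rfl⟩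
  have h1 : ∀ j, ∀ P : Place k E, P.ord (y j) ≠ 0 → P ∈ T := fun j P hP => by
    rw [hT]
    exact Finset.mem_union_left _ (hT1 j (Finset.mem_univ j) P hP)
  have h2 : ∀ P : Place k E, P.ord (aeval y G₁) ≠ 0 → P ∈ T := fun P hP => by
    rw [hT]
    exact Finset.mem_union_right _ (hT2 0 (Finset.mem_univ _) P hP)
  have h3 : ∀ P : Place k E, P.ord (aeval y G₂) ≠ 0 → P ∈ T := fun P hP => by
    rw [hT]
    exact Finset.mem_union_right _ (hT2 1 (Finset.mem_univ _) P hP)
  have h4 : ∀ P : Place k E, P.ord (aeval y G₁ / aeval y G₂) ≠ 0 → P ∈ T := by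
    intro P hP
    by_contra hcon
    apply hP
    have h5 : P.ord (aeval y G₁) = 0 := by by_contra h; exact hcon (h2 P h)
    have h6 : P.ord (aeval y G₂) = 0 := by by_contra h; exact hcon (h3 P h)
    rw [P.ord_div h₁ h₂, h5, h6]
    rfl
  have h5 : (e : ℤ) * pht k y = ∑ P ∈ T, (P.ord (aeval y G₂) - e * pord P y) := by
    rw [Finset.sum_sub_distrib, sum_ord_finset _ T h3, ← Finset.mul_sum, hform_pht hy T h1]
    ring
  rw [h5, hgt_finset _ T h4]
  refine Finset.sum_le_sum fun P _ => ?_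
  have h6 := hform_ge P y hG₁ h₁
  have h7 := hform_ge P y hG₂ h₂
  rw [P.ord_div h₁ h₂]
  omega

/-- the coordinates are linear combinations of the values of the linear forms -/
theorem hform_vdm {n : ℕ} (y : Fin (n + 1) → E) {p : Fin (n + 1) → ℕ} (hp : Function.Injective p) :
    ∃ A : Fin (n + 1) → Fin (n + 1) → k, ∀ j,
      y j = ∑ i, algebraMap k E (A j i) * aeval y (lin k n (p i)) := by
  obtain ⟨V, hV⟩ : ∃ V : Matrix (Fin (n + 1)) (Fin (n + 1)) k,
      V = Matrix.vandermonde fun i => (p i : k) := ⟨_, rfl⟩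
  have hdet : V.det ≠ 0 := by
    rw [hV]
    exact Matrix.det_vandermonde_ne_zero_iff.2 fun i j h => hp (by exact_mod_cast h)
  have hinv : V⁻¹ * V = 1 := Matrix.nonsing_inv_mul V (Ne.isUnit hdet)
  refine ⟨fun j i => V⁻¹ j i, fun j => ?_⟩
  have h1 : ∀ i, aeval y (lin k n (p i)) = ∑ l, algebraMap k E (V i l) * y l := by
    intro i
    unfold lin
    rw [map_sum]
    refine Finset.sum_congr rfl fun l _ => ?_
    rw [map_mul, aeval_C, aeval_X, hV, Matrix.vandermonde_apply]
  have h2 : ∀ l, ∑ i, V⁻¹ j i * V i l = if j = l then 1 else 0 := by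
    intro l
    rw [← Matrix.mul_apply, hinv, Matrix.one_apply]
  calc y j = ∑ l, algebraMap k E (∑ i, V⁻¹ j i * V i l) * y l := by
        simp only [h2]
        simp
    _ = ∑ l, ∑ i, algebraMap k E (V⁻¹ j i) * (algebraMap k E (V i l) * y l) := by
        refine Finset.sum_congr rfl fun l _ => ?_
        rw [map_sum, Finset.sum_mul]
        refine Finset.sum_congr rfl fun i _ => ?_
        rw [map_mul, mul_assoc]
    _ = ∑ i, algebraMap k E (V⁻¹ j i) * aeval y (lin k n (p i)) := by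
        rw [Finset.sum_comm]
        refine Finset.sum_congr rfl fun i _ => ?_
        rw [h1 i, Finset.mul_sum]

theorem hform_top {n : ℕ} {y : Fin (n + 1) → E} (hy : y ≠ 0) {p : Fin (n + 1) → ℕ}
    (hp : Function.Injective p) (hl : ∀ i, aeval y (lin k n (p i)) ≠ 0) :
    pht k y ≤ ∑ i, hgt k (aeval y (lin k n (p i)) / aeval y (lin k n (p 0))) := by
  classical
  obtain ⟨l, hld⟩ : ∃ l : Fin (n + 1) → E, l = fun i => aeval y (lin k n (p i)) := ⟨_, rfl⟩
  have hl0 : l 0 ≠ 0 := by rw [hld]; exact hl 0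
  have hlne : l ≠ 0 := fun h => hl0 (congrFun h 0)
  have hmain := pht_le (k := k) l hl0
  have hmain2 : ∑ j, hgt k (l j / l 0) =
      ∑ i, hgt k (aeval y (lin k n (p i)) / aeval y (lin k n (p 0))) := by rw [hld]
  rw [hmain2] at hmain
  refine le_trans ?_ hmain
  obtain ⟨A, hA⟩ := hform_vdm (k := k) y hp
  have hord : ∀ P : Place k E, pord P l ≤ pord P y := by
    intro P
    obtain ⟨j, hj, h⟩ := exists_pord P (hform_ne hy)
    rw [← h]
    have h1 : Ge P (pord P l) (y j) := by
      rw [hA j]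
      refine Pool.Agent.W603.LV.Ge.sum _ _ fun i _ => ?_
      have h2 := (Pool.Agent.W603.LV.Ge.const (P := P) (A j i)).mul (ge_pord P l i)
      rw [zero_add] at h2
      rw [hld] at h2 ⊢
      exact h2
    exact h1.resolve_left hj
  obtain ⟨T1, hT1⟩ := exists_supp (k := k) Finset.univ y
  obtain ⟨T2, hT2⟩ := exists_supp (k := k) Finset.univ l
  obtain ⟨T, hT⟩ : ∃ T, T = T1 ∪ T2 := ⟨_, rfl⟩
  rw [hform_pht hy T fun j P hP => by
      rw [hT]
      exact Finset.mem_union_left _ (hT1 j (Finset.mem_univ j) P hP),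
    hform_pht hlne T fun j P hP => by
      rw [hT]
      exact Finset.mem_union_right _ (hT2 j (Finset.mem_univ j) P hP)]
  exact neg_le_neg (Finset.sum_le_sum fun P _ => hord P)

theorem hform_ord_prod {ι : Type} (P : Place k E) (s : Finset ι) (f : ι → E)
    (h : ∀ i ∈ s, f i ≠ 0) : P.ord (∏ i ∈ s, f i) = ∑ i ∈ s, P.ord (f i) := by
  classical
  induction s using Finset.induction_on with
  | empty => rw [Finset.prod_empty, Finset.sum_empty, P.ord_one]
  | insert a s ha ih =>
    rw [Finset.prod_insert ha, Finset.sum_insert ha,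
      P.ord_mul (h a (Finset.mem_insert_self a s))
        (Finset.prod_ne_zero_iff.2 fun i hi => h i (Finset.mem_insert_of_mem hi)),
      ih fun i hi => h i (Finset.mem_insert_of_mem hi)]

theorem hform_pord_ver {n N d : ℕ} {m : Fin (N + 1) → Fin (n + 1) → ℕ} (hm : Mon n N d m)
    {x : Fin (n + 1) → E} {c : E} (hx : x ≠ 0) (hc : c ≠ 0) (P : Place k E) :
    pord P (c • ver m x) = P.ord c + d * pord P x := by
  classical
  -- a monomial with only one variable
  obtain ⟨j, hj, hj2⟩ := exists_pord P (hform_ne hx)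
  obtain ⟨a, ha⟩ := hm.surj (Pi.single j d) (by simp)
  have h1 : ver m x a = x j ^ d := by
    unfold ver
    rw [ha, Finset.prod_eq_single j]
    · rw [Pi.single_eq_same]
    · intro i _ hi
      rw [Pi.single_eq_of_ne hi, pow_zero]
    · intro h
      exact absurd (Finset.mem_univ _) h
  have h2 : (c • ver m x) a = c * x j ^ d := by
    rw [Pi.smul_apply, smul_eq_mul, h1]
  have h3 : (c • ver m x) a ≠ 0 := by
    rw [h2]
    exact mul_ne_zero hc (pow_ne_zero _ hj)
  apply le_antisymm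
  · refine (pord_le P h3).trans (le_of_eq ?_)
    rw [h2, P.ord_mul hc (pow_ne_zero _ hj), P.ord_pow, hj2]
  · obtain ⟨b, hb, hb2⟩ := exists_pord P ⟨a, h3⟩
    rw [← hb2]
    have h4 : (c • ver m x) b = c * ∏ i, x i ^ m b i := rfl
    rw [h4] at hb ⊢
    have h5 : ∏ i, x i ^ m b i ≠ 0 := right_ne_zero_of_mul hb
    rw [P.ord_mul hc h5]
    have h6 := Pool.Agent.W603.LV.Ge.prod (P := P) Finset.univ (fun i => x i ^ m b i) (fun i => m b i * pord P x)
      (fun i _ => (ge_pord P x i).pow (m b i))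
    have h7 := h6.resolve_left h5
    have h8 : ∑ i, ((m b i : ℤ) * pord P x) = d * pord P x := by
      rw [← Finset.sum_mul]
      congr 1
      exact_mod_cast hm.deg b
    rw [h8] at h7
    linarith

theorem hform_ver {n N d : ℕ} {m : Fin (N + 1) → Fin (n + 1) → ℕ} (hm : Mon n N d m)
    {x : Fin (n + 1) → E} {c : E} (hx : x ≠ 0) (hc : c ≠ 0) :
    pht k (c • ver m x) = d * pht k x := by
  classical
  obtain ⟨T1, hT1⟩ := exists_supp (k := k) Finset.univ x
  obtain ⟨T2, hT2⟩ := exists_supp (k := k) (Finset.univ : Finset (Fin 1)) ![c]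
  obtain ⟨T, hT⟩ : ∃ T, T = T1 ∪ T2 := ⟨_, rfl⟩
  have h1 : ∀ j, ∀ P : Place k E, P.ord (x j) ≠ 0 → P ∈ T := fun j P hP => by
    rw [hT]
    exact Finset.mem_union_left _ (hT1 j (Finset.mem_univ j) P hP)
  have h2 : ∀ P : Place k E, P.ord c ≠ 0 → P ∈ T := fun P hP => by
    rw [hT]
    exact Finset.mem_union_right _ (hT2 0 (Finset.mem_univ _) P hP)
  rw [hform_pht hx T h1]
  unfold pht
  rw [finsum_eq_sum_of_support_subset (s := T)]
  · rw [Finset.sum_congr rfl fun P _ => hform_pord_ver hm hx hc P, Finset.sum_add_distrib,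
      sum_ord_finset _ T h2, ← Finset.mul_sum]
    ring
  · intro P hP
    by_contra hcon
    apply hP
    have h3 : P.ord c = 0 := by
      by_contra h
      exact hcon (h2 P h)
    have h4 : pord P x = 0 := hform_pord_zero hx P fun j => by
      by_contra h
      exact hcon (h1 j P h)
    change pord P (c • ver m x) = 0
    rw [hform_pord_ver hm hx hc P, h3, h4]
    simp

end hform

theorem t_hform : Hform where
  zeros := fun k _ _ _ E _ _ _ n e y hy G hG hG0 => hform_zeros hy hG hG0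
  ratio := fun k _ _ _ E _ _ _ n e y hy G₁ G₂ hG₁ hG₂ h₁ h₂ => hform_ratio hy hG₁ hG₂ h₁ h₂
  top := fun k _ _ _ E _ _ _ n y hy p hp hl => hform_top hy hp hl
  ver := fun k _ _ _ E _ _ _ n N d m hm x c hx hc => hform_ver hm hx hc

end Pool.Agent.N254.SQ
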