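import Pool.Agent.N254.SQ.StmA
import Pool.Agent.W603.LV.Hgt

/-!
Project SQ, HINEQ: the height inequality over function fields with large zeros outside of `S`
(helper340).
-/

set_option autoImplicit false

namespace Pool.Agent.N254.SQ

open FF
open Pool.Agent.W603.LV

theorem hineq_arith {m D H c s t : ℤ} (hm : 0 ≤ m) (hD : 1 ≤ D) (hDm : 2 * m ^ 2 ≤ D)
    (hH : 0 ≤ H) (ht : 0 ≤ t) {r : ℤ} (hr0 : 0 ≤ r) (hr : r ≤ m - 1 ∨ r = 0)
    (h1 : H ≤ t * c + r * s) (h7 : D * s ≤ (m + 1) * H) : H ≤ 2 * t * max c 0 := by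
  have h2 : D * H ≤ D * (t * c) + r * ((m + 1) * H) := by
    have h10 := mul_le_mul_of_nonneg_left h1 (show (0 : ℤ) ≤ D by linarith)
    have h11 := mul_le_mul_of_nonneg_left h7 hr0
    nlinarith
  have h3 : r * (m + 1) ≤ m ^ 2 := by
    rcases hr with h | h
    · nlinarith
    · rw [h]
      nlinarith [sq_nonneg m]
  have h4 : r * ((m + 1) * H) ≤ m ^ 2 * H := by
    rw [← mul_assoc]
    exact mul_le_mul_of_nonneg_right h3 hH
  have h5 : 2 * m ^ 2 * H ≤ D * H := mul_le_mul_of_nonneg_right hDm hH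
  have h6 : D * H ≤ D * (2 * t * c) := by nlinarith
  have h8 : H ≤ 2 * t * c := le_of_mul_le_mul_left h6 (by linarith)
  exact h8.trans (mul_le_mul_of_nonneg_left (le_max_left _ _) (by linarith))

section

variable {k K : Type} [Field k] [Field K] [Algebra k K] [CharZero k] [IsFF k K] [IsAlgClosed k]

theorem hineq_main (S : Finset (Place k K)) {m N : ℕ} (hN0 : 1 ≤ N) (hN : 2 * m ^ 2 ≤ N)
    (f : Fin (m + 1) → K) (hf0 : ∀ i, f i ≠ 0) (hsum : ∑ i, f i = 0)
    (hlin : LinearIndependent k (fun l => f ((Fin.last m).succAbove l)))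
    (hdvd : ∀ P ∉ S, ∀ i j, P.ord (f j) < P.ord (f i) → (N : ℤ) ≤ P.ord (f i) - P.ord (f j))
    (i j : Fin (m + 1)) :
    hgt k (f i / f j) ≤ 2 * tri m * max (canDeg k K + S.card) 0 := by
  classical
  obtain ⟨D, hD⟩ := exists_der (k := k) (K := K)
  have hW := wr_ne_zero hD _ hlin
  set W := wr D (fun l => f ((Fin.last m).succAbove l)) with hWd
  -- the minimal orders
  have hmin : ∀ P : Place k K, ∃ i0, ∀ i, P.ord (f i0) ≤ P.ord (f i) := by
    intro P
    obtain ⟨i0, -, h⟩ := Finset.exists_min_image Finset.univ (fun i => P.ord (f i))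
      ⟨0, Finset.mem_univ _⟩
    exact ⟨i0, fun i => h i (Finset.mem_univ _)⟩
  choose i0 hi0 using hmin
  set μ : Place k K → ℤ := fun P => P.ord (f (i0 P)) with hμ
  -- a large finite set
  obtain ⟨T1, hT1⟩ := exists_supp (k := k) Finset.univ f
  obtain ⟨T2, hT2⟩ := exists_supp (k := k) (Finset.univ : Finset (Fin 1)) ![W]
  set T : Finset (Place k K) := T1 ∪ T2 ∪ (vo_finite hD).toFinset ∪ S with hT
  have hTf : ∀ i, ∀ P : Place k K, P.ord (f i) ≠ 0 → P ∈ T := by
    intro i P hP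
    have := hT1 i (Finset.mem_univ _) P hP
    simp [hT, this]
  have hTW : ∀ P : Place k K, P.ord W ≠ 0 → P ∈ T := by
    intro P hP
    have := hT2 0 (Finset.mem_univ _) P hP
    simp [hT, this]
  have hTv : ∀ P : Place k K, vo P D ≠ 0 → P ∈ T := by
    intro P hP
    simp [hT, hP]
  have hST : S ⊆ T := by
    intro P hP
    simp [hT, hP]
  set n : Place k K → ℤ := fun P => ((Finset.univ.filter fun i => μ P < P.ord (f i)).card : ℤ)
    with hn
  set H : ℤ := - ∑ P ∈ T, μ P with hH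
  have hsumf : ∀ i, ∑ P ∈ T, P.ord (f i) = 0 := fun i => sum_ord_finset _ T (hTf i)
  -- local estimates
  have hloc : ∀ P ∈ T, tri m * vo P D + ∑ i, P.ord (f i) - μ P -
      (if P ∈ S then tri m else ((m - 1 : ℕ) : ℤ) * n P) ≤ P.ord W := by
    intro P _
    refine local_est P hD f hf0 hsum hW (μ P) (hi0 P) (i0 P) rfl _ ?_
    by_cases hPS : P ∈ S
    · left; rw [if_pos hPS]
    · right; rw [if_neg hPS]
  have h1 := Finset.sum_le_sum hloc
  rw [sum_ord_finset W T hTW] at h1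
  have h2 : ∑ P ∈ T, (tri m * vo P D + ∑ i, P.ord (f i) - μ P -
      (if P ∈ S then tri m else ((m - 1 : ℕ) : ℤ) * n P)) =
      tri m * (- canDeg k K) + H - (tri m * S.card + ((m - 1 : ℕ) : ℤ) * ∑ P ∈ T \ S, n P) := by
    rw [Finset.sum_sub_distrib, Finset.sum_sub_distrib, Finset.sum_add_distrib, ← Finset.mul_sum,
      canDeg_finset hD T hTv, Finset.sum_comm, Finset.sum_congr rfl fun i _ => hsumf i]
    have h3 : ∑ P ∈ T, (if P ∈ S then tri m else ((m - 1 : ℕ) : ℤ) * n P) =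
        tri m * S.card + ((m - 1 : ℕ) : ℤ) * ∑ P ∈ T \ S, n P := by
      rw [← Finset.sum_sdiff hST, add_comm, Finset.mul_sum]
      congr 1
      · rw [Finset.sum_congr rfl fun P hP => if_pos hP, Finset.sum_const, nsmul_eq_mul, mul_comm]
      · exact Finset.sum_congr rfl fun P hP => if_neg (Finset.mem_sdiff.1 hP).2
    rw [h3, hH]
    simp only [Finset.sum_const_zero, add_zero]
    ring
  rw [h2] at h1
  -- large zeros
  have h4 : ∀ P ∈ T \ S, (N : ℤ) * n P ≤ ∑ i, (P.ord (f i) - μ P) := by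
    intro P hP
    have hPS := (Finset.mem_sdiff.1 hP).2
    have h5 : (N : ℤ) * n P = ∑ i, if μ P < P.ord (f i) then (N : ℤ) else 0 := by
      rw [← Finset.sum_filter, Finset.sum_const, nsmul_eq_mul, mul_comm]
    rw [h5]
    refine Finset.sum_le_sum fun i _ => ?_
    split_ifs with h6
    · exact hdvd P hPS i (i0 P) h6
    · exact sub_nonneg.2 (hi0 P i)
  have h5 : ∀ P ∈ T, 0 ≤ ∑ i, (P.ord (f i) - μ P) := fun P _ =>
    Finset.sum_nonneg fun i _ => sub_nonneg.2 (hi0 P i)
  have h6 : ∑ P ∈ T, ∑ i, (P.ord (f i) - μ P) = (m + 1) * H := by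
    rw [Finset.sum_comm]
    have : ∀ i : Fin (m + 1), ∑ P ∈ T, (P.ord (f i) - μ P) = H := by
      intro i
      rw [Finset.sum_sub_distrib, hsumf, hH]; ring
    rw [Finset.sum_congr rfl fun i _ => this i, Finset.sum_const]
    simp
  have h7 : (N : ℤ) * ∑ P ∈ T \ S, n P ≤ (m + 1) * H := by
    rw [← h6, Finset.mul_sum]
    refine (Finset.sum_le_sum h4).trans ?_
    exact Finset.sum_le_sum_of_subset_of_nonneg Finset.sdiff_subset fun P hP _ => h5 P hP
  have hH0 : 0 ≤ H := by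
    have : ∑ P ∈ T, (P.ord (f 0) - μ P) = H := by
      rw [Finset.sum_sub_distrib, hsumf, hH]; ring
    rw [← this]
    exact Finset.sum_nonneg fun P _ => sub_nonneg.2 (hi0 P 0)
  have htri : (0 : ℤ) ≤ tri m := by
    unfold tri
    positivity
  have h8 : H ≤ 2 * tri m * max (canDeg k K + S.card) 0 := by
    refine hineq_arith (m := (m : ℤ)) (D := (N : ℤ)) (s := ∑ P ∈ T \ S, n P)
      (r := ((m - 1 : ℕ) : ℤ)) (by positivity) (by exact_mod_cast hN0) (by exact_mod_cast hN)
      hH0 htri (by positivity) (by omega) (by linarith) h7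
  refine le_trans ?_ h8
  -- the height of a ratio
  have hij : ∀ P : Place k K, P.ord (f i / f j) ≠ 0 → P ∈ T := by
    intro P hP
    by_contra hcon
    apply hP
    have h9 : P.ord (f i) = 0 := by
      by_contra h; exact hcon (hTf i P h)
    have h10 : P.ord (f j) = 0 := by
      by_contra h; exact hcon (hTf j P h)
    rw [P.ord_div (hf0 i) (hf0 j), h9, h10]; rfl
  rw [hgt_finset _ T hij]
  have h9 : ∑ P ∈ T, (P.ord (f j) - μ P) = H := by
    rw [Finset.sum_sub_distrib, hsumf, hH]; ring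
  rw [← h9]
  refine Finset.sum_le_sum fun P _ => ?_
  rw [P.ord_div (hf0 i) (hf0 j)]
  have := hi0 P i
  have := hi0 P j
  simp only [hμ]
  omega

end

theorem t_hineq : Hineq_stm := by
  intro k _ _ _ E _ _ _ S m D h1 h2 f hf0 hsum hlin hdvd i j
  exact hineq_main S h1 h2 f hf0 hsum hlin hdvd i j

end Pool.Agent.N254.SQ
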