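import Pool.Agent.N254.SQ.StmR

/-!
The exceptional sets are closed sets (helper499).
-/

set_option autoImplicit false

namespace Pool.Agent.N254.SQ

open MvPolynomial Metric
open Pool.Agent.W602.GT (SubVar GeneralType coords)
open scoped LinearAlgebra.Projectivization

theorem idlR_pow {R : Type} [Field R] {a : R} {r : ℕ} (h : a ^ r = 0) : a = 0 := by
  by_contra h1
  exact pow_ne_zero r h1 h

theorem idlR_special (n : ℕ) (S : Set (MvPolynomial (Fin (n + 1)) ℂ)) : Idl (OnSpecial S) where
  zero := fun L _ _ w y _ _ => Or.inr (map_zero _)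
  add := fun e G G' _ _ h h' L _ _ w y hw hy => by
    rcases h L w y hw hy with h1 | h1
    · exact Or.inl h1
    rcases h' L w y hw hy with h2 | h2
    · exact Or.inl h2
    exact Or.inr (by rw [map_add, h1, h2, add_zero])
  mul := fun G F _ _ h L _ _ w y hw hy => by
    rcases h L w y hw hy with h1 | h1
    · exact Or.inl h1
    exact Or.inr (by rw [map_mul, h1, zero_mul])
  rad := fun G r _ h L _ _ w y hw hy => by
    rcases h L w y hw hy with h1 | h1
    · exact Or.inl h1
    rw [map_pow] at h1
    exact Or.inr (idlR_pow h1)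

theorem idlR_curves (n : ℕ) (S : Set (MvPolynomial (Fin (n + 1)) ℂ)) : Idl (OnCurves S) where
  zero := fun f _ _ _ => Or.inr fun z => map_zero _
  add := fun e G G' _ _ h h' f hf h0 hS => by
    rcases h f hf h0 hS with h1 | h1
    · exact Or.inl h1
    rcases h' f hf h0 hS with h2 | h2
    · exact Or.inl h2
    exact Or.inr fun z => by rw [map_add, h1 z, h2 z, add_zero]
  mul := fun G F _ _ h f hf h0 hS => by
    rcases h f hf h0 hS with h1 | h1
    · exact Or.inl h1
    exact Or.inr fun z => by rw [map_mul, h1 z, zero_mul]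
  rad := fun G r _ h f hf h0 hS => by
    rcases h f hf h0 hS with h1 | h1
    · exact Or.inl h1
    refine Or.inr fun z => ?_
    have h2 := h1 z
    rw [map_pow] at h2
    exact idlR_pow h2

theorem idlR_discs (n : ℕ) (S : Set (MvPolynomial (Fin (n + 1)) ℂ)) : Idl (OnDiscs S) where
  zero := fun f _ _ _ => Or.inr fun z _ => map_zero _
  add := fun e G G' _ _ h h' f hf h0 hS => by
    rcases h f hf h0 hS with h1 | h1
    · exact Or.inl h1
    rcases h' f hf h0 hS with h2 | h2
    · exact Or.inl h2
    exact Or.inr fun z hz => by rw [map_add, h1 z hz, h2 z hz, add_zero]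
  mul := fun G F _ _ h f hf h0 hS => by
    rcases h f hf h0 hS with h1 | h1
    · exact Or.inl h1
    exact Or.inr fun z hz => by rw [map_mul, h1 z hz, zero_mul]
  rad := fun G r _ h f hf h0 hS => by
    rcases h f hf h0 hS with h1 | h1
    · exact Or.inl h1
    refine Or.inr fun z hz => ?_
    have h2 := h1 z hz
    rw [map_pow] at h2
    exact idlR_pow h2

theorem idlR_points (n : ℕ) (K : Subfield ℂ) (S : Set (MvPolynomial (Fin (n + 1)) ℂ)) :
    Idl (OnPoints K S) where
  zero := fun x _ _ _ => map_zero _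
  add := fun e G G' _ _ h h' x hx hK hS => by
    rw [map_add, h x hx hK hS, h' x hx hK hS, add_zero]
  mul := fun G F _ _ h x hx hK hS => by
    rw [map_mul, h x hx hK hS, zero_mul]
  rad := fun G r _ h x hx hK hS => by
    have h2 := h x hx hK hS
    rw [map_pow] at h2
    exact idlR_pow h2

theorem idlR_finite (n : ℕ) (S : Set (MvPolynomial (Fin (n + 1)) ℂ)) : Idl (FiniteOff S) where
  zero := fun L _ => by
    refine Set.finite_empty.subset ?_
    rintro P ⟨x, hx, -, -, -, h⟩
    exact absurd (map_zero _) h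
  add := fun e G G' _ _ h h' L hL => by
    refine ((h L hL).union (h' L hL)).subset ?_
    rintro P ⟨x, hx, h1, h2, h3, h4⟩
    by_cases h5 : eval x G = 0
    · right
      refine ⟨x, hx, h1, h2, h3, fun h6 => h4 ?_⟩
      rw [map_add, h5, h6, add_zero]
    · left
      exact ⟨x, hx, h1, h2, h3, h5⟩
  mul := fun G F _ _ h L hL => by
    refine (h L hL).subset ?_
    rintro P ⟨x, hx, h1, h2, h3, h4⟩
    refine ⟨x, hx, h1, h2, h3, fun h6 => h4 ?_⟩
    rw [map_mul, h6, zero_mul]
  rad := fun G r _ h L hL => by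
    refine (h L hL).subset ?_
    rintro P ⟨x, hx, h1, h2, h3, h4⟩
    refine ⟨x, hx, h1, h2, h3, ?_⟩
    rw [map_pow]
    exact pow_ne_zero r h4

/-- IDL -/
theorem t_idls : Idls :=
  ⟨idlR_special, idlR_curves, idlR_discs, idlR_points, idlR_finite⟩

end Pool.Agent.N254.SQ
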