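import Pool.Agent.N254.SQ.StmR

/-!
Project SQ, KEY: if the closed set `Z` in `Y = {A = 0}` has no component of general type, and
`X = V(S)` is of general type, then `v(X)` is not contained in `Z`.
-/

set_option autoImplicit false

namespace Pool.Agent.N254.SQ

open MvPolynomial Metric
open Pool.Agent.W602.GT (SubVar GeneralType coords)

/-- a point at which a form of `I` vanishes is a point of the hypersurface -/
theorem key_sub {N : ℕ} {A : MvPolynomial (Fin (N + 1)) ℂ} {L : Type} [Field L] [Algebra ℂ L]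
    {w : ℕ} {y : Fin (N + 1) → L} (hy : Gen L w y) (hA : aeval y A = 0) :
    SubVar (fun p : ({A} : Set _) => (p : MvPolynomial (Fin (N + 1)) ℂ)) L w y := by
  refine ⟨hy.ne, fun p => ?_, hy.gen, hy.dim⟩
  obtain ⟨p, hp⟩ := p
  rw [Set.mem_singleton_iff] at hp
  subst hp
  exact hA

theorem key_gen {n N d : ℕ} {m : Fin (N + 1) → Fin (n + 1) → ℕ}
    {S : Set (MvPolynomial (Fin (n + 1)) ℂ)} {A : MvPolynomial (Fin (N + 1)) ℂ}
    (hg : Good n N d m S A) {L : Type} [Field L] [Algebra ℂ L] {w : ℕ}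
    {y : Fin (n + 1) → L} (hy : SubVar (fun p : S => (p : MvPolynomial (Fin (n + 1)) ℂ)) L w y) :
    Gen L w (ver m y) := by
  have h1 := sub_ver hg hy
  exact ⟨h1.ne, h1.gen, h1.dim⟩

/-- KEY -/
theorem t_key (hC : Comp_stm) : Key_stm := by
  intro n N d m S A hg L _ _ w y hw hy hirr hgt I hI hIA hno
  by_contra hcon
  push Not at hcon
  have hvan : ∀ G, Fm G → I G → aeval (ver m y) G = 0 := by
    intro G hG hIG
    rw [← aeval_pull]
    exact hcon G hG hIG
  rcases hC N I hI L w (ver m y) (key_gen hg hy) hvan with ⟨H, hH, hH0, hHI⟩ |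
    ⟨L', iF, iA, w', y', hgen, hw', hI', -, ⟨G, hG, hG0, hG1⟩, hcomp⟩
  · exact hno L w (ver m y) hw (sub_ver hg hy) hgt ⟨hvan, H, hH, hH0, hHI⟩
  · have hsub := key_sub hgen (hI' A hg.homA hIA)
    have hco : Component I y' := ⟨hI', hcomp⟩
    rcases hg.special L' w' y' hw' hsub with h | ⟨x, c, hx, hc, hxS, hyx⟩
    · exact hno L' w' y' hw' hsub h hco
    · apply hG1
      rw [hyx, aeval_zero_of hG hc, ← aeval_pull]
      obtain ⟨e, he⟩ := hG
      exact hirr (pull m G) ⟨d * e, pull_hom hg.mon he⟩ (by rw [aeval_pull]; exact hG0) L' x hxS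

end Pool.Agent.N254.SQ
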