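import Pool.Agent.N254.SQ.LocDefs3

/-!
Holomorphic maps from complex tori to projective varieties: definitions.
-/

set_option autoImplicit false

namespace Pool.Agent.N254.SQ

open MvPolynomial

/-- `G` vanishes on all nonconstant holomorphic maps from complex tori `ℂ^g / L` to `V(S)` (given by
vectors of homogeneous coordinates without common zeros on `ℂ^g`) -/
def OnTori {n : ℕ} (S : Set (MvPolynomial (Fin (n + 1)) ℂ)) (G : MvPolynomial (Fin (n + 1)) ℂ) :
    Prop :=
  ∀ (g : ℕ) (L : AddSubgroup (Fin g → ℂ)), DiscreteTopology L →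
    Submodule.span ℝ (L : Set (Fin g → ℂ)) = ⊤ → ∀ F : (Fin g → ℂ) → (Fin (n + 1) → ℂ),
      Differentiable ℂ F → (∀ z, F z ≠ 0) → (∀ z, ∀ p ∈ S, eval (F z) p = 0) →
      (∀ z, ∀ l ∈ L, ∃ c : ℂ, F (z + l) = c • F z) →
        (∀ z w, ∃ c : ℂ, F w = c • F z) ∨ ∀ z, eval (F z) G = 0

end Pool.Agent.N254.SQ
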