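import Pool.Agent.N254.SQ.LocDefs4
import Pool.Agent.W603.PV.Hgt
import Pool.Agent.W602.RG.Defs2

/-!
Maps from algebraic curves to projective varieties: definitions. A smooth projective curve is given
by its function field `E` (`IsFF ℂ E`), its points are the places of `E`, a morphism to `P^n` is given by a
nonzero vector with coordinates in `E`; `pht` is its degree, `canDeg` is `2 g - 2`.
-/

set_option autoImplicit false

namespace Pool.Agent.N254.SQ

open MvPolynomial FF
open Pool.Agent.W603.LV (canDeg)
open Pool.Agent.W603.PV (pht)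
open Pool.Agent.W602.RG (HasValue)
open scoped LinearAlgebra.Projectivization

section

variable {n : ℕ} (S : Set (MvPolynomial (Fin (n + 1)) ℂ)) (G : MvPolynomial (Fin (n + 1)) ℂ)

/-- `V(S)` is algebraically hyperbolic outside of `G = 0`: for some `α` the degree of every morphism
from a smooth projective curve of genus `g` to `V(S)` whose image is not contained in `G = 0` is at most
`α max (2 g - 2, 0)` -/
def OnAlgebraic : Prop :=
  ∃ α : ℕ, ∀ (E : Type) [Field E] [Algebra ℂ E] [IsFF ℂ E] (y : Fin (n + 1) → E), y ≠ 0 →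
    (∀ p ∈ S, aeval y p = 0) → aeval y G ≠ 0 → pht ℂ y ≤ α * max (canDeg ℂ E) 0

/-- `V(S)` is bounded outside of `G = 0`: for every smooth projective curve the degrees of the
morphisms to `V(S)` whose image is not contained in `G = 0` are bounded -/
def OnBounded : Prop :=
  ∀ (E : Type) [Field E] [Algebra ℂ E] [IsFF ℂ E], ∃ B : ℤ, ∀ y : Fin (n + 1) → E, y ≠ 0 →
    (∀ p ∈ S, aeval y p = 0) → aeval y G ≠ 0 → pht ℂ y ≤ B

/-- for all pointed curves `(C, c)` and all points `x` of `V(S)` there are only finitely many morphisms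
from `C` to `V(S)` which map `c` to `x` -/
def PointedFinite : Prop :=
  ∀ (E : Type) [Field E] [Algebra ℂ E] [IsFF ℂ E] (c : Place ℂ E) (x : Fin (n + 1) → ℂ), x ≠ 0 →
    {φ : ℙ E (Fin (n + 1) → E) | ∃ (f : Fin (n + 1) → E) (hf : f ≠ 0), (∀ p ∈ S, aeval f p = 0) ∧
      HasValue c x f ∧ φ = Projectivization.mk E f hf}.Finite

end

end Pool.Agent.N254.SQ
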