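import Pool.Agent.N254.SQ.LocDefs4

/-!
Points of projective varieties over subrings of the complex numbers: definitions.
-/

set_option autoImplicit false

namespace Pool.Agent.N254.SQ

open MvPolynomial
open scoped LinearAlgebra.Projectivization

/-- the point `P` of `P^n(ℂ)` is an `A`-valued point, that is, it comes from a morphism from `Spec A` to
`P^n`: the coordinates of those vectors of homogeneous coordinates of `P` which are in `A ^ (n + 1)`
generate the unit ideal of `A` (for a field `A` this says that `P` has homogeneous coordinates in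
`A`) -/
def RingPoint {n : ℕ} (A : Subring ℂ) (P : ℙ ℂ (Fin (n + 1) → ℂ)) : Prop :=
  Ideal.span {a : A | ∃ (x : Fin (n + 1) → A) (hx : (fun j => (x j : ℂ)) ≠ 0),
    P = Projectivization.mk ℂ _ hx ∧ ∃ j, x j = a} = ⊤

/-- for all rings `A` in the class `R` of subrings of `ℂ` only finitely many `A`-valued points of `V(S)`
are outside of `G = 0` -/
def FiniteOver {n : ℕ} (R : Set (Subring ℂ)) (S : Set (MvPolynomial (Fin (n + 1)) ℂ))
    (G : MvPolynomial (Fin (n + 1)) ℂ) : Prop :=
  ∀ A ∈ R, {P : ℙ ℂ (Fin (n + 1) → ℂ) | RingPoint A P ∧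
    ∃ (x : Fin (n + 1) → ℂ) (hx : x ≠ 0), P = Projectivization.mk ℂ x hx ∧
      (∀ p ∈ S, eval x p = 0) ∧ eval x G ≠ 0}.Finite

/-- the subrings of `ℂ` which are finitely generated as rings -/
def fgRings : Set (Subring ℂ) := {A | ∃ s : Finset ℂ, A = Subring.closure (s : Set ℂ)}

/-- the subfields of `ℂ` which are finitely generated as fields -/
def fgFields : Set (Subring ℂ) := {A | ∃ s : Finset ℂ, A = (Subfield.closure (s : Set ℂ)).toSubring}

end Pool.Agent.N254.SQ
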