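import Pool.Agent.N254.SQ.LocDefs5

/-!
Quasi-projective varieties `V(S) ∖ V(T)`, where `S` and `T` are sets of forms: exceptional sets,
logarithmic general type.
-/

set_option autoImplicit false

namespace Pool.Agent.N254.SQ

open MvPolynomial Metric Filter Topology FF
open Pool.Agent.W602.GT (SubVar LogGeneralType)
open Pool.Agent.W603.LV (canDeg)
open Pool.Agent.W603.PV (pht)

/-- the point `y` of `P^n` with coordinates in `L` is not in `V(T)` -/
def NotIn {n : ℕ} (T : Set (MvPolynomial (Fin (n + 1)) ℂ)) {L : Type} [Field L] [Algebra ℂ L]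
    (y : Fin (n + 1) → L) : Prop := ∃ H ∈ T, aeval y H ≠ 0

/-- the value of the point `y` (with coordinates in the field `L`) at the place `P` of `L` is not in
`V(T)`: for a multiple `c y` whose coordinates are regular at `P` and one of them a unit, some form in
`T` takes a unit at `P` as value -/
def ValueNotIn {n : ℕ} (T : Set (MvPolynomial (Fin (n + 1)) ℂ)) {L : Type} [Field L]
    [Algebra ℂ L] (y : Fin (n + 1) → L) (P : Place ℂ L) : Prop :=
  ∃ c : L, (∀ j, P.Reg (c * y j)) ∧ (∃ j, c * y j ≠ 0 ∧ P.ord (c * y j) = 0) ∧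
    ∃ H ∈ T, aeval (c • y) H ≠ 0 ∧ P.ord (aeval (c • y) H) = 0

/-- the quasi-projective variety `V ∖ V(T)`, where `V` is the irreducible closed subset of `P^n` with
generic point `y` and function field `L` of transcendence degree `w`, is of log general type (that is,
all its desingularizations are): the places without a centre on it are those with value in
`V(T)` -/
def LogGeneral {n : ℕ} (T : Set (MvPolynomial (Fin (n + 1)) ℂ)) (L : Type) [Field L]
    [Algebra ℂ L] (w : ℕ) (y : Fin (n + 1) → L) : Prop :=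
  LogGeneralType ℂ L w fun P => ¬ ValueNotIn T y P

/-- the value at `z` of the holomorphic map to `P^n` with the vector of homogeneous coordinates `f`
(holomorphic near `z` and not identically zero) is a point of `V(S) ∖ V(T)` -/
def ValueIn {n : ℕ} (S T : Set (MvPolynomial (Fin (n + 1)) ℂ)) (f : ℂ → Fin (n + 1) → ℂ)
    (z : ℂ) : Prop :=
  ∃ g : ℂ → Fin (n + 1) → ℂ, AnalyticAt ℂ g z ∧ g z ≠ 0 ∧
    (∀ᶠ w in 𝓝[≠] z, ∃ c : ℂ, f w = c • g w) ∧ (∀ p ∈ S, eval (g z) p = 0) ∧
    ∃ H ∈ T, eval (g z) H ≠ 0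

section

variable {n : ℕ} (S T : Set (MvPolynomial (Fin (n + 1)) ℂ)) (G : MvPolynomial (Fin (n + 1)) ℂ)

/-- `G` vanishes on all closed subvarieties of `V(S) ∖ V(T)` of positive dimension which are not of log
general type -/
def OnSpecialQ : Prop :=
  ∀ (L : Type) [Field L] [Algebra ℂ L] (w : ℕ) (y : Fin (n + 1) → L), 1 ≤ w →
    SubVar (fun p : S => (p : MvPolynomial (Fin (n + 1)) ℂ)) L w y → NotIn T y →
    LogGeneral T L w y ∨ aeval y G = 0

/-- `G` vanishes on all nonconstant entire curves in `V(S) ∖ V(T)` -/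
def OnCurvesQ : Prop :=
  ∀ f : ℂ → Fin (n + 1) → ℂ, Differentiable ℂ f → (∀ z, f z ≠ 0) →
    (∀ z, ∀ p ∈ S, eval (f z) p = 0) → (∀ z, ∃ H ∈ T, eval (f z) H ≠ 0) →
    (∀ z w, ∃ c : ℂ, f w = c • f z) ∨ ∀ z, eval (f z) G = 0

/-- `G` vanishes on all holomorphic maps from the punctured disc to `V(S) ∖ V(T)` which do not extend
to holomorphic maps from the disc to `P^n` -/
def OnDiscsQ : Prop :=
  ∀ f : ℂ → Fin (n + 1) → ℂ, DifferentiableOn ℂ f (ball 0 1 \ {0}) →
    (∃ w ∈ ball (0 : ℂ) 1 \ {0}, f w ≠ 0) → (∀ z ∈ ball (0 : ℂ) 1 \ {0}, ValueIn S T f z) →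
    Extends f ∨ ∀ w ∈ ball (0 : ℂ) 1 \ {0}, eval (f w) G = 0

/-- `V(S) ∖ V(T)` is bounded outside of `G = 0`: for every smooth projective curve (function field
`E`) and every finite set `s` of points of it, the degrees of the morphisms from the curve without
`s` to `V(S) ∖ V(T)` whose image is not contained in `G = 0` are bounded -/
def OnBoundedQ : Prop :=
  ∀ (E : Type) [Field E] [Algebra ℂ E] [IsFF ℂ E] (s : Finset (Place ℂ E)), ∃ B : ℤ,
    ∀ y : Fin (n + 1) → E, y ≠ 0 → (∀ p ∈ S, aeval y p = 0) → NotIn T y →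
      (∀ P ∉ s, ValueNotIn T y P) → aeval y G ≠ 0 → pht ℂ y ≤ B

/-- for some function `β`, for every smooth projective curve of genus `g` and every finite set `s` of
points of it, the morphisms from the curve without `s` to `V(S) ∖ V(T)` which are birational onto their
image, and whose image is not contained in `G = 0`, have degree at most `β (2 g - 2 + #s)` -/
def OnDegreesQ : Prop :=
  ∃ β : ℤ → ℤ, ∀ (E : Type) [Field E] [Algebra ℂ E] [IsFF ℂ E] (s : Finset (Place ℂ E))
    (y : Fin (n + 1) → E), y ≠ 0 → Pool.Agent.W602.GT.coords ℂ y = ⊤ → (∀ p ∈ S, aeval y p = 0) →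
      NotIn T y → (∀ P ∉ s, ValueNotIn T y P) → aeval y G ≠ 0 →
        pht ℂ y ≤ β (canDeg ℂ E + s.card)

end

end Pool.Agent.N254.SQ
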