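import Pool.Agent.N254.SQ.LocDefs3

/-!
Integral points of quasi-projective schemes over the ring of integers of a number field:
definitions.
-/

set_option autoImplicit false

namespace Pool.Agent.N254.SQ

open MvPolynomial NumberField IsDedekindDomain
open scoped LinearAlgebra.Projectivization

/-- the reduction at the prime `v` of `L` of the point of `P^n(L)` with homogeneous coordinates `x` is
not in the closed subscheme `V(T)` of `P^n` over `𝓞 K`: for a multiple `c x` whose coordinates are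
integral at `v` and one of them a unit at `v`, some form `T k` takes a unit at `v` as value -/
def RedNotIn {K : Type} [Field K] {κ : Type} {n : ℕ}
    (T : κ → MvPolynomial (Fin (n + 1)) (𝓞 K)) {L : Type} [Field L] [NumberField L] [Algebra K L]
    (x : Fin (n + 1) → L) (v : HeightOneSpectrum (𝓞 L)) : Prop :=
  ∃ c : L, (∀ j, v.valuation L (c * x j) ≤ 1) ∧ (∃ j, v.valuation L (c * x j) = 1) ∧
    ∃ k, v.valuation L
      (eval₂ ((algebraMap K L).comp (algebraMap (𝓞 K) K)) (fun j => c * x j) (T k)) = 1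

/-- `V(O_S)` for the quasi-projective scheme `V = V(F) ∖ V(T)` over `𝓞 K`: the points of `P^n(L)` in `V(F)`
whose reductions at all primes outside of `S` (and the points themselves) are not in `V(T)` -/
def quasiPoints {K : Type} [Field K] {ι κ : Type} {n : ℕ}
    (F : ι → MvPolynomial (Fin (n + 1)) (𝓞 K)) (T : κ → MvPolynomial (Fin (n + 1)) (𝓞 K))
    (L : Type) [Field L] [NumberField L] [Algebra K L] (S : Set (HeightOneSpectrum (𝓞 L))) :
    Set (ℙ L (Fin (n + 1) → L)) :=
  {P | (∀ i, eval₂ ((algebraMap K L).comp (algebraMap (𝓞 K) K)) P.rep (F i) = 0) ∧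
    (∃ k, eval₂ ((algebraMap K L).comp (algebraMap (𝓞 K) K)) P.rep (T k) ≠ 0) ∧
    ∀ v ∉ S, RedNotIn T P.rep v}

/-- Q1 of Bombieri, Lang and Vojta for the quasi-projective scheme `V = V(F) ∖ V(T)` over `𝓞 K`, the
embedding `σ` and the closed subscheme `V'` of `V` given by the forms `G l`: all nonconstant entire
curves in `V` lie in `V'` if and only if `V(O_S) ∖ V'(O_S)` is finite for all finite extensions `L` of `K`
and all finite `S`. -/
def QuasiBLV {K : Type} [Field K] {ι κ τ : Type} {n : ℕ} (σ : K →+* ℂ)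
    (F : ι → MvPolynomial (Fin (n + 1)) (𝓞 K)) (T : κ → MvPolynomial (Fin (n + 1)) (𝓞 K))
    (G : τ → MvPolynomial (Fin (n + 1)) (𝓞 K)) : Prop :=
  (∀ f : ℂ → Fin (n + 1) → ℂ, Differentiable ℂ f → (∀ z, f z ≠ 0) →
    (∀ z i, eval₂ (σ.comp (algebraMap (𝓞 K) K)) (f z) (F i) = 0) →
    (∀ z, ∃ k, eval₂ (σ.comp (algebraMap (𝓞 K) K)) (f z) (T k) ≠ 0) →
    (∃ z w, ∀ c : ℂ, f w ≠ c • f z) →
    ∀ z l, eval₂ (σ.comp (algebraMap (𝓞 K) K)) (f z) (G l) = 0) ↔
  ∀ (L : Type) [Field L] [NumberField L] [Algebra K L] (S : Set (HeightOneSpectrum (𝓞 L))),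
    S.Finite → (quasiPoints F T L S \
      {P | ∀ l, eval₂ ((algebraMap K L).comp (algebraMap (𝓞 K) K)) P.rep (G l) = 0}).Finite

end Pool.Agent.N254.SQ
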