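import Pool.Agent.N254.SQ.Geo4
import Pool.Agent.N254.SQ.Locus

/-!
Smooth hypersurfaces through all projective varieties, for all enumerations of the monomials.
-/

set_option autoImplicit false

namespace Pool.Agent.N254.SQ

open MvPolynomial Topology Metric
open Filter (Eventually)
open Pool.Agent.W602.GT (SubVar GeneralType coords val)
open Pool.Agent.W603.BP (Ext PB)

/-- smooth hypersurfaces through all projective varieties, with the bound `D₁` for the exponents -/
def GeoAll (D₁ : ℕ → ℕ) : Prop :=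
    ∀ n d : ℕ, 1 ≤ n → 3 ≤ d → ∀ (N : ℕ) (m : Fin (N + 1) → Fin (n + 1) → ℕ),
      Mon n N d m → 2 * n < N → ∀ D, D₁ N ≤ D → ∀ (K : Type) [Field K] [CharZero K] (σ : K →+* ℂ)
        (S : Set (MvPolynomial (Fin (n + 1)) K)), (∀ p ∈ S, ∃ e ≤ d, p.IsHomogeneous e) →
        ∃ Q : Fin (N * (2 * N + 1)) → MvPolynomial (Fin (N + 1)) K,
          (∀ t, (Q t).IsHomogeneous 2) ∧ Smooth (powerSum D Q) ∧
          (∀ (Ω : Type) [Field Ω] (τ : K →+* Ω) (x : Fin (n + 1) → Ω),
            (∀ p ∈ S, eval x (map τ p) = 0) → eval (ver m x) (map τ (powerSum D Q)) = 0) ∧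
          Good n N d m (map σ '' S) (map σ (powerSum D Q))

theorem main6 (H4 : Leaves4) (hE : Ext_stm) : ∃ D₁ : ℕ → ℕ, GeoAll D₁ := by
  obtain ⟨D₁, H⟩ := geo6 H4
  refine ⟨D₁, fun n d hn hd N m hm hN D hD K _ _ σ S hS => ?_⟩
  have H2 := H n d hn hd N m hm hN
  have hd1 : 1 ≤ d := by omega
  obtain ⟨T, hT, hTS⟩ := reduce S
  have hT2 : ∀ p : T, ∃ e ≤ d, (p : MvPolynomial (Fin (n + 1)) K).IsHomogeneous e :=
    fun p => hS _ (hT p.2)
  choose e he hp using hT2
  obtain ⟨Q, hQ, hsm, hv, hc⟩ := H2 D hD K T (fun p => (p : MvPolynomial (Fin (n + 1)) K)) e hp he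
  -- zeros of the finite family are zeros of all equations
  have hS2 : ∀ (Ω : Type) [Field Ω] [Algebra ℂ Ω] (x : Fin (n + 1) → Ω),
      (∀ p : T, aeval x (map σ (p : MvPolynomial (Fin (n + 1)) K)) = 0) →
      ∀ p ∈ map σ '' S, aeval x p = 0 := by
    rintro Ω _ _ x hx _ ⟨p, hpS, rfl⟩
    have h1 := hTS Ω ((algebraMap ℂ Ω).comp σ) x (fun p hp => by
      have h2 := hx ⟨p, hp⟩
      rw [eval_map]
      rw [aeval_def, eval₂_map] at h2
      exact h2) p hpS
    rw [eval_map] at h1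
    rw [aeval_def, eval₂_map]
    exact h1
  have hS3 : ∀ x : Fin (n + 1) → ℂ, (∀ p : T, eval x (map σ (p : MvPolynomial (Fin (n + 1)) K)) = 0) →
      ∀ p ∈ map σ '' S, eval x p = 0 := by
    intro x hx p hp
    exact hS2 ℂ x hx p hp
  obtain ⟨c1, c2, c3⟩ := hc σ
  refine ⟨Q, hQ, hsm, ?_, hm, hd1, ?_, ⟨_, (power_form hQ).map σ⟩, ?_, ?_, ?_, ?_⟩
  · intro Ω _ τ x hx
    exact hv Ω τ x (fun p => hx _ (hT p.2))
  · rintro _ ⟨p, hp, rfl⟩
    obtain ⟨e, -, he⟩ := hS p hp
    exact ⟨e, he.map σ⟩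
  · intro L _ _ x hx
    have h1 := hv L ((algebraMap ℂ L).comp σ) x (fun p => by
      have h2 := hx _ ⟨_, hT p.2, rfl⟩
      rw [aeval_def, eval₂_map] at h2
      rw [eval_map]
      exact h2)
    rw [eval_map] at h1
    rw [aeval_def, eval₂_map]
    exact h1
  · -- entire curves
    intro f hf hf0 hfA
    by_cases hcon : ∀ z w, ∃ c : ℂ, f w = c • f z
    · exact Or.inl hcon
    · right
      intro z
      have hnc : ∃ i j z w, f z i * f w j ≠ f z j * f w i := by
        by_contra h2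
        push Not at h2
        apply hcon
        intro z w
        obtain ⟨j0, hj0⟩ : ∃ j, f z j ≠ 0 := by
          by_contra h3
          push Not at h3
          exact hf0 z (funext h3)
        refine ⟨f w j0 / f z j0, funext fun i => ?_⟩
        rw [Pi.smul_apply, smul_eq_mul, div_mul_eq_mul_div, eq_div_iff hj0]
        exact h2 i j0 w z
      obtain ⟨x, hx, hxT, hfx⟩ := c1 (fun j z => f z j) (fun j => (differentiable_pi.1 hf) j)
        (fun z => by
          by_contra h2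
          push Not at h2
          exact hf0 z (funext h2)) (fun z => hfA z) hnc z
      exact ⟨x, hx, hS3 x hxT, hfx⟩
  · -- subvarieties
    intro L _ _ w y hw hy
    rcases c2 L w y hw ⟨hy.ne, fun _ => hy.mem ⟨_, rfl⟩, hy.gen, hy.dim⟩ with
      ⟨x, c, hx, hc0, hyx, hxT⟩ | h
    · right
      exact ⟨x, c, hx, hc0, hS2 L x hxT, hyx⟩
    · exact Or.inl h
  · -- the punctured disc
    intro f hf hfn hfA
    have hmem : ∀ z ∈ Ext (1 : ℝ), z⁻¹ ∈ ball (0 : ℂ) 1 \ {0} := by
      intro z hz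
      have hz1 : 1 < ‖z‖ := hz
      have hz0 : z ≠ 0 := Pool.Agent.W603.BP.ext_ne_zero zero_le_one hz
      refine ⟨?_, inv_ne_zero hz0⟩
      rw [mem_ball_zero_iff, norm_inv]
      exact inv_lt_one_of_one_lt₀ hz1
    have hinv : ∀ w ∈ ball (0 : ℂ) 1 \ {0}, w⁻¹ ∈ Ext (1 : ℝ) := by
      intro w hw
      have hw0 : w ≠ 0 := hw.2
      change 1 < ‖w⁻¹‖
      rw [norm_inv]
      exact (one_lt_inv₀ (norm_pos_iff.2 hw0)).2 (mem_ball_zero_iff.1 hw.1)
    have hfan : ∀ j, ∀ w ∈ ball (0 : ℂ) 1 \ {0}, AnalyticAt ℂ (fun w => f w j) w := by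
      intro j w hw
      have h1 : DifferentiableOn ℂ (fun w => f w j) (ball (0 : ℂ) 1 \ {0}) := fun w hw =>
        (differentiableWithinAt_pi.1 (hf w hw)) j
      exact h1.analyticAt (disc_open.mem_nhds hw)
    rcases c3 1 (fun j z => f z⁻¹ j) one_pos (by
      intro j z hz
      exact AnalyticAt.comp' (f := fun z : ℂ => z⁻¹) (g := fun w => f w j) (hfan j _ (hmem z hz))
        (analyticAt_inv (Pool.Agent.W603.BP.ext_ne_zero zero_le_one hz))) (by
      intro z hz
      exact hfA _ (hmem z hz)) with h | h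
    · right
      intro w hw hfw
      obtain ⟨x, hx, hxT, hfx⟩ := h _ (hinv w hw) (by
        rw [inv_inv]
        by_contra h2
        push Not at h2
        exact hfw (funext h2))
      rw [inv_inv] at hfx
      exact ⟨x, hx, hS3 x hxT, hfx⟩
    · left
      change Extd f
      rw [hE N f hf hfn]
      rintro j k ⟨w, hw, hwk⟩
      obtain ⟨ρ, b, hρ, hb, hρf⟩ := h j k ⟨w⁻¹, hinv w hw, by
          change f w⁻¹⁻¹ k ≠ 0
          rwa [inv_inv]⟩
      have hb0 : 0 < b := lt_of_lt_of_le one_pos hb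
      refine ⟨ρ, hρ, ?_⟩
      filter_upwards [Pool.Agent.W603.BP.PB_mem (inv_pos.2 hb0)] with w hw
      have h2 := hρf w⁻¹ (by
        have := Pool.Agent.W603.BP.inv_mem_Ext hw
        rwa [inv_inv] at this)
      rwa [inv_inv] at h2

end Pool.Agent.N254.SQ
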