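import Pool.Agent.N254.SQ.StmR

/-!
# Project SQ (helper254), NULL: Nullstellensatz (helper340)
-/

set_option autoImplicit false

open MvPolynomial

namespace Pool.Agent.N254.SQ

/-- **NULL.** -/
theorem t_null : Null_stm := by
  intro n S G hG Ω _ _ x hx
  have h1 : G ∈ vanishingIdeal ℂ (zeroLocus ℂ (Ideal.span S)) := by
    intro y hy
    rw [mem_zeroLocus_iff] at hy
    have e : ∀ p : MvPolynomial (Fin (n + 1)) ℂ, aeval y p = eval y p := fun p => by
      rw [← coe_aeval_eq_eval]
      rfl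
    rw [e]
    apply hG y
    intro p hp
    rw [← e]
    exact hy p (Ideal.subset_span hp)
  rw [vanishingIdeal_zeroLocus_eq_radical] at h1
  obtain ⟨r, hr⟩ := h1
  have h2 : Ideal.span S ≤ RingHom.ker (aeval x : MvPolynomial (Fin (n + 1)) ℂ →ₐ[ℂ] Ω) := by
    rw [Ideal.span_le]
    intro p hp
    exact hx p hp
  have h3 : aeval x (G ^ r) = 0 := h2 hr
  rw [map_pow] at h3
  exact eq_zero_of_pow_eq_zero h3

end Pool.Agent.N254.SQ
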