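import Pool.Agent.N254.SQ.StmB
import Pool.Agent.N254.SQ.Lift

/-!
Project SQ, QCURV: exceptional sets of entire curves in quasi-projective varieties (helper853).
-/

set_option autoImplicit false

namespace Pool.Agent.N254.SQ

open MvPolynomial Metric
open Pool.Agent.W602.GT (SubVar GeneralType coords)

theorem qc_pow {R : Type} [Field R] {a : R} {r : ℕ} (h : a ^ r = 0) : a = 0 := by
  by_contra h1
  exact pow_ne_zero r h1 h

theorem qc_idl (n : ℕ) (S T : Set (MvPolynomial (Fin (n + 1)) ℂ)) : Idl (OnCurvesQ S T) where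
  zero := fun f _ _ _ _ => Or.inr fun z => map_zero _
  add := fun e G G' _ _ h h' f hf h0 hS hT => by
    rcases h f hf h0 hS hT with h1 | h1
    · exact Or.inl h1
    rcases h' f hf h0 hS hT with h2 | h2
    · exact Or.inl h2
    exact Or.inr fun z => by rw [map_add, h1 z, h2 z, add_zero]
  mul := fun G F _ _ h f hf h0 hS hT => by
    rcases h f hf h0 hS hT with h1 | h1
    · exact Or.inl h1
    exact Or.inr fun z => by rw [map_mul, h1 z, zero_mul]
  rad := fun G r _ h f hf h0 hS hT => by
    rcases h f hf h0 hS hT with h1 | h1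
    · exact Or.inl h1
    refine Or.inr fun z => ?_
    have h2 := h1 z
    rw [map_pow] at h2
    exact qc_pow h2

theorem qc_restr (n : ℕ) (S T : Set (MvPolynomial (Fin (n + 1)) ℂ)) (L : Type) [Field L]
    [Algebra ℂ L] (y : Fin (n + 1) → L) (G H : MvPolynomial (Fin (n + 1)) ℂ)
    (hF : ∀ F, IsForm F → aeval y F = 0 → OnCurvesQ S T (F * H)) (hG : OnCurvesQ (Eqs y) T G) :
    OnCurvesQ S T (G * H) := by
  intro f hf hf0 hfS hfT
  by_cases hcon : ∀ z w, ∃ c : ℂ, f w = c • f z
  · exact Or.inl hcon
  right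
  by_cases hH0 : ∀ z, eval (f z) H = 0
  · intro z
    rw [map_mul, hH0 z, mul_zero]
  have hE : ∀ z, ∀ p ∈ Eqs y, eval (f z) p = 0 := by
    intro z p hp
    have h1 := (hF p hp.1 hp.2 f hf hf0 hfS hfT).resolve_left hcon
    have ha : AnalyticOnNhd ℂ (fun z => eval (f z) p) Set.univ :=
      (diff_evalOn p hf.differentiableOn).analyticOnNhd isOpen_univ
    have hb : AnalyticOnNhd ℂ (fun z => eval (f z) H) Set.univ :=
      (diff_evalOn H hf.differentiableOn).analyticOnNhd isOpen_univ
    rcases ha.eq_zero_or_eq_zero_of_mul_eq_zero hb (fun z _ => by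
        have := h1 z
        rwa [map_mul] at this) isPreconnected_univ with h2 | h2
    · exact h2 z (Set.mem_univ z)
    · exact absurd (fun z => h2 z (Set.mem_univ z)) hH0
  intro z
  have h3 := (hG f hf hf0 hE hfT).resolve_left hcon
  rw [map_mul, h3 z, zero_mul]

theorem qc_point (n : ℕ) (T : Set (MvPolynomial (Fin (n + 1)) ℂ)) (L : Type) [Field L]
    [Algebra ℂ L] (y : Fin (n + 1) → L) (hy : Gen L 0 y) : OnCurvesQ (Eqs y) T 1 := by
  have h1 := hy.dim
  rw [Nat.cast_zero, trdeg_eq_zero_iff] at h1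
  have hsurj : Function.Surjective (algebraMap ℂ L) :=
    (IsAlgClosed.algebraMap_bijective_of_isIntegral (k := ℂ) (K := L)).2
  choose c hc using fun j => hsurj (y j)
  have hc0 : c ≠ 0 := by
    intro h
    apply hy.ne
    funext j
    rw [← hc j, h, Pi.zero_apply, Pi.zero_apply, map_zero]
  obtain ⟨a, ha⟩ : ∃ a, c a ≠ 0 := by
    by_contra hcon
    push Not at hcon
    exact hc0 (funext hcon)
  have hform : ∀ i j, (C (c i) * X j - C (c j) * X i : MvPolynomial (Fin (n + 1)) ℂ) ∈ Eqs y := by
    intro i j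
    refine ⟨⟨1, ?_⟩, ?_⟩
    · have h2 : ∀ i j, (C (c i) * X j : MvPolynomial (Fin (n + 1)) ℂ).IsHomogeneous 1 := by
        intro i j
        have := (isHomogeneous_C (Fin (n + 1)) (c i)).mul (isHomogeneous_X ℂ j)
        rwa [zero_add] at this
      exact (h2 i j).sub (h2 j i)
    · rw [map_sub, map_mul, map_mul, aeval_X, aeval_X, aeval_C, aeval_C, hc, hc]
      ring
  intro f _ hf0 hfS _
  left
  have h5 : ∀ z j, c a * f z j = c j * f z a := by
    intro z j
    have h6 := hfS z _ (hform a j)
    rwa [map_sub, map_mul, map_mul, eval_X, eval_X, eval_C, eval_C, sub_eq_zero] at h6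
  have h7 : ∀ z, f z a ≠ 0 := by
    intro z h
    apply hf0 z
    funext j
    have h8 := h5 z j
    rw [h, mul_zero, mul_eq_zero] at h8
    exact h8.resolve_left ha
  intro z w
  refine ⟨f w a / f z a, ?_⟩
  funext j
  rw [Pi.smul_apply, smul_eq_mul, div_mul_eq_mul_div, eq_div_iff (h7 z)]
  have h8 := h5 z j
  have h9 := h5 w j
  apply mul_left_cancel₀ ha
  linear_combination (f z a) * h9 - (f w a) * h8

theorem qc_transfer {n N d : ℕ} {m : Fin (N + 1) → Fin (n + 1) → ℕ}
    {S : Set (MvPolynomial (Fin (n + 1)) ℂ)} {A : MvPolynomial (Fin (N + 1)) ℂ}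
    (hL : Lift_stm) (hg : Good n N d m S A) {T : Set (MvPolynomial (Fin (n + 1)) ℂ)}
    {T' : Set (MvPolynomial (Fin (N + 1)) ℂ)} (hT : Lifts m d T T')
    {G : MvPolynomial (Fin (N + 1)) ℂ} :
    OnCurvesQ {A} T' G ↔ OnCurvesQ S T (pull m G) := by
  have hd0 : d ≠ 0 := by
    have := hg.deg
    omega
  constructor
  · intro h F hF1 hF0 hFS hFT
    rcases h (fun z => ver m (F z)) (ver_diff hF1)
      (fun z => ver_ne_zero hg.mon hg.deg (hF0 z)) (fun z p hp => by
        rw [Set.mem_singleton_iff] at hp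
        rw [hp]
        exact hg.sub ℂ (F z) (hFS z)) (fun z => by
        obtain ⟨H, hH, hH0⟩ := hFT z
        obtain ⟨G', hG', e, -, -, hpull⟩ := hT.up H hH
        refine ⟨G', hG', ?_⟩
        rw [← eval_pull, hpull, map_pow]
        exact pow_ne_zero _ hH0) with h1 | h1
    · left
      intro z w
      obtain ⟨c, hc⟩ := h1 z w
      exact ver_prop hg.mon hg.deg (hF0 w) hc
    · right
      intro z
      rw [eval_pull]
      exact h1 z
  · intro h f hf hf0 hfA hfT
    by_cases hcon : ∀ z w, ∃ c : ℂ, f w = c • f z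
    · exact Or.inl hcon
    · right
      choose e he using hg.homS
      obtain ⟨F, hF1, hF0, hFS, hGF⟩ := maps hL hg.mon hg.deg
        (fun p : S => (p : MvPolynomial (Fin (n + 1)) ℂ)) (fun p => e p p.2)
        (fun p => he p p.2) A (by
          intro g hg1 hg0 hgA hgn z
          rcases hg.curves (fun z j => g j z) (differentiable_pi.2 hg1) (fun z h0 => by
              obtain ⟨j, hj⟩ := hg0 z
              exact hj (congrFun h0 j)) hgA with h4 | h4
          · exfalso
            obtain ⟨i, j, z, w, hne⟩ := hgn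
            apply hne
            obtain ⟨c, hc⟩ := h4 z w
            have h5 := congrFun hc i
            have h6 := congrFun hc j
            simp only [Pi.smul_apply, smul_eq_mul] at h5 h6
            rw [h5, h6]
            ring
          · obtain ⟨x, hx, hxS, hgx⟩ := h4 z
            exact ⟨x, hx, fun p => hxS _ p.2, hgx⟩) f hf hf0 (fun z => hfA z A rfl) hcon
      rcases h F hF1 hF0 (fun z p hp => hFS z ⟨p, hp⟩) (fun z => by
          obtain ⟨G', hG', hG0⟩ := hfT z
          obtain ⟨H, hH, e, -, -, hpull⟩ := hT.down G' hG'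
          refine ⟨H, hH, fun h0 => hG0 ?_⟩
          rw [hGF, ← eval_pull, hpull, map_pow, h0, zero_pow hd0]) with h1 | h1
      · exfalso
        apply hcon
        intro z w
        obtain ⟨c, hc⟩ := h1 z w
        exact ⟨c ^ d, by rw [hGF, hGF, hc, ver_smul hg.mon]⟩
      · intro z
        have := h1 z
        rw [eval_pull] at this
        rw [hGF]
        exact this

/-- QCURV -/
theorem t_qcurv : Qcurv_stm where
  idl := qc_idl
  van := by
    intro n S T G _ h f _ _ hfS _
    right
    intro z
    exact h ℂ (f z) (hfS z)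
  restr := by
    intro n S T L _ _ y G H _ _ hF hG
    exact qc_restr n S T L y G H hF hG
  mono := by
    intro n S S' T hSS G h f hf hf0 hfS hfT
    exact h f hf hf0 (fun z => hSS ℂ (f z) (hfS z)) hfT
  coord := by
    intro n S T G _ h f hf hf0 hfS hfT
    by_cases hcon : ∀ z w, ∃ c : ℂ, f w = c • f z
    · exact Or.inl hcon
    right
    intro z
    obtain ⟨j, hj⟩ : ∃ j, f z j ≠ 0 := by
      by_contra h1
      push Not at h1
      exact hf0 z (funext h1)
    have h1 := (h j f hf hf0 hfS hfT).resolve_left hcon z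
    rw [map_mul, eval_X, mul_eq_zero] at h1
    exact h1.resolve_right hj
  away := by
    intro n S T H _ _ h f hf hf0 hfS hfT
    by_cases hcon : ∀ z w, ∃ c : ℂ, f w = c • f z
    · exact Or.inl hcon
    right
    intro z
    obtain ⟨F, hF, hF0⟩ := hfT z
    have h1 := (h F hF f hf hf0 hfS hfT).resolve_left hcon z
    rw [map_mul, mul_eq_zero] at h1
    exact h1.resolve_left hF0
  point := by
    intro n T L _ _ y hy
    exact qc_point n T L y hy
  transfer := by
    intro n N d m S A hg _ T T' hT G _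
    exact qc_transfer t_lift hg hT

end Pool.Agent.N254.SQ
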