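import Pool.Agent.N254.SQ.StmB
import Pool.Agent.N254.SQ.Red
import Pool.Agent.N254.SQ.AlgIffR

/-!
Project SQ, ninth part, QDEG: the exceptional sets for the degrees of affine curves (helper281).
-/

set_option autoImplicit false

namespace Pool.Agent.N254.SQ

open MvPolynomial Metric FF
open Pool.Agent.W602.GT (SubVar GeneralType LogGeneralType coords)
open Pool.Agent.W603.LV (canDeg)
open Pool.Agent.W603.PV (pht)

theorem qg_eval {E : Type} [Field E] [Algebra ℂ E] {n : ℕ} (x : Fin (n + 1) → E)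
    (p : MvPolynomial (Fin (n + 1)) ℂ) : eval x (map (algebraMap ℂ E) p) = aeval x p := by
  rw [eval_map, aeval_def]

/-- a finite subset suffices -/
theorem qg_reduce {n : ℕ} (S : Set (MvPolynomial (Fin (n + 1)) ℂ)) :
    ∃ T : Finset (MvPolynomial (Fin (n + 1)) ℂ), (∀ F ∈ T, F ∈ S) ∧
      ∀ (E : Type) [Field E] [Algebra ℂ E] (x : Fin (n + 1) → E),
        (∃ p ∈ S, aeval x p ≠ 0) → ∃ F ∈ T, aeval x F ≠ 0 := by
  obtain ⟨T, hT, hT2⟩ := reduce S
  refine ⟨T, fun F hF => hT hF, fun E _ _ x hx => ?_⟩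
  by_contra hcon
  push Not at hcon
  obtain ⟨p, hp, hp0⟩ := hx
  apply hp0
  rw [← qg_eval]
  exact hT2 E (algebraMap ℂ E) x (fun q hq => by rw [qg_eval]; exact hcon q hq) p hp

theorem qg_le_sum {ι : Type*} (T : Finset ι) (b : ι → ℤ) {i : ι} (hi : i ∈ T) :
    b i ≤ ∑ j ∈ T, |b j| :=
  (le_abs_self _).trans (Finset.single_le_sum (f := fun j => |b j|) (fun _ _ => abs_nonneg _) hi)

theorem qg_idl (n : ℕ) (S T : Set (MvPolynomial (Fin (n + 1)) ℂ)) : Idl (OnDegreesQ S T) where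
  zero := ⟨fun _ => 0, fun E _ _ _ s y _ _ _ _ _ h => absurd (map_zero _) h⟩
  add := by
    rintro e G G' _ _ ⟨β, h⟩ ⟨β', h'⟩
    refine ⟨fun t => max (β t) (β' t), fun E _ _ _ s y h1 h2 h3 h4 h5 h6 => ?_⟩
    by_cases h7 : aeval y G = 0
    · have h8 : aeval y G' ≠ 0 := fun h8 => h6 (by rw [map_add, h7, h8, add_zero])
      exact (h' E s y h1 h2 h3 h4 h5 h8).trans (le_max_right _ _)
    · exact (h E s y h1 h2 h3 h4 h5 h7).trans (le_max_left _ _)
  mul := by
    rintro G F _ _ ⟨β, h⟩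
    refine ⟨β, fun E _ _ _ s y h1 h2 h3 h4 h5 h6 => h E s y h1 h2 h3 h4 h5 fun h7 => h6 ?_⟩
    rw [map_mul, h7, zero_mul]
  rad := by
    rintro G r _ ⟨β, h⟩
    refine ⟨β, fun E _ _ _ s y h1 h2 h3 h4 h5 h6 => h E s y h1 h2 h3 h4 h5 ?_⟩
    rw [map_pow]
    exact pow_ne_zero r h6

theorem qg_restr (n : ℕ) (S T : Set (MvPolynomial (Fin (n + 1)) ℂ)) (L : Type) [Field L]
    [Algebra ℂ L] (y : Fin (n + 1) → L) (G H : MvPolynomial (Fin (n + 1)) ℂ)
    (hF : ∀ F, IsForm F → aeval y F = 0 → OnDegreesQ S T (F * H))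
    (hG : OnDegreesQ (Eqs y) T G) : OnDegreesQ S T (G * H) := by
  obtain ⟨T0, hT0, hT0'⟩ := qg_reduce (Eqs y)
  obtain ⟨β, hβ⟩ := hG
  unfold OnDegreesQ at hF
  choose! b hb using hF
  refine ⟨fun t => |β t| + ∑ F ∈ T0, |b F t|, fun E _ _ _ s z h1 h2 h3 h4 h5 h6 => ?_⟩
  have hsum : 0 ≤ ∑ F ∈ T0, |b F (canDeg ℂ E + s.card)| :=
    Finset.sum_nonneg fun _ _ => abs_nonneg _
  rw [map_mul] at h6
  have hG0 := left_ne_zero_of_mul h6
  have hH0 := right_ne_zero_of_mul h6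
  by_cases hall : ∀ p ∈ Eqs y, aeval z p = 0
  · have h7 := hβ E s z h1 h2 hall h4 h5 hG0
    have h8 := le_abs_self (β (canDeg ℂ E + s.card))
    show _ ≤ |β (canDeg ℂ E + s.card)| + ∑ F ∈ T0, |b F (canDeg ℂ E + s.card)|
    omega
  · push Not at hall
    obtain ⟨F, hFT, hF0⟩ := hT0' E z hall
    have h9 := hT0 F hFT
    have h7 := hb F h9.1 h9.2 E s z h1 h2 h3 h4 h5 (by
      rw [map_mul]
      exact mul_ne_zero hF0 hH0)
    have h8 := qg_le_sum T0 (fun F => b F (canDeg ℂ E + s.card)) hFT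
    have h10 := abs_nonneg (β (canDeg ℂ E + s.card))
    show _ ≤ |β (canDeg ℂ E + s.card)| + ∑ F ∈ T0, |b F (canDeg ℂ E + s.card)|
    omega

theorem qg_coord (n : ℕ) (S T : Set (MvPolynomial (Fin (n + 1)) ℂ))
    (G : MvPolynomial (Fin (n + 1)) ℂ) (h : ∀ j, OnDegreesQ S T (G * X j)) :
    OnDegreesQ S T G := by
  unfold OnDegreesQ at h
  choose b hb using h
  refine ⟨fun t => ∑ j, |b j t|, fun E _ _ _ s z h1 h2 h3 h4 h5 h6 => ?_⟩
  obtain ⟨j, hj⟩ : ∃ j, z j ≠ 0 := by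
    by_contra hcon
    push Not at hcon
    exact h1 (funext hcon)
  refine (hb j E s z h1 h2 h3 h4 h5 ?_).trans
    (qg_le_sum Finset.univ (fun j => b j (canDeg ℂ E + s.card)) (Finset.mem_univ j))
  rw [map_mul, aeval_X]
  exact mul_ne_zero h6 hj

theorem qg_away (n : ℕ) (S T : Set (MvPolynomial (Fin (n + 1)) ℂ))
    (H : MvPolynomial (Fin (n + 1)) ℂ) (h : ∀ F ∈ T, OnDegreesQ S T (F * H)) :
    OnDegreesQ S T H := by
  obtain ⟨T0, hT0, hT0'⟩ := qg_reduce T
  unfold OnDegreesQ at h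
  choose! b hb using h
  refine ⟨fun t => ∑ F ∈ T0, |b F t|, fun E _ _ _ s z h1 h2 h3 h4 h5 h6 => ?_⟩
  obtain ⟨F, hFT, hF0⟩ := hT0' E z h4
  refine (hb F (hT0 F hFT) E s z h1 h2 h3 h4 h5 ?_).trans
    (qg_le_sum T0 (fun F => b F (canDeg ℂ E + s.card)) hFT)
  rw [map_mul]
  exact mul_ne_zero hF0 h6

theorem qg_point (n : ℕ) (T : Set (MvPolynomial (Fin (n + 1)) ℂ)) (L : Type) [Field L]
    [Algebra ℂ L] (y : Fin (n + 1) → L) (hy : Gen L 0 y) : OnDegreesQ (Eqs y) T 1 := by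
  have h1 := hy.dim
  rw [Nat.cast_zero, trdeg_eq_zero_iff] at h1
  have hsurj : Function.Surjective (algebraMap ℂ L) :=
    (IsAlgClosed.algebraMap_bijective_of_isIntegral (k := ℂ) (K := L)).2
  choose c hc using fun j => hsurj (y j)
  have hc0 : c ≠ 0 := by
    intro h
    apply hy.ne
    funext j
    rw [← hc j, h, Pi.zero_apply, Pi.zero_apply, map_zero]
  obtain ⟨a, ha⟩ : ∃ a, c a ≠ 0 := by
    by_contra hcon
    push Not at hcon
    exact hc0 (funext hcon)
  have hform : ∀ i j, (C (c i) * X j - C (c j) * X i : MvPolynomial (Fin (n + 1)) ℂ) ∈ Eqs y := by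
    intro i j
    refine ⟨⟨1, ?_⟩, ?_⟩
    · have h2 : ∀ i j, (C (c i) * X j : MvPolynomial (Fin (n + 1)) ℂ).IsHomogeneous 1 := by
        intro i j
        have := (isHomogeneous_C (Fin (n + 1)) (c i)).mul (isHomogeneous_X ℂ j)
        rwa [zero_add] at this
      exact (h2 i j).sub (h2 j i)
    · rw [map_sub, map_mul, map_mul, aeval_X, aeval_X, aeval_C, aeval_C, hc, hc]
      ring
  refine ⟨fun _ => 0, fun E _ _ _ s z h1 h2 h3 h4 h5 h6 => ?_⟩
  exfalso
  have ha' : algebraMap ℂ E (c a) ≠ 0 := by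
    rw [Ne, map_eq_zero]
    exact ha
  have hz : ∀ j, algebraMap ℂ E (c a) * z j = algebraMap ℂ E (c j) * z a := by
    intro j
    have h7 := h3 _ (hform a j)
    rw [map_sub, map_mul, map_mul, aeval_X, aeval_X, aeval_C, aeval_C, sub_eq_zero] at h7
    exact h7
  have hza : z a ≠ 0 := by
    intro h
    apply h1
    funext j
    have h7 := hz j
    rw [h, mul_zero, mul_eq_zero] at h7
    exact h7.resolve_left ha'
  have hle : coords ℂ z ≤ ⊥ := by
    apply IntermediateField.adjoin_le_iff.2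
    rintro _ ⟨i, j, hj, rfl⟩
    have hcj : algebraMap ℂ E (c j) ≠ 0 := by
      intro h
      apply hj
      have h7 := hz j
      rw [h, zero_mul, mul_eq_zero] at h7
      exact h7.resolve_left ha'
    have e1 : z i / z j = algebraMap ℂ E (c i / c j) := by
      rw [map_div₀, div_eq_div_iff hj hcj]
      have h7 := hz i
      have h8 := hz j
      apply mul_left_cancel₀ ha'
      apply mul_left_cancel₀ ha'
      calc algebraMap ℂ E (c a) * (algebraMap ℂ E (c a) * (z i * algebraMap ℂ E (c j)))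
          = algebraMap ℂ E (c a) * (algebraMap ℂ E (c a) * z i) * algebraMap ℂ E (c j) := by ring
        _ = algebraMap ℂ E (c i) * (algebraMap ℂ E (c j) * z a) * algebraMap ℂ E (c a) := by
            rw [h7]; ring
        _ = _ := by rw [← h8]; ring
    rw [e1]
    exact IntermediateField.algebraMap_mem _ _
  rw [h2] at hle
  have hbij : ∀ x : E, ∃ c : ℂ, algebraMap ℂ E c = x := by
    intro x
    have hx : x ∈ (⊥ : IntermediateField ℂ E) := hle (IntermediateField.mem_top)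
    exact IntermediateField.mem_bot.1 hx
  have halg : Algebra.IsAlgebraic ℂ E := ⟨fun x => by
    obtain ⟨c, rfl⟩ := hbij x
    exact isAlgebraic_algebraMap c⟩
  have h7 : Algebra.trdeg ℂ E = 0 := trdeg_eq_zero_iff.2 halg
  have h8 := IsFF.trdeg (k := ℂ) (K := E)
  rw [h7] at h8
  exact zero_ne_one h8

theorem qg_transfer (hC : Cent) (h : Hform) (n N d : ℕ) (m : Fin (N + 1) → Fin (n + 1) → ℕ)
    (S : Set (MvPolynomial (Fin (n + 1)) ℂ)) (A : MvPolynomial (Fin (N + 1)) ℂ)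
    (hg : Good n N d m S A) (hga : GoodAlg n N m S A) (T : Set (MvPolynomial (Fin (n + 1)) ℂ))
    (T' : Set (MvPolynomial (Fin (N + 1)) ℂ)) (hL : Lifts m d T T')
    (G : MvPolynomial (Fin (N + 1)) ℂ) (hG : IsForm G) :
    OnDegreesQ {A} T' G ↔ OnDegreesQ S T (pull m G) := by
  constructor
  · rintro ⟨β, hβ⟩
    refine ⟨β, fun E _ _ _ s y h1 h2 h3 h4 h5 h6 => ?_⟩
    have e1 : (1 : E) • ver m y = ver m y := one_smul _ _
    refine (algiff_up h hg h1).trans (hβ E s (ver m y) (ver_ne_zero hg.mon hg.deg h1) ?_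
      (algiff_mem hg h3) ?_ (fun P hP => ?_) (by rw [← aeval_pull]; exact h6))
    · rw [← h2, ← e1]
      exact coords_ver hg.mon hg.deg y h1 (1 : E) one_ne_zero
    · rw [← e1]
      exact (hC.notIn n N d m hg.deg T T' hL E y 1 one_ne_zero).2 h4
    · rw [← e1]
      exact (hC.value n N d m hg.mon hg.deg T T' hL E y 1 h1 one_ne_zero P).2 (h5 P hP)
  · rintro ⟨β, hβ⟩
    refine ⟨fun t => max t 0 + d * max (β t) 0, fun E _ _ _ s y h1 h2 h3 h4 h5 h6 => ?_⟩
    show _ ≤ max (canDeg ℂ E + s.card) 0 + d * max (β (canDeg ℂ E + s.card)) 0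
    have h0 : (0 : ℤ) ≤ d * max (β (canDeg ℂ E + s.card)) 0 :=
      mul_nonneg (Int.natCast_nonneg d) (le_max_right _ _)
    have h0' : (0 : ℤ) ≤ max (canDeg ℂ E + s.card) 0 := le_max_right _ _
    have h0'' : max (canDeg ℂ E) 0 ≤ max (canDeg ℂ E + s.card) 0 :=
      max_le_max_right 0 (by omega)
    rcases hga E y h1 (h3 A rfl) with h7 | ⟨x, c, hx, hc, hxS, rfl⟩
    · omega
    · have h8 := hβ E s x hx (by rw [← coords_ver hg.mon hg.deg x hx c hc]; exact h2) hxS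
        ((hC.notIn n N d m hg.deg T T' hL E x c hc).1 h4)
        (fun P hP => (hC.value n N d m hg.mon hg.deg T T' hL E x c hx hc P).1 (h5 P hP))
        (algiff_pull hG hc h6)
      rw [h.ver ℂ E n N d m hg.mon x c hx hc]
      have h9 : (d : ℤ) * pht ℂ x ≤ d * max (β (canDeg ℂ E + s.card)) 0 :=
        mul_le_mul_of_nonneg_left (h8.trans (le_max_left _ _)) (Int.natCast_nonneg d)
      omega

/-- QDEG -/
theorem t_qdeg : Qdeg_stm := fun hC h =>
  { idl := fun n S T => qg_idl n S T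
    van := fun n S T G _ hv => ⟨fun _ => 0, fun E _ _ _ s y _ _ h3 _ _ h6 =>
      absurd (hv E y h3) h6⟩
    restr := fun n S T L _ _ y G H _ _ hF hG => qg_restr n S T L y G H hF hG
    mono := fun n S S' T hS G hG => by
      obtain ⟨β, hβ⟩ := hG
      exact ⟨β, fun E _ _ _ s y h1 h2 h3 h4 h5 h6 => hβ E s y h1 h2 (hS E y h3) h4 h5 h6⟩
    coord := fun n S T G _ hj => qg_coord n S T G hj
    away := fun n S T H _ _ hF => qg_away n S T H hF
    point := fun n T L _ _ y hy => qg_point n T L y hy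
    transfer := fun n N d m S A hg hga T T' hL G hG => qg_transfer hC h n N d m S A hg hga T T' hL G hG }

end Pool.Agent.N254.SQ
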