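import Pool.Agent.N254.SQ.StmB
import Pool.Agent.N254.SQ.ExtR

/-!
Project SQ, ninth part, QDISC: the exceptional sets of punctured discs in quasi-projective varieties
(helper974).
-/

set_option autoImplicit false

namespace Pool.Agent.N254.SQ

open MvPolynomial Metric Filter Topology
open Pool.Agent.W602.GT (coords)

theorem qd_nhds {z : ℂ} (hz : z ∈ ball (0 : ℂ) 1 \ {0}) :
    ∀ᶠ w in 𝓝[≠] z, w ∈ ball (0 : ℂ) 1 \ {0} :=
  nhdsWithin_le_nhds (disc_open.mem_nhds hz)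

/-- `f` is nonzero near every point of the punctured disc, apart from the point -/
theorem qd_ne {n : ℕ} {f : ℂ → Fin (n + 1) → ℂ} (hf : DifferentiableOn ℂ f (ball 0 1 \ {0}))
    (hf0 : ∃ w ∈ ball (0 : ℂ) 1 \ {0}, f w ≠ 0) {z : ℂ} (hz : z ∈ ball (0 : ℂ) 1 \ {0}) :
    ∀ᶠ w in 𝓝[≠] z, f w ≠ 0 := by
  obtain ⟨w0, hw0, h0⟩ := hf0
  obtain ⟨l, hl⟩ := Function.ne_iff.1 h0
  have han : AnalyticOnNhd ℂ (fun w => f w l) (ball 0 1 \ {0}) :=
    (differentiableOn_pi.1 hf l).analyticOnNhd disc_open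
  rcases (han z hz).eventually_eq_zero_or_eventually_ne_zero with h | h
  · exact absurd (han.eqOn_zero_of_preconnected_of_eventuallyEq_zero disc_conn hz h hw0) hl
  · filter_upwards [h] with w hw hcon
    exact hw (by rw [hcon]; rfl)

theorem qd_eq {a b : ℂ → ℂ} {z : ℂ} (ha : ContinuousAt a z) (hb : ContinuousAt b z)
    (h : ∀ᶠ w in 𝓝[≠] z, a w = b w) : a z = b z := by
  have h1 : Tendsto a (𝓝[≠] z) (𝓝 (a z)) := ha.tendsto.mono_left nhdsWithin_le_nhds
  have h2 : Tendsto b (𝓝[≠] z) (𝓝 (b z)) := hb.tendsto.mono_left nhdsWithin_le_nhds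
  exact tendsto_nhds_unique h1 (h2.congr' (by filter_upwards [h] with w hw using hw.symm))

/-- the relation of proportionality holds at the point -/
theorem qd_mul {n : ℕ} {f g : ℂ → Fin (n + 1) → ℂ} {z : ℂ} (hf : ContinuousAt f z)
    (hg : ContinuousAt g z) (hgz : g z ≠ 0) (h : ∀ᶠ w in 𝓝[≠] z, ∃ c : ℂ, f w = c • g w) :
    ∃ c : ℂ, f z = c • g z := by
  obtain ⟨j, hj⟩ := Function.ne_iff.1 hgz
  have key : ∀ i, f z i * g z j = f z j * g z i := by
    intro i
    refine qd_eq (a := fun w => f w i * g w j) (b := fun w => f w j * g w i)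
      ((continuousAt_pi.1 hf i).mul (continuousAt_pi.1 hg j))
      ((continuousAt_pi.1 hf j).mul (continuousAt_pi.1 hg i)) ?_
    filter_upwards [h] with w hw
    obtain ⟨c, hc⟩ := hw
    rw [hc]
    simp only [Pi.smul_apply, smul_eq_mul]
    ring
  refine ⟨f z j / g z j, funext fun i => ?_⟩
  have hj' : g z j ≠ 0 := hj
  rw [Pi.smul_apply, smul_eq_mul, div_mul_eq_mul_div, eq_div_iff hj']
  exact key i

theorem qd_cont {M : ℕ} (p : MvPolynomial (Fin (M + 1)) ℂ) {g : ℂ → Fin (M + 1) → ℂ} {z : ℂ}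
    (hg : ContinuousAt g z) : ContinuousAt (fun w => eval (g w) p) z :=
  (MvPolynomial.continuous_eval p).continuousAt.comp hg

/-- a form vanishing on `f` near `z` vanishes at the value at `z` -/
theorem qd_van {n : ℕ} {f g : ℂ → Fin (n + 1) → ℂ} {z : ℂ} {p : MvPolynomial (Fin (n + 1)) ℂ}
    (hp : IsForm p) (hg : ContinuousAt g z) (hne : ∀ᶠ w in 𝓝[≠] z, f w ≠ 0)
    (h : ∀ᶠ w in 𝓝[≠] z, ∃ c : ℂ, f w = c • g w) (hfp : ∀ᶠ w in 𝓝[≠] z, eval (f w) p = 0) :
    eval (g z) p = 0 := by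
  obtain ⟨e, he⟩ := hp
  refine qd_eq (a := fun w => eval (g w) p) (b := fun _ => 0) (qd_cont p hg) continuousAt_const ?_
  filter_upwards [hne, h, hfp] with w h1 h2 h3
  obtain ⟨c, hc⟩ := h2
  have hc0 : c ≠ 0 := by
    rintro rfl
    exact h1 (by rw [hc, zero_smul])
  rw [hc, eval_scale he] at h3
  exact (mul_eq_zero.1 h3).resolve_left (pow_ne_zero _ hc0)

/-- a form vanishing at the value at `z` vanishes at `f z` -/
theorem qd_zero {n : ℕ} {f g : ℂ → Fin (n + 1) → ℂ} {z : ℂ} {p : MvPolynomial (Fin (n + 1)) ℂ}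
    (hp : IsForm p) (hf : ContinuousAt f z) (hg : ContinuousAt g z) (hgz : g z ≠ 0)
    (h : ∀ᶠ w in 𝓝[≠] z, ∃ c : ℂ, f w = c • g w) (hgp : eval (g z) p = 0) :
    eval (f z) p = 0 := by
  obtain ⟨e, he⟩ := hp
  obtain ⟨c, hc⟩ := qd_mul hf hg hgz h
  rw [hc, eval_scale he, hgp, mul_zero]

theorem qd_contAt {n : ℕ} {f : ℂ → Fin (n + 1) → ℂ} (hf : DifferentiableOn ℂ f (ball 0 1 \ {0}))
    {z : ℂ} (hz : z ∈ ball (0 : ℂ) 1 \ {0}) : ContinuousAt f z :=
  hf.continuousOn.continuousAt (disc_open.mem_nhds hz)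

/-- a product vanishing along `f` -/
theorem qd_prod {n : ℕ} {f : ℂ → Fin (n + 1) → ℂ} (hf : DifferentiableOn ℂ f (ball 0 1 \ {0}))
    {F H : MvPolynomial (Fin (n + 1)) ℂ} (hF : ∃ w ∈ ball (0 : ℂ) 1 \ {0}, eval (f w) F ≠ 0)
    (h : ∀ w ∈ ball (0 : ℂ) 1 \ {0}, eval (f w) (F * H) = 0) :
    ∀ w ∈ ball (0 : ℂ) 1 \ {0}, eval (f w) H = 0 := by
  refine disc_mul (s := fun w => eval (f w) F) (f := fun w => eval (f w) H)
    (diff_evalOn F hf) hF disc_open le_rfl (diff_evalOn H hf).continuousOn (fun w hw => ?_)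
  have := h w hw
  rwa [map_mul] at this

/-! ### the axioms -/

theorem qd_idl (n : ℕ) (S T : Set (MvPolynomial (Fin (n + 1)) ℂ)) :
    Idl (fun G => OnDiscsQ S T G) where
  zero := fun f _ _ _ => Or.inr fun z _ => map_zero _
  add := fun e G G' _ _ h h' f hf h0 hS => by
    rcases h f hf h0 hS with h1 | h1
    · exact Or.inl h1
    rcases h' f hf h0 hS with h2 | h2
    · exact Or.inl h2
    exact Or.inr fun z hz => by rw [map_add, h1 z hz, h2 z hz, add_zero]
  mul := fun G F _ _ h f hf h0 hS => by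
    rcases h f hf h0 hS with h1 | h1
    · exact Or.inl h1
    exact Or.inr fun z hz => by rw [map_mul, h1 z hz, zero_mul]
  rad := fun G r _ h f hf h0 hS => by
    rcases h f hf h0 hS with h1 | h1
    · exact Or.inl h1
    refine Or.inr fun z hz => ?_
    have h2 := h1 z hz
    rw [map_pow] at h2
    by_contra h3
    exact pow_ne_zero r h3 h2

theorem qd_vanish (n : ℕ) (S T : Set (MvPolynomial (Fin (n + 1)) ℂ))
    (G : MvPolynomial (Fin (n + 1)) ℂ) (hG : IsForm G)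
    (h : ∀ (L : Type) [Field L] [Algebra ℂ L] (x : Fin (n + 1) → L),
      (∀ p ∈ S, aeval x p = 0) → aeval x G = 0) : OnDiscsQ S T G := by
  intro f hf hf0 hS
  right
  intro w hw
  obtain ⟨g, hg, hgw, hrel, hgS, -⟩ := hS w hw
  exact qd_zero hG (qd_contAt hf hw) hg.continuousAt hgw hrel (h ℂ (g w) hgS)

theorem qd_restr (n : ℕ) (S T : Set (MvPolynomial (Fin (n + 1)) ℂ)) (L : Type) [Field L]
    [Algebra ℂ L] (y : Fin (n + 1) → L) (G H : MvPolynomial (Fin (n + 1)) ℂ)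
    (hF : ∀ F, IsForm F → aeval y F = 0 → OnDiscsQ S T (F * H)) (hG : OnDiscsQ (Eqs y) T G) :
    OnDiscsQ S T (G * H) := by
  intro f hf hf0 hfS
  by_cases hcon : Extends f
  · exact Or.inl hcon
  right
  by_cases hH0 : ∀ w ∈ ball (0 : ℂ) 1 \ {0}, eval (f w) H = 0
  · intro w hw
    rw [map_mul, hH0 w hw, mul_zero]
  push Not at hH0
  have hE : ∀ p ∈ Eqs y, ∀ w ∈ ball (0 : ℂ) 1 \ {0}, eval (f w) p = 0 := by
    intro p hp
    have h1 := (hF p hp.1 hp.2 f hf hf0 hfS).resolve_left hcon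
    rw [mul_comm] at h1
    exact qd_prod hf hH0 h1
  intro w hw
  have h3 := (hG f hf hf0 (fun z hz => by
    obtain ⟨g, hg, hgz, hrel, hgS, hgT⟩ := hfS z hz
    refine ⟨g, hg, hgz, hrel, fun p hp => ?_, hgT⟩
    refine qd_van hp.1 hg.continuousAt (qd_ne hf hf0 hz) hrel ?_
    filter_upwards [qd_nhds hz] with w hw
    exact hE p hp w hw)).resolve_left hcon
  rw [map_mul, h3 w hw, zero_mul]

theorem qd_mono (n : ℕ) (S S' T : Set (MvPolynomial (Fin (n + 1)) ℂ))
    (h : ∀ (L : Type) [Field L] [Algebra ℂ L] (x : Fin (n + 1) → L),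
      (∀ p ∈ S', aeval x p = 0) → ∀ p ∈ S, aeval x p = 0) (G : MvPolynomial (Fin (n + 1)) ℂ)
    (hG : OnDiscsQ S T G) : OnDiscsQ S' T G := by
  intro f hf hf0 hS
  refine hG f hf hf0 fun z hz => ?_
  obtain ⟨g, hg, hgz, hrel, hgS, hgT⟩ := hS z hz
  exact ⟨g, hg, hgz, hrel, h ℂ (g z) hgS, hgT⟩

theorem qd_coord (n : ℕ) (S T : Set (MvPolynomial (Fin (n + 1)) ℂ))
    (G : MvPolynomial (Fin (n + 1)) ℂ) (h : ∀ j, OnDiscsQ S T (G * X j)) : OnDiscsQ S T G := by
  intro f hf hf0 hS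
  by_cases hcon : Extends f
  · exact Or.inl hcon
  right
  obtain ⟨w0, hw0, hfw0⟩ := id hf0
  obtain ⟨j, hj⟩ := Function.ne_iff.1 hfw0
  have h1 := (h j f hf hf0 hS).resolve_left hcon
  rw [mul_comm] at h1
  exact qd_prod hf ⟨w0, hw0, by rw [eval_X]; exact hj⟩ h1

theorem qd_away (n : ℕ) (S T : Set (MvPolynomial (Fin (n + 1)) ℂ))
    (H : MvPolynomial (Fin (n + 1)) ℂ) (hT : ∀ F ∈ T, IsForm F)
    (h : ∀ F ∈ T, OnDiscsQ S T (F * H)) : OnDiscsQ S T H := by
  intro f hf hf0 hS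
  by_cases hcon : Extends f
  · exact Or.inl hcon
  right
  obtain ⟨w0, hw0, hfw0⟩ := id hf0
  obtain ⟨g, hg, hgz, hrel, -, F, hFT, hF0⟩ := hS w0 hw0
  obtain ⟨c, hc⟩ := qd_mul (qd_contAt hf hw0) hg.continuousAt hgz hrel
  have hc0 : c ≠ 0 := by
    rintro rfl
    exact hfw0 (by rw [hc, zero_smul])
  obtain ⟨e, he⟩ := hT F hFT
  refine qd_prod hf ⟨w0, hw0, ?_⟩ ((h F hFT f hf hf0 hS).resolve_left hcon)
  rw [hc, eval_scale he]
  exact mul_ne_zero (pow_ne_zero _ hc0) hF0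

theorem qd_point (n : ℕ) (T : Set (MvPolynomial (Fin (n + 1)) ℂ)) (L : Type) [Field L]
    [Algebra ℂ L] (y : Fin (n + 1) → L) (hy : Gen L 0 y) : OnDiscsQ (Eqs y) T 1 := by
  have h1 := hy.dim
  rw [Nat.cast_zero, trdeg_eq_zero_iff] at h1
  have hsurj : Function.Surjective (algebraMap ℂ L) :=
    (IsAlgClosed.algebraMap_bijective_of_isIntegral (k := ℂ) (K := L)).2
  choose c hc using fun j => hsurj (y j)
  have hc0 : c ≠ 0 := by
    intro h
    apply hy.ne
    funext j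
    rw [← hc j, h, Pi.zero_apply, Pi.zero_apply, map_zero]
  obtain ⟨a, ha⟩ : ∃ a, c a ≠ 0 := by
    by_contra hcon
    push Not at hcon
    exact hc0 (funext hcon)
  have hform : ∀ i j, (C (c i) * X j - C (c j) * X i : MvPolynomial (Fin (n + 1)) ℂ) ∈ Eqs y := by
    intro i j
    refine ⟨⟨1, ?_⟩, ?_⟩
    · have h2 : ∀ i j, (C (c i) * X j : MvPolynomial (Fin (n + 1)) ℂ).IsHomogeneous 1 := by
        intro i j
        have := (isHomogeneous_C (Fin (n + 1)) (c i)).mul (isHomogeneous_X ℂ j)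
        rwa [zero_add] at this
      exact (h2 i j).sub (h2 j i)
    · rw [map_sub, map_mul, map_mul, aeval_X, aeval_X, aeval_C, aeval_C, hc, hc]
      ring
  intro f hf hf0 hS
  left
  refine ⟨1, one_pos, fun _ => c, differentiableOn_const _, fun _ _ => hc0, fun w hw => ?_⟩
  obtain ⟨g, hg, hgz, hrel, hgS, -⟩ := hS w hw
  refine ⟨f w a / c a, ?_⟩
  funext j
  have h5 := qd_zero (hform a j).1 (qd_contAt hf hw) hg.continuousAt hgz hrel (hgS _ (hform a j))
  rw [map_sub, map_mul, map_mul, eval_X, eval_X, eval_C, eval_C, sub_eq_zero] at h5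
  rw [Pi.smul_apply, smul_eq_mul]
  field_simp
  rw [mul_comm, h5]
  ring

/-! ### the transfer -/

section

variable {n N d : ℕ} {m : Fin (N + 1) → Fin (n + 1) → ℕ}

theorem qd_ver_cont {g : ℂ → Fin (n + 1) → ℂ} {z : ℂ} (hg : AnalyticAt ℂ g z) :
    AnalyticAt ℂ (fun w => ver m (g w)) z := by
  rw [analyticAt_pi_iff]
  intro b
  unfold ver
  exact Finset.analyticAt_fun_prod _ fun j _ => ((analyticAt_pi_iff.1 hg) j).fun_pow _

/-- if `ver m F` extends then `F` extends -/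
theorem qd_down (hm : Mon n N d m) (hd : 1 ≤ d) {F : ℂ → Fin (n + 1) → ℂ}
    (hF : DifferentiableOn ℂ F (ball 0 1 \ {0})) (hF0 : ∃ w ∈ ball (0 : ℂ) 1 \ {0}, F w ≠ 0)
    (h1 : Extends fun w => ver m (F w)) : Extends F := by
  obtain ⟨w0, hw0, hFw0⟩ := hF0
  have hvF : DifferentiableOn ℂ (fun w => ver m (F w)) (ball 0 1 \ {0}) := ver_diffOn hF
  have hvF0 : ∃ w ∈ ball (0 : ℂ) 1 \ {0}, ver m (F w) ≠ 0 := ⟨w0, hw0, ver_ne_zero hm hd hFw0⟩
  change Extd _ at h1
  rw [t_ext N _ hvF hvF0] at h1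
  change Extd F
  rw [t_ext n F hF ⟨w0, hw0, hFw0⟩]
  rintro i l ⟨w1, hw1, hFw1⟩
  obtain ⟨b, hb⟩ := ver_near (Ω := ℂ) hm hd l l
  obtain ⟨b', hb'⟩ := ver_near (Ω := ℂ) hm hd l i
  obtain ⟨ρ, hρ, hρe⟩ := h1 b' b ⟨w1, hw1, by
    change ver m (F w1) b ≠ 0
    rw [hb]
    exact mul_ne_zero (pow_ne_zero _ hFw1) hFw1⟩
  refine ⟨ρ, hρ, ?_⟩
  refine disc_cancel (s := fun w => F w l ^ (d - 1)) ?_ ⟨w1, hw1, pow_ne_zero _ hFw1⟩
    (differentiableOn_pi.1 hF i) (differentiableOn_pi.1 hF l) hρ ?_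
  · exact (differentiableOn_pi.1 hF l).fun_pow _
  · filter_upwards [hρe] with w hw
    have hw2 : ver m (F w) b' = ρ w * ver m (F w) b := hw
    rw [hb, hb'] at hw2
    exact hw2

/-- a coordinate vanishing near the puncture vanishes -/
theorem qd_ident {M : ℕ} {f : ℂ → Fin (M + 1) → ℂ} (hf : DifferentiableOn ℂ f (ball 0 1 \ {0}))
    (l : Fin (M + 1)) (h6 : ∀ᶠ w in 𝓝[≠] (0 : ℂ), f w l = 0) :
    ∀ w ∈ ball (0 : ℂ) 1 \ {0}, f w l = 0 := ExtR_ident f hf l h6

/-- if `F` extends and `ver m F = (F a)^(d-1) f` then `f` extends -/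
theorem qd_up (hm : Mon n N d m) {f : ℂ → Fin (N + 1) → ℂ}
    (hf : DifferentiableOn ℂ f (ball 0 1 \ {0})) {F : ℂ → Fin (n + 1) → ℂ}
    (hF : DifferentiableOn ℂ F (ball 0 1 \ {0})) {a : Fin (n + 1)} {w0 : ℂ}
    (hw0 : w0 ∈ ball (0 : ℂ) 1 \ {0}) (hfw0 : f w0 ≠ 0) (hFa0 : F w0 a ≠ 0)
    (hrel : ∀ w ∈ ball (0 : ℂ) 1 \ {0}, ver m (F w) = (F w a ^ (d - 1)) • f w)
    (h2 : Extends F) : Extends f := by
  have hs : DifferentiableOn ℂ (fun w => F w a ^ (d - 1)) (ball 0 1 \ {0}) :=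
    (differentiableOn_pi.1 hF a).fun_pow _
  have hs0 : ∃ w ∈ ball (0 : ℂ) 1 \ {0}, F w a ^ (d - 1) ≠ 0 := ⟨w0, hw0, pow_ne_zero _ hFa0⟩
  have hFw0 : F w0 ≠ 0 := fun h0 => hFa0 (congrFun h0 a)
  change Extd _ at h2
  rw [t_ext n F hF ⟨w0, hw0, hFw0⟩] at h2
  change Extd f
  rw [t_ext N f hf ⟨w0, hw0, hfw0⟩]
  rintro i l ⟨w1, hw1, hfw1⟩
  choose ρ hρ hρe using fun j => h2 j a ⟨w0, hw0, hFa0⟩
  have hall : ∀ᶠ w in 𝓝[≠] (0 : ℂ), ∀ j, F w j = ρ j w * F w a :=
    Filter.eventually_all.2 hρe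
  have hV : ∀ i, MeromorphicAt (fun w => ver m (fun j => ρ j w) i) 0 := by
    intro i
    unfold ver
    exact MeromorphicAt.fun_prod fun j _ => (hρ j).fun_pow _
  have hrel2 : ∀ i, ∀ᶠ w in 𝓝[≠] (0 : ℂ), F w a ^ (d - 1) * f w i =
      ver m (fun j => ρ j w) i * F w a ^ d := by
    intro i
    filter_upwards [hall, disc_nhds hrel] with w hw hw2
    have h3 := congrFun hw2 i
    rw [Pi.smul_apply, smul_eq_mul] at h3
    rw [← h3]
    have h4 : F w = F w a • fun j => ρ j w := by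
      funext j
      rw [Pi.smul_apply, smul_eq_mul, mul_comm]
      exact hw j
    have h5 : ver m (F w) = F w a ^ d • ver m (fun j => ρ j w) := by
      conv_lhs => rw [h4]
      exact ver_smul hm _ _
    rw [h5, Pi.smul_apply, smul_eq_mul, mul_comm]
  rcases (hV l).eventually_eq_zero_or_eventually_ne_zero with h3 | h3
  · exfalso
    have h4 : ∀ᶠ w in 𝓝[≠] (0 : ℂ), F w a ^ (d - 1) * f w l = 0 * (F w a ^ (d - 1) * 0) := by
      filter_upwards [h3, hrel2 l] with w hw hw2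
      rw [hw2, hw, zero_mul, zero_mul]
    have h5 := disc_cancel hs hs0 (differentiableOn_pi.1 hf l) (differentiableOn_const (0 : ℂ))
      (MeromorphicAt.const (0 : ℂ) 0) h4
    have h6 : ∀ᶠ w in 𝓝[≠] (0 : ℂ), f w l = 0 := by
      filter_upwards [h5] with w hw
      rw [hw, zero_mul]
    exact hfw1 (qd_ident hf l h6 w1 hw1)
  · refine ⟨fun w => ver m (fun j => ρ j w) i / ver m (fun j => ρ j w) l,
      (hV i).fun_div (hV l), ?_⟩
    refine disc_cancel hs hs0 (differentiableOn_pi.1 hf i) (differentiableOn_pi.1 hf l)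
      ((hV i).fun_div (hV l)) ?_
    filter_upwards [h3, hrel2 i, hrel2 l] with w hw hwi hwl
    rw [hwi, hwl]
    field_simp

/-- the value at `z` of the map to the Veronese variety -/
theorem qd_value (hm : Mon n N d m) (hd : 1 ≤ d) {S T : Set (MvPolynomial (Fin (n + 1)) ℂ)}
    (hS : ∀ p ∈ S, IsForm p) {A : MvPolynomial (Fin (N + 1)) ℂ}
    {T' : Set (MvPolynomial (Fin (N + 1)) ℂ)} (hT : Lifts m d T T')
    {f : ℂ → Fin (N + 1) → ℂ} {F : ℂ → Fin (n + 1) → ℂ} {z : ℂ}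
    (hne : ∀ᶠ w in 𝓝[≠] z, f w ≠ 0)
    (hx : ∀ᶠ w in 𝓝[≠] z, f w ≠ 0 → ∃ (x : Fin (n + 1) → ℂ) (c : ℂ), x ≠ 0 ∧
      (∀ p ∈ S, eval x p = 0) ∧ f w = ver m x ∧ F w = c • x)
    (hv : ValueIn {A} T' f z) : ValueIn S T F z := by
  obtain ⟨g, hg, hgz, hrel, -, G', hG'T, hG'0⟩ := hv
  -- near `z` the vector `g w` is a multiple of a point of the Veronese variety
  have hg1 : ∀ᶠ w in 𝓝[≠] z, ∃ (x : Fin (n + 1) → ℂ) (c c' : ℂ), x ≠ 0 ∧
      (∀ p ∈ S, eval x p = 0) ∧ c ≠ 0 ∧ g w = c • ver m x ∧ F w = c' • x := by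
    filter_upwards [hne, hx, hrel] with w h1 h2 h3
    obtain ⟨x, c', hx0, hxS, hfx, hFx⟩ := h2 h1
    obtain ⟨c, hc⟩ := h3
    have hc0 : c ≠ 0 := by
      rintro rfl
      exact h1 (by rw [hc, zero_smul])
    refine ⟨x, c⁻¹, c', hx0, hxS, inv_ne_zero hc0, ?_, hFx⟩
    rw [← hfx, hc, smul_smul, inv_mul_cancel₀ hc0, one_smul]
  have hgc : ∀ b, ContinuousAt (fun w => g w b) z := fun b => continuousAt_pi.1 hg.continuousAt b
  choose β hβ using fun j => ver_near (Ω := ℂ) hm hd j j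
  -- some coordinate with a pure power does not vanish at `z`
  obtain ⟨j, hj⟩ : ∃ j, g z (β j) ≠ 0 := by
    by_contra hcon
    push Not at hcon
    apply hgz
    funext b
    have h1 : g z b ^ d = ∏ j, g z (β j) ^ m b j := by
      refine qd_eq (a := fun w => g w b ^ d) (b := fun w => ∏ j, g w (β j) ^ m b j)
        ((hgc b).pow d) ?_ ?_
      · exact tendsto_finset_prod _ fun j _ => (hgc (β j)).pow _
      · filter_upwards [hg1] with w hw
        obtain ⟨x, c, c', -, -, -, hgw, -⟩ := hw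
        have h2 : ∀ j, g w (β j) = c * x j ^ d := by
          intro j
          rw [hgw, Pi.smul_apply, smul_eq_mul, hβ, ← pow_succ]
          congr 2
          omega
        simp only [h2, mul_pow, Finset.prod_mul_distrib]
        rw [Finset.prod_pow_eq_pow_sum, hm.deg, hgw, Pi.smul_apply, smul_eq_mul, mul_pow]
        congr 1
        unfold ver
        rw [← Finset.prod_pow]
        refine Finset.prod_congr rfl fun j _ => ?_
        rw [← pow_mul, ← pow_mul, mul_comm]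
    have h2 : ∃ j, m b j ≠ 0 := by
      by_contra h3
      push Not at h3
      have h4 := hm.deg b
      rw [Finset.sum_eq_zero fun j _ => h3 j] at h4
      omega
    obtain ⟨j, hj⟩ := h2
    have h3 : (∏ j, g z (β j) ^ m b j) = 0 :=
      Finset.prod_eq_zero (Finset.mem_univ j) (by rw [hcon j, zero_pow hj])
    rw [h3] at h1
    exact pow_eq_zero_iff (by omega) |>.1 h1
  choose γ hγ using fun i => ver_near (Ω := ℂ) hm hd j i
  let h : ℂ → Fin (n + 1) → ℂ := fun w i => g w (γ i)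
  have hh : AnalyticAt ℂ h z := by
    rw [analyticAt_pi_iff]
    intro i
    exact (analyticAt_pi_iff.1 hg) (γ i)
  have hhw : ∀ w (x : Fin (n + 1) → ℂ) (c : ℂ), g w = c • ver m x →
      h w = (c * x j ^ (d - 1)) • x := by
    intro w x c hgw
    funext i
    show g w (γ i) = _
    rw [hgw, Pi.smul_apply, smul_eq_mul, hγ, Pi.smul_apply, smul_eq_mul, mul_assoc]
  -- `h_j` is the pure power
  have hhj : h z j ≠ 0 := by
    have h1 : h z j = g z (β j) := by
      refine qd_eq (a := fun w => g w (γ j)) (b := fun w => g w (β j)) (hgc _) (hgc _) ?_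
      filter_upwards [hg1] with w hw
      obtain ⟨x, c, c', -, -, -, hgw, -⟩ := hw
      rw [hgw, Pi.smul_apply, Pi.smul_apply, hγ, hβ]
    rw [h1]
    exact hj
  have hhne : ∀ᶠ w in 𝓝[≠] z, h w j ≠ 0 :=
    nhdsWithin_le_nhds ((continuousAt_pi.1 hh.continuousAt j).eventually_ne hhj)
  -- the relation with `ver m h`
  have hver : ver m (h z) = (h z j ^ (d - 1)) • g z := by
    funext b
    refine qd_eq (a := fun w => ver m (h w) b) (b := fun w => ((h w j ^ (d - 1)) • g w) b) ?_ ?_ ?_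
    · exact continuousAt_pi.1 (qd_ver_cont hh).continuousAt b
    · exact ((continuousAt_pi.1 hh.continuousAt j).pow _).mul (hgc b)
    · filter_upwards [hg1] with w hw
      obtain ⟨x, c, c', -, -, -, hgw, -⟩ := hw
      have h1 := hhw w x c hgw
      have h2 : h w j = c * x j ^ (d - 1) * x j := by
        rw [h1, Pi.smul_apply, smul_eq_mul]
      show ver m (h w) b = h w j ^ (d - 1) * g w b
      rw [h2, h1, ver_smul hm, hgw, Pi.smul_apply, Pi.smul_apply, smul_eq_mul, smul_eq_mul]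
      obtain ⟨e, rfl⟩ : ∃ e, d = e + 1 := ⟨d - 1, by omega⟩
      simp only [Nat.add_sub_cancel]
      ring
  refine ⟨h, hh, fun h0 => hhj (congrFun h0 j), ?_, ?_, ?_⟩
  · filter_upwards [hg1, hhne] with w hw hw2
    obtain ⟨x, c, c', -, -, -, hgw, hFx⟩ := hw
    have h1 := hhw w x c hgw
    have h2 : c * x j ^ (d - 1) ≠ 0 := by
      intro h3
      apply hw2
      rw [h1, h3, zero_smul]
      rfl
    refine ⟨c' * (c * x j ^ (d - 1))⁻¹, ?_⟩
    rw [h1, smul_smul, mul_assoc, inv_mul_cancel₀ h2, mul_one]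
    exact hFx
  · intro p hp
    obtain ⟨e, he⟩ := hS p hp
    refine qd_eq (a := fun w => eval (h w) p) (b := fun _ => 0) (qd_cont p hh.continuousAt)
      continuousAt_const ?_
    filter_upwards [hg1] with w hw
    obtain ⟨x, c, c', -, hxS, -, hgw, -⟩ := hw
    rw [hhw w x c hgw, eval_scale he, hxS p hp, mul_zero]
  · obtain ⟨G, hG, e, he, he', hpull⟩ := hT.down G' hG'T
    refine ⟨G, hG, ?_⟩
    intro h0
    have h1 : eval (h z) (pull m G') = 0 := by
      rw [hpull, map_pow, h0, zero_pow (by omega)]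
    rw [eval_pull, hver, eval_scale he'] at h1
    rcases mul_eq_zero.1 h1 with h2 | h2
    · exact pow_ne_zero _ (pow_ne_zero _ hhj) h2
    · exact hG'0 h2

theorem qd_transfer {S : Set (MvPolynomial (Fin (n + 1)) ℂ)} {A : MvPolynomial (Fin (N + 1)) ℂ}
    (hg : Good n N d m S A) {T : Set (MvPolynomial (Fin (n + 1)) ℂ)}
    {T' : Set (MvPolynomial (Fin (N + 1)) ℂ)} (hT : Lifts m d T T')
    {G : MvPolynomial (Fin (N + 1)) ℂ} (hG : IsForm G) :
    OnDiscsQ {A} T' G ↔ OnDiscsQ S T (pull m G) := by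
  have hm := hg.mon
  have hd := hg.deg
  constructor
  · intro h F hF hF0 hFS
    obtain ⟨w0, hw0, hFw0⟩ := id hF0
    have hvF : DifferentiableOn ℂ (fun w => ver m (F w)) (ball 0 1 \ {0}) := ver_diffOn hF
    have hvF0 : ∃ w ∈ ball (0 : ℂ) 1 \ {0}, ver m (F w) ≠ 0 := ⟨w0, hw0, ver_ne_zero hm hd hFw0⟩
    rcases h (fun w => ver m (F w)) hvF hvF0 (fun z hz => by
        obtain ⟨g, hga, hgz, hrel, hgS, H, hH, hH0⟩ := hFS z hz
        refine ⟨fun w => ver m (g w), qd_ver_cont hga, ver_ne_zero hm hd hgz, ?_, ?_, ?_⟩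
        · filter_upwards [hrel] with w hw
          obtain ⟨c, hc⟩ := hw
          exact ⟨c ^ d, by rw [hc, ver_smul hm]⟩
        · intro p hp
          rw [Set.mem_singleton_iff] at hp
          rw [hp]
          exact hg.sub ℂ (g z) hgS
        · obtain ⟨H', hH', e, -, -, hpull⟩ := hT.up H hH
          refine ⟨H', hH', ?_⟩
          rw [← eval_pull, hpull, map_pow]
          exact pow_ne_zero _ hH0) with h1 | h1
    · exact Or.inl (qd_down hm hd hF hF0 h1)
    · right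
      intro w hw
      rw [eval_pull]
      exact h1 w hw
  · intro h f hf hf0 hfA
    obtain ⟨w0, hw0, hfw0⟩ := id hf0
    rcases hg.discs f hf hf0 (fun w hw => by
        obtain ⟨g, hga, hgz, hrel, hgA, -⟩ := hfA w hw
        exact qd_zero hg.homA (qd_contAt hf hw) hga.continuousAt hgz hrel (hgA A rfl)) with h1 | h1
    · exact Or.inl h1
    obtain ⟨x0, hx0, hx0S, hfx0⟩ := h1 w0 hw0 hfw0
    obtain ⟨a, ha⟩ : ∃ a, x0 a ≠ 0 := by
      by_contra hcon
      push Not at hcon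
      exact hx0 (funext hcon)
    choose b hb using fun j => ver_near (Ω := ℂ) hm hd a j
    have hver0 : ver m (0 : Fin (n + 1) → ℂ) = 0 := by
      have h2 := ver_smul (Ω := ℂ) hm 0 0
      rw [zero_smul, zero_pow (by omega), zero_smul] at h2
      exact h2
    set F : ℂ → Fin (n + 1) → ℂ := fun w j => f w (b j) with hFdef
    have hF : DifferentiableOn ℂ F (ball 0 1 \ {0}) := by
      rw [differentiableOn_pi]
      exact fun j => differentiableOn_pi.1 hf (b j)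
    have hFx : ∀ w (x : Fin (n + 1) → ℂ), f w = ver m x → F w = x a ^ (d - 1) • x := by
      intro w x hx
      funext j
      change f w (b j) = _
      rw [hx, hb]
      rfl
    have hFa0 : F w0 a ≠ 0 := by
      rw [hFx w0 x0 hfx0]
      exact mul_ne_zero (pow_ne_zero _ ha) ha
    have hFw0 : F w0 ≠ 0 := fun h0 => hFa0 (congrFun h0 a)
    have hrel : ∀ w ∈ ball (0 : ℂ) 1 \ {0}, ver m (F w) = (F w a ^ (d - 1)) • f w := by
      intro w hw
      by_cases hfw : f w = 0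
      · have : F w = 0 := by
          funext j
          change f w (b j) = 0
          rw [hfw]
          rfl
        rw [this, hfw, hver0, smul_zero]
      · obtain ⟨x, hx, hxS, hfx⟩ := h1 w hw hfw
        rw [hFx w x hfx, ver_smul hm, hfx]
        congr 1
        change (x a ^ (d - 1)) ^ d = (x a ^ (d - 1) * x a) ^ (d - 1)
        obtain ⟨e, rfl⟩ : ∃ e, d = e + 1 := ⟨d - 1, by omega⟩
        simp only [Nat.add_sub_cancel]
        ring
    rcases h F hF ⟨w0, hw0, hFw0⟩ (fun z hz => by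
        refine qd_value hm hd hg.homS hT (qd_ne hf hf0 hz) ?_ (hfA z hz)
        filter_upwards [qd_nhds hz] with w hw hfw
        obtain ⟨x, hx, hxS, hfx⟩ := h1 w hw hfw
        exact ⟨x, x a ^ (d - 1), hx, hxS, hfx, hFx w x hfx⟩) with h2 | h2
    · left
      exact qd_up hm hf hF hw0 hfw0 hFa0 hrel h2
    · right
      obtain ⟨e, he⟩ := hG
      refine disc_mul (s := fun w => (F w a ^ (d - 1)) ^ e)
        (((differentiableOn_pi.1 hF a).fun_pow _).fun_pow _)
        ⟨w0, hw0, pow_ne_zero _ (pow_ne_zero _ hFa0)⟩ disc_open le_rfl ?_ ?_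
      · exact (diff_evalOn G hf).continuousOn
      · intro w hw
        have h3 := h2 w hw
        rw [eval_pull, hrel w hw, eval_scale he] at h3
        exact h3

end

/-- QDISC -/
theorem t_qdisc : Qdisc_stm where
  idl := qd_idl
  van := qd_vanish
  restr := fun n S T L _ _ y G H _ _ hF hG => qd_restr n S T L y G H hF hG
  mono := qd_mono
  coord := fun n S T G _ h => qd_coord n S T G h
  away := fun n S T H hT _ h => qd_away n S T H hT h
  point := qd_point
  transfer := fun _ _ _ _ _ _ hg _ _ _ hT _ hG => qd_transfer hg hT hG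

end Pool.Agent.N254.SQ
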