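import Pool.Agent.N254.SQ.StmR

/-!
Project SQ, part RESTR: forms vanishing on the exceptional set of a component (helper588).
-/

set_option autoImplicit false

namespace Pool.Agent.N254.SQ

open MvPolynomial Metric
open Pool.Agent.W602.GT (SubVar GeneralType coords)

theorem RestrR_special (n : ℕ) (S : Set (MvPolynomial (Fin (n + 1)) ℂ)) (L : Type) [Field L]
    [Algebra ℂ L] (y : Fin (n + 1) → L) (G H : MvPolynomial (Fin (n + 1)) ℂ)
    (hF : ∀ F, IsForm F → aeval y F = 0 → OnSpecial S (F * H)) (hG : OnSpecial (Eqs y) G) :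
    OnSpecial S (G * H) := by
  intro L' _ _ w' y' hw' hy'
  by_cases hgt : GeneralType ℂ L' w'
  · exact Or.inl hgt
  right
  rw [map_mul]
  by_cases hH0 : aeval y' H = 0
  · rw [hH0, mul_zero]
  have hG' : aeval y' G = 0 := by
    refine (hG L' w' y' hw' ⟨hy'.ne, fun p => ?_, hy'.gen, hy'.dim⟩).resolve_left hgt
    have h1 := (hF p.1 p.2.1 p.2.2 L' w' y' hw' hy').resolve_left hgt
    rw [map_mul, mul_eq_zero] at h1
    exact h1.resolve_right hH0
  rw [hG', zero_mul]

theorem RestrR_curves (n : ℕ) (S : Set (MvPolynomial (Fin (n + 1)) ℂ)) (L : Type) [Field L]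
    [Algebra ℂ L] (y : Fin (n + 1) → L) (G H : MvPolynomial (Fin (n + 1)) ℂ)
    (hF : ∀ F, IsForm F → aeval y F = 0 → OnCurves S (F * H)) (hG : OnCurves (Eqs y) G) :
    OnCurves S (G * H) := by
  intro f hf hf0 hfS
  by_cases hcon : ∀ z w, ∃ c : ℂ, f w = c • f z
  · exact Or.inl hcon
  right
  by_cases hH0 : ∀ z, eval (f z) H = 0
  · intro z
    rw [map_mul, hH0 z, mul_zero]
  have hE : ∀ z, ∀ p ∈ Eqs y, eval (f z) p = 0 := by
    intro z p hp
    have h1 := (hF p hp.1 hp.2 f hf hf0 hfS).resolve_left hcon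
    have ha : AnalyticOnNhd ℂ (fun z => eval (f z) p) Set.univ :=
      (diff_evalOn p hf.differentiableOn).analyticOnNhd isOpen_univ
    have hb : AnalyticOnNhd ℂ (fun z => eval (f z) H) Set.univ :=
      (diff_evalOn H hf.differentiableOn).analyticOnNhd isOpen_univ
    rcases ha.eq_zero_or_eq_zero_of_mul_eq_zero hb (fun z _ => by
        have := h1 z
        rwa [map_mul] at this) isPreconnected_univ with h2 | h2
    · exact h2 z (Set.mem_univ z)
    · exact absurd (fun z => h2 z (Set.mem_univ z)) hH0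
  intro z
  have h3 := (hG f hf hf0 hE).resolve_left hcon
  rw [map_mul, h3 z, zero_mul]

theorem RestrR_discs (n : ℕ) (S : Set (MvPolynomial (Fin (n + 1)) ℂ)) (L : Type) [Field L]
    [Algebra ℂ L] (y : Fin (n + 1) → L) (G H : MvPolynomial (Fin (n + 1)) ℂ)
    (hF : ∀ F, IsForm F → aeval y F = 0 → OnDiscs S (F * H)) (hG : OnDiscs (Eqs y) G) :
    OnDiscs S (G * H) := by
  intro f hf hf0 hfS
  by_cases hcon : Extends f
  · exact Or.inl hcon
  right
  by_cases hH0 : ∀ w ∈ ball (0 : ℂ) 1 \ {0}, eval (f w) H = 0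
  · intro w hw
    rw [map_mul, hH0 w hw, mul_zero]
  push Not at hH0
  have hE : ∀ w ∈ ball (0 : ℂ) 1 \ {0}, ∀ p ∈ Eqs y, eval (f w) p = 0 := by
    intro w hw p hp
    have h1 := (hF p hp.1 hp.2 f hf hf0 hfS).resolve_left hcon
    refine disc_mul (s := fun w => eval (f w) H) (f := fun w => eval (f w) p)
      (diff_evalOn H hf) hH0 disc_open le_rfl (diff_evalOn p hf).continuousOn (fun w hw => ?_) w hw
    have := h1 w hw
    rwa [map_mul, mul_comm] at this
  intro w hw
  have h3 := (hG f hf hf0 hE).resolve_left hcon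
  rw [map_mul, h3 w hw, zero_mul]

theorem RestrR_points (n : ℕ) (K : Subfield ℂ) (S : Set (MvPolynomial (Fin (n + 1)) ℂ)) (L : Type)
    [Field L] [Algebra ℂ L] (y : Fin (n + 1) → L) (G H : MvPolynomial (Fin (n + 1)) ℂ)
    (hF : ∀ F, IsForm F → aeval y F = 0 → OnPoints K S (F * H)) (hG : OnPoints K (Eqs y) G) :
    OnPoints K S (G * H) := by
  intro x hx hxK hxS
  rw [map_mul]
  by_cases hH0 : eval x H = 0
  · rw [hH0, mul_zero]
  have h1 := hG x hx hxK (fun p hp => by
    have h2 := hF p hp.1 hp.2 x hx hxK hxS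
    rw [map_mul, mul_eq_zero] at h2
    exact h2.resolve_right hH0)
  rw [h1, zero_mul]

theorem RestrR_finite (n : ℕ) (S : Set (MvPolynomial (Fin (n + 1)) ℂ)) (L : Type)
    [Field L] [Algebra ℂ L] (y : Fin (n + 1) → L) (G H : MvPolynomial (Fin (n + 1)) ℂ)
    (hF : ∀ F, IsForm F → aeval y F = 0 → FiniteOff S (F * H)) (hG : FiniteOff (Eqs y) G) :
    FiniteOff S (G * H) := by
  classical
  intro k hk
  obtain ⟨T, hT, hT2⟩ := reduce (Eqs y)
  have h1 := hG k hk
  have h2 : (⋃ F ∈ T, {P : Projectivization ℂ (Fin (n + 1) → ℂ) |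
      ∃ (x : Fin (n + 1) → ℂ) (hx : x ≠ 0), P = Projectivization.mk ℂ x hx ∧ (∀ j, x j ∈ k) ∧
        (∀ p ∈ S, eval x p = 0) ∧ eval x (F * H) ≠ 0}).Finite := by
    refine T.finite_toSet.biUnion fun F hFT => ?_
    have h3 := hT hFT
    exact hF F h3.1 h3.2 k hk
  refine (h1.union h2).subset ?_
  rintro P ⟨x, hx, hP, hxk, hxS, hne⟩
  rw [map_mul] at hne
  have hG0 := left_ne_zero_of_mul hne
  have hH0 := right_ne_zero_of_mul hne
  by_cases hall : ∀ p ∈ Eqs y, eval x p = 0
  · left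
    exact ⟨x, hx, hP, hxk, hall, hG0⟩
  · right
    have h4 : ∃ F ∈ T, eval x F ≠ 0 := by
      by_contra hcon
      push Not at hcon
      apply hall
      intro p hp
      have h5 := hT2 ℂ (RingHom.id ℂ) x (fun q hq => by
        rw [map_id]
        exact hcon q hq) p hp
      rwa [map_id] at h5
    obtain ⟨F, hFT, hF0⟩ := h4
    rw [Set.mem_iUnion₂]
    refine ⟨F, hFT, x, hx, hP, hxk, hxS, ?_⟩
    rw [map_mul]
    exact mul_ne_zero hF0 hH0

theorem t_restr : Restr where
  special := fun n S L _ _ y G H _ _ hF hG => RestrR_special n S L y G H hF hG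
  curves := fun n S L _ _ y G H _ _ hF hG => RestrR_curves n S L y G H hF hG
  discs := fun n S L _ _ y G H _ _ hF hG => RestrR_discs n S L y G H hF hG
  points := fun n K S L _ _ y G H _ _ hF hG => RestrR_points n K S L y G H hF hG
  finite := fun n S L _ _ y G H _ _ hF hG => RestrR_finite n S L y G H hF hG

end Pool.Agent.N254.SQ
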