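import Pool.Agent.N254.SQ.StmB
import Pool.Agent.N254.SQ.Num
import Pool.Agent.N254.SQ.VerSurj
import Pool.Agent.N254.SQ.Red
import Pool.Agent.N254.SQ.Locus
import Pool.Agent.N254.SQ.R2a5ae2

/-!
Project SQ, ninth part, QEQ: second step for quasi-projective varieties.
-/

set_option autoImplicit false

namespace Pool.Agent.N254.SQ

open MvPolynomial Metric FF
open Pool.Agent.W602.GT (SubVar GeneralType LogGeneralType coords)

/-- smoothness over `ℂ` -/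
theorem qe_smooth {N : ℕ} {A : MvPolynomial (Fin (N + 1)) ℂ} (h : Smooth A) : SmoothForm A := by
  intro y hy
  obtain ⟨j, hj⟩ := h ℂ (RingHom.id ℂ) y hy
  rw [map_id] at hj
  exact ⟨j, hj⟩

/-- finitely many equations of bounded degree -/
theorem qe_finite {n : ℕ} {L : Type} [Field L] [Algebra ℂ L] (y : Fin (n + 1) → L) :
    ∃ (S₀ : Set (MvPolynomial (Fin (n + 1)) ℂ)) (d : ℕ), 3 ≤ d ∧
      (∀ p ∈ S₀, ∃ e ≤ d, p.IsHomogeneous e) ∧
      (∀ (L' : Type) [Field L'] [Algebra ℂ L'] (x : Fin (n + 1) → L'),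
        (∀ p ∈ S₀, aeval x p = 0) → ∀ p ∈ Eqs y, aeval x p = 0) ∧
      ∀ (L' : Type) [Field L'] [Algebra ℂ L'] (x : Fin (n + 1) → L'),
        (∀ p ∈ Eqs y, aeval x p = 0) → ∀ p ∈ S₀, aeval x p = 0 := by
  obtain ⟨T, hT, hTS⟩ := reduce (Eqs y)
  have hT2 : ∀ p ∈ T, ∃ e, p.IsHomogeneous e := fun p hp => (hT hp).1
  obtain ⟨d, hd3, hd⟩ : ∃ d, 3 ≤ d ∧ ∀ p ∈ T, ∃ e ≤ d, p.IsHomogeneous e := by
    choose! e he using hT2
    refine ⟨max 3 (T.sup e), le_max_left _ _, fun p hp => ⟨e p, ?_, he p hp⟩⟩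
    exact le_trans (Finset.le_sup (f := e) hp) (le_max_right _ _)
  refine ⟨(T : Set (MvPolynomial (Fin (n + 1)) ℂ)), d, hd3, fun p hp => hd p hp, ?_, ?_⟩
  · intro L' _ _ x hx p hp
    have h1 := hTS L' (algebraMap ℂ L') x (fun p hp => by
      rw [eval_map]
      exact hx p hp) p hp
    rw [eval_map] at h1
    exact h1
  · intro L' _ _ x hx p hp
    exact hx p (hT hp)

theorem t_qeq : Qeq_stm := by
  intro D₁ hGC E hE hEx P hP C hC hY n T hT L _ _ w y hw hgen hnot ⟨G, hG, hGy, hGP⟩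
  have hn : 1 ≤ n := le_trans hw
    (Pool.Agent.Results.MP_2a5ae2_ag.SmoothHypersurfacesSuffice.dim_le hgen.gen hgen.dim y
      hgen.ne rfl)
  obtain ⟨S₀, d, hd3, hd, h1, h2⟩ := qe_finite y
  obtain ⟨N, m, hm, hN⟩ := t_num n d hn hd3
  obtain ⟨D, hD, hD2⟩ := hE.exists_gt (D₁ N)
  obtain ⟨Q, hQ, hsm, hg, hga⟩ := hGC n d hn hd3 N m hm hN D hD2.le S₀ hd
  obtain ⟨T', hT', hlift⟩ := hC.lift n N d m hm hg.deg T hT
  obtain ⟨e, he⟩ := id hG
  obtain ⟨G₀, hG₀, hG₀F⟩ := t_versurj n N d m hm e (G ^ d) (by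
    have := he.pow d
    rwa [mul_comm] at this)
  have hpull : pull m G₀ = G ^ d := hG₀F
  have hGd : P n (Eqs y) T (G ^ d) :=
    (Pool.Agent.Results.MP_2a5ae2_ag.SmoothHypersurfacesSuffice.idl_pow (hP.idl n (Eqs y) T) hG d
      hg.deg).2 hGP
  have h3 : P n S₀ T (G ^ d) := hP.mono n (Eqs y) S₀ T (fun L' _ _ x hx => h1 L' x hx) _ hGd
  have h4 : P N {powerSum D Q} T' G₀ := by
    rw [hP.transfer n N d m S₀ _ hg hga T T' hlift G₀ ⟨e, hG₀⟩, hpull]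
    exact h3
  have h5 : OnSpecialQ {powerSum D Q} T' G₀ :=
    hY N D Q hD hD2.le hQ (qe_smooth hsm) T' hT' G₀ ⟨e, hG₀⟩ h4
  have h6 : OnSpecialQ S₀ T (G ^ d) := by
    have := (hEx.transfer n N d m S₀ _ hg hga T T' hlift G₀ ⟨e, hG₀⟩).1 h5
    rwa [hpull] at this
  have h7 : OnSpecialQ (Eqs y) T (G ^ d) :=
    hEx.mono n S₀ (Eqs y) T (fun L' _ _ x hx => h2 L' x hx) _ h6
  rcases h7 L w y hw ⟨hgen.ne, fun p => p.2.2, hgen.gen, hgen.dim⟩ hnot with h8 | h8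
  · exact h8
  · exfalso
    rw [map_pow] at h8
    exact hGy (eq_zero_of_pow_eq_zero h8)

end Pool.Agent.N254.SQ
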