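import Pool.Agent.N254.SQ.StmB
import Pool.Agent.N254.SQ.Comp2

/-!
Project SQ, QFORW: from all varieties to the exceptional sets of all quasi-projective sets (helper394).
-/

set_option autoImplicit false

namespace Pool.Agent.N254.SQ

open MvPolynomial
open Pool.Agent.W602.GT (SubVar coords)

/-- the components of an exceptional set -/
theorem qf_comp {J : ∀ n : ℕ, Set (MvPolynomial (Fin (n + 1)) ℂ) →
    Set (MvPolynomial (Fin (n + 1)) ℂ) → MvPolynomial (Fin (n + 1)) ℂ → Prop} (hJ : Exc J)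
    {n : ℕ} {S T : Set (MvPolynomial (Fin (n + 1)) ℂ)} (hS : ∀ p ∈ S, IsForm p)
    (hT : ∀ F ∈ T, IsForm F) {e : ℕ} {G : MvPolynomial (Fin (n + 1)) ℂ} (hG : G.IsHomogeneous e)
    (he : 1 ≤ e) (hn : ¬ J n S T G) :
    ∃ (L : Type) (_ : Field L) (_ : Algebra ℂ L) (w : ℕ) (y : Fin (n + 1) → L), 1 ≤ w ∧
      Gen L w y ∧ aeval y G ≠ 0 ∧ NotIn T y ∧ (∀ p ∈ S, aeval y p = 0) ∧
      Component (J n S T) y := by
  obtain ⟨L, iF, iA, w, y, hgen, hGy, hc⟩ := t_comp2 n (J n S T) (hJ.idl n S T) e G hG he hn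
  obtain ⟨hc1, H, hH, hHy, hc2⟩ := hc
  refine ⟨L, iF, iA, w, y, ?_, hgen, hGy, ?_, ?_, hc1, H, hH, hHy, hc2⟩
  · by_contra hw
    have hw0 : w = 0 := by omega
    subst hw0
    have h1 := hJ.restr n S T L y 1 H ⟨0, isHomogeneous_one _ _⟩ hH hc2 (hJ.point n T L y hgen)
    rw [one_mul] at h1
    exact hHy (hc1 H hH h1)
  · by_contra hnot
    have h1 : ∀ F ∈ T, aeval y F = 0 := by
      intro F hF
      by_contra h0
      exact hnot ⟨F, hF, h0⟩
    exact hHy (hc1 H hH (hJ.away n S T H hT hH fun F hF => hc2 F (hT F hF) (h1 F hF)))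
  · intro p hp
    exact hc1 p (hS p hp) (hJ.van n S T p (hS p hp) fun L _ _ x hx => hx p hp)

/-- from positive degrees to degree zero -/
theorem qf_deg {I J : ∀ n : ℕ, Set (MvPolynomial (Fin (n + 1)) ℂ) →
    Set (MvPolynomial (Fin (n + 1)) ℂ) → MvPolynomial (Fin (n + 1)) ℂ → Prop} (hI : Exc I)
    (hJ : Exc J) {n : ℕ} {S T : Set (MvPolynomial (Fin (n + 1)) ℂ)}
    (h : ∀ (e : ℕ) (G : MvPolynomial (Fin (n + 1)) ℂ), G.IsHomogeneous e → 1 ≤ e →
      I n S T G → J n S T G) (G : MvPolynomial (Fin (n + 1)) ℂ) (hG : IsForm G)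
    (hIG : I n S T G) : J n S T G := by
  refine hJ.coord n S T G hG fun j => ?_
  obtain ⟨e, he⟩ := hG
  exact h (e + 1) (G * X j) (he.mul (isHomogeneous_X _ _)) (by omega)
    ((hI.idl n S T).mul G (X j) ⟨e, he⟩ ⟨1, isHomogeneous_X _ _⟩ hIG)

theorem qf_eqs {n : ℕ} {S : Set (MvPolynomial (Fin (n + 1)) ℂ)} (hS : ∀ p ∈ S, IsForm p)
    {L : Type} [Field L] [Algebra ℂ L] {y : Fin (n + 1) → L} (hy : ∀ p ∈ S, aeval y p = 0)
    (L' : Type) [Field L'] [Algebra ℂ L'] (x : Fin (n + 1) → L')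
    (hx : ∀ p ∈ Eqs y, aeval x p = 0) : ∀ p ∈ S, aeval x p = 0 :=
  fun p hp => hx p ⟨hS p hp, hy p hp⟩

theorem qf_eqsForm {n : ℕ} {L : Type} [Field L] [Algebra ℂ L] (y : Fin (n + 1) → L) :
    ∀ p ∈ Eqs y, IsForm p := fun _ hp => hp.1

theorem qf_mul {n : ℕ} {G H : MvPolynomial (Fin (n + 1)) ℂ} (hG : IsForm G) (hH : IsForm H) :
    IsForm (G * H) := by
  obtain ⟨e, he⟩ := hG
  obtain ⟨e', he'⟩ := hH
  exact ⟨e + e', he.mul he'⟩

/-- the contradiction: a form `G` with `G(y) ≠ 0` on the exceptional set of the component -/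
theorem qf_con {J : ∀ n : ℕ, Set (MvPolynomial (Fin (n + 1)) ℂ) →
    Set (MvPolynomial (Fin (n + 1)) ℂ) → MvPolynomial (Fin (n + 1)) ℂ → Prop} (hJ : Exc J)
    {n : ℕ} {S T : Set (MvPolynomial (Fin (n + 1)) ℂ)} {L : Type} [Field L] [Algebra ℂ L]
    {y : Fin (n + 1) → L} (hc : Component (J n S T) y) {G : MvPolynomial (Fin (n + 1)) ℂ}
    (hG : IsForm G) (hGy : aeval y G ≠ 0) (h : J n (Eqs y) T G) : False := by
  obtain ⟨hc1, H, hH, hHy, hc2⟩ := hc
  have h1 := hc1 (G * H) (qf_mul hG hH) (hJ.restr n S T L y G H hG hH hc2 h)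
  rw [map_mul] at h1
  exact (mul_ne_zero hGy hHy) h1

theorem t_qforw : Qforw where
  imp := by
    intro P hP n T h S L _ _ w y hw hgen hnot hlog hc
    obtain ⟨G, hG, hGy, hPG⟩ := h L w y hw hgen hnot hlog
    exact qf_con hP hc hG hGy hPG
  eq := by
    intro hSp P hP n T hT h S hS G hG
    constructor
    · refine qf_deg (I := P) (J := fun _ S T G => OnSpecialQ S T G) hP hSp ?_ G hG
      intro e G hG he hPG
      by_contra hn
      obtain ⟨L, iF, iA, w, y, hw, hgen, hGy, hnot, hSy, hc⟩ :=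
        qf_comp (J := fun _ S T G => OnSpecialQ S T G) hSp hS hT hG he hn
      have h1 : P n (Eqs y) T G := hP.mono n S (Eqs y) T
        (fun L' _ _ x hx => qf_eqs hS hSy L' x hx) G hPG
      refine qf_con (J := fun _ S T G => OnSpecialQ S T G) hSp hc ⟨e, hG⟩ hGy ?_
      intro L' _ _ w' y' hw' hsub hnot'
      by_cases h0 : aeval y' G = 0
      · exact Or.inr h0
      left
      refine (h L' w' y' hw' ⟨hsub.ne, hsub.gen, hsub.dim⟩ hnot').2 ⟨G, ⟨e, hG⟩, h0, ?_⟩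
      exact hP.mono n (Eqs y) (Eqs y') T (fun L'' _ _ x hx => qf_eqs (qf_eqsForm y)
        (fun p hp => hsub.mem ⟨p, hp⟩) L'' x hx) G h1
    · refine qf_deg (I := fun _ S T G => OnSpecialQ S T G) (J := P) hSp hP ?_ G hG
      intro e G hG he hSG
      by_contra hn
      obtain ⟨L, iF, iA, w, y, hw, hgen, hGy, hnot, hSy, hc⟩ := qf_comp hP hS hT hG he hn
      have h1 : LogGeneral T L w y := by
        rcases hSG L w y hw ⟨hgen.ne, fun p => hSy p.1 p.2, hgen.gen, hgen.dim⟩ hnot with h2 | h2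
        · exact h2
        · exact absurd h2 hGy
      obtain ⟨G', hG', hG'y, hPG'⟩ := (h L w y hw hgen hnot).1 h1
      exact qf_con hP hc hG' hG'y hPG'

end Pool.Agent.N254.SQ
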