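import Pool.Agent.N254.SQ.StmB
import Pool.Agent.N254.SQ.Key
import Pool.Agent.N254.SQ.Num
import Pool.Agent.N254.SQ.Comp

/-!
Project SQ, QIMP (helper136): if no component of the exceptional sets of the smooth hypersurfaces is of
log general type, then the exceptional sets of the varieties of log general type are proper subsets.
-/

set_option autoImplicit false

namespace Pool.Agent.N254.SQ

open MvPolynomial Metric FF
open Pool.Agent.W602.GT (SubVar GeneralType LogGeneralType coords)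

/-- there are no varieties of positive dimension in `P^0` -/
theorem qi_no {L : Type} [Field L] [Algebra ℂ L] {w : ℕ} {y : Fin (0 + 1) → L} (hw : 1 ≤ w)
    (hy : Gen L w y) : False := by
  have h0 : y 0 ≠ 0 := by
    intro h
    apply hy.ne
    funext j
    rw [show j = 0 from Fin.ext (by omega)]
    exact h
  have h1 : coords ℂ y = ⊥ := by
    rw [eq_bot_iff]
    apply IntermediateField.adjoin_le_iff.2
    rintro _ ⟨i, j, hj, rfl⟩
    rw [show i = 0 from Fin.ext (by omega), show j = 0 from Fin.ext (by omega), div_self h0]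
    exact one_mem _
  have h2 : (⊥ : IntermediateField ℂ L) = ⊤ := by rw [← h1, hy.gen]
  have h3 : Algebra.IsAlgebraic ℂ L := by
    refine ⟨fun z => ?_⟩
    have h4 : z ∈ (⊥ : IntermediateField ℂ L) := by
      rw [h2]
      exact IntermediateField.mem_top
    obtain ⟨c, rfl⟩ := IntermediateField.mem_bot.1 h4
    exact isAlgebraic_algebraMap c
  have h5 := hy.dim
  rw [trdeg_eq_zero_iff.2 h3] at h5
  have h6 : w = 0 := by exact_mod_cast h5.symm
  omega

/-- finitely many equations with the same zeros -/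
theorem qi_same {n : ℕ} (S : Set (MvPolynomial (Fin (n + 1)) ℂ)) (hS : ∀ p ∈ S, IsForm p) :
    ∃ (T : Set (MvPolynomial (Fin (n + 1)) ℂ)) (d : ℕ),
      (∀ (Ω : Type) [Field Ω] [Algebra ℂ Ω] (x : Fin (n + 1) → Ω),
        (∀ p ∈ T, aeval x p = 0) ↔ ∀ p ∈ S, aeval x p = 0) ∧ 3 ≤ d ∧
      ∀ p ∈ T, ∃ e ≤ d, p.IsHomogeneous e := by
  obtain ⟨T, hT, hTS⟩ := reduce S
  have hT2 : ∀ p ∈ T, ∃ e, p.IsHomogeneous e := fun p hp => hS p (hT hp)
  obtain ⟨d, hd3, hd⟩ : ∃ d, 3 ≤ d ∧ ∀ p ∈ T, ∃ e ≤ d, p.IsHomogeneous e := by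
    choose! e he using hT2
    refine ⟨max 3 (T.sup e), le_max_left _ _, fun p hp => ⟨e p, ?_, he p hp⟩⟩
    exact le_trans (Finset.le_sup (f := e) hp) (le_max_right _ _)
  refine ⟨T, d, ?_, hd3, fun p hp => hd p hp⟩
  intro Ω _ _ x
  refine ⟨fun hx p hp => ?_, fun hx p hp => hx p (hT hp)⟩
  have h1 := hTS Ω (algebraMap ℂ Ω) x (fun p hp => by
    rw [eval_map]
    exact hx p hp) p hp
  rw [eval_map] at h1
  exact h1

theorem qi_unit {N : ℕ} {A : MvPolynomial (Fin (N + 1)) ℂ} {L : Type} [Field L] [Algebra ℂ L]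
    {w : ℕ} {y : Fin (N + 1) → L}
    (hy : SubVar (fun p : ({A} : Set _) => (p : MvPolynomial (Fin (N + 1)) ℂ)) L w y) :
      SubVar (fun _ : Unit => A) L w y :=
  ⟨hy.ne, fun _ => hy.mem ⟨A, rfl⟩, hy.gen, hy.dim⟩

/-- QIMP -/
theorem t_qimp : Qimp_stm := by
  intro hCent D₁ hGeo E hE P hP C hC hFor n T hT L _ _ w y hw hy hyT hlog
  by_contra hcon
  push Not at hcon
  have hn : 1 ≤ n := by
    rcases Nat.eq_zero_or_pos n with h0 | h0
    · subst h0
      exact (qi_no hw hy).elim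
    · exact h0
  obtain ⟨S₀, d, hSame, hd3, hd⟩ := qi_same (Eqs y) (fun p hp => hp.1)
  obtain ⟨N, m, hm, hN⟩ := t_num n d hn hd3
  obtain ⟨D, hD, hD2⟩ := hE.exists_gt (D₁ N)
  obtain ⟨Q, hQ, hsm0, hg, hga⟩ := hGeo n d hn hd3 N m hm hN D hD2.le S₀ hd
  have hsm : SmoothForm (powerForm D Q) := by
    intro y hy
    obtain ⟨j, hj⟩ := hsm0 ℂ (RingHom.id ℂ) y hy
    rw [map_id] at hj
    exact ⟨j, hj⟩
  change Good n N d m S₀ (powerForm D Q) at hg
  change GoodAlg n N m S₀ (powerForm D Q) at hga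
  obtain ⟨A, hA⟩ : ∃ A, A = powerForm D Q := ⟨_, rfl⟩
  have hFor' := hFor N D Q hD hD2.le hQ hsm
  rw [← hA] at hg hga hFor'
  have hd1 : 1 ≤ d := by omega
  obtain ⟨T', hT', hL⟩ := hC.lift n N d m hm hd1 T hT
  have hI := hP.idl N {A} T'
  have hIA : P N {A} T' A := hP.van N {A} T' A hg.homA (fun L _ _ x hx => hx A rfl)
  have hvan : ∀ G, Fm G → P N {A} T' G → aeval (ver m y) G = 0 := by
    intro G hG hIG
    have h1 : P n S₀ T (pull m G) := (hP.transfer n N d m S₀ A hg hga T T' hL G hG).1 hIG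
    have h2 : P n (Eqs y) T (pull m G) :=
      hP.mono n S₀ (Eqs y) T (fun Ω _ _ x hx => (hSame Ω x).2 hx) _ h1
    by_contra h3
    rw [← aeval_pull] at h3
    obtain ⟨e, he⟩ := hG
    exact hcon (pull m G) ⟨d * e, pull_hom hm he⟩ h3 h2
  have hysub : SubVar (fun p : S₀ => (p : MvPolynomial (Fin (n + 1)) ℂ)) L w y :=
    ⟨hy.ne, fun p => (hSame L y).2 (fun q hq => hq.2) p p.2, hy.gen, hy.dim⟩
  have hN1 : NotIn T' (ver m y) := by
    have h1 := (hCent.notIn n N d m hd1 T T' hL L y 1 one_ne_zero).2 hyT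
    rwa [one_smul] at h1
  have hL1 : LogGeneral T' L w (ver m y) := by
    have h1 : (fun P : Place ℂ L => ¬ ValueNotIn T' (ver m y) P) = fun P => ¬ ValueNotIn T y P := by
      funext P
      have h2 := hCent.value n N d m hm hd1 T T' hL L y 1 hy.ne one_ne_zero P
      rw [one_smul] at h2
      rw [h2]
    unfold LogGeneral
    rw [h1]
    exact hlog
  rcases t_comp N (P N {A} T') hI L w (ver m y) (key_gen hg hysub) hvan with ⟨H, hH, hH0, hHI⟩ |
    ⟨L', iF, iA, w', y', hgen, hw', hI', hcl, ⟨G, hG, hG0, hG1⟩, hcomp⟩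
  · exact hFor' T' hT' L w (ver m y) hw (qi_unit (sub_ver hg hysub)) hN1 hL1 ⟨hvan, H, hH, hH0, hHI⟩
  · have hsub := key_sub hgen (hI' A hg.homA hIA)
    have hco : Component (P N {A} T') y' := ⟨hI', hcomp⟩
    rcases hg.special L' w' y' hw' hsub with h | ⟨x, c, hx, hc, hxS, hyx⟩
    · have hN2 : NotIn T' y' := by
        obtain ⟨H, hH, hH0⟩ := hN1
        exact ⟨H, hH, fun h0 => hH0 (hcl H (hC.form N T' hT' H hH) h0)⟩
      exact hFor' T' hT' L' w' y' hw' (qi_unit hsub) hN2 (hCent.general N T' L' w' y' h) hco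
    · apply hG1
      rw [hyx, aeval_zero_of hG hc, ← aeval_pull]
      obtain ⟨e, he⟩ := hG
      exact (hSame L' x).1 hxS (pull m G)
        ⟨⟨d * e, pull_hom hm he⟩, by rw [aeval_pull]; exact hG0⟩

end Pool.Agent.N254.SQ
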