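import Pool.Agent.N254.SQ.StmB

/-!
Project SQ, part QSPEC: exceptional sets of subvarieties not of log general type (helper945).
-/

set_option autoImplicit false

namespace Pool.Agent.N254.SQ

open MvPolynomial Metric FF
open Pool.Agent.W602.GT (SubVar GeneralType LogGeneralType coords)

theorem qs_idl (n : ℕ) (S T : Set (MvPolynomial (Fin (n + 1)) ℂ)) : Idl (OnSpecialQ S T) where
  zero := fun L _ _ w y _ _ _ => Or.inr (map_zero _)
  add := fun e G G' _ _ h h' L _ _ w y hw hy hT => by
    rcases h L w y hw hy hT with h1 | h1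
    · exact Or.inl h1
    rcases h' L w y hw hy hT with h2 | h2
    · exact Or.inl h2
    exact Or.inr (by rw [map_add, h1, h2, add_zero])
  mul := fun G F _ _ h L _ _ w y hw hy hT => by
    rcases h L w y hw hy hT with h1 | h1
    · exact Or.inl h1
    exact Or.inr (by rw [map_mul, h1, zero_mul])
  rad := fun G r _ h L _ _ w y hw hy hT => by
    rcases h L w y hw hy hT with h1 | h1
    · exact Or.inl h1
    rw [map_pow] at h1
    refine Or.inr ?_
    by_contra h2
    exact pow_ne_zero r h2 h1

theorem qs_restr (n : ℕ) (S T : Set (MvPolynomial (Fin (n + 1)) ℂ)) (L : Type) [Field L]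
    [Algebra ℂ L] (y : Fin (n + 1) → L) (G H : MvPolynomial (Fin (n + 1)) ℂ)
    (hF : ∀ F, IsForm F → aeval y F = 0 → OnSpecialQ S T (F * H)) (hG : OnSpecialQ (Eqs y) T G) :
    OnSpecialQ S T (G * H) := by
  intro L' _ _ w' y' hw' hy' hT'
  by_cases hgt : LogGeneral T L' w' y'
  · exact Or.inl hgt
  right
  rw [map_mul]
  by_cases hH0 : aeval y' H = 0
  · rw [hH0, mul_zero]
  have hG' : aeval y' G = 0 := by
    refine (hG L' w' y' hw' ⟨hy'.ne, fun p => ?_, hy'.gen, hy'.dim⟩ hT').resolve_left hgt
    have h1 := (hF p.1 p.2.1 p.2.2 L' w' y' hw' hy' hT').resolve_left hgt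
    rw [map_mul, mul_eq_zero] at h1
    exact h1.resolve_right hH0
  rw [hG', zero_mul]

/-- there are no subvarieties of positive dimension of a point -/
theorem qs_point {n : ℕ} {L : Type} [Field L] [Algebra ℂ L] {y : Fin (n + 1) → L} (hy : Gen L 0 y)
    {L' : Type} [Field L'] [Algebra ℂ L'] {w : ℕ} {y' : Fin (n + 1) → L'} (hw : 1 ≤ w)
    (hy' : SubVar (fun p : Eqs y => (p : MvPolynomial (Fin (n + 1)) ℂ)) L' w y') : False := by
  have h1 := hy.dim
  rw [Nat.cast_zero, trdeg_eq_zero_iff] at h1
  have hsurj : Function.Surjective (algebraMap ℂ L) :=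
    (IsAlgClosed.algebraMap_bijective_of_isIntegral (k := ℂ) (K := L)).2
  choose c hc using fun j => hsurj (y j)
  have hc0 : ∃ a, c a ≠ 0 := by
    by_contra hcon
    push Not at hcon
    apply hy.ne
    funext j
    rw [← hc j, hcon j, Pi.zero_apply, map_zero]
  obtain ⟨a, ha⟩ := hc0
  have hform : ∀ i j, (C (c i) * X j - C (c j) * X i : MvPolynomial (Fin (n + 1)) ℂ) ∈ Eqs y := by
    intro i j
    refine ⟨⟨1, ?_⟩, ?_⟩
    · have h2 : ∀ i j, (C (c i) * X j : MvPolynomial (Fin (n + 1)) ℂ).IsHomogeneous 1 := by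
        intro i j
        have := (isHomogeneous_C (Fin (n + 1)) (c i)).mul (isHomogeneous_X ℂ j)
        rwa [zero_add] at this
      exact (h2 i j).sub (h2 j i)
    · rw [map_sub, map_mul, map_mul, aeval_X, aeval_X, aeval_C, aeval_C, hc, hc]
      ring
  have hrel : ∀ i j, algebraMap ℂ L' (c i) * y' j = algebraMap ℂ L' (c j) * y' i := by
    intro i j
    have h2 : aeval y' (C (c i) * X j - C (c j) * X i : MvPolynomial (Fin (n + 1)) ℂ) = 0 :=
      hy'.mem ⟨_, hform i j⟩
    rw [map_sub, map_mul, map_mul, aeval_X, aeval_X, aeval_C, aeval_C, sub_eq_zero] at h2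
    exact h2
  have hinj : Function.Injective (algebraMap ℂ L') := (algebraMap ℂ L').injective
  have hbot : coords ℂ y' ≤ ⊥ := by
    unfold coords
    rw [IntermediateField.adjoin_le_iff]
    rintro z ⟨i, j, hj, rfl⟩
    have hcj : algebraMap ℂ L' (c j) ≠ 0 := by
      intro h
      have h2 := hrel a j
      rw [h, zero_mul] at h2
      rcases mul_eq_zero.1 h2 with h3 | h3
      · exact ha (hinj (by rw [h3, map_zero]))
      · exact hj h3
    refine IntermediateField.mem_bot.2 ⟨c i / c j, ?_⟩
    rw [map_div₀, div_eq_div_iff hcj hj, hrel i j, mul_comm]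
  rw [hy'.gen] at hbot
  have hdim := hy'.dim
  have hz : Algebra.trdeg ℂ L' = 0 := by
    rw [trdeg_eq_zero_iff]
    constructor
    intro x
    have hx : x ∈ (⊥ : IntermediateField ℂ L') := hbot IntermediateField.mem_top
    obtain ⟨z, rfl⟩ := IntermediateField.mem_bot.1 hx
    exact isAlgebraic_algebraMap z
  rw [hz] at hdim
  have h0 : w = 0 := by
    have h3 : ((0 : ℕ) : Cardinal) = (w : Cardinal) := by
      rw [Nat.cast_zero]
      exact hdim
    exact (Nat.cast_injective h3).symm
  omega

theorem qs_log {n N d : ℕ} {m : Fin (N + 1) → Fin (n + 1) → ℕ} (hC : Cent)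
    {S : Set (MvPolynomial (Fin (n + 1)) ℂ)} {A : MvPolynomial (Fin (N + 1)) ℂ}
    (hg : Good n N d m S A) {T : Set (MvPolynomial (Fin (n + 1)) ℂ)}
    {T' : Set (MvPolynomial (Fin (N + 1)) ℂ)} (hT : Lifts m d T T') {L : Type} [Field L]
    [Algebra ℂ L] {w : ℕ} {y : Fin (n + 1) → L} (hy : y ≠ 0) {c : L} (hc : c ≠ 0) :
    LogGeneral T' L w (c • ver m y) ↔ LogGeneral T L w y := by
  unfold LogGeneral
  have h1 : (fun P => ¬ ValueNotIn T' (c • ver m y) P) = fun P : Place ℂ L => ¬ ValueNotIn T y P := by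
    funext P
    exact propext (not_congr (hC.value n N d m hg.mon hg.deg T T' hT L y c hy hc P))
  rw [h1]

/-- QSPEC -/
theorem t_qspec : Qspec_stm := by
  intro hC
  refine ⟨fun n S T => qs_idl n S T, ?_, ?_, ?_, ?_, ?_, ?_, ?_⟩
  · intro n S T G _ h L _ _ w y hw hy hT
    exact Or.inr (h L y fun p hp => hy.mem ⟨p, hp⟩)
  · intro n S T L _ _ y G H _ _ hF hG
    exact qs_restr n S T L y G H hF hG
  · intro n S S' T h G hP L _ _ w y hw hy hT
    exact hP L w y hw ⟨hy.ne, fun p => h L y (fun p' hp' => hy.mem ⟨p', hp'⟩) p.1 p.2, hy.gen,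
      hy.dim⟩ hT
  · intro n S T G _ h L _ _ w y hw hy hT
    by_cases hgt : LogGeneral T L w y
    · exact Or.inl hgt
    right
    obtain ⟨j, hj⟩ : ∃ j, y j ≠ 0 := by
      by_contra hcon
      push Not at hcon
      exact hy.ne (funext hcon)
    have h1 := (h j L w y hw hy hT).resolve_left hgt
    rw [map_mul, aeval_X] at h1
    exact (mul_eq_zero.1 h1).resolve_right hj
  · intro n S T H _ _ h L _ _ w y hw hy hT
    by_cases hgt : LogGeneral T L w y
    · exact Or.inl hgt
    right
    obtain ⟨F, hF, hF0⟩ := hT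
    have h1 := (h F hF L w y hw hy ⟨F, hF, hF0⟩).resolve_left hgt
    rw [map_mul] at h1
    exact (mul_eq_zero.1 h1).resolve_left hF0
  · intro n T L _ _ y hy L' _ _ w y' hw hy' _
    exact (qs_point hy hw hy').elim
  · intro n N d m S A hg _ T T' hL G hG
    constructor
    · intro h L _ _ w y hw hy hT
      have hT' : NotIn T' (ver m y) := by
        have h1 := (hC.notIn n N d m hg.deg T T' hL L y 1 one_ne_zero).2 hT
        rwa [one_smul] at h1
      rcases h L w (ver m y) hw (sub_ver hg hy) hT' with h1 | h1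
      · left
        have h2 := qs_log (w := w) hC hg hL hy.ne (one_ne_zero : (1 : L) ≠ 0)
        rw [one_smul] at h2
        exact h2.1 h1
      · right
        rw [aeval_pull]
        exact h1
    · intro h L _ _ w y hw hy hT
      rcases hg.special L w y hw hy with h1 | ⟨x, c, hx, hc, hxS, hyx⟩
      · exact Or.inl (hC.general N T' L w y h1)
      · have hTx : NotIn T x := by
          rw [hyx] at hT
          exact (hC.notIn n N d m hg.deg T T' hL L x c hc).1 hT
        rcases h L w x hw ⟨hx, fun p => hxS _ p.2, by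
          rw [← coords_ver hg.mon hg.deg x hx c hc, ← hyx, hy.gen], hy.dim⟩ hTx with h1 | h1
        · left
          rw [hyx]
          exact (qs_log hC hg hL hx hc).2 h1
        · right
          rw [aeval_pull] at h1
          rw [hyx, aeval_zero_of hG hc]
          exact h1

end Pool.Agent.N254.SQ
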