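import Pool.Agent.N254.SQ.StmA
import Pool.Agent.N254.SQ.StmS
import Pool.Agent.N254.SQ.LocDefsQ

/-!
Project SQ, ninth part: quasi-projective varieties. Statements of the leaves.
-/

set_option autoImplicit false

namespace Pool.Agent.N254.SQ

open MvPolynomial Metric FF
open Pool.Agent.W602.GT (SubVar GeneralType LogGeneralType coords)

/-- the forms in `T'` restrict to the `d`-th powers of the forms in `T` under the Veronese map -/
structure Lifts {n N : ℕ} (m : Fin (N + 1) → Fin (n + 1) → ℕ) (d : ℕ)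
    (T : Set (MvPolynomial (Fin (n + 1)) ℂ)) (T' : Set (MvPolynomial (Fin (N + 1)) ℂ)) : Prop where
  up : ∀ G ∈ T, ∃ G' ∈ T', ∃ e, G.IsHomogeneous e ∧ G'.IsHomogeneous e ∧ pull m G' = G ^ d
  down : ∀ G' ∈ T', ∃ G ∈ T, ∃ e, G.IsHomogeneous e ∧ G'.IsHomogeneous e ∧ pull m G' = G ^ d

/-- a type of exceptional sets of quasi-projective varieties `V(S) ∖ V(T)`: `P n S T G` says that `G`
vanishes on it -/
structure Exc (P : ∀ n : ℕ, Set (MvPolynomial (Fin (n + 1)) ℂ) →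
    Set (MvPolynomial (Fin (n + 1)) ℂ) → MvPolynomial (Fin (n + 1)) ℂ → Prop) : Prop where
  idl : ∀ (n : ℕ) (S T : Set (MvPolynomial (Fin (n + 1)) ℂ)), Idl (P n S T)
  van : ∀ (n : ℕ) (S T : Set (MvPolynomial (Fin (n + 1)) ℂ)) (G : MvPolynomial (Fin (n + 1)) ℂ),
    IsForm G → (∀ (L : Type) [Field L] [Algebra ℂ L] (x : Fin (n + 1) → L),
      (∀ p ∈ S, aeval x p = 0) → aeval x G = 0) → P n S T G
  restr : ∀ (n : ℕ) (S T : Set (MvPolynomial (Fin (n + 1)) ℂ)) (L : Type) [Field L] [Algebra ℂ L]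
    (y : Fin (n + 1) → L) (G H : MvPolynomial (Fin (n + 1)) ℂ), IsForm G → IsForm H →
    (∀ F, IsForm F → aeval y F = 0 → P n S T (F * H)) → P n (Eqs y) T G → P n S T (G * H)
  mono : ∀ (n : ℕ) (S S' T : Set (MvPolynomial (Fin (n + 1)) ℂ)),
    (∀ (L : Type) [Field L] [Algebra ℂ L] (x : Fin (n + 1) → L),
      (∀ p ∈ S', aeval x p = 0) → ∀ p ∈ S, aeval x p = 0) →
    ∀ G, P n S T G → P n S' T G
  coord : ∀ (n : ℕ) (S T : Set (MvPolynomial (Fin (n + 1)) ℂ)) (G : MvPolynomial (Fin (n + 1)) ℂ),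
    IsForm G → (∀ j, P n S T (G * X j)) → P n S T G
  away : ∀ (n : ℕ) (S T : Set (MvPolynomial (Fin (n + 1)) ℂ)) (H : MvPolynomial (Fin (n + 1)) ℂ),
    (∀ F ∈ T, IsForm F) → IsForm H → (∀ F ∈ T, P n S T (F * H)) → P n S T H
  point : ∀ (n : ℕ) (T : Set (MvPolynomial (Fin (n + 1)) ℂ)) (L : Type) [Field L] [Algebra ℂ L]
    (y : Fin (n + 1) → L), Gen L 0 y → P n (Eqs y) T 1
  transfer : ∀ (n N d : ℕ) (m : Fin (N + 1) → Fin (n + 1) → ℕ)
    (S : Set (MvPolynomial (Fin (n + 1)) ℂ)) (A : MvPolynomial (Fin (N + 1)) ℂ),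
    Good n N d m S A → GoodAlg n N m S A → ∀ (T : Set (MvPolynomial (Fin (n + 1)) ℂ))
      (T' : Set (MvPolynomial (Fin (N + 1)) ℂ)), Lifts m d T T' →
      ∀ G, IsForm G → (P N {A} T' G ↔ P n S T (pull m G))

/-- CENT: values at places and logarithmic general type -/
structure Cent : Prop where
  value : ∀ (n N d : ℕ) (m : Fin (N + 1) → Fin (n + 1) → ℕ), Mon n N d m → 1 ≤ d →
    ∀ (T : Set (MvPolynomial (Fin (n + 1)) ℂ)) (T' : Set (MvPolynomial (Fin (N + 1)) ℂ)),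
      Lifts m d T T' → ∀ (L : Type) [Field L] [Algebra ℂ L] (y : Fin (n + 1) → L) (c : L), y ≠ 0 →
      c ≠ 0 → ∀ P : Place ℂ L, ValueNotIn T' (c • ver m y) P ↔ ValueNotIn T y P
  notIn : ∀ (n N d : ℕ) (m : Fin (N + 1) → Fin (n + 1) → ℕ), 1 ≤ d →
    ∀ (T : Set (MvPolynomial (Fin (n + 1)) ℂ)) (T' : Set (MvPolynomial (Fin (N + 1)) ℂ)),
      Lifts m d T T' → ∀ (L : Type) [Field L] [Algebra ℂ L] (y : Fin (n + 1) → L) (c : L),
      c ≠ 0 → (NotIn T' (c • ver m y) ↔ NotIn T y)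
  general : ∀ (n : ℕ) (T : Set (MvPolynomial (Fin (n + 1)) ℂ)) (L : Type) [Field L] [Algebra ℂ L]
    (w : ℕ) (y : Fin (n + 1) → L), GeneralType ℂ L w → LogGeneral T L w y

/-- QSPEC -/
def Qspec_stm : Prop := Cent → Exc (fun _ S T G => OnSpecialQ S T G)

/-- QCURV -/
def Qcurv_stm : Prop := Exc (fun _ S T G => OnCurvesQ S T G)

/-- QDISC -/
def Qdisc_stm : Prop := Exc (fun _ S T G => OnDiscsQ S T G)

/-- QBND -/
def Qbnd_stm : Prop := Cent → Hform → Exc (fun _ S T G => OnBoundedQ S T G)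

/-- QDEG -/
def Qdeg_stm : Prop := Cent → Hform → Exc (fun _ S T G => OnDegreesQ S T G)

/-- a class of sets of forms, stable under the lifts to the space of the Veronese map -/
structure Cls (C : ∀ n : ℕ, Set (Set (MvPolynomial (Fin (n + 1)) ℂ))) : Prop where
  form : ∀ n, ∀ T ∈ C n, ∀ H ∈ T, IsForm H
  lift : ∀ (n N d : ℕ) (m : Fin (N + 1) → Fin (n + 1) → ℕ), Mon n N d m → 1 ≤ d →
    ∀ T ∈ C n, ∃ T' ∈ C N, Lifts m d T T'

/-- CLS: all sets of forms, finite sets, one form -/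
def Cls_stm : Prop :=
  Cls (fun _ => {T | ∀ H ∈ T, IsForm H}) ∧ Cls (fun _ => {T | T.Finite ∧ ∀ H ∈ T, IsForm H}) ∧
    Cls (fun _ => {T | ∃ H, IsForm H ∧ T = {H}})

/-- the property of all smooth hypersurfaces `∑ t, Q_t(y) (y_0 + ⋯ + t^N y_N)^D = 0`, `D` in `E` -/
def ForY (D₁ : ℕ → ℕ) (E : Set ℕ) (W : ∀ N : ℕ, MvPolynomial (Fin (N + 1)) ℂ → Prop) : Prop :=
  ∀ (N D : ℕ) (Q : Fin (N * (2 * N + 1)) → MvPolynomial (Fin (N + 1)) ℂ), D ∈ E → D₁ N ≤ D →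
    (∀ t, (Q t).IsHomogeneous 2) → SmoothForm (powerForm D Q) → W N (powerForm D Q)

/-- QIMP: if no component of the exceptional sets `P` of the `Y ∖ V(T')` is of log general type, then `P`
is a proper subset for all varieties of log general type -/
def Qimp_stm : Prop :=
  Cent → ∀ D₁ : ℕ → ℕ, GeoCurves D₁ → ∀ E : Set ℕ, E.Infinite →
    ∀ P : ∀ n : ℕ, Set (MvPolynomial (Fin (n + 1)) ℂ) → Set (MvPolynomial (Fin (n + 1)) ℂ) →
      MvPolynomial (Fin (n + 1)) ℂ → Prop, Exc P →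
    ∀ C : ∀ n : ℕ, Set (Set (MvPolynomial (Fin (n + 1)) ℂ)), Cls C →
    (ForY D₁ E fun N A => ∀ T ∈ C N, ∀ (L : Type) [Field L] [Algebra ℂ L] (w : ℕ)
      (y : Fin (N + 1) → L), 1 ≤ w → SubVar (fun _ : Unit => A) L w y → NotIn T y →
      LogGeneral T L w y → ¬ Component (P N {A} T) y) →
    ∀ (n : ℕ), ∀ T ∈ C n, ∀ (L : Type) [Field L] [Algebra ℂ L] (w : ℕ) (y : Fin (n + 1) → L),
      1 ≤ w → Gen L w y → NotIn T y → LogGeneral T L w y →
        ∃ G, IsForm G ∧ aeval y G ≠ 0 ∧ P n (Eqs y) T G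

/-- QEQ: if moreover the exceptional sets `P` and `OnSpecialQ` agree for all `Y ∖ V(T')`, then `P` is a
proper subset only for varieties of log general type -/
def Qeq_stm : Prop :=
  ∀ D₁ : ℕ → ℕ, GeoCurves D₁ → ∀ E : Set ℕ, E.Infinite →
    Exc (fun _ S T G => OnSpecialQ S T G) →
    ∀ P : ∀ n : ℕ, Set (MvPolynomial (Fin (n + 1)) ℂ) → Set (MvPolynomial (Fin (n + 1)) ℂ) →
      MvPolynomial (Fin (n + 1)) ℂ → Prop, Exc P →
    ∀ C : ∀ n : ℕ, Set (Set (MvPolynomial (Fin (n + 1)) ℂ)), Cls C →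
    (ForY D₁ E fun N A => ∀ T ∈ C N, ∀ G, IsForm G → P N {A} T G → OnSpecialQ {A} T G) →
    ∀ (n : ℕ), ∀ T ∈ C n, ∀ (L : Type) [Field L] [Algebra ℂ L] (w : ℕ) (y : Fin (n + 1) → L),
      1 ≤ w → Gen L w y → NotIn T y → (∃ G, IsForm G ∧ aeval y G ≠ 0 ∧ P n (Eqs y) T G) →
        LogGeneral T L w y

/-- QFORW: from all varieties to the exceptional sets of all quasi-projective sets -/
structure Qforw : Prop where
  imp : ∀ P : ∀ n : ℕ, Set (MvPolynomial (Fin (n + 1)) ℂ) → Set (MvPolynomial (Fin (n + 1)) ℂ) →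
      MvPolynomial (Fin (n + 1)) ℂ → Prop, Exc P →
    ∀ (n : ℕ) (T : Set (MvPolynomial (Fin (n + 1)) ℂ)),
    (∀ (L : Type) [Field L] [Algebra ℂ L] (w : ℕ) (y : Fin (n + 1) → L), 1 ≤ w → Gen L w y →
      NotIn T y → LogGeneral T L w y → ∃ G, IsForm G ∧ aeval y G ≠ 0 ∧ P n (Eqs y) T G) →
    ∀ (S : Set (MvPolynomial (Fin (n + 1)) ℂ)) (L : Type) [Field L] [Algebra ℂ L] (w : ℕ)
      (y : Fin (n + 1) → L), 1 ≤ w → Gen L w y → NotIn T y → LogGeneral T L w y →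
      ¬ Component (P n S T) y
  eq : Exc (fun _ S T G => OnSpecialQ S T G) →
    ∀ P : ∀ n : ℕ, Set (MvPolynomial (Fin (n + 1)) ℂ) → Set (MvPolynomial (Fin (n + 1)) ℂ) →
      MvPolynomial (Fin (n + 1)) ℂ → Prop, Exc P →
    ∀ (n : ℕ) (T : Set (MvPolynomial (Fin (n + 1)) ℂ)), (∀ H ∈ T, IsForm H) →
    (∀ (L : Type) [Field L] [Algebra ℂ L] (w : ℕ) (y : Fin (n + 1) → L), 1 ≤ w → Gen L w y →
      NotIn T y → (LogGeneral T L w y ↔ ∃ G, IsForm G ∧ aeval y G ≠ 0 ∧ P n (Eqs y) T G)) →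
    ∀ (S : Set (MvPolynomial (Fin (n + 1)) ℂ)), (∀ p ∈ S, IsForm p) →
    ∀ (G : MvPolynomial (Fin (n + 1)) ℂ), IsForm G → (P n S T G ↔ OnSpecialQ S T G)

end Pool.Agent.N254.SQ
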