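import Pool.Agent.N254.SQ.Locus2
import Pool.Agent.N254.SQ.LocDefs5
import Pool.Agent.W603.LV.Blk2

/-!
Project SQ, eighth part: algebraic curves. Statements of the leaves.
-/

set_option autoImplicit false

namespace Pool.Agent.N254.SQ

open MvPolynomial FF
open Pool.Agent.W603.LV (canDeg hgt tri)
open Pool.Agent.W603.PV (pht)
open Pool.Agent.W602.RG (HasValue)
open scoped LinearAlgebra.Projectivization

/-- HINEQ: the height inequality with large zeros outside of `S` -/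
def Hineq_stm : Prop :=
  ∀ (k : Type) [Field k] [IsAlgClosed k] [CharZero k] (E : Type) [Field E] [Algebra k E]
    [IsFF k E] (S : Finset (Place k E)) (m D : ℕ), 1 ≤ D → 2 * m ^ 2 ≤ D →
    ∀ f : Fin (m + 1) → E, (∀ i, f i ≠ 0) → ∑ i, f i = 0 →
      LinearIndependent k (fun l => f ((Fin.last m).succAbove l)) →
      (∀ P ∉ S, ∀ i j, P.ord (f j) < P.ord (f i) → (D : ℤ) ≤ P.ord (f i) - P.ord (f j)) →
      ∀ i j, hgt k (f i / f j) ≤ 2 * tri m * max (canDeg k E + S.card) 0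

/-- HBLK: the same for minimal vanishing sums -/
def Hblk_stm : Prop :=
  ∀ (k : Type) [Field k] [IsAlgClosed k] [CharZero k] (E : Type) [Field E] [Algebra k E]
    [IsFF k E] (S : Finset (Place k E)) (J : Type) [Fintype J] (s D : ℕ), Fintype.card J ≤ s →
    1 ≤ D → 2 * s ^ 2 ≤ D → ∀ g : J → E, (∀ j, g j ≠ 0) → ∑ j, g j = 0 →
      (∀ B : Finset J, B.Nonempty → B ≠ Finset.univ → ∑ j ∈ B, g j ≠ 0) →
      (∀ P ∉ S, ∀ i j, P.ord (g j) < P.ord (g i) → (D : ℤ) ≤ P.ord (g i) - P.ord (g j)) →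
      ∀ i j, hgt k (g i / g j) ≤ s * (2 * tri s * max (canDeg k E + S.card) 0)

/-- HFORM: heights and zeros of forms along a curve -/
structure Hform : Prop where
  zeros : ∀ (k : Type) [Field k] [IsAlgClosed k] [CharZero k] (E : Type) [Field E] [Algebra k E]
    [IsFF k E] (n e : ℕ) (y : Fin (n + 1) → E), y ≠ 0 → ∀ G : MvPolynomial (Fin (n + 1)) k,
      G.IsHomogeneous e → aeval y G ≠ 0 → ∃ S : Finset (Place k E), (S.card : ℤ) ≤ e * pht k y ∧
        ∀ P ∉ S, P.ord (aeval y G) = e * Pool.Agent.W603.PV.pord P y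
  ratio : ∀ (k : Type) [Field k] [IsAlgClosed k] [CharZero k] (E : Type) [Field E] [Algebra k E]
    [IsFF k E] (n e : ℕ) (y : Fin (n + 1) → E), y ≠ 0 → ∀ G₁ G₂ : MvPolynomial (Fin (n + 1)) k,
      G₁.IsHomogeneous e → G₂.IsHomogeneous e → aeval y G₁ ≠ 0 → aeval y G₂ ≠ 0 →
        hgt k (aeval y G₁ / aeval y G₂) ≤ e * pht k y
  top : ∀ (k : Type) [Field k] [IsAlgClosed k] [CharZero k] (E : Type) [Field E] [Algebra k E]
    [IsFF k E] (n : ℕ) (y : Fin (n + 1) → E), y ≠ 0 → ∀ p : Fin (n + 1) → ℕ, Function.Injective p →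
      (∀ i, aeval y (lin k n (p i)) ≠ 0) →
        pht k y ≤ ∑ i, hgt k (aeval y (lin k n (p i)) / aeval y (lin k n (p 0)))
  ver : ∀ (k : Type) [Field k] [IsAlgClosed k] [CharZero k] (E : Type) [Field E] [Algebra k E]
    [IsFF k E] (n N d : ℕ) (m : Fin (N + 1) → Fin (n + 1) → ℕ), Mon n N d m →
      ∀ (x : Fin (n + 1) → E) (c : E), x ≠ 0 → c ≠ 0 → pht k (c • ver m x) = d * pht k x

/-- ALG: the analogue of SIZE for algebraic curves -/
def Alg_stm : Prop :=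
  ∀ n e M : ℕ, ∃ D₁ : ℕ, ∀ D, D₁ ≤ D → ∀ (k : Type) [Field k] [IsAlgClosed k] [CharZero k]
    (E : Type) [Field E] [Algebra k E] [IsFF k E] (κ : Type) [Fintype κ], Fintype.card κ ≤ M →
    n + 1 ≤ Fintype.card κ → 2 ≤ Fintype.card κ →
    ∀ (G : κ → MvPolynomial (Fin (n + 1)) k) (p : κ → ℕ), Function.Injective p →
      (∀ t, (G t).IsHomogeneous e) → ∀ y : Fin (n + 1) → E, y ≠ 0 →
      ∑ t, aeval y (G t) * aeval y (lin k n (p t)) ^ D = 0 →
      (∀ B : Finset κ, B.Nonempty → B ≠ Finset.univ →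
        ∑ t ∈ B, aeval y (G t) * aeval y (lin k n (p t)) ^ D ≠ 0) →
      pht k y ≤ max (canDeg k E) 0

/-- the control of the algebraic curves in `A = 0` -/
def GoodAlg (n N : ℕ) (m : Fin (N + 1) → Fin (n + 1) → ℕ)
    (S : Set (MvPolynomial (Fin (n + 1)) ℂ)) (A : MvPolynomial (Fin (N + 1)) ℂ) : Prop :=
  ∀ (E : Type) [Field E] [Algebra ℂ E] [IsFF ℂ E] (y : Fin (N + 1) → E), y ≠ 0 → aeval y A = 0 →
    pht ℂ y ≤ max (canDeg ℂ E) 0 ∨
      ∃ (x : Fin (n + 1) → E) (c : E), x ≠ 0 ∧ c ≠ 0 ∧ (∀ p ∈ S, aeval x p = 0) ∧ y = c • ver m x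

/-- smooth hypersurfaces through all projective varieties, with control of the algebraic curves -/
def GeoCurves (D₁ : ℕ → ℕ) : Prop :=
    ∀ n d : ℕ, 1 ≤ n → 3 ≤ d → ∀ (N : ℕ) (m : Fin (N + 1) → Fin (n + 1) → ℕ),
      Mon n N d m → 2 * n < N → ∀ D, D₁ N ≤ D →
        ∀ S : Set (MvPolynomial (Fin (n + 1)) ℂ), (∀ p ∈ S, ∃ e ≤ d, p.IsHomogeneous e) →
        ∃ Q : Fin (N * (2 * N + 1)) → MvPolynomial (Fin (N + 1)) ℂ,
          (∀ t, (Q t).IsHomogeneous 2) ∧ Smooth (powerSum D Q) ∧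
          Good n N d m S (powerSum D Q) ∧ GoodAlg n N m S (powerSum D Q)

/-- GEOC -/
def GeoC_stm : Prop := Alg_stm → ∃ D₁ : ℕ → ℕ, GeoCurves D₁

/-- ALGIFF: transfer of the algebraic notions -/
structure AlgIff : Prop where
  algebraic : ∀ (n N d : ℕ) (m : Fin (N + 1) → Fin (n + 1) → ℕ)
    (S : Set (MvPolynomial (Fin (n + 1)) ℂ)) (A : MvPolynomial (Fin (N + 1)) ℂ),
    Good n N d m S A → GoodAlg n N m S A → ∀ G, IsForm G →
      (OnAlgebraic {A} G ↔ OnAlgebraic S (pull m G))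
  bounded : ∀ (n N d : ℕ) (m : Fin (N + 1) → Fin (n + 1) → ℕ)
    (S : Set (MvPolynomial (Fin (n + 1)) ℂ)) (A : MvPolynomial (Fin (N + 1)) ℂ),
    Good n N d m S A → GoodAlg n N m S A → ∀ G, IsForm G →
      (OnBounded {A} G ↔ OnBounded S (pull m G))

/-- PTD: transfer of the finiteness of pointed maps -/
def Ptd_stm : Prop :=
  ∀ (n N d : ℕ) (m : Fin (N + 1) → Fin (n + 1) → ℕ)
    (S : Set (MvPolynomial (Fin (n + 1)) ℂ)) (A : MvPolynomial (Fin (N + 1)) ℂ),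
    Good n N d m S A → GoodAlg n N m S A → (PointedFinite {A} ↔ PointedFinite S)

/-- BEND: infinitely many pointed maps of bounded degree give a rational curve -/
def Bend_stm : Prop :=
  ∀ (n : ℕ) (S : Set (MvPolynomial (Fin (n + 1)) ℂ)), (∀ p ∈ S, IsForm p) →
    ∀ (E : Type) [Field E] [Algebra ℂ E] [IsFF ℂ E] (c : Place ℂ E) (x : Fin (n + 1) → ℂ) (B : ℤ),
      x ≠ 0 → {φ : ℙ E (Fin (n + 1) → E) | ∃ (f : Fin (n + 1) → E) (hf : f ≠ 0),
        (∀ p ∈ S, aeval f p = 0) ∧ HasValue c x f ∧ pht ℂ f ≤ B ∧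
        φ = Projectivization.mk E f hf}.Infinite →
      ∃ y : Fin (n + 1) → RatFunc ℂ, y ≠ 0 ∧ (∀ p ∈ S, aeval y p = 0) ∧
        ¬ ∃ (c : RatFunc ℂ) (z : Fin (n + 1) → ℂ), y = fun j => c * algebraMap ℂ (RatFunc ℂ) (z j)

end Pool.Agent.N254.SQ
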