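import Pool.Agent.N254.SQ.StmZ
import Pool.Agent.N254.SQ.BlvP
import Pool.Agent.N254.SQ.BlvA

/-!
Project SQ (helper254), tenth part, ZBLV (helper169): integral points of quasi-projective schemes,
reduction to open subschemes of smooth hypersurfaces.
-/

set_option autoImplicit false

namespace Pool.Agent.N254.SQ

open MvPolynomial NumberField IsDedekindDomain
open scoped LinearAlgebra.Projectivization

/-! ### closed sets over all fields -/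

/-- a closed set of `P^n` over `K`, by its points over all extensions -/
abbrev ZbPred (K : Type) [Field K] (n : ℕ) : Type 1 :=
  ∀ (Ω : Type) [Field Ω], (K →+* Ω) → (Fin (n + 1) → Ω) → Prop

/-- Q1 for the closed sets `PF`, `PG` and the forms `T` -/
def ZbBLV {K : Type} [Field K] {κ : Type} {n : ℕ} (σ : K →+* ℂ) (PF PG : ZbPred K n)
    (T : κ → MvPolynomial (Fin (n + 1)) (𝓞 K)) : Prop :=
  (∀ f : ℂ → Fin (n + 1) → ℂ, Differentiable ℂ f → (∀ z, f z ≠ 0) →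
    (∀ z, PF ℂ σ (f z)) →
    (∀ z, ∃ k, eval₂ (σ.comp (algebraMap (𝓞 K) K)) (f z) (T k) ≠ 0) →
    (∃ z w, ∀ c : ℂ, f w ≠ c • f z) →
    ∀ z, PG ℂ σ (f z)) ↔
  ∀ (L : Type) [Field L] [NumberField L] [Algebra K L] (S : Set (HeightOneSpectrum (𝓞 L))),
    S.Finite → ({P : ℙ L (Fin (n + 1) → L) | PF L (algebraMap K L) P.rep ∧
      (∃ k, eval₂ ((algebraMap K L).comp (algebraMap (𝓞 K) K)) P.rep (T k) ≠ 0) ∧
      ∀ v ∉ S, RedNotIn T P.rep v} \ {P | PG L (algebraMap K L) P.rep}).Finite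

/-- the zeros of the forms `F` over `𝓞 K` -/
def zbZ {K : Type} [Field K] {ι : Type} {n : ℕ} (F : ι → MvPolynomial (Fin (n + 1)) (𝓞 K)) :
    ZbPred K n := fun _ _ τ x => ∀ i, eval₂ (τ.comp (algebraMap (𝓞 K) K)) x (F i) = 0

theorem zb_quasi {K : Type} [Field K] {ι κ τ : Type} {n : ℕ} (σ : K →+* ℂ)
    (F : ι → MvPolynomial (Fin (n + 1)) (𝓞 K)) (T : κ → MvPolynomial (Fin (n + 1)) (𝓞 K))
    (G : τ → MvPolynomial (Fin (n + 1)) (𝓞 K)) :
    QuasiBLV σ F T G ↔ ZbBLV σ (zbZ F) (zbZ G) T := Iff.rfl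

/-- forms over `𝓞 K` at multiples of a point -/
theorem zb_scale {K Ω : Type} [Field K] [Field Ω] (τ : K →+* Ω) {n e : ℕ}
    {p : MvPolynomial (Fin (n + 1)) (𝓞 K)} (hp : p.IsHomogeneous e) (c : Ω)
    (x : Fin (n + 1) → Ω) :
    eval₂ (τ.comp (algebraMap (𝓞 K) K)) (c • x) p =
      c ^ e * eval₂ (τ.comp (algebraMap (𝓞 K) K)) x p := by
  rw [← eval₂_map, ← eval₂_map]
  exact eval₂_scale τ (hp.map _) c x

theorem zbZ_smul {K : Type} [Field K] {ι : Type} {n : ℕ}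
    {F : ι → MvPolynomial (Fin (n + 1)) (𝓞 K)} (hF : ∀ i, ∃ e, (F i).IsHomogeneous e)
    (Ω : Type) [Field Ω] (τ : K →+* Ω) (c : Ω) (x : Fin (n + 1) → Ω) (h : zbZ F Ω τ x) :
    zbZ F Ω τ (c • x) := by
  intro i
  obtain ⟨e, he⟩ := hF i
  rw [zb_scale τ he, h i, mul_zero]

/-! ### the main step -/

theorem zb_main {K : Type} [Field K] (σ : K →+* ℂ) {n N d : ℕ}
    {m : Fin (N + 1) → Fin (n + 1) → ℕ} (hm : Mon n N d m) (hd : 1 ≤ d) {κ : Type}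
    (PF PG : ZbPred K n) (PA P₁ P₂ : ZbPred K N)
    (T : κ → MvPolynomial (Fin (n + 1)) (𝓞 K)) (T' : κ → MvPolynomial (Fin (N + 1)) (𝓞 K))
    (sF : ∀ (Ω : Type) [Field Ω] (τ : K →+* Ω) (c : Ω) (x : Fin (n + 1) → Ω),
      PF Ω τ x → PF Ω τ (c • x))
    (sG : ∀ (Ω : Type) [Field Ω] (τ : K →+* Ω) (c : Ω) (x : Fin (n + 1) → Ω),
      PG Ω τ x → PG Ω τ (c • x))
    (sA : ∀ (Ω : Type) [Field Ω] (τ : K →+* Ω) (c : Ω) (x : Fin (N + 1) → Ω),
      PA Ω τ x → PA Ω τ (c • x))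
    (s₂ : ∀ (Ω : Type) [Field Ω] (τ : K →+* Ω) (c : Ω) (x : Fin (N + 1) → Ω),
      P₂ Ω τ x → P₂ Ω τ (c • x))
    (hFA : ∀ (Ω : Type) [Field Ω] (τ : K →+* Ω) (x : Fin (n + 1) → Ω),
      PF Ω τ x → PA Ω τ (ver m x))
    (v₁ : ∀ (Ω : Type) [Field Ω] (τ : K →+* Ω) (x : Fin (n + 1) → Ω),
      PF Ω τ x → P₁ Ω τ (ver m x))
    (w₁ : ∀ (Ω : Type) [Field Ω] (τ : K →+* Ω) (y : Fin (N + 1) → Ω), y ≠ 0 → P₁ Ω τ y →
      ∃ (x : Fin (n + 1) → Ω) (c : Ω), x ≠ 0 ∧ c ≠ 0 ∧ y = c • ver m x ∧ PF Ω τ x)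
    (v₂ : ∀ (Ω : Type) [Field Ω] (τ : K →+* Ω) (x : Fin (n + 1) → Ω),
      PF Ω τ x → PG Ω τ x → P₂ Ω τ (ver m x))
    (w₂ : ∀ (Ω : Type) [Field Ω] (τ : K →+* Ω) (y : Fin (N + 1) → Ω), y ≠ 0 → P₂ Ω τ y →
      ∃ (x : Fin (n + 1) → Ω) (c : Ω), x ≠ 0 ∧ c ≠ 0 ∧ y = c • ver m x ∧ PG Ω τ x)
    (hlift : ∀ f : ℂ → Fin (N + 1) → ℂ, Differentiable ℂ f → (∀ z, f z ≠ 0) →
      (∀ z, PA ℂ σ (f z)) → (¬ ∀ z w, ∃ c : ℂ, f w = c • f z) →
      ∃ F₁ : ℂ → Fin (n + 1) → ℂ, Differentiable ℂ F₁ ∧ (∀ z, F₁ z ≠ 0) ∧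
        (∀ z, PF ℂ σ (F₁ z)) ∧ ∀ z, f z = ver m (F₁ z))
    (hT : ∀ (Ω : Type) [Field Ω] (τ : K →+* Ω) (x : Fin (n + 1) → Ω) (c : Ω), c ≠ 0 →
      ((∃ k, eval₂ (τ.comp (algebraMap (𝓞 K) K)) (c • ver m x) (T' k) ≠ 0) ↔
        ∃ k, eval₂ (τ.comp (algebraMap (𝓞 K) K)) x (T k) ≠ 0))
    (hR : ∀ (L : Type) [Field L] [NumberField L] [Algebra K L] (x : Fin (n + 1) → L) (c : L),
      x ≠ 0 → c ≠ 0 → ∀ v : HeightOneSpectrum (𝓞 L),
        RedNotIn T' (c • ver m x) v ↔ RedNotIn T x v)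
    (h1 : ZbBLV σ PA P₁ T') (h2 : ZbBLV σ PA P₂ T') : ZbBLV σ PF PG T := by
  have hT1 : ∀ (Ω : Type) [Field Ω] (τ : K →+* Ω) (x : Fin (n + 1) → Ω),
      (∃ k, eval₂ (τ.comp (algebraMap (𝓞 K) K)) (ver m x) (T' k) ≠ 0) ↔
        ∃ k, eval₂ (τ.comp (algebraMap (𝓞 K) K)) x (T k) ≠ 0 := by
    intro Ω _ τ x
    have := hT Ω τ x 1 one_ne_zero
    rwa [one_smul] at this
  -- from the image to the equations
  have back : ∀ (Ω : Type) [Field Ω] (τ : K →+* Ω) (x : Fin (n + 1) → Ω), x ≠ 0 →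
      P₂ Ω τ (ver m x) → PG Ω τ x := by
    intro Ω _ τ x hx hP
    obtain ⟨x', c, -, -, hxc, hG⟩ := w₂ Ω τ (ver m x) (ver_ne_zero hm hd hx) hP
    obtain ⟨c', hc'⟩ := ver_prop hm hd hx hxc
    rw [hc']
    exact sG Ω τ c' x' hG
  -- the exceptional set of `A = 0` is contained in the image of `V`
  have hY := h1.1 (by
    rintro f hf hf0 hfA - ⟨z₀, w₀, hnc⟩
    obtain ⟨F₁, -, hF0, hFS, hfF⟩ := hlift f hf hf0 hfA (fun h => by
      obtain ⟨c, hc⟩ := h z₀ w₀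
      exact hnc c hc)
    intro z
    rw [hfF z]
    exact v₁ ℂ σ (F₁ z) (hFS z))
  -- curves
  have hcurves : (∀ f : ℂ → Fin (n + 1) → ℂ, Differentiable ℂ f → (∀ z, f z ≠ 0) →
      (∀ z, PF ℂ σ (f z)) →
      (∀ z, ∃ k, eval₂ (σ.comp (algebraMap (𝓞 K) K)) (f z) (T k) ≠ 0) →
      (∃ z w, ∀ c : ℂ, f w ≠ c • f z) → ∀ z, PG ℂ σ (f z)) ↔
      (∀ f : ℂ → Fin (N + 1) → ℂ, Differentiable ℂ f → (∀ z, f z ≠ 0) →
      (∀ z, PA ℂ σ (f z)) →
      (∀ z, ∃ k, eval₂ (σ.comp (algebraMap (𝓞 K) K)) (f z) (T' k) ≠ 0) →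
      (∃ z w, ∀ c : ℂ, f w ≠ c • f z) → ∀ z, P₂ ℂ σ (f z)) := by
    constructor
    · rintro h f hf hf0 hfA hfT ⟨z₀, w₀, hnc⟩
      obtain ⟨F₁, hF₁, hF0, hFS, hfF⟩ := hlift f hf hf0 hfA (fun h => by
        obtain ⟨c, hc⟩ := h z₀ w₀
        exact hnc c hc)
      have h4 := h F₁ hF₁ hF0 hFS (fun z => (hT1 ℂ σ (F₁ z)).1 (by
          have h5 := hfT z
          rw [hfF z] at h5
          exact h5)) ⟨z₀, w₀, fun c hc => hnc (c ^ d) (by
        rw [hfF, hfF, hc, ver_smul hm])⟩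
      intro z
      rw [hfF z]
      exact v₂ ℂ σ (F₁ z) (hFS z) (h4 z)
    · rintro h f hf hf0 hfF hfT ⟨z₀, w₀, hnc⟩ z
      have h4 := h (fun z => ver m (f z)) (ver_diff hf) (fun z => ver_ne_zero hm hd (hf0 z))
        (fun z => hFA ℂ σ (f z) (hfF z)) (fun z => (hT1 ℂ σ (f z)).2 (hfT z))
        ⟨z₀, w₀, fun c hc => by
            obtain ⟨c', hc'⟩ := ver_prop hm hd (hf0 w₀) hc
            exact hnc c' hc'⟩
      exact back ℂ σ (f z) (hf0 z) (h4 z)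
  -- points
  have hpoints : (∀ (L : Type) [Field L] [NumberField L] [Algebra K L]
      (S : Set (HeightOneSpectrum (𝓞 L))), S.Finite →
      ({P : ℙ L (Fin (n + 1) → L) | PF L (algebraMap K L) P.rep ∧
      (∃ k, eval₂ ((algebraMap K L).comp (algebraMap (𝓞 K) K)) P.rep (T k) ≠ 0) ∧
      ∀ v ∉ S, RedNotIn T P.rep v} \ {P | PG L (algebraMap K L) P.rep}).Finite) ↔
      (∀ (L : Type) [Field L] [NumberField L] [Algebra K L]
      (S : Set (HeightOneSpectrum (𝓞 L))), S.Finite →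
      ({P : ℙ L (Fin (N + 1) → L) | PA L (algebraMap K L) P.rep ∧
      (∃ k, eval₂ ((algebraMap K L).comp (algebraMap (𝓞 K) K)) P.rep (T' k) ≠ 0) ∧
      ∀ v ∉ S, RedNotIn T' P.rep v} \ {P | P₂ L (algebraMap K L) P.rep}).Finite) := by
    constructor
    · intro h L _ _ _ S hS
      refine ((hY L S hS).union ((h L S hS).image (blvp_phi hm hd))).subset ?_
      rintro P ⟨⟨hPA, hPT, hPR⟩, hPq⟩
      by_cases hP1 : P₁ L (algebraMap K L) P.rep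
      · right
        obtain ⟨x, c, hx0, hc0, hyx, hxF⟩ := w₁ L (algebraMap K L) P.rep P.rep_nonzero hP1
        obtain ⟨u, hu⟩ := Projectivization.exists_smul_eq_mk_rep L x hx0
        have hu' : (Projectivization.mk L x hx0).rep = (u : L) • x := hu.symm
        have hub : (u : L) ^ d ≠ 0 := pow_ne_zero _ u.ne_zero
        have hc1 : c * ((u : L) ^ d)⁻¹ ≠ 0 := mul_ne_zero hc0 (inv_ne_zero hub)
        have hrep : P.rep = (c * ((u : L) ^ d)⁻¹) • ver m (Projectivization.mk L x hx0).rep := by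
          rw [hu', ver_smul hm, smul_smul, mul_assoc, inv_mul_cancel₀ hub, mul_one, hyx]
        refine ⟨Projectivization.mk L x hx0, ⟨⟨?_, ?_, ?_⟩, fun hxG => hPq ?_⟩, ?_⟩
        · rw [hu']
          exact sF L _ _ _ hxF
        · rw [hrep] at hPT
          exact (hT L _ _ _ hc1).1 hPT
        · intro v hv
          have h5 := hPR v hv
          rw [hrep] at h5
          exact (hR L _ _ (Projectivization.rep_nonzero _) hc1 v).1 h5
        · show P₂ L (algebraMap K L) P.rep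
          rw [hrep]
          apply s₂
          refine v₂ L _ _ ?_ hxG
          rw [hu']
          exact sF L _ _ _ hxF
        · unfold blvp_phi
          conv_rhs => rw [← P.mk_rep]
          rw [Projectivization.mk_eq_mk_iff']
          refine ⟨(c * ((u : L) ^ d)⁻¹)⁻¹, ?_⟩
          conv_lhs => rw [hrep]
          rw [smul_smul, inv_mul_cancel₀ hc1, one_smul]
      · left
        exact ⟨⟨hPA, hPT, hPR⟩, hP1⟩
    · intro h L _ _ _ S hS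
      refine Set.Finite.of_finite_image ((h L S hS).subset ?_) ((blvp_inj hm hd).injOn)
      rintro _ ⟨P, ⟨⟨hPF, hPT, hPR⟩, hPG⟩, rfl⟩
      obtain ⟨u, hu⟩ := Projectivization.exists_smul_eq_mk_rep L (ver m P.rep)
        (ver_ne_zero hm hd P.rep_nonzero)
      have hu' : (blvp_phi hm hd P).rep = (u : L) • ver m P.rep := hu.symm
      refine ⟨⟨?_, ?_, ?_⟩, fun hq => hPG ?_⟩
      · rw [hu']
        exact sA L _ _ _ (hFA L _ _ hPF)
      · rw [hu']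
        exact (hT L _ _ _ u.ne_zero).2 hPT
      · intro v hv
        rw [hu']
        exact (hR L _ _ P.rep_nonzero u.ne_zero v).2 (hPR v hv)
      · have hq' : P₂ L (algebraMap K L) (blvp_phi hm hd P).rep := hq
        rw [hu'] at hq'
        have h6 := s₂ L _ ((u : L))⁻¹ _ hq'
        rw [smul_smul, inv_mul_cancel₀ u.ne_zero, one_smul] at h6
        exact back L _ P.rep P.rep_nonzero h6
  exact hcurves.trans (h2.trans hpoints.symm)

/-! ### the case `n = 0` -/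

theorem zb_point {K : Type} [Field K] (σ : K →+* ℂ) {κ : Type} (PF PG : ZbPred K 0)
    (T : κ → MvPolynomial (Fin (0 + 1)) (𝓞 K)) : ZbBLV σ PF PG T := by
  have key : ∀ {R : Type} [Field R] (x y : Fin (0 + 1) → R), x ≠ 0 → ∃ c : R, y = c • x := by
    intro R _ x y hx
    have hx0 : x 0 ≠ 0 := by
      intro h
      apply hx
      funext j
      rw [blvp_fin j]
      exact h
    refine ⟨y 0 / x 0, funext fun j => ?_⟩
    rw [blvp_fin j, Pi.smul_apply, smul_eq_mul, div_mul_cancel₀ _ hx0]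
  constructor
  · intro _ L _ _ _ S _
    apply Set.Subsingleton.finite
    intro P _ P' _
    obtain ⟨c, hc⟩ := key P'.rep P.rep P'.rep_nonzero
    rw [← P.mk_rep, ← P'.mk_rep, Projectivization.mk_eq_mk_iff']
    exact ⟨c, hc.symm⟩
  · rintro _ f _ hf0 _ _ ⟨z, w, h⟩
    obtain ⟨c, hc⟩ := key (f z) (f w) (hf0 z)
    exact absurd hc (h c)

/-! ### evaluation of the pullback and denominators -/

theorem zb_pull {R Ω : Type} [CommRing R] [Field Ω] (φ : R →+* Ω) {n N : ℕ}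
    (m : Fin (N + 1) → Fin (n + 1) → ℕ) (G : MvPolynomial (Fin (N + 1)) R)
    (x : Fin (n + 1) → Ω) : eval₂ φ x (pullR m G) = eval₂ φ (ver m x) G := by
  unfold pullR
  rw [← coe_eval₂Hom, ← coe_eval₂Hom, aeval_def, ← coe_eval₂Hom, ← RingHom.comp_apply]
  congr 1
  apply ringHom_ext
  · intro r
    simp [algebraMap_eq]
  · intro i
    simp [ver, map_prod]

/-- one form with integral coefficients -/
theorem zb_denom {K : Type} [Field K] [NumberField K] {N : ℕ}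
    (q : MvPolynomial (Fin (N + 1)) K) (hq : q.IsHomogeneous 2) :
    ∃ (c : 𝓞 K) (q' : MvPolynomial (Fin (N + 1)) (𝓞 K)), c ≠ 0 ∧ q'.IsHomogeneous 2 ∧
      map (algebraMap (𝓞 K) K) q' = C (algebraMap (𝓞 K) K c) * q := by
  obtain ⟨c, Q', hc, hQ', h⟩ := blva_denom (fun _ : Fin 1 => q) (fun _ => hq)
  exact ⟨c, Q' 0, hc, hQ' 0, h 0⟩

theorem zb_zero {K Ω : Type} [Field K] [Field Ω] (τ : K →+* Ω) {N : ℕ} {c : 𝓞 K} (hc : c ≠ 0)
    {q : MvPolynomial (Fin (N + 1)) K} {q' : MvPolynomial (Fin (N + 1)) (𝓞 K)}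
    (h : map (algebraMap (𝓞 K) K) q' = C (algebraMap (𝓞 K) K c) * q) (y : Fin (N + 1) → Ω) :
    eval₂ (τ.comp (algebraMap (𝓞 K) K)) y q' = 0 ↔ eval₂ τ y q = 0 := by
  have hcK : algebraMap (𝓞 K) K c ≠ 0 := by
    intro h0
    exact hc ((FaithfulSMul.algebraMap_injective (𝓞 K) K) (by rw [h0, map_zero]))
  rw [← eval₂_map, h, eval₂_mul, eval₂_C, mul_eq_zero]
  constructor
  · rintro (h1 | h1)
    · exact absurd h1 ((map_ne_zero τ).2 hcK)
    · exact h1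
  · exact Or.inr

theorem t_zblv : Zblv_stm := by
  intro hsurj hred D₁ hGeo K _ _ σ E hE H n ι κ τ₀ _ _ F T G hF hT hG
  classical
  rw [zb_quasi]
  rcases Nat.eq_zero_or_pos n with rfl | hn
  · exact zb_point σ _ _ T
  -- the forms over `K`
  obtain ⟨FK, hFK⟩ : ∃ FK : ι → MvPolynomial (Fin (n + 1)) K,
    FK = fun i => map (algebraMap (𝓞 K) K) (F i) := ⟨_, rfl⟩
  obtain ⟨GK, hGK⟩ : ∃ GK : τ₀ → MvPolynomial (Fin (n + 1)) K,
    GK = fun i => map (algebraMap (𝓞 K) K) (G i) := ⟨_, rfl⟩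
  have eF : ∀ (Ω : Type) [Field Ω] (τ : K →+* Ω) (x : Fin (n + 1) → Ω),
      zbZ F Ω τ x ↔ ∀ i, eval₂ τ x (FK i) = 0 := by
    intro Ω _ τ x
    unfold zbZ
    rw [hFK]
    simp only [eval₂_map]
  have eG : ∀ (Ω : Type) [Field Ω] (τ : K →+* Ω) (x : Fin (n + 1) → Ω),
      zbZ G Ω τ x ↔ ∀ i, eval₂ τ x (GK i) = 0 := by
    intro Ω _ τ x
    unfold zbZ
    rw [hGK]
    simp only [eval₂_map]
  have hFKh : ∀ i, ∃ e, (FK i).IsHomogeneous e := by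
    intro i
    obtain ⟨e, he⟩ := hF i
    rw [hFK]
    exact ⟨e, he.map _⟩
  have hGKh : ∀ i, ∃ e, (GK i).IsHomogeneous e := by
    intro i
    obtain ⟨e, he⟩ := hG i
    rw [hGK]
    exact ⟨e, he.map _⟩
  obtain ⟨T₀, hT₀, hTG⟩ := reduce (Set.range GK)
  have hTh : ∀ p ∈ T₀, ∃ e, p.IsHomogeneous e := by
    intro p hp
    obtain ⟨k, hk⟩ := hT₀ hp
    rw [← hk]
    exact hGKh k
  -- the bound for the degrees
  obtain ⟨d, hd3, hdF, hdT⟩ : ∃ d, 3 ≤ d ∧ (∀ i, ∃ e ≤ d, (FK i).IsHomogeneous e) ∧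
      ∀ p ∈ T₀, ∃ e ≤ d, p.IsHomogeneous e := by
    have := Fintype.ofFinite ι
    choose eF heF using hFKh
    choose! eT heT using hTh
    refine ⟨max 3 (max (Finset.univ.sup eF) (T₀.sup eT)), le_max_left _ _, fun i => ⟨eF i, ?_,
      heF i⟩, fun p hp => ⟨eT p, ?_, heT p hp⟩⟩
    · exact (Finset.le_sup (f := eF) (Finset.mem_univ i)).trans
        ((le_max_left _ _).trans (le_max_right _ _))
    · exact (Finset.le_sup (f := eT) hp).trans ((le_max_right _ _).trans (le_max_right _ _))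
  obtain ⟨N, m, hm, hN⟩ := t_num n d hn hd3
  have hd1 : 1 ≤ d := by omega
  obtain ⟨D, hDE, hD⟩ := hE.exists_gt (D₁ N)
  obtain ⟨Q, hQ, hsm, hv, hg⟩ := hGeo n d hn hd3 N m hm hN D hD.le K σ (Set.range FK) (by
    rintro _ ⟨i, rfl⟩
    exact hdF i)
  choose gF hgF1 hgF2 using hdF
  choose gT hgT1 hgT2 using fun p : T₀ => hdT p.1 p.2
  obtain ⟨ι₁, _, q₁, hq₁, v₁, w₁⟩ := t_ver K n N d m hm hd1 ι FK gF hgF2 hgF1
  obtain ⟨ι₂, _, q₂, hq₂, v₂, w₂⟩ := t_ver K n N d m hm hd1 (ι ⊕ T₀)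
    (Sum.elim FK fun p : T₀ => (p : MvPolynomial (Fin (n + 1)) K)) (Sum.elim gF gT)
    (by
      rintro (i | p)
      · exact hgF2 i
      · exact hgT2 p) (by
      rintro (i | p)
      · exact hgF1 i
      · exact hgT1 p)
  -- integral coefficients
  obtain ⟨c, Q', hc, hQ', hcQ⟩ := blva_denom Q hQ
  have hcK : algebraMap (𝓞 K) K c ≠ 0 := by
    intro h0
    exact hc ((FaithfulSMul.algebraMap_injective (𝓞 K) K) (by rw [h0, map_zero]))
  have hA := blva_power (D := D) hcQ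
  have hsm' : SmoothOver (map (algebraMap (𝓞 K) K) (powerFormRing D Q')) := by
    rw [hA]
    exact blva_smooth hcK hsm
  choose c₁ q₁' hc₁ hq₁' e₁ using fun i => zb_denom (q₁ i) (hq₁ i)
  choose c₂ q₂' hc₂ hq₂' e₂ using fun i => zb_denom (q₂ i) (hq₂ i)
  have eA : ∀ (Ω : Type) [Field Ω] (τ : K →+* Ω) (y : Fin (N + 1) → Ω),
      zbZ (fun _ : Unit => powerFormRing D Q') Ω τ y ↔ eval₂ τ y (powerSum D Q) = 0 := by
    intro Ω _ τ y
    unfold zbZ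
    rw [← zb_zero τ hc hA y]
    exact ⟨fun h => h (), fun h _ => h⟩
  have eq₁ : ∀ (Ω : Type) [Field Ω] (τ : K →+* Ω) (y : Fin (N + 1) → Ω),
      zbZ q₁' Ω τ y ↔ ∀ i, eval₂ τ y (q₁ i) = 0 :=
    fun Ω _ τ y => forall_congr' fun i => zb_zero τ (hc₁ i) (e₁ i) y
  have eq₂ : ∀ (Ω : Type) [Field Ω] (τ : K →+* Ω) (y : Fin (N + 1) → Ω),
      zbZ q₂' Ω τ y ↔ ∀ i, eval₂ τ y (q₂ i) = 0 :=
    fun Ω _ τ y => forall_congr' fun i => zb_zero τ (hc₂ i) (e₂ i) y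
  -- the forms `T'`
  have hT'' : ∀ k, ∃ (e : ℕ) (P : MvPolynomial (Fin (N + 1)) (𝓞 K)), (T k).IsHomogeneous e ∧
      P.IsHomogeneous e ∧ pullR m P = T k ^ d := by
    intro k
    obtain ⟨e, he⟩ := hT k
    have h3 := he.pow d
    rw [mul_comm e d] at h3
    obtain ⟨P, hP, hP2⟩ := hsurj (𝓞 K) n N d m hm e (T k ^ d) h3
    exact ⟨e, P, he, hP, hP2⟩
  choose eT T' hTe hT'e hT'p using hT''
  have hTT : ∀ (Ω : Type) [Field Ω] (τ : K →+* Ω) (x : Fin (n + 1) → Ω) (b : Ω), b ≠ 0 →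
      ((∃ k, eval₂ (τ.comp (algebraMap (𝓞 K) K)) (b • ver m x) (T' k) ≠ 0) ↔
        ∃ k, eval₂ (τ.comp (algebraMap (𝓞 K) K)) x (T k) ≠ 0) := by
    intro Ω _ τ x b hb
    refine exists_congr fun k => ?_
    rw [zb_scale τ (hT'e k), ← zb_pull, hT'p k, eval₂_pow]
    constructor
    · intro h h0
      apply h
      rw [h0, zero_pow (by omega), mul_zero]
    · intro h
      exact mul_ne_zero (pow_ne_zero _ hb) (pow_ne_zero _ h)
  -- the applications of the hypothesis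
  have h1 := H N D Q' hDE hD.le hQ' hsm' κ ι₁ T' q₁' (fun k => ⟨_, hT'e k⟩) fun i => ⟨2, hq₁' i⟩
  have h2 := H N D Q' hDE hD.le hQ' hsm' κ ι₂ T' q₂' (fun k => ⟨_, hT'e k⟩) fun i => ⟨2, hq₂' i⟩
  rw [zb_quasi] at h1 h2
  have hne : ∀ (Ω : Type) [Field Ω] (x : Fin (n + 1) → Ω) (a : Fin (n + 1)), x a = 1 → x ≠ 0 := by
    intro Ω _ x a hxa h0
    rw [h0] at hxa
    exact zero_ne_one hxa
  refine zb_main σ hm hd1 (zbZ F) (zbZ G) (zbZ (fun _ : Unit => powerFormRing D Q')) (zbZ q₁')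
    (zbZ q₂') T T' (fun Ω _ τ c x h => zbZ_smul hF Ω τ c x h)
    (fun Ω _ τ c x h => zbZ_smul hG Ω τ c x h) ?_
    (fun Ω _ τ c x h => zbZ_smul (fun i => ⟨2, hq₂' i⟩) Ω τ c x h) ?_ ?_ ?_ ?_ ?_ ?_ hTT ?_ h1 h2
  · intro Ω _ τ b x h
    rw [eA] at h ⊢
    exact blvp_zero τ ⟨_, power_form hQ⟩ h
  · intro Ω _ τ x h
    rw [eF] at h
    rw [eA]
    have h3 := hv Ω τ x (by
      rintro _ ⟨i, rfl⟩
      rw [eval_map]
      exact h i)
    rw [eval_map] at h3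
    exact h3
  · intro Ω _ τ x h
    rw [eF] at h
    rw [eq₁]
    letI := τ.toAlgebra
    exact v₁ Ω x h
  · intro Ω _ τ y hy h
    rw [eq₁] at h
    letI := τ.toAlgebra
    obtain ⟨-, x, a, b, hxa, hyb, hyc, hx⟩ := w₁ Ω y hy h
    exact ⟨x, y b, hne Ω x a hxa, hyb, funext fun c => hyc c, (eF Ω τ x).2 hx⟩
  · intro Ω _ τ x hx hxG
    rw [eF] at hx
    rw [eG] at hxG
    rw [eq₂]
    letI := τ.toAlgebra
    refine v₂ Ω x ?_
    rintro (i | p)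
    · exact hx i
    · obtain ⟨k, hk⟩ := hT₀ p.2
      have := hxG k
      rw [hk] at this
      exact this
  · intro Ω _ τ y hy h
    rw [eq₂] at h
    letI := τ.toAlgebra
    obtain ⟨-, x, a, b, hxa, hyb, hyc, hx⟩ := w₂ Ω y hy h
    refine ⟨x, y b, hne Ω x a hxa, hyb, funext fun c => hyc c, (eG Ω τ x).2 fun k => ?_⟩
    have h3 := hTG Ω τ x (fun p hp => by
      rw [eval_map]
      exact hx (Sum.inr ⟨p, hp⟩)) (GK k) ⟨k, rfl⟩
    rw [eval_map] at h3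
    exact h3
  · intro f hf hf0 hfA hnc
    obtain ⟨F₁, hF₁, hF0, hFS, hfF⟩ := blvp_lift hg f hf hf0 (fun z => by
      rw [eval_map]
      exact (eA ℂ σ (f z)).1 (hfA z)) hnc
    refine ⟨F₁, hF₁, hF0, fun z => (eF ℂ σ (F₁ z)).2 fun i => ?_, hfF⟩
    have h3 := hFS z _ ⟨FK i, ⟨i, rfl⟩, rfl⟩
    rw [eval_map] at h3
    exact h3
  · intro L _ _ _ x b hx hb v
    exact hred K n N d m hm hd1 κ T T' (fun k => ⟨_, hTe k, hT'e k, hT'p k⟩) L x b hx hb v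

end Pool.Agent.N254.SQ
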