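import Pool.Agent.N254.SQ.StmZ

/-!
Project SQ (helper254), part ZRED (helper624): reductions of points and Veronese maps.
-/

set_option autoImplicit false

namespace Pool.Agent.N254.SQ

open MvPolynomial NumberField IsDedekindDomain
open scoped LinearAlgebra.Projectivization

theorem zr_scale {A R : Type} [CommRing A] [CommRing R] {n e : ℕ} (σ : A →+* R)
    {F : MvPolynomial (Fin (n + 1)) A} (hF : F.IsHomogeneous e) (c : R) (x : Fin (n + 1) → R) :
    eval₂ σ (fun j => c * x j) F = c ^ e * eval₂ σ x F := by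
  rw [eval₂_eq', eval₂_eq', Finset.mul_sum]
  apply Finset.sum_congr rfl
  intro α hα
  have h1 : ∑ j, α j = e := by
    have h2 := hF (mem_support_iff.1 hα)
    rw [Finsupp.weight_apply, Finsupp.sum_fintype _ _ (fun _ => by simp)] at h2
    simpa using h2
  simp only [mul_pow, Finset.prod_mul_distrib]
  rw [Finset.prod_pow_eq_pow_sum, h1]
  ring

theorem zr_pull {A R : Type} [CommRing A] [CommRing R] {n N : ℕ} (σ : A →+* R)
    (m : Fin (N + 1) → Fin (n + 1) → ℕ) (G : MvPolynomial (Fin (N + 1)) A)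
    (x : Fin (n + 1) → R) : eval₂ σ x (pullR m G) = eval₂ σ (ver m x) G := by
  unfold pullR
  have h : (eval₂Hom σ x).comp
      (aeval (fun a => ∏ j, (X j : MvPolynomial (Fin (n + 1)) A) ^ m a j)).toRingHom =
      eval₂Hom σ (ver m x) := by
    apply MvPolynomial.ringHom_ext
    · intro r
      simp
    · intro a
      simp [ver]
  exact congrArg (fun f => f G) h

theorem zr_eval {A R : Type} [CommRing A] [CommRing R] {n N d : ℕ} (σ : A →+* R)
    {m : Fin (N + 1) → Fin (n + 1) → ℕ} {T : MvPolynomial (Fin (n + 1)) A}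
    {T' : MvPolynomial (Fin (N + 1)) A} (h : pullR m T' = T ^ d) (x : Fin (n + 1) → R) :
    eval₂ σ (ver m x) T' = eval₂ σ x T ^ d := by
  rw [← zr_pull, h, eval₂_pow]

theorem zr_single {n N d : ℕ} {m : Fin (N + 1) → Fin (n + 1) → ℕ} (hm : Mon n N d m)
    (j : Fin (n + 1)) : ∃ a, ∀ {R : Type} [CommRing R] (x : Fin (n + 1) → R),
      ver m x a = x j ^ d := by
  classical
  obtain ⟨a, ha⟩ := hm.surj (Pi.single j d) (by simp)
  refine ⟨a, fun x => ?_⟩
  unfold ver
  rw [ha, Finset.prod_eq_single j]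
  · rw [Pi.single_eq_same]
  · intro i _ hi
    rw [Pi.single_eq_of_ne hi, pow_zero]
  · intro h
    exact absurd (Finset.mem_univ j) h

theorem zr_ver_mul {n N d : ℕ} {m : Fin (N + 1) → Fin (n + 1) → ℕ} (hm : Mon n N d m)
    {R : Type} [CommRing R] (c : R) (x : Fin (n + 1) → R) (a : Fin (N + 1)) :
    ver m (fun j => c * x j) a = c ^ d * ver m x a := by
  unfold ver
  simp only [mul_pow, Finset.prod_mul_distrib]
  rw [Finset.prod_pow_eq_pow_sum, hm.deg]

theorem zr_le {n N d : ℕ} {m : Fin (N + 1) → Fin (n + 1) → ℕ} (hm : Mon n N d m)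
    {R Γ : Type} [CommRing R] [LinearOrderedCommGroupWithZero Γ] (v : Valuation R Γ)
    (x : Fin (n + 1) → R) (M : Γ) (h : ∀ j, v (x j) ≤ M) (a : Fin (N + 1)) :
    v (ver m x a) ≤ M ^ d := by
  unfold ver
  rw [map_prod, ← hm.deg a, ← Finset.prod_pow_eq_pow_sum]
  refine Finset.prod_le_prod' fun j _ => ?_
  rw [map_pow]
  exact pow_le_pow_left₀ zero_le (h j) _

theorem t_zred : Zred_stm := by
  intro K _ _ n N d m hm hd κ T T' hT L _ _ _ x c hx hc v
  set φ : 𝓞 K →+* L := (algebraMap K L).comp (algebraMap (𝓞 K) K) with hφ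
  have hd0 : d ≠ 0 := by omega
  constructor
  · rintro ⟨c0, h1, ⟨b, hb⟩, k, hk⟩
    obtain ⟨e, he, he', hpull⟩ := hT k
    obtain ⟨j0, -, hj0⟩ := Finset.exists_max_image (Finset.univ : Finset (Fin (n + 1)))
      (fun j => v.valuation L (x j)) ⟨0, Finset.mem_univ _⟩
    have hmax : ∀ j, v.valuation L (x j) ≤ v.valuation L (x j0) := fun j =>
      hj0 j (Finset.mem_univ j)
    have hx0 : x j0 ≠ 0 := by
      intro h0
      apply hx
      funext j
      have h2 := hmax j
      rw [h0, map_zero] at h2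
      exact (Valuation.zero_iff _).1 (le_antisymm h2 zero_le)
    have hv0 : v.valuation L (x j0) ≠ 0 := (Valuation.ne_zero_iff _).2 hx0
    obtain ⟨a0, ha0⟩ := zr_single hm j0
    -- the scaling factor
    have e1 : v.valuation L (c0 * c) * v.valuation L (x j0) ^ d = 1 := by
      apply le_antisymm
      · have h2 := h1 a0
        rw [Pi.smul_apply, smul_eq_mul, ha0 x, ← mul_assoc, map_mul, map_pow] at h2
        exact h2
      · have h2 := hb
        rw [Pi.smul_apply, smul_eq_mul, ← mul_assoc, map_mul] at h2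
        rw [← h2]
        exact mul_le_mul_right (zr_le hm (v.valuation L) x _ hmax b) _
    have e2 : v.valuation L (c0 * c) = (v.valuation L (x j0))⁻¹ ^ d := by
      rw [inv_pow]
      exact eq_inv_of_mul_eq_one_left e1
    refine ⟨(x j0)⁻¹, fun j => ?_, ⟨j0, ?_⟩, k, ?_⟩
    · rw [map_mul, map_inv₀]
      calc (v.valuation L (x j0))⁻¹ * v.valuation L (x j)
          ≤ (v.valuation L (x j0))⁻¹ * v.valuation L (x j0) := mul_le_mul_right (hmax j) _
        _ = 1 := inv_mul_cancel₀ hv0
    · rw [inv_mul_cancel₀ hx0, map_one]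
    · have h3 : eval₂ φ (fun j => c0 * (c • ver m x) j) (T' k) =
          (c0 * c) ^ e * eval₂ φ x (T k) ^ d := by
        rw [← zr_eval φ hpull x, ← zr_scale φ he']
        congr 1
        funext j
        rw [Pi.smul_apply, smul_eq_mul, mul_assoc]
      rw [h3, map_mul, map_pow, map_pow, e2] at hk
      rw [zr_scale φ he, map_mul, map_pow, map_inv₀]
      have h4 : ((v.valuation L (x j0))⁻¹ ^ e * v.valuation L (eval₂ φ x (T k))) ^ d = 1 := by
        rw [mul_pow, ← hk]
        congr 1
        rw [← pow_mul, ← pow_mul, mul_comm]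
      exact (pow_eq_one_iff.1 h4).resolve_right hd0
  · rintro ⟨c1, h1, ⟨j0, hj0⟩, k, hk⟩
    obtain ⟨e, he, he', hpull⟩ := hT k
    obtain ⟨a0, ha0⟩ := zr_single hm j0
    have key : ∀ a, c1 ^ d / c * (c • ver m x) a = ver m (fun j => c1 * x j) a := by
      intro a
      rw [zr_ver_mul hm, Pi.smul_apply, smul_eq_mul]
      field_simp
    refine ⟨c1 ^ d / c, fun a => ?_, ⟨a0, ?_⟩, k, ?_⟩
    · rw [key]
      refine (zr_le hm (v.valuation L) _ 1 h1 a).trans ?_
      rw [one_pow]
    · rw [key, ha0, map_pow, hj0, one_pow]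
    · have h2 : (fun a => c1 ^ d / c * (c • ver m x) a) = ver m (fun j => c1 * x j) :=
        funext key
      rw [h2, zr_eval φ hpull, map_pow, hk, one_pow]

end Pool.Agent.N254.SQ
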