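import Pool.Agent.N254.SQ.StmRing

/-!
Project SQ: points over subrings of `ℂ`, the general lemmas (helper713, for helper254).
-/

set_option autoImplicit false

namespace Pool.Agent.N254.SQ

open MvPolynomial
open scoped LinearAlgebra.Projectivization

theorem rg_iff {n : ℕ} (A : Subring ℂ) (P : ℙ ℂ (Fin (n + 1) → ℂ)) :
    RingPoint A P ↔ ∀ M : Ideal A, M.IsMaximal → ∃ (x : Fin (n + 1) → A)
      (hx : (fun j => (x j : ℂ)) ≠ 0), P = Projectivization.mk ℂ _ hx ∧ ∃ j, x j ∉ M := by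
  constructor
  · intro h M hM
    by_contra hcon
    push Not at hcon
    have h1 : Ideal.span {a : A | ∃ (x : Fin (n + 1) → A) (hx : (fun j => (x j : ℂ)) ≠ 0),
        P = Projectivization.mk ℂ _ hx ∧ ∃ j, x j = a} ≤ M := by
      rw [Ideal.span_le]
      rintro a ⟨x, hx, hP, j, rfl⟩
      exact hcon x hx hP j
    unfold RingPoint at h
    rw [h] at h1
    exact hM.ne_top (top_le_iff.1 h1)
  · intro h
    by_contra hcon
    obtain ⟨M, hM, hle⟩ := Ideal.exists_le_maximal _ hcon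
    obtain ⟨x, hx, hP, j, hj⟩ := h M hM
    exact hj (hle (Ideal.subset_span ⟨x, hx, hP, j, rfl⟩))

theorem rg_coe {n N : ℕ} (m : Fin (N + 1) → Fin (n + 1) → ℕ) (A : Subring ℂ)
    (x : Fin (n + 1) → A) (b : Fin (N + 1)) :
    ((ver m x b : A) : ℂ) = ver m (fun j => (x j : ℂ)) b := by
  unfold ver
  push_cast
  rfl

theorem rg_ver {n N d : ℕ} {m : Fin (N + 1) → Fin (n + 1) → ℕ} (hm : Mon n N d m) (hd : 1 ≤ d)
    (A : Subring ℂ) (P : ℙ ℂ (Fin (n + 1) → ℂ)) :
    RingPoint A P ↔ RingPoint A (fgb_map hm hd P) := by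
  rw [rg_iff, rg_iff]
  constructor
  · intro h M hM
    obtain ⟨x, hx, hP, j, hj⟩ := h M hM
    have hv : (fun b => ((ver m x b : A) : ℂ)) = ver m (fun j => (x j : ℂ)) :=
      funext fun b => rg_coe m A x b
    have hv0 : (fun b => ((ver m x b : A) : ℂ)) ≠ 0 := by
      rw [hv]
      exact ver_ne_zero hm hd hx
    refine ⟨ver m x, hv0, ?_, ?_⟩
    · rw [hP, fgb_mk hm hd hx]
      congr 1
      exact hv.symm
    · obtain ⟨b, hb⟩ := ver_near (Ω := ℂ) hm hd j j
      refine ⟨b, fun hmem => hj ?_⟩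
      have h1 : ver m x b = x j ^ (d - 1) * x j := by
        apply Subtype.ext
        rw [rg_coe, hb]
        push_cast
        rfl
      rw [h1, ← pow_succ] at hmem
      exact hM.isPrime.mem_of_pow_mem _ hmem
  · intro h M hM
    obtain ⟨y, hy, hP, a, ha⟩ := h M hM
    have hx := P.rep_nonzero
    obtain ⟨x, hxd⟩ : ∃ x, x = P.rep := ⟨_, rfl⟩
    obtain ⟨c, hc0, hc⟩ : ∃ c : ℂ, c ≠ 0 ∧ ∀ b, (y b : ℂ) = c * ver m x b := by
      unfold fgb_map at hP
      obtain ⟨c, hc⟩ := (Projectivization.mk_eq_mk_iff ℂ _ _ _ _).1 hP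
      refine ⟨((c⁻¹ : ℂˣ) : ℂ), Units.ne_zero _, fun b => ?_⟩
      have h1 := congrFun hc b
      rw [Pi.smul_apply, Units.smul_def, smul_eq_mul] at h1
      rw [hxd, ← h1, ← mul_assoc, Units.inv_mul, one_mul]
    rw [← hxd] at hx
    choose b hb using fun j : Fin (n + 1) => hm.surj (Pi.single j d) (ver_sum_single j d)
    have hyb : ∀ j, (y (b j) : ℂ) = c * x j ^ d := by
      intro j
      rw [hc]
      unfold ver
      rw [hb, ver_mul_single]
    have hprod : y a ^ d = ∏ j, y (b j) ^ m a j := by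
      apply Subtype.ext
      push_cast
      rw [hc]
      simp only [hyb, mul_pow, Finset.prod_mul_distrib, Finset.prod_pow_eq_pow_sum, hm.deg]
      unfold ver
      rw [← Finset.prod_pow]
      congr 1
      refine Finset.prod_congr rfl fun j _ => ?_
      rw [← pow_mul, ← pow_mul, mul_comm]
    obtain ⟨j, hj⟩ : ∃ j, y (b j) ∉ M := by
      by_contra hcon
      push Not at hcon
      apply ha
      obtain ⟨j, hj⟩ : ∃ j, m a j ≠ 0 := by
        by_contra hc2
        push Not at hc2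
        have h1 := hm.deg a
        rw [Finset.sum_eq_zero fun j _ => hc2 j] at h1
        omega
      have h1 : y a ^ d ∈ M := by
        rw [hprod]
        exact Ideal.mem_of_dvd M (Finset.dvd_prod_of_mem _ (Finset.mem_univ j))
          (Ideal.pow_mem_of_mem M (hcon j) _ (Nat.pos_of_ne_zero hj))
      exact hM.isPrime.mem_of_pow_mem _ h1
    have hyj0 : (y (b j) : ℂ) ≠ 0 := by
      intro h0
      apply hj
      have : y (b j) = 0 := Subtype.ext h0
      rw [this]
      exact M.zero_mem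
    have hxj : x j ≠ 0 := by
      intro h0
      rw [hyb, h0, zero_pow (by omega), mul_zero] at hyj0
      exact hyj0 rfl
    choose e he using fun i : Fin (n + 1) => ver_near (Ω := ℂ) hm hd j i
    have hval : (fun i => ((y (e i) : A) : ℂ)) = (c * x j ^ (d - 1)) • x := by
      funext i
      rw [hc, he, Pi.smul_apply, smul_eq_mul, mul_assoc]
    have hk0 : c * x j ^ (d - 1) ≠ 0 := mul_ne_zero hc0 (pow_ne_zero _ hxj)
    have hx0 : (fun i => ((y (e i) : A) : ℂ)) ≠ 0 := by
      rw [hval]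
      exact smul_ne_zero hk0 hx
    refine ⟨fun i => y (e i), hx0, ?_, j, ?_⟩
    · rw [← P.mk_rep]
      rw [Projectivization.mk_eq_mk_iff]
      refine ⟨Units.mk0 (c * x j ^ (d - 1))⁻¹ (inv_ne_zero hk0), ?_⟩
      rw [Units.smul_mk0, hval, inv_smul_smul₀ hk0, hxd]
    · have h1 : y (e j) = y (b j) := by
        apply Subtype.ext
        rw [hc, he, hyb, ← pow_succ]
        congr 2
        omega
      show y (e j) ∉ M
      rw [h1]
      exact hj

theorem t_ring (R : Set (Subring ℂ)) : RingBasics R where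
  idl n S :=
    { zero := fun A _ => by
        refine Set.finite_empty.subset ?_
        rintro P ⟨-, x, hx, -, -, h⟩
        exact absurd (map_zero _) h
      add := fun e G G' _ _ h h' A hA => by
        refine ((h A hA).union (h' A hA)).subset ?_
        rintro P ⟨h0, x, hx, h1, h3, h4⟩
        by_cases h5 : eval x G = 0
        · right
          refine ⟨h0, x, hx, h1, h3, fun h6 => h4 ?_⟩
          rw [map_add, h5, h6, add_zero]
        · left
          exact ⟨h0, x, hx, h1, h3, h5⟩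
      mul := fun G F _ _ h A hA => by
        refine (h A hA).subset ?_
        rintro P ⟨h0, x, hx, h1, h3, h4⟩
        refine ⟨h0, x, hx, h1, h3, fun h6 => h4 ?_⟩
        rw [map_mul, h6, zero_mul]
      rad := fun G r _ h A hA => by
        refine (h A hA).subset ?_
        rintro P ⟨h0, x, hx, h1, h3, h4⟩
        refine ⟨h0, x, hx, h1, h3, ?_⟩
        rw [map_pow]
        exact pow_ne_zero r h4 }
  mono n S T hST G h A hA := by
    refine (h A hA).subset ?_
    rintro P ⟨h0, x, hx, h1, h3, h4⟩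
    exact ⟨h0, x, hx, h1, hST x h3, h4⟩
  pullback n N d m S A hg G _ hG B hB := by
    apply Set.Finite.of_finite_image (f := fgb_map hg.mon hg.deg) ((hG B hB).subset ?_)
      (fgb_inj hg.mon hg.deg).injOn
    rintro _ ⟨P, ⟨hPB, x, hx, hPx, hxS, hxG⟩, rfl⟩
    refine ⟨(rg_ver hg.mon hg.deg B P).1 hPB, ver m x, ver_ne_zero hg.mon hg.deg hx, ?_, ?_, ?_⟩
    · rw [hPx]
      exact fgb_mk hg.mon hg.deg hx
    · intro p hp
      rw [Set.mem_singleton_iff] at hp
      rw [hp]
      exact hg.sub ℂ x hxS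
    · rw [← eval_pull]
      exact hxG
  pushout n N d m S A hg hS G hGf hG hF B hB := by
    classical
    obtain ⟨T, hT, hTS⟩ := reduce S
    have hT2 : ∀ p : T, ∃ e ≤ d, (p : MvPolynomial (Fin (n + 1)) ℂ).IsHomogeneous e :=
      fun p => hS _ (hT p.2)
    choose e he hp using hT2
    obtain ⟨ι, _, q, hq, hq1, hq2⟩ := t_ver ℂ n N d m hg.mon hg.deg T
      (fun p => (p : MvPolynomial (Fin (n + 1)) ℂ)) e hp he
    have hfin := fun i => hF (q i) ⟨2, hq i⟩
      (fun x hx => hq1 ℂ x (fun k => hx _ (hT k.2)) i) B hB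
    refine ((Set.finite_iUnion hfin).union
      ((hG B hB).image (fgb_map hg.mon hg.deg))).subset ?_
    rintro P ⟨hPB, y, hy, hPy, hyA, hyG⟩
    by_cases hqy : ∀ i, eval y (q i) = 0
    · right
      obtain ⟨-, x, a, b, hxa, hyb, hyx, hxT⟩ := hq2 ℂ y hy hqy
      have hyv : y = y b • ver m x :=
        funext fun c => by rw [Pi.smul_apply, smul_eq_mul]; exact hyx c
      have hx0 : x ≠ 0 := by
        intro h0
        rw [h0] at hxa
        exact zero_ne_one hxa
      have hxS : ∀ p ∈ S, eval x p = 0 := by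
        intro p hp
        have h1 := hTS ℂ (RingHom.id ℂ) x (fun p hp => by
          rw [map_id]
          exact hxT ⟨p, hp⟩) p hp
        rwa [map_id] at h1
      have hPim : fgb_map hg.mon hg.deg (Projectivization.mk ℂ x hx0) = P := by
        rw [fgb_mk, hPy]
        symm
        rw [Projectivization.mk_eq_mk_iff]
        exact ⟨Units.mk0 (y b) hyb, hyv.symm⟩
      refine ⟨Projectivization.mk ℂ x hx0, ⟨?_, x, hx0, rfl, hxS, ?_⟩, hPim⟩
      · rw [rg_ver hg.mon hg.deg, hPim]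
        exact hPB
      · rw [eval_pull]
        intro h0
        apply hyG
        obtain ⟨e', he'⟩ := hGf
        rw [hyv, eval_scale he', h0, mul_zero]
    · left
      push Not at hqy
      obtain ⟨i, hi⟩ := hqy
      exact Set.mem_iUnion.2 ⟨i, hPB, y, hy, hPy, hyA, hi⟩

/-- points over fields -/
theorem rg_field {n : ℕ} (F : Subfield ℂ) (P : ℙ ℂ (Fin (n + 1) → ℂ)) :
    RingPoint F.toSubring P ↔ ∃ (x : Fin (n + 1) → ℂ) (hx : x ≠ 0),
      P = Projectivization.mk ℂ x hx ∧ ∀ j, x j ∈ F := by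
  constructor
  · intro h
    by_contra hcon
    have h1 : {a : F.toSubring | ∃ (x : Fin (n + 1) → F.toSubring)
        (hx : (fun j => (x j : ℂ)) ≠ 0),
        P = Projectivization.mk ℂ _ hx ∧ ∃ j, x j = a} = ∅ := by
      rw [Set.eq_empty_iff_forall_notMem]
      rintro a ⟨x, hx, hP, -⟩
      exact hcon ⟨fun j => (x j : ℂ), hx, hP, fun j => (x j).2⟩
    unfold RingPoint at h
    rw [h1, Ideal.span_empty] at h
    exact bot_ne_top h
  · rintro ⟨x, hx, hP, hxF⟩
    obtain ⟨j, hj⟩ : ∃ j, x j ≠ 0 := by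
      by_contra hcon
      push Not at hcon
      exact hx (funext hcon)
    unfold RingPoint
    rw [Ideal.eq_top_iff_one]
    have h1 : (⟨x j, hxF j⟩ : F.toSubring) ∈ Ideal.span {a : F.toSubring |
        ∃ (x : Fin (n + 1) → F.toSubring)
        (hx : (fun j => (x j : ℂ)) ≠ 0),
        P = Projectivization.mk ℂ _ hx ∧ ∃ j, x j = a} :=
      Ideal.subset_span ⟨fun j => ⟨x j, hxF j⟩, hx, hP, j, rfl⟩
    have h2 := Ideal.mul_mem_left _ (⟨(x j)⁻¹, F.inv_mem (hxF j)⟩ : F.toSubring) h1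
    have h3 : (⟨(x j)⁻¹, F.inv_mem (hxF j)⟩ : F.toSubring) * ⟨x j, hxF j⟩ = 1 := by
      apply Subtype.ext
      show (x j)⁻¹ * x j = 1
      exact inv_mul_cancel₀ hj
    rwa [h3] at h2

/-- the notion with fields is the earlier one, for homogeneous equations (in general only the
direction `→` is true) -/
theorem rg_ringfields_mp (n : ℕ) (S : Set (MvPolynomial (Fin (n + 1)) ℂ))
    (G : MvPolynomial (Fin (n + 1)) ℂ) (h : FiniteOver fgFields S G) : FiniteOffFg S G := by
  intro s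
  refine (h _ ⟨s, rfl⟩).subset ?_
  rintro P ⟨x, hx, hP, hxF, hS, hG⟩
  exact ⟨(rg_field _ P).2 ⟨x, hx, hP, hxF⟩, x, hx, hP, hS, hG⟩

theorem t_ringfields' (n : ℕ) (S : Set (MvPolynomial (Fin (n + 1)) ℂ))
    (G : MvPolynomial (Fin (n + 1)) ℂ) (hS : ∀ p ∈ S, IsForm p) (hG : IsForm G) :
    FiniteOver fgFields S G ↔ FiniteOffFg S G := by
  refine ⟨rg_ringfields_mp n S G, ?_⟩
  rintro h _ ⟨s, rfl⟩
  refine (h s).subset ?_
  rintro P ⟨hPA, x, hx, hP, hxS, hxG⟩
  obtain ⟨y, hy, hPy, hyF⟩ := (rg_field _ P).1 hPA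
  obtain ⟨c, hc⟩ := (Projectivization.mk_eq_mk_iff ℂ _ _ _ _).1 (hPy.symm.trans hP)
  -- `c • x = y`
  have hyx : y = (c : ℂ) • x := by rw [← hc]; rfl
  refine ⟨y, hy, hPy, hyF, fun p hp => ?_, ?_⟩
  · obtain ⟨e, he⟩ := hS p hp
    rw [hyx, eval_scale he, hxS p hp, mul_zero]
  · obtain ⟨e, he⟩ := hG
    rw [hyx, eval_scale he]
    exact mul_ne_zero (pow_ne_zero _ c.ne_zero) hxG

end Pool.Agent.N254.SQ
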