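import Pool.Agent.N254.SQ.LocDefs6
import Pool.Agent.N254.SQ.FgA
import Pool.Agent.N254.SQ.FgB

/-!
Points over rings: statements of the lemmas.
-/

set_option autoImplicit false

namespace Pool.Agent.N254.SQ

open MvPolynomial
open scoped LinearAlgebra.Projectivization

/-- the general lemmas -/
structure RingBasics (R : Set (Subring ℂ)) : Prop where
  idl : ∀ (n : ℕ) (S : Set (MvPolynomial (Fin (n + 1)) ℂ)), Idl (FiniteOver R S)
  mono : ∀ (n : ℕ) (S T : Set (MvPolynomial (Fin (n + 1)) ℂ)),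
    (∀ x : Fin (n + 1) → ℂ, (∀ p ∈ T, eval x p = 0) → ∀ p ∈ S, eval x p = 0) →
    ∀ G, FiniteOver R S G → FiniteOver R T G
  pullback : ∀ (n N d : ℕ) (m : Fin (N + 1) → Fin (n + 1) → ℕ)
    (S : Set (MvPolynomial (Fin (n + 1)) ℂ)) (A : MvPolynomial (Fin (N + 1)) ℂ),
    Good n N d m S A → ∀ G, IsForm G → FiniteOver R {A} G → FiniteOver R S (pull m G)
  pushout : ∀ (n N d : ℕ) (m : Fin (N + 1) → Fin (n + 1) → ℕ)
    (S : Set (MvPolynomial (Fin (n + 1)) ℂ)) (A : MvPolynomial (Fin (N + 1)) ℂ),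
    Good n N d m S A → (∀ p ∈ S, ∃ e ≤ d, p.IsHomogeneous e) → ∀ G, IsForm G →
    FiniteOver R S (pull m G) →
    (∀ F, IsForm F → (∀ x : Fin (n + 1) → ℂ, (∀ p ∈ S, eval x p = 0) → eval (ver m x) F = 0) →
      FiniteOver R {A} F) → FiniteOver R {A} G

/-- the notion with fields is the earlier one -/
def RingFields : Prop := ∀ (n : ℕ) (S : Set (MvPolynomial (Fin (n + 1)) ℂ))
  (G : MvPolynomial (Fin (n + 1)) ℂ), FiniteOver fgFields S G ↔ FiniteOffFg S G

end Pool.Agent.N254.SQ
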