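import Pool.Agent.N254.SQ.StmS
import Pool.Agent.N254.SQ.LocDefsZ

/-!
Project SQ, tenth part: integral points of quasi-projective schemes. Statements of the leaves.
-/

set_option autoImplicit false

namespace Pool.Agent.N254.SQ

open MvPolynomial NumberField IsDedekindDomain
open scoped LinearAlgebra.Projectivization

/-- the form `G` over a ring in the monomials given by `m` -/
noncomputable def pullR {R : Type} [CommRing R] {n N : ℕ} (m : Fin (N + 1) → Fin (n + 1) → ℕ)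
    (G : MvPolynomial (Fin (N + 1)) R) : MvPolynomial (Fin (n + 1)) R :=
  aeval (fun a => ∏ j, (X j : MvPolynomial (Fin (n + 1)) R) ^ m a j) G

/-- ZSURJ: forms of degree `d e` over a ring are forms of degree `e` in the monomials of degree `d` -/
def Zsurj_stm : Prop :=
  ∀ (R : Type) [CommRing R] (n N d : ℕ) (m : Fin (N + 1) → Fin (n + 1) → ℕ), Mon n N d m →
    ∀ (e : ℕ) (P : MvPolynomial (Fin (n + 1)) R), P.IsHomogeneous (d * e) →
      ∃ G : MvPolynomial (Fin (N + 1)) R, G.IsHomogeneous e ∧ pullR m G = P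

/-- ZRED: reductions of points and Veronese maps -/
def Zred_stm : Prop :=
  ∀ (K : Type) [Field K] [NumberField K] (n N d : ℕ) (m : Fin (N + 1) → Fin (n + 1) → ℕ),
    Mon n N d m → 1 ≤ d → ∀ (κ : Type) (T : κ → MvPolynomial (Fin (n + 1)) (𝓞 K))
      (T' : κ → MvPolynomial (Fin (N + 1)) (𝓞 K)),
      (∀ k, ∃ e, (T k).IsHomogeneous e ∧ (T' k).IsHomogeneous e ∧ pullR m (T' k) = T k ^ d) →
      ∀ (L : Type) [Field L] [NumberField L] [Algebra K L] (x : Fin (n + 1) → L) (c : L), x ≠ 0 →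
        c ≠ 0 → ∀ v : HeightOneSpectrum (𝓞 L), RedNotIn T' (c • ver m x) v ↔ RedNotIn T x v

/-- ZBLV: Q1 for all quasi-projective schemes follows from Q1 for open subschemes of smooth
hypersurfaces -/
def Zblv_stm : Prop :=
  Zsurj_stm → Zred_stm → ∀ D₁ : ℕ → ℕ, GeoAll D₁ →
    ∀ (K : Type) [Field K] [NumberField K] (σ : K →+* ℂ) (E : Set ℕ), E.Infinite →
    (∀ (N D : ℕ) (Q : Fin (N * (2 * N + 1)) → MvPolynomial (Fin (N + 1)) (𝓞 K)), D ∈ E →
      D₁ N ≤ D → (∀ t, (Q t).IsHomogeneous 2) →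
      SmoothOver (map (algebraMap (𝓞 K) K) (powerFormRing D Q)) →
      ∀ (κ τ : Type) [Finite κ] (T : κ → MvPolynomial (Fin (N + 1)) (𝓞 K))
        (G : τ → MvPolynomial (Fin (N + 1)) (𝓞 K)), (∀ k, ∃ e, (T k).IsHomogeneous e) →
        (∀ l, ∃ e, (G l).IsHomogeneous e) →
        QuasiBLV σ (fun _ : Unit => powerFormRing D Q) T G) →
    ∀ (n : ℕ) (ι κ τ : Type) [Finite ι] [Finite κ] (F : ι → MvPolynomial (Fin (n + 1)) (𝓞 K))
      (T : κ → MvPolynomial (Fin (n + 1)) (𝓞 K)) (G : τ → MvPolynomial (Fin (n + 1)) (𝓞 K)),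
      (∀ i, ∃ e, (F i).IsHomogeneous e) → (∀ k, ∃ e, (T k).IsHomogeneous e) →
      (∀ l, ∃ e, (G l).IsHomogeneous e) → QuasiBLV σ F T G

end Pool.Agent.N254.SQ
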